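import Pool.Agent.Work.MP_0ba68b_gt.CX.S3

/-!
The model spaces and the classes of kernels on them.

A model point is `(ρ, ξ₁, ξ₂; x)` with `ρ ∈ I`, `ξ ∈ ℝ²`, `x ∈ S³`.  It stands for the point
`(ρ x, y ξ₁, ξ₂)` of `ℍ × ℝ²`, taken modulo left multiplication of `x` by unit complex numbers and
modulo the maps `gam m`, which shift `ξ` by `m ∈ ℤ²` and multiply `x` by `j ^ (m₁ + m₂)`.
-/

open scoped Quaternion
open Real

namespace Pool.Agent.Work.MP_0ba68b_gt.CX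

noncomputable section

/-- The level `ℓ²`. -/
def l2 : ℝ := 63 / 200

/-- The cost constant `κ = ℓ² π² / 4`. -/
def kap : ℝ := l2 * π ^ 2 / 4

/-- Radius and lattice coordinates. -/
abbrev Ax (I : Set ℝ) : Type := I × ℝ × ℝ

/-- Model points. -/
abbrev Pt (I : Set ℝ) : Type := Ax I × S3

/-- The window of radii. -/
abbrev IR (R : ℝ) : Set ℝ := Set.Icc R⁻¹ R

/-- All radii. -/
abbrev I0 : Set ℝ := Set.Ici 0

variable {I : Set ℝ}

/-- The radius. -/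
def rho (a : Ax I) : ℝ := a.1

/-- Translation of the lattice coordinates. -/
def shift (a : Ax I) (s t : ℝ) : Ax I := (a.1, a.2.1 + s, a.2.2 + t)

/-- The twisted lattice action. -/
def gam (m : ℤ × ℤ) (p : Pt I) : Pt I := (shift p.1 m.1 m.2, jj ^ (m.1 + m.2) * p.2)

/-- Squared flat distance of the lattice coordinates, with sides `y` and `1`. -/
def sg (y : ℝ) (a a' : Ax I) : ℝ := y ^ 2 * (a.2.1 - a'.2.1) ^ 2 + (a.2.2 - a'.2.2) ^ 2

/-- Squared distance of two points with the same direction. -/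
def Dsq (y : ℝ) (a a' : Ax I) : ℝ := (rho a - rho a') ^ 2 + sg y a a'

/-- The angular part of the squared distance in `ℍ / U(1)`. -/
def ang (r r' : ℝ) (x x' : S3) : ℝ := 2 * r * r' * (1 - ‖cin x x'‖)

/-- The angular part for model points. -/
def angP (p p' : Pt I) : ℝ := ang (rho p.1) (rho p'.1) p.2 p'.2

/-- The squared distance in `ℍ / U(1) × ℝ²`. -/
def rep (y : ℝ) (p p' : Pt I) : ℝ := Dsq y p.1 p'.1 + angP p p'

/-- `p'` is a nearest point to `p` in its orbit. -/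
def Minimal (y : ℝ) (p p' : Pt I) : Prop := ∀ m, rep y p p' ≤ rep y p (gam m p')

/-- Kernels on `ℍ / U(1) × ℝ²` invariant under right multiplication. -/
structure PreK (K : Pt I → Pt I → ℝ) : Prop where
  psd : PSD K
  rinv : ∀ a a' x x' (g : S3), K (a, x * g) (a', x' * g) = K (a, x) (a', x')
  uinv : ∀ p a' x' φ, K p (a', ec φ * x') = K p (a', x')

/-- Invariant kernels on the model space. -/
structure BaseK (K : Pt I → Pt I → ℝ) : Prop extends PreK K where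
  ginv : ∀ m p p', K p (gam m p') = K p p'

/-- Admissible kernels with angular budget `b` and lower bound `lo`. -/
structure AdmL (y b : ℝ) (lo : Pt I → Pt I → ℝ) (K : Pt I → Pt I → ℝ) : Prop
    extends BaseK K where
  up0 : ∀ a a' x, nd K (a, x) (a', x) ≤ Dsq y a a'
  upj : ∀ a, ∀ t ∈ Set.Icc 0 (π / 2), nd K (a, 1) (a, ej t) ≤ b * rho a ^ 2 * t ^ 2
  low : ∀ p p', Minimal y p p' → lo p p' ≤ nd K p p'

/-- Admissible kernels of level `lam`. -/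
abbrev Adm (y b lam : ℝ) (K : Pt I → Pt I → ℝ) : Prop :=
  AdmL y b (fun p p' => lam * rep y p p') K

/-- The level `lam` is feasible for the budget `b` on all windows. -/
def Feas (y b lam : ℝ) : Prop :=
  ∀ R, 2 ≤ R → ∃ K : Pt (IR R) → Pt (IR R) → ℝ, Adm y b lam K

/-- The capped angular term. -/
def cap (μ ω : ℝ) (p p' : Pt I) : ℝ := min (μ * angP p p') (ω * (rho p.1 * rho p'.1))

/-- The upgrade property: a little loss of level buys extra angular separation of close pairs. -/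
def UpProp (ϑ t0 : ℝ) : Prop :=
  ∀ R, 2 ≤ R → ∀ y b lam, 1 ≤ y → 0 ≤ b → b ≤ 1 → 3 / 10 ≤ lam → lam ≤ 2 / 5 →
    ∀ K : Pt (IR R) → Pt (IR R) → ℝ, Adm y b lam K →
      ∃ K' : Pt (IR R) → Pt (IR R) → ℝ, AdmL y (b + ϑ) (fun p p' => (lam - ϑ) * rep y p p' +
        if rep y p p' ≤ t0 ^ 2 * (rho p.1 * rho p'.1) then 3 / 100 * angP p p' else 0) K'

/-- The cone kernel. -/
def k0 (p p' : Pt I) : ℝ := rho p.1 * rho p'.1 * (22 / 25 + 2 / 25 * p2 p.2 p'.2)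

/-- The rotating kernel. -/
def krot (y : ℝ) (θ : ℝ → ℝ) (p p' : Pt I) : ℝ :=
  (y ^ 2 - 1) / (4 * π ^ 2) * cos (2 * π * (p.1.2.1 - p'.1.2.1)) +
    cos (θ (rho p.1)) * cos (θ (rho p'.1)) *
      ((cos (2 * π * (p.1.2.1 - p'.1.2.1)) + cos (2 * π * (p.1.2.2 - p'.1.2.2))) / (4 * π ^ 2) +
        1 / (2 * π ^ 2)) +
    sin (θ (rho p.1)) * sin (θ (rho p'.1)) *
      (uu p.2 p'.2 * cos (π * (p.1.2.1 - p'.1.2.1)) * cos (π * (p.1.2.2 - p'.1.2.2)) / π ^ 2)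

/-- The torus part of the squared distance of the rotating kernel. -/
def ntor (y S a b u : ℝ) : ℝ :=
  (y ^ 2 * sin a ^ 2 + sin b ^ 2 + S * (cos a ^ 2 + cos b ^ 2 - 2 * u * cos a * cos b)) / π ^ 2

/-- Approximate embeddings of the model with fibre `ℤ / q` into `ℝ ^ N`. -/
structure Apx (N q : ℕ) (y R ε : ℝ) (F : Pt (IR R) → EuclideanSpace ℝ (Fin N)) : Prop where
  up : ∀ p p', ‖F p - F p'‖ ^ 2 ≤
    ‖rho p.1 • (p.2 : ℍ[ℝ]) - rho p'.1 • (p'.2 : ℍ[ℝ])‖ ^ 2 + sg y p.1 p'.1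
  ginv : ∀ m p, F (gam m p) = F p
  zap : ∀ a x, ‖F (a, ec (2 * π / q) * x) - F (a, x)‖ ≤ ε
  low1 : ∀ p p', Minimal y p p' → l2 * rep y p p' - ε ≤ ‖F p - F p'‖ ^ 2
  low2 : ∀ a x, l2 * (4 * rho a ^ 2 * sin (π / (2 * q)) ^ 2) - ε ≤
    ‖F (a, x) - F (a, ec (π / q) * x)‖ ^ 2

/-- Kernels on all radii, invariant in each variable (no right invariance). -/
structure WeakK (K : Pt I0 → Pt I0 → ℝ) : Prop where
  psd : PSD K
  uinv : ∀ p a' x' φ, K p (a', ec φ * x') = K p (a', x')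
  ginv : ∀ m p p', K p (gam m p') = K p p'
  zero : ∀ p a' x' x'', rho a' = 0 → K p (a', x') = K p (a', x'')

/-- Output of the inner gluing. -/
structure InnerOut (y η bm μ ω R : ℝ) (K : Pt I0 → Pt I0 → ℝ) : Prop extends WeakK K where
  diag : ∀ p, K p p ≤ 20 * (rho p.1 + 5) ^ 2
  lowA : ∀ p p', rho p'.1 ≤ rho p.1 → rho p.1 ≤ R → ∃ m,
    (l2 + 3 / 5 * η) * rep y p (gam m p') + 3 / 2 * cap μ ω p (gam m p') ≤ nd K p p'
  lowB : ∀ p p', rho p'.1 ≤ rho p.1 → rho p.1 < R⁻¹ → ∃ m,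
    (l2 + 3 / 5 * η) * rep y p (gam m p') +
      3 / 1000 * ((rho p.1 - rho p'.1) ^ 2 + angP p (gam m p')) ≤ nd K p p'
  upA : ∀ p, rho p.1 < R → ∀ ε > 0, ∃ δ > 0, ∀ p', rep y p p' < δ →
    nd K p p' ≤ (1 - 3 / 10 * η) * (Dsq y p.1 p'.1 + bm * angP p p') + ε * rep y p p'
  upB : ∀ p, rho p.1 < R⁻¹ → ∀ ε > 0, ∃ δ > 0, ∀ p', rep y p p' < δ →
    nd K p p' ≤ (1 - 3 / 10 * η) * sg y p.1 p'.1 +
      49 / 50 * ((rho p.1 - rho p'.1) ^ 2 + angP p p') + ε * rep y p p'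

/-- Output of the model lemma: a weight `W` for the cone kernel and a bounded rest `K`. -/
structure ModelOut (y η bm μ ω R : ℝ) (W : ℝ → ℝ) (K : Pt I0 → Pt I0 → ℝ) : Prop
    extends WeakK K where
  W0 : ∀ r, 0 ≤ W r
  W1 : ∀ r, W r ≤ 1
  Wtop : ∀ r, R ≤ r → W r = 1
  Wbot : ∀ r, r ≤ 1 → W r = 0
  Wlip : ∀ r r', 0 ≤ r' → r' ≤ r → |W r - W r'| * r' ≤ η / 1000 * (r - r')
  diag : ∀ p, K p p ≤ 100 * (R + y) ^ 2
  lowA : ∀ p p', rho p'.1 ≤ rho p.1 → ∃ m,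
    (l2 + η / 4) * rep y p (gam m p') + cap μ ω p (gam m p') ≤
      999 / 1000 * (W (rho p.1) ^ 2 * nd k0 p p') + (1 - η / 100) * nd K p p'
  lowB : ∀ p p', rho p'.1 ≤ rho p.1 → rho p.1 < R⁻¹ → ∃ m,
    (l2 + η / 4) * rep y p (gam m p') +
      2 / 1000 * ((rho p.1 - rho p'.1) ^ 2 + angP p (gam m p')) ≤
      999 / 1000 * (W (rho p.1) ^ 2 * nd k0 p p') + (1 - η / 100) * nd K p p'
  upA : ∀ p, ∀ ε > 0, ∃ δ > 0, ∀ p', rep y p p' < δ →
    1001 / 1000 * (W (rho p.1) ^ 2 * nd k0 p p') + (1 + η / 100) * nd K p p' ≤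
      (1 - η / 4) * (Dsq y p.1 p'.1 + bm * angP p p') + ε * rep y p p'
  upB : ∀ p, rho p.1 < R⁻¹ → ∀ ε > 0, ∃ δ > 0, ∀ p', rep y p p' < δ →
    1001 / 1000 * (W (rho p.1) ^ 2 * nd k0 p p') + (1 + η / 100) * nd K p p' ≤
      (1 - η / 4) * sg y p.1 p'.1 + 99 / 100 * ((rho p.1 - rho p'.1) ^ 2 + angP p p') +
        ε * rep y p p'

@[simp] lemma rho_shift (a : Ax I) (s t : ℝ) : rho (shift a s t) = rho a := rfl
@[simp] lemma rho_gam (m : ℤ × ℤ) (p : Pt I) : rho (gam m p).1 = rho p.1 := rfl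

lemma rho_nonneg (a : Ax I0) : 0 ≤ rho a := a.1.2

lemma rho_pos {R : ℝ} (hR : 0 < R) (a : Ax (IR R)) : 0 < rho a :=
  (inv_pos.2 hR).trans_le a.1.2.1

lemma shift_shift (a : Ax I) (s t s' t' : ℝ) :
    shift (shift a s t) s' t' = shift a (s + s') (t + t') := by
  simp only [shift, add_assoc]

lemma shift_zero (a : Ax I) : shift a 0 0 = a := by simp [shift]

lemma gam_zero (p : Pt I) : gam 0 p = p := by simp [gam, shift]

lemma gam_add (m m' : ℤ × ℤ) (p : Pt I) : gam m (gam m' p) = gam (m + m') p := by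
  simp only [gam, shift_shift, Prod.fst_add, Prod.snd_add, Int.cast_add, ← mul_assoc, ← zpow_add]
  congr 2
  · ring
  · ring
  · congr 1; ring

lemma sg_nonneg (y : ℝ) (a a' : Ax I) : 0 ≤ sg y a a' := by unfold sg; positivity

lemma Dsq_nonneg (y : ℝ) (a a' : Ax I) : 0 ≤ Dsq y a a' := by
  unfold Dsq; linarith [sg_nonneg y a a', sq_nonneg (rho a - rho a')]

lemma ang_nonneg {r r' : ℝ} (hr : 0 ≤ r) (hr' : 0 ≤ r') (x x' : S3) : 0 ≤ ang r r' x x' := by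
  have := norm_cin_le x x'
  unfold ang
  have : 0 ≤ 1 - ‖cin x x'‖ := by linarith
  positivity

lemma ang_self (r r' : ℝ) (x : S3) : ang r r' x x = 0 := by simp [ang, cin_self]

lemma ang_ec (r r' φ : ℝ) (x x' : S3) : ang r r' x (ec φ * x') = ang r r' x x' := by
  simp only [ang, Metric.unitSphere.coe_mul, norm_cin_ec_right]

lemma ang_ec_left (r r' φ : ℝ) (x x' : S3) : ang r r' (ec φ * x) x' = ang r r' x x' := by
  simp only [ang, Metric.unitSphere.coe_mul, norm_cin_ec_left]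

lemma ang_zpow_even {n : ℤ} (h : Even n) (r r' : ℝ) (x x' : S3) :
    ang r r' x (jj ^ n * x') = ang r r' x x' := by
  obtain ⟨φ, h, -⟩ := jj_zpow_even h
  rw [h, ang_ec]

lemma ang_zpow_odd {n : ℤ} (h : Odd n) (r r' : ℝ) (x x' : S3) :
    ang r r' x (jj ^ n * x') = ang r r' x (jj * x') := by
  obtain ⟨φ, h, -⟩ := jj_zpow_odd h
  rw [h, mul_assoc, ang_ec]

lemma kap_pos : 0 < kap := by unfold kap l2; positivity

lemma kap_le : kap ≤ 4 / 5 := by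
  unfold kap l2
  nlinarith [pi_lt_d2, pi_pos]

lemma le_kap : 3 / 4 ≤ kap := by
  unfold kap l2
  nlinarith [pi_gt_d2, pi_pos]

end

end Pool.Agent.Work.MP_0ba68b_gt.CX
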