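import Mathlib.Analysis.InnerProductSpace.ProdL2
import Pool.Agent.Work.MP_0ba68b_gt.Basic
import Pool.Agent.Work.MP_0ba68b_gt.CX.Defs

/-!
The space `V = ℍ × ℂ × ℝ × ℂ`, the group, and the arithmetic and analytic interfaces.
-/

open scoped Quaternion
open Real

namespace Pool.Agent.Work.MP_0ba68b_gt.CX

noncomputable section

/-! ### The fibre lattice -/

/-- The rotation angle of the fibre element `(k, n)`. -/
def al (q0 : ℕ) (θ : ℝ) (k n : ℤ) : ℝ := 2 * π * k / q0 + n * θ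

/-- The length of the fibre element `(k, n)` at radius `ρ`. -/
def flen (q0 : ℕ) (θ ρ : ℝ) (k n : ℤ) : ℝ := √(ρ ^ 2 * al q0 θ k n ^ 2 + (n : ℝ) ^ 2)

/-- A good basis of the fibre lattice at radius `ρ`. -/
structure FBas (q0 : ℕ) (θ ρ e Q : ℝ) (k1 n1 k2 n2 : ℤ) : Prop where
  n1_nonneg : 0 ≤ n1
  n2_nonneg : 0 ≤ n2
  det : k1 * n2 - k2 * n1 = 1 ∨ k1 * n2 - k2 * n1 = -1
  orth : |ρ ^ 2 * (al q0 θ k1 n1 * al q0 θ k2 n2) + n1 * n2| ≤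
    e * (flen q0 θ ρ k1 n1 * flen q0 θ ρ k2 n2)
  cost : n1 / (q0 * flen q0 θ ρ k1 n1 ^ 2) + n2 / (q0 * flen q0 θ ρ k2 n2 ^ 2) ≤ (1 + e) / Q
  len1 : flen q0 θ ρ k1 n1 ≤ 10 * ρ / Q
  len2 : flen q0 θ ρ k2 n2 ≤ 10 * ρ / Q

/-- The arithmetic of the fibre lattice. -/
structure FibArith (q0 : ℕ) (θ : ℝ) (q : ℕ → ℕ) (e : ℕ → ℝ) : Prop where
  q_zero : q 0 = q0
  grow : ∀ k, 8 * q k ≤ q (k + 1)
  th0 : 0 ≤ θ
  th1 : 2 * ((q0 : ℝ) ^ 2 / e 0) * θ ≤ e 0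
  fb : ∀ k ρ, (q k : ℝ) ^ 2 / e k ≤ ρ → ∃ k1 n1 k2 n2, FBas q0 θ ρ (e k) (q k) k1 n1 k2 n2

/-- Points of `ℍ × ℝ`. -/
abbrev FP : Type := ℍ[ℝ] × ℝ

/-- The screw motions. -/
def fib (q0 : ℕ) (θ : ℝ) (k n : ℤ) (p : FP) : FP := (ec (al q0 θ k n) * p.1, p.2 + n)

/-- The powers of the flip. -/
def fJ (a : ℤ) (p : FP) : FP := ((jj ^ a : S3) * p.1, (-1) ^ a * p.2)

/-- The squared distance in `ℍ × ℝ`. -/
def fd2 (p p' : FP) : ℝ := ‖p.1 - p'.1‖ ^ 2 + (p.2 - p'.2) ^ 2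

/-- The angular part of the squared distance in `ℍ / U(1)`. -/
def angH (x x' : ℍ[ℝ]) : ℝ := ang ‖x‖ ‖x'‖ (hat x) (hat x')

/-- The fibre part of the squared distance. -/
def vert (p p' : FP) : ℝ := fd2 p p' - (‖p.1‖ - ‖p'.1‖) ^ 2 - angH p.1 p'.1

/-- The squared distance of a kernel multiplied by a unit kernel with value `Θ`. -/
def nth (K : FP → FP → ℝ) (Θ : ℝ) (p p' : FP) : ℝ := K p p + K p' p' - 2 * K p p' * Θ

/-- Output of the fibre construction. -/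
structure FibOut (q0 : ℕ) (θ : ℝ) (ρm η μ ω c : ℕ → ℝ) (Kc Ko : FP → FP → ℝ) : Prop where
  psdc : PSD Kc
  psdo : PSD Ko
  fibc : ∀ k n p p', Kc p (fib q0 θ k n p') = Kc p p'
  fibo : ∀ k n p p', Ko p (fib q0 θ k n p') = Ko p p'
  Jc : ∀ a p p', Kc p (fJ a p') = Kc p p'
  Jo : ∀ a p p', Ko p (fJ a p') = (-1) ^ a * Ko p p'
  diag : ∀ p, Ko p p ≤ 1
  low0 : ∀ p p' Θ f, |Θ| ≤ 1 → 9 / 10 ≤ f → f ≤ 1 → ∃ k n,
    l2 * vert p (fib q0 θ k n p') ≤ nd Kc p p' + f * nth Ko Θ p p' + (2 - 2 * Θ) +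
      1 / 1000 * ((‖p.1‖ - ‖p'.1‖) ^ 2 + angH p.1 p'.1)
  lowk : ∀ j p p' Θ f, ρm j ≤ max ‖p.1‖ ‖p'.1‖ → |Θ| ≤ 1 → 9 / 10 ≤ f → f ≤ 1 → ∃ k n,
    l2 * vert p (fib q0 θ k n p') ≤ nd Kc p p' + f * nth Ko Θ p p' + (2 - 2 * Θ) +
      η j / 20 * (‖p.1‖ - ‖p'.1‖) ^ 2 + min (μ j * angH p.1 p'.1) (ω j * (‖p.1‖ * ‖p'.1‖))
  up0 : ∀ p, ∀ ε > 0, ∃ δ > 0, ∀ p', fd2 p p' < δ → ∀ Θ, |Θ| ≤ 1 →
    nd Kc p p' + 21 / 20 * nth Ko Θ p p' ≤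
      1 / 1000 * ((‖p.1‖ - ‖p'.1‖) ^ 2 + angH p.1 p'.1) + 24 / 25 * vert p p' +
        3 * (2 - 2 * Θ) + ε * fd2 p p'
  upk : ∀ j p, ρm j ≤ ‖p.1‖ → ∀ ε > 0, ∃ δ > 0, ∀ p', fd2 p p' < δ → ∀ Θ, |Θ| ≤ 1 →
    nd Kc p p' + 21 / 20 * nth Ko Θ p p' ≤
      η j / 20 * (‖p.1‖ - ‖p'.1‖) ^ 2 + c j * angH p.1 p'.1 + 24 / 25 * vert p p' +
        3 * (2 - 2 * Θ) + ε * fd2 p p'

/-! ### The clock lattice -/

/-- The parameters of the group. -/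
structure Par where
  q0 : ℕ
  m0 : ℕ
  θ : ℝ
  φ1 : ℝ
  φ2 : ℝ
  τ1 : ℝ
  τ2 : ℝ

/-- Integer vectors. -/
abbrev Z3 : Type := ℤ × ℤ × ℤ

/-- Real vectors. -/
abbrev R3 : Type := ℝ × ℝ × ℝ

/-- The cast. -/
def cz (v : Z3) : R3 := (v.1, v.2.1, v.2.2)

/-- The number of flips. -/
def par (v : Z3) : ℤ := v.2.1 + v.2.2

/-- The clock angle. -/
def Par.an (P : Par) (v : R3) : ℝ := 2 * π * v.1 / P.m0 + v.2.1 * P.φ1 + v.2.2 * P.φ2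

/-- The translation part. -/
def Par.pv (P : Par) (v : R3) : ℂ := ⟨P.τ1 * v.2.1, P.τ2 * v.2.2⟩

/-- The quadratic form at clock radius `r`. -/
def Par.Q (P : Par) (r : ℝ) (v : R3) : ℝ := r ^ 2 * P.an v ^ 2 + ‖P.pv v‖ ^ 2

/-- The vector with given angle and translation part. -/
def Par.eta (P : Par) (ψ : ℝ) (s : ℂ) : R3 :=
  ((ψ - s.re / P.τ1 * P.φ1 - s.im / P.τ2 * P.φ2) * P.m0 / (2 * π), s.re / P.τ1, s.im / P.τ2)

/-- Positivity of the parameters. -/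
structure Par.Good (P : Par) : Prop where
  q0_pos : 0 < P.q0
  q0_even : Even P.q0
  m0_pos : 0 < P.m0
  τ1_pos : 0 < P.τ1
  τ2_pos : 0 < P.τ2

/-- Bases of `ℤ³` of type odd, odd, even. -/
structure IsBas (a b c : Z3) : Prop where
  span : ∀ v : Z3, ∃ n1 n2 n3 : ℤ, v = n1 • a + n2 • b + n3 • c
  odda : Odd (par a)
  oddb : Odd (par b)
  evenc : Even (par c)

/-- Real combinations of a basis. -/
def comb (a b c : Z3) (ξ : R3) : R3 := ξ.1 • cz a + ξ.2.1 • cz b + ξ.2.2 • cz c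

/-- Two sided comparison of the form with a diagonal form. -/
def Par.Cmp (P : Par) (r e A B C : ℝ) (a b c : Z3) : Prop :=
  ∀ ξ : R3, (1 - e) * (A * ξ.1 ^ 2 + B * ξ.2.1 ^ 2 + C * ξ.2.2 ^ 2) ≤ P.Q r (comb a b c ξ) ∧
    P.Q r (comb a b c ξ) ≤ (1 + e) * (A * ξ.1 ^ 2 + B * ξ.2.1 ^ 2 + C * ξ.2.2 ^ 2)

/-- Almost orthogonal bases. -/
def Par.Orth (P : Par) (r e : ℝ) (a b c : Z3) : Prop :=
  P.Cmp r e (P.Q r (cz a)) (P.Q r (cz b)) (P.Q r (cz c)) a b c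

/-- A good basis of the clock lattice at radius `r`. -/
structure CBas (P : Par) (r E Y G : ℝ) (a b c : Z3) : Prop where
  bas : IsBas a b c
  orth : P.Orth r E a b c
  ratio : (Y * (1 - E)) ^ 2 * P.Q r (cz b) ≤ P.Q r (cz a)
  big : 1 ≤ E ^ 2 * P.Q r (cz b)
  sa : P.Q r (cz a) ≤ (G * r) ^ 2
  sb : P.Q r (cz b) ≤ (G * r) ^ 2
  sc : P.Q r (cz c) ≤ (G * r) ^ 2

/-- The arithmetic of the clock lattice. -/
structure ClkArith (P : Par) (E Y : ℕ → ℝ) (r0 : ℝ) (lev : ℝ → ℕ) : Prop where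
  r0_pos : 0 < r0
  mono : Monotone lev
  t12 : P.τ1 = 4 * P.τ2
  big0 : 1 ≤ E 0 * P.τ2
  ph1 : 2 * r0 * |P.φ1| ≤ E 0 * P.τ2
  ph2 : 2 * r0 * |P.φ2| ≤ E 0 * P.τ2
  sz0 : P.τ1 ≤ E (lev (8 * r0)) * r0
  an0 : 2 * π / P.m0 ≤ E (lev (8 * r0))
  pt : ∀ r, r0 ≤ r → ∃ k a b c, k ≤ lev r ∧ CBas P r (E k) (Y k) (E (lev (8 * r))) a b c

/-- At some clock radius the group looks like the model with fibre `ℤ / q` and ratio `y`. -/
def Event (P : Par) (q : ℕ) (y E : ℝ) : Prop :=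
  ∃ (r δ : ℝ) (a b c : Z3), 0 < r ∧ CBas P r E y E a b c ∧
    |P.Q r (cz a) - y ^ 2 * P.Q r (cz b)| ≤ E * P.Q r (cz b) ∧
    0 ≤ δ ∧ δ ^ 2 * P.Q r (cz b) ≤ E ^ 2 ∧
    (∀ k n : ℤ, ∃ l : ℤ, |al P.q0 P.θ k n - 2 * π * l / q| ≤ |(n : ℝ)| * δ) ∧
    ∃ k n : ℤ, |n| ≤ q ∧ |al P.q0 P.θ k n - 2 * π / q| ≤ q * δ

/-- The recurrence relations of the clock construction. -/
structure ClkRel (P : Par) (T Y : ℕ → ℝ) (v : ℕ → Z3) (N N' : ℕ → ℤ) : Prop where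
  v0 : v 0 = (1, 0, 0)
  v1 : v 1 = (0, 1, 0)
  v2 : v 2 = (0, 0, 1)
  step : ∀ n, v (n + 3) = v n - N n • v (n + 1) - N' n • v (n + 2)
  even : ∀ n, Even (N n)
  even' : ∀ n, Even (N' n)
  abs_le : ∀ n, |N' n| ≤ N n
  big : ∀ n, 1 ≤ N n * T (n / 3 + 1) ^ 4
  orth : ∀ n, |inner ℝ (P.pv (cz (v (n + 2)))) (P.pv (cz (v (n + 3))))| ≤
    T (n / 3 + 1) * (‖P.pv (cz (v (n + 2)))‖ * ‖P.pv (cz (v (n + 3)))‖)
  len_ge : ∀ n, N n * ‖P.pv (cz (v (n + 1)))‖ ≤ 2 * ‖P.pv (cz (v (n + 3)))‖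
  len_le : ∀ n, ‖P.pv (cz (v (n + 3)))‖ ≤ 2 * N n * ‖P.pv (cz (v (n + 1)))‖
  five : ∀ n, ‖P.pv (cz (v n))‖ ≤ 5 * ‖P.pv (cz (v (n + 1)))‖
  nz : ∀ j, N' (3 * j + 2) = 0
  ratio : ∀ j, |‖P.pv (cz (v (3 * j + 4)))‖ - Y (j + 1) * ‖P.pv (cz (v (3 * j + 5)))‖| ≤
    T (j + 1) * ‖P.pv (cz (v (3 * j + 5)))‖
  mono : ∀ j, ‖P.pv (cz (v (3 * j + 3)))‖ ≤ ‖P.pv (cz (v (3 * j + 4)))‖

/-! ### Partitions -/

/-- The gap function. -/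
def gap (r0 : ℝ) (nu : ℝ → ℝ) (r : ℝ) : ℝ := nu (4 * max r r0) * max r r0

/-- The windows. -/
def Win (nu : ℝ → ℝ) (c : ℕ → ℝ) (i : ℕ) (r : ℝ) : Prop :=
  0 ≤ r ∧ (i = 0 ∨ c i ≤ r) ∧ r ≤ c i * (1 + nu (c i)) ^ 4

/-- A partition of unity in the radius. -/
structure Part (r0 : ℝ) (nu : ℝ → ℝ) (c : ℕ → ℝ) (w : ℕ → ℝ → ℝ) : Prop where
  c0 : c 0 = r0
  ge : ∀ i, r0 ≤ c i
  two : ∀ r, ∃ j, (∀ i, i ≠ j → i ≠ j + 1 → w i r = 0) ∧ w j r ^ 2 + w (j + 1) r ^ 2 = 1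
  zero : ∀ r, r ≤ r0 → ∀ i, i ≠ 0 → w i r = 0
  lip : ∀ i r r', 0 ≤ r' → r' ≤ r → |w i r - w i r'| * gap r0 nu r ≤ 5 * (r - r')
  nf : ∀ r r', 0 ≤ r' → r' ≤ r →
    (∀ i, w i r ≠ 0 ∨ w i r' ≠ 0 → Win nu c i r ∧ Win nu c i r') ∨
      (r0 ≤ r ∧ gap r0 nu r ≤ 2 * (r - r') ∧ gap r0 nu r' ≤ 2 * (r - r'))

/-! ### The space and the group -/

/-- The space `ℍ × ℂ × ℝ × ℂ`. -/
abbrev VV : Type := WithLp 2 (ℍ[ℝ] × WithLp 2 (ℂ × WithLp 2 (ℝ × ℂ)))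

/-- A point from its coordinates. -/
def mkV (x : ℍ[ℝ]) (w : ℂ) (t : ℝ) (s : ℂ) : VV :=
  WithLp.toLp 2 (x, WithLp.toLp 2 (w, WithLp.toLp 2 (t, s)))

/-- The quaternion coordinate. -/
def vx (X : VV) : ℍ[ℝ] := X.fst
/-- The clock coordinate. -/
def vw (X : VV) : ℂ := X.snd.fst
/-- The screw coordinate. -/
def vt (X : VV) : ℝ := X.snd.snd.fst
/-- The plane coordinate. -/
def vs (X : VV) : ℂ := X.snd.snd.snd
/-- The fibre point. -/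
def fp (X : VV) : FP := (vx X, vt X)

@[simp] lemma vx_mk (x w t s) : vx (mkV x w t s) = x := rfl
@[simp] lemma vw_mk (x w t s) : vw (mkV x w t s) = w := rfl
@[simp] lemma vt_mk (x w t s) : vt (mkV x w t s) = t := rfl
@[simp] lemma vs_mk (x w t s) : vs (mkV x w t s) = s := rfl
lemma mk_eta (X : VV) : mkV (vx X) (vw X) (vt X) (vs X) = X := rfl

lemma dist_sq (X Y : VV) : dist X Y ^ 2 =
    ‖vx X - vx Y‖ ^ 2 + ‖vw X - vw Y‖ ^ 2 + (vt X - vt Y) ^ 2 + ‖vs X - vs Y‖ ^ 2 := by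
  rw [dist_eq_norm, WithLp.prod_norm_sq_eq_of_L2, WithLp.prod_norm_sq_eq_of_L2,
    WithLp.prod_norm_sq_eq_of_L2, Real.norm_eq_abs, sq_abs]
  simp only [vx, vw, vt, vs, WithLp.sub_fst, WithLp.sub_snd]
  ring

/-- The action of the element with data `(k, n, v)`. -/
def Par.act (P : Par) (k n : ℤ) (v : Z3) (X : VV) : VV :=
  mkV (ec (al P.q0 P.θ k n) * ((jj ^ par v : S3) * vx X))
    (Complex.exp (P.an (cz v) * Complex.I) * vw X) ((-1) ^ par v * vt X + n) (vs X + P.pv (cz v))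

lemma fp_act (P : Par) (k n : ℤ) (v : Z3) (X : VV) :
    fp (P.act k n v X) = fib P.q0 P.θ k n (fJ (par v) (fp X)) := rfl

lemma jj_zpow_mul_ec (a : ℤ) (φ : ℝ) : jj ^ a * ec φ = ec ((-1) ^ a * φ) * jj ^ a := by
  rcases Int.even_or_odd a with h | h
  · obtain ⟨ψ, e, -⟩ := jj_zpow_even h
    rw [e, h.neg_one_zpow, one_mul, ← ec_add, ← ec_add, add_comm]
  · obtain ⟨ψ, e, -⟩ := jj_zpow_odd h
    rw [e, h.neg_one_zpow, mul_assoc, jj_mul_ec, ← mul_assoc, ← mul_assoc, ← ec_add, ← ec_add,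
      add_comm, neg_one_mul]

lemma cz_add (v v' : Z3) : cz (v + v') = cz v + cz v' := by simp [cz]
lemma par_add (v v' : Z3) : par (v + v') = par v + par v' := by simp [par]; ring
lemma Par.an_add (P : Par) (v v' : R3) : P.an (v + v') = P.an v + P.an v' := by
  simp [Par.an]; ring
lemma Par.pv_add (P : Par) (v v' : R3) : P.pv (v + v') = P.pv v + P.pv v' := by
  apply Complex.ext <;> simp [Par.pv] <;> ring

lemma Par.act_zero (P : Par) (X : VV) : P.act 0 0 0 X = X := by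
  have e : P.pv (cz 0) = 0 := by apply Complex.ext <;> simp [Par.pv, cz]
  simp only [Par.act, e]
  simp [al, par, ec_zero, Par.an, cz, mk_eta]

lemma Par.act_act (P : Par) (k n k' n' : ℤ) (v v' : Z3) (X : VV) :
    P.act k n v (P.act k' n' v' X) =
      P.act (k + (par v).negOnePow * k') (n + (par v).negOnePow * n') (v + v') X := by
  have hs : (((par v).negOnePow : ℤ) : ℝ) = (-1) ^ par v := Int.cast_negOnePow ℝ _
  simp only [Par.act, vx_mk, vw_mk, vt_mk, vs_mk, cz_add, par_add, P.an_add, P.pv_add]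
  congr 1
  · have : al P.q0 P.θ (k + (par v).negOnePow * k') (n + (par v).negOnePow * n') =
        al P.q0 P.θ k n + (-1) ^ par v * al P.q0 P.θ k' n' := by
      simp only [al]; push_cast; rw [hs]; ring
    rw [this, ec_add, zpow_add]
    simp only [← mul_assoc, ← Metric.unitSphere.coe_mul]
    rw [mul_assoc (ec _) (jj ^ par v), jj_zpow_mul_ec]
    simp only [mul_assoc]
  · push_cast
    rw [add_mul, Complex.exp_add, mul_assoc]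
  · push_cast
    rw [hs, zpow_add₀ (by norm_num)]
    ring
  · ring

lemma Par.dist_act (P : Par) (k n : ℤ) (v : Z3) (X Y : VV) :
    dist (P.act k n v X) (P.act k n v Y) = dist X Y := by
  have : dist (P.act k n v X) (P.act k n v Y) ^ 2 = dist X Y ^ 2 := by
    rw [dist_sq, dist_sq]
    simp only [Par.act, vx_mk, vw_mk, vt_mk, vs_mk, ← mul_sub, norm_mul, S3.norm,
      Complex.norm_exp_ofReal_mul_I, one_mul, add_sub_add_right_eq_sub, mul_pow]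
    rcases Int.even_or_odd (par v) with h | h
    · rw [h.neg_one_zpow]; ring
    · rw [h.neg_one_zpow]; ring
  exact (pow_left_inj₀ dist_nonneg dist_nonneg two_ne_zero).1 this

lemma par_neg (v : Z3) : par (-v) = -par v := by simp [par]; ring

/-- The action as an isometry. -/
def Par.actE (P : Par) (k n : ℤ) (v : Z3) : VV ≃ᵢ VV where
  toFun := P.act k n v
  invFun := P.act (-((par v).negOnePow * k)) (-((par v).negOnePow * n)) (-v)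
  left_inv X := by
    rw [P.act_act, par_neg, Int.negOnePow_neg]
    simp [P.act_zero]
  right_inv X := by
    have h : ((par v).negOnePow : ℤ) * (par v).negOnePow = 1 := by
      rw [← Units.val_mul, Int.units_mul_self, Units.val_one]
    rw [P.act_act]
    simp only [mul_neg, ← mul_assoc, h, one_mul, add_neg_cancel, P.act_zero]
  isometry_toFun := Isometry.of_dist_eq (P.dist_act k n v)

/-- The group. -/
def Par.Gam (P : Par) : Subgroup (VV ≃ᵢ VV) where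
  carrier := {g | ∃ k n v, g = P.actE k n v}
  mul_mem' := by
    rintro _ _ ⟨k, n, v, rfl⟩ ⟨k', n', v', rfl⟩
    exact ⟨_, _, _, IsometryEquiv.ext fun X => P.act_act k n k' n' v v' X⟩
  one_mem' := ⟨0, 0, 0, IsometryEquiv.ext fun X => (P.act_zero X).symm⟩
  inv_mem' := by
    rintro _ ⟨k, n, v, rfl⟩
    exact ⟨_, _, _, IsometryEquiv.ext fun X => rfl⟩

/-- The squared quotient distance. -/
def Par.D2 (P : Par) (X Y : VV) : ℝ := odist (orb P.Gam X) (orb P.Gam Y) ^ 2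

lemma Par.D2_le (P : Par) (k n : ℤ) (v : Z3) (X Y : VV) :
    P.D2 X Y ≤ dist X (P.act k n v Y) ^ 2 := by
  have h1 : P.actE k n v ∈ P.Gam := ⟨k, n, v, rfl⟩
  have h2 := odist_le' (Γ := P.Gam) X (P.actE k n v Y)
  rw [orb_apply h1] at h2
  exact pow_le_pow_left₀ (odist_nonneg _ _) h2 2

lemma Par.le_D2 (P : Par) {X Y : VV} {c : ℝ}
    (h : ∀ k n v, c ≤ dist X (P.act k n v Y) ^ 2) : c ≤ P.D2 X Y := by
  have : √c ≤ odist (orb P.Gam X) (orb P.Gam Y) := by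
    refine le_odist fun g hg => ?_
    obtain ⟨k, n, v, e⟩ := P.Gam.inv_mem hg
    have e2 : dist (g X) Y = dist X (P.act k n v Y) := by
      rw [← g.dist_eq X]
      congr 1
      change Y = g (P.actE k n v Y)
      rw [← e]
      simp
    rw [e2]
    exact Real.sqrt_le_iff.2 ⟨dist_nonneg, h k n v⟩
  exact (Real.sqrt_le_iff.1 this).2

/-- The cone kernel on the space. -/
def kV (X X' : VV) : ℝ := ‖vx X‖ * ‖vx X'‖ * (22 / 25 + 2 / 25 * p2 (hat (vx X)) (hat (vx X')))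

/-- A sample of the clock lattice, valid on a window. -/
structure Smp (P : Par) (η R ρm : ℝ) (Wn : ℝ → Prop) (g : ℝ → ℝ) (a b c : Z3) (τa τb : ℝ) :
    Prop where
  bas : IsBas a b c
  pos : 0 < τb
  ge : τb ≤ τa
  conn : ∀ r r' s, Wn r → Wn r' → r ≤ s → s ≤ r' → Wn s
  nonneg : ∀ r, Wn r → 0 ≤ r
  valid : ∀ r, Wn r → P.Cmp r (η / 100) (τa ^ 2) (τb ^ 2) (P.Q r (cz c)) a b c
  big : 2000 ≤ η * τb ^ 2
  plat : ρm * R ≤ τb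
  size : ∀ r r', Wn r → Wn r' →
    10 ^ 9 * (R * τb + τa + √(P.Q r' (cz c)) + 1) ^ 2 ≤ η * g r ^ 2
  angc : |P.an (cz c)| ≤ 1 / 100

/-- Output for one sample: a weight `W` for the cone kernel and a private kernel `ks`. -/
structure SmpOut (P : Par) (Kc : FP → FP → ℝ) (η : ℝ) (Wn : ℝ → Prop) (g : ℝ → ℝ) (z : Prop)
    (W : ℝ → ℝ) (ks : VV → VV → ℝ) : Prop where
  psd : PSD ks
  inv : ∀ k n v X X', vw X' ≠ 0 ∨ z → ks X (P.act k n v X') = ks X X'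
  W0 : ∀ r, 0 ≤ W r
  W1 : ∀ r, W r ≤ 1
  Wbot : ∀ r, r ≤ 1 → W r = 0
  Wtop : ∀ ρ r, 0 ≤ ρ → W ρ ≠ 1 → Wn r → 10 ^ 6 * ρ ^ 2 ≤ g r ^ 2
  Wlip : ∀ r r', 0 ≤ r' → r' ≤ r → |W r - W r'| * r' ≤ η / 1000 * (r - r')
  diag : ∀ X r, Wn ‖vw X‖ → Wn r → 10 ^ 6 * ks X X ≤ η * g r ^ 2
  low : ∀ X X', Wn ‖vw X‖ → Wn ‖vw X'‖ → ‖vx X'‖ ≤ ‖vx X‖ →
    l2 * P.D2 X X' + η / 100 * (‖vx X‖ - ‖vx X'‖) ^ 2 ≤
      l2 * (‖vw X‖ - ‖vw X'‖) ^ 2 + nd Kc (fp X) (fp X') +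
        999 / 1000 * (W ‖vx X‖ ^ 2 * nd kV X X') + (1 - η / 100) * nd ks X X'
  up : ∀ X, Wn ‖vw X‖ → vw X ≠ 0 ∨ z → ∀ ε > 0, ∃ δ > 0, ∀ X', dist X X' < δ → Wn ‖vw X'‖ →
    nd Kc (fp X) (fp X') + 1001 / 1000 * (W ‖vx X‖ ^ 2 * nd kV X X') +
        (1 + η / 100) * nd ks X X' + η / 100 * (‖vx X‖ - ‖vx X'‖) ^ 2 ≤
      (1 + ε) * dist X X' ^ 2 - 99 / 100 * (‖vw X‖ - ‖vw X'‖) ^ 2
  far : ∀ X X', Wn ‖vw X‖ → ‖vw X'‖ ≤ ‖vw X‖ →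
    l2 * P.D2 X X' ≤ l2 * (‖vw X‖ - ‖vw X'‖) ^ 2 + nd Kc (fp X) (fp X') +
      99 / 100 * nd kV X X' + g ‖vw X‖ ^ 2 / 1000

end

end Pool.Agent.Work.MP_0ba68b_gt.CX
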