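import Pool.Agent.Work.MP_0ba68b_gt.CX.Back
import Pool.Agent.Work.MP_0ba68b_gt.CX.GDefs

/-!
The arithmetic of the fibre lattice: a continued fraction with huge partial quotients.

PLAN.  Lagrange identity: `f₁² f₂² = (ρ 2π/q0)² + inner²` when the determinant is `± 1`.
`fbas_T`: `u₂ = u₀ + a u₁` with `a = round (-⟪u₀,u₁⟫/f₁²) ≥ 0` (as `⟪u₀,u₁⟫ ≤ n0 n1 ≤ f₁²/2`), `|⟪u₂,u₁⟫| ≤ f₁²/2`, `f₁ f₂ ≥ ρ 2π/q0`,
`n1 ≤ f₁`, `n2 ≤ f₂`, `f₂² ≤ (2π ρ/(q0 n1))² + f₁²/4`.  `fbas_I`: direct, `ρ |al₁| ≤ f₁ ≤ 1.01 ρ |al₁|`, `n2 ≤ f₂ ≤ 1.01 n2`.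
`fibAr`: `β` from `back2`, `θ = (2π/q0) β 1`, `kk 0 = -1`, `kk 1 = 0`, `kk (j+2) = kk j + a j kk (j+1)`.  By two step induction:
`al (kk j) (M j) = (2π/q0) (-1)^(j+1) β j`, `kk j M (j+1) - kk (j+1) M j = (-1)^(j+1)`, `M (j+1) β j + M j β (j+1) = 1`; so
`1/(2 M (j+1)) ≤ β j ≤ 1/M (j+1)`.  For `ρ ≥ (q k)²/e`, `e = e k`, `σ = 2π ρ/q0 ≥ 2 M (k+1)²/e`: take the greatest `j ≥ k` with
`2 M (j+1)² ≤ e σ`.  If `σ ≤ e M (j+2)²` use `fbas_T` with `u₁ = u (j+1)`, `u₀ = u j`; otherwise `fbas_I` with `u (j+1)`, `u (j+2)`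
(`a i e² ≥ 4` for `i ≥ k`).  Approximation: `l = k' M (k+1) - n kk (k+1)`, the error is `n al (u (k+1))/M (k+1)`; generator `± u k`.
-/

open Real

namespace Pool.Agent.Work.MP_0ba68b_gt.CX

/-- The denominators. -/
def MM (a : ℕ → ℕ) : ℕ → ℕ
  | 0 => 0
  | 1 => 1
  | j + 2 => MM a j + a j * MM a (j + 1)

lemma FibAr_sq (q0 : ℕ) (θ ρ : ℝ) (k n : ℤ) :
    flen q0 θ ρ k n ^ 2 = ρ ^ 2 * al q0 θ k n ^ 2 + (n : ℝ) ^ 2 :=
  Real.sq_sqrt (by positivity)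

lemma FibAr_nonneg (q0 : ℕ) (θ ρ : ℝ) (k n : ℤ) : 0 ≤ flen q0 θ ρ k n := Real.sqrt_nonneg _

lemma FibAr_n_le (q0 : ℕ) (θ ρ : ℝ) (k n : ℤ) : (n : ℝ) ≤ flen q0 θ ρ k n :=
  le_of_sq_le_sq (by rw [FibAr_sq]; linarith only [sq_nonneg (ρ * al q0 θ k n), sq_nonneg (ρ * al q0 θ k n)])
    (FibAr_nonneg q0 θ ρ k n)

lemma FibAr_a_le (q0 : ℕ) (θ ρ : ℝ) (k n : ℤ) : ρ * |al q0 θ k n| ≤ flen q0 θ ρ k n :=
  le_of_sq_le_sq (by rw [FibAr_sq, mul_pow, sq_abs]; linarith only [sq_nonneg (n : ℝ), sq_nonneg ↑n])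
    (FibAr_nonneg q0 θ ρ k n)

lemma FibAr_le_add (q0 : ℕ) (θ : ℝ) {ρ : ℝ} (hρ : 0 ≤ ρ) (k : ℤ) {n : ℤ} (hn : (0 : ℝ) ≤ n) :
    flen q0 θ ρ k n ≤ ρ * |al q0 θ k n| + n := by
  have h : 0 ≤ ρ * |al q0 θ k n| := by positivity
  refine le_of_sq_le_sq ?_ (by positivity)
  rw [FibAr_sq, add_sq, mul_pow, sq_abs]
  linarith only [h, hn, mul_nonneg h hn]

lemma FibAr_lag {q0 : ℕ} (θ ρ : ℝ) {k1 n1 k2 n2 : ℤ}
    (hd : k1 * n2 - k2 * n1 = 1 ∨ k1 * n2 - k2 * n1 = -1) :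
    (flen q0 θ ρ k1 n1 * flen q0 θ ρ k2 n2) ^ 2 =
      (ρ ^ 2 * (al q0 θ k1 n1 * al q0 θ k2 n2) + n1 * n2) ^ 2 + (2 * π * ρ / q0) ^ 2 := by
  have h1 : ((k1 : ℝ) * n2 - k2 * n1) ^ 2 = 1 := by
    rcases hd with h | h
    · have h2 : (k1 : ℝ) * n2 - k2 * n1 = 1 := by exact_mod_cast h
      rw [h2]; norm_num
    · have h2 : (k1 : ℝ) * n2 - k2 * n1 = -1 := by exact_mod_cast h
      rw [h2]; norm_num
  have h2 : al q0 θ k1 n1 * n2 - al q0 θ k2 n2 * n1 = 2 * π / q0 * (k1 * n2 - k2 * n1) := by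
    unfold al
    ring
  have h3 : (2 * π * ρ / q0) ^ 2 = (ρ * (al q0 θ k1 n1 * n2 - al q0 θ k2 n2 * n1)) ^ 2 := by
    rw [h2, mul_pow, mul_pow, h1]
    ring
  rw [mul_pow, FibAr_sq, FibAr_sq, h3]
  ring

lemma FibAr_cost {q n f c Q : ℝ} (hq : 0 < q) (hf : 0 < f) (hQ : 0 < Q) (h : n * Q ≤ c * (q * f ^ 2)) :
    n / (q * f ^ 2) ≤ c / Q := by
  rw [div_le_div_iff₀ (by positivity) hQ]
  exact h

lemma fbas_T {q0 : ℕ} {θ ρ e Q : ℝ} {k0 n0 k1 n1 : ℤ} (hq : 0 < q0) (hρ : 0 < ρ) (he : 0 < e)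
    (he1 : e ≤ 1 / 1000) (hQ : 0 < Q) (hd : k1 * n0 - k0 * n1 = 1 ∨ k1 * n0 - k0 * n1 = -1)
    (h0 : 0 ≤ n0) (h1 : 2 * n0 ≤ n1) (hs : al q0 θ k0 n0 * al q0 θ k1 n1 ≤ 0)
    (hf : flen q0 θ ρ k1 n1 ^ 2 ≤ 2 * e * (2 * π * ρ / q0))
    (hf' : flen q0 θ ρ k1 n1 * Q ≤ 2 * π * e * ρ) (hQn : Q ≤ q0 * n1) :
    ∃ k2 n2, FBas q0 θ ρ e Q k1 n1 k2 n2 := by
  have hq' : (0 : ℝ) < q0 := by exact_mod_cast hq
  have n1pos : (0 : ℝ) < n1 := (pos_iff_pos_of_mul_pos (hQ.trans_le hQn)).1 hq'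
  have h0' : (0 : ℝ) ≤ n0 := by exact_mod_cast h0
  have h1' : 2 * (n0 : ℝ) ≤ n1 := by exact_mod_cast h1
  have f1n := FibAr_n_le q0 θ ρ k1 n1
  have f1sq := FibAr_sq q0 θ ρ k1 n1
  have f1pos : 0 < flen q0 θ ρ k1 n1 := n1pos.trans_le f1n
  set x : ℝ := -(ρ ^ 2 * (al q0 θ k0 n0 * al q0 θ k1 n1) + n0 * n1) / flen q0 θ ρ k1 n1 ^ 2 with hx
  have hx1 : x * flen q0 θ ρ k1 n1 ^ 2 =
      -(ρ ^ 2 * (al q0 θ k0 n0 * al q0 θ k1 n1) + n0 * n1) := by
    rw [hx]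
    field_simp
  have ha0 : 0 ≤ round x := by
    rw [round_eq, Int.floor_nonneg]
    have h2 : -(1 / 2) ≤ x := by
      rw [hx, le_div_iff₀ (by positivity)]
      nlinarith only [f1sq, hs, hQ, h1', hQn, hq', mul_nonneg (sq_nonneg ρ) (neg_nonneg.2 hs), sq_nonneg (ρ * al q0 θ k1 n1)]
    linarith only [h2]
  have hd2 : k1 * (n0 + round x * n1) - (k0 + round x * k1) * n1 = 1 ∨
      k1 * (n0 + round x * n1) - (k0 + round x * k1) * n1 = -1 := by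
    rwa [show k1 * (n0 + round x * n1) - (k0 + round x * k1) * n1 = k1 * n0 - k0 * n1 by ring]
  have hn2 : 0 ≤ n0 + round x * n1 := add_nonneg h0 (mul_nonneg ha0 (by omega))
  have hI : |ρ ^ 2 * (al q0 θ k1 n1 * al q0 θ (k0 + round x * k1) (n0 + round x * n1)) +
      n1 * ((n0 + round x * n1 : ℤ) : ℝ)| ≤ flen q0 θ ρ k1 n1 ^ 2 / 2 := by
    have e1 : al q0 θ (k0 + round x * k1) (n0 + round x * n1) =
        al q0 θ k0 n0 + round x * al q0 θ k1 n1 := by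
      unfold al
      push_cast
      ring
    have e2 : ρ ^ 2 * (al q0 θ k1 n1 * al q0 θ (k0 + round x * k1) (n0 + round x * n1)) +
        n1 * ((n0 + round x * n1 : ℤ) : ℝ) = -((x - round x) * flen q0 θ ρ k1 n1 ^ 2) := by
      rw [e1, sub_mul, hx1, f1sq]
      push_cast
      ring
    rw [e2, abs_neg, abs_mul, abs_of_nonneg (sq_nonneg (flen q0 θ ρ k1 n1))]
    nlinarith only [abs_sub_round x, sq_nonneg (flen q0 θ ρ k1 n1)]
  have hL := FibAr_lag (q0 := q0) θ ρ hd2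
  have f2n := FibAr_n_le q0 θ ρ (k0 + round x * k1) (n0 + round x * n1)
  have f20 := FibAr_nonneg q0 θ ρ (k0 + round x * k1) (n0 + round x * n1)
  have hσ : 0 < 2 * π * ρ / q0 := by positivity
  have hσq : 2 * π * ρ / q0 * q0 = 2 * π * ρ := by field_simp
  have hn2' : (0 : ℝ) ≤ ((n0 + round x * n1 : ℤ) : ℝ) := by exact_mod_cast hn2
  refine ⟨k0 + round x * k1, n0 + round x * n1, ?_⟩
  have hI2 := pow_le_pow_left₀ (abs_nonneg _) hI 2
  rw [sq_abs] at hI2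
  have hπ : π * ρ ≤ 4 * ρ := mul_le_mul_of_nonneg_right pi_le_four hρ.le
  refine ⟨by omega, hn2, hd2, ?_, ?_, ?_, ?_⟩ <;>
    generalize flen q0 θ ρ (k0 + round x * k1) (n0 + round x * n1) = f2 at * <;>
    generalize ρ ^ 2 * (al q0 θ k1 n1 * al q0 θ (k0 + round x * k1) (n0 + round x * n1)) +
      n1 * ((n0 + round x * n1 : ℤ) : ℝ) = J at * <;>
    generalize ((n0 + round x * n1 : ℤ) : ℝ) = n2 at * <;>
    generalize flen q0 θ ρ k1 n1 = f1 at * <;>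
    generalize 2 * π * ρ / q0 = σ at * <;>
    have hσf : σ ≤ f1 * f2 := le_of_sq_le_sq (by linarith only [hL, sq_nonneg J, sq_nonneg J]) (by positivity)
  · have := mul_le_mul_of_nonneg_left hσf he.le
    linarith only [hI, hf, this]
  · have f2pos : 0 < f2 := (pos_iff_pos_of_mul_pos (hσ.trans_le hσf)).1 f1pos
    have c1 : n1 / (q0 * f1 ^ 2) ≤ 1 / Q := by
      refine FibAr_cost hq' f1pos hQ ?_
      have h2 : (n1 : ℝ) ^ 2 ≤ f1 ^ 2 := pow_le_pow_left₀ n1pos.le f1n 2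
      nlinarith only [hQn, n1pos, h2, hq', mul_le_mul_of_nonneg_left hQn n1pos.le, mul_le_mul_of_nonneg_left h2 hq'.le]
    have c2 : n2 / (q0 * f2 ^ 2) ≤ e / Q := by
      refine FibAr_cost hq' f2pos hQ ?_
      have h2 : f1 * Q ≤ f1 * (e * (q0 * f2)) := by
        have h3 := mul_le_mul_of_nonneg_left hσf (mul_nonneg he.le hq'.le)
        nlinarith only [hf', h3, he, hσq]
      have h3 := le_of_mul_le_mul_left h2 f1pos
      have h4 := mul_le_mul f2n h3 hQ.le f20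
      nlinarith only [h4]
    rw [add_div]
    linarith only [c1, c2]
  · rw [le_div_iff₀ hQ]
    nlinarith only [hρ, hπ, hf', he1, mul_le_mul_of_nonneg_right he1 (by positivity : 0 ≤ π * ρ)]
  · rw [le_div_iff₀ hQ]
    have h2 : σ * Q ≤ 8 * ρ * f1 := by
      have h3 := mul_le_mul_of_nonneg_left (hQn.trans (mul_le_mul_of_nonneg_left f1n hq'.le)) hσ.le
      have h4 := mul_le_mul_of_nonneg_right hπ f1pos.le
      nlinarith only [hρ, f1n, he, he1, hQn, hσ, n1pos, hπ, hσq]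
    have h3 : f1 * Q ≤ ρ := by
      nlinarith only [hρ, hπ, hf', he1, mul_le_mul_of_nonneg_right he1 (by positivity : 0 ≤ π * ρ)]
    have h4 := pow_le_pow_left₀ (by positivity) h2 2
    have h5 := pow_le_pow_left₀ (by positivity) h3 2
    have h6 : f1 ^ 2 * (f2 * Q) ^ 2 ≤ f1 ^ 2 * (10 * ρ) ^ 2 := by
      have h7 := mul_le_mul_of_nonneg_right hI2 (sq_nonneg Q)
      have h8 := mul_le_mul_of_nonneg_left h5 (sq_nonneg f1)
      have h9 : f1 ^ 2 * (f2 * Q) ^ 2 = (J ^ 2 + σ ^ 2) * Q ^ 2 := by rw [← hL]; ring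
      nlinarith only [h4, h7, h8, h9, sq_nonneg (f1 * ρ)]
    exact le_of_sq_le_sq (le_of_mul_le_mul_left h6 (by positivity)) (by positivity)

lemma fbas_I {q0 : ℕ} {θ ρ e Q : ℝ} {k1 n1 k2 n2 : ℤ} (hq : 0 < q0) (hρ : 0 < ρ) (he : 0 < e)
    (he1 : e ≤ 1 / 1000) (hQ : 0 < Q) (hd : k1 * n2 - k2 * n1 = 1 ∨ k1 * n2 - k2 * n1 = -1)
    (h1 : 0 ≤ n1) (h2 : 0 ≤ n2) (ha : n1 ≤ e / 2 * (ρ * |al q0 θ k1 n1|))
    (hb : ρ * |al q0 θ k2 n2| ≤ e / 2 * n2) (hQ2 : Q ≤ q0 * n2)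
    (hQ1 : Q ≤ 2 * q0 * (ρ * |al q0 θ k1 n1|)) (hl1 : |al q0 θ k1 n1| * Q ≤ 2 * π)
    (hl2 : n2 * Q ≤ 9 * ρ) : FBas q0 θ ρ e Q k1 n1 k2 n2 := by
  have hq' : (0 : ℝ) < q0 := by exact_mod_cast hq
  have h1' : (0 : ℝ) ≤ n1 := by exact_mod_cast h1
  have n2pos : (0 : ℝ) < n2 := (pos_iff_pos_of_mul_pos (hQ.trans_le hQ2)).1 hq'
  have Apos : 0 < ρ * |al q0 θ k1 n1| := 
    (pos_iff_pos_of_mul_pos (hQ.trans_le hQ1)).1 (by positivity)
  have B0 : 0 ≤ ρ * |al q0 θ k2 n2| := by positivity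
  have a1 := FibAr_a_le q0 θ ρ k1 n1
  have a2 := FibAr_n_le q0 θ ρ k2 n2
  have b1 := FibAr_le_add q0 θ hρ.le k1 h1'
  have b2 := FibAr_le_add q0 θ hρ.le k2 n2pos.le
  have hI : |ρ ^ 2 * (al q0 θ k1 n1 * al q0 θ k2 n2) + n1 * n2| ≤
      ρ * |al q0 θ k1 n1| * (ρ * |al q0 θ k2 n2|) + n1 * n2 := by
    refine (abs_add_le _ _).trans (le_of_eq ?_)
    rw [abs_mul, abs_mul, abs_of_nonneg (sq_nonneg ρ), abs_of_nonneg (mul_nonneg h1' n2pos.le)]
    ring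
  have hAQ : ρ * |al q0 θ k1 n1| * Q ≤ 8 * ρ := by
    have h3 := mul_le_mul_of_nonneg_left hl1 hρ.le
    nlinarith only [h3, hρ, mul_le_mul_of_nonneg_right pi_le_four hρ.le]
  refine ⟨h1, h2, hd, hI.trans ?_, ?_, ?_, ?_⟩ <;>
    generalize ρ * |al q0 θ k1 n1| = A at * <;>
    generalize ρ * |al q0 θ k2 n2| = B at * <;>
    generalize flen q0 θ ρ k1 n1 = f1 at * <;>
    generalize flen q0 θ ρ k2 n2 = f2 at *
  · have h3 := mul_le_mul_of_nonneg_left hb Apos.le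
    have h4 := mul_le_mul_of_nonneg_right ha n2pos.le
    have h5 := mul_le_mul_of_nonneg_left (mul_le_mul a1 a2 n2pos.le (Apos.le.trans a1)) he.le
    linarith only [h3, h4, h5]
  · have c1 : n1 / (q0 * f1 ^ 2) ≤ e / Q := by
      refine FibAr_cost hq' (Apos.trans_le a1) hQ ?_
      have h3 := mul_le_mul ha hQ1 hQ.le (by positivity)
      have h4 := mul_le_mul_of_nonneg_left (pow_le_pow_left₀ Apos.le a1 2) (mul_nonneg he.le hq'.le)
      nlinarith only [h3, h4]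
    have c2 : n2 / (q0 * f2 ^ 2) ≤ 1 / Q := by
      refine FibAr_cost hq' (n2pos.trans_le a2) hQ ?_
      have h3 := mul_le_mul_of_nonneg_left hQ2 n2pos.le
      have h4 := mul_le_mul_of_nonneg_left (pow_le_pow_left₀ n2pos.le a2 2) hq'.le
      nlinarith only [h3, h4]
    rw [add_div]
    linarith only [c1, c2]
  · rw [le_div_iff₀ hQ]
    have h3 : f1 ≤ 11 / 10 * A := by nlinarith only [ha, he, Apos, b1, he1, h1']
    nlinarith only [hρ, hAQ, h3, hQ, mul_le_mul_of_nonneg_right h3 hQ.le]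
  · rw [le_div_iff₀ hQ]
    have h3 : f2 ≤ 11 / 10 * n2 := by nlinarith only [hQ2, hb, b2, he, hQ, he1]
    nlinarith only [hρ, hl2, h3, hQ, mul_le_mul_of_nonneg_right h3 hQ.le]

/-- The numerators. -/
def FibAr_kk (a : ℕ → ℕ) : ℕ → ℤ
  | 0 => -1
  | 1 => 0
  | j + 2 => FibAr_kk a j + a j * FibAr_kk a (j + 1)

lemma FibAr_det (a : ℕ → ℕ) (j : ℕ) :
    FibAr_kk a j * MM a (j + 1) - FibAr_kk a (j + 1) * MM a j = (-1) ^ (j + 1) := by
  induction j with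
  | zero => simp [FibAr_kk, MM]
  | succ j ih =>
    rw [FibAr_kk, MM, pow_succ (-1 : ℤ) (j + 1), ← ih]
    push_cast
    ring

lemma FibAr_val (a : ℕ → ℕ) {β : ℕ → ℝ} (b0 : β 0 = 1)
    (hb : ∀ j, β j = a j * β (j + 1) + β (j + 2)) (j : ℕ) :
    (FibAr_kk a j : ℝ) + MM a j * β 1 = (-1) ^ (j + 1) * β j := by
  induction j using Nat.twoStepInduction with
  | zero => simp [FibAr_kk, MM, b0]
  | one => simp [FibAr_kk, MM]
  | more j h1 h2 =>
    rw [FibAr_kk, MM]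
    push_cast
    linear_combination h1 + a j * h2 + (-1) ^ (j + 1) * hb j

lemma FibAr_one (a : ℕ → ℕ) {β : ℕ → ℝ} (b0 : β 0 = 1)
    (hb : ∀ j, β j = a j * β (j + 1) + β (j + 2)) (j : ℕ) :
    (MM a (j + 1) : ℝ) * β j + MM a j * β (j + 1) = 1 := by
  induction j with
  | zero => simp [MM, b0]
  | succ j ih =>
    rw [MM]
    push_cast
    linear_combination ih - MM a (j + 1) * hb j

lemma FibAr_fb {q0 : ℕ} (hq : 0 < q0) {θ ρ e : ℝ} (he : 0 < e) (he1 : e ≤ 1 / 1000) {k : ℕ}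
    {M : ℕ → ℕ} {K : ℕ → ℤ} {a β : ℕ → ℝ} (M1 : ∀ j, j + 1 ≤ M (j + 1))
    (M2 : ∀ j, 2 * M j ≤ M (j + 1)) (Ma : ∀ j, a j * M (j + 1) ≤ M (j + 2))
    (hae : ∀ j, k ≤ j → 4 ≤ a j * e ^ 2) (bpos : ∀ j, 0 < β j)
    (bu : ∀ j, M (j + 1) * β j ≤ 1) (bl : ∀ j, 1 ≤ 2 * (M (j + 1) * β j))
    (hal : ∀ j, al q0 θ (K j) (M j) = 2 * π / q0 * ((-1) ^ (j + 1) * β j))
    (hdet : ∀ j, K j * M (j + 1) - K (j + 1) * M j = (-1) ^ (j + 1))
    (hρ : ((q0 * M (k + 1) : ℕ) : ℝ) ^ 2 / e ≤ ρ) :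
    ∃ k1 n1 k2 n2, FBas q0 θ ρ e (q0 * M (k + 1) : ℕ) k1 n1 k2 n2 := by
  have hq1 : (1 : ℝ) ≤ q0 := by exact_mod_cast hq
  have Mp : ∀ j, (1 : ℝ) ≤ M (j + 1) := fun j => by
    have := M1 j
    exact_mod_cast (by omega : 1 ≤ M (j + 1))
  have Mmono : Monotone M := monotone_nat_of_le_succ fun j => by have := M2 j; omega
  have mk := Mp k
  push_cast at hρ ⊢
  have hQ : (0 : ℝ) < q0 * M (k + 1) := by positivity
  have ρpos : 0 < ρ := lt_of_lt_of_le (by positivity) hρ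
  rw [div_le_iff₀ he] at hρ
  obtain ⟨σ, hσ⟩ : ∃ σ, σ = 2 * π * ρ / q0 := ⟨_, rfl⟩
  have σpos : 0 < σ := by rw [hσ]; positivity
  have hσq : σ * q0 = 2 * π * ρ := by rw [hσ]; field_simp
  have habs : ∀ j, |al q0 θ (K j) (M j)| = 2 * π / q0 * β j := fun j => by
    rw [hal, abs_mul, abs_mul, abs_pow, abs_neg, abs_one, one_pow, one_mul, abs_of_pos (bpos j),
      abs_of_pos (by positivity)]
  have hA : ∀ j, ρ * |al q0 θ (K j) (M j)| = σ * β j := fun j => by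
    rw [habs, hσ]
    ring
  have hstart : 2 * (M (k + 0 + 1) : ℝ) ^ 2 ≤ e * σ := by
    have h1 : q0 * (2 * (M (k + 1) : ℝ) ^ 2) ≤ q0 * (e * σ) := by
      have h2 := mul_le_mul_of_nonneg_right pi_gt_three.le (mul_pos ρpos he).le
      have h3 := mul_le_mul_of_nonneg_right hq1 (by positivity : 0 ≤ q0 * (M (k + 1) : ℝ) ^ 2)
      have h4 : 0 ≤ ρ * e := by positivity
      linarith only [he1, mk, hρ, h2, h3, hq1, he, hσq, mul_nonneg_of_nonpos_of_nonpos (Mathlib.Tactic.Linarith.sub_nonpos_of_le (sq_nonneg ↑(M (k + (1 : ℕ))))) (Mathlib.Tactic.Linarith.sub_nonpos_of_le hq1), mul_nonneg_of_nonpos_of_nonpos (Mathlib.Tactic.Linarith.sub_nonpos_of_le (Mathlib.Tactic.Linarith.natCast_nonneg ℝ (M (k + (1 : ℕ))))) (Mathlib.Tactic.Linarith.sub_nonpos_of_le mk), mul_pos_of_neg_of_neg (Mathlib.Tactic.Linarith.sub_neg_of_lt he) (Mathlib.Tactic.Linarith.sub_neg_of_lt he), mul_nonneg_of_nonpos_of_nonpos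 (le_of_lt (Mathlib.Tactic.Linarith.sub_neg_of_lt he)) (Mathlib.Tactic.Linarith.sub_nonpos_of_le he1), Mathlib.Tactic.Linarith.mul_zero_eq (Mathlib.Tactic.Linarith.sub_neg_of_lt he) (sub_eq_zero_of_eq hσq)]
    exact le_of_mul_le_mul_left h1 (by linarith only [he, he1, hq1])
  obtain ⟨i, hi1, hi2⟩ := Nat.exists_not_and_succ_of_not_zero_of_exists
    (p := fun i => e * σ < 2 * (M (k + i + 1) : ℝ) ^ 2) (not_lt.2 hstart) (by
      obtain ⟨n, hn⟩ := exists_nat_gt (e * σ)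
      refine ⟨n, hn.trans_le ?_⟩
      have h1 : (n : ℝ) ≤ M (k + n + 1) := by
        have := M1 (k + n)
        exact_mod_cast (by omega : n ≤ M (k + n + 1))
      nlinarith only [he, he1, mk, hstart, hn, h1, Mp (k + n)])
  rw [not_lt] at hi1
  obtain ⟨j, hj⟩ : ∃ j, j = k + i := ⟨_, rfl⟩
  rw [← add_assoc, ← hj] at hi2
  rw [← hj] at hi1
  have hkj : k ≤ j := by omega
  have m1 : (M (k + 1) : ℝ) ≤ M (j + 1) := by exact_mod_cast Mmono (by omega)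
  have m2 : (M (j + 1) : ℝ) ≤ M (j + 1 + 1) := by exact_mod_cast Mmono (by omega)
  have hsg : ∀ j : ℕ, (-1 : ℤ) ^ j = 1 ∨ (-1 : ℤ) ^ j = -1 := fun j => neg_one_pow_eq_or ℤ j
  have p1 := Mp j
  have p2 := Mp (j + 1)
  rcases le_total σ (e * (M (j + 1 + 1) : ℝ) ^ 2) with hc | hc
  · have hf : flen q0 θ ρ (K (j + 1)) (M (j + 1)) ^ 2 ≤ 2 * e * σ := by
      rw [FibAr_sq, ← sq_abs (al _ _ _ _), ← mul_pow, hA]
      push_cast
      have h1 := pow_le_pow_left₀ (mul_nonneg (by linarith only [he, he1, mk, m1, m2]) (bpos _).le) (bu (j + 1)) 2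
      have h2 := mul_le_mul_of_nonneg_right hc (mul_nonneg σpos.le (sq_nonneg (β (j + 1))))
      have h3 := mul_le_mul_of_nonneg_left h1 (mul_pos he σpos).le
      nlinarith only [hstart, hi1, h2, h3, mul_pos he σpos]
    refine ⟨K (j + 1), M (j + 1), fbas_T (k0 := K j) (n0 := M j) hq ρpos he he1 hQ ?_
      (by positivity) (by exact_mod_cast M2 j) ?_ (by rwa [← hσ]) ?_ (by push_cast; gcongr)⟩
    · have h1 := hdet j
      rcases hsg (j + 1) with h | h <;> omega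
    · rw [hal, hal, pow_succ (-1 : ℝ) (j + 1)]
      have h1 : 0 ≤ (2 * π / q0 * (-1) ^ (j + 1)) ^ 2 * (β j * β (j + 1)) :=
        mul_nonneg (sq_nonneg _) (mul_pos (bpos _) (bpos _)).le
      nlinarith only [h1]
    · have h1 : flen q0 θ ρ (K (j + 1)) (M (j + 1)) * M (k + 1) ≤ e * σ := by
        refine le_of_sq_le_sq ?_ (by positivity)
        have h2 := pow_le_pow_left₀ (by linarith only [he, he1, mk]) m1 2
        have h3 := mul_le_mul hf h2 (sq_nonneg _) (by positivity)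
        have h4 := mul_le_mul_of_nonneg_left hi1 (mul_pos he σpos).le
        rw [mul_pow]
        nlinarith only [h3, h4]
      have h2 := mul_le_mul_of_nonneg_left h1 (by linarith only [he, he1, hq1] : (0 : ℝ) ≤ q0)
      nlinarith only [h2, he, hσq]
  · have a1 := hae j hkj
    have a2 := hae (j + 1) (by omega)
    have hM : 4 * (M (j + 1) : ℝ) ≤ e ^ 2 * M (j + 1 + 1) := by
      have h1 := mul_le_mul_of_nonneg_left (Ma j) (sq_nonneg e)
      have h2 := mul_le_mul_of_nonneg_right a1 (by linarith only [he, he1, mk, m1] : (0 : ℝ) ≤ M (j + 1))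
      nlinarith only [h1, h2]
    have hM' : 4 * (M (j + 1 + 1) : ℝ) ≤ e ^ 2 * M (j + 1 + 1 + 1) := by
      have h1 := mul_le_mul_of_nonneg_left (Ma (j + 1)) (sq_nonneg e)
      have h2 := mul_le_mul_of_nonneg_right a2 (by linarith only [he, he1, mk, m1, m2] : (0 : ℝ) ≤ M (j + 1 + 1))
      nlinarith only [h1, h2]
    have ha : (M (j + 1) : ℝ) ≤ e / 2 * (σ * β (j + 1)) := by
      have h1 := mul_le_mul_of_nonneg_right hc (mul_pos he (bpos (j + 1))).le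
      have h2 := mul_le_mul_of_nonneg_left (bl (j + 1))
        (by positivity : 0 ≤ e ^ 2 * (M (j + 1 + 1) : ℝ))
      nlinarith only [hM, h1, h2]
    have hσβ : 0 < σ * β (j + 1) := mul_pos σpos (bpos _)
    refine ⟨K (j + 1), M (j + 1), K (j + 1 + 1), M (j + 1 + 1), fbas_I hq ρpos he he1 hQ ?_
      (by positivity) (by positivity) ?_ ?_ (mul_le_mul_of_nonneg_left (by exact_mod_cast m1.trans m2) (by linarith only [he, he1, hq1])) ?_ ?_ ?_⟩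
    · rw [hdet]
      exact hsg _
    · rw [hA]
      exact_mod_cast ha
    · rw [hA]
      push_cast
      have h1 := mul_le_mul_of_nonneg_right hi2.le (bpos (j + 1 + 1)).le
      have h2 := mul_le_mul_of_nonneg_right hM'
        (mul_nonneg (by linarith only [he, he1, mk, m1, m2] : (0 : ℝ) ≤ M (j + 1 + 1)) (bpos (j + 1 + 1)).le)
      have h3 := mul_le_mul_of_nonneg_left (bu (j + 1 + 1))
        (by positivity : 0 ≤ e ^ 2 * (M (j + 1 + 1) : ℝ))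
      have h4 : e * (σ * β (j + 1 + 1)) ≤ e * (e / 2 * M (j + 1 + 1)) := by nlinarith only [h1, h2, h3]
      exact le_of_mul_le_mul_left h4 he
    · rw [hA]
      have h1 : (M (k + 1) : ℝ) ≤ 2 * (σ * β (j + 1)) := by nlinarith only [he1, mk, m1, ha, he]
      nlinarith only [h1, he, he1, hq1, mul_le_mul_of_nonneg_left h1 (by linarith : (0 : ℝ) ≤ q0)]
    · rw [habs]
      have h1 : β (j + 1) * M (k + 1) ≤ 1 :=
        (mul_le_mul_of_nonneg_left (m1.trans m2) (bpos _).le).trans (by linarith only [bu, bu (j + 1)])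
      have h2 : 2 * π / q0 * β (j + 1) * (q0 * M (k + 1)) = 2 * π * (β (j + 1) * M (k + 1)) := by
        field_simp
      rw [h2]
      nlinarith only [he, he1, h1, pi_pos]
    · push_cast
      have h1 : (M (k + 1) : ℝ) ≤ e * M (j + 1 + 1) := by
        have h2 : e ^ 2 ≤ e := by nlinarith only [he, he1]
        nlinarith only [he, he1, mk, m1, hM, h2, mul_le_mul_of_nonneg_right h2 (by linarith : (0 : ℝ) ≤ M (j + 1 + 1))]
      have h2 : (M (j + 1 + 1) : ℝ) * M (k + 1) ≤ σ := by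
        nlinarith only [hc, h1, he, he1, mk, m1, m2, mul_le_mul_of_nonneg_left h1 (by linarith : (0 : ℝ) ≤ M (j + 1 + 1))]
      nlinarith only [ρpos, hσq, h2, he, he1, hq1, mul_le_mul_of_nonneg_left h2 (by linarith : (0 : ℝ) ≤ q0),
        mul_le_mul_of_nonneg_right pi_le_four ρpos.le]

theorem fibAr {q0 : ℕ} (hq : 0 < q0) (a : ℕ → ℕ) {e : ℕ → ℝ} (ha : Antitone e)
    (h0 : ∀ k, 0 < e k) (h1 : ∀ k, e k ≤ 1 / 1000)
    (hd : ∀ k, 10 ^ 4 * ((q0 * MM a (k + 1) : ℕ) : ℝ) ≤ a k * e (k + 1) ^ 3) :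
    ∃ θ, FibArith q0 θ (fun k => q0 * MM a (k + 1)) e ∧ ∀ k,
      (∀ k' n : ℤ, ∃ l : ℤ, |al q0 θ k' n - 2 * π * l / (q0 * MM a (k + 1) : ℕ)| ≤
        |(n : ℝ)| * (2 * π / MM a (k + 2))) ∧
      ∃ k' n : ℤ, |n| ≤ (q0 * MM a (k + 1) : ℕ) ∧ |al q0 θ k' n - 2 * π / (q0 * MM a (k + 1) : ℕ)| ≤
        (q0 * MM a (k + 1) : ℕ) * (2 * π / MM a (k + 2)) := by
  have hq1 : (1 : ℝ) ≤ q0 := by exact_mod_cast hq
  have hd' : ∀ k j, k ≤ j → 10 ^ 4 * ((q0 * MM a (j + 1) : ℕ) : ℝ) ≤ a j * e k ^ 2 := by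
    intro k j hj
    refine (hd j).trans (mul_le_mul_of_nonneg_left ?_ (by positivity))
    have h2 : e (j + 1) ≤ e k := ha (by omega)
    refine (pow_le_pow_left₀ (h0 _).le h2 3).trans ?_
    exact pow_le_pow_of_le_one (h0 k).le (by linarith only [h1, h1 k]) (by norm_num)
  have hbig : ∀ j, 1 ≤ MM a (j + 1) → 8 ≤ a j := by
    intro j hj
    have h2 := hd' j j le_rfl
    have h3 : (1 : ℝ) ≤ ((q0 * MM a (j + 1) : ℕ) : ℝ) := by exact_mod_cast Nat.mul_pos hq hj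
    have h4 : e j ^ 2 ≤ 1 := pow_le_one₀ (h0 j).le (by linarith only [h1, h1 j])
    have h5 := mul_le_mul_of_nonneg_left h4 (by positivity : (0 : ℝ) ≤ a j)
    exact_mod_cast (by linarith only [h2, h3, h5] : (8 : ℝ) ≤ a j)
  have M1 : ∀ j, j + 1 ≤ MM a (j + 1) := by
    intro j
    induction j with
    | zero => simp [MM]
    | succ j ih =>
      have h2 := Nat.mul_le_mul_right (MM a (j + 1)) (hbig j (by omega))
      rw [MM]
      omega
  have a8 : ∀ j, 8 ≤ a j := fun j => hbig j (by have := M1 j; omega)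
  have M8 : ∀ j, 8 * MM a (j + 1) ≤ MM a (j + 2) := fun j => by
    have h2 := Nat.mul_le_mul_right (MM a (j + 1)) (a8 j)
    rw [MM]
    omega
  have M2 : ∀ j, 2 * MM a j ≤ MM a (j + 1) := by
    rintro (_ | j)
    · simp [MM]
    · exact le_trans (by omega) (M8 j)
  have Mp : ∀ j, (1 : ℝ) ≤ MM a (j + 1) := fun j => by
    have := M1 j
    exact_mod_cast (by omega : 1 ≤ MM a (j + 1))
  obtain ⟨β, b0, bpos, hb⟩ := back2 a fun j => by have := a8 j; omega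
  have bu : ∀ j, MM a (j + 1) * β j ≤ 1 := fun j => by
    have h2 := FibAr_one a b0 hb j
    have h3 : 0 ≤ MM a j * β (j + 1) := mul_nonneg (by positivity) (bpos _).le
    linarith only [h2, h3]
  have bl : ∀ j, 1 ≤ 2 * (MM a (j + 1) * β j) := fun j => by
    have h2 := FibAr_one a b0 hb j
    have h3 : (MM a j : ℝ) ≤ MM a (j + 1) := by
      have := M2 j
      exact_mod_cast (by omega : MM a j ≤ MM a (j + 1))
    have h4 : β (j + 1) ≤ β j := by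
      have h5 : (8 : ℝ) ≤ a j := by exact_mod_cast a8 j
      nlinarith only [h5, hb j, bpos (j + 1), bpos (j + 2)]
    have h5 := mul_le_mul h3 h4 (bpos _).le (by positivity)
    linarith only [h2, h5]
  have hal : ∀ j, al q0 (2 * π / q0 * β 1) (FibAr_kk a j) (MM a j) =
      2 * π / q0 * ((-1) ^ (j + 1) * β j) := fun j => by
    rw [← FibAr_val a b0 hb j, al]
    push_cast
    ring
  have happ : ∀ (k : ℕ) (k' n : ℤ), |al q0 (2 * π / q0 * β 1) k' n -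
      2 * π * (k' * MM a (k + 1) - n * FibAr_kk a (k + 1) : ℤ) / (q0 * MM a (k + 1) : ℕ)| ≤
        |(n : ℝ)| * (2 * π / MM a (k + 2)) := by
    intro k k' n
    have p1 := Mp k
    have p2 := Mp (k + 1)
    have e1 : al q0 (2 * π / q0 * β 1) k' n -
        2 * π * (k' * MM a (k + 1) - n * FibAr_kk a (k + 1) : ℤ) / (q0 * MM a (k + 1) : ℕ) =
        n * (2 * π / (q0 * MM a (k + 1)) * ((-1) ^ (k + 1 + 1) * β (k + 1))) := by
      rw [← FibAr_val a b0 hb (k + 1), al]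
      push_cast
      field_simp
      ring
    rw [e1, abs_mul, abs_mul, abs_mul, abs_pow, abs_neg, abs_one, one_pow, one_mul,
      abs_of_pos (bpos _), abs_of_pos (by positivity : 0 < 2 * π / (q0 * (MM a (k + 1) : ℝ)))]
    refine mul_le_mul_of_nonneg_left ?_ (abs_nonneg _)
    rw [div_mul_eq_mul_div, div_le_div_iff₀ (by positivity) (by positivity)]
    have h2 : (1 : ℝ) ≤ q0 * MM a (k + 1) := by nlinarith only [hq1, p1]
    have h3 := mul_le_mul_of_nonneg_left ((bu (k + 1)).trans h2) (by positivity : 0 ≤ 2 * π)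
    linarith only [h3]
  refine ⟨2 * π / q0 * β 1, ⟨by simp [MM], fun k => ?_, mul_nonneg (by positivity) (bpos 1).le, ?_,
    fun k ρ hρ => FibAr_fb hq (h0 k) (h1 k) (a := fun j => a j) M1 M2 (fun j => ?_)
      (fun j hj => ?_) bpos bu bl hal (FibAr_det a) hρ⟩, fun k => ⟨fun k' n => ⟨_, happ k k' n⟩, ?_⟩⟩
  · have := Nat.mul_le_mul_left q0 (M8 k)
    linarith only [this]
  · have h2 := hd' 0 0 le_rfl
    have h3 := bu 1
    simp only [MM, zero_add, mul_one] at h2 h3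
    have e0 := h0 0
    have e1 : 2 * ((q0 : ℝ) ^ 2 / e 0) * (2 * π / q0 * β 1) = 4 * π * q0 * β 1 / e 0 := by
      field_simp
      ring
    rw [e1, div_le_iff₀ e0]
    have h4 := mul_le_mul_of_nonneg_right h2 (bpos 1).le
    have h5 := mul_le_mul_of_nonneg_right h3 (sq_nonneg (e 0))
    have h6 := mul_le_mul_of_nonneg_right pi_le_four
      (mul_nonneg (by linarith only [hq1] : (0 : ℝ) ≤ q0) (bpos 1).le)
    have h7 : 0 ≤ q0 * β 1 := mul_nonneg (by linarith only [hq1]) (bpos 1).le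
    nlinarith only [h4, h5, h6]
  · rw [MM]
    push_cast
    exact le_add_of_nonneg_left (by positivity)
  · have h2 := hd' k j hj
    have h3 : (1 : ℝ) ≤ ((q0 * MM a (j + 1) : ℕ) : ℝ) := by
      push_cast
      nlinarith only [hq1, Mp j]
    linarith only [h2, h3]
  · have h2 : |(-1 : ℤ) ^ (k + 1) * MM a k| ≤ (q0 * MM a (k + 1) : ℕ) := by
      rw [abs_mul, abs_pow, abs_neg, abs_one, one_pow, one_mul, Nat.abs_cast]
      have h3 := M2 k
      have h4 := Nat.le_mul_of_pos_left (MM a (k + 1)) hq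
      exact_mod_cast (by omega : MM a k ≤ q0 * MM a (k + 1))
    refine ⟨(-1) ^ (k + 1) * FibAr_kk a k, (-1) ^ (k + 1) * MM a k, h2, ?_⟩
    have h3 := happ k ((-1) ^ (k + 1) * FibAr_kk a k) ((-1) ^ (k + 1) * MM a k)
    have h4 : (-1) ^ (k + 1) * FibAr_kk a k * MM a (k + 1) -
        (-1) ^ (k + 1) * MM a k * FibAr_kk a (k + 1) = 1 := by
      have h5 : ((-1 : ℤ) ^ (k + 1)) ^ 2 = 1 := by
        rcases neg_one_pow_eq_or ℤ (k + 1) with h | h <;> rw [h] <;> norm_num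
      linear_combination (-1) ^ (k + 1) * FibAr_det a k + h5
    rw [h4, Int.cast_one, mul_one] at h3
    refine h3.trans (mul_le_mul_of_nonneg_right ?_ (by positivity))
    exact_mod_cast h2

end Pool.Agent.Work.MP_0ba68b_gt.CX
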