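import Pool.Agent.Work.MP_0ba68b_gt.CX.ClkSeq
import Pool.Agent.Work.MP_0ba68b_gt.CX.FibAr

/-!
The joint choice of all parameters.

PLAN.  `q0 = 2 (Qmin 0 + 1)`, `T0 = min (1/10⁴) (Dm 0 q0/1000)`, `τ = 1/T0`, `m0 = ⌈2π/T0⌉₊`.  `exists_chain` on states
`(M, M', T, z0, z1, z2)` with the invariant `1 ≤ M'`, `0 < T ≤ 1/10⁴`, `1000 T ≤ Dm k (q0 M')`, `Qmin k ≤ q0 M'`, `SInv z0 z1 z2`, and the
relation: there are `a` and `N0, N0', N1, N1', N2` with new `M = M'`, new `M' = M + a M'`, `10⁴ q0 M' ≤ a e (k+1)³`,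
`4π ‖z2‖ ≤ a (1000 T)`, new `T ≤ T`, and the conclusions of `clkStep` for the new `T` and `Y (k+1) (q0 (M + a M'))`.
`choose` the data; `M k = MM a k` by induction; `z n`, `N n`, `N' n` by cases on `n % 3` with the state `n / 3`
(prove `st` for `n = 3j, 3j+1, 3j+2`).  Then `fibAr`, `exists_clk`, `Clk.arith`, `Clk.event` with `δ = 2π/MM a (k+2)`, `MM a (k+2) ≥ a k`.
-/

open Real

namespace Pool.Agent.Work.MP_0ba68b_gt.CX

/-- States of the recursion. -/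
structure Arith_St where
  M : ℕ
  M' : ℕ
  T : ℝ
  z0 : ℂ
  z1 : ℂ
  z2 : ℂ

/-- Interleaving of three sequences. -/
def Arith_tri {α : Type} (f g h : ℕ → α) (n : ℕ) : α :=
  if n % 3 = 0 then f (n / 3) else if n % 3 = 1 then g (n / 3) else h (n / 3)

lemma Arith_tri0 {α : Type} (f g h : ℕ → α) {n : ℕ} (j : ℕ) (e : n = 3 * j) :
    Arith_tri f g h n = f j := by
  have h1 : n % 3 = 0 := by omega
  have h2 : n / 3 = j := by omega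
  simp [Arith_tri, h1, h2]

lemma Arith_tri1 {α : Type} (f g h : ℕ → α) {n : ℕ} (j : ℕ) (e : n = 3 * j + 1) :
    Arith_tri f g h n = g j := by
  have h1 : n % 3 = 1 := by omega
  have h2 : n / 3 = j := by omega
  simp [Arith_tri, h1, h2]

lemma Arith_tri2 {α : Type} (f g h : ℕ → α) {n : ℕ} (j : ℕ) (e : n = 3 * j + 2) :
    Arith_tri f g h n = h j := by
  have h1 : n % 3 = 2 := by omega
  have h2 : n / 3 = j := by omega
  simp [Arith_tri, h1, h2]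

/-- The invariant. -/
def Arith_Inv (q0 : ℕ) (Qmin : ℕ → ℕ) (Dm : ℕ → ℕ → ℝ) (k : ℕ) (s : Arith_St) : Prop :=
  1 ≤ s.M' ∧ 0 < s.T ∧ s.T ≤ 1 / 10 ^ 4 ∧ 1000 * s.T ≤ Dm k (q0 * s.M') ∧ Qmin k ≤ q0 * s.M' ∧
    SInv s.z0 s.z1 s.z2

/-- The relation between consecutive states. -/
def Arith_Rel (q0 : ℕ) (e : ℕ → ℝ) (Y : ℕ → ℕ → ℝ) (k : ℕ) (s s' : Arith_St) : Prop :=
  ∃ (a : ℕ) (N0 N0' N1 N1' N2 : ℤ), s'.M = s.M' ∧ s'.M' = s.M + a * s.M' ∧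
    10 ^ 4 * ((q0 * s.M' : ℕ) : ℝ) ≤ a * e (k + 1) ^ 3 ∧ 4 * π * ‖s.z2‖ ≤ a * (1000 * s.T) ∧
    s'.T ≤ s.T ∧ Step s'.T s.z0 s.z1 s.z2 s'.z0 N0 N0' ∧ Step s'.T s.z1 s.z2 s'.z0 s'.z1 N1 N1' ∧
    Step s'.T s.z2 s'.z0 s'.z1 s'.z2 N2 0 ∧
    |‖s'.z1‖ - Y (k + 1) (q0 * s'.M') * ‖s'.z2‖| ≤ s'.T * ‖s'.z2‖

lemma Arith_step {q0 : ℕ} (hq : 0 < q0) {e : ℕ → ℝ} (h0 : ∀ k, 0 < e k) (Qmin : ℕ → ℕ)
    (Dm Y : ℕ → ℕ → ℝ) (hD : ∀ k q, 0 < Dm k q) (hY : ∀ k q, 1 ≤ Y k q) (hY4 : ∀ k q, Y k q ≤ 4)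
    (k : ℕ) (s : Arith_St) (h : Arith_Inv q0 Qmin Dm k s) :
    ∃ s', Arith_Inv q0 Qmin Dm (k + 1) s' ∧ Arith_Rel q0 e Y k s s' := by
  obtain ⟨i1, i2, i3, -, -, i6⟩ := h
  have he := pow_pos (h0 (k + 1)) 3
  obtain ⟨a1, ha1⟩ := exists_nat_ge (10 ^ 4 * ((q0 * s.M' : ℕ) : ℝ) / e (k + 1) ^ 3)
  obtain ⟨a2, ha2⟩ := exists_nat_ge (4 * π * ‖s.z2‖ / (1000 * s.T))
  rw [div_le_iff₀ he] at ha1
  rw [div_le_iff₀ (by positivity)] at ha2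
  obtain ⟨a, b1, b2, b3, b4⟩ : ∃ a : ℕ, a1 ≤ a ∧ a2 ≤ a ∧ Qmin (k + 1) ≤ a ∧ 1 ≤ a :=
    ⟨a1 + a2 + Qmin (k + 1) + 1, by omega, by omega, by omega, by omega⟩
  have hM : a ≤ s.M + a * s.M' := le_add_left (Nat.le_mul_of_pos_right a i1)
  have hT0 : 0 < min s.T (Dm (k + 1) (q0 * (s.M + a * s.M')) / 1000) :=
    lt_min i2 (div_pos (hD _ _) (by norm_num))
  have hT1 := min_le_left s.T (Dm (k + 1) (q0 * (s.M + a * s.M')) / 1000)
  have hT2 := min_le_right s.T (Dm (k + 1) (q0 * (s.M + a * s.M')) / 1000)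
  generalize min s.T (Dm (k + 1) (q0 * (s.M + a * s.M')) / 1000) = T at hT0 hT1 hT2
  obtain ⟨z3, z4, z5, N0, N0', N1, N1', N2, c1, c2, c3, c4, c5⟩ :=
    clkStep hT0 (by linarith) (hY (k + 1) (q0 * (s.M + a * s.M'))) (hY4 _ _) i6
  refine ⟨⟨s.M', s.M + a * s.M', T, z3, z4, z5⟩, ⟨b4.trans hM, hT0, hT1.trans i3, ?_, ?_, c5⟩,
    a, N0, N0', N1, N1', N2, rfl, rfl, ?_, ?_, hT1, c1, c2, c3, c4⟩
  · show 1000 * T ≤ Dm (k + 1) (q0 * (s.M + a * s.M'))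
    linarith
  · exact (b3.trans hM).trans (Nat.le_mul_of_pos_left _ hq)
  · exact ha1.trans (mul_le_mul_of_nonneg_right (by exact_mod_cast b1) he.le)
  · exact ha2.trans (mul_le_mul_of_nonneg_right (by exact_mod_cast b2) (by positivity))

lemma Arith_SInv0 {τ : ℝ} (hτ : 0 < τ) : SInv 0 ⟨4 * τ, 0⟩ ⟨0, τ⟩ := by
  have n1 : ‖(⟨4 * τ, 0⟩ : ℂ)‖ = 4 * τ := by
    have : (⟨4 * τ, 0⟩ : ℂ) = ((4 * τ : ℝ) : ℂ) := rfl
    rw [this, Complex.norm_real, Real.norm_of_nonneg (by positivity)]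
  have n2 : ‖(⟨0, τ⟩ : ℂ)‖ = τ := by
    have : (⟨0, τ⟩ : ℂ) = (τ : ℂ) * Complex.I := by
      apply Complex.ext <;> simp
    rw [this, norm_mul, Complex.norm_I, mul_one, Complex.norm_real, Real.norm_of_nonneg hτ.le]
  refine ⟨by rwa [n2], ?_, by rw [n1, n2]; linarith, by rw [n1, n2]; linarith, ?_⟩
  · have : inner ℝ (⟨4 * τ, 0⟩ : ℂ) (⟨0, τ⟩ : ℂ) = 0 := by
      simp [Complex.inner]
    rw [this, abs_zero]
    positivity
  · rw [norm_zero]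
    exact norm_nonneg _

theorem arith {e : ℕ → ℝ} (ha : Antitone e) (h0 : ∀ k, 0 < e k) (h1 : ∀ k, e k ≤ 1 / 1000)
    (Qmin : ℕ → ℕ) (Dm Y : ℕ → ℕ → ℝ) (hD : ∀ k q, 0 < Dm k q) (hY : ∀ k q, 1 ≤ Y k q)
    (hY4 : ∀ k q, Y k q ≤ 4) : ∃ (P : Par) (q : ℕ → ℕ) (E : ℕ → ℝ) (r0 : ℝ) (lev : ℝ → ℕ),
      P.Good ∧ (∀ k, Even (q k) ∧ Qmin k ≤ q k) ∧ FibArith P.q0 P.θ q e ∧ Antitone E ∧
      (∀ k, 0 < E k ∧ E k ≤ Dm k (q k)) ∧ ClkArith P E (fun k => Y k (q k)) r0 lev ∧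
      ∀ k, 1 ≤ k → Event P (q k) (Y k (q k)) (E k) := by
  obtain ⟨q0, hq, hqe, hqm⟩ : ∃ q0 : ℕ, 0 < q0 ∧ Even q0 ∧ Qmin 0 ≤ q0 :=
    ⟨2 * (Qmin 0 + 1), by omega, even_two_mul _, by omega⟩
  obtain ⟨T0, t1, t2, t3⟩ : ∃ T0 : ℝ, 0 < T0 ∧ T0 ≤ 1 / 10 ^ 4 ∧ 1000 * T0 ≤ Dm 0 (q0 * 1) := by
    refine ⟨min (1 / 10 ^ 4) (Dm 0 (q0 * 1) / 1000),
      lt_min (by norm_num) (div_pos (hD _ _) (by norm_num)), min_le_left _ _, ?_⟩
    have := min_le_right (1 / 10 ^ 4 : ℝ) (Dm 0 (q0 * 1) / 1000)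
    linarith
  have hτ : 0 < T0⁻¹ := inv_pos.2 t1
  obtain ⟨m0, hm0⟩ := exists_nat_ge (2 * π / T0)
  have hm1 : (0 : ℝ) < m0 := lt_of_lt_of_le (by positivity) hm0
  have hm : 0 < m0 := by exact_mod_cast hm1
  obtain ⟨s, hs0, hs⟩ := exists_chain (Arith_Inv q0 Qmin Dm) (Arith_Rel q0 e Y)
    ⟨0, 1, T0, 0, ⟨4 * T0⁻¹, 0⟩, ⟨0, T0⁻¹⟩⟩
    ⟨le_rfl, t1, t2, t3, by simpa using hqm, Arith_SInv0 hτ⟩
    (Arith_step hq h0 Qmin Dm Y hD hY hY4)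
  have hI := fun k => (hs k).1
  have hR := fun k => (hs k).2
  choose a N0 N0' N1 N1' N2 r1 r2 r3 r4 r5 r6 r7 r8 r9 using hR
  have hM : ∀ k, (s k).M = MM a k ∧ (s k).M' = MM a (k + 1) := by
    intro k
    induction k with
    | zero => rw [hs0]; exact ⟨rfl, rfl⟩
    | succ k ih => exact ⟨by rw [r1, ih.2], by rw [r2, ih.1, ih.2]; rfl⟩
  obtain ⟨θ, hF, hap⟩ := fibAr hq a ha h0 h1 fun k => by rw [← (hM k).2]; exact r3 k
  have hanti : Antitone fun k => (s k).T := antitone_nat_of_succ_le r5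
  obtain ⟨φ1, φ2, v, hC, hv⟩ := exists_clk q0 θ (m0 := m0) (τ := T0⁻¹) (T := fun k => (s k).T)
    (Y := fun k => Y k (q0 * MM a (k + 1)))
    (z := Arith_tri (fun k => (s k).z0) (fun k => (s k).z1) (fun k => (s k).z2))
    (N := Arith_tri N0 N1 N2) (N' := Arith_tri N0' N1' fun _ => 0)
    hanti (fun k => (hI k).2.1) (fun k => (hI k).2.2.1) (fun k => hY _ _) (fun k => hY4 _ _)
    (by
      simp only [hs0]
      rw [mul_inv_cancel₀ t1.ne'])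
    hm
    (by
      simp only [hs0]
      rw [div_le_iff₀ t1] at hm0
      rw [div_le_iff₀ hm1]
      linarith)
    (by rw [Arith_tri0 _ _ _ 0 rfl, hs0]) (by rw [Arith_tri1 _ _ _ 0 rfl, hs0])
    (by rw [Arith_tri2 _ _ _ 0 rfl, hs0])
    (by
      intro n
      obtain ⟨j, hj | hj | hj⟩ : ∃ j, n = 3 * j ∨ n = 3 * j + 1 ∨ n = 3 * j + 2 :=
        ⟨n / 3, by omega⟩
      · rw [show n / 3 = j by omega, Arith_tri0 _ _ _ j hj, Arith_tri0 _ _ _ j hj,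
          Arith_tri0 _ _ _ j hj, Arith_tri1 _ _ _ (n := n + 1) j (by omega),
          Arith_tri2 _ _ _ (n := n + 2) j (by omega),
          Arith_tri0 _ _ _ (n := n + 3) (j + 1) (by omega)]
        exact r6 j
      · rw [show n / 3 = j by omega, Arith_tri1 _ _ _ j hj, Arith_tri1 _ _ _ j hj,
          Arith_tri1 _ _ _ j hj, Arith_tri2 _ _ _ (n := n + 1) j (by omega),
          Arith_tri0 _ _ _ (n := n + 2) (j + 1) (by omega),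
          Arith_tri1 _ _ _ (n := n + 3) (j + 1) (by omega)]
        exact r7 j
      · rw [show n / 3 = j by omega, Arith_tri2 _ _ _ j hj, Arith_tri2 _ _ _ j hj,
          Arith_tri2 _ _ _ j hj, Arith_tri0 _ _ _ (n := n + 1) (j + 1) (by omega),
          Arith_tri1 _ _ _ (n := n + 2) (j + 1) (by omega),
          Arith_tri2 _ _ _ (n := n + 3) (j + 1) (by omega)]
        exact r8 j)
    (fun j => by rw [Arith_tri2 _ _ _ j rfl])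
    (by
      intro j
      rw [Arith_tri1 _ _ _ (n := 3 * j + 4) (j + 1) (by omega),
        Arith_tri2 _ _ _ (n := 3 * j + 5) (j + 1) (by omega)]
      have := r9 j
      rwa [(hM (j + 1)).2] at this)
    (by
      intro j
      rw [Arith_tri0 _ _ _ (n := 3 * j + 3) (j + 1) (by omega),
        Arith_tri1 _ _ _ (n := 3 * j + 4) (j + 1) (by omega)]
      exact (hI (j + 1)).2.2.2.2.2.mono)
  obtain ⟨r0, lev, hA⟩ := hC.arith
  refine ⟨⟨q0, m0, θ, φ1, φ2, 4 * T0⁻¹, T0⁻¹⟩, fun k => q0 * MM a (k + 1),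
    fun k => 1000 * (s k).T, r0, lev, ⟨hq, hqe, hm, by positivity, hτ⟩, fun k => ⟨hqe.mul_right _, ?_⟩,
    hF, fun i j hij => mul_le_mul_of_nonneg_left (hanti hij) (by norm_num),
    fun k => ⟨mul_pos (by norm_num) (hI k).2.1, ?_⟩, hA, fun k hk => ?_⟩
  · have := (hI k).2.2.2.2.1
    rwa [(hM k).2] at this
  · have := (hI k).2.2.2.1
    rwa [(hM k).2] at this
  · obtain ⟨r, a', b, c, e1, e2, e3, e4⟩ := hC.event hk
    refine ⟨r, 2 * π / MM a (k + 2), a', b, c, e1, e2, e3, by positivity, ?_, (hap k).1, (hap k).2⟩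
    rw [hv, Arith_tri2 _ _ _ k rfl] at e4
    have hT := (hI k).2.1
    have hz := (hI k).2.2.2.2.2.pos
    have hak : (0 : ℝ) < a k := by
      have : 0 < (a k : ℝ) * (1000 * (s k).T) := lt_of_lt_of_le (by positivity) (r4 k)
      exact (mul_pos_iff_of_pos_right (by positivity)).1 this
    have hMa : (a k : ℝ) ≤ MM a (k + 2) := by
      have h2 : 1 ≤ MM a (k + 1) := by
        rw [← (hM k).2]
        exact (hI k).1
      have : a k ≤ MM a k + a k * MM a (k + 1) := le_add_left (Nat.le_mul_of_pos_right _ h2)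
      exact_mod_cast this
    have hδ : 2 * π / MM a (k + 2) * (2 * ‖(s k).z2‖) ≤ 1000 * (s k).T := by
      rw [div_mul_eq_mul_div, div_le_iff₀ (hak.trans_le hMa)]
      have := mul_le_mul_of_nonneg_right hMa (by positivity : 0 ≤ 1000 * (s k).T)
      have := r4 k
      linarith
    calc (2 * π / MM a (k + 2)) ^ 2 * _ ≤ (2 * π / MM a (k + 2)) ^ 2 * (4 * ‖(s k).z2‖ ^ 2) :=
          mul_le_mul_of_nonneg_left e4 (sq_nonneg _)
      _ = (2 * π / MM a (k + 2) * (2 * ‖(s k).z2‖)) ^ 2 := by ring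
      _ ≤ _ := pow_le_pow_left₀ (by positivity) hδ 2

end Pool.Agent.Work.MP_0ba68b_gt.CX
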