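import Mathlib.Topology.Compactness.Compact
import Mathlib.Topology.Instances.Real.Lemmas
import Mathlib.Analysis.SpecialFunctions.Pow.Real

/-!
Backward recursions.

PLAN.  `back`: the sets `C n = {x : ℕ → K | ∀ j < n, x j = f j (x (j+1))}` are closed, decreasing and nonempty (induction on
`n`, for all families `f`; or define `x` backwards from an arbitrary point);
`IsCompact.nonempty_iInter_of_sequence_nonempty_isCompact_isClosed`.
`back2`: `K = Set.Icc 0 1`, `f j x = 1/(a j + x)`, `β j = ∏ i < j, x i`.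
`back3`: `K = Set.Icc 0 (1/50) × Set.Icc 0 (1/50)`, `f n (u, v) = (1/(N n + N' n u + u v), u)`, `A n = ∏ i < n, (x i).1`.
`exists_chain`: recursion on subtypes with `Classical.choose`.
-/

namespace Pool.Agent.Work.MP_0ba68b_gt.CX

theorem back {K : Type} [TopologicalSpace K] [CompactSpace K] [T2Space K] [Nonempty K]
    (f : ℕ → K → K) (hf : ∀ j, Continuous (f j)) : ∃ x : ℕ → K, ∀ j, x j = f j (x (j + 1)) := by
  have hne : ∀ n (g : ℕ → K → K), ∃ x : ℕ → K, ∀ j < n, x j = g j (x (j + 1)) := by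
    intro n
    induction n with
    | zero => exact fun _ => ⟨fun _ => Classical.arbitrary K, fun j hj => absurd hj j.not_lt_zero⟩
    | succ n ih =>
      intro g
      obtain ⟨x, hx⟩ := ih fun j => g (j + 1)
      refine ⟨fun j => Nat.casesOn j (g 0 (x 0)) x, fun j hj => ?_⟩
      cases j with
      | zero => rfl
      | succ j => exact hx j (Nat.lt_of_succ_lt_succ hj)
  have hcl : ∀ n, IsClosed {x : ℕ → K | ∀ j < n, x j = f j (x (j + 1))} := by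
    intro n
    simp only [Set.ofPred_forall]
    exact isClosed_iInter fun j => isClosed_iInter fun _ =>
      isClosed_eq (continuous_apply j) ((hf j).comp (continuous_apply (j + 1)))
  obtain ⟨x, hx⟩ := IsCompact.nonempty_iInter_of_sequence_nonempty_isCompact_isClosed
    (fun n => {x : ℕ → K | ∀ j < n, x j = f j (x (j + 1))})
    (fun n x hx j hj => hx j (Nat.lt_succ_of_lt hj)) (fun n => hne n f) (hcl 0).isCompact hcl
  exact ⟨x, fun j => Set.mem_iInter.1 hx (j + 1) j j.lt_succ_self⟩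

theorem back2 (a : ℕ → ℕ) (ha : ∀ j, 1 ≤ a j) : ∃ β : ℕ → ℝ, β 0 = 1 ∧ (∀ j, 0 < β j) ∧
    ∀ j, β j = a j * β (j + 1) + β (j + 2) := by
  have h1 : ∀ j (x : Set.Icc (0 : ℝ) 1), (1 : ℝ) ≤ a j + x := fun j x => by
    have : (1 : ℝ) ≤ a j := by exact_mod_cast ha j
    linarith [x.2.1]
  have h2 : ∀ j (x : Set.Icc (0 : ℝ) 1), (0 : ℝ) < a j + x := fun j x => one_pos.trans_le (h1 j x)
  obtain ⟨x, hx⟩ := back (K := Set.Icc (0 : ℝ) 1)
    (fun j x => ⟨(a j + x : ℝ)⁻¹, (inv_pos.2 (h2 j x)).le, inv_le_one_of_one_le₀ (h1 j x)⟩)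
    fun j => Continuous.subtype_mk
      ((continuous_const.add continuous_subtype_val).inv₀ fun x => (h2 j x).ne') _
  have hv : ∀ j, (x j : ℝ) = (a j + x (j + 1) : ℝ)⁻¹ := fun j => congrArg Subtype.val (hx j)
  refine ⟨fun j => ∏ i ∈ Finset.range j, (x i : ℝ), Finset.prod_range_zero _,
    fun j => Finset.prod_pos fun i _ => hv i ▸ inv_pos.2 (h2 i _), fun j => ?_⟩
  have h3 : (x j : ℝ) * (a j + x (j + 1)) = 1 := by
    rw [hv j, inv_mul_cancel₀ (h2 j _).ne']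
  simp only [Finset.prod_range_succ]
  linear_combination -(∏ i ∈ Finset.range j, (x i : ℝ)) * h3

theorem back3 (N N' : ℕ → ℤ) (hN : ∀ n, 100 ≤ N n) (hN' : ∀ n, |N' n| ≤ N n) :
    ∃ A : ℕ → ℝ, A 0 = 1 ∧ (∀ n, 0 < A n) ∧
      (∀ n, A (n + 3) = A n - N n * A (n + 1) - N' n * A (n + 2)) ∧
      (∀ n, N n * A (n + 1) ≤ 2 * A n) ∧ ∀ n, A n ≤ 2 * (N n * A (n + 1)) := by
  have hb : ∀ n (u v : Set.Icc (0 : ℝ) (1 / 50)),
      (N n : ℝ) / 2 ≤ N n + N' n * u + u * v ∧ (N n : ℝ) + N' n * u + u * v ≤ 2 * N n ∧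
        (100 : ℝ) ≤ N n := by
    intro n u v
    have a1 : (100 : ℝ) ≤ N n := by exact_mod_cast hN n
    have a2 : |(N' n : ℝ)| ≤ N n := by exact_mod_cast hN' n
    obtain ⟨a3, a4⟩ := abs_le.1 a2
    obtain ⟨u0, u1⟩ := u.2
    obtain ⟨v0, v1⟩ := v.2
    refine ⟨?_, ?_, a1⟩ <;> nlinarith [mul_nonneg u0 v0]
  have hp : ∀ n (u v : Set.Icc (0 : ℝ) (1 / 50)), (0 : ℝ) < N n + N' n * u + u * v :=
    fun n u v => by linarith [(hb n u v).1, (hb n u v).2.2]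
  have hc : ∀ n, Continuous fun x : Set.Icc (0 : ℝ) (1 / 50) × Set.Icc (0 : ℝ) (1 / 50) =>
      (N n + N' n * x.1 + x.1 * x.2 : ℝ)⁻¹ := fun n =>
    Continuous.inv₀ (by fun_prop) fun x => (hp n x.1 x.2).ne'
  have : Nonempty (Set.Icc (0 : ℝ) (1 / 50)) := ⟨⟨0, le_rfl, by norm_num⟩⟩
  obtain ⟨x, hx⟩ := back (K := Set.Icc (0 : ℝ) (1 / 50) × Set.Icc (0 : ℝ) (1 / 50))
    (fun n x => (⟨(N n + N' n * x.1 + x.1 * x.2 : ℝ)⁻¹, (inv_pos.2 (hp n x.1 x.2)).le,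
      (inv_anti₀ (show (0 : ℝ) < 50 by norm_num)
        (by linarith [(hb n x.1 x.2).1, (hb n x.1 x.2).2.2])).trans_eq (one_div _).symm⟩, x.1))
    fun n => Continuous.prodMk (Continuous.subtype_mk (hc n) _) continuous_fst
  have hv : ∀ n, ((x n).1 : ℝ) =
      (N n + N' n * (x (n + 1)).1 + (x (n + 1)).1 * (x (n + 1)).2 : ℝ)⁻¹ :=
    fun n => congrArg (fun z => (z.1 : ℝ)) (hx n)
  have hw : ∀ n, (x n).2 = (x (n + 1)).1 := fun n => congrArg Prod.snd (hx n)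
  have hu : ∀ n, (0 : ℝ) < (x n).1 := fun n => hv n ▸ inv_pos.2 (hp n _ _)
  have h3 : ∀ n, ((x n).1 : ℝ) *
      (N n + N' n * (x (n + 1)).1 + (x (n + 1)).1 * (x (n + 1)).2) = 1 := fun n => by
    rw [hv n, inv_mul_cancel₀ (hp n _ _).ne']
  have hA : ∀ n, 0 < ∏ i ∈ Finset.range n, ((x i).1 : ℝ) := fun n =>
    Finset.prod_pos fun i _ => hu i
  refine ⟨fun n => ∏ i ∈ Finset.range n, ((x i).1 : ℝ), Finset.prod_range_zero _, hA,
    fun n => ?_, fun n => ?_, fun n => ?_⟩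
  · have h4 := h3 n
    rw [hw (n + 1)] at h4
    simp only [Finset.prod_range_succ]
    linear_combination (∏ i ∈ Finset.range n, ((x i).1 : ℝ)) * h4
  · have h4 : (N n : ℝ) * (x n).1 ≤ 2 := by
      nlinarith [h3 n, mul_le_mul_of_nonneg_left (hb n (x (n + 1)).1 (x (n + 1)).2).1 (hu n).le]
    simp only [Finset.prod_range_succ]
    nlinarith [mul_le_mul_of_nonneg_left h4 (hA n).le]
  · have h4 : 1 ≤ 2 * ((N n : ℝ) * (x n).1) := by
      nlinarith [h3 n, mul_le_mul_of_nonneg_left (hb n (x (n + 1)).1 (x (n + 1)).2).2.1 (hu n).le]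
    simp only [Finset.prod_range_succ]
    nlinarith [mul_le_mul_of_nonneg_left h4 (hA n).le]

theorem exists_chain {S : Type} (Inv : ℕ → S → Prop) (Rel : ℕ → S → S → Prop) (s0 : S)
    (h0 : Inv 0 s0) (hs : ∀ k s, Inv k s → ∃ s', Inv (k + 1) s' ∧ Rel k s s') :
    ∃ s : ℕ → S, s 0 = s0 ∧ ∀ k, Inv k (s k) ∧ Rel k (s k) (s (k + 1)) := by
  choose nx h1 h2 using hs
  let t : ∀ k, {s // Inv k s} := fun k =>
    Nat.rec ⟨s0, h0⟩ (fun k z => ⟨nx k z.1 z.2, h1 k z.1 z.2⟩) k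
  exact ⟨fun k => (t k).1, rfl, fun k => ⟨(t k).2, h2 k (t k).1 (t k).2⟩⟩

end Pool.Agent.Work.MP_0ba68b_gt.CX
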