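import Pool.Agent.Work.MP_0ba68b_gt.CX.Defs

/-!
Basic facts on invariant kernels on the model space.

PLAN.  `eq_of_norm`: by `hopf`, `x' = ec φ * ej t * ec ψ * x` with `‖cin x x'‖ = cos t`; with
`uinv`, `uinv_left`, `rinv` (right multiplication by `(ec ψ * x)⁻¹`) the value is
`K (a, 1) (a', ej t)`; `t` is determined by `cos t` on `[0, π/2]` (`Real.injOn_cos`).
`J`: `PSD.four` at the points `(a,x), (a,x'), (a',x), (a',x')`, and `eq_of_norm` to identify
`K (a,x') (a',x) = K (a,x) (a',x')`, `K (a,x') (a',x') = K (a,x) (a',x)`.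
`exists_minimal`: the angular part takes two values (`ang_zpow_even`, `ang_zpow_odd`), and
`sg` tends to infinity on `ℤ × ℤ`: minimise over a finite box (`Finset.exists_min_image`), or
use `Set.Finite.exists_minimal`-type lemmas on the sublevel set.
`Minimal.rep_le`: compare with `m = (round Δ₁, round Δ₂)`.
-/

open scoped Quaternion
open Real

namespace Pool.Agent.Work.MP_0ba68b_gt.CX

noncomputable section

variable {I : Set ℝ} {K K' : Pt I → Pt I → ℝ} {y b b' lam : ℝ} {lo lo' : Pt I → Pt I → ℝ}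

lemma PreK.uinv_left (h : PreK K) (a : Ax I) (x : S3) (φ : ℝ) (p' : Pt I) :
    K (a, ec φ * x) p' = K (a, x) p' := by
  rw [h.psd.symm, h.uinv, h.psd.symm]

lemma Base1_val (h : PreK K) (a a' : Ax I) (x : S3) (φ ψ t : ℝ) :
    K (a, x) (a', ec φ * ej t * ec ψ * x) = K (a, 1) (a', ej t) := by
  rw [mul_assoc, mul_assoc, h.uinv, ← h.uinv_left a x ψ, ← h.rinv a a' 1 (ej t) (ec ψ * x),
    one_mul]

lemma PreK.eq_of_norm (h : PreK K) {x x' z z' : S3} (e : ‖cin x x'‖ = ‖cin z z'‖) (a a' : Ax I) :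
    K (a, x) (a', x') = K (a, z) (a', z') := by
  obtain ⟨φ, ψ, t, ht, h1, h2⟩ := hopf x x'
  obtain ⟨φ', ψ', t', ht', h1', h2'⟩ := hopf z z'
  have htt : t = t' := by
    refine Real.injOn_cos ⟨ht.1, by linarith [ht.2, pi_pos]⟩ ⟨ht'.1, by linarith [ht'.2, pi_pos]⟩ ?_
    rw [← h2, ← h2', e]
  subst htt
  conv_lhs => rw [h1]
  conv_rhs => rw [h1']
  rw [Base1_val h, Base1_val h]

lemma PreK.diag_eq (h : PreK K) (a a' : Ax I) (x z : S3) :
    K (a, x) (a', x) = K (a, z) (a', z) := by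
  exact h.eq_of_norm (by rw [cin_self, cin_self]) a a'

lemma PreK.nd_eq_of_norm (h : PreK K) {x x' z z' : S3} (e : ‖cin x x'‖ = ‖cin z z'‖)
    (a a' : Ax I) : nd K (a, x) (a', x') = nd K (a, z) (a', z') := by
  simp only [nd]
  rw [h.eq_of_norm e a a', h.diag_eq a a x z, h.diag_eq a' a' x' z']

lemma PreK.J (h : PreK K) (a a' : Ax I) (x x' : S3) :
    |nd K (a, x) (a', x') - nd K (a, x) (a', x)| ≤
      √(nd K (a, x) (a, x')) * √(nd K (a', x) (a', x')) := by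
  have h4 := h.psd.four (a, x) (a, x') (a', x) (a', x')
  rw [h.eq_of_norm (x := x') (x' := x) (z := x) (z' := x') (norm_cin_comm _ _) a a',
    h.diag_eq a a' x' x] at h4
  have e : nd K (a, x) (a', x') - nd K (a, x) (a', x) =
      K (a, x) (a', x) - K (a, x) (a', x') - K (a, x) (a', x') + K (a, x) (a', x) := by
    simp only [nd]
    rw [h.diag_eq a' a' x' x]
    ring
  rw [e]
  exact h4

lemma PreK.add (h : PreK K) (h' : PreK K') : PreK fun p p' => K p p' + K' p p' := by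
  exact ⟨h.psd.add h'.psd, fun a a' x x' g => by simp only [h.rinv, h'.rinv],
    fun p a' x' φ => by simp only [h.uinv, h'.uinv]⟩

lemma PreK.smul (h : PreK K) {c : ℝ} (hc : 0 ≤ c) : PreK fun p p' => c * K p p' := by
  exact ⟨h.psd.smul hc, fun a a' x x' g => by simp only [h.rinv],
    fun p a' x' φ => by simp only [h.uinv]⟩

lemma BaseK.add (h : BaseK K) (h' : BaseK K') : BaseK fun p p' => K p p' + K' p p' := by
  exact ⟨h.toPreK.add h'.toPreK, fun m p p' => by simp only [h.ginv, h'.ginv]⟩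

lemma BaseK.smul (h : BaseK K) {c : ℝ} (hc : 0 ≤ c) : BaseK fun p p' => c * K p p' := by
  exact ⟨h.toPreK.smul hc, fun m p p' => by simp only [h.ginv]⟩

lemma BaseK.ginv_left (h : BaseK K) (m : ℤ × ℤ) (p p' : Pt I) : K (gam m p) p' = K p p' := by
  rw [h.psd.symm, h.ginv, h.psd.symm]

lemma BaseK.nd_gam (h : BaseK K) (m : ℤ × ℤ) (p p' : Pt I) : nd K p (gam m p') = nd K p p' := by
  simp only [nd]
  rw [h.ginv, h.ginv, h.ginv_left]

lemma WeakK.nd_gam {K : Pt I0 → Pt I0 → ℝ} (h : WeakK K) (m : ℤ × ℤ) (p p' : Pt I0) :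
    nd K p (gam m p') = nd K p p' := by
  simp only [nd]
  rw [h.ginv, h.ginv, h.psd.symm (gam m p') p', h.ginv]

/-- A kernel that is a function of the radii and of `uu ^ 2`, such as `ρ ρ'` or `k0`. -/
lemma baseK_radial (f : ℝ → ℝ) : BaseK fun p p' : Pt I => f (rho p.1) * f (rho p'.1) := by
  exact ⟨⟨PSD.rankOne fun p : Pt I => f (rho p.1), fun _ _ _ _ _ => rfl, fun _ _ _ _ => rfl⟩,
    fun _ _ _ => rfl⟩

lemma Base1_p2_zpow (n : ℤ) (x x' : S3) : p2 x (jj ^ n * x') = p2 x x' := by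
  rcases Int.even_or_odd n with h | h
  · obtain ⟨φ, h, -⟩ := jj_zpow_even h
    simp only [h, p2, uu_ec]
  · obtain ⟨φ, h, -⟩ := jj_zpow_odd h
    simp only [h, p2, mul_assoc, uu_ec, uu_jj, neg_sq]

lemma baseK_p2 (f : ℝ → ℝ) :
    BaseK fun p p' : Pt I => f (rho p.1) * f (rho p'.1) * p2 p.2 p'.2 := by
  refine ⟨⟨(PSD.rankOne fun p : Pt I => f (rho p.1)).mul_p2 fun p => p.2, fun a a' x x' g => ?_,
    fun p a' x' φ => ?_⟩, fun m p p' => ?_⟩
  · simp only [p2, uu_mul_right]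
  · simp only [p2, uu_ec]
  · simp only [gam, rho_shift, Base1_p2_zpow]

lemma baseK_k0 : BaseK (k0 : Pt I → Pt I → ℝ) := by
  have h := ((baseK_radial (I := I) id).smul (c := 22 / 25) (by norm_num)).add
    ((baseK_p2 (I := I) id).smul (c := 2 / 25) (by norm_num))
  convert h using 3 with p p'
  simp only [k0, id]
  ring

lemma nd_k0 (p p' : Pt I) : nd k0 p p' = 24 / 25 * (rho p.1 - rho p'.1) ^ 2 +
    6 / 25 * (rho p.1 * rho p'.1) * (1 - uu p.2 p'.2 ^ 2) := by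
  simp only [nd, k0, p2_self]
  simp only [p2]
  ring

lemma rep_ec (y : ℝ) (a a' : Ax I) (x x' : S3) (φ ψ : ℝ) :
    rep y (a, ec φ * x) (a', ec ψ * x') = rep y (a, x) (a', x') := by
  simp only [rep, angP, ang_ec, ang_ec_left]

lemma Base1_jj_ec (n : ℤ) (ψ : ℝ) : ∃ ψ', jj ^ n * ec ψ = ec ψ' * jj ^ n := by
  rcases Int.even_or_odd n with h | h
  · obtain ⟨φ, h, -⟩ := jj_zpow_even h
    exact ⟨ψ, by rw [h, ← ec_add, ← ec_add, add_comm]⟩
  · obtain ⟨φ, h, -⟩ := jj_zpow_odd h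
    exact ⟨-ψ, by
      rw [h, mul_assoc, jj_mul_ec, ← mul_assoc, ← mul_assoc, ← ec_add, ← ec_add, add_comm]⟩

lemma minimal_ec {a a' : Ax I} {x x' : S3} (h : Minimal y (a, x) (a', x')) (φ ψ : ℝ) :
    Minimal y (a, ec φ * x) (a', ec ψ * x') := by
  intro m
  obtain ⟨ψ', hψ⟩ := Base1_jj_ec (m.1 + m.2) ψ
  have := h m
  simp only [gam] at this ⊢
  rw [← mul_assoc, hψ, mul_assoc, rep_ec, rep_ec]
  exact this

lemma rep_mul_right (y : ℝ) (a a' : Ax I) (x x' g : S3) :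
    rep y (a, x * g) (a', x' * g) = rep y (a, x) (a', x') := by
  simp only [rep, angP, ang, Metric.unitSphere.coe_mul, cin_mul_right]

lemma minimal_mul_right {a a' : Ax I} {x x' : S3} (h : Minimal y (a, x) (a', x')) (g : S3) :
    Minimal y (a, x * g) (a', x' * g) := by
  intro m
  have := h m
  simp only [gam] at this ⊢
  rw [← mul_assoc, rep_mul_right, rep_mul_right]
  exact this

lemma Base1_rep_shift (y : ℝ) (a a' : Ax I) (x x' : S3) (s t : ℝ) :
    rep y (shift a s t, x) (shift a' s t, x') = rep y (a, x) (a', x') := by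
  simp only [rep, angP, Dsq, sg, rho_shift]
  simp only [shift]
  ring

lemma Base1_rep_gam (y : ℝ) (p p' : Pt I) (m : ℤ × ℤ) :
    rep y p (gam m p') = (rho p.1 - rho p'.1) ^ 2 +
      (y ^ 2 * (p.1.2.1 - p'.1.2.1 - m.1) ^ 2 + (p.1.2.2 - p'.1.2.2 - m.2) ^ 2) +
      2 * rho p.1 * rho p'.1 * (1 - ‖cin p.2 (gam m p').2‖) := by
  simp only [rep, angP, Dsq, sg, rho_gam, ang]
  simp only [gam, shift]
  ring

lemma minimal_shift {a a' : Ax I} {x x' : S3} (h : Minimal y (a, x) (a', x')) (s t : ℝ) :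
    Minimal y (shift a s t, x) (shift a' s t, x') := by
  intro m
  have := h m
  simp only [gam] at this ⊢
  rw [shift_shift, add_comm s, add_comm t, ← shift_shift, Base1_rep_shift, Base1_rep_shift]
  exact this

lemma Base1_abs_le {u C : ℝ} {k : ℤ} (h : (u - k) ^ 2 ≤ C) : |(k : ℝ)| ≤ |u| + C + 1 := by
  have h1 : |u - k| ≤ C + 1 := by
    have := sq_abs (u - k)
    nlinarith [abs_nonneg (u - k), sq_nonneg (|u - k| - 1)]
  have h2 : |(k : ℝ)| ≤ |u| + |u - k| := by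
    have := abs_sub u (u - k)
    rwa [sub_sub_cancel] at this
  linarith

lemma exists_minimal (hy : 1 ≤ y) (p p' : Pt I) : ∃ m, Minimal y p (gam m p') := by
  set f : ℤ × ℤ → ℝ := fun m => rep y p (gam m p') with hf
  set u := p.1.2.1 - p'.1.2.1 with hu
  set v := p.1.2.2 - p'.1.2.2 with hv
  set C := f 0 + 2 * |rho p.1 * rho p'.1| with hC
  have hlow : ∀ m : ℤ × ℤ, f m ≤ f 0 → (u - m.1) ^ 2 ≤ C ∧ (v - m.2) ^ 2 ≤ C := by
    intro m hm
    have e : f m = _ := Base1_rep_gam y p p' m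
    have h1 := norm_cin_le p.2 (gam m p').2
    have h0 := norm_nonneg (cin p.2 (gam m p').2)
    have h2 := neg_abs_le (rho p.1 * rho p'.1)
    have h3 := abs_nonneg (rho p.1 * rho p'.1)
    have h4 : -(2 * |rho p.1 * rho p'.1|) ≤
        2 * rho p.1 * rho p'.1 * (1 - ‖cin p.2 (gam m p').2‖) := by
      nlinarith only [h1, h2, h0, h3, mul_nonneg (sub_nonneg.2 h1) (sub_nonneg.2 h2), mul_nonneg h0 h3]
    have h5 : (u - m.1) ^ 2 ≤ y ^ 2 * (u - m.1) ^ 2 := by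
      have : 1 ≤ y ^ 2 := by nlinarith only [hy]
      nlinarith only [this, sq_nonneg (u - m.1)]
    rw [← hu, ← hv] at e
    constructor <;>
      nlinarith [sq_nonneg (u - m.1), sq_nonneg (v - m.2), sq_nonneg (rho p.1 - rho p'.1)]
  obtain ⟨N, hN⟩ := exists_nat_ge (|u| + |v| + C + 1)
  have hfin : {m : ℤ × ℤ | f m ≤ f 0}.Finite := by
    refine ((Set.finite_Icc (-(N : ℤ)) N).prod (Set.finite_Icc (-(N : ℤ)) N)).subset
      fun m hm => ?_
    obtain ⟨h1, h2⟩ := hlow m hm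
    have h3 : |(m.1 : ℝ)| ≤ N := by linarith [Base1_abs_le h1, abs_nonneg v]
    have h4 : |(m.2 : ℝ)| ≤ N := by linarith [Base1_abs_le h2, abs_nonneg u]
    have h5 : |m.1| ≤ (N : ℤ) := by exact_mod_cast h3
    have h6 : |m.2| ≤ (N : ℤ) := by exact_mod_cast h4
    exact ⟨abs_le.1 h5, abs_le.1 h6⟩
  obtain ⟨m, hm, hmin⟩ := Set.exists_min_image _ f hfin ⟨0, le_refl (f 0)⟩
  refine ⟨m, fun m' => ?_⟩
  rw [gam_add]
  by_cases h : f (m' + m) ≤ f 0
  · exact hmin _ h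
  · exact le_trans hm (le_of_not_ge h)

lemma Minimal.rep_le {p p' : Pt I} (h : Minimal y p p') (h0 : 0 ≤ rho p.1) (h1 : 0 ≤ rho p'.1) :
    rep y p p' ≤ (rho p.1 - rho p'.1) ^ 2 + 2 * (rho p.1 * rho p'.1) + (y ^ 2 + 1) / 4 := by
  refine (h (round (p.1.2.1 - p'.1.2.1), round (p.1.2.2 - p'.1.2.2))).trans ?_
  rw [Base1_rep_gam]
  have key : ∀ u : ℝ, (u - round u) ^ 2 ≤ 1 / 4 := fun u => by
    have h1 := abs_sub_round u
    have h2 := sq_abs (u - round u)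
    nlinarith [abs_nonneg (u - round u)]
  have k1 := mul_le_mul_of_nonneg_left (key (p.1.2.1 - p'.1.2.1)) (sq_nonneg y)
  have k2 := key (p.1.2.2 - p'.1.2.2)
  have k3 := mul_nonneg (mul_nonneg h0 h1) (norm_nonneg (cin p.2
    (gam (round (p.1.2.1 - p'.1.2.1), round (p.1.2.2 - p'.1.2.2)) p').2))
  simp only at k1 k2 k3 ⊢
  nlinarith

lemma sq_le_one_sub_cos {t : ℝ} (ht : t ∈ Set.Icc 0 (π / 2)) :
    t ^ 2 ≤ π ^ 2 / 4 * (1 - cos t) := by
  have hπ := pi_pos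
  have hl0 : 0 ≤ 2 * t / π := by have := ht.1; positivity
  have hl1 : 2 * t / π ≤ 1 := by rw [div_le_one hπ]; linarith [ht.2]
  have hc : (1 - 2 * t / π) • sin 0 + (2 * t / π) • sin (π / 4) ≤
      sin ((1 - 2 * t / π) • (0 : ℝ) + (2 * t / π) • (π / 4)) :=
    strictConcaveOn_sin_Icc.concaveOn.2 ⟨le_rfl, hπ.le⟩ ⟨by positivity, by linarith⟩
      (by linarith) hl0 (by ring)
  have e1 : (1 - 2 * t / π) • (0 : ℝ) + (2 * t / π) • (π / 4) = t / 2 := by
    simp only [smul_eq_mul]; field_simp; ring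
  rw [e1, sin_zero, sin_pi_div_four] at hc
  simp only [smul_eq_mul, mul_zero, zero_add] at hc
  have h2 : (2 * t / π * (√2 / 2)) ^ 2 ≤ sin (t / 2) ^ 2 := by
    gcongr
  have e2 : (2 * t / π * (√2 / 2)) ^ 2 = 2 * t ^ 2 / π ^ 2 := by
    rw [mul_pow, div_pow (√2), sq_sqrt (by norm_num)]
    field_simp
  have e3 : 1 - cos t = 2 * sin (t / 2) ^ 2 := by
    have := cos_two_mul (t / 2)
    have h3 := sin_sq_add_cos_sq (t / 2)
    rw [show 2 * (t / 2) = t by ring] at this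
    linarith only [this, h3]
  rw [e2, div_le_iff₀ (by positivity)] at h2
  rw [e3]
  linarith only [h2]

lemma sq_le_local {ε : ℝ} (hε : 0 < ε) : ∃ δ > 0, ∀ t ∈ Set.Icc 0 (π / 2), 1 - cos t < δ →
    t ^ 2 ≤ (1 + ε) * (2 * (1 - cos t)) := by
  refine ⟨ε / (4 * (1 + ε)), by positivity, fun t ht h => ?_⟩
  have h1 := sq_le_one_sub_cos ht
  have hc : 0 ≤ 1 - cos t := by linarith [cos_le_one t]
  have hπ : π ^ 2 / 4 ≤ 4 := by nlinarith only [pi_le_four, pi_pos]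
  have h2 : t ^ 2 ≤ 4 * (1 - cos t) := h1.trans (mul_le_mul_of_nonneg_right hπ hc)
  rw [lt_div_iff₀ (by positivity)] at h
  have h3 : (1 + ε) * t ^ 2 ≤ ε := by nlinarith
  have h4 : t ^ 2 ≤ 1 := by nlinarith only [h3, hε, sq_nonneg t]
  have h5 : |t| ≤ 1 := by
    rw [abs_of_nonneg ht.1]
    nlinarith only [h4, ht.1]
  have h6 := (abs_le.1 (cos_bound h5)).2
  have h7 : |t| ^ 4 = t ^ 2 * t ^ 2 := by
    rw [abs_of_nonneg ht.1]; ring
  rw [h7] at h6
  have h8 : (1 + ε) * t ^ 2 * t ^ 2 ≤ ε * t ^ 2 := mul_le_mul_of_nonneg_right h3 (sq_nonneg t)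
  have h9 : (1 + ε) * (t ^ 2 - t ^ 2 * t ^ 2 * (5 / 48)) ≤ (1 + ε) * (2 * (1 - cos t)) :=
    mul_le_mul_of_nonneg_left (by linarith) (by linarith)
  nlinarith only [h8, h9, hε, mul_nonneg hε.le (sq_nonneg t)]

lemma AdmL.nd_cos (h : AdmL y b lo K) (a : Ax I) {x x' : S3} {t : ℝ}
    (ht : t ∈ Set.Icc 0 (π / 2)) (e : ‖cin x x'‖ = cos t) :
    nd K (a, x) (a, x') ≤ b * rho a ^ 2 * t ^ 2 := by
  have hc : 0 ≤ cos t := cos_nonneg_of_mem_Icc ⟨by linarith [ht.1, pi_pos], ht.2⟩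
  have e2 : ‖cin x x'‖ = ‖cin (1 : S3) (ej t)‖ := by
    rw [e, Metric.unitSphere.coe_one, cin_one_ej, Complex.norm_real, Real.norm_of_nonneg hc]
  rw [h.toPreK.nd_eq_of_norm e2]
  exact h.upj a t ht

lemma AdmL.nd_chord (h : AdmL y b lo K) (hb : 0 ≤ b) (a : Ax I) (x x' : S3) :
    nd K (a, x) (a, x') ≤ b * rho a ^ 2 * (π ^ 2 / 4 * (1 - ‖cin x x'‖)) := by
  obtain ⟨φ, ψ, t, ht, -, h2⟩ := hopf x x'
  refine (h.nd_cos a ht h2).trans ?_
  rw [h2]
  exact mul_le_mul_of_nonneg_left (sq_le_one_sub_cos ht) (by positivity)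

lemma AdmL.joint (h : AdmL y b lo K) (hb : 0 ≤ b) {a a' : Ax I} (h0 : 0 ≤ rho a)
    (h1 : 0 ≤ rho a') {x x' : S3} {t : ℝ} (ht : t ∈ Set.Icc 0 (π / 2))
    (e : ‖cin x x'‖ = cos t) :
    nd K (a, x) (a', x') ≤ Dsq y a a' + b * (rho a * rho a') * t ^ 2 := by
  have hJ := (abs_le.1 (h.toPreK.J a a' x x')).2
  have ht0 := ht.1
  have key : ∀ c : Ax I, 0 ≤ rho c → √(nd K (c, x) (c, x')) ≤ √b * (rho c * t) := by
    intro c hc
    refine Real.sqrt_le_iff.2 ⟨by positivity, (h.nd_cos c ht e).trans_eq ?_⟩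
    rw [mul_pow, sq_sqrt hb]
    ring
  have k := mul_le_mul (key a h0) (key a' h1) (sqrt_nonneg _) (by positivity)
  have e2 : √b * (rho a * t) * (√b * (rho a' * t)) = b * (rho a * rho a') * t ^ 2 := by
    have := mul_self_sqrt hb
    linear_combination (rho a * rho a' * t ^ 2) * this
  linarith [h.up0 a a' x]

lemma AdmL.low_exists (h : AdmL y b lo K) (hy : 1 ≤ y) (p p' : Pt I) :
    ∃ m, Minimal y p (gam m p') ∧ lo p (gam m p') ≤ nd K p p' := by
  obtain ⟨m, hm⟩ := exists_minimal hy p p'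
  exact ⟨m, hm, (h.low _ _ hm).trans_eq (h.toBaseK.nd_gam m p p')⟩

lemma AdmL.mono (h : AdmL y b lo K) (hb : b ≤ b')
    (hl : ∀ p p', Minimal y p p' → lo' p p' ≤ lo p p') : AdmL y b' lo' K := by
  refine ⟨h.toBaseK, h.up0, fun a t ht => (h.upj a t ht).trans ?_,
    fun p p' hm => (hl p p' hm).trans (h.low p p' hm)⟩
  gcongr

lemma AdmL.mix (h : AdmL y b lo K) (h' : AdmL y b' lo' K') {s t : ℝ} (hs : 0 ≤ s) (ht : 0 ≤ t)
    (hst : s + t ≤ 1) : AdmL y (s * b + t * b') (fun p p' => s * lo p p' + t * lo' p p')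
      fun p p' => s * K p p' + t * K' p p' := by
  refine ⟨(h.toBaseK.smul hs).add (h'.toBaseK.smul ht), fun a a' x => ?_, fun a u hu => ?_,
    fun p p' hm => ?_⟩
  · rw [nd_add (fun p p' => s * K p p') (fun p p' => t * K' p p'), nd_smul, nd_smul]
    have h1 := mul_le_mul_of_nonneg_left (h.up0 a a' x) hs
    have h2 := mul_le_mul_of_nonneg_left (h'.up0 a a' x) ht
    nlinarith [Dsq_nonneg y a a']
  · rw [nd_add (fun p p' => s * K p p') (fun p p' => t * K' p p'), nd_smul, nd_smul]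
    have h1 := mul_le_mul_of_nonneg_left (h.upj a u hu) hs
    have h2 := mul_le_mul_of_nonneg_left (h'.upj a u hu) ht
    linarith
  · rw [nd_add (fun p p' => s * K p p') (fun p p' => t * K' p p'), nd_smul, nd_smul]
    have h1 := mul_le_mul_of_nonneg_left (h.low p p' hm) hs
    have h2 := mul_le_mul_of_nonneg_left (h'.low p p' hm) ht
    linarith

lemma AdmL.smul (h : AdmL y b lo K) {s : ℝ} (hs : 0 ≤ s) (hs1 : s ≤ 1) :
    AdmL y (s * b) (fun p p' => s * lo p p') fun p p' => s * K p p' := by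
  refine ⟨h.toBaseK.smul hs, fun a a' x => ?_, fun a u hu => ?_, fun p p' hm => ?_⟩
  · rw [nd_smul]
    have h1 := mul_le_mul_of_nonneg_left (h.up0 a a' x) hs
    nlinarith [Dsq_nonneg y a a']
  · rw [nd_smul]
    have h1 := mul_le_mul_of_nonneg_left (h.upj a u hu) hs
    linarith
  · rw [nd_smul]
    exact mul_le_mul_of_nonneg_left (h.low p p' hm) hs

lemma adm_of_exists (h : BaseK K) (hl : 0 ≤ lam)
    (up0 : ∀ a a' x, nd K (a, x) (a', x) ≤ Dsq y a a')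
    (upj : ∀ a, ∀ t ∈ Set.Icc 0 (π / 2), nd K (a, 1) (a, ej t) ≤ b * rho a ^ 2 * t ^ 2)
    (low : ∀ p p', ∃ m, lam * rep y p (gam m p') ≤ nd K p p') : Adm y b lam K := by
  refine ⟨h, up0, upj, fun p p' hm => ?_⟩
  obtain ⟨m, h1⟩ := low p p'
  exact (mul_le_mul_of_nonneg_left (hm m) hl).trans h1

lemma Adm.stretch {y' : ℝ} (h : Adm y' b lam K) (hy : 1 ≤ y) (hy' : y ≤ y') (hb : 0 ≤ b)
    (hl : 0 ≤ lam) : Adm y b ((y / y') ^ 2 * lam) fun p p' => (y / y') ^ 2 * K p p' := by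
  have hy0 : 0 < y' := by linarith
  have hc0 : 0 ≤ (y / y') ^ 2 := sq_nonneg _
  have hc1 : (y / y') ^ 2 ≤ 1 := by
    have h1 : y / y' ≤ 1 := by rwa [div_le_one hy0]
    have h2 : 0 ≤ y / y' := by positivity
    nlinarith only [h1, h2]
  have hcy : (y / y') ^ 2 * y' ^ 2 = y ^ 2 := by field_simp
  refine adm_of_exists (h.toBaseK.smul hc0) (mul_nonneg hc0 hl) (fun a a' x => ?_)
    (fun a t ht => ?_) fun p p' => ?_
  · rw [nd_smul]
    refine (mul_le_mul_of_nonneg_left (h.up0 a a' x) hc0).trans ?_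
    simp only [Dsq, sg]
    have h1 := mul_le_mul_of_nonneg_right hc1 (sq_nonneg (rho a - rho a'))
    have h2 := mul_le_mul_of_nonneg_right hc1 (sq_nonneg (a.2.2 - a'.2.2))
    have h3 : (y / y') ^ 2 * (y' ^ 2 * (a.2.1 - a'.2.1) ^ 2) = y ^ 2 * (a.2.1 - a'.2.1) ^ 2 := by
      rw [← mul_assoc, hcy]
    linarith
  · rw [nd_smul]
    refine (mul_le_mul_of_nonneg_left (h.upj a t ht) hc0).trans ?_
    have : 0 ≤ b * rho a ^ 2 * t ^ 2 := by positivity
    nlinarith only [hc1, this]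
  · obtain ⟨m, -, h1⟩ := h.low_exists (hy.trans hy') p p'
    refine ⟨m, ?_⟩
    rw [nd_smul, mul_assoc]
    refine mul_le_mul_of_nonneg_left (le_trans (mul_le_mul_of_nonneg_left ?_ hl) h1) hc0
    simp only [rep, Dsq, sg]
    have h2 : y ^ 2 ≤ y' ^ 2 := by nlinarith only [hcy, hc1]
    have := mul_le_mul_of_nonneg_right h2 (sq_nonneg (p.1.2.1 - (gam m p').1.2.1))
    linarith

end

end Pool.Agent.Work.MP_0ba68b_gt.CX
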