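import Pool.Agent.Work.MP_0ba68b_gt.Basic
import Pool.Agent.Work.MP_0ba68b_gt.CX.Base1

/-!
A Wirtinger inequality along the horizontal circle.

PLAN.  Gram map `F`, `G t = F (a, ej t)`, period `π`, and `⟪G s, G t⟫ = k (t - s)` with `k` even
(`eq_of_norm`: it depends on `|cos (t - s)|`).  Split `G = A + B + C`,
`A t = (G t - G (t + π/2))/2`, `B t = (G t - G (t + π/4) + G (t + π/2) - G (t + 3π/4))/4`,
`C t = (G t + G (t + π/4) + G (t + π/2) + G (t + 3π/4))/4`; the three families are mutually orthogonal,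
each has a translation invariant even kernel, `A (t + π/2) = -A t`, `B (t + π/4) = -B t`, `C` has period `π/4`.
With `h = π/(4n)`: `‖A (π/4) - A 0‖² = 2 ‖A‖²` and `chain_long` over `2n` steps gives
`4 ‖A‖² sin² h ≤ ‖A h - A 0‖²`; `‖B (π/4) - B 0‖² = 4 ‖B‖²` and `n` steps give
`4 ‖B‖² sin² (2h) ≤ ‖B h - B 0‖²`, with `sin² 2h ≥ 2 sin² h` for `h ≤ π/4`.
`wirt_small`: `n = ⌈π/(4t)⌉`, `h = π/(4n) ≤ t`, `t - h ≤ (4/π) t²`, and
`√N(t) ≥ √N(h) - √N(t - h)` (`PSD.sqrt_nd_triangle`), `sin h ≥ h - h³/6`.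
-/

open Real

namespace Pool.Agent.Work.MP_0ba68b_gt.CX

variable {I : Set ℝ} {K : Pt I → Pt I → ℝ}

section Aux

open scoped RealInnerProductSpace

variable {H : Type} [NormedAddCommGroup H] [InnerProductSpace ℝ H] {G : ℝ → H} {κ : ℝ → ℝ}

lemma Wirt_norm (hG : ∀ s t, ⟪G s, G t⟫ = κ (t - s)) (s : ℝ) : ‖G s‖ ^ 2 = κ 0 := by
  rw [← real_inner_self_eq_norm_sq, hG, sub_self]

lemma Wirt_dist (hG : ∀ s t, ⟪G s, G t⟫ = κ (t - s)) (s u : ℝ) :
    ‖G s - G (s + u)‖ ^ 2 = 2 * κ 0 - 2 * κ u := by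
  rw [norm_sub_sq_real, Wirt_norm hG, Wirt_norm hG, hG, add_sub_cancel_left]
  ring

lemma Wirt_chain (hG : ∀ s t, ⟪G s, G t⟫ = κ (t - s)) {k : ℕ} (hk : 0 < k) {u : ℝ}
    (hu : κ (k * u) = -κ 0) : 4 * κ 0 * sin (π / (2 * k)) ^ 2 ≤ 2 * κ 0 - 2 * κ u := by
  have h0 : 0 ≤ κ 0 := by rw [← Wirt_norm hG 0]; positivity
  have h1 : 0 ≤ 2 * κ 0 - 2 * κ u := by rw [← Wirt_dist hG 0 u]; positivity
  rcases h0.eq_or_lt with h | h
  · rw [← h] at h1 ⊢
    linarith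
  have h2 := chain_long (v := fun i : ℕ => G (i * u)) hk (ρ := √(κ 0))
    (δ := √(2 * κ 0 - 2 * κ u)) (Real.sqrt_pos.mpr h) (Real.sqrt_nonneg _) ?_ ?_ ?_
  · have hs : 0 ≤ sin (π / (2 * k)) := by
      have hk' : (1 : ℝ) ≤ k := by exact_mod_cast hk
      apply sin_nonneg_of_nonneg_of_le_pi (by positivity)
      rw [div_le_iff₀ (by positivity)]
      nlinarith [pi_pos]
    have h3 := pow_le_pow_left₀ (by positivity) h2 2
    rw [Real.sq_sqrt h1, mul_pow, mul_pow, Real.sq_sqrt h0] at h3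
    linarith
  · have h3 : ‖G (k * u) + G 0‖ ^ 2 = 0 := by
      rw [add_comm, norm_add_sq_real, Wirt_norm hG, Wirt_norm hG, hG, sub_zero, hu]
      ring
    have h4 : G (k * u) + G 0 = 0 := norm_eq_zero.mp (pow_eq_zero_iff two_ne_zero |>.mp h3)
    simp only [Nat.cast_zero, zero_mul]
    exact eq_neg_of_add_eq_zero_left h4
  · intro i
    rw [← Wirt_norm hG (i * u), Real.sqrt_sq (norm_nonneg _)]
  · intro i
    rw [← Wirt_dist hG (i * u) u, Real.sqrt_sq (norm_nonneg _)]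
    push_cast
    rw [add_mul, one_mul]

lemma Wirt_core (hG : ∀ s t, ⟪G s, G t⟫ = κ (t - s)) {q : ℝ} (hp : ∀ u, κ (u + 4 * q) = κ u)
    {n : ℕ} (hn : 0 < n) :
    2 * sin (π / (4 * n)) ^ 2 * (2 * κ 0 - 2 * κ q) ≤ 2 * κ 0 - 2 * κ (q / n) := by
  have hn' : (1 : ℝ) ≤ n := by exact_mod_cast hn
  have hev : ∀ u, κ (-u) = κ u := fun u => by
    have h1 := hG u 0
    have h2 := hG 0 u
    rw [zero_sub] at h1
    rw [sub_zero] at h2
    rw [← h1, ← h2, real_inner_comm]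
  have p1 : ∀ u, κ (u - q) = κ (u + 3 * q) := fun u => by
    rw [← hp (u - q)]; congr 1; ring
  have p2 : ∀ u, κ (u - 2 * q) = κ (u + 2 * q) := fun u => by
    rw [← hp (u - 2 * q)]; congr 1; ring
  have p3 : ∀ u, κ (u - 3 * q) = κ (u + q) := fun u => by
    rw [← hp (u - 3 * q)]; congr 1; ring
  have hA : ∀ s t, ⟪(fun s => (1 / 2 : ℝ) • (G s - G (s + 2 * q))) s,
      (fun s => (1 / 2 : ℝ) • (G s - G (s + 2 * q))) t⟫ =
      (fun u => (κ u - κ (u + 2 * q)) / 2) (t - s) := by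
    intro s t
    simp only [inner_sub_left, inner_sub_right, real_inner_smul_left, real_inner_smul_right, hG]
    have h2 := p2 (t - s)
    ring_nf at h2 ⊢
    linarith
  have hB : ∀ s t, ⟪(fun s => (1 / 4 : ℝ) • (G s - G (s + q) + G (s + 2 * q) - G (s + 3 * q))) s,
      (fun s => (1 / 4 : ℝ) • (G s - G (s + q) + G (s + 2 * q) - G (s + 3 * q))) t⟫ =
      (fun u => (κ u - κ (u + q) + κ (u + 2 * q) - κ (u + 3 * q)) / 4) (t - s) := by
    intro s t
    simp only [inner_sub_left, inner_sub_right, inner_add_left, inner_add_right,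
      real_inner_smul_left, real_inner_smul_right, hG]
    have h1 := p1 (t - s)
    have h2 := p2 (t - s)
    have h3 := p3 (t - s)
    ring_nf at h1 h2 h3 ⊢
    linarith
  have hC : ∀ s t, ⟪(fun s => (1 / 4 : ℝ) • (G s + G (s + q) + G (s + 2 * q) + G (s + 3 * q))) s,
      (fun s => (1 / 4 : ℝ) • (G s + G (s + q) + G (s + 2 * q) + G (s + 3 * q))) t⟫ =
      (fun u => (κ u + κ (u + q) + κ (u + 2 * q) + κ (u + 3 * q)) / 4) (t - s) := by
    intro s t
    simp only [inner_add_left, inner_add_right, real_inner_smul_left, real_inner_smul_right, hG]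
    have h1 := p1 (t - s)
    have h2 := p2 (t - s)
    have h3 := p3 (t - s)
    ring_nf at h1 h2 h3 ⊢
    linarith
  have e3 : κ (3 * q) = κ q := by
    have := p1 0
    rw [zero_sub, zero_add, hev] at this
    exact this.symm
  have e4 : κ (4 * q) = κ 0 := by
    have := hp 0
    rwa [zero_add] at this
  have a1 := Wirt_chain (κ := fun u => (κ u - κ (u + 2 * q)) / 2) hA (k := 2 * n) 
    (by omega) (u := q / n) (by
    have e : ((2 * n : ℕ) : ℝ) * (q / n) = 2 * q := by push_cast; field_simp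
    rw [e, show 2 * q + 2 * q = 4 * q by ring, e4, zero_add]
    ring)
  have b1 := Wirt_chain (κ := fun u => (κ u - κ (u + q) + κ (u + 2 * q) - κ (u + 3 * q)) / 4)
    hB (k := n) hn (u := q / n) (by
    have e : (n : ℝ) * (q / n) = q := by field_simp
    rw [e, show q + q = 2 * q by ring, show q + 2 * q = 3 * q by ring,
      show q + 3 * q = 4 * q by ring, e4]
    simp only [zero_add]
    ring)
  have c1 := Wirt_dist (κ := fun u => (κ u + κ (u + q) + κ (u + 2 * q) + κ (u + 3 * q)) / 4)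
    hC 0 (q / n)
  have c2 : 0 ≤ 2 * ((κ 0 + κ (0 + q) + κ (0 + 2 * q) + κ (0 + 3 * q)) / 4) -
      2 * ((κ (q / n) + κ (q / n + q) + κ (q / n + 2 * q) + κ (q / n + 3 * q)) / 4) := by
    beta_reduce at c1
    rw [← c1]; positivity
  have b0 : 0 ≤ (κ 0 - κ (0 + q) + κ (0 + 2 * q) - κ (0 + 3 * q)) / 4 := by
    have := Wirt_norm (κ := fun u => (κ u - κ (u + q) + κ (u + 2 * q) - κ (u + 3 * q)) / 4) hB 0
    beta_reduce at this
    rw [← this]; positivity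
  have e1 : π / (2 * ((2 * n : ℕ) : ℝ)) = π / (4 * n) := by push_cast; ring
  have e2 : π / (2 * (n : ℝ)) = 2 * (π / (4 * n)) := by ring
  rw [e1] at a1
  rw [e2, sin_two_mul] at b1
  have hc : 1 / 2 ≤ cos (π / (4 * n)) ^ 2 := by
    have h1 : 0 ≤ cos (2 * (π / (4 * n))) := by
      apply cos_nonneg_of_mem_Icc
      rw [← e2]
      constructor
      · have : 0 ≤ π / (2 * (n : ℝ)) := by positivity
        linarith only [this, pi_pos]
      · exact div_le_div_of_nonneg_left pi_pos.le two_pos (by linarith only [hn'])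
    rw [cos_two_mul] at h1
    linarith only [h1]
  simp only [zero_add, e3] at a1 b1 c2 b0
  set σ := sin (π / (4 * n))
  set γ := cos (π / (4 * n))
  have h5 : 0 ≤ (κ 0 - κ q + κ (2 * q) - κ q) / 4 * σ ^ 2 * (γ ^ 2 - 1 / 2) :=
    mul_nonneg (mul_nonneg b0 (sq_nonneg _)) (by linarith only [hc])
  nlinarith only [c2, a1, b1, h5]

end Aux

lemma Wirt_shift (h : PreK K) (a : Ax I) (s t : ℝ) :
    K (a, ej s) (a, ej t) = K (a, 1) (a, ej (t - s)) := by
  rw [← h.rinv a a 1 (ej (t - s)) (ej s), one_mul, ← ej_add, sub_add_cancel]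

lemma Wirt_nd (h : PreK K) (a : Ax I) (s t : ℝ) :
    nd K (a, ej s) (a, ej t) = 2 * K (a, 1) (a, ej 0) - 2 * K (a, 1) (a, ej (t - s)) := by
  rw [nd, Wirt_shift h, Wirt_shift h a t t, Wirt_shift h a s t, sub_self, sub_self]
  ring

lemma Wirt_nd' (h : PreK K) (a : Ax I) (t : ℝ) :
    nd K (a, 1) (a, ej t) = 2 * K (a, 1) (a, ej 0) - 2 * K (a, 1) (a, ej t) := by
  have := Wirt_nd h a 0 t
  rw [sub_zero] at this
  rw [← this, ej_zero]

theorem PreK.wirt (h : PreK K) (a : Ax I) {n : ℕ} (hn : 0 < n) :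
    2 * sin (π / (4 * n)) ^ 2 * nd K (a, 1) (a, ej (π / 4)) ≤
      nd K (a, 1) (a, ej (π / (4 * n))) := by
  obtain ⟨H, _, _, _, F, hF⟩ := h.psd.exists_map
  have key := Wirt_core (G := fun t => F (a, ej t)) (κ := fun u => K (a, 1) (a, ej u))
    (fun s t => by rw [hF, Wirt_shift h]) (q := π / 4) (fun u => ?_) hn
  · rw [Wirt_nd' h, Wirt_nd' h, ← div_div]
    rw [← div_div] at key
    exact key
  · apply h.eq_of_norm
    have e : ((1 : S3) : Quaternion ℝ) = 1 := rfl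
    rw [e, cin_one_ej, cin_one_ej, show 4 * (π / 4) = π by ring, cos_add_pi, Complex.norm_real,
      Complex.norm_real, norm_neg]

lemma Wirt_step {t : ℝ} (ht : 0 < t) (ht1 : t ≤ 1 / 2) :
    ∃ n : ℕ, 0 < n ∧ π / (4 * n) ≤ t ∧ t - π / (4 * n) ≤ 2 * t ^ 2 := by
  have hp := pi_gt_three
  have h0 : 0 < π / (4 * t) := by positivity
  have hn : 0 < ⌈π / (4 * t)⌉₊ := Nat.ceil_pos.mpr h0
  have h1 := Nat.le_ceil (π / (4 * t))
  have h2 := Nat.ceil_lt_add_one h0.le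
  refine ⟨⌈π / (4 * t)⌉₊, hn, ?_, ?_⟩
  · have hn' : (0 : ℝ) < ⌈π / (4 * t)⌉₊ := by exact_mod_cast hn
    rw [div_le_iff₀ (by positivity)] at h1 ⊢
    linarith
  · have hn' : (0 : ℝ) < ⌈π / (4 * t)⌉₊ := by exact_mod_cast hn
    set m : ℝ := ((⌈π / (4 * t)⌉₊ : ℕ) : ℝ)
    have h3 : m * (4 * t) < π + 4 * t := by
      have := mul_lt_mul_of_pos_right h2 (show 0 < 4 * t by positivity)
      rwa [add_mul, div_mul_cancel₀ _ (by positivity), one_mul] at this
    rw [sub_le_comm, le_div_iff₀ (by positivity)]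
    have h4 : 0 ≤ 1 - 2 * t := by linarith
    have h5 : (1 - 2 * t) * (m * (4 * t)) ≤ (1 - 2 * t) * (π + 4 * t) :=
      mul_le_mul_of_nonneg_left h3.le h4
    nlinarith only [ht, h5, hp]

lemma Wirt_real {σ r t u N M D ε : ℝ} (hσ : 0 ≤ σ) (hσ2 : σ ≤ 2) (hr : 0 ≤ r) (ht : 0 ≤ t)
    (htε : 32 * t ≤ ε) (hu : t - 3 * t ^ 2 ≤ u)
    (hM : σ * r * u ≤ M) (hD : D ≤ r * (2 * t ^ 2)) (h : M ≤ N + D) :
    (σ ^ 2 - ε) * r ^ 2 * t ^ 2 ≤ N ^ 2 := by
  have hrt : 0 ≤ r * t := mul_nonneg hr ht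
  have h1 : σ * r * (t - 3 * t ^ 2) ≤ σ * r * u := mul_le_mul_of_nonneg_left hu (mul_nonneg hσ hr)
  have h2 : r * t * (σ - 8 * t) ≤ N := by
    have : 0 ≤ r * t * t * (2 - σ) := mul_nonneg (mul_nonneg hrt ht) (by linarith)
    nlinarith only [hM, hD, h, h1, this]
  have e : (σ ^ 2 - ε) * r ^ 2 * t ^ 2 = (r * t) ^ 2 * (σ ^ 2 - ε) := by ring
  rw [e]
  rcases le_total (8 * t) σ with h3 | h3
  · have h4 : (r * t * (σ - 8 * t)) ^ 2 ≤ N ^ 2 :=
      pow_le_pow_left₀ (mul_nonneg hrt (by linarith)) h2 2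
    refine le_trans ?_ h4
    rw [mul_pow (r * t)]
    apply mul_le_mul_of_nonneg_left _ (sq_nonneg _)
    nlinarith only [htε, hσ2, ht]
  · have h4 : σ ^ 2 - ε ≤ 0 := by nlinarith only [ht, htε, h3, hσ, hσ2]
    have := mul_nonpos_of_nonneg_of_nonpos (sq_nonneg (r * t)) h4
    nlinarith only [this, sq_nonneg N]

theorem wirt_small {ε : ℝ} (hε : 0 < ε) : ∃ δ > 0, ∀ (I : Set ℝ) (K : Pt I → Pt I → ℝ), PreK K →
    ∀ (a : Ax I) (c : ℝ), 0 ≤ c →
      (∀ s ∈ Set.Icc 0 (π / 2), nd K (a, 1) (a, ej s) ≤ rho a ^ 2 * s ^ 2) →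
      c * rho a ^ 2 ≤ nd K (a, 1) (a, ej (π / 4)) → ∀ t ∈ Set.Icc 0 δ,
        (2 * c - ε) * rho a ^ 2 * t ^ 2 ≤ nd K (a, 1) (a, ej t) := by
  refine ⟨min (1 / 2) (ε / 32), by positivity, ?_⟩
  intro I K h a c hc hup hlow t ht
  have hN := h.psd.nd_nonneg (a, 1) (a, ej t)
  have ht1 : t ≤ 1 / 2 := ht.2.trans (min_le_left _ _)
  have ht2 : 32 * t ≤ ε := by have := ht.2.trans (min_le_right _ _); linarith
  rcases ht.1.eq_or_lt with h0 | h0
  · rw [← h0] at hN ⊢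
    simpa using hN
  by_cases hr : rho a = 0
  · rw [hr]
    simpa using hN
  have hr2 : 0 < rho a ^ 2 := by positivity
  have hc1 : c ≤ 1 := by
    have h1 := hlow.trans (hup (π / 4) ⟨by positivity, by linarith [pi_pos]⟩)
    rw [mul_comm, mul_le_mul_iff_right₀ hr2] at h1
    nlinarith only [h1, ht1, h0, pi_le_four, pi_pos]
  obtain ⟨n, hn, h1, h2⟩ := Wirt_step h0 ht1
  have hw := h.wirt a hn
  set v := π / (4 * n) with hv
  have hv0 : 0 < v := by
    have : (0 : ℝ) < n := by exact_mod_cast hn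
    positivity
  have hsin : t - 3 * t ^ 2 ≤ sin v := by
    have h3 := sin_gt_sub_cube hv0
    have h4 : v ^ 3 ≤ t ^ 3 := pow_le_pow_left₀ hv0.le h1 3
    nlinarith only [h2, h3, h4, ht1, sq_nonneg t]
  have hs0 : 0 ≤ sin v := sin_nonneg_of_nonneg_of_le_pi hv0.le (by linarith [pi_gt_three])
  have hM : √(2 * c) * |rho a| * sin v ≤ √(nd K (a, 1) (a, ej v)) := by
    apply Real.le_sqrt_of_sq_le
    rw [mul_pow, mul_pow, Real.sq_sqrt (by linarith), sq_abs]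
    refine le_trans ?_ hw
    have := mul_le_mul_of_nonneg_left hlow (show 0 ≤ 2 * sin v ^ 2 by positivity)
    linarith
  have hD : √(nd K (a, ej t) (a, ej v)) ≤ |rho a| * (2 * t ^ 2) := by
    rw [h.psd.nd_comm, Wirt_nd h, ← Wirt_nd' h]
    apply Real.sqrt_le_iff.mpr
    refine ⟨by positivity, (hup (t - v) ⟨by linarith, by linarith [pi_gt_three]⟩).trans ?_⟩
    rw [mul_pow, sq_abs]
    exact mul_le_mul_of_nonneg_left (pow_le_pow_left₀ (by linarith) h2 2) hr2.le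
  have key := Wirt_real (Real.sqrt_nonneg (2 * c))
    (Real.sqrt_le_iff.mpr ⟨by norm_num, by linarith⟩) (abs_nonneg (rho a)) ht.1 ht2
    hsin hM hD
    (h.psd.sqrt_nd_triangle (a, 1) (a, ej t) (a, ej v))
  rwa [Real.sq_sqrt (by linarith), sq_abs, Real.sq_sqrt hN] at key

end Pool.Agent.Work.MP_0ba68b_gt.CX
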