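import Pool.Agent.Work.MP_0ba68b_gt.CX.BandS
import Pool.Agent.Work.MP_0ba68b_gt.CX.Wirt

/-!
The upgrade lemma.

PLAN for `band`.  Take `m` small (`m ≤ 1/1000`, `4 m ≤ ϑ`, `2 m (1 + 2/t1²) ≤ ϑ`), `KS`, `L` from
`smoothK`, `Rm = K - KS`, `Fl` from `BaseK.flatten` of `Rm`, `K' = KS + Fl`.  `nd K = nd KS + nd Rm`.
`up0`: same direction values agree with `K`.  `upj`: `nd KS ≤ nd K`, `nd Fl ≤ 2 m ρ² (1 - cos 2t) ≤ 4 m ρ² t²`.
Far pairs: `nd K' ≥ nd KS = nd K - nd Rm`, `nd Rm ≤ 2 m (ρ² + ρ'²) = 2 m (Δρ² + 2 ρ ρ')` (`PSD.nd_le`).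
Close minimal pairs (`rep ≤ t0² ρ ρ'`): reduce to `x = 1`, `x' = ej t` (`hopf`, `nd_eq_of_norm`),
`2 (1 - cos t) ≤ t0²`, so `t` is small; `‖1 - ej t‖² = 2 (1 - cos t)`.  The pair `(a,1), (a',1)` is minimal
(even `m`: compare with the minimality of the given pair; odd `m`: `ang = 2 ρ ρ' ≥ sg`), so
`nd K (a,1) (a',1) ≥ lam Dsq`.  The pair `(a,1), (a, ej (π/4))` is minimal (both parities have the same
`ang`), so `nd KS (a,1) (a, ej (π/4)) ≥ (lam (2 - √2) - 4 m) ρ²`; `wirt_small` gives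
`nd KS (a,1) (a, ej t) ≥ (2 lam (2 - √2) - 8 m - ε) ρ² t²`, `t² ≥ 2 (1 - cos t)`, `(ρ² + ρ'²)/2 ≥ ρ ρ'`.
The mixed term costs `L t0² ang / 2`, the flattening `4 m ang`; `(2 (2 - √2) - 1) 3/10 ≥ 0.051`.
PLAN for `upgrade`.  `J ≥ 1/ϑ`; `t 0 = 1`, `t (j+1)` from `band (t j) (ϑ/2)` (recursion with choice);
average the `J` kernels (induction with `AdmL.mix`, or a direct finite sum).  A pair is bad for band `j`
only if `t (j+1)² ρ ρ' < rep < (t j)² ρ ρ'`, which happens for at most one `j`; `t0 = t J`.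
-/

open Real

namespace Pool.Agent.Work.MP_0ba68b_gt.CX

lemma Band_norm_cin {t : ℝ} (ht : t ∈ Set.Icc 0 (π / 2)) :
    ‖cin ((1 : S3) : Quaternion ℝ) (ej t)‖ = cos t := by
  rw [Metric.unitSphere.coe_one, cin_one_ej, Complex.norm_real, Real.norm_eq_abs,
    abs_of_nonneg (cos_nonneg_of_mem_Icc ⟨by linarith only [ht, ht.1, pi_pos], ht.2⟩)]

lemma Band_chord (t : ℝ) :
    ‖((1 : S3) : Quaternion ℝ) - (ej t : Quaternion ℝ)‖ ^ 2 = 2 * (1 - cos t) := by
  rw [norm_sub_sq_cin, S3.norm, S3.norm, Metric.unitSphere.coe_one, cin_one_ej, Complex.ofReal_re]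
  ring

lemma Band_quarter : π / 4 ∈ Set.Icc 0 (π / 2) := ⟨by positivity, by linarith only [pi_pos]⟩

lemma Band_Dsq_self {I : Set ℝ} (y : ℝ) (a : Ax I) : Dsq y a a = 0 := by simp [Dsq, sg]

lemma Band_min_quarter {I : Set ℝ} (y : ℝ) (a : Ax I) : Minimal y (a, 1) (a, ej (π / 4)) := by
  intro m
  have h0 := Dsq_nonneg y a (shift a m.1 m.2)
  have h1 : ang (rho a) (rho a) 1 (jj ^ (m.1 + m.2) * ej (π / 4)) =
      ang (rho a) (rho a) 1 (ej (π / 4)) := by
    rcases Int.even_or_odd (m.1 + m.2) with h | h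
    · exact ang_zpow_even h _ _ _ _
    · rw [ang_zpow_odd h, ← ej_pi_div_two, ← ej_add]
      unfold ang
      rw [Band_norm_cin Band_quarter, Metric.unitSphere.coe_one, cin_one_ej, Complex.norm_real,
        Real.norm_eq_abs, add_comm, cos_add_pi_div_two, abs_neg, sin_pi_div_four, cos_pi_div_four,
        abs_of_nonneg (by positivity)]
  simp only [rep, angP, gam, rho_shift, Band_Dsq_self, h1]
  linarith only [h0]

lemma Band_min_flat {I : Set ℝ} {y : ℝ} {a a' : Ax I} {x x' : S3} (h : Minimal y (a, x) (a', x'))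
    (hD : Dsq y a a' ≤ 2 * (rho a * rho a')) :
    Minimal y (a, 1) (a', 1) := by
  intro m
  have h2 := h m
  have h3 := Dsq_nonneg y a (shift a' m.1 m.2)
  simp only [rep, angP, gam, rho_shift, ang_self] at h2 ⊢
  rcases Int.even_or_odd (m.1 + m.2) with he | ho
  · rw [ang_zpow_even he] at h2 ⊢
    rw [ang_self]
    linarith
  · rw [ang_zpow_odd ho]
    have h4 : ang (rho a) (rho a') 1 (jj * 1) = 2 * (rho a * rho a') := by
      unfold ang
      rw [Metric.unitSphere.coe_mul, cin_jj_self, norm_zero]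
      ring
    rw [h4]
    linarith

lemma Band_sqrt {A B m r r' : ℝ} (hm : 0 ≤ m) (hr : 0 ≤ r) (hr' : 0 ≤ r') (hA : A ≤ m * r ^ 2)
    (hB : B ≤ m * r' ^ 2) : √A * √B ≤ m * (r * r') := by
  have h1 : √A ≤ √m * r := by
    rw [← Real.sqrt_sq hr, ← Real.sqrt_mul hm]
    exact Real.sqrt_le_sqrt hA
  have h2 : √B ≤ √m * r' := by
    rw [← Real.sqrt_sq hr', ← Real.sqrt_mul hm]
    exact Real.sqrt_le_sqrt hB
  calc √A * √B ≤ (√m * r) * (√m * r') :=
        mul_le_mul h1 h2 (Real.sqrt_nonneg _) (by positivity)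
    _ = (√m * √m) * (r * r') := by ring
    _ = m * (r * r') := by rw [Real.mul_self_sqrt hm]

lemma Band_far {m ϑ t1 lam P r r' N NR : ℝ} (ht : 0 < t1) (hm : 0 ≤ m)
    (hm2 : 2 * m * (t1 ^ 2 + 2) ≤ ϑ * t1 ^ 2) (hP : (r - r') ^ 2 ≤ P)
    (hfar : t1 ^ 2 * (r * r') ≤ P) (hN : lam * P ≤ N) (hR : NR ≤ 2 * (m * r ^ 2 + m * r' ^ 2)) :
    (lam - ϑ) * P ≤ N - NR := by
  have hP0 : 0 ≤ P := (sq_nonneg _).trans hP
  have ht2 : 0 < t1 ^ 2 := by positivity
  have h1 : t1 ^ 2 * (r ^ 2 + r' ^ 2) ≤ (t1 ^ 2 + 2) * P := by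
    have := mul_le_mul_of_nonneg_left hP ht2.le
    nlinarith only [hfar, this]
  have h2 : t1 ^ 2 * (2 * m * (r ^ 2 + r' ^ 2)) ≤ t1 ^ 2 * (ϑ * P) := by
    have h3 := mul_le_mul_of_nonneg_left h1 (by positivity : 0 ≤ 2 * m)
    have h4 := mul_le_mul_of_nonneg_right hm2 hP0
    nlinarith only [h3, h4]
  have h5 := le_of_mul_le_mul_left h2 ht2
  nlinarith only [hN, hR, h5]

lemma Band_close {m lam s r r' t u D A A' S0 S1 R0 F N0 W : ℝ} (_hm : 0 ≤ m) (hm1 : m ≤ 1 / 2000)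
    (hl : 3 / 10 ≤ lam) (hs : s ≤ 1.4143) (hr : 0 ≤ r) (hr' : 0 ≤ r') (hu : 0 ≤ u)
    (ht : 2 * u ≤ t ^ 2)
    (hA : (2 * (lam * (2 - s) - 4 * m) - 1 / 1000) * r ^ 2 * t ^ 2 ≤ A)
    (hA' : (2 * (lam * (2 - s) - 4 * m) - 1 / 1000) * r' ^ 2 * t ^ 2 ≤ A')
    (hmix : A + A' + 2 * S0 - 2 * S1 ≤ W) (hW : W ≤ 1 / 1000 * (2 * r * r' * u))
    (hF : R0 - 4 * m * (2 * r * r' * u) ≤ F) (hN : N0 = S0 + R0) (hD : lam * D ≤ N0) :
    lam * (D + 2 * r * r' * u) + 4 / 100 * (2 * r * r' * u) ≤ S1 + F := by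
  set c : ℝ := 2 * (lam * (2 - s) - 4 * m) - 1 / 1000 with hc
  have hq : 0 ≤ 2 * r * r' * u := by positivity
  have h1 : lam * (2 - 1.4143) ≤ lam * (2 - s) :=
    mul_le_mul_of_nonneg_left (by linarith only [hs]) (by linarith only [hl])
  have hc1 : lam + 4 / 100 + 4 * m + 1 / 2000 ≤ c := by rw [hc]; linarith only [hm1, hl, h1]
  have hc0 : 0 ≤ c := by linarith only [hm1, hl, hc, h1]
  have h2 : 2 * (2 * r * r' * u) ≤ (r ^ 2 + r' ^ 2) * t ^ 2 := by
    have h3 : 2 * r * r' ≤ r ^ 2 + r' ^ 2 := by nlinarith only [sq_nonneg (r - r')]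
    have h4 : (2 * r * r') * (2 * u) ≤ (r ^ 2 + r' ^ 2) * t ^ 2 :=
      mul_le_mul h3 ht (by positivity) (by positivity)
    linarith only [h4]
  have h5 := mul_le_mul_of_nonneg_left h2 hc0
  have h6 := mul_le_mul_of_nonneg_right hc1 hq
  nlinarith only [hmix, hW, hF, hN, hD, hA, hA', h5, h6]

theorem band {t1 ϑ : ℝ} (ht : 0 < t1) (hϑ : 0 < ϑ) : ∃ t0, 0 < t0 ∧ t0 ≤ t1 ∧
    ∀ R, 2 ≤ R → ∀ y b lam, 1 ≤ y → 0 ≤ b → b ≤ 1 → 3 / 10 ≤ lam → lam ≤ 2 / 5 →
      ∀ K : Pt (IR R) → Pt (IR R) → ℝ, Adm y b lam K →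
        ∃ K' : Pt (IR R) → Pt (IR R) → ℝ, AdmL y (b + ϑ) (fun p p' =>
          if rep y p p' ≤ t0 ^ 2 * (rho p.1 * rho p'.1) then
            lam * rep y p p' + 4 / 100 * angP p p'
          else if t1 ^ 2 * (rho p.1 * rho p'.1) ≤ rep y p p' then (lam - ϑ) * rep y p p'
          else 0) K' := by
  set m : ℝ := min (1 / 2000) (ϑ * t1 ^ 2 / (4 * (t1 ^ 2 + 2))) with hmdef
  have hm : 0 < m := lt_min (by norm_num) (by positivity)
  have hm1 : m ≤ 1 / 2000 := min_le_left _ _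
  have hm3 : m * (4 * (t1 ^ 2 + 2)) ≤ ϑ * t1 ^ 2 :=
    (le_div_iff₀ (by positivity)).1 (min_le_right _ _)
  have hm2 : 2 * m * (t1 ^ 2 + 2) ≤ ϑ * t1 ^ 2 := by linarith only [hm3, hϑ, sq_nonneg t1, mul_nonneg_of_nonpos_of_nonpos (Mathlib.Tactic.Linarith.sub_nonpos_of_le (sq_nonneg t1)) (le_of_lt (Mathlib.Tactic.Linarith.sub_neg_of_lt hϑ))]
  have hm4 : 4 * m ≤ ϑ := by
    have h1 : 4 * m * t1 ^ 2 ≤ ϑ * t1 ^ 2 := by linarith only [hm, hm3]
    exact le_of_mul_le_mul_right h1 (by positivity)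
  clear_value m
  obtain ⟨L, hL0, hL⟩ := smoothK hm
  obtain ⟨δ, hδ, hW⟩ := wirt_small (ε := 1 / 1000) (by norm_num)
  set t0 : ℝ := min (min t1 (δ / 2)) (min 1 (1 / (1000 * (L + 1)))) with ht0def
  have ht0 : 0 < t0 := lt_min (lt_min ht (by positivity)) (lt_min one_pos (by positivity))
  have ht01 : t0 ≤ t1 := (min_le_left _ _).trans (min_le_left _ _)
  have ht0δ : t0 ≤ δ / 2 := (min_le_left _ _).trans (min_le_right _ _)
  have ht0a : t0 ≤ 1 := (min_le_right _ _).trans (min_le_left _ _)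
  have ht0b : t0 * (1000 * (L + 1)) ≤ 1 :=
    (le_div_iff₀ (by positivity)).1 ((min_le_right _ _).trans (min_le_right _ _))
  have hsq : t0 ^ 2 ≤ t0 := by nlinarith only [hm, hm1, ht0, ht0a]
  have hLt : L * t0 ^ 2 ≤ 1 / 1000 := by nlinarith only [ht0, ht0b, hsq, hL0, mul_le_mul_of_nonneg_left hsq hL0]
  clear_value t0
  refine ⟨t0, ht0, ht01, fun R hR y b lam _ hb hb1 hl hl1 K hK => ?_⟩
  obtain ⟨KS, hKS, hRm, hmass, hmix⟩ := hL (IR R) y b _ K hb hb1 hK
  obtain ⟨Fl, hFl, hFl1, hFl2⟩ := hRm.flatten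
  set Rm : Pt (IR R) → Pt (IR R) → ℝ := fun p p' => K p p' - KS p p' with hRmdef
  have hpos : ∀ a : Ax (IR R), 0 < rho a := fun a => rho_pos (by linarith only [hm, hm1, hR]) a
  have hsplit : ∀ p p', nd K p p' = nd KS p p' + nd Rm p p' := fun p p' => by
    simp only [nd, hRmdef]; ring
  have hmass' : ∀ p, Rm p p ≤ m * rho p.1 ^ 2 := hmass
  have hKSle : ∀ p p', nd KS p p' ≤ nd K p p' := fun p p' => by
    linarith only [hsplit, hRm, hsplit p p', hRm.psd.nd_nonneg p p']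
  have hRle : ∀ p p', nd Rm p p' ≤ 2 * (m * rho p.1 ^ 2 + m * rho p'.1 ^ 2) := fun p p' => by
    linarith only [hRm, hmass', hRm.psd.nd_le p p', hmass' p, hmass' p']
  have hflat : ∀ (a a' : Ax (IR R)) (t : ℝ), t ∈ Set.Icc 0 (π / 2) →
      |nd Fl (a, 1) (a', ej t) - nd Rm (a, 1) (a', 1)| ≤
        2 * (m * (rho a * rho a')) * (1 - cos (2 * t)) := by
    intro a a' t ht
    refine (hFl2 a a' 1 (ej t)).trans ?_
    rw [uu_of_cos (Band_norm_cin ht)]
    refine mul_le_mul_of_nonneg_right ?_ (by linarith only [cos_le_one (2 * t)])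
    have := Band_sqrt hm.le (hpos a).le (hpos a').le (hmass' (a, 1)) (hmass' (a', 1))
    linarith only [this]
  have hB : BaseK fun p p' => KS p p' + Fl p p' := hKS.add hFl
  refine ⟨fun p p' => KS p p' + Fl p p', { hB with up0 := ?_, upj := ?_, low := ?_ }⟩
  · intro a a' x
    have h1 : nd Fl (a, x) (a', x) = nd Rm (a, x) (a', x) := by simp only [nd, hFl1, hRmdef]
    rw [nd_add, h1, ← hsplit]
    exact hK.up0 a a' x
  · intro a t ht
    have h1 := (abs_le.1 (hflat a a t ht)).2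
    rw [nd_self] at h1
    have h2 := one_sub_sq_div_two_le_cos (x := 2 * t)
    have h3 : 2 * (m * (rho a * rho a)) * (1 - cos (2 * t)) ≤
        2 * (m * (rho a * rho a)) * (2 * t ^ 2) :=
      mul_le_mul_of_nonneg_left (by nlinarith only [h2]) (by have := hpos a; positivity)
    have h4 : 4 * m * (rho a ^ 2 * t ^ 2) ≤ ϑ * (rho a ^ 2 * t ^ 2) :=
      mul_le_mul_of_nonneg_right hm4 (by positivity)
    have h5 := hK.upj a t ht
    have h6 := hKSle (a, 1) (a, ej t)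
    rw [nd_add]
    nlinarith only [h1, h3, h4, h5, h6]
  · rintro ⟨a, x⟩ ⟨a', x'⟩ hmin
    have hr := hpos a
    have hr' := hpos a'
    have hang : 0 ≤ angP (a, x) (a', x') := ang_nonneg hr.le hr'.le _ _
    have hD0 := Dsq_nonneg y a a'
    have hrep : rep y (a, x) (a', x') = Dsq y a a' + angP (a, x) (a', x') := rfl
    split_ifs with hclose hfar
    · obtain ⟨φ, ψ, t, ht, -, hcos⟩ := hopf x x'
      have hclose' : rep y (a, x) (a', x') ≤ t0 ^ 2 * (rho a * rho a') := hclose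
      have hangeq : angP (a, x) (a', x') = 2 * rho a * rho a' * (1 - cos t) := by
        simp only [angP, ang, hcos]
      have hrr : 0 < rho a * rho a' := mul_pos hr hr'
      have hu : 0 ≤ 1 - cos t := by linarith only [cos_le_one t]
      have hu1 : 2 * (1 - cos t) ≤ t0 ^ 2 := by
        have h1 : 2 * (1 - cos t) * (rho a * rho a') ≤ t0 ^ 2 * (rho a * rho a') := by
          nlinarith only [hD0, hrep, hclose, hangeq]
        exact le_of_mul_le_mul_right h1 hrr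
      have htδ : t ∈ Set.Icc 0 δ := by
        refine ⟨ht.1, ?_⟩
        have h1 := sq_le_one_sub_cos ht
        have h2 : π ^ 2 / 4 ≤ 4 := by nlinarith only [hm, hm1, pi_lt_four, pi_pos]
        have h3 : π ^ 2 / 4 * (1 - cos t) ≤ 4 * (1 - cos t) := mul_le_mul_of_nonneg_right h2 hu
        have h4 : t ^ 2 ≤ δ ^ 2 := by nlinarith only [hu1, h1, h3, hm, hm1, hδ, ht0δ, ht0]
        exact (abs_le_of_sq_le_sq' h4 hδ.le).2
      have hDle : Dsq y a a' ≤ t0 ^ 2 * (rho a * rho a') := by linarith only [hang, hrep, hclose]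
      have hmin1 : Minimal y (a, 1) (a', 1) := by
        refine Band_min_flat hmin (hDle.trans ?_)
        exact mul_le_mul_of_nonneg_right (by linarith only [hm, hm1, ht0a, hsq]) hrr.le
      have hN0 : lam * Dsq y a a' ≤ nd K (a, 1) (a', 1) := by
        have h1 := hK.low _ _ hmin1
        simpa only [rep, angP, ang_self, add_zero] using h1
      have hs : √2 ≤ 1.4143 := by
        rw [Real.sqrt_le_iff]; norm_num
      have hc0 : 0 ≤ lam * (2 - √2) - 4 * m := by nlinarith only [hm1, hl, hs, hm]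
      have hwirt : ∀ a : Ax (IR R), (2 * (lam * (2 - √2) - 4 * m) - 1 / 1000) * rho a ^ 2 * t ^ 2 ≤
          nd KS (a, 1) (a, ej t) := by
        intro a
        refine hW (IR R) KS hKS.toPreK a _ hc0 (fun s hs => ?_) ?_ t htδ
        · have h1 := hK.upj a s hs
          have h2 := hKSle (a, 1) (a, ej s)
          have h3 : b * (rho a ^ 2 * s ^ 2) ≤ 1 * (rho a ^ 2 * s ^ 2) :=
            mul_le_mul_of_nonneg_right hb1 (by positivity)
          nlinarith only [h1, h2, h3]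
        · have h1 := hK.low _ _ (Band_min_quarter y a)
          simp only [rep, angP, ang, Band_Dsq_self, Band_norm_cin Band_quarter,
            cos_pi_div_four] at h1
          have h2 := hsplit (a, 1) (a, ej (π / 4))
          have h3 := hRle (a, 1) (a, ej (π / 4))
          simp only at h3
          nlinarith only [h1, h2, h3]
      have hmix1 := hmix a a' 1 (ej t)
      rw [Band_chord] at hmix1
      have hWb : L * (2 * (1 - cos t)) * nd K (a, 1) (a', 1) ≤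
          1 / 1000 * (2 * rho a * rho a' * (1 - cos t)) := by
        have h1 : nd K (a, 1) (a', 1) ≤ t0 ^ 2 * (rho a * rho a') := (hK.up0 a a' 1).trans hDle
        have h2 := mul_le_mul_of_nonneg_left h1 (by positivity : 0 ≤ L * (2 * (1 - cos t)))
        have h3 := mul_le_mul_of_nonneg_right hLt
          (by positivity : 0 ≤ 2 * rho a * rho a' * (1 - cos t))
        nlinarith only [h2, h3]
      have hF : nd Rm (a, 1) (a', 1) - 4 * m * (2 * rho a * rho a' * (1 - cos t)) ≤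
          nd Fl (a, 1) (a', ej t) := by
        have h1 := (abs_le.1 (hflat a a' t ht)).1
        have h2 : 1 - cos (2 * t) ≤ 4 * (1 - cos t) := by
          rw [cos_two_mul]; nlinarith only [sq_nonneg (1 - cos t)]
        have h3 := mul_le_mul_of_nonneg_left h2
          (by positivity : 0 ≤ 2 * (m * (rho a * rho a')))
        nlinarith only [h1, h3]
      have ht2 : 2 * (1 - cos t) ≤ t ^ 2 := by linarith only [one_sub_sq_div_two_le_cos (x := t)]
      have key := Band_close hm.le hm1 hl hs hr.le hr'.le hu ht2 (hwirt a) (hwirt a') hmix1 hWb hF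
        (hsplit _ _) hN0
      rw [hB.toPreK.nd_eq_of_norm (hcos.trans (Band_norm_cin ht).symm), nd_add, hrep, hangeq]
      exact key
    · have h1 : (rho a - rho a') ^ 2 ≤ rep y (a, x) (a', x') := by
        have := sg_nonneg y a a'
        rw [hrep, Dsq]; linarith only [hang, this]
      have h2 := Band_far ht hm.le hm2 h1 hfar (hK.low _ _ hmin) (hRle (a, x) (a', x'))
      have h3 := hsplit (a, x) (a', x')
      have h4 := hFl.psd.nd_nonneg (a, x) (a', x')
      rw [nd_add]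
      linarith only [h2, h3, h4]
    · exact hB.psd.nd_nonneg _ _

end Pool.Agent.Work.MP_0ba68b_gt.CX
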