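import Mathlib.Analysis.InnerProductSpace.Completion
import Mathlib.Analysis.Calculus.MeanValue
import Mathlib.Order.Filter.Ultrafilter.Basic
import Mathlib.Topology.Ultrafilter
import Pool.Agent.Work.MP_0ba68b_gt.Kernel

/-!
Positive semidefinite real kernels.
-/

open scoped RealInnerProductSpace ComplexConjugate
open Filter Topology

namespace Pool.Agent.Work.MP_0ba68b_gt.CX

noncomputable section

variable {X Y : Type}

/-- Positive semidefinite symmetric kernels. -/
def PSD (K : X → X → ℝ) : Prop :=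
  (∀ x y, K x y = K y x) ∧
    ∀ (n : ℕ) (p : Fin n → X) (c : Fin n → ℝ), 0 ≤ ∑ i, ∑ j, c i * c j * K (p i) (p j)

/-- The squared distance attached to a kernel. -/
def nd (K : X → X → ℝ) (x y : X) : ℝ := K x x + K y y - 2 * K x y

lemma PSD.symm {K : X → X → ℝ} (h : PSD K) (x y : X) : K x y = K y x := h.1 x y

lemma PSD.congr {K K' : X → X → ℝ} (h : PSD K) (e : ∀ x y, K' x y = K x y) : PSD K' := by
  have : K' = K := by funext x y; exact e x y
  rwa [this]

lemma PSD.of_map {H : Type} [NormedAddCommGroup H] [InnerProductSpace ℝ H] (F : X → H) :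
    PSD fun x y => ⟪F x, F y⟫ := by
  refine ⟨fun x y => real_inner_comm _ _, fun n p c => ?_⟩
  have : ∑ i, ∑ j, c i * c j * ⟪F (p i), F (p j)⟫ =
      ⟪∑ i, c i • F (p i), ∑ j, c j • F (p j)⟫ := by
    simp only [sum_inner, inner_sum, real_inner_smul_left, real_inner_smul_right]
    rw [Finset.sum_comm]
    refine Finset.sum_congr rfl fun i _ => Finset.sum_congr rfl fun j _ => by ring
  rw [this]
  exact real_inner_self_nonneg

/-- The space of finitely supported functions with the inner product given by a kernel. -/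
def Pre (_K : X → X → ℝ) : Type := X →₀ ℝ

instance (K : X → X → ℝ) : AddCommGroup (Pre K) := inferInstanceAs (AddCommGroup (X →₀ ℝ))
instance (K : X → X → ℝ) : Module ℝ (Pre K) := inferInstanceAs (Module ℝ (X →₀ ℝ))

/-- The bilinear form of a kernel. -/
def form (K : X → X → ℝ) : (X →₀ ℝ) →ₗ[ℝ] (X →₀ ℝ) →ₗ[ℝ] ℝ :=
  Finsupp.linearCombination ℝ fun x => Finsupp.linearCombination ℝ fun y => K x y

lemma form_apply (K : X → X → ℝ) (f g : X →₀ ℝ) :
    form K f g = ∑ x ∈ f.support, ∑ y ∈ g.support, f x * g y * K x y := by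
  simp only [form, Finsupp.linearCombination_apply, Finsupp.sum, LinearMap.coe_sum,
    Finset.sum_apply, LinearMap.smul_apply, smul_eq_mul, Finset.mul_sum]
  refine Finset.sum_congr rfl fun i _ => Finset.sum_congr rfl fun j _ => by ring

lemma PSD.finset {K : X → X → ℝ} (h : PSD K) (s : Finset X) (c : X → ℝ) :
    0 ≤ ∑ x ∈ s, ∑ y ∈ s, c x * c y * K x y := by
  have := h.2 s.card (fun i => (s.equivFin.symm i : X)) fun i => c (s.equivFin.symm i : X)
  convert this using 1
  rw [← Finset.sum_coe_sort s, ← s.equivFin.symm.sum_comp]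
  refine Finset.sum_congr rfl fun i _ => ?_
  rw [← Finset.sum_coe_sort s, ← s.equivFin.symm.sum_comp]

/-- The pre inner product. -/
@[reducible] def preCore {K : X → X → ℝ} (h : PSD K) : PreInnerProductSpace.Core ℝ (Pre K) where
  inner f g := form K f g
  conj_inner_symm f g := by
    simp only [conj_trivial]
    rw [form_apply, form_apply, Finset.sum_comm]
    refine Finset.sum_congr rfl fun i _ => Finset.sum_congr rfl fun j _ => ?_
    rw [h.symm]; ring
  re_inner_nonneg f := by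
    simp only [RCLike.re_to_real]
    rw [form_apply]
    exact h.finset _ _
  add_left f g k := by
    exact congrFun (congrArg DFunLike.coe (map_add (form K) f g)) k
  smul_left f g r := by
    exact congrFun (congrArg DFunLike.coe (map_smul (form K) r f)) g

/-- Every positive semidefinite kernel is a Gram kernel. -/
theorem PSD.exists_map {K : X → X → ℝ} (h : PSD K) :
    ∃ (H : Type) (_ : NormedAddCommGroup H) (_ : InnerProductSpace ℝ H) (_ : CompleteSpace H)
      (F : X → H), ∀ x y, ⟪F x, F y⟫ = K x y := by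
  let := preCore h
  let : SeminormedAddCommGroup (Pre K) :=
    InnerProductSpace.Core.toSeminormedAddCommGroup (𝕜 := ℝ)
  let : InnerProductSpace ℝ (Pre K) := .ofCore _
  refine ⟨UniformSpace.Completion (Pre K), inferInstance, inferInstance, inferInstance,
    fun x => UniformSpace.Completion.coe' (show Pre K from Finsupp.single x 1), fun x y => ?_⟩
  refine (UniformSpace.Completion.inner_coe _ _).trans ?_
  change form K (Finsupp.single x 1) (Finsupp.single y 1) = _
  simp [form]

lemma nd_of_map {H : Type} [NormedAddCommGroup H] [InnerProductSpace ℝ H] {F : X → H}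
    {K : X → X → ℝ} (h : ∀ x y, ⟪F x, F y⟫ = K x y) (x y : X) : nd K x y = ‖F x - F y‖ ^ 2 := by
  rw [nd, ← h, ← h, ← h, norm_sub_sq_real, real_inner_self_eq_norm_sq, real_inner_self_eq_norm_sq]
  ring

lemma PSD.zero : PSD fun _ _ : X => (0 : ℝ) := ⟨fun _ _ => rfl, fun _ _ _ => by simp⟩

lemma PSD.add {K K' : X → X → ℝ} (h : PSD K) (h' : PSD K') : PSD fun x y => K x y + K' x y := by
  refine ⟨fun x y => by simp only [h.symm x y, h'.symm x y], fun n p c => ?_⟩
  simp only [mul_add, Finset.sum_add_distrib]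
  exact add_nonneg (h.2 n p c) (h'.2 n p c)

lemma PSD.smul {K : X → X → ℝ} (h : PSD K) {a : ℝ} (ha : 0 ≤ a) : PSD fun x y => a * K x y := by
  refine ⟨fun x y => by simp only [h.symm x y], fun n p c => ?_⟩
  have := mul_nonneg ha (h.2 n p c)
  simp only [Finset.mul_sum] at this
  refine this.trans_eq ?_
  refine Finset.sum_congr rfl fun i _ => Finset.sum_congr rfl fun j _ => by ring

lemma PSD.sum {ι : Type} (s : Finset ι) {K : ι → X → X → ℝ} (h : ∀ i ∈ s, PSD (K i)) :
    PSD fun x y => ∑ i ∈ s, K i x y := by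
  classical
  induction s using Finset.induction_on with
  | empty => simpa using PSD.zero
  | insert a s ha ih =>
    simp only [Finset.sum_insert ha]
    exact (h a (Finset.mem_insert_self _ _)).add
      (ih fun i hi => h i (Finset.mem_insert_of_mem hi))

lemma PSD.comp {K : X → X → ℝ} (h : PSD K) (T : Y → X) : PSD fun x y => K (T x) (T y) :=
  ⟨fun _ _ => h.symm _ _, fun n p c => h.2 n (fun i => T (p i)) c⟩

lemma PSD.weight {K : X → X → ℝ} (h : PSD K) (w : X → ℝ) : PSD fun x y => w x * w y * K x y := by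
  refine ⟨fun x y => by simp only [h.symm x y]; ring, fun n p c => ?_⟩
  have := h.2 n p fun i => c i * w (p i)
  convert this using 3
  ring

lemma PSD.one : PSD fun _ _ : X => (1 : ℝ) :=
  (PSD.of_map fun _ : X => (1 : ℝ)).congr fun _ _ => by simp

lemma PSD.rankOne (w : X → ℝ) : PSD fun x y => w x * w y :=
  (PSD.one.weight w).congr fun _ _ => by ring

lemma PSD.const {a : ℝ} (ha : 0 ≤ a) : PSD fun _ _ : X => a :=
  (PSD.one.smul ha).congr fun _ _ => by ring

/-- Schur product with the real part of a kernel of finite rank. -/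
lemma PSD.mul_re {K : X → X → ℝ} (h : PSD K) {κ : X → X → ℂ} (hκ : FRc κ) :
    PSD fun x y => K x y * (κ x y).re := by
  obtain ⟨k, F, hF⟩ := hκ.exists_map
  refine (PSD.sum Finset.univ fun i _ => h.weight fun x => F x i).congr fun x y => ?_
  rw [← hF, PiLp.inner_apply, Finset.mul_sum]
  refine Finset.sum_congr rfl fun i _ => ?_
  simp only [RCLike.inner_apply, conj_trivial]
  ring

lemma PSD.of_FRc {κ : X → X → ℂ} (hκ : FRc κ) : PSD fun x y => (κ x y).re :=
  (PSD.one.mul_re hκ).congr fun _ _ => by ring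

/-- The kernel `cos (f x - f y)`. -/
lemma FRc_exp (f : X → ℝ) : FRc fun x y => Complex.exp (((f x - f y : ℝ) : ℂ) * Complex.I) :=
  (FRc.rankOne fun x => Complex.exp ((f x : ℂ) * Complex.I)).congr fun x y => by
    rw [← Complex.exp_conj, ← Complex.exp_add]
    congr 1
    simp only [map_mul, Complex.conj_ofReal, Complex.conj_I]
    push_cast
    ring

lemma PSD.mul_cos {K : X → X → ℝ} (h : PSD K) (f : X → ℝ) :
    PSD fun x y => K x y * Real.cos (f x - f y) :=
  (h.mul_re (FRc_exp f)).congr fun _ _ => by rw [Complex.exp_ofReal_mul_I_re]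

lemma PSD.cos (f : X → ℝ) : PSD fun x y => Real.cos (f x - f y) :=
  (PSD.one.mul_cos f).congr fun _ _ => by ring

/-- Real part of a complex Gram kernel. -/
lemma PSD.of_cmap {H : Type} [NormedAddCommGroup H] [InnerProductSpace ℂ H] (F : X → H) :
    PSD fun x y => (inner ℂ (F x) (F y)).re := by
  let : InnerProductSpace ℝ H := InnerProductSpace.complexToReal
  exact (PSD.of_map F).congr fun _ _ => rfl

lemma PSD.of_tendsto {ι : Type} {l : Filter ι} [l.NeBot] {K : ι → X → X → ℝ} {L : X → X → ℝ}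
    (h : ∀ i, PSD (K i)) (hl : ∀ x y, Tendsto (fun i => K i x y) l (𝓝 (L x y))) : PSD L := by
  refine ⟨fun x y => tendsto_nhds_unique (hl x y) ((hl y x).congr fun i => (h i).symm _ _),
    fun n p c => ?_⟩
  refine ge_of_tendsto' (tendsto_finsetSum _ fun i _ => tendsto_finsetSum _ fun j _ =>
    (hl (p i) (p j)).const_mul (c i * c j)) fun i => (h i).2 n p c

/-- Locally finite weighted sums. -/
lemma PSD.wsum {K : ℕ → X → X → ℝ} (h : ∀ i, PSD (K i)) (w : ℕ → X → ℝ)
    (hw : ∀ x, ∃ M, ∀ i, M ≤ i → w i x = 0) :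
    PSD fun x y => ∑' i, w i x * w i y * K i x y := by
  refine PSD.of_tendsto (l := atTop)
    (K := fun M x y => ∑ i ∈ Finset.range M, w i x * w i y * K i x y)
    (fun M => PSD.sum _ fun i _ => (h i).weight (w i)) fun x y => ?_
  obtain ⟨M, hM⟩ := hw x
  refine HasSum.tendsto_sum_nat (Summable.hasSum ?_)
  refine summable_of_ne_finset_zero (s := Finset.range M) fun i hi => ?_
  rw [hM i (by simpa using hi)]
  ring

lemma wsum_eq {K : ℕ → X → X → ℝ} {w : ℕ → X → ℝ} {x : X} (y : X) {s : Finset ℕ}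
    (hs : ∀ i, i ∉ s → w i x = 0) :
    ∑' i, w i x * w i y * K i x y = ∑ i ∈ s, w i x * w i y * K i x y :=
  tsum_eq_sum fun i hi => by rw [hs i hi]; ring

lemma nd_wsum {K : ℕ → X → X → ℝ} {w : ℕ → X → ℝ} {x y : X} {s : Finset ℕ}
    (hx : ∀ i, i ∉ s → w i x = 0) (hy : ∀ i, i ∉ s → w i y = 0) :
    nd (fun x y => ∑' i, w i x * w i y * K i x y) x y =
      ∑ i ∈ s, nd (fun x y => w i x * w i y * K i x y) x y := by
  simp only [nd]
  rw [wsum_eq x hx, wsum_eq y hy, wsum_eq y hx, Finset.mul_sum, ← Finset.sum_add_distrib,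
    ← Finset.sum_sub_distrib]

lemma nd_add (K K' : X → X → ℝ) (x y : X) :
    nd (fun x y => K x y + K' x y) x y = nd K x y + nd K' x y := by
  simp only [nd]; ring

lemma nd_smul (K : X → X → ℝ) (a : ℝ) (x y : X) :
    nd (fun x y => a * K x y) x y = a * nd K x y := by
  simp only [nd]; ring

lemma nd_self (K : X → X → ℝ) (x : X) : nd K x x = 0 := by simp only [nd]; ring

lemma PSD.nd_comm {K : X → X → ℝ} (h : PSD K) (x y : X) : nd K x y = nd K y x := by
  simp only [nd]; rw [h.symm x y]; ring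

lemma PSD.diag_nonneg {K : X → X → ℝ} (h : PSD K) (x : X) : 0 ≤ K x x := by
  simpa using h.2 1 (fun _ => x) fun _ => 1

lemma PSD.nd_nonneg {K : X → X → ℝ} (h : PSD K) (x y : X) : 0 ≤ nd K x y := by
  obtain ⟨H, _, _, _, F, hF⟩ := h.exists_map
  rw [nd_of_map hF]
  positivity

lemma PSD.abs_le {K : X → X → ℝ} (h : PSD K) (x y : X) : |K x y| ≤ √(K x x) * √(K y y) := by
  obtain ⟨H, _, _, _, F, hF⟩ := h.exists_map
  rw [← hF, ← hF, ← hF, real_inner_self_eq_norm_sq, real_inner_self_eq_norm_sq,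
    Real.sqrt_sq (norm_nonneg _), Real.sqrt_sq (norm_nonneg _)]
  exact abs_real_inner_le_norm _ _

lemma PSD.nd_le {K : X → X → ℝ} (h : PSD K) (x y : X) : nd K x y ≤ 2 * (K x x + K y y) := by
  obtain ⟨H, _, _, _, F, hF⟩ := h.exists_map
  have := real_inner_self_nonneg (x := F x + F y)
  rw [inner_add_left, inner_add_right, inner_add_right, hF, hF, hF, hF, h.symm y x] at this
  simp only [nd]
  linarith

lemma PSD.sqrt_nd_triangle {K : X → X → ℝ} (h : PSD K) (x y z : X) :
    √(nd K x z) ≤ √(nd K x y) + √(nd K y z) := by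
  obtain ⟨H, _, _, _, F, hF⟩ := h.exists_map
  simp only [nd_of_map hF, Real.sqrt_sq (norm_nonneg _)]
  exact norm_sub_le_norm_sub_add_norm_sub _ _ _

lemma PSD.sqrt_diag_le {K : X → X → ℝ} (h : PSD K) (x y : X) :
    √(K x x) ≤ √(K y y) + √(nd K x y) := by
  obtain ⟨H, _, _, _, F, hF⟩ := h.exists_map
  rw [nd_of_map hF, ← hF, ← hF, real_inner_self_eq_norm_sq, real_inner_self_eq_norm_sq,
    Real.sqrt_sq (norm_nonneg _), Real.sqrt_sq (norm_nonneg _), Real.sqrt_sq (norm_nonneg _)]
  linarith [norm_sub_norm_le (F x) (F y)]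

/-- Four point Cauchy-Schwarz inequality. -/
lemma PSD.four {K : X → X → ℝ} (h : PSD K) (a b c d : X) :
    |K a c - K a d - K b c + K b d| ≤ √(nd K a b) * √(nd K c d) := by
  obtain ⟨H, _, _, _, F, hF⟩ := h.exists_map
  simp only [nd_of_map hF, Real.sqrt_sq (norm_nonneg _)]
  have := abs_real_inner_le_norm (F a - F b) (F c - F d)
  rw [inner_sub_left, inner_sub_right, inner_sub_right, hF, hF, hF, hF] at this
  convert this using 2
  ring

lemma vec_lower {H : Type} [NormedAddCommGroup H] (u v : H) {β : ℝ} (hβ : 0 < β) :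
    (1 - β) * ‖u‖ ^ 2 - ‖v‖ ^ 2 / β ≤ ‖u + v‖ ^ 2 := by
  have h1 : ‖u‖ ≤ ‖u + v‖ + ‖v‖ := by simpa using norm_sub_le (u + v) v
  have ha := norm_nonneg u
  have hb := norm_nonneg v
  have hc := norm_nonneg (u + v)
  rw [sub_le_iff_le_add, ← sub_le_iff_le_add', le_div_iff₀ hβ]
  by_cases hβ1 : 1 ≤ β
  · nlinarith [mul_nonneg (sub_nonneg.2 hβ1) (sq_nonneg ‖u‖), sq_nonneg ‖u + v‖, sq_nonneg ‖v‖,
      mul_nonneg hβ.le (mul_nonneg (sub_nonneg.2 hβ1) (sq_nonneg ‖u‖)),
      mul_nonneg hβ.le (sq_nonneg ‖u + v‖)]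
  · push Not at hβ1
    have h2 : ‖u‖ ^ 2 ≤ (‖u + v‖ + ‖v‖) ^ 2 := by gcongr
    have h3 : (1 - β) * β * ‖u‖ ^ 2 ≤ (1 - β) * β * (‖u + v‖ + ‖v‖) ^ 2 := by
      have : 0 ≤ (1 - β) * β := mul_nonneg (by linarith) hβ.le
      gcongr
    nlinarith [sq_nonneg (β * ‖u + v‖ - (1 - β) * ‖v‖), mul_nonneg hβ.le (sq_nonneg ‖v‖)]

lemma vec_upper {H : Type} [NormedAddCommGroup H] (u v : H) {β : ℝ} (hβ : 0 < β) :
    ‖u + v‖ ^ 2 ≤ (1 + β) * ‖u‖ ^ 2 + (1 + 1 / β) * ‖v‖ ^ 2 := by
  have h1 : ‖u + v‖ ^ 2 ≤ (‖u‖ + ‖v‖) ^ 2 := by gcongr; exact norm_add_le u v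
  have h2 : 2 * ‖u‖ * ‖v‖ ≤ β * ‖u‖ ^ 2 + 1 / β * ‖v‖ ^ 2 := by
    have : β * ‖u‖ ^ 2 + 1 / β * ‖v‖ ^ 2 - 2 * ‖u‖ * ‖v‖ = (β * ‖u‖ - ‖v‖) ^ 2 / β := by
      field_simp; ring
    have h3 : 0 ≤ (β * ‖u‖ - ‖v‖) ^ 2 / β := by positivity
    linarith
  nlinarith

/-- Weights frozen at the first point: lower bound. -/
lemma PSD.nd_weight_lower {K : X → X → ℝ} (h : PSD K) (w : X → ℝ) (x y : X) {β : ℝ}
    (hβ : 0 < β) : (1 - β) * (w x ^ 2 * nd K x y) - (w x - w y) ^ 2 * K y y / β ≤
      nd (fun x y => w x * w y * K x y) x y := by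
  obtain ⟨H, _, _, _, F, hF⟩ := h.exists_map
  have e : ∀ x y, ⟪w x • F x, w y • F y⟫ = w x * w y * K x y := fun x y => by
    rw [real_inner_smul_left, real_inner_smul_right, hF]; ring
  have := vec_lower (w x • (F x - F y)) ((w x - w y) • F y) hβ
  rw [norm_smul, norm_smul, mul_pow, mul_pow, Real.norm_eq_abs, Real.norm_eq_abs, sq_abs, sq_abs,
    ← nd_of_map hF, ← real_inner_self_eq_norm_sq (F y), hF] at this
  rw [nd_of_map e]
  convert this using 3
  module

/-- Weights frozen at the first point: upper bound. -/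
lemma PSD.nd_weight_upper {K : X → X → ℝ} (h : PSD K) (w : X → ℝ) (x y : X) {β : ℝ}
    (hβ : 0 < β) : nd (fun x y => w x * w y * K x y) x y ≤
      (1 + β) * (w x ^ 2 * nd K x y) + (1 + 1 / β) * ((w x - w y) ^ 2 * K y y) := by
  obtain ⟨H, _, _, _, F, hF⟩ := h.exists_map
  have e : ∀ x y, ⟪w x • F x, w y • F y⟫ = w x * w y * K x y := fun x y => by
    rw [real_inner_smul_left, real_inner_smul_right, hF]; ring
  have := vec_upper (w x • (F x - F y)) ((w x - w y) • F y) hβ
  rw [norm_smul, norm_smul, mul_pow, mul_pow, Real.norm_eq_abs, Real.norm_eq_abs, sq_abs, sq_abs,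
    ← nd_of_map hF, ← real_inner_self_eq_norm_sq (F y), hF] at this
  rw [nd_of_map e]
  convert this using 3
  module

/-- Amplitudes: for a kernel with unit diagonal at the two points. -/
lemma nd_amp (K : X → X → ℝ) (w : X → ℝ) {x y : X} (hx : K x x = 1) (hy : K y y = 1) :
    nd (fun x y => w x * w y * K x y) x y = (w x - w y) ^ 2 + w x * w y * (2 - 2 * K x y) := by
  simp only [nd, hx, hy]; ring

/-- Pointwise limits along a free ultrafilter. -/
lemma exists_ulim {ι : Type} (g : ℕ → ι → ℝ) (hb : ∀ i, ∃ C, ∀ n, |g n i| ≤ C) :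
    ∃ (U : Ultrafilter ℕ) (L : ι → ℝ), (U : Filter ℕ) ≤ atTop ∧
      ∀ i, Tendsto (fun n => g n i) U (𝓝 (L i)) := by
  have key : ∀ i, ∃ a, Tendsto (fun n => g n i) (Ultrafilter.of (atTop : Filter ℕ)) (𝓝 a) := by
    intro i
    obtain ⟨C, hC⟩ := hb i
    obtain ⟨a, -, ha⟩ := (isCompact_Icc (a := -C) (b := C)).ultrafilter_le_nhds
      ((Ultrafilter.of (atTop : Filter ℕ)).map fun n => g n i)
      (by
        rw [Ultrafilter.coe_map, le_principal_iff, mem_map]
        exact Eventually.of_forall fun n => abs_le.1 (hC n))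
    exact ⟨a, ha⟩
  choose L hL using key
  exact ⟨Ultrafilter.of atTop, L, Ultrafilter.of_le _, hL⟩

/-- A map with local Lipschitz constant at most one at every point is a contraction. -/
lemma nd_le_of_local {V : Type} [NormedAddCommGroup V] [NormedSpace ℝ V] {K : V → V → ℝ}
    (h : PSD K) (hl : ∀ x, ∀ ε > 0, ∃ δ > 0, ∀ y, dist x y < δ →
      nd K x y ≤ (1 + ε) * dist x y ^ 2) (x y : V) : nd K x y ≤ dist x y ^ 2 := by
  obtain ⟨H, _, _, _, F, hF⟩ := h.exists_map
  have loc : ∀ x, ∀ ε > 0, ∃ δ > 0, ∀ y, dist x y < δ → ‖F y - F x‖ ≤ (1 + ε) * dist x y := by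
    intro x ε hε
    obtain ⟨δ, hδ, H1⟩ := hl x ε hε
    refine ⟨δ, hδ, fun y hy => ?_⟩
    have := H1 y hy
    rw [nd_of_map hF, norm_sub_rev] at this
    refine abs_le_of_sq_le_sq' ?_ (by positivity) |>.2
    nlinarith [sq_nonneg (dist x y), mul_nonneg hε.le (sq_nonneg (dist x y)),
      mul_nonneg hε.le (mul_nonneg hε.le (sq_nonneg (dist x y)))]
  have hc : Continuous F := by
    refine continuous_iff_continuousAt.2 fun x => ?_
    obtain ⟨δ, hδ, H1⟩ := loc x 1 one_pos
    refine Metric.continuousAt_iff.2 fun ε hε => ⟨min δ (ε / 3), by positivity, fun y hy => ?_⟩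
    rw [lt_min_iff, dist_comm] at hy
    rw [dist_eq_norm]
    linarith [H1 y hy.1, hy.2]
  set γ : ℝ → V := fun t => x + t • (y - x) with hγ
  have hγd : ∀ s t, dist (γ s) (γ t) = |t - s| * dist x y := fun s t => by
    rw [dist_comm, dist_eq_norm, dist_comm, dist_eq_norm, ← Real.norm_eq_abs, ← norm_smul]
    congr 1
    simp only [hγ]
    module
  have key := image_le_of_liminf_slope_right_le_deriv_boundary
    (f := fun t => ‖F (γ t) - F x‖) (B := fun t => t * dist x y) (B' := fun _ => dist x y)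
    (a := 0) (b := 1) (by fun_prop) (by simp [hγ]) (by fun_prop)
    (fun t _ => by simpa using ((hasDerivAt_id t).mul_const (dist x y)).hasDerivWithinAt)
    (fun t _ r hr => ?_) (x := 1) (by simp)
  · rw [nd_of_map hF, norm_sub_rev]
    simp only [hγ, one_smul, add_sub_cancel, one_mul] at key
    gcongr
  · have hd := dist_nonneg (x := x) (y := y)
    obtain ⟨δ, hδ, H1⟩ := loc (γ t) ((r - dist x y) / (2 * (dist x y + 1))) (by
      have : 0 < r - dist x y := by linarith
      positivity)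
    refine Eventually.frequently ?_
    have : Set.Ioo t (t + δ / (dist x y + 1)) ∈ 𝓝[>] t :=
      Ioo_mem_nhdsGT (by have : 0 < δ / (dist x y + 1) := by positivity
                         linarith)
    filter_upwards [this] with z hz
    have hz0 : 0 < z - t := by linarith [hz.1]
    have hz1 : (z - t) * (dist x y + 1) < δ := by
      rw [← lt_div_iff₀ (by positivity)]; linarith [hz.2]
    have := H1 (γ z) (by rw [hγd, abs_of_pos hz0]; nlinarith)
    rw [hγd, abs_of_pos hz0] at this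
    rw [slope_def_field, div_lt_iff₀ hz0]
    have h2 := norm_sub_norm_le (F (γ z) - F x) (F (γ t) - F x)
    rw [sub_sub_sub_cancel_right] at h2
    have h3 : (r - dist x y) / (2 * (dist x y + 1)) * dist x y < r - dist x y := by
      rw [div_mul_eq_mul_div, div_lt_iff₀ (by positivity)]
      nlinarith
    nlinarith

end

end Pool.Agent.Work.MP_0ba68b_gt.CX
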