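import Mathlib.Analysis.Quaternion
import Mathlib.Analysis.Normed.Field.UnitBall
import Pool.Agent.Work.MP_0ba68b_gt.CX.Ker

/-!
Unit quaternions, the Hermitian product for the left complex structure, Hopf coordinates.
-/

open scoped ComplexConjugate Quaternion
open Real

namespace Pool.Agent.Work.MP_0ba68b_gt.CX

noncomputable section

/-- The group of unit quaternions. -/
abbrev S3 : Type := Metric.sphere (0 : ℍ[ℝ]) 1

lemma S3.norm (x : S3) : ‖(x : ℍ[ℝ])‖ = 1 := by simp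

lemma hnorm_sq (x : ℍ[ℝ]) : ‖x‖ ^ 2 = x.re ^ 2 + x.imI ^ 2 + x.imJ ^ 2 + x.imK ^ 2 := by
  rw [sq, ← Quaternion.normSq_eq_norm_mul_self, Quaternion.normSq_def']

lemma S3.sq_sum (x : S3) :
    (x : ℍ[ℝ]).re ^ 2 + (x : ℍ[ℝ]).imI ^ 2 + (x : ℍ[ℝ]).imJ ^ 2 + (x : ℍ[ℝ]).imK ^ 2 = 1 := by
  rw [← hnorm_sq, S3.norm, one_pow]

/-- A unit quaternion from its coordinates. -/
def mkS (x : ℍ[ℝ]) (h : x.re ^ 2 + x.imI ^ 2 + x.imJ ^ 2 + x.imK ^ 2 = 1) : S3 :=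
  ⟨x, by
    rw [mem_sphere_zero_iff_norm]
    rw [← hnorm_sq] at h
    nlinarith [norm_nonneg x]⟩

/-- `exp (i φ)`. -/
def ec (φ : ℝ) : S3 := mkS ⟨cos φ, sin φ, 0, 0⟩ (by simp)

/-- `exp (j t)`. -/
def ej (t : ℝ) : S3 := mkS ⟨cos t, 0, sin t, 0⟩ (by simp)

/-- The quaternion `j`. -/
def jj : S3 := mkS ⟨0, 0, 1, 0⟩ (by simp)

@[simp] lemma coe_ec (φ : ℝ) : (ec φ : ℍ[ℝ]) = ⟨cos φ, sin φ, 0, 0⟩ := rfl
@[simp] lemma coe_ej (t : ℝ) : (ej t : ℍ[ℝ]) = ⟨cos t, 0, sin t, 0⟩ := rfl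
@[simp] lemma coe_jj : (jj : ℍ[ℝ]) = ⟨0, 0, 1, 0⟩ := rfl

lemma ec_zero : ec 0 = 1 := by
  apply Subtype.ext; ext <;> simp

lemma ej_zero : ej 0 = 1 := by
  apply Subtype.ext; ext <;> simp

lemma ec_add (φ ψ : ℝ) : ec (φ + ψ) = ec φ * ec ψ := by
  apply Subtype.ext; ext <;> simp [cos_add, sin_add]; ring

lemma ej_add (s t : ℝ) : ej (s + t) = ej s * ej t := by
  apply Subtype.ext; ext <;> simp [cos_add, sin_add]; ring

lemma ec_neg (φ : ℝ) : ec (-φ) = (ec φ)⁻¹ := by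
  rw [eq_inv_iff_mul_eq_one, ← ec_add, neg_add_cancel, ec_zero]

lemma ej_neg (t : ℝ) : ej (-t) = (ej t)⁻¹ := by
  rw [eq_inv_iff_mul_eq_one, ← ej_add, neg_add_cancel, ej_zero]

lemma ec_add_int (φ : ℝ) (n : ℤ) : ec (φ + n * (2 * π)) = ec φ := by
  apply Subtype.ext; ext <;> simp [cos_add_int_mul_two_pi, sin_add_int_mul_two_pi]

lemma ej_pi_div_two : ej (π / 2) = jj := by
  apply Subtype.ext; ext <;> simp

lemma jj_mul_ec (φ : ℝ) : jj * ec φ = ec (-φ) * jj := by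
  apply Subtype.ext; ext <;> simp

lemma jj_mul_jj : jj * jj = ec π := by
  apply Subtype.ext; ext <;> simp

lemma coe_ec_pi : (ec π : ℍ[ℝ]) = -1 := by ext <;> simp

lemma ec_pi_comm (x : S3) : ec π * x = x * ec π := by
  apply Subtype.ext
  simp only [Metric.unitSphere.coe_mul, coe_ec_pi, neg_mul, one_mul, mul_neg, mul_one]

lemma jj_mul_ej (t : ℝ) : jj * ej t = ej t * jj := by
  rw [← ej_pi_div_two, ← ej_add, ← ej_add, add_comm]

lemma jj_inv : jj⁻¹ = ec π * jj := by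
  rw [inv_eq_iff_mul_eq_one, jj_mul_ec_assoc]
where
  jj_mul_ec_assoc : jj * (ec π * jj) = 1 := by
    apply Subtype.ext; ext <;> simp

lemma jj_zpow_even {n : ℤ} (h : Even n) : ∃ φ, jj ^ n = ec φ ∧ (φ = 0 ∨ φ = π) := by
  obtain ⟨k, rfl⟩ := h
  have h2 : jj ^ (k + k) = ec π ^ k := by rw [← two_mul, zpow_mul, zpow_two, jj_mul_jj]
  have h3 : ec π * ec π = 1 := by
    rw [← ec_add, show π + π = 0 + (1 : ℤ) * (2 * π) by push_cast; ring, ec_add_int, ec_zero]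
  rw [h2]
  rcases Int.even_or_odd k with ⟨m, rfl⟩ | ⟨m, rfl⟩
  · exact ⟨0, by rw [← two_mul, zpow_mul, zpow_two, h3, one_zpow, ec_zero], Or.inl rfl⟩
  · exact ⟨π, by rw [zpow_add, zpow_mul, zpow_two, h3, one_zpow, one_mul, zpow_one], Or.inr rfl⟩

lemma jj_zpow_odd {n : ℤ} (h : Odd n) : ∃ φ, jj ^ n = ec φ * jj ∧ (φ = 0 ∨ φ = π) := by
  obtain ⟨k, rfl⟩ := h
  obtain ⟨φ, h1, h2⟩ := jj_zpow_even (n := 2 * k) (even_two_mul k)
  exact ⟨φ, by rw [zpow_add, h1, zpow_one], h2⟩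

lemma coe_inv_eq_star (x : S3) : ((x⁻¹ : S3) : ℍ[ℝ]) = star (x : ℍ[ℝ]) := by
  rw [Metric.unitSphere.coe_inv, Quaternion.inv_def, Quaternion.normSq_eq_norm_mul_self, S3.norm]
  simp

/-- The Hermitian product of `ℍ` as a left complex vector space. -/
def cin (x y : ℍ[ℝ]) : ℂ := ⟨(x * star y).re, (x * star y).imI⟩

lemma cin_re (x y : ℍ[ℝ]) :
    (cin x y).re = x.re * y.re + x.imI * y.imI + x.imJ * y.imJ + x.imK * y.imK := by
  simp [cin]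

lemma cin_im (x y : ℍ[ℝ]) :
    (cin x y).im = -(x.re * y.imI) + x.imI * y.re - x.imJ * y.imK + x.imK * y.imJ := by
  simp [cin]; ring

lemma cin_eq (x y : ℍ[ℝ]) : cin x y = (⟨x.re, x.imI⟩ : ℂ) * conj (⟨y.re, y.imI⟩ : ℂ) +
    (⟨x.imJ, x.imK⟩ : ℂ) * conj (⟨y.imJ, y.imK⟩ : ℂ) := by
  apply Complex.ext <;> simp [cin_re, cin_im] <;> ring

lemma FRc_cin : FRc cin :=
  ((FRc.rankOne fun x : ℍ[ℝ] => (⟨x.re, x.imI⟩ : ℂ)).add
    (FRc.rankOne fun x : ℍ[ℝ] => (⟨x.imJ, x.imK⟩ : ℂ))).congr cin_eq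

lemma FRc.conj {X : Type} {κ : X → X → ℂ} (h : FRc κ) : FRc fun x y => conj (κ x y) := by
  obtain ⟨ι, _, F, hF⟩ := h
  exact ⟨ι, inferInstance, fun x i => conj (F x i), fun x y => by simp [hF]⟩

lemma cin_conj (x y : ℍ[ℝ]) : cin y x = conj (cin x y) := by
  apply Complex.ext <;> simp [cin_re, cin_im] <;> ring

lemma norm_cin_comm (x y : ℍ[ℝ]) : ‖cin y x‖ = ‖cin x y‖ := by
  rw [cin_conj, Complex.norm_conj]

lemma cin_self (x : S3) : cin x x = 1 := by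
  have := S3.sq_sum x
  apply Complex.ext <;> simp [cin_re, cin_im] <;> nlinarith

lemma cin_mul_right (x y : ℍ[ℝ]) (g : S3) : cin (x * g) (y * g) = cin x y := by
  have : x * g * star (y * g) = x * star y := by
    rw [star_mul, mul_assoc, ← mul_assoc (g : ℍ[ℝ]), ← coe_inv_eq_star,
      ← Metric.unitSphere.coe_mul, mul_inv_cancel]
    simp
  simp only [cin, this]

lemma cin_ec_left (φ : ℝ) (x y : ℍ[ℝ]) :
    cin (ec φ * x) y = Complex.exp (φ * Complex.I) * cin x y := by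
  apply Complex.ext <;>
    simp [cin_re, cin_im, Complex.exp_ofReal_mul_I_re, Complex.exp_ofReal_mul_I_im] <;> ring

lemma cin_ec_right (φ : ℝ) (x y : ℍ[ℝ]) :
    cin x (ec φ * y) = Complex.exp (-(φ * Complex.I)) * cin x y := by
  rw [cin_conj, cin_ec_left, map_mul, ← cin_conj, ← Complex.exp_conj]
  simp

lemma cin_jj_jj (x y : ℍ[ℝ]) : cin (jj * x) (jj * y) = conj (cin x y) := by
  apply Complex.ext <;> simp [cin_re, cin_im] <;> ring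

lemma cin_jj_self (x : ℍ[ℝ]) : cin x (jj * x) = 0 := by
  apply Complex.ext <;> simp [cin_re, cin_im] <;> ring

lemma cin_smul (a b : ℝ) (x y : ℍ[ℝ]) : cin (a • x) (b • y) = (a * b : ℝ) * cin x y := by
  apply Complex.ext <;> simp [cin_re, cin_im] <;> ring

lemma cin_one_ej (t : ℝ) : cin 1 (ej t) = (cos t : ℝ) := by
  apply Complex.ext <;> simp [cin_re, cin_im, Complex.cos_ofReal_re]

lemma norm_cin_sq (x y : ℍ[ℝ]) : ‖cin x y‖ ^ 2 = (cin x y).re ^ 2 + (cin x y).im ^ 2 := by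
  rw [Complex.sq_norm, Complex.normSq_apply]; ring

lemma norm_cin_sq_add (x y : S3) : ‖cin x y‖ ^ 2 + ‖cin x (jj * y)‖ ^ 2 = 1 := by
  have h : ‖cin x y‖ ^ 2 + ‖cin x (jj * y)‖ ^ 2 = ‖(x : ℍ[ℝ])‖ ^ 2 * ‖(y : ℍ[ℝ])‖ ^ 2 := by
    rw [norm_cin_sq, norm_cin_sq, hnorm_sq, hnorm_sq]
    simp [cin_re, cin_im]
    ring
  rw [h, S3.norm, S3.norm]; norm_num

lemma norm_cin_le (x y : S3) : ‖cin x y‖ ≤ 1 := by
  nlinarith [norm_cin_sq_add x y, norm_nonneg (cin x y), sq_nonneg ‖cin x (jj * y)‖]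

lemma norm_cin_ec_right (φ : ℝ) (x y : ℍ[ℝ]) : ‖cin x (ec φ * y)‖ = ‖cin x y‖ := by
  rw [cin_ec_right, norm_mul, show -((φ : ℂ) * Complex.I) = ((-φ : ℝ) : ℂ) * Complex.I by
    push_cast; ring, Complex.norm_exp_ofReal_mul_I, one_mul]

lemma norm_cin_ec_left (φ : ℝ) (x y : ℍ[ℝ]) : ‖cin (ec φ * x) y‖ = ‖cin x y‖ := by
  rw [cin_ec_left, norm_mul, Complex.norm_exp_ofReal_mul_I, one_mul]

lemma norm_sub_sq_cin (x y : ℍ[ℝ]) : ‖x - y‖ ^ 2 = ‖x‖ ^ 2 + ‖y‖ ^ 2 - 2 * (cin x y).re := by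
  rw [hnorm_sq, hnorm_sq, hnorm_sq, cin_re]
  simp
  ring

lemma norm_smul_sub_sq (a b : ℝ) (x y : S3) :
    ‖a • (x : ℍ[ℝ]) - b • (y : ℍ[ℝ])‖ ^ 2 = (a - b) ^ 2 + 2 * a * b * (1 - (cin x y).re) := by
  rw [norm_sub_sq_cin, cin_smul, norm_smul, norm_smul, S3.norm, S3.norm]
  simp
  ring

/-- Hopf coordinates of a pair. -/
lemma hopf (x y : S3) : ∃ φ ψ t : ℝ, t ∈ Set.Icc 0 (π / 2) ∧ y = ec φ * ej t * ec ψ * x ∧
    ‖cin x y‖ = cos t := by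
  set g : S3 := y * x⁻¹ with hg
  set z : ℂ := ⟨(g : ℍ[ℝ]).re, (g : ℍ[ℝ]).imI⟩
  set w : ℂ := ⟨(g : ℍ[ℝ]).imJ, (g : ℍ[ℝ]).imK⟩
  have hz : ‖cin x y‖ = ‖z‖ := by
    have : cin y x = z := by
      simp only [cin, z, hg, Metric.unitSphere.coe_mul, coe_inv_eq_star]
    rw [norm_cin_comm, this]
  have hzw : ‖z‖ ^ 2 + ‖w‖ ^ 2 = 1 := by
    rw [Complex.sq_norm, Complex.sq_norm, Complex.normSq_mk, Complex.normSq_mk]
    linear_combination S3.sq_sum g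
  have hz1 : ‖z‖ ≤ 1 := by nlinarith [norm_nonneg z, sq_nonneg ‖w‖]
  have hc : cos (arccos ‖z‖) = ‖z‖ := cos_arccos (by linarith [norm_nonneg z]) hz1
  have hs : sin (arccos ‖z‖) = ‖w‖ := by
    rw [sin_arccos, show 1 - ‖z‖ ^ 2 = ‖w‖ ^ 2 by linarith, sqrt_sq (norm_nonneg _)]
  refine ⟨(z.arg + w.arg) / 2, (z.arg - w.arg) / 2, arccos ‖z‖,
    ⟨arccos_nonneg _, arccos_le_pi_div_two.2 (norm_nonneg _)⟩, ?_, by rw [hz, hc]⟩
  rw [← mul_inv_eq_iff_eq_mul, ← hg]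
  have a1 : z.arg = (z.arg + w.arg) / 2 + (z.arg - w.arg) / 2 := by ring
  have a2 : w.arg = (z.arg + w.arg) / 2 - (z.arg - w.arg) / 2 := by ring
  have b1 := Complex.norm_mul_cos_arg z
  have b2 := Complex.norm_mul_sin_arg z
  have b3 := Complex.norm_mul_cos_arg w
  have b4 := Complex.norm_mul_sin_arg w
  rw [a1, cos_add] at b1
  rw [a1, sin_add] at b2
  rw [a2, cos_sub] at b3
  rw [a2, sin_sub] at b4
  apply Subtype.ext
  ext <;> simp [hc, hs]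
  · linear_combination -b1
  · linear_combination -b2
  · linear_combination -b3
  · linear_combination -b4

/-- The cosine of the angle on the base sphere of the Hopf fibration. -/
def uu (x y : S3) : ℝ := 2 * ‖cin x y‖ ^ 2 - 1

/-- The second Legendre kernel. -/
def p2 (x y : S3) : ℝ := (3 * uu x y ^ 2 - 1) / 2

lemma uu_self (x : S3) : uu x x = 1 := by simp [uu, cin_self]; norm_num

lemma p2_self (x : S3) : p2 x x = 1 := by simp [p2, uu_self]; norm_num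

lemma uu_comm (x y : S3) : uu x y = uu y x := by rw [uu, uu, norm_cin_comm]

lemma uu_mul_right (x y g : S3) : uu (x * g) (y * g) = uu x y := by
  simp only [uu, Metric.unitSphere.coe_mul, cin_mul_right]

lemma uu_ec (φ : ℝ) (x y : S3) : uu x (ec φ * y) = uu x y := by
  simp only [uu, Metric.unitSphere.coe_mul, norm_cin_ec_right]

lemma uu_jj (x y : S3) : uu x (jj * y) = -uu x y := by
  have := norm_cin_sq_add x y
  simp only [uu, Metric.unitSphere.coe_mul]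
  linarith

lemma uu_le (x y : S3) : uu x y ≤ 1 := by
  have := norm_cin_sq_add x y
  simp only [uu]
  nlinarith [sq_nonneg ‖cin x (jj * y)‖]

lemma neg_one_le_uu (x y : S3) : -1 ≤ uu x y := by
  simp only [uu]
  nlinarith [sq_nonneg ‖cin x y‖]

lemma uu_of_cos {x y : S3} {t : ℝ} (h : ‖cin x y‖ = cos t) : uu x y = cos (2 * t) := by
  rw [uu, h, cos_two_mul]

/-- The Hopf map. -/
def om (x : S3) : Fin 3 → ℝ :=
  ![(x : ℍ[ℝ]).re ^ 2 + (x : ℍ[ℝ]).imI ^ 2 - (x : ℍ[ℝ]).imJ ^ 2 - (x : ℍ[ℝ]).imK ^ 2,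
    2 * ((x : ℍ[ℝ]).re * (x : ℍ[ℝ]).imJ + (x : ℍ[ℝ]).imI * (x : ℍ[ℝ]).imK),
    2 * ((x : ℍ[ℝ]).imI * (x : ℍ[ℝ]).imJ - (x : ℍ[ℝ]).re * (x : ℍ[ℝ]).imK)]

lemma uu_eq_om (x y : S3) : uu x y = ∑ i, om x i * om y i := by
  have hx := S3.sq_sum x
  have hy := S3.sq_sum y
  have : uu x y = 2 * ‖cin x y‖ ^ 2 -
      ((x : ℍ[ℝ]).re ^ 2 + (x : ℍ[ℝ]).imI ^ 2 + (x : ℍ[ℝ]).imJ ^ 2 + (x : ℍ[ℝ]).imK ^ 2) *
      ((y : ℍ[ℝ]).re ^ 2 + (y : ℍ[ℝ]).imI ^ 2 + (y : ℍ[ℝ]).imJ ^ 2 + (y : ℍ[ℝ]).imK ^ 2) := by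
    rw [hx, hy, uu]; ring
  rw [this, norm_cin_sq, cin_re, cin_im]
  simp [om, Fin.sum_univ_three]
  ring

lemma FRc_uu : FRc fun x y : S3 => (uu x y : ℂ) :=
  ⟨Fin 3, inferInstance, fun x i => (om x i : ℂ), fun x y => by simp [uu_eq_om]⟩

lemma FRc_p2 : FRc fun x y : S3 => (p2 x y : ℂ) := by
  have h : FRc fun x y : S3 => ((uu x y ^ 2 - 1 / 3 : ℝ) : ℂ) := by
    refine ⟨Fin 3 × Fin 3, inferInstance,
      fun x i => ((om x i.1 * om x i.2 - if i.1 = i.2 then 1 / 3 else 0 : ℝ) : ℂ), fun x y => ?_⟩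
    simp only [Complex.conj_ofReal, ← Complex.ofReal_mul, ← Complex.ofReal_sum]
    congr 1
    have hx := uu_self x
    have hy := uu_self y
    rw [uu_eq_om] at hx hy ⊢
    simp only [Fintype.sum_prod_type, Fin.sum_univ_three] at hx hy ⊢
    simp
    linear_combination (1 / 3 : ℝ) * hx + (1 / 3 : ℝ) * hy
  refine (h.smul (c := 3 / 2) (by norm_num)).congr fun x y => ?_
  simp only [p2]
  push_cast
  ring

lemma PSD.mul_uu {X : Type} {K : X → X → ℝ} (h : PSD K) (f : X → S3) :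
    PSD fun x y => K x y * uu (f x) (f y) :=
  (h.mul_re (FRc_uu.comp f)).congr fun _ _ => by simp

lemma PSD.mul_p2 {X : Type} {K : X → X → ℝ} (h : PSD K) (f : X → S3) :
    PSD fun x y => K x y * p2 (f x) (f y) :=
  (h.mul_re (FRc_p2.comp f)).congr fun _ _ => by simp

open Classical in
/-- The direction of a quaternion (`1` at the origin). -/
def hat (x : ℍ[ℝ]) : S3 :=
  if h : x = 0 then 1 else ⟨‖x‖⁻¹ • x, by
    rw [mem_sphere_zero_iff_norm, norm_smul, norm_inv, norm_norm,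
      inv_mul_cancel₀ (norm_ne_zero_iff.2 h)]⟩

lemma norm_smul_hat (x : ℍ[ℝ]) : ‖x‖ • (hat x : ℍ[ℝ]) = x := by
  unfold hat
  split_ifs with h
  · simp [h]
  · simp [smul_smul, mul_inv_cancel₀ (norm_ne_zero_iff.2 h)]

lemma norm_S3_mul (g : S3) (x : ℍ[ℝ]) : ‖(g : ℍ[ℝ]) * x‖ = ‖x‖ := by
  rw [norm_mul, S3.norm, one_mul]

lemma hat_mul (g : S3) {x : ℍ[ℝ]} (hx : x ≠ 0) : hat (g * x) = g * hat x := by
  have h2 : (g : ℍ[ℝ]) * x ≠ 0 := by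
    rw [← norm_ne_zero_iff, norm_S3_mul, norm_ne_zero_iff]; exact hx
  apply Subtype.ext
  simp only [hat, hx, h2, dif_neg, not_false_eq_true, Metric.unitSphere.coe_mul, norm_S3_mul,
    mul_smul_comm]

lemma hat_smul {a : ℝ} (ha : 0 < a) (x : S3) : hat (a • (x : ℍ[ℝ])) = x := by
  have h1 : ‖a • (x : ℍ[ℝ])‖ = a := by rw [norm_smul, S3.norm, mul_one, Real.norm_of_nonneg ha.le]
  have h2 : a • (x : ℍ[ℝ]) ≠ 0 := by rw [← norm_ne_zero_iff, h1]; exact ha.ne'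
  apply Subtype.ext
  simp only [hat, h2, dif_neg, not_false_eq_true, h1, smul_smul, inv_mul_cancel₀ ha.ne', one_smul]

lemma norm_sub_sq_hat (x y : ℍ[ℝ]) :
    ‖x - y‖ ^ 2 = (‖x‖ - ‖y‖) ^ 2 + 2 * ‖x‖ * ‖y‖ * (1 - (cin (hat x) (hat y)).re) := by
  rw [← norm_smul_sub_sq, norm_smul_hat, norm_smul_hat]

end

end Pool.Agent.Work.MP_0ba68b_gt.CX
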