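import Mathlib.MeasureTheory.Measure.Haar.Unique
import Mathlib.MeasureTheory.Integral.Bochner.Basic
import Pool.Agent.Work.MP_0ba68b_gt.CX.S3

/-!
Haar measure on the unit quaternions and polynomial approximate identities.

PLAN.  Right invariance: the image of `haar` under right multiplication is a left invariant
probability Haar measure, `isHaarMeasure_eq_of_isProbabilityMeasure`.
Concentration: with `Z D = ∫ re ^ (2 D)`, for `δ > 0`, on `{re² ≤ 1 - δ}` the integrand is at most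
`(1 - δ) ^ D / Z D`, and `Z D ≥ (1 - δ / 2) ^ D * haar {re² > 1 - δ / 2}` with a nonempty open set.
Lipschitz: `|s ^ n - t ^ n| ≤ n |s - t|` for `|s|, |t| ≤ 1` (`abs_pow_sub_pow_le`), `re_inv_mul`.
-/

open scoped Quaternion RealInnerProductSpace
open MeasureTheory

namespace Pool.Agent.Work.MP_0ba68b_gt.CX

noncomputable section

instance : MeasurableSpace S3 := borel _
instance : BorelSpace S3 := ⟨rfl⟩

/-- The Haar probability measure. -/
def haar : Measure S3 := Measure.haarMeasure ⊤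

instance : haar.IsHaarMeasure := by unfold haar; infer_instance

instance : IsProbabilityMeasure haar := ⟨by
  have := Measure.haarMeasure_self (G := S3) (K₀ := ⊤)
  simpa [haar] using this⟩

theorem haar_right : haar.IsMulRightInvariant := by
  refine ⟨fun g => ?_⟩
  have h1 : IsProbabilityMeasure (Measure.map (· * g) haar) :=
    Measure.isProbabilityMeasure_map (measurable_mul_const g).aemeasurable
  have h2 : (Measure.map (· * g) haar).IsHaarMeasure := Measure.isHaarMeasure_map_mul_right haar g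
  exact Measure.isHaarMeasure_eq_of_isProbabilityMeasure _ _

instance : haar.IsMulRightInvariant := haar_right

lemma integrable_of_cont {E : Type} [NormedAddCommGroup E] {f : S3 → E} (hf : Continuous f) :
    Integrable f haar := by
  exact hf.integrable_of_hasCompactSupport (HasCompactSupport.of_compactSpace f)

lemma integral_conj_haar {E : Type} [NormedAddCommGroup E] [NormedSpace ℝ E] (f : S3 → E)
    (g : S3) : ∫ x, f (g⁻¹ * x * g) ∂haar = ∫ x, f x ∂haar := by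
  rw [integral_mul_left_eq_self (fun x => f (x * g)) g⁻¹, integral_mul_right_eq_self f g]

lemma eq_zero_of_integral_eq_zero {f : S3 → ℝ} (hf : Continuous f) (h0 : ∀ x, 0 ≤ f x)
    (h : ∫ x, f x ∂haar = 0) (x : S3) : f x = 0 := by
  have h1 := (integral_eq_zero_iff_of_nonneg h0 (integrable_of_cont hf)).1 h
  have h2 : f = 0 := (hf.ae_eq_iff_eq haar continuous_zero).1 h1
  rw [h2]
  rfl

lemma re_inv_mul (x y : S3) : ((x⁻¹ * y : S3) : ℍ[ℝ]).re = ⟪(x : ℍ[ℝ]), (y : ℍ[ℝ])⟫ := by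
  rw [Metric.unitSphere.coe_mul, coe_inv_eq_star, Quaternion.inner_def]
  simp

/-- The normalising constant. -/
def ZD (D : ℕ) : ℝ := ∫ h : S3, (h : ℍ[ℝ]).re ^ (2 * D) ∂haar

/-- The approximate identity (concentrated at `± 1`). -/
def sD (D : ℕ) (g : S3) : ℝ := (g : ℍ[ℝ]).re ^ (2 * D) / ZD D

lemma Haar_cont_re : Continuous fun g : S3 => (g : ℍ[ℝ]).re :=
  Quaternion.continuous_re.comp continuous_subtype_val

lemma Haar_re_sq_le (g : S3) : (g : ℍ[ℝ]).re ^ 2 ≤ 1 := by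
  nlinarith [S3.sq_sum g, sq_nonneg (g : ℍ[ℝ]).imI, sq_nonneg (g : ℍ[ℝ]).imJ,
    sq_nonneg (g : ℍ[ℝ]).imK]

lemma Haar_pow_nonneg (D : ℕ) (g : S3) : 0 ≤ (g : ℍ[ℝ]).re ^ (2 * D) := by
  rw [pow_mul]
  positivity

lemma Haar_int_pos {f : S3 → ℝ} (hf : Continuous f) (h0 : ∀ x, 0 ≤ f x) (h1 : f 1 ≠ 0) :
    0 < ∫ x, f x ∂haar :=
  lt_of_le_of_ne (integral_nonneg h0) fun h => h1 (eq_zero_of_integral_eq_zero hf h0 h.symm 1)

lemma ZD_pos (D : ℕ) : 0 < ZD D := by
  exact Haar_int_pos (Haar_cont_re.pow _) (Haar_pow_nonneg D) (by simp)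

lemma sD_nonneg (D : ℕ) (g : S3) : 0 ≤ sD D g := by
  exact div_nonneg (Haar_pow_nonneg D g) (ZD_pos D).le

lemma continuous_sD (D : ℕ) : Continuous (sD D) := by
  exact (Haar_cont_re.pow _).div_const _

lemma integral_sD (D : ℕ) : ∫ g, sD D g ∂haar = 1 := by
  unfold sD
  rw [integral_div]
  exact div_self (ZD_pos D).ne'

lemma sD_conj (D : ℕ) (g h : S3) : sD D (g⁻¹ * h * g) = sD D h := by
  have h1 : ((g⁻¹ * h * g : S3) : ℍ[ℝ]).re = (h : ℍ[ℝ]).re := by
    rw [Metric.unitSphere.coe_mul, Metric.unitSphere.coe_mul, coe_inv_eq_star]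
    have := S3.sq_sum g
    simp
    linear_combination (h : ℍ[ℝ]).re * this
  unfold sD
  rw [h1]

lemma sD_conc {ε : ℝ} (hε : 0 < ε) :
    ∃ D, ∫ g, sD D g * (1 - (g : ℍ[ℝ]).re ^ 2) ∂haar ≤ ε := by
  obtain ⟨δ, hδ0, hδ1, hδε⟩ : ∃ δ : ℝ, 0 < δ ∧ δ < 1 ∧ δ ≤ ε / 2 :=
    ⟨min (1 / 2) (ε / 2), lt_min (by norm_num) (by linarith),
      (min_le_left _ _).trans_lt (by norm_num), min_le_right _ _⟩
  have hcont : Continuous fun g : S3 => max ((g : ℍ[ℝ]).re ^ 2 - (1 - δ / 2)) 0 :=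
    ((Haar_cont_re.pow 2).sub continuous_const).max continuous_const
  set c : ℝ := ∫ g : S3, max ((g : ℍ[ℝ]).re ^ 2 - (1 - δ / 2)) 0 ∂haar with hc
  have hc0 : 0 < c := by
    refine Haar_int_pos hcont (fun x => le_max_right _ _) ?_
    have : (0 : ℝ) < max ((((1 : S3) : ℍ[ℝ]).re) ^ 2 - (1 - δ / 2)) 0 :=
      lt_max_of_lt_left (by simp; linarith)
    exact this.ne'
  have h2 : (0 : ℝ) < 1 - δ / 2 := by linarith
  have hq : (1 - δ) / (1 - δ / 2) < 1 := by rw [div_lt_one h2]; linarith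
  obtain ⟨D, hD⟩ := exists_pow_lt_of_lt_one (show 0 < ε / 2 * c by positivity) hq
  refine ⟨D, ?_⟩
  have hZ : (1 - δ / 2) ^ D * c ≤ ZD D := by
    rw [hc, ← integral_const_mul]
    refine integral_mono ((integrable_of_cont hcont).const_mul _)
      (integrable_of_cont (Haar_cont_re.pow _)) fun g => ?_
    have h3 := Haar_re_sq_le g
    rcases le_total ((g : ℍ[ℝ]).re ^ 2) (1 - δ / 2) with h | h
    · simp only [max_eq_right (sub_nonpos.2 h), mul_zero]
      exact Haar_pow_nonneg D g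
    · simp only [max_eq_left (sub_nonneg.2 h)]
      rw [pow_mul]
      have h4 : (1 - δ / 2) ^ D ≤ ((g : ℍ[ℝ]).re ^ 2) ^ D := pow_le_pow_left₀ h2.le h D
      have h5 : 0 ≤ (1 - δ / 2) ^ D := by positivity
      nlinarith only [h4, h5, hδ0, hδ1, h3]
  have hZ0 := ZD_pos D
  have h6 : (1 - δ) ^ D / ZD D ≤ ε / 2 := by
    rw [div_le_iff₀ hZ0]
    rw [div_pow, div_lt_iff₀ (by positivity)] at hD
    nlinarith
  have h7 : ∫ g, sD D g * (1 - (g : ℍ[ℝ]).re ^ 2) ∂haar ≤ ∫ g, (δ * sD D g + ε / 2) ∂haar := by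
    refine integral_mono (integrable_of_cont ((continuous_sD D).mul
      (continuous_const.sub (Haar_cont_re.pow 2))))
      (integrable_of_cont (((continuous_sD D).const_mul _).add continuous_const)) fun g => ?_
    have h8 := sD_nonneg D g
    rcases le_total ((g : ℍ[ℝ]).re ^ 2) (1 - δ) with h | h
    · have h9 : sD D g ≤ (1 - δ) ^ D / ZD D := by
        unfold sD
        rw [pow_mul]
        exact div_le_div_of_nonneg_right (pow_le_pow_left₀ (sq_nonneg _) h D) hZ0.le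
      have h10 := mul_nonneg h8 (sq_nonneg (g : ℍ[ℝ]).re)
      have h11 := mul_nonneg hδ0.le h8
      simp only
      nlinarith only [h6, h9, h10, h11]
    · simp only
      nlinarith only [hδε, hδ0, hδ1, h8, h]
  rw [integral_add ((integrable_of_cont (continuous_sD D)).const_mul _) (integrable_const _),
    integral_const_mul, integral_sD] at h7
  simp at h7
  linarith

lemma sD_lip (D : ℕ) : ∃ L : ℝ, 0 ≤ L ∧ ∀ x x' y : S3,
    |sD D (x⁻¹ * y) - sD D (x'⁻¹ * y)| ≤ L * ‖(x : ℍ[ℝ]) - x'‖ := by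
  have hZ := ZD_pos D
  refine ⟨(2 * D : ℕ) / ZD D, by positivity, fun x x' y => ?_⟩
  unfold sD
  rw [← sub_div, abs_div, abs_of_pos hZ, div_mul_eq_mul_div]
  refine div_le_div_of_nonneg_right ?_ hZ.le
  have h1 : ∀ g : S3, |(g : ℍ[ℝ]).re| ≤ 1 := fun g => (sq_le_one_iff_abs_le_one _).1 (Haar_re_sq_le g)
  have h2 : |((x⁻¹ * y : S3) : ℍ[ℝ]).re - ((x'⁻¹ * y : S3) : ℍ[ℝ]).re| ≤ ‖(x : ℍ[ℝ]) - x'‖ := by
    rw [re_inv_mul, re_inv_mul, ← inner_sub_left]
    simpa using abs_real_inner_le_norm ((x : ℍ[ℝ]) - x') (y : ℍ[ℝ])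
  refine (abs_pow_sub_pow_le _ _ _).trans ?_
  have h3 : max |((x⁻¹ * y : S3) : ℍ[ℝ]).re| |((x'⁻¹ * y : S3) : ℍ[ℝ]).re| ^ (2 * D - 1) ≤ 1 :=
    pow_le_one₀ (le_max_of_le_left (abs_nonneg _)) (max_le (h1 _) (h1 _))
  calc _ ≤ ‖(x : ℍ[ℝ]) - x'‖ * ((2 * D : ℕ) : ℝ) * 1 := by gcongr
    _ = _ := by ring

end

end Pool.Agent.Work.MP_0ba68b_gt.CX
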