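import Pool.Agent.Work.MP_0ba68b_gt.CX.Base2
import Pool.Agent.Work.MP_0ba68b_gt.CX.Haar

/-!
Smoothing of an admissible kernel in the direction variable.

PLAN.  Gram map `F` (`PSD.exists_map`); `x ↦ F (a, x)` is continuous (`nd_chord`).  Put
`FS (a, x) = ∫ g, sD D g • F (a, x * g) = ∫ z, sD D (x⁻¹ * z) • F (a, z)` and `KS = ⟪FS, FS⟫`
(`= ∫∫ sD g sD g' K (a, x g) (a', x' g')`, `integral_inner`).  `uinv`, `ginv`: `F` itself is invariant
(`nd = 0`).  `rinv`: substitute `g ↦ g₀⁻¹ g g₀` (`integral_conj_haar`, `sD_conj`), then `rinv` of `K`.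
`K - KS` is PSD: `‖∑ cᵢ FS pᵢ‖ ≤ ∫ sD g ‖∑ cᵢ F (pᵢ g)‖ = ‖∑ cᵢ F pᵢ‖` by `rinv`.
Mass: `‖F p - FS p‖ ≤ ∫ sD g ‖F (a,x) - F (a, x g)‖`; more directly
`K p p - KS p p = (1/2) ∫∫ sD g sD g' nd K (p g) (p g')`, and `nd K (a,u) (a,v) ≤ 2 nd (a,u)(a,x) + 2 nd (a,x)(a,v)`,
`nd K (a,x) (a, x g) ≤ ρ² (π²/4) (1 - ‖cin x (x g)‖)`, `‖cin x (x g)‖ ≥ |re (cin ..)| = |re g|`,
`1 - |re g| ≤ 1 - (re g)²`; `sD_conc`.
Mixed difference: the left side is `‖FS (a,x) - FS (a,x') - FS (a',x) + FS (a',x')‖²` (Euler's identity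
with `eq_of_norm` for `KS`), the vector is `∫ z, (sD (x⁻¹ z) - sD (x'⁻¹ z)) • (F (a,z) - F (a',z))`,
`sD_lip`, `‖F (a,z) - F (a',z)‖² = nd K (a,x) (a',x)`.
-/

open scoped Quaternion
open Real

namespace Pool.Agent.Work.MP_0ba68b_gt.CX

section aux

open MeasureTheory
open scoped RealInnerProductSpace

variable {H : Type} [NormedAddCommGroup H] [InnerProductSpace ℝ H] {D : ℕ} {v w v' w' : S3 → H}

/-- The weighted average. -/
noncomputable def BandSav (D : ℕ) (v : S3 → H) : H := ∫ g, sD D g • v g ∂haar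

lemma BandS_int (hv : Continuous v) : Integrable (fun g => sD D g • v g) haar :=
  integrable_of_cont ((continuous_sD D).smul hv)

lemma BandS_norm {C : ℝ} (h : ∀ g, ‖v g‖ ≤ C) : ‖BandSav D v‖ ≤ C := by
  refine (norm_integral_le_of_norm_le (g := fun g => sD D g * C)
    (integrable_of_cont ((continuous_sD D).mul continuous_const)) (ae_of_all _ fun g => ?_)).trans ?_
  · rw [norm_smul, Real.norm_of_nonneg (sD_nonneg D g)]
    exact mul_le_mul_of_nonneg_left (h g) (sD_nonneg D g)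
  · rw [integral_mul_const, integral_sD, one_mul]

lemma BandS_sum {n : ℕ} (c : Fin n → ℝ) {v : Fin n → S3 → H} (hv : ∀ i, Continuous (v i)) :
    ∑ i, c i • BandSav D (v i) = BandSav D fun g => ∑ i, c i • v i g := by
  simp only [BandSav, Finset.smul_sum, ← integral_smul]
  rw [integral_finsetSum _ fun i _ => BandS_int (v := fun g => c i • v i g)
    (continuous_const.smul (hv i))]
  simp only [smul_comm (c _)]

lemma BandS_sq {n : ℕ} (c : Fin n → ℝ) (G : Fin n → H) :
    ‖∑ i, c i • G i‖ ^ 2 = ∑ i, ∑ j, c i * c j * ⟪G i, G j⟫ := by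
  simp only [← real_inner_self_eq_norm_sq, sum_inner, inner_sum, real_inner_smul_left,
    real_inner_smul_right, mul_assoc]
  exact Finset.sum_comm.trans
    (Finset.sum_congr rfl fun i _ => Finset.sum_congr rfl fun j _ => by ring)

lemma BandS_eq {X : Type} {F : X → H} {q q' : X} (h : ∀ p, ⟪F p, F q⟫ = ⟪F p, F q'⟫) :
    F q = F q' := by
  rw [← sub_eq_zero, ← inner_self_eq_zero (𝕜 := ℝ), inner_sub_left, inner_sub_right,
    inner_sub_right, h, h q', sub_self, sub_self, sub_self]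

lemma BandS_left (v : S3 → H) (x : S3) :
    BandSav D (fun g => v (x * g)) = ∫ z, sD D (x⁻¹ * z) • v z ∂haar := by
  rw [← integral_mul_left_eq_self _ x]
  simp only [inv_mul_cancel_left, BandSav]

lemma BandS_conj (v : S3 → H) (g : S3) :
    BandSav D (fun h => v (g * h)) = BandSav D fun h => v (h * g) := by
  rw [BandSav, ← integral_conj_haar _ g]
  simp only [sD_conj, ← mul_assoc, mul_inv_cancel, one_mul, BandSav]

lemma BandS_mix {L C : ℝ} {x x' : S3} (hL : ∀ z, |sD D (x⁻¹ * z) - sD D (x'⁻¹ * z)| ≤ L)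
    (hv : Continuous v) (hw : Continuous w) (h : ∀ z, ‖v z - w z‖ ≤ C) :
    ‖BandSav D (fun g => v (x * g)) - BandSav D (fun g => w (x * g)) -
      (BandSav D (fun g => v (x' * g)) - BandSav D fun g => w (x' * g))‖ ≤ L * C := by
  have hi : ∀ (x : S3) {v : S3 → H}, Continuous v →
      Integrable (fun z => sD D (x⁻¹ * z) • v z) haar := fun x _ hv =>
    integrable_of_cont (((continuous_sD D).comp (continuous_const.mul continuous_id)).smul hv)
  rw [BandS_left, BandS_left, BandS_left, BandS_left, ← integral_sub (hi x hv) (hi x hw),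
    ← integral_sub (hi x' hv) (hi x' hw)]
  simp only [← smul_sub]
  rw [← integral_sub (hi x (v := fun z => v z - w z) (hv.sub hw))
    (hi x' (v := fun z => v z - w z) (hv.sub hw))]
  refine (norm_integral_le_of_norm_le_const (C := L * C) (ae_of_all _ fun z => ?_)).trans ?_
  · rw [← sub_smul, norm_smul]
    exact mul_le_mul (hL z) (h z) (norm_nonneg _) ((abs_nonneg _).trans (hL z))
  · simp

lemma BandS_euler (A B C E : H) (h1 : ⟪C, C⟫ = ⟪E, E⟫) (h2 : ⟪A, C⟫ = ⟪B, E⟫)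
    (h3 : ⟪A, E⟫ = ⟪B, C⟫) :
    ⟪A, A⟫ + ⟪B, B⟫ - 2 * ⟪A, B⟫ + (⟪C, C⟫ + ⟪E, E⟫ - 2 * ⟪C, E⟫) +
      2 * (⟪A, A⟫ + ⟪C, C⟫ - 2 * ⟪A, C⟫) - 2 * (⟪A, A⟫ + ⟪E, E⟫ - 2 * ⟪A, E⟫) =
      ‖A - C - (B - E)‖ ^ 2 := by
  simp only [← real_inner_self_eq_norm_sq, inner_sub_left, inner_sub_right]
  linarith [real_inner_comm A B, real_inner_comm A C, real_inner_comm A E, real_inner_comm B C,
    real_inner_comm B E, real_inner_comm C E]

lemma BandS_re (x g : S3) : (g : ℍ[ℝ]).re ^ 2 ≤ ‖cin x (x * g : S3)‖ := by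
  have h1 : (g : ℍ[ℝ]).re = (cin x (x * g : S3)).re := by
    have := re_inv_mul x (x * g)
    rwa [inv_mul_cancel_left] at this
  have h2 := norm_cin_sq x (x * g : S3)
  have h3 := norm_cin_le x (x * g)
  rw [h1]
  nlinarith [norm_nonneg (cin x (x * g : S3)), sq_nonneg (cin x (x * g : S3)).im]

variable [CompleteSpace H]

lemma BandS_inner (hv : Continuous v) (c : H) :
    ⟪c, BandSav D v⟫ = ∫ g, sD D g * ⟪c, v g⟫ ∂haar := by
  have := (innerSL ℝ c).integral_comp_comm (BandS_int (D := D) hv)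
  simp only [innerSL_apply_apply, real_inner_smul_right] at this
  exact this.symm

lemma BandS_congr (hv : Continuous v) (hw : Continuous w) (hv' : Continuous v')
    (hw' : Continuous w') (h : ∀ g g', ⟪v g, w g'⟫ = ⟪v' g, w' g'⟫) :
    ⟪BandSav D v, BandSav D w⟫ = ⟪BandSav D v', BandSav D w'⟫ := by
  rw [BandS_inner hw, BandS_inner hw']
  congr 1
  funext g'
  rw [real_inner_comm, BandS_inner hv, real_inner_comm, BandS_inner hv']
  simp only [real_inner_comm (v _), real_inner_comm (v' _), h]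

lemma BandS_mass (hv : Continuous v) (c : H) {f : S3 → ℝ} (hf : Continuous f)
    (h : ∀ g, 2 * ⟪c, c⟫ - 2 * ⟪c, v g⟫ ≤ f g) :
    ⟪c, c⟫ - ⟪BandSav D v, BandSav D v⟫ ≤ ∫ g, sD D g * f g ∂haar := by
  have h1 := real_inner_self_nonneg (x := c - BandSav D v)
  rw [inner_sub_left, inner_sub_right, inner_sub_right] at h1
  have i1 : Integrable (fun g => sD D g * (2 * ⟪c, c⟫)) haar :=
    integrable_of_cont ((continuous_sD D).mul continuous_const)
  have i2 : Integrable (fun g => 2 * (sD D g * ⟪c, v g⟫)) haar :=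
    (integrable_of_cont ((continuous_sD D).mul (continuous_const.inner hv))).const_mul 2
  have h2 := integral_mono (i1.sub i2) (integrable_of_cont ((continuous_sD D).mul hf)) fun g => by
    have := mul_le_mul_of_nonneg_left (h g) (sD_nonneg D g)
    simp only [Pi.sub_apply, Pi.mul_apply]
    linarith
  simp only [Pi.sub_apply, Pi.mul_apply] at h2
  rw [integral_sub i1 i2, integral_mul_const, integral_sD, integral_const_mul,
    ← BandS_inner hv] at h2
  linarith [real_inner_comm c (BandSav D v)]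

end aux

theorem smoothK {m : ℝ} (hm : 0 < m) : ∃ L : ℝ, 0 ≤ L ∧ ∀ (I : Set ℝ) (y b : ℝ)
    (lo K : Pt I → Pt I → ℝ), 0 ≤ b → b ≤ 1 → AdmL y b lo K → ∃ KS : Pt I → Pt I → ℝ,
      BaseK KS ∧ BaseK (fun p p' => K p p' - KS p p') ∧
      (∀ p, K p p - KS p p ≤ m * rho p.1 ^ 2) ∧
      ∀ a a' x x', nd KS (a, x) (a, x') + nd KS (a', x) (a', x') + 2 * nd KS (a, x) (a', x) -
        2 * nd KS (a, x) (a', x') ≤ L * ‖(x : ℍ[ℝ]) - x'‖ ^ 2 * nd K (a, x) (a', x) := by
  obtain ⟨D, hD⟩ := sD_conc (ε := m / 4) (by positivity)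
  obtain ⟨L, hL0, hL⟩ := sD_lip D
  refine ⟨L ^ 2, sq_nonneg L, fun I y b lo K hb hb1 h => ?_⟩
  obtain ⟨H, _, _, _, F, hF⟩ := h.psd.exists_map
  have hc : ∀ a, Continuous fun x : S3 => F (a, x) := fun a => by
    refine continuous_iff_continuousAt.2 fun x₀ => tendsto_iff_norm_sub_tendsto_zero.2 ?_
    have h1 : Continuous fun x : S3 => √(nd K (a, x) (a, x₀)) :=
      ((((h.cont_x hb a a).comp (continuous_id.prodMk continuous_id)).add continuous_const).sub
        (continuous_const.mul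
          ((h.cont_x hb a a).comp (continuous_id.prodMk continuous_const)))).sqrt
    have h2 := h1.tendsto x₀
    simpa only [nd_of_map hF, sub_self, norm_zero, sqrt_sq (norm_nonneg _), sqrt_sq le_rfl] using h2
  have hc1 : ∀ a (x : S3), Continuous fun g : S3 => F (a, x * g) := fun a x =>
    (hc a).comp (continuous_const.mul continuous_id)
  have hc2 : ∀ a (x g : S3), Continuous fun u : S3 => F (a, x * (u * g)) := fun a x g =>
    (hc1 a x).comp (continuous_id.mul continuous_const)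
  obtain ⟨S, hS⟩ : ∃ S : Pt I → H, ∀ p, S p = BandSav D fun g => F (p.1, p.2 * g) :=
    ⟨_, fun _ => rfl⟩
  have hB : BaseK fun p p' => inner ℝ (S p) (S p') := by
    refine ⟨⟨PSD.of_map S, fun a a' x x' g => ?_, fun p a' x' φ => ?_⟩, fun k p p' => ?_⟩
    · simp only [hS, mul_assoc]
      rw [BandS_conj (fun u => F (a, x * u)), BandS_conj (fun u => F (a', x' * u))]
      refine BandS_congr (hc2 a x g) (hc2 a' x' g) (hc1 a x) (hc1 a' x') fun u u' => ?_
      rw [hF, hF, ← mul_assoc, ← mul_assoc, h.rinv]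
    · have e : ∀ z, F (a', ec φ * z) = F (a', z) := fun z =>
        BandS_eq fun q => by rw [hF, hF, h.uinv]
      simp only [hS, mul_assoc, e]
    · have e : ∀ z, F (shift p'.1 k.1 k.2, jj ^ (k.1 + k.2) * z) = F (p'.1, z) := fun z =>
        BandS_eq fun q => by rw [hF, hF]; exact h.ginv k q (p'.1, z)
      simp only [hS, gam, mul_assoc, e]
  refine ⟨_, hB, ⟨⟨⟨fun p p' => ?_, fun n p c => ?_⟩, fun a a' x x' g => ?_,
    fun p a' x' φ => ?_⟩, fun k p p' => ?_⟩, fun p => ?_, fun a a' x x' => ?_⟩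
  · exact congrArg₂ (· - ·) (h.psd.symm p p') (real_inner_comm _ _)
  · have h1 : ‖∑ i, c i • S (p i)‖ ≤ ‖∑ i, c i • F (p i)‖ := by
      simp only [hS]
      rw [BandS_sum c fun i => hc1 (p i).1 (p i).2]
      refine BandS_norm fun g => le_of_eq ((sq_eq_sq₀ (norm_nonneg _) (norm_nonneg _)).1 ?_)
      simp only [BandS_sq, hF, h.rinv]
    have h2 := pow_le_pow_left₀ (norm_nonneg _) h1 2
    simp only [BandS_sq, hF] at h2
    simp only [mul_sub, Finset.sum_sub_distrib]
    linarith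
  · exact congrArg₂ (· - ·) (h.rinv ..) (hB.rinv ..)
  · exact congrArg₂ (· - ·) (h.uinv ..) (hB.uinv ..)
  · exact congrArg₂ (· - ·) (h.ginv ..) (hB.ginv ..)
  · obtain ⟨a, x⟩ := p
    have h1 := BandS_mass (D := D) (hc1 a x) (F (a, x))
      (f := fun g : S3 => 4 * rho a ^ 2 * (1 - (g : ℍ[ℝ]).re ^ 2))
      (continuous_const.mul (continuous_const.sub
        ((Quaternion.continuous_re.comp continuous_subtype_val).pow 2))) fun g => by
        have a1 := h.nd_chord hb a x (x * g)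
        have a2 := BandS_re x g
        have a3 : 0 ≤ 1 - ‖cin x (x * g : S3)‖ := sub_nonneg.2 (norm_cin_le x (x * g))
        have a4 : π ^ 2 / 4 ≤ 4 := by nlinarith only [pi_le_four, pi_pos]
        have a5 : b * rho a ^ 2 * (π ^ 2 / 4 * (1 - ‖cin x (x * g : S3)‖)) ≤
            1 * rho a ^ 2 * (4 * (1 - (g : ℍ[ℝ]).re ^ 2)) := by gcongr
        rw [nd, h.rinv] at a1
        rw [hF, hF]
        linarith
    simp only [mul_left_comm (sD D _)] at h1
    rw [MeasureTheory.integral_const_mul, hF, ← hS (a, x)] at h1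
    have h2 := mul_le_mul_of_nonneg_left hD (show 0 ≤ 4 * rho a ^ 2 by positivity)
    linarith
  · have h1 := BandS_mix (hL x x') (hc a) (hc a') (C := ‖F (a, x) - F (a', x)‖) fun z =>
      le_of_eq ((sq_eq_sq₀ (norm_nonneg _) (norm_nonneg _)).1 (by
        rw [← nd_of_map hF, ← nd_of_map hF]
        exact h.toPreK.nd_eq_of_norm (by rw [cin_self, cin_self]) a a'))
    rw [← hS (a, x), ← hS (a', x), ← hS (a, x'), ← hS (a', x')] at h1
    have h2 := pow_le_pow_left₀ (norm_nonneg _) h1 2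
    rw [mul_pow, mul_pow, ← nd_of_map hF] at h2
    exact (BandS_euler _ _ _ _ (hB.toPreK.diag_eq a' a' x x') (hB.toPreK.diag_eq a a' x x')
      (hB.toPreK.eq_of_norm (norm_cin_comm _ _) a a')).trans_le h2

end Pool.Agent.Work.MP_0ba68b_gt.CX
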