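import Mathlib.MeasureTheory.Integral.IntervalIntegral.Periodic
import Mathlib.MeasureTheory.Integral.DominatedConvergence
import Pool.Agent.Work.MP_0ba68b_gt.CX.Base1

/-!
Symmetrisation under the twisted lattice action, continuity, averaging over translations.

PLAN.  `symK`: put `γ = gam (1,0)`.  From `hd`, `he`, symmetry: `K (γ p) p' = K p (γ p')`
(apply `hd` with `(1,0)` and `he` with `(2,0)` in the first variable).  Hence
`(K p p' ± K p (γ p')) / 2 = (K p p' ± K p (γ p') ± K (γ p) p' + K (γ p) (γ p')) / 4` is the Gram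
kernel of `(F p ± F (γ p)) / 2` (`PSD.exists_map`, `PSD.of_map`); multiply the odd part by `uu`
(`PSD.mul_uu`).  For odd `m`: `gam m = gam (m - (1,0)) ∘ γ` (`gam_add`), `uu x (j^n x') = (-1)^n uu`.
Continuity: `|K p q - K p' q'| ≤ √nd p p' √K q q + √K p' p' √nd q q'` (Gram form), `nd_chord`,
`1 - ‖cin x x'‖ ≤ ‖x - x'‖² / 2` (`norm_sub_sq_cin`), `up0`.
`avg`: `K' p p' = ∫ s in 0..1, ∫ t in 0..1, K (shift a s t, x) (shift a' s t, x')`; the integrand is
continuous and `1`-periodic in `s` and `t` (`ginv`, `ginv_left`, `eq_of_norm`, `cin_jj_jj`);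
use `Function.Periodic.intervalIntegral_add_eq`, linearity, monotonicity, `minimal_shift`.
-/

open scoped Quaternion
open Real

namespace Pool.Agent.Work.MP_0ba68b_gt.CX

noncomputable section

variable {I : Set ℝ} {K : Pt I → Pt I → ℝ} {y b : ℝ} {lo : Pt I → Pt I → ℝ}

/-- Symmetrisation: the odd part is multiplied by `uu`. -/
def symK (K : Pt I → Pt I → ℝ) (p p' : Pt I) : ℝ :=
  (K p p' + K p (gam (1, 0) p')) / 2 + (K p p' - K p (gam (1, 0) p')) / 2 * uu p.2 p'.2

lemma symK_diag (K : Pt I → Pt I → ℝ) (a a' : Ax I) (x : S3) :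
    symK K (a, x) (a', x) = K (a, x) (a', x) := by
  simp only [symK, uu_self]
  ring

lemma symK_nd (K : Pt I → Pt I → ℝ) (p p' : Pt I) :
    nd (symK K) p p' = nd K p p' + (K p p' - K p (gam (1, 0) p')) * (1 - uu p.2 p'.2) := by
  obtain ⟨a, x⟩ := p
  obtain ⟨a', x'⟩ := p'
  simp only [nd, symK_diag]
  simp only [symK]
  ring

theorem symK_base (h : PreK K) (hd : ∀ m p p', K (gam m p) (gam m p') = K p p')
    (he : ∀ m : ℤ × ℤ, Even (m.1 + m.2) → ∀ p p', K p (gam m p') = K p p') :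
    BaseK (symK K) := by
  have hgg : ∀ p p', K p (gam (1, 0) (gam (1, 0) p')) = K p p' := fun p p' => by
    rw [gam_add]
    exact he _ ⟨1, by simp⟩ p p'
  have hsw : ∀ p p', K (gam (1, 0) p) p' = K p (gam (1, 0) p') := fun p p' => by
    rw [← hgg (gam (1, 0) p) p', hd]
  obtain ⟨H, _, _, _, F, hF⟩ := h.psd.exists_map
  have key : ∀ c : ℝ, c * c = 1 → PSD fun p p' => (K p p' + c * K p (gam (1, 0) p')) / 2 :=
    fun c hc => (PSD.of_map fun p => (1 / 2 : ℝ) • (F p + c • F (gam (1, 0) p))).congr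
      fun p p' => by
        simp only [real_inner_smul_left, real_inner_smul_right, inner_add_left, inner_add_right,
          hF, hd, hsw]
        linear_combination (-K p p' / 4) * hc
  refine ⟨⟨((key 1 (by ring)).add ((key (-1) (by ring)).mul_uu Prod.snd)).congr fun p p' => ?_,
    fun a a' x x' g => ?_, fun p a' x' φ => ?_⟩, fun m p p' => ?_⟩
  · simp only [symK]
    ring
  · simp only [symK, gam, ← mul_assoc, h.rinv, uu_mul_right]
  · have e : jj ^ ((1 : ℤ) + 0) * (ec φ * x') = ec (-φ) * (jj ^ ((1 : ℤ) + 0) * x') := by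
      rw [add_zero, zpow_one, ← mul_assoc, jj_mul_ec, mul_assoc]
    simp only [symK, gam, e, h.uinv, uu_ec]
  · rcases Int.even_or_odd (m.1 + m.2) with hm | hm
    · obtain ⟨φ, h1, -⟩ := jj_zpow_even hm
      have e1 : uu p.2 (gam m p').2 = uu p.2 p'.2 := by
        simp only [gam]
        rw [h1, uu_ec]
      have e2 : K p (gam (1, 0) (gam m p')) = K p (gam (1, 0) p') := by
        rw [gam_add, add_comm, ← gam_add, he m hm]
      rw [symK, symK, e1, e2, he m hm]
    · obtain ⟨φ, h1, -⟩ := jj_zpow_odd hm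
      obtain ⟨k, hk⟩ := hm
      have e1 : uu p.2 (gam m p').2 = -uu p.2 p'.2 := by
        simp only [gam]
        rw [h1, mul_assoc, uu_ec, uu_jj]
      have e2 : K p (gam (1, 0) (gam m p')) = K p p' := by
        rw [gam_add]
        exact he _ ⟨k + 1, by simp only [Prod.fst_add, Prod.snd_add]; omega⟩ p p'
      have e3 : K p (gam m p') = K p (gam (1, 0) p') := by
        rw [← he (m - (1, 0)) ⟨k, by simp only [Prod.fst_sub, Prod.snd_sub]; omega⟩ p
          (gam (1, 0) p'), gam_add, sub_add_cancel]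
      rw [symK, symK, e1, e2, e3]
      ring

lemma symK_odd_abs (h : PreK K) (hd : ∀ m p p', K (gam m p) (gam m p') = K p p') (p p' : Pt I) :
    |K p p' - K p (gam (1, 0) p')| ≤ 2 * (√(K p p) * √(K p' p')) := by
  have h1 := h.psd.abs_le p p'
  have h2 := h.psd.abs_le p (gam (1, 0) p')
  rw [hd] at h2
  linarith [abs_sub (K p p') (K p (gam (1, 0) p'))]

/-- Flattening: forget the direction, keep the twist. -/
theorem BaseK.flatten (h : BaseK K) : ∃ L : Pt I → Pt I → ℝ, BaseK L ∧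
    (∀ a a' x, L (a, x) (a', x) = K (a, x) (a', x)) ∧
    ∀ a a' x x', |nd L (a, x) (a', x') - nd K (a, x) (a', x)| ≤
      2 * (√(K (a, x) (a, x)) * √(K (a', x) (a', x))) * (1 - uu x x') := by
  have h0 : PreK fun p p' : Pt I => K (p.1, 1) (p'.1, 1) :=
    ⟨h.psd.comp fun p : Pt I => (p.1, 1), fun _ _ _ _ _ => rfl, fun _ _ _ _ => rfl⟩
  have hd : ∀ (m : ℤ × ℤ) (p p' : Pt I), K ((gam m p).1, 1) ((gam m p').1, 1) =
      K (p.1, 1) (p'.1, 1) := fun m p p' => by
    rw [← h.ginv m (p.1, 1) (p'.1, 1), ← h.ginv_left m (p.1, 1)]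
    exact h.toPreK.diag_eq _ _ _ _
  have he : ∀ m : ℤ × ℤ, Even (m.1 + m.2) → ∀ p p' : Pt I, K (p.1, 1) ((gam m p').1, 1) =
      K (p.1, 1) (p'.1, 1) := fun m hm p p' => by
    obtain ⟨φ, h1, -⟩ := jj_zpow_even hm
    rw [← h.ginv m (p.1, 1) (p'.1, 1)]
    simp only [gam]
    rw [h1, h.uinv]
  refine ⟨_, symK_base h0 hd he, fun a a' x => ?_, fun a a' x x' => ?_⟩
  · rw [symK_diag]
    exact h.toPreK.diag_eq _ _ _ _
  · have h1 := symK_odd_abs h0 hd (a, x) (a', x')
    have h2 : 0 ≤ 1 - uu x x' := sub_nonneg.2 (uu_le x x')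
    have h3 : nd (fun p p' : Pt I => K (p.1, 1) (p'.1, 1)) (a, x) (a', x') =
        nd K (a, x) (a', x) := by
      simp only [nd]
      rw [h.toPreK.diag_eq a a 1 x, h.toPreK.diag_eq a' a' 1 x, h.toPreK.diag_eq a a' 1 x]
    rw [symK_nd, h3, add_sub_cancel_left, abs_mul, abs_of_nonneg h2, h.toPreK.diag_eq a a x 1,
      h.toPreK.diag_eq a' a' x 1]
    exact mul_le_mul_of_nonneg_right h1 h2

lemma Base2_cont {X Z : Type} [TopologicalSpace Z] {K : X → X → ℝ} (h : PSD K) (T T' : Z → X)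
    (hT : ∀ z0, ∃ g : Z → ℝ, Continuous g ∧ g z0 = 0 ∧ ∀ z, nd K (T z) (T z0) ≤ g z)
    (hT' : ∀ z0, ∃ g : Z → ℝ, Continuous g ∧ g z0 = 0 ∧ ∀ z, nd K (T' z) (T' z0) ≤ g z) :
    Continuous fun z => K (T z) (T' z) := by
  obtain ⟨H, _, _, _, F, hF⟩ := h.exists_map
  have key : ∀ T : Z → X,
      (∀ z0, ∃ g : Z → ℝ, Continuous g ∧ g z0 = 0 ∧ ∀ z, nd K (T z) (T z0) ≤ g z) →
      Continuous fun z => F (T z) := fun T hT => by
    refine continuous_iff_continuousAt.2 fun z0 => ?_
    obtain ⟨g, hg, hg0, hle⟩ := hT z0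
    refine tendsto_iff_norm_sub_tendsto_zero.2 (squeeze_zero (fun _ => norm_nonneg _)
      (fun z => ?_) (hg.sqrt.tendsto' z0 0 (by simp [hg0])))
    exact Real.le_sqrt_of_sq_le (nd_of_map hF _ _ ▸ hle z)
  simp only [← hF]
  exact (key T hT).inner (key T' hT')

lemma AdmL.cont_x (h : AdmL y b lo K) (hb : 0 ≤ b) (a a' : Ax I) :
    Continuous fun z : S3 × S3 => K (a, z.1) (a', z.2) := by
  have key : ∀ (a : Ax I) (f : S3 × S3 → S3), Continuous f → ∀ z0, ∃ g : S3 × S3 → ℝ,
      Continuous g ∧ g z0 = 0 ∧ ∀ z, nd K (a, f z) (a, f z0) ≤ g z := fun a f hf z0 => by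
    refine ⟨fun z => b * rho a ^ 2 * (π ^ 2 / 4 * (‖(f z : ℍ[ℝ]) - f z0‖ ^ 2 / 2)), by fun_prop,
      by simp, fun z => (h.nd_chord hb a _ _).trans ?_⟩
    have h1 := norm_sub_sq_cin (f z) (f z0)
    rw [S3.norm, S3.norm] at h1
    have h2 := Complex.re_le_norm (cin (f z) (f z0))
    refine mul_le_mul_of_nonneg_left (mul_le_mul_of_nonneg_left (by linarith) (by positivity))
      (by positivity)
  exact Base2_cont h.psd (fun z : S3 × S3 => (a, z.1)) (fun z => (a', z.2))
    (key a _ continuous_fst) (key a' _ continuous_snd)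

lemma AdmL.cont_shift (h : AdmL y b lo K) (a a' : Ax I) (x x' : S3) :
    Continuous fun z : ℝ × ℝ => K (shift a z.1 z.2, x) (shift a' z.1 z.2, x') := by
  have key : ∀ (a : Ax I) (x : S3) (z0 : ℝ × ℝ), ∃ g : ℝ × ℝ → ℝ, Continuous g ∧ g z0 = 0 ∧
      ∀ z, nd K (shift a z.1 z.2, x) (shift a z0.1 z0.2, x) ≤ g z := fun a x z0 =>
    ⟨fun z => y ^ 2 * (z.1 - z0.1) ^ 2 + (z.2 - z0.2) ^ 2, by fun_prop, by simp,
      fun z => (h.up0 _ _ _).trans_eq (by simp [Dsq, sg, shift, rho])⟩
  exact Base2_cont h.psd (fun z : ℝ × ℝ => (shift a z.1 z.2, x)) (fun z => (shift a' z.1 z.2, x'))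
    (key a x) (key a' x')

lemma Base2_shift (h : AdmL y b lo K)
    (hlo : ∀ s t a a' x x', lo (shift a s t, x) (shift a' s t, x') = lo (a, x) (a', x'))
    (s t : ℝ) : AdmL y b lo fun p p' => K (shift p.1 s t, p.2) (shift p'.1 s t, p'.2) := by
  refine ⟨⟨⟨h.psd.comp fun p : Pt I => (shift p.1 s t, p.2), fun a a' x x' g => h.rinv _ _ _ _ _,
    fun p a' x' φ => h.uinv _ _ _ _⟩, fun m p p' => ?_⟩, fun a a' x => ?_,
    fun a τ hτ => h.upj (shift a s t) τ hτ, fun p p' hm => ?_⟩
  · rw [← h.ginv m _ (shift p'.1 s t, p'.2)]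
    simp only [gam, shift_shift, add_comm]
  · exact (h.up0 (shift a s t) (shift a' s t) x).trans_eq (by simp [Dsq, sg, shift, rho])
  · exact (hlo s t p.1 p'.1 p.2 p'.2).symm.trans_le (h.low _ _ (minimal_shift hm s t))

lemma Base2_int {G : ℝ → Pt I → Pt I → ℝ} (h : ∀ s, AdmL y b lo (G s))
    (hc : ∀ p p', Continuous fun s => G s p p') :
    AdmL y b lo fun p p' => ∫ s in (0 : ℝ)..1, G s p p' := by
  have hi : ∀ p p', IntervalIntegrable (fun s => G s p p') MeasureTheory.volume 0 1 :=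
    fun p p' => (hc p p').intervalIntegrable _ _
  have hn : ∀ p p', nd (fun p p' => ∫ s in (0 : ℝ)..1, G s p p') p p' =
      ∫ s in (0 : ℝ)..1, nd (G s) p p' := fun p p' => by
    simp only [nd]
    rw [intervalIntegral.integral_sub ((hi p p).add (hi p' p')) ((hi p p').const_mul 2),
      intervalIntegral.integral_add (hi p p) (hi p' p'), intervalIntegral.integral_const_mul]
  have hni : ∀ p p', IntervalIntegrable (fun s => nd (G s) p p') MeasureTheory.volume 0 1 :=
    fun p p' => ((hi p p).add (hi p' p')).sub ((hi p p').const_mul 2)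
  have hup : ∀ p p' c, (∀ s, nd (G s) p p' ≤ c) →
      nd (fun p p' => ∫ s in (0 : ℝ)..1, G s p p') p p' ≤ c := fun p p' c k => by
    rw [hn]
    simpa using intervalIntegral.integral_mono_on zero_le_one (hni p p')
      (intervalIntegrable_const (c := c)) fun s _ => k s
  refine ⟨⟨⟨⟨fun p p' => ?_, fun n p c => ?_⟩, fun a a' x x' g => ?_, fun p a' x' φ => ?_⟩,
    fun m p p' => ?_⟩, fun a a' x => hup _ _ _ fun s => (h s).up0 a a' x,
    fun a τ hτ => hup _ _ _ fun s => (h s).upj a τ hτ, fun p p' hm => ?_⟩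
  · simp only [fun s => (h s).psd.symm p p']
  · simp only [← intervalIntegral.integral_const_mul]
    rw [Finset.sum_congr rfl fun i _ => (intervalIntegral.integral_finsetSum
      fun j _ => (hi (p i) (p j)).const_mul (c i * c j)).symm, ← intervalIntegral.integral_finsetSum]
    · exact intervalIntegral.integral_nonneg zero_le_one fun s _ => (h s).psd.2 n p c
    · exact fun i _ => Continuous.intervalIntegrable
        (continuous_finsetSum _ fun j _ => continuous_const.mul (hc _ _)) _ _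
  · simp only [fun s => (h s).rinv a a' x x' g]
  · simp only [fun s => (h s).uinv p a' x' φ]
  · simp only [fun s => (h s).ginv m p p']
  · rw [hn]
    simpa using intervalIntegral.integral_mono_on zero_le_one
      (intervalIntegrable_const (c := lo p p')) (hni p p') fun s _ => (h s).low p p' hm

lemma Base2_avg (h : AdmL y b lo K)
    (hlo : ∀ s t a a' x x', lo (shift a s t, x) (shift a' s t, x') = lo (a, x) (a', x'))
    (m : ℤ × ℤ) (hm : m.1 + m.2 = 1) : ∃ K' : Pt I → Pt I → ℝ, AdmL y b lo K' ∧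
      (∀ (r : ℝ) a a' x x', K' (shift a (r * m.1) (r * m.2), x) (shift a' (r * m.1) (r * m.2), x') =
        K' (a, x) (a', x')) ∧
      ∀ s t, (∀ a a' x x', K (shift a s t, x) (shift a' s t, x') = K (a, x) (a', x')) →
        ∀ a a' x x', K' (shift a s t, x) (shift a' s t, x') = K' (a, x) (a', x') := by
  have hp : ∀ a a' x x', K (shift a m.1 m.2, x) (shift a' m.1 m.2, x') = K (a, x) (a', x') :=
    fun a a' x x' => by
      rw [← h.ginv m (a, x) (a', x'), ← h.toBaseK.ginv_left m (a, x)]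
      refine h.toPreK.eq_of_norm ?_ _ _
      simp only [hm, zpow_one, Metric.unitSphere.coe_mul, cin_jj_jj, Complex.norm_conj]
  refine ⟨_, Base2_int (fun s => Base2_shift h hlo (s * m.1) (s * m.2)) fun p p' =>
    (h.cont_shift p.1 p'.1 p.2 p'.2).comp (f := fun s : ℝ => (s * m.1, s * m.2)) (by fun_prop),
    fun r a a' x x' => ?_, fun s t k a a' x x' => ?_⟩
  · have per : Function.Periodic (fun s : ℝ =>
        K (shift a (s * m.1) (s * m.2), x) (shift a' (s * m.1) (s * m.2), x')) 1 := fun s => by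
      simp only [add_mul, one_mul, ← shift_shift, hp]
    have := per.intervalIntegral_add_eq r 0
    rw [zero_add] at this
    rw [← this]
    simp only [shift_shift, ← add_mul]
    have e := intervalIntegral.integral_comp_add_left (a := 0) (b := 1) (fun s : ℝ =>
      K (shift a (s * m.1) (s * m.2), x) (shift a' (s * m.1) (s * m.2), x')) r
    rw [add_zero] at e
    exact e
  · refine intervalIntegral.integral_congr fun r _ => ?_
    have := k (shift a (r * m.1) (r * m.2)) (shift a' (r * m.1) (r * m.2)) x x'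
    simp only [shift_shift] at this ⊢
    rw [← this, add_comm s, add_comm t]

theorem AdmL.avg (h : AdmL y b lo K)
    (hlo : ∀ s t a a' x x', lo (shift a s t, x) (shift a' s t, x') = lo (a, x) (a', x')) :
    ∃ K' : Pt I → Pt I → ℝ, AdmL y b lo K' ∧
      ∀ s t a a' x x', K' (shift a s t, x) (shift a' s t, x') = K' (a, x) (a', x') := by
  obtain ⟨K1, h1, e1, -⟩ := Base2_avg h hlo (1, 0) (by simp)
  obtain ⟨K2, h2, e2, e3⟩ := Base2_avg h1 hlo (0, 1) (by simp)
  refine ⟨K2, h2, fun s t a a' x x' => ?_⟩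
  have k1 := e3 s 0 (fun a a' x x' => by simpa using e1 s a a' x x') a a' x x'
  have k2 := e2 t (shift a s 0) (shift a' s 0) x x'
  rw [k1] at k2
  simpa [shift_shift] using k2

end

end Pool.Agent.Work.MP_0ba68b_gt.CX
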