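import Mathlib.Analysis.SpecialFunctions.Trigonometric.Bounds
import Pool.Agent.Work.MP_0ba68b_gt.CX.GDefs

/-!
The partition of unity in the radius.

PLAN.  `c 0 = r0`, `c (n+1) = c n (1 + nu (c n))`: strictly increasing, tends to infinity (if `c n ≤ B` for all `n` then
`c n ≥ r0 (1 + nu B) ^ n`), `c (n+1) ≤ 1.1 c n`, `c (i+4) ≤ c i (1 + nu (c i)) ^ 4` as `nu` is antitone.
Ramp `g n r = max 0 (min 1 ((r - c n)/(c (n+1) - c n)))`; `w 0 r = cos (π/2 g 2 r)`,
`w (i+1) r = sin (π/2 g (i+2) r) * cos (π/2 g (i+3) r)`.  For `r ∈ [c n, c (n+1))`: `g m r = 1` for `m < n`, `0` for `m > n`.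
So `w i r ≠ 0` gives `r < c (i+3)` and (`i = 0` or `c (i+1) < r`).
`nf`: if `r < c 2` only `w 0` is active.  Else `r ∈ [c (n+1), c (n+2))`, `n ≥ 1`.  If `c n ≤ r'`: first alternative.  If `r' < c n`:
`r - r' ≥ c (n+1) - c n = c n nu (c n)`, `gap r = nu (4r) r ≤ nu (c n) 1.21 c n`; for `M = max r' r0 ≤ c n`: if `c n ≤ 4M` then
`gap r' ≤ nu (c n) c n`, else `r - r' ≥ 3 M`.
`lip`: far case from `|Δw| ≤ 1` (`0 ≤ w ≤ 1`); near case: only `g n`, `g (n+1)` vary, each is Lipschitz with constant
`1/(c m nu (c m)) ≤ 1.21/gap r`, `|Δw| ≤ (π/2) (|Δg (i+2)| + |Δg (i+3)|) ≤ π 1.21 (r - r')/gap r`.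
-/

open Real

namespace Pool.Agent.Work.MP_0ba68b_gt.CX

/-- The break points. -/
noncomputable def Part_c (r0 : ℝ) (nu : ℝ → ℝ) : ℕ → ℝ
  | 0 => r0
  | n + 1 => Part_c r0 nu n * (1 + nu (Part_c r0 nu n))

/-- The ramps. -/
noncomputable def Part_g (c : ℕ → ℝ) (n : ℕ) (r : ℝ) : ℝ :=
  max 0 (min 1 ((r - c n) / (c (n + 1) - c n)))

/-- The weights. -/
noncomputable def Part_w (c : ℕ → ℝ) (i : ℕ) (r : ℝ) : ℝ :=
  (if i = 0 then 1 else sin (π / 2 * Part_g c (i + 1) r)) * cos (π / 2 * Part_g c (i + 2) r)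

theorem Part_g0 {c : ℕ → ℝ} (hc : StrictMono c) {n : ℕ} {r : ℝ} (h : r ≤ c n) :
    Part_g c n r = 0 :=
  max_eq_left ((min_le_right _ _).trans (div_nonpos_of_nonpos_of_nonneg (sub_nonpos.2 h)
    (sub_nonneg.2 (hc n.lt_succ_self).le)))

theorem Part_g1 {c : ℕ → ℝ} (hc : StrictMono c) {n : ℕ} {r : ℝ} (h : c (n + 1) ≤ r) :
    Part_g c n r = 1 := by
  unfold Part_g
  rw [min_eq_left ((one_le_div (sub_pos.2 (hc n.lt_succ_self))).2 (by linarith)),
    max_eq_right zero_le_one]

theorem Part_glip {c : ℕ → ℝ} (hc : StrictMono c) (n : ℕ) {r r' : ℝ} (h : r' ≤ r) :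
    |Part_g c n r - Part_g c n r'| * (c (n + 1) - c n) ≤ r - r' := by
  have hp : 0 < c (n + 1) - c n := sub_pos.2 (hc n.lt_succ_self)
  rw [← le_div_iff₀ hp]
  have h0 : 0 ≤ (r - r') / (c (n + 1) - c n) := div_nonneg (sub_nonneg.2 h) hp.le
  refine (abs_max_sub_max_le_max _ _ _ _).trans (max_le (by simpa using h0)
    ((abs_min_sub_min_le_max _ _ _ _).trans (max_le (by simpa using h0) ?_)))
  rw [← sub_div, sub_sub_sub_cancel_right, abs_of_nonneg h0]

theorem Part_supp {c : ℕ → ℝ} (hc : StrictMono c) {i : ℕ} {r : ℝ} (h : Part_w c i r ≠ 0) :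
    r < c (i + 3) ∧ (i = 0 ∨ c (i + 1) < r) := by
  constructor
  · by_contra h'
    exact h (by rw [Part_w, Part_g1 hc (not_lt.1 h'), mul_one, cos_pi_div_two, mul_zero])
  · by_contra h'
    rw [not_or, not_lt] at h'
    exact h (by rw [Part_w, if_neg h'.1, Part_g0 hc h'.2, mul_zero, sin_zero, zero_mul])

theorem Part_abs (c : ℕ → ℝ) (i : ℕ) (r : ℝ) : |Part_w c i r| ≤ 1 := by
  unfold Part_w
  rw [abs_mul]
  refine mul_le_one₀ ?_ (abs_nonneg _) (abs_cos_le_one _)
  split_ifs
  · simp
  · exact abs_sin_le_one _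

theorem Part_wlip (c : ℕ → ℝ) (i : ℕ) (r r' : ℝ) {G D : ℝ} (hG : 0 ≤ G) (hD : 0 ≤ D)
    (h : ∀ m, 2 ≤ m → |Part_g c m r - Part_g c m r'| * G ≤ D) :
    |Part_w c i r - Part_w c i r'| * G ≤ 4 * D := by
  have hpi : |π / 2| ≤ 2 := by
    rw [abs_of_pos (by positivity)]
    linarith [pi_le_four]
  have e : ∀ m, 2 ≤ m → |π / 2 * Part_g c m r - π / 2 * Part_g c m r'| * G ≤ 2 * D := fun m hm => by
    rw [← mul_sub, abs_mul, mul_assoc]
    exact mul_le_mul hpi (h m hm) (by positivity) (by norm_num)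
  have b := (mul_le_mul_of_nonneg_right (abs_cos_sub_cos_le _ _) hG).trans (e (i + 2) (by omega))
  unfold Part_w
  split_ifs with hi
  · rw [one_mul, one_mul]
    linarith
  · have a := (mul_le_mul_of_nonneg_right (abs_sin_sub_sin_le _ _) hG).trans (e (i + 1) (by omega))
    set s := sin (π / 2 * Part_g c (i + 1) r)
    set s' := sin (π / 2 * Part_g c (i + 1) r') with hs'
    set k := cos (π / 2 * Part_g c (i + 2) r) with hk
    set k' := cos (π / 2 * Part_g c (i + 2) r')
    have f : |s * k - s' * k'| ≤ |s - s'| + |k - k'| := by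
      rw [show s * k - s' * k' = (s - s') * k + s' * (k - k') by ring]
      refine (abs_add_le _ _).trans (add_le_add ?_ ?_)
      · rw [abs_mul]
        exact mul_le_of_le_one_right (abs_nonneg _) (abs_cos_le_one _)
      · rw [abs_mul]
        exact mul_le_of_le_one_left (abs_nonneg _) (abs_sin_le_one _)
    have := mul_le_mul_of_nonneg_right f hG
    linarith

theorem exists_part {r0 : ℝ} (hr : 0 < r0) {nu : ℝ → ℝ} (ha : Antitone nu) (h0 : ∀ r, 0 < nu r)
    (h1 : ∀ r, nu r ≤ 1 / 10) : ∃ c w, Part r0 nu c w := by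
  set c := Part_c r0 nu with hc
  have cs : ∀ n, c (n + 1) = c n * (1 + nu (c n)) := fun n => rfl
  have cp : ∀ n, 0 < c n := fun n => by
    induction n with
    | zero => exact hr
    | succ n ih => rw [cs]; exact mul_pos ih (by linarith [h0 (c n)])
  have cm : StrictMono c := strictMono_nat_of_lt_succ fun n => by
    rw [cs]
    nlinarith [mul_pos (cp n) (h0 (c n))]
  have cge : ∀ n, r0 ≤ c n := fun n => cm.monotone (Nat.zero_le n)
  have c11 : ∀ n, c (n + 1) ≤ 11 / 10 * c n := fun n => by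
    rw [cs]
    nlinarith [mul_le_mul_of_nonneg_left (h1 (c n)) (cp n).le]
  have cpow : ∀ i k, c (i + k) ≤ c i * (1 + nu (c i)) ^ k := fun i k => by
    induction k with
    | zero => simp
    | succ k ih =>
      rw [← add_assoc, cs, pow_succ, ← mul_assoc]
      exact mul_le_mul ih (by linarith [ha (cm.monotone (Nat.le_add_right i k))])
        (by linarith [h0 (c (i + k))]) ((cp _).le.trans ih)
  have unb : ∀ r, ∃ n, r < c n := fun r => by
    by_contra h
    simp only [not_exists, not_lt] at h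
    have a : ∀ n : ℕ, n * (r0 * nu r) ≤ c n := fun n => by
      induction n with
      | zero => simpa using (cp 0).le
      | succ n ih =>
        rw [cs]
        push_cast
        nlinarith [mul_le_mul (cge n) (ha (h n)) (h0 r).le (cp n).le]
    obtain ⟨n, hn⟩ := exists_nat_gt (r / (r0 * nu r))
    rw [div_lt_iff₀ (mul_pos hr (h0 r))] at hn
    linarith [a n, h n]
  have loc : ∀ r, r < c 2 ∨ ∃ n, c (n + 2) ≤ r ∧ r < c (n + 3) := fun r => by
    classical
    have a := Nat.find_spec (unb r)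
    by_cases h : Nat.find (unb r) ≤ 2
    · exact Or.inl (a.trans_le (cm.monotone h))
    · obtain ⟨n, hn⟩ : ∃ n, Nat.find (unb r) = n + 3 := ⟨Nat.find (unb r) - 3, by omega⟩
      exact Or.inr ⟨n, not_lt.1 (Nat.find_min (unb r) (by omega)), hn ▸ a⟩
  have gp : ∀ r, 0 ≤ gap r0 nu r := fun r =>
    mul_nonneg (h0 _).le (hr.le.trans (le_max_right _ _))
  have gb : ∀ n m r, c (n + 2) ≤ r → r < c (n + 3) → n + 1 ≤ m → m ≤ n + 2 →
      gap r0 nu r ≤ 121 / 100 * (c (m + 1) - c m) := fun n m r p q m1 m2 => by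
    have a : r ≤ 121 / 100 * c m := by
      linarith [c11 (n + 2), c11 (n + 1), cm.monotone m1]
    have b : nu (4 * r) ≤ nu (c m) := ha (by linarith [cm.monotone m2, cp (n + 2)])
    unfold gap
    rw [max_eq_left ((cge _).trans p), cs]
    have := mul_le_mul b a (by linarith [cp (n + 2)]) (h0 _).le
    linarith
  have far : ∀ n r r', 0 ≤ r' → c (n + 2) ≤ r → r < c (n + 3) → r' < c (n + 1) →
      gap r0 nu r ≤ 2 * (r - r') ∧ gap r0 nu r' ≤ 2 * (r - r') := fun n r r' h p q u => by
    have a := gb n (n + 1) r p q le_rfl (by omega)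
    have b : c (n + 1) < c (n + 1 + 1) := cm (by omega)
    refine ⟨by linarith, ?_⟩
    have M : max r' r0 ≤ c (n + 1) := max_le u.le (cge _)
    have M0 : 0 < max r' r0 := hr.trans_le (le_max_right _ _)
    have M1 : r' ≤ max r' r0 := le_max_left _ _
    unfold gap
    rcases le_total (c (n + 1)) (4 * max r' r0) with e | e
    · have := mul_le_mul (ha e) M M0.le (h0 _).le
      have d := cs (n + 1)
      linarith
    · have := mul_le_mul_of_nonneg_right (h1 (4 * max r' r0)) M0.le
      linarith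
  refine ⟨c, Part_w c, rfl, cge, fun r => ?_, fun r h i hi => ?_, fun i r r' h h' => ?_,
    fun r r' h h' => ?_⟩
  · obtain ⟨n, a, b⟩ : ∃ n, (n = 0 ∨ c (n + 2) ≤ r) ∧ r < c (n + 3) := by
      rcases loc r with a | ⟨n, a, b⟩
      · exact ⟨0, Or.inl rfl, a.trans (cm (by omega))⟩
      · exact ⟨n, Or.inr a, b⟩
    refine ⟨n, fun i i1 i2 => ?_, ?_⟩
    · by_contra e
      obtain ⟨e1, e2⟩ := Part_supp cm e
      have p : i ≤ n + 1 := e2.elim (by omega) fun e2 => by
        have := cm.lt_iff_lt.1 (e2.trans b)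
        omega
      have q : n ≤ i := a.elim (by omega) fun a => by
        have := cm.lt_iff_lt.1 (a.trans_lt e1)
        omega
      omega
    · unfold Part_w
      rw [if_neg (Nat.succ_ne_zero n), Part_g0 cm (n := n + 1 + 2) b.le, mul_zero, cos_zero,
        mul_one]
      split_ifs with e
      · rw [one_mul, cos_sq_add_sin_sq]
      · rw [Part_g1 cm (n := n + 1) (a.resolve_left e), mul_one, sin_pi_div_two, one_mul,
          cos_sq_add_sin_sq]
  · by_contra e
    exact absurd ((Part_supp cm e).2.resolve_left hi) (not_lt.2 (h.trans (cge _)))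
  · have D : 0 ≤ 121 / 100 * (r - r') := by linarith
    have z : ∀ m, Part_g c m r = Part_g c m r' →
        |Part_g c m r - Part_g c m r'| * gap r0 nu r ≤ 121 / 100 * (r - r') := fun m e => by
      rw [e, sub_self, abs_zero, zero_mul]; exact D
    rcases loc r with a | ⟨n, a, b⟩
    · have := Part_wlip c i r r' (gp r) D fun m hm => z m (by
        rw [Part_g0 cm (a.le.trans (cm.monotone hm)),
          Part_g0 cm (h'.trans (a.le.trans (cm.monotone hm)))])
      linarith
    · rcases le_or_gt (c (n + 1)) r' with u | u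
      · have := Part_wlip c i r r' (gp r) D fun m _ => by
          by_cases m1 : m ≤ n
          · have e : c (m + 1) ≤ r' := (cm.monotone (by omega)).trans u
            exact z m (by rw [Part_g1 cm e, Part_g1 cm (e.trans h')])
          by_cases m2 : n + 3 ≤ m
          · have e : r ≤ c m := b.le.trans (cm.monotone m2)
            exact z m (by rw [Part_g0 cm e, Part_g0 cm (h'.trans e)])
          have p := mul_le_mul_of_nonneg_left (gb n m r a b (by omega) (by omega))
            (abs_nonneg (Part_g c m r - Part_g c m r'))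
          have q := Part_glip cm m h'
          linarith
        linarith
      · have p := (far n r r' h a b u).1
        have q : |Part_w c i r - Part_w c i r'| ≤ 2 :=
          (abs_sub _ _).trans (by linarith [Part_abs c i r, Part_abs c i r'])
        have := mul_le_mul_of_nonneg_right q (gp r)
        linarith
  · have win : ∀ i, (i = 0 ∨ c i ≤ r') → r ≤ c (i + 4) → Win nu c i r ∧ Win nu c i r' :=
      fun i p q => ⟨⟨h.trans h', p.imp_right fun p => p.trans h', q.trans (cpow i 4)⟩,
        h, p, h'.trans (q.trans (cpow i 4))⟩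
    have sup : ∀ i, Part_w c i r ≠ 0 ∨ Part_w c i r' ≠ 0 →
        r' < c (i + 3) ∧ (i = 0 ∨ c (i + 1) < r) := fun i e => by
      rcases e with e | e
      · exact ⟨h'.trans_lt (Part_supp cm e).1, (Part_supp cm e).2⟩
      · exact ⟨(Part_supp cm e).1, (Part_supp cm e).2.imp_right fun p => p.trans_le h'⟩
    rcases loc r with a | ⟨n, a, b⟩
    · refine Or.inl fun i e => win i (Or.inl ?_) (a.le.trans (cm.monotone (by omega)))
      refine (sup i e).2.elim id fun p => ?_
      have := cm.lt_iff_lt.1 (p.trans a)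
      omega
    · rcases le_or_gt (c (n + 1)) r' with u | u
      · refine Or.inl fun i e => win i ((sup i e).2.imp_right fun p => ?_) ?_
        · have := cm.lt_iff_lt.1 (p.trans b)
          exact (cm.monotone (by omega)).trans u
        · have := cm.lt_iff_lt.1 (u.trans_lt (sup i e).1)
          exact b.le.trans (cm.monotone (by omega))
      · exact Or.inr ⟨(cge _).trans a, far n r r' h a b u⟩

end Pool.Agent.Work.MP_0ba68b_gt.CX
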