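import Pool.Agent.Work.MP_0ba68b_gt.CX.Coord
import Pool.Agent.Work.MP_0ba68b_gt.CX.Part

/-!
The samples of the clock lattice.

PLAN.  `nu r = √(E (lev r))` is antitone, `≤ η/10⁵ ≤ 1/10`; `c, w` from `exists_part`.  `(1 + nu)⁴ ≤ 1 + 5 nu ≤ 2`.
For a radius `r` in the window `i`: `c i ≤ max r r0 ≤ 2 c i`, so `gap r ≥ √G c i` with `G = E (lev (8 c i))`.
`smp_pos` (samples `i ≥ 1`): `τb = √Q b`, `τa = (1 + η/1000) √Q a` at radius `c0`; `Q c0 u ≤ Q r u ≤ (1 + 5 ν)² Q c0 u` (`Q_mono`);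
`1 ≤ E τb`, `τb ≤ G c0`, `|an c| c0 ≤ √Q c ≤ G c0`; `R τb + τa + √Q r' c + 1 ≤ (R + 5) G c0`, and `10⁹ (R + 5)² G ≤ η`.
`smp_zero`: `comb ξ = (ξ₃, ξ₁, ξ₂)`, `Q r (comb ξ) = r² (A ξ₃ + φ1 ξ₁ + φ2 ξ₂)² + τ1² ξ₁² + τ2² ξ₂²`, `A = 2π/m0`, `Q r c = r² A²`; with
`u = r (φ1 ξ₁ + φ2 ξ₂)`, `u² ≤ 2 E² τ2² (ξ₁² + ξ₂²)`, `vec_lower`/`vec_upper`-type bounds with `β = η/200`.
-/

open Real

namespace Pool.Agent.Work.MP_0ba68b_gt.CX

/-- The smallness of `E` needed for the samples. -/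
structure Dem (E η R ρm : ℝ) : Prop where
  pos : 0 < E
  η_le : η ≤ 1 / 1000
  R_ge : 2 ≤ R
  d1 : √E ≤ η / 10 ^ 5
  d2 : 10 ^ 11 * (R + 10) ^ 2 * E ≤ η
  d3 : ρm * R * E ≤ 1

lemma exists_dem {η R ρm : ℝ} (h0 : 0 < η) (h1 : η ≤ 1 / 1000) (hR : 2 ≤ R) (hρ : 0 ≤ ρm) :
    ∃ D > 0, ∀ E, 0 < E → E ≤ D → Dem E η R ρm := by
  have hK : 0 < 10 ^ 11 * (R + 10) ^ 2 := by positivity
  have hL : 0 < ρm * R + 1 := by positivity
  refine ⟨min (min ((η / 10 ^ 5) ^ 2) (η / (10 ^ 11 * (R + 10) ^ 2))) (1 / (ρm * R + 1)),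
    by positivity, fun E hE h => ?_⟩
  obtain ⟨h2, h3⟩ := le_min_iff.1 h
  obtain ⟨h2, h4⟩ := le_min_iff.1 h2
  rw [le_div_iff₀ hK] at h4
  rw [le_div_iff₀ hL] at h3
  exact ⟨hE, h1, hR, Real.sqrt_le_iff.2 ⟨by positivity, h2⟩, by linarith, by linarith⟩

lemma CSmp_small {E η R ρm : ℝ} (hd : Dem E η R ρm) : 10 ^ 13 * E ≤ η := by
  have h1 := hd.d2
  have h2 : (100 : ℝ) ≤ (R + 10) ^ 2 := by nlinarith [hd.R_ge]
  nlinarith [hd.pos]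

lemma CSmp_size {E η R ρm G c0 g x : ℝ} (hd : Dem E η R ρm) (hG : 0 < G) (hGE : G ≤ E)
    (hc : 0 ≤ c0) (hg : √G * c0 ≤ g) (h0 : 0 ≤ x) (hx : x ≤ (R + 5) * (G * c0)) :
    10 ^ 9 * x ^ 2 ≤ η * g ^ 2 := by
  have hR := hd.R_ge
  have h1 : G * c0 ^ 2 ≤ g ^ 2 := by
    have := pow_le_pow_left₀ (by positivity) hg 2
    rwa [mul_pow, Real.sq_sqrt hG.le] at this
  have h2 : 10 ^ 9 * (R + 5) ^ 2 * G ≤ η := by
    refine le_trans ?_ hd.d2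
    gcongr <;> norm_num
  have h3 : 0 ≤ η := le_trans (by positivity) h2
  calc 10 ^ 9 * x ^ 2 ≤ 10 ^ 9 * ((R + 5) * (G * c0)) ^ 2 := by gcongr
    _ = 10 ^ 9 * (R + 5) ^ 2 * G * (G * c0 ^ 2) := by ring
    _ ≤ η * g ^ 2 := by gcongr

lemma CSmp_big {E η R ρm τ : ℝ} (hd : Dem E η R ρm) (h : 1 ≤ E * τ) :
    2000 ≤ η * τ ^ 2 ∧ ρm * R ≤ τ ∧ 1 ≤ τ := by
  have h0 := hd.pos
  have h1 := CSmp_small hd
  have h2 := hd.η_le
  have hτ : 0 < τ := (mul_pos_iff_of_pos_left h0).1 (one_pos.trans_le h)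
  have h3 : 1 ≤ τ := by nlinarith
  refine ⟨?_, le_of_mul_le_mul_right (by linarith [hd.d3]) h0, h3⟩
  have h4 : E * τ ≤ E * τ * τ := le_mul_of_one_le_right (by linarith) h3
  have h5 : 10 ^ 13 * E * τ ^ 2 ≤ η * τ ^ 2 := by gcongr
  nlinarith

lemma CSmp_num {E η : ℝ} (h0 : 0 < E) (h1 : 10 ^ 13 * E ≤ η) (h2 : η ≤ 1 / 1000) :
    (1 - η / 100) * (1 + η / 1000) ^ 2 ≤ 1 - E ∧ (1 + η / 1000) ^ 2 * (1 + E) ≤ 1 + η / 100 ∧
      1 + η / 2000 ≤ (1 + η / 1000) * (1 - E) := by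
  have h3 : 0 < η := by linarith
  have h4 : (1 + η / 1000) ^ 2 ≤ 1 + 3 * η / 1000 := by nlinarith
  refine ⟨?_, ?_, by nlinarith⟩
  · calc _ ≤ (1 - η / 100) * (1 + 3 * η / 1000) := by gcongr; linarith
      _ ≤ _ := by nlinarith
  · calc _ ≤ (1 + 3 * η / 1000) * (1 + E) := by gcongr
      _ ≤ _ := by nlinarith

lemma smp_pos {P : Par} {c0 E Y G η R ρm : ℝ} {a b c : Z3} {Wn : ℝ → Prop} {g : ℝ → ℝ}
    (hc : 0 < c0) (hb : CBas P c0 E Y G a b c) (hd : Dem E η R ρm) (hY : 1 ≤ Y) (hG : 0 < G)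
    (hGE : G ≤ E) (conn : ∀ r r' s, Wn r → Wn r' → r ≤ s → s ≤ r' → Wn s)
    (hW : ∀ r, Wn r → c0 ≤ r ∧ r ≤ c0 * (1 + 5 * √E) ∧ √G * c0 ≤ g r) :
    ∃ τa τb, Smp P η R ρm Wn g a b c τa τb ∧ Y * (1 + η / 2000) ≤ τa / τb := by
  have h0 := hd.pos
  have h1 := CSmp_small hd
  have h2 := hd.η_le
  have hR := hd.R_ge
  have hη : 0 < η := by linarith
  obtain ⟨n1, n2, n3⟩ := CSmp_num h0 h1 h2
  have hA := P.Q_nonneg c0 (cz a)
  have hB := P.Q_nonneg c0 (cz b)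
  have hC := P.Q_nonneg c0 (cz c)
  have hEb : 1 ≤ E * √(P.Q c0 (cz b)) := by
    refine (one_le_sq_iff₀ (by positivity)).1 ?_
    rw [mul_pow, Real.sq_sqrt hB]
    exact hb.big
  obtain ⟨b1, b2, b3⟩ := CSmp_big hd hEb
  have hr : Y * (1 - E) * √(P.Q c0 (cz b)) ≤ √(P.Q c0 (cz a)) := by
    refine Real.le_sqrt_of_sq_le ?_
    rw [mul_pow, Real.sq_sqrt hB]
    exact hb.ratio
  have hr2 : Y * (1 + η / 2000) * √(P.Q c0 (cz b)) ≤ (1 + η / 1000) * √(P.Q c0 (cz a)) := by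
    calc _ ≤ Y * ((1 + η / 1000) * (1 - E)) * √(P.Q c0 (cz b)) := by gcongr
      _ = (1 + η / 1000) * (Y * (1 - E) * √(P.Q c0 (cz b))) := by ring
      _ ≤ _ := by gcongr
  have lo : ∀ r, Wn r → ∀ u, P.Q c0 u ≤ P.Q r u := fun r h u => by
    simpa using P.Q_mono u (t := 1) hc.le (by linarith only [(hW r h).1]) le_rfl
  have hi : ∀ r, Wn r → ∀ u, P.Q r u ≤ (1 + η / 1000) ^ 2 * P.Q c0 u := fun r h u => by
    refine P.Q_mono u (hc.le.trans (hW r h).1) ((hW r h).2.1.trans ?_) (by linarith only [hG, hGE, h1])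
    rw [mul_comm]
    gcongr
    linarith only [hG, hGE, h1, hd.d1]
  have sa : √(P.Q c0 (cz a)) ≤ G * c0 := Real.sqrt_le_iff.2 ⟨by positivity, hb.sa⟩
  have sb : √(P.Q c0 (cz b)) ≤ G * c0 := Real.sqrt_le_iff.2 ⟨by positivity, hb.sb⟩
  refine ⟨(1 + η / 1000) * √(P.Q c0 (cz a)), √(P.Q c0 (cz b)), ⟨hb.bas, by linarith only [hG, hGE, h1, h2, b3], ?_, conn,
    fun r h => hc.le.trans (hW r h).1, fun r h ξ => ?_, b1, b2, fun r r' h h' => ?_, ?_⟩,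
    (le_div_iff₀ (by linarith only [hG, hGE, h1, h2, b3])).2 hr2⟩
  · refine le_trans (le_mul_of_one_le_left (by positivity) ?_) hr2
    nlinarith only [hY, hG, hGE, h1]
  · obtain ⟨o1, o2⟩ := hb.orth ξ
    have s1 : 1 ≤ (1 + η / 1000) ^ 2 := one_le_pow₀ (by linarith)
    have c1 := lo r h (cz c)
    have c2 := hi r h (cz c)
    rw [mul_pow, Real.sq_sqrt hA, Real.sq_sqrt hB]
    constructor
    · refine le_trans ?_ (o1.trans (lo r h _))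
      calc _ ≤ (1 - η / 100) * ((1 + η / 1000) ^ 2 * P.Q c0 (cz a) * ξ.1 ^ 2 +
            (1 + η / 1000) ^ 2 * P.Q c0 (cz b) * ξ.2.1 ^ 2 +
            (1 + η / 1000) ^ 2 * P.Q c0 (cz c) * ξ.2.2 ^ 2) := by
            gcongr
            · linarith only [hG, hGE, h1, h2]
            · exact le_mul_of_one_le_left hB s1
        _ = (1 - η / 100) * (1 + η / 1000) ^ 2 * (P.Q c0 (cz a) * ξ.1 ^ 2 +
            P.Q c0 (cz b) * ξ.2.1 ^ 2 + P.Q c0 (cz c) * ξ.2.2 ^ 2) := by ring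
        _ ≤ _ := by gcongr
    · refine (hi r h _).trans ?_
      calc _ ≤ (1 + η / 1000) ^ 2 * ((1 + E) * (P.Q c0 (cz a) * ξ.1 ^ 2 +
            P.Q c0 (cz b) * ξ.2.1 ^ 2 + P.Q c0 (cz c) * ξ.2.2 ^ 2)) := by gcongr
        _ = (1 + η / 1000) ^ 2 * (1 + E) * (P.Q c0 (cz a) * ξ.1 ^ 2 +
            P.Q c0 (cz b) * ξ.2.1 ^ 2 + P.Q c0 (cz c) * ξ.2.2 ^ 2) := by ring
        _ ≤ _ := by
            gcongr
            exact le_mul_of_one_le_left hA s1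
  · refine CSmp_size hd hG hGE hc.le (hW r h).2.2 (by positivity) ?_
    have s3 : √(P.Q r' (cz c)) ≤ 2 * (G * c0) := by
      refine Real.sqrt_le_iff.2 ⟨by positivity, (hi r' h' _).trans ?_⟩
      rw [mul_pow]
      gcongr
      · linarith
      · exact hb.sc
    have s4 : (1 + η / 1000) * √(P.Q c0 (cz a)) ≤ 2 * (G * c0) := by
      gcongr
      linarith
    have s5 : R * √(P.Q c0 (cz b)) ≤ R * (G * c0) := by gcongr
    linarith only [b3, sb, s3, s4, s5]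
  · have s3 : c0 ^ 2 * P.an (cz c) ^ 2 ≤ c0 ^ 2 * G ^ 2 := by
      have := hb.sc
      unfold Par.Q at this
      nlinarith only [this, sq_nonneg ‖P.pv (cz c)‖]
    have := abs_le_of_sq_le_sq' (le_of_mul_le_mul_left s3 (by positivity)) hG.le
    exact (abs_le.2 this).trans (by linarith)

lemma CSmp_cross {E T x u : ℝ} (hE : 0 < E) (hT : 0 ≤ T) (h : u ^ 2 ≤ 2 * E ^ 2 * T) :
    2 * x * u ≤ 2 * E * (x ^ 2 + T) := by
  refine le_of_mul_le_mul_left ?_ (show 0 < 2 * E by positivity)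
  have := mul_nonneg (sq_nonneg E) hT
  nlinarith [sq_nonneg (2 * E * x - u)]

lemma CSmp_cmp {E e T x u : ℝ} (hE : 0 < E) (h1 : E ≤ 1) (he : 4 * E ≤ e) (hT : 0 ≤ T)
    (h : u ^ 2 ≤ 2 * E ^ 2 * T) :
    (1 - e) * (T + x ^ 2) ≤ (x + u) ^ 2 + T ∧ (x + u) ^ 2 + T ≤ (1 + e) * (T + x ^ 2) := by
  have a1 := CSmp_cross (x := x) hE hT h
  have a2 := CSmp_cross (x := -x) hE hT h
  have a3 : 4 * E * (T + x ^ 2) ≤ e * (T + x ^ 2) := by gcongr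
  have a4 : E ^ 2 * T ≤ E * T := by gcongr; nlinarith only [hE, h1]
  have a5 : 0 ≤ E * x ^ 2 := by positivity
  have a6 : 0 ≤ E * T := by positivity
  constructor <;> nlinarith [sq_nonneg u]

lemma smp_zero {P : Par} {r0 E G η R ρm : ℝ} {Wn : ℝ → Prop} {g : ℝ → ℝ} (hP : P.Good)
    (hr : 0 < r0) (hd : Dem E η R ρm) (hG : 0 < G) (hGE : G ≤ E) (t12 : P.τ1 = 4 * P.τ2)
    (big0 : 1 ≤ E * P.τ2) (ph1 : 2 * r0 * |P.φ1| ≤ E * P.τ2) (ph2 : 2 * r0 * |P.φ2| ≤ E * P.τ2)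
    (sz0 : P.τ1 ≤ G * r0) (an0 : 2 * π / P.m0 ≤ G)
    (conn : ∀ r r' s, Wn r → Wn r' → r ≤ s → s ≤ r' → Wn s)
    (hW : ∀ r, Wn r → 0 ≤ r ∧ r ≤ 2 * r0 ∧ √G * r0 ≤ g r) :
    Smp P η R ρm Wn g (0, 1, 0) (0, 0, 1) (1, 0, 0) P.τ1 P.τ2 := by
  have h0 := hd.pos
  have h1 := CSmp_small hd
  have h2 := hd.η_le
  have hR := hd.R_ge
  have t2 := hP.τ2_pos
  obtain ⟨b1, b2, b3⟩ := CSmp_big hd big0
  have hm : 0 ≤ 2 * π / P.m0 := by positivity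
  have an : P.an (cz (1, 0, 0)) = 2 * π / P.m0 := by simp [Par.an, cz]
  have qc : ∀ r, P.Q r (cz (1, 0, 0)) = (r * (2 * π / P.m0)) ^ 2 := fun r => by
    rw [Par.Q, an, P.pv_first 1, norm_zero]
    ring
  refine ⟨⟨fun v => ⟨v.2.1, v.2.2, v.1, by ext <;> simp⟩, by simp [par], by simp [par],
    by simp [par]⟩, t2, by linarith, conn, fun r h => (hW r h).1, fun r h ξ => ?_, b1, b2,
    fun r r' h h' => ?_, ?_⟩
  · obtain ⟨r1, r2, -⟩ := hW r h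
    have e1 : comb (0, 1, 0) (0, 0, 1) (1, 0, 0) ξ = (ξ.2.2, ξ.1, ξ.2.1) := by
      ext <;> simp [comb, cz]
    have e2 : P.Q r (ξ.2.2, ξ.1, ξ.2.1) =
        (r * (2 * π / P.m0) * ξ.2.2 + (r * P.φ1 * ξ.1 + r * P.φ2 * ξ.2.1)) ^ 2 +
          (P.τ1 ^ 2 * ξ.1 ^ 2 + P.τ2 ^ 2 * ξ.2.1 ^ 2) := by
      simp only [Par.Q, Par.an, Par.pv, Complex.sq_norm, Complex.normSq_mk]
      ring
    have f : ∀ φ : ℝ, 2 * r0 * |φ| ≤ E * P.τ2 → (r * φ) ^ 2 ≤ (E * P.τ2) ^ 2 := fun φ hφ => by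
      rw [← sq_abs, abs_mul, abs_of_nonneg r1]
      exact pow_le_pow_left₀ (by positivity) (le_trans (by gcongr) hφ) 2
    have f1 : (r * P.φ1) ^ 2 * ξ.1 ^ 2 ≤ (E * P.τ2) ^ 2 * ξ.1 ^ 2 :=
      mul_le_mul_of_nonneg_right (f _ ph1) (sq_nonneg _)
    have f2 : (r * P.φ2) ^ 2 * ξ.2.1 ^ 2 ≤ (E * P.τ2) ^ 2 * ξ.2.1 ^ 2 :=
      mul_le_mul_of_nonneg_right (f _ ph2) (sq_nonneg _)
    have f3 : 0 ≤ (E * P.τ2) ^ 2 * ξ.1 ^ 2 := by positivity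
    have := CSmp_cmp (x := r * (2 * π / P.m0) * ξ.2.2) (e := η / 100)
      (u := r * P.φ1 * ξ.1 + r * P.φ2 * ξ.2.1) (T := P.τ1 ^ 2 * ξ.1 ^ 2 + P.τ2 ^ 2 * ξ.2.1 ^ 2)
      h0 (by linarith only [hG, hGE, h1, h2]) (by linarith only [hG, hGE, h1]) (by positivity) (by
        rw [t12]
        nlinarith only [f1, f2, f3, sq_nonneg (r * P.φ1 * ξ.1 - r * P.φ2 * ξ.2.1)])
    rw [e1, e2, qc, ← mul_pow (r * _)]
    exact this
  · refine CSmp_size hd hG hGE hr.le (hW r h).2.2 (by have := hP.τ1_pos; positivity) ?_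
    obtain ⟨r1, r2, -⟩ := hW r' h'
    rw [qc, Real.sqrt_sq (by positivity)]
    have s3 : r' * (2 * π / P.m0) ≤ 2 * r0 * G := by gcongr
    have s5 : R * P.τ2 ≤ R * (G * r0) := by gcongr; linarith
    have s6 : 0 ≤ G * r0 := by positivity
    linarith
  · rw [an, abs_of_nonneg hm]
    linarith

theorem csmp {P : Par} {E Y η R ρm : ℕ → ℝ} {r0 : ℝ} {lev : ℝ → ℕ} (hP : P.Good)
    (hC : ClkArith P E Y r0 lev) (ha : Antitone E) (hd : ∀ k, Dem (E k) (η k) (R k) (ρm k))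
    (hY : ∀ k, 1 ≤ Y k) : ∃ (nu : ℝ → ℝ) (c : ℕ → ℝ) (w : ℕ → ℝ → ℝ), (∀ r, 0 < nu r) ∧
      Part r0 nu c w ∧ ∀ i, ∃ (k : ℕ) (a b cc : Z3) (τa τb : ℝ),
        Smp P (η k) (R k) (ρm k) (Win nu c i) (gap r0 nu) a b cc τa τb ∧
        (Y k * (1 + η k / 2000) ≤ τa / τb ∨ 4 ≤ τa / τb) ∧
        (i = 0 → a = (0, 1, 0) ∧ b = (0, 0, 1) ∧ cc = (1, 0, 0)) := by
  let nu : ℝ → ℝ := fun r => √(E (lev r))
  have na : Antitone nu := fun r r' h => Real.sqrt_le_sqrt (ha (hC.mono h))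
  have n0 : ∀ r, 0 < nu r := fun r => Real.sqrt_pos.2 (hd _).pos
  have n1 : ∀ r, nu r ≤ 1 / 10 := fun r => (hd _).d1.trans (by linarith [(hd (lev r)).η_le])
  have r0p := hC.r0_pos
  obtain ⟨c, w, hp⟩ := exists_part r0p na n0 n1
  refine ⟨nu, c, w, n0, hp, fun i => ?_⟩
  have ci : 0 < c i := r0p.trans_le (hp.ge i)
  have conn : ∀ r r' s, Win nu c i r → Win nu c i r' → r ≤ s → s ≤ r' → Win nu c i s :=
    fun r r' s h h' h1 h2 => ⟨h.1.trans h1, h.2.1.imp_right (·.trans h1), h2.trans h'.2.2⟩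
  have up : ∀ r, Win nu c i r → r ≤ c i * (1 + 5 * nu (c i)) := fun r h => by
    refine h.2.2.trans (mul_le_mul_of_nonneg_left ?_ ci.le)
    have a0 := n0 (c i)
    have a1 := n1 (c i)
    generalize nu (c i) = x at a0 a1
    have a2 : x ^ 2 ≤ x / 10 := by nlinarith
    have a3 : x ^ 3 ≤ x / 100 := by nlinarith
    have a4 : x ^ 4 ≤ x / 1000 := by nlinarith
    nlinarith only [a0, a2, a3, a4]
  have up2 : ∀ r, Win nu c i r → r ≤ 2 * c i := fun r h => by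
    refine (up r h).trans ?_
    nlinarith [n1 (c i)]
  have gp : ∀ r, Win nu c i r → √(E (lev (8 * c i))) * c i ≤ gap r0 nu r := fun r h => by
    have m1 : c i ≤ max r r0 := by
      rcases h.2.1 with e | e
      · rw [e, hp.c0]
        exact le_max_right _ _
      · exact e.trans (le_max_left _ _)
    have m2 : max r r0 ≤ 2 * c i := max_le (up2 r h) (by linarith [hp.ge i])
    exact mul_le_mul (na (by linarith : 4 * max r r0 ≤ 8 * c i)) m1 ci.le (n0 _).le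
  by_cases hi : i = 0
  · subst hi
    rw [hp.c0] at up2 gp
    refine ⟨0, _, _, _, _, _, smp_zero hP r0p (hd 0) (hd _).pos (ha (Nat.zero_le _)) hC.t12
      hC.big0 hC.ph1 hC.ph2 hC.sz0 hC.an0 conn fun r h => ⟨h.1, up2 r h, gp r h⟩, Or.inr ?_,
      fun _ => ⟨rfl, rfl, rfl⟩⟩
    rw [hC.t12, mul_div_assoc, div_self hP.τ2_pos.ne', mul_one]
  · obtain ⟨k, a, b, cc, hk, hb⟩ := hC.pt (c i) (hp.ge i)
    obtain ⟨τa, τb, h1, h2⟩ := smp_pos ci hb (hd k) (hY k) (hd _).pos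
      (ha (hk.trans (hC.mono (by linarith)))) conn fun r h =>
        ⟨h.2.1.resolve_left hi, (up r h).trans (by
          have : nu (c i) ≤ √(E k) := Real.sqrt_le_sqrt (ha hk)
          gcongr), gp r h⟩
    exact ⟨k, a, b, cc, τa, τb, h1, Or.inl h2, fun e => absurd e hi⟩

end Pool.Agent.Work.MP_0ba68b_gt.CX
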