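import Mathlib.Analysis.InnerProductSpace.PiL2
import Mathlib.Analysis.LocallyConvex.WeakDual
import Mathlib.Algebra.MvPolynomial.Funext
import Mathlib.LinearAlgebra.Vandermonde
import Mathlib.Data.Nat.Choose.Bounds
import Mathlib.RingTheory.Artinian.Module
import Mathlib.Analysis.Normed.Module.FiniteDimension

/-!
A quantitative form of Calabi rigidity: `(1 + |ξ|²/q)^q` is not the squared norm of a polynomial
map into a space of small dimension.

PLAN.  `unisolvent`: on the finite dimensional space `V = Fin (D+1) × Fin (D+1) → ℂ` the functionals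
`ev ζ a = ∑ a (k,l) conj ζ ^ k ζ ^ l`, `‖ζ‖ ≤ 1`, separate points (a polynomial in `ζ, conj ζ` vanishing on the
disc is zero: put `ζ = r exp (iβ)`; or substitute `ζ = u + iv` and use `MvPolynomial.funext_set` on a small box,
with the invertible change of variables), so each coordinate is a finite combination of them
(`FiniteDimensional.mem_span_of_iInf_ker_le_ker`, `Submodule.mem_span_finite_of_mem_span`).  An explicit
alternative: roots of unity of order `2D + 1` on circles of `D + 1` radii and a Vandermonde matrix.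
`gram_indep`: if `∑ x_k d_k = 0` with `x ≠ 0` (possible as `K + 1 > card ι`:
`LinearIndependent.fintype_card_le_finrank`), then `0 = ‖∑ x_k d_k‖² ≥ b ∑ |x_k|² - γ (∑ |x_k|)² > 0`.
`cal1`: `D = 2K`, `ξ = s ζ`, `G k l = ⟪d k, d l⟫`, `|G k l| ≤ 400 / 2^(k+l)`, `b k = choose q k / q^k ∈ [(2K)^(-K)..., 1]`
(for `k ≤ K`, `q ≥ 2K`: `choose q k ≥ (q/k)^k` or `b k ≥ 1/(2^k k!)`; `b k ≤ 1/k! ≤ 1`),
`‖∑ ξ^k d k‖² - (1 + |ξ|²/q)^q = ∑_{k,l ≤ q} (G k l - δ_{kl} b k) conj ξ ^ k ξ ^ l` (`add_pow`).  Let `a (k,l)` be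
`(G k l - δ b k) s^(k+l)` for `k, l ≤ D`; the terms with `k > D` or `l > D` sum to at most `C s^(D+1)`
(`s ≤ 1/2`, geometric series, `C = 4000`).  So `|G k l - δ b k| ≤ C_D (δ + C s^(2K+1)) / s^(2K)` for `k, l ≤ K`; choose `s`,
then `δ = s^(2K+1)`, so that this is `< b_min / (K+1)`, and apply `gram_indep`.
-/

open scoped ComplexConjugate

namespace Pool.Agent.Work.MP_0ba68b_gt.CX

theorem Cal1_one {n : ℕ} (c : Fin n → ℂ) (h : ∀ x : ℂ, ∑ k, c k * x ^ (k : ℕ) = 0) : c = 0 :=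
  Matrix.eq_zero_of_forall_index_sum_mul_pow_eq_zero (f := fun j : Fin n => ((j : ℕ) : ℂ))
    (fun _ _ e => Fin.ext (Nat.cast_injective e)) fun _ => h _

theorem Cal1_sep {n : ℕ} (a : Fin n → Fin n → ℂ)
    (h : ∀ ζ : ℂ, ‖ζ‖ ≤ 1 → ∑ k, ∑ l, a k l * (conj ζ ^ (k : ℕ) * ζ ^ (l : ℕ)) = 0) : a = 0 := by
  have hQ : (∑ k, ∑ l, MvPolynomial.C (a k l) *
      ((MvPolynomial.X 0 - MvPolynomial.C Complex.I * MvPolynomial.X 1) ^ (k : ℕ) *
        (MvPolynomial.X 0 + MvPolynomial.C Complex.I * MvPolynomial.X 1) ^ (l : ℕ)) :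
      MvPolynomial (Fin 2) ℂ) = 0 := by
    refine MvPolynomial.funext_set (fun _ => (fun t : ℝ => (t : ℂ)) '' Set.Icc 0 (1 / 2))
      (fun _ => (Set.Icc_infinite (by norm_num)).image Complex.ofReal_injective.injOn) ?_
    intro x hx
    obtain ⟨u, hu, eu⟩ := hx 0 (Set.mem_univ _)
    obtain ⟨v, hv, ev⟩ := hx 1 (Set.mem_univ _)
    have hn : ‖(u : ℂ) + Complex.I * v‖ ≤ 1 := by
      refine (norm_add_le _ _).trans ?_
      rw [norm_mul, Complex.norm_I, one_mul, Complex.norm_real, Complex.norm_real,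
        Real.norm_of_nonneg hu.1, Real.norm_of_nonneg hv.1]
      linarith [hu.2, hv.2]
    have := h _ hn
    simpa [← eu, ← ev, sub_eq_add_neg] using this
  have h2 : ∀ x y : ℂ, ∑ k, (∑ l, a k l * y ^ (l : ℕ)) * x ^ (k : ℕ) = 0 := by
    intro x y
    have := congrArg (MvPolynomial.eval ![(x + y) / 2, (x - y) / 2 * Complex.I]) hQ
    have e1 : (x + y) / 2 - Complex.I * ((x - y) / 2 * Complex.I) = x := by
      linear_combination (-(x - y) / 2) * Complex.I_mul_I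
    have e2 : (x + y) / 2 + Complex.I * ((x - y) / 2 * Complex.I) = y := by
      linear_combination ((x - y) / 2) * Complex.I_mul_I
    simp only [map_sum, map_mul, map_pow, map_sub, map_add, MvPolynomial.eval_C,
      MvPolynomial.eval_X, Matrix.cons_val_zero, Matrix.cons_val_one, map_zero, e1, e2] at this
    rw [← this]
    refine Finset.sum_congr rfl fun k _ => ?_
    rw [Finset.sum_mul]
    exact Finset.sum_congr rfl fun l _ => by ring
  funext k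
  exact Cal1_one _ fun y => congrFun (Cal1_one _ fun x => h2 x y) k

/-- Evaluation at a point. -/
noncomputable def Cal1_ev (n : ℕ) (ζ : ℂ) : (Fin n → Fin n → ℂ) →ₗ[ℂ] ℂ where
  toFun a := ∑ k, ∑ l, a k l * (conj ζ ^ (k : ℕ) * ζ ^ (l : ℕ))
  map_add' a b := by simp only [Pi.add_apply, add_mul, Finset.sum_add_distrib]
  map_smul' c a := by
    simp only [Pi.smul_apply, smul_eq_mul, RingHom.id_apply, Finset.mul_sum, mul_assoc]

theorem Cal1_fin (n : ℕ) : ∃ T : Finset ℂ, 0 ∈ T ∧ (∀ ζ ∈ T, ‖ζ‖ ≤ 1) ∧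
    ∀ a, (∀ ζ ∈ T, Cal1_ev n ζ a = 0) → a = 0 := by
  classical
  obtain ⟨W, ⟨T, h0, h1, rfl⟩, hmin⟩ := wellFounded_lt.has_min
    {W : Submodule ℂ (Fin n → Fin n → ℂ) | ∃ T : Finset ℂ, 0 ∈ T ∧ (∀ ζ ∈ T, ‖ζ‖ ≤ 1) ∧
      W = ⨅ ζ ∈ T, LinearMap.ker (Cal1_ev n ζ)} ⟨_, {0}, by simp, by simp, rfl⟩
  refine ⟨T, h0, h1, fun a ha => Cal1_sep a fun ζ hζ => ?_⟩
  have hm := hmin _ ⟨insert ζ T, Finset.mem_insert_of_mem h0, fun η hη => by
    rcases Finset.mem_insert.1 hη with rfl | hη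
    · exact hζ
    · exact h1 η hη, rfl⟩
  rw [Finset.iInf_insert] at hm
  have he := eq_of_le_of_not_lt inf_le_right hm
  have : a ∈ ⨅ ζ ∈ T, LinearMap.ker (Cal1_ev n ζ) := by
    simp only [Submodule.mem_iInf, LinearMap.mem_ker]
    exact ha
  rw [← he] at this
  exact this.1

theorem Cal1_tail (g : ℕ → ℂ) {c s : ℝ} (hc : 0 ≤ c) (h0 : 0 ≤ s) (h1 : s ≤ 1 / 2) {m n : ℕ}
    (hmn : m ≤ n) (hg : ∀ k < n, ‖g k‖ ≤ c * s ^ k) :
    ‖∑ k ∈ Finset.range n, g k - ∑ k ∈ Finset.range m, g k‖ ≤ 2 * c * s ^ m := by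
  have key : ‖∑ k ∈ Finset.range n, g k - ∑ k ∈ Finset.range m, g k‖ ≤
      2 * c * s ^ m - 2 * (c * s ^ n) := by
    induction n, hmn using Nat.le_induction with
    | base => simp [mul_assoc]
    | succ n hmn ih =>
      have a1 := ih fun k hk => hg k (by omega)
      have a2 := hg n (by omega)
      have a3 : c * s ^ n * s ≤ c * s ^ n * (1 / 2) :=
        mul_le_mul_of_nonneg_left h1 (by positivity)
      rw [Finset.sum_range_succ, add_sub_right_comm, pow_succ]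
      refine (norm_add_le _ _).trans ?_
      linarith
  have : 0 ≤ c * s ^ n := by positivity
  linarith

theorem Cal1_tail2 (f : ℕ → ℕ → ℂ) {c s : ℝ} (hc : 0 ≤ c) (h0 : 0 ≤ s) (h1 : s ≤ 1 / 2) {m n : ℕ}
    (hmn : m ≤ n) (hf : ∀ k < n, ∀ l < n, ‖f k l‖ ≤ c * s ^ k * s ^ l) :
    ‖∑ k ∈ Finset.range n, ∑ l ∈ Finset.range n, f k l -
      ∑ k ∈ Finset.range m, ∑ l ∈ Finset.range m, f k l‖ ≤ 8 * c * s ^ m := by
  have a1 := Cal1_tail (fun k => ∑ l ∈ Finset.range n, f k l) (c := 2 * c) (by positivity) h0 h1 hmn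
    fun k hk => by
      have := Cal1_tail (f k) (c := c * s ^ k) (by positivity) h0 h1 (Nat.zero_le n) (hf k hk)
      simpa [mul_assoc] using this
  have a2 := Cal1_tail (fun k => ∑ l ∈ Finset.range n, f k l - ∑ l ∈ Finset.range m, f k l)
    (c := 2 * c * s ^ m) (by positivity) h0 h1 (Nat.zero_le m) fun k hk => by
      have := Cal1_tail (f k) (c := c * s ^ k) (by positivity) h0 h1 hmn (hf k (by omega))
      linarith
  rw [Finset.sum_range_zero, sub_zero, pow_zero, Finset.sum_sub_distrib] at a2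
  refine (norm_sub_le_norm_sub_add_norm_sub _
    (∑ k ∈ Finset.range m, ∑ l ∈ Finset.range n, f k l) _).trans ?_
  linarith

theorem Cal1_expand {ι : Type} [Fintype ι] (q : ℕ) (d : ℕ → EuclideanSpace ℂ ι) (ξ : ℂ) :
    ((‖∑ k ∈ Finset.range (q + 1), ξ ^ k • d k‖ ^ 2 - (1 + ‖ξ‖ ^ 2 / q) ^ q : ℝ) : ℂ) =
      ∑ k ∈ Finset.range (q + 1), ∑ l ∈ Finset.range (q + 1),
        (inner ℂ (d k) (d l) - if k = l then (((q.choose k : ℝ) / (q : ℝ) ^ k : ℝ) : ℂ) else 0) *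
          (conj ξ ^ k * ξ ^ l) := by
  have e1 : ((‖∑ k ∈ Finset.range (q + 1), ξ ^ k • d k‖ : ℝ) : ℂ) ^ 2 =
      ∑ k ∈ Finset.range (q + 1), ∑ l ∈ Finset.range (q + 1),
        inner ℂ (d k) (d l) * (conj ξ ^ k * ξ ^ l) := by
    refine (inner_self_eq_norm_sq_to_K (𝕜 := ℂ)
      (∑ k ∈ Finset.range (q + 1), ξ ^ k • d k)).symm.trans ?_
    rw [sum_inner]
    refine Finset.sum_congr rfl fun k _ => ?_
    rw [inner_sum]
    refine Finset.sum_congr rfl fun l _ => ?_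
    rw [inner_smul_left, inner_smul_right, map_pow]
    ring
  simp only [sub_mul, Finset.sum_sub_distrib, ite_mul, zero_mul, Finset.sum_ite_eq]
  push_cast
  rw [e1, add_comm (1 : ℂ), add_pow, ← Complex.conj_mul']
  congr 1
  refine Finset.sum_congr rfl fun k hk => ?_
  rw [if_pos hk, div_pow, mul_pow]
  ring

theorem Cal1_b {K q k : ℕ} (hq : 2 * K + 1 ≤ q) (hk : k ≤ K) :
    (1 / 2 : ℝ) ^ K / K.factorial ≤ (q.choose k : ℝ) / (q : ℝ) ^ k := by
  have hq0 : (0 : ℝ) < q := by exact_mod_cast (by omega : 0 < q)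
  have h1 : (q : ℝ) * (1 / 2) ≤ (q + 1 - k : ℕ) := by
    have : q ≤ 2 * (q + 1 - k) := by omega
    have : (q : ℝ) ≤ 2 * (q + 1 - k : ℕ) := by exact_mod_cast this
    linarith
  have h2 := Nat.pow_le_choose (α := ℝ) k q
  rw [le_div_iff₀ (by positivity)]
  refine le_trans ?_ h2
  have h3 : (k.factorial : ℝ) ≤ K.factorial := by exact_mod_cast Nat.factorial_le hk
  calc (1 / 2 : ℝ) ^ K / K.factorial * (q : ℝ) ^ k
      ≤ (1 / 2 : ℝ) ^ k / k.factorial * (q : ℝ) ^ k := by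
        gcongr ?_ / ?_ * _
        exact pow_le_pow_of_le_one (by norm_num) (by norm_num) hk
    _ = ((q : ℝ) * (1 / 2)) ^ k / k.factorial := by rw [mul_pow]; ring
    _ ≤ _ := by gcongr

theorem unisolvent (D : ℕ) : ∃ (n : ℕ) (ζ : Fin n → ℂ) (C : ℝ), 0 < C ∧ (∀ i, ‖ζ i‖ ≤ 1) ∧
    ∀ (a : ℕ → ℕ → ℂ) (M : ℝ), (∀ i, ‖∑ k ∈ Finset.range (D + 1), ∑ l ∈ Finset.range (D + 1),
      a k l * (conj (ζ i) ^ k * ζ i ^ l)‖ ≤ M) → ∀ k ≤ D, ∀ l ≤ D, ‖a k l‖ ≤ C * M := by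
  obtain ⟨T, h0, h1, h2⟩ := Cal1_fin (D + 1)
  obtain ⟨K, hK, hA⟩ := LinearMap.exists_antilipschitzWith
    (LinearMap.pi fun ζ : T => Cal1_ev (D + 1) ζ) (LinearMap.ker_eq_bot'.2 fun a ha =>
      h2 a fun ζ hζ => congrFun ha ⟨ζ, hζ⟩)
  refine ⟨T.card, fun i => T.equivFin.symm i, K, hK, fun i => h1 _ (T.equivFin.symm i).2, ?_⟩
  intro a M hM k hk l hl
  have : Nonempty T := ⟨⟨0, h0⟩⟩
  have b1 := ZeroHomClass.bound_of_antilipschitz _ hA fun k l : Fin (D + 1) => a k l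
  have b2 : ‖(LinearMap.pi fun ζ : T => Cal1_ev (D + 1) ζ) fun k l : Fin (D + 1) => a k l‖ ≤ M := by
    refine (pi_norm_le_iff_of_nonempty _).2 fun ζ => ?_
    have := hM (T.equivFin ζ)
    simp only [Equiv.symm_apply_apply, Finset.sum_range] at this
    exact this
  have b3 := (norm_le_pi_norm ((fun k l : Fin (D + 1) => a k l) ⟨k, by omega⟩) ⟨l, by omega⟩).trans
    (norm_le_pi_norm (fun k l : Fin (D + 1) => a k l) ⟨k, by omega⟩)
  exact b3.trans (b1.trans (mul_le_mul_of_nonneg_left b2 K.2))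

theorem gram_indep {ι : Type} [Fintype ι] {K : ℕ} (hK : Fintype.card ι ≤ K)
    (d : ℕ → EuclideanSpace ℂ ι) (b : ℕ → ℝ) {β γ : ℝ} (hb : ∀ k ≤ K, β ≤ b k)
    (hγ : (K + 1) * γ < β)
    (hG : ∀ k ≤ K, ∀ l ≤ K, ‖inner ℂ (d k) (d l) - if k = l then (b k : ℂ) else 0‖ ≤ γ) :
    False := by
  have hn : ¬ LinearIndependent ℂ fun k : Fin (K + 1) => d k := by
    intro h
    have := h.fintype_card_le_finrank
    rw [finrank_euclideanSpace, Fintype.card_fin] at this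
    omega
  obtain ⟨x, hx, j, hj⟩ := Fintype.not_linearIndependent_iff.1 hn
  obtain ⟨k, -, hk⟩ := Finset.exists_max_image Finset.univ (fun k => ‖x k‖) ⟨j, Finset.mem_univ _⟩
  have hpos : 0 < ‖x k‖ := (norm_pos_iff.2 hj).trans_le (hk j (Finset.mem_univ _))
  have hk' : (k : ℕ) ≤ K := Nat.lt_succ_iff.1 k.2
  have e : x k * b k = -∑ l : Fin (K + 1),
      x l * (inner ℂ (d k) (d l) - if (k : ℕ) = l then (b k : ℂ) else 0) := by
    have h := congrArg (inner ℂ (d k)) hx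
    simp only [inner_sum, inner_smul_right, inner_zero_right] at h
    simp only [mul_sub, Finset.sum_sub_distrib, h, Fin.val_inj, mul_ite, mul_zero,
      Finset.sum_ite_eq, Finset.mem_univ, if_true, zero_sub, neg_neg]
  have h1 : ‖x k * b k‖ ≤ (K + 1) * (‖x k‖ * γ) := by
    rw [e, norm_neg]
    refine (norm_sum_le _ _).trans ((Finset.sum_le_card_nsmul _ _ (‖x k‖ * γ) fun l _ => ?_).trans
      (by simp))
    rw [norm_mul]
    exact mul_le_mul (hk l (Finset.mem_univ _)) (hG k hk' l (Nat.lt_succ_iff.1 l.2))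
      (norm_nonneg _) hpos.le
  rw [norm_mul, Complex.norm_real, Real.norm_eq_abs] at h1
  have h2 := mul_le_mul_of_nonneg_left ((hb k hk').trans (le_abs_self _)) hpos.le
  have h3 := mul_lt_mul_of_pos_left hγ hpos
  linarith

theorem cal1 (K : ℕ) : ∃ (n : ℕ) (ξ : Fin n → ℂ) (δ : ℝ) (q1 : ℕ), 0 < δ ∧ (∀ i, ‖ξ i‖ ≤ 1) ∧
    ∀ q, q1 ≤ q → ∀ (ι : Type) [Fintype ι], Fintype.card ι ≤ K → ∀ d : ℕ → EuclideanSpace ℂ ι,
      ∑ k ∈ Finset.range (q + 1), 4 ^ k * ‖d k‖ ^ 2 ≤ 400 →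
      ∃ i, δ < |‖∑ k ∈ Finset.range (q + 1), ξ i ^ k • d k‖ ^ 2 - (1 + ‖ξ i‖ ^ 2 / q) ^ q| := by
  obtain ⟨n, ζ, C, hC, hζ, hU⟩ := unisolvent (2 * K)
  obtain ⟨β, hβ0, hβ⟩ : ∃ β : ℝ, 0 < β ∧ β = (1 / 2 : ℝ) ^ K / K.factorial :=
    ⟨_, by positivity, rfl⟩
  obtain ⟨s, hs0, hs1, hs2⟩ : ∃ s : ℝ, 0 < s ∧ s ≤ 1 / 2 ∧ (K + 1) * (C * 3209 * s) < β := by
    have hp : 0 < 2 * ((K + 1) * (C * 3209)) := by positivity
    refine ⟨min (1 / 2) (β / (2 * ((K + 1) * (C * 3209)))), by positivity, min_le_left _ _, ?_⟩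
    have := (le_div_iff₀ hp).1 (min_le_right (1 / 2) (β / (2 * ((K + 1) * (C * 3209)))))
    linarith
  have hn : ∀ i, ‖(s : ℂ) * ζ i‖ ≤ s := fun i => by
    rw [norm_mul, Complex.norm_real, Real.norm_of_nonneg hs0.le]
    exact mul_le_of_le_one_right hs0.le (hζ i)
  refine ⟨n, fun i => s * ζ i, s ^ (2 * K + 1), 2 * K + 1, by positivity,
    fun i => (hn i).trans (by linarith), ?_⟩
  intro q hq ι _ hι d hd
  by_contra hcon
  push Not at hcon
  have hq0 : (0 : ℝ) < q := by exact_mod_cast (by omega : 0 < q)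
  obtain ⟨A, hA⟩ : ∃ A : ℕ → ℕ → ℂ, ∀ k l, A k l =
      inner ℂ (d k) (d l) - if k = l then (((q.choose k : ℝ) / (q : ℝ) ^ k : ℝ) : ℂ) else 0 :=
    ⟨_, fun _ _ => rfl⟩
  have hd' : ∀ k < q + 1, ‖d k‖ ≤ 20 := by
    intro k hk
    have a1 := (Finset.single_le_sum (f := fun k => (4 : ℝ) ^ k * ‖d k‖ ^ 2)
      (fun _ _ => by positivity) (Finset.mem_range.2 hk)).trans hd
    have a2 : ‖d k‖ ^ 2 ≤ (4 : ℝ) ^ k * ‖d k‖ ^ 2 :=
      le_mul_of_one_le_left (by positivity) (one_le_pow₀ (by norm_num))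
    exact (sq_le_sq₀ (norm_nonneg _) (by norm_num)).1 (by linarith)
  have hA' : ∀ k < q + 1, ∀ l < q + 1, ‖A k l‖ ≤ 401 := by
    intro k hk l hl
    have a1 : ‖inner ℂ (d k) (d l)‖ ≤ 20 * 20 := (norm_inner_le_norm _ _).trans
      (mul_le_mul (hd' k hk) (hd' l hl) (norm_nonneg _) (by norm_num))
    have a2 : ‖if k = l then (((q.choose k : ℝ) / (q : ℝ) ^ k : ℝ) : ℂ) else 0‖ ≤ 1 := by
      split_ifs
      · rw [Complex.norm_real, Real.norm_of_nonneg (by positivity), div_le_one (by positivity)]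
        exact_mod_cast Nat.choose_le_pow q k
      · simp
    rw [hA]
    linarith [norm_sub_le (inner ℂ (d k) (d l))
      (if k = l then (((q.choose k : ℝ) / (q : ℝ) ^ k : ℝ) : ℂ) else 0)]
  have hM : ∀ i, ‖∑ k ∈ Finset.range (2 * K + 1), ∑ l ∈ Finset.range (2 * K + 1),
      (A k l * s ^ (k + l)) * (conj (ζ i) ^ k * ζ i ^ l)‖ ≤ 3209 * s ^ (2 * K + 1) := by
    intro i
    have a1 := hcon i
    rw [← Real.norm_eq_abs, ← Complex.norm_real, Cal1_expand] at a1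
    simp only [← hA] at a1
    have a2 := Cal1_tail2 (fun k l => A k l * (conj ((s : ℂ) * ζ i) ^ k * ((s : ℂ) * ζ i) ^ l))
      (c := 401) (by norm_num) hs0.le hs1 (by omega : 2 * K + 1 ≤ q + 1) fun k hk l hl => by
        rw [norm_mul, norm_mul, norm_pow, norm_pow, Complex.norm_conj, mul_assoc]
        have := hA' k hk l hl
        have := hn i
        gcongr
    have e : ∀ k l, (A k l * s ^ (k + l)) * (conj (ζ i) ^ k * ζ i ^ l) =
        A k l * (conj ((s : ℂ) * ζ i) ^ k * ((s : ℂ) * ζ i) ^ l) := by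
      intro k l
      rw [map_mul, Complex.conj_ofReal]
      ring
    simp only [e]
    rw [norm_sub_rev] at a2
    have := norm_le_norm_sub_add (∑ k ∈ Finset.range (2 * K + 1), ∑ l ∈ Finset.range (2 * K + 1),
      A k l * (conj ((s : ℂ) * ζ i) ^ k * ((s : ℂ) * ζ i) ^ l))
      (∑ k ∈ Finset.range (q + 1), ∑ l ∈ Finset.range (q + 1),
      A k l * (conj ((s : ℂ) * ζ i) ^ k * ((s : ℂ) * ζ i) ^ l))
    linarith
  refine gram_indep hι d (fun k => (q.choose k : ℝ) / (q : ℝ) ^ k)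
    (fun k hk => hβ ▸ Cal1_b hq hk) hs2 fun k hk l hl => ?_
  have a1 := hU _ _ hM k (by omega) l (by omega)
  rw [norm_mul, norm_pow, Complex.norm_real, Real.norm_of_nonneg hs0.le] at a1
  have a2 : ‖A k l‖ * s ^ (2 * K) ≤ ‖A k l‖ * s ^ (k + l) := mul_le_mul_of_nonneg_left
    (pow_le_pow_of_le_one hs0.le (by linarith) (by omega)) (norm_nonneg _)
  rw [← hA]
  refine le_of_mul_le_mul_right ?_ (pow_pos hs0 (2 * K))
  rw [pow_succ] at a1
  linarith

end Pool.Agent.Work.MP_0ba68b_gt.CX
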