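import Pool.Agent.Work.MP_0ba68b_gt.CX.QEn

/-!
The orbit of a highest weight vector is a polynomial curve.

PLAN.  `c k = (2 ^ k * k !)⁻¹ • Xm ^ k h ∈ E (q - 2k, q² + 2q)`; `Xp h = 0` (`norm_Xp`), `c (q+1) = 0`
(`norm_Xm` at weight `-q`), `Xm (c k) = 2 (k+1) c (k+1)`, `Xp (c (k+1)) = -2 (q - k) c k` (`Xp_Xm`), so
`gJ (c k) = (k+1) c (k+1) - (q - k + 1) c (k-1)`.  Hence `g t = ∑ k ≤ q, cos t ^ (q-k) sin t ^ k • c k` solves
`g' = gJ g`, `g 0 = h`; the derivative of `‖g t - lam (ej t) h‖²` vanishes by `skew_gJ`.  (To avoid natural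
subtraction, sum over `Finset.antidiagonal q` or shift the indices with `Finset.sum_range_succ'`.)
Then `lam (ec (β/2) * ej t * ec (-β/2)) h = lam (ec (-β/2)) (lam (ej t) (lam (ec (β/2)) h))` and
`lam_ec_of_mem`.  Lowest weight: `h = lam jj h₀` with `h₀ = lam jj⁻¹ h ∈ E (q, ..)`,
`jj * (ec (β/2) * ej t * ec (-β/2)) = ec (-β/2) * ej t * ec (β/2) * jj` (`jj_mul_ec`, `jj_mul_ej`).
-/

open scoped Quaternion ComplexConjugate
open Real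

namespace Pool.Agent.Work.MP_0ba68b_gt.CX.QRep

variable {W : Type} [NormedAddCommGroup W] [InnerProductSpace ℂ W] (Λ : QRep W) {h : W} {q : ℕ}

/-- The normalised string of lowered vectors. -/
noncomputable def QHw_c (h : W) : ℕ → W
  | 0 => h
  | k + 1 => (2 * ((k : ℂ) + 1))⁻¹ • Λ.Xm (QHw_c h k)

lemma QHw_mem (hh : h ∈ Λ.E (q, q ^ 2 + 2 * q)) (k : ℕ) :
    Λ.QHw_c h k ∈ Λ.E ((q : ℤ) - 2 * k, (q : ℝ) ^ 2 + 2 * q) := by
  induction k with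
  | zero => simpa [QHw_c] using hh
  | succ k ih =>
    have h1 := Λ.Xm_mem ih
    have e : (q : ℤ) - 2 * ((k + 1 : ℕ) : ℤ) = (q : ℤ) - 2 * k - 2 := by push_cast; ring
    rw [e, QHw_c]
    exact Submodule.smul_mem _ _ h1

lemma QHw_ne (k : ℕ) : (2 * ((k : ℂ) + 1)) ≠ 0 :=
  mul_ne_zero two_ne_zero (Nat.cast_add_one_ne_zero k)

lemma QHw_Xm (h : W) (k : ℕ) :
    Λ.Xm (Λ.QHw_c h k) = (2 * ((k : ℂ) + 1)) • Λ.QHw_c h (k + 1) := by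
  rw [QHw_c, smul_smul, mul_inv_cancel₀ (QHw_ne k), one_smul]

lemma QHw_Xp (hh : h ∈ Λ.E (q, q ^ 2 + 2 * q)) (k : ℕ) :
    Λ.Xp (Λ.QHw_c h (k + 1)) = (-2 * ((q : ℂ) - k)) • Λ.QHw_c h k := by
  rw [QHw_c, map_smul, Λ.Xp_Xm (Λ.QHw_mem hh k), smul_smul]
  congr 1
  have := QHw_ne k
  have h1 : (k : ℂ) + 1 ≠ 0 := Nat.cast_add_one_ne_zero k
  push_cast
  field_simp
  ring

lemma QHw_Xp_zero (hh : h ∈ Λ.E (q, q ^ 2 + 2 * q)) : Λ.Xp (Λ.QHw_c h 0) = 0 := by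
  have h1 := Λ.norm_Xp hh
  have h2 : ‖Λ.Xp h‖ ^ 2 = 0 := by
    rw [h1]
    push_cast
    ring
  rw [QHw_c]
  exact norm_eq_zero.mp (pow_eq_zero_iff two_ne_zero |>.mp h2)

lemma QHw_last (hh : h ∈ Λ.E (q, q ^ 2 + 2 * q)) : Λ.QHw_c h (q + 1) = 0 := by
  have h1 := Λ.norm_Xm (Λ.QHw_mem hh q)
  have h2 : ‖Λ.Xm (Λ.QHw_c h q)‖ ^ 2 = 0 := by
    rw [h1]
    push_cast
    ring
  rw [QHw_c, norm_eq_zero.mp (pow_eq_zero_iff two_ne_zero |>.mp h2), smul_zero]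

lemma QHw_gJ (w : W) : Λ.gJ w = (2 : ℂ)⁻¹ • Λ.Xp w + (2 : ℂ)⁻¹ • Λ.Xm w := by
  rw [← smul_add, ← Λ.two_gJ, smul_smul, inv_mul_cancel₀ two_ne_zero, one_smul]

lemma QHw_alg (hh : h ∈ Λ.E (q, q ^ 2 + 2 * q)) (x y : ℂ) :
    Λ.gJ (∑ k ∈ Finset.range (q + 1), (x ^ (q - k) * y ^ k) • Λ.QHw_c h k) =
      ∑ k ∈ Finset.range (q + 1), ((((q - k : ℕ) : ℂ) * x ^ (q - k - 1) * (-y)) * y ^ k +
        x ^ (q - k) * ((k : ℂ) * y ^ (k - 1) * x)) • Λ.QHw_c h k := by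
  rw [map_sum]
  simp only [map_smul, QHw_gJ, smul_add, add_smul, Finset.sum_add_distrib]
  congr 1
  · rw [Finset.sum_range_succ', Finset.sum_range_succ, Λ.QHw_Xp_zero hh]
    simp only [smul_zero, add_zero, Nat.sub_self, Nat.cast_zero, zero_mul, zero_smul]
    refine Finset.sum_congr rfl fun k hk => ?_
    have hk' : k ≤ q := (Finset.mem_range.mp hk).le
    rw [Λ.QHw_Xp hh, smul_smul, smul_smul, Nat.cast_sub hk', Nat.sub_sub]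
    congr 1
    ring
  · rw [Finset.sum_range_succ, Finset.sum_range_succ', Λ.QHw_Xm, Λ.QHw_last hh]
    simp only [smul_zero, add_zero, Nat.cast_zero, zero_mul, mul_zero, zero_smul]
    refine Finset.sum_congr rfl fun k hk => ?_
    have hk' : k < q := Finset.mem_range.mp hk
    have e : q - k = q - (k + 1) + 1 := by omega
    rw [Λ.QHw_Xm, smul_smul, smul_smul, e, Nat.add_sub_cancel]
    congr 1
    push_cast
    ring

lemma QHw_deriv (c : ℕ → W) (q : ℕ) (t : ℝ) :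
    HasDerivAt (fun t : ℝ => ∑ k ∈ Finset.range (q + 1),
        (((cos t : ℝ) : ℂ) ^ (q - k) * ((sin t : ℝ) : ℂ) ^ k) • c k)
      (∑ k ∈ Finset.range (q + 1),
        ((((q - k : ℕ) : ℂ) * ((cos t : ℝ) : ℂ) ^ (q - k - 1) * (-((sin t : ℝ) : ℂ))) *
            ((sin t : ℝ) : ℂ) ^ k +
          ((cos t : ℝ) : ℂ) ^ (q - k) *
            ((k : ℂ) * ((sin t : ℝ) : ℂ) ^ (k - 1) * ((cos t : ℝ) : ℂ))) • c k) t := by
  have hc : HasDerivAt (fun t : ℝ => ((cos t : ℝ) : ℂ)) (-((sin t : ℝ) : ℂ)) t := by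
    simpa only [Complex.ofReal_neg] using (Real.hasDerivAt_cos t).ofReal_comp
  have hs : HasDerivAt (fun t : ℝ => ((sin t : ℝ) : ℂ)) ((cos t : ℝ) : ℂ) t :=
    (Real.hasDerivAt_sin t).ofReal_comp
  refine HasDerivAt.fun_sum fun k _ => ?_
  exact ((hc.fun_pow (q - k)).fun_mul (hs.fun_pow k)).smul_const (c k)

lemma QHw_uniq {g : ℝ → W} (hg : ∀ t, HasDerivAt g (Λ.gJ (g t)) t) (t : ℝ) :
    Λ.lam (ej t) (g 0) = g t := by
  have hd : ∀ s, HasDerivAt (fun s => Λ.lam (ej s) (g 0) - g s)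
      (Λ.gJ (Λ.lam (ej s) (g 0) - g s)) s := fun s => by
    rw [map_sub]
    exact (Λ.hasDerivAt_ej (g 0) s).fun_sub (hg s)
  have hi : ∀ s, HasDerivAt (fun s => inner ℂ (Λ.lam (ej s) (g 0) - g s)
      (Λ.lam (ej s) (g 0) - g s)) 0 s := fun s => by
    have := HasDerivAt.inner ℂ (hd s) (hd s)
    rwa [Λ.skew_gJ, add_neg_cancel] at this
  have hc := is_const_of_deriv_eq_zero (fun s => (hi s).differentiableAt)
    (fun s => (hi s).deriv) t 0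
  rw [ej_zero, Λ.lam_oneS, sub_self, inner_zero_left, inner_self_eq_zero] at hc
  exact sub_eq_zero.mp hc

lemma QHw_ej (hh : h ∈ Λ.E (q, q ^ 2 + 2 * q)) (t : ℝ) :
    Λ.lam (ej t) h = ∑ k ∈ Finset.range (q + 1),
      (((cos t : ℝ) : ℂ) ^ (q - k) * ((sin t : ℝ) : ℂ) ^ k) • Λ.QHw_c h k := by
  have := Λ.QHw_uniq (g := fun t : ℝ => ∑ k ∈ Finset.range (q + 1),
      (((cos t : ℝ) : ℂ) ^ (q - k) * ((sin t : ℝ) : ℂ) ^ k) • Λ.QHw_c h k)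
    (fun t => by
      rw [Λ.QHw_alg hh]
      exact QHw_deriv _ q t) t
  rw [← this]
  congr 1
  rw [Finset.sum_range_succ']
  simp [QHw_c]

theorem highest (hh : h ∈ Λ.E (q, q ^ 2 + 2 * q)) : ∃ c : ℕ → W, ∀ β t : ℝ,
    Λ.lam (ec (β / 2) * ej t * ec (-β / 2) : S3) h = ∑ k ∈ Finset.range (q + 1),
      ((cos t : ℂ) ^ (q - k) * (sin t * Complex.exp (β * Complex.I)) ^ k) • c k := by
  refine ⟨Λ.QHw_c h, fun β t => ?_⟩
  rw [Λ.lam_mulS, Λ.lam_mulS, Λ.lam_ec_of_mem hh, map_smul, map_smul, Λ.QHw_ej hh, map_sum,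
    Finset.smul_sum]
  refine Finset.sum_congr rfl fun k _ => ?_
  rw [map_smul, Λ.lam_ec_of_mem (Λ.QHw_mem hh k), smul_smul, smul_smul, mul_pow,
    ← Complex.exp_nat_mul]
  congr 1
  have e : (k : ℂ) * (β * Complex.I) = Complex.I * ((q : ℤ) : ℂ) * ((β / 2 : ℝ) : ℂ) +
      Complex.I * (((q : ℤ) - 2 * k : ℤ) : ℂ) * ((-β / 2 : ℝ) : ℂ) := by
    push_cast
    ring
  rw [e, Complex.exp_add]
  ring

theorem lowest (hh : h ∈ Λ.E (-q, q ^ 2 + 2 * q)) : ∃ c : ℕ → W, ∀ β t : ℝ,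
    Λ.lam (ec (β / 2) * ej t * ec (-β / 2) : S3) h = ∑ k ∈ Finset.range (q + 1),
      ((cos t : ℂ) ^ (q - k) * (sin t * Complex.exp (-(β * Complex.I))) ^ k) • c k := by
  have h0 : Λ.lam jj h ∈ Λ.E (q, q ^ 2 + 2 * q) := by simpa using Λ.lam_jj_mem hh
  obtain ⟨c, hc⟩ := Λ.highest h0
  refine ⟨fun k => Λ.lam (jj⁻¹ : S3) (c k), fun β t => ?_⟩
  have e : (ec (β / 2) * ej t * ec (-β / 2) : S3) =
      jj * (ec (-β / 2) * ej t * ec (-(-β) / 2)) * jj⁻¹ := by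
    rw [eq_mul_inv_iff_mul_eq, ← mul_assoc, ← mul_assoc, jj_mul_ec, mul_assoc (ec _) jj,
      jj_mul_ej, ← mul_assoc, mul_assoc _ jj, jj_mul_ec, ← mul_assoc]
    congr 3
    · congr 1
      ring
    · ring
  rw [e, Λ.lam_mulS, Λ.lam_mulS, hc, map_sum]
  refine Finset.sum_congr rfl fun k _ => ?_
  rw [map_smul, Complex.ofReal_neg, neg_mul]

end Pool.Agent.Work.MP_0ba68b_gt.CX.QRep
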