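import Mathlib.Analysis.Complex.ExponentialBounds
import Mathlib.Analysis.SpecialFunctions.Trigonometric.Arctan
import Mathlib.MeasureTheory.Integral.Average
import Mathlib.MeasureTheory.Group.Integral
import Mathlib.RingTheory.RootsOfUnity.Complex
import Pool.Agent.Work.MP_0ba68b_gt.CX.Cal1
import Pool.Agent.Work.MP_0ba68b_gt.CX.Haar
import Pool.Agent.Work.MP_0ba68b_gt.CX.QHw

/-!
Extreme weight vectors with values in a space of small dimension do not have constant norm.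

PLAN.  `parseval`: expand the square, `∑ j < q+1, exp (2π i j (l - k)/(q+1)) = 0` for `k ≠ l ≤ q`
(geometric sum, `Complex.isPrimitiveRoot_exp`, `IsPrimitiveRoot.geom_sum_eq_zero` or `mul_geom_sum`).
`cal`: take `n, ξ, δ, q1` from `cal1 (2N)`, `η = δ / (6 (n+1))`, `q ≥ max q1 1`.  For `z : ℂ` put `β = arg z`,
`t = arctan (‖z‖/√q)`, `g z = ec (β/2) * ej t * ec (-β/2)`; `sin t exp (iβ) = cos t * z/√q`, `cos² t = (1 + ‖z‖²/q)⁻¹`.
With `c`, `c'` from `highest`, `lowest` and `lam (g * x) h = lam x (lam g h)`: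
`ev (lam (g z * x) h₁) = cos t ^ q • ∑ z^k • (√q^(-k) • ev (lam x (c k)))`, and the same with `conj z` for `h₂`.
Let `A x = ‖ev (lam x h₁)‖² + ‖ev (lam x h₂)‖²` (continuous), and
`d k = (√m √q^k)⁻¹ • toLp (Sum.elim (ev (lam x (c k))) (conj ∘ ev (lam x (c' k))))` on `Fin N ⊕ Fin N`:
`‖∑ z^k • d k‖² = (1 + ‖z‖²/q)^q A (g z * x) / m`.  If `∫ |A - m| < η m`, the continuous function
`x ↦ ∑ i |A (g (ξ i) x) - m| / (δ m / 3) + (1/(q+1)) ∑ j A (g (2 ω^j) x) / (4 m)` has integral `< 1` (left invariance,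
`integral_mul_left_eq_self`), so it is `< 1` at some `x` (`exists_le_integral`); then `(1 + 4/q)^q ≤ exp 4 < 100`,
`(1 + 1/q)^q ≤ exp 1 < 3` (`Real.add_one_le_exp`) contradict `cal1`.
-/

open scoped Quaternion ComplexConjugate
open Real MeasureTheory

namespace Pool.Agent.Work.MP_0ba68b_gt.CX

lemma Cal_geom (q : ℕ) {k l : ℕ} (hk : k ∈ Finset.range (q + 1)) (hl : l ∈ Finset.range (q + 1)) :
    ∑ j ∈ Finset.range (q + 1), conj (Complex.exp (2 * π * j / (q + 1) * Complex.I) ^ k) *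
      Complex.exp (2 * π * j / (q + 1) * Complex.I) ^ l = if k = l then (q + 1 : ℂ) else 0 := by
  have hω := Complex.isPrimitiveRoot_exp (q + 1) q.succ_ne_zero
  generalize hw : Complex.exp (2 * π * Complex.I / ((q + 1 : ℕ) : ℂ)) = ω at hω
  have h0 : ω ≠ 0 := hω.ne_zero q.succ_ne_zero
  have hc : conj ω = ω⁻¹ := (Complex.inv_eq_conj (hω.norm'_eq_one q.succ_ne_zero)).symm
  have h1 (j : ℕ) : Complex.exp (2 * π * j / (q + 1) * Complex.I) = ω ^ j := by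
    rw [← hw, ← Complex.exp_nat_mul]
    congr 1
    push_cast
    ring
  have h2 (j : ℕ) : conj ((ω ^ j) ^ k) * (ω ^ j) ^ l = ((ω ^ k)⁻¹ * ω ^ l) ^ j := by
    rw [map_pow, map_pow, hc, mul_pow, ← inv_pow, pow_right_comm ω⁻¹, pow_right_comm ω]
  simp only [h1, h2]
  split_ifs with h
  · simp [h, h0]
  · have h3 : (ω ^ k)⁻¹ * ω ^ l - 1 ≠ 0 := fun e => h (hω.pow_inj (Finset.mem_range.1 hk)
      (Finset.mem_range.1 hl) ((inv_mul_eq_one₀ (pow_ne_zero k h0)).1 (sub_eq_zero.1 e)))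
    refine (mul_eq_zero.1 ?_).resolve_left h3
    rw [mul_geom_sum, mul_pow, inv_pow, pow_right_comm ω k, pow_right_comm ω l, hω.pow_eq_one]
    simp
lemma parseval {H : Type} [NormedAddCommGroup H] [InnerProductSpace ℂ H] (q : ℕ) (d : ℕ → H)
    (r : ℝ) : ∑ j ∈ Finset.range (q + 1), ‖∑ k ∈ Finset.range (q + 1),
      (r * Complex.exp (2 * π * j / (q + 1) * Complex.I)) ^ k • d k‖ ^ 2 =
      (q + 1) * ∑ k ∈ Finset.range (q + 1), (r ^ 2) ^ k * ‖d k‖ ^ 2 := by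
  have h (x : H) : ((‖x‖ ^ 2 : ℝ) : ℂ) = inner ℂ x x := by
    rw [inner_self_eq_norm_sq_to_K]
    norm_cast
  apply Complex.ofReal_injective
  rw [Complex.ofReal_sum]
  simp only [h, sum_inner, inner_sum, inner_smul_left, inner_smul_right]
  rw [Finset.sum_comm]
  simp only [Complex.ofReal_mul, Complex.ofReal_sum, h, Finset.mul_sum]
  refine Finset.sum_congr rfl fun k hk => ?_
  rw [Finset.sum_comm, Finset.sum_eq_single_of_mem k hk fun l hl hlk => ?_]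
  · have := Cal_geom q hk hk
    rw [if_pos rfl] at this
    simp only [mul_pow, map_mul, map_pow, Complex.conj_ofReal] at this ⊢
    push_cast
    refine Eq.trans ?_ (congrArg (· * (((r : ℂ) ^ 2) ^ k * inner ℂ (d k) (d k))) this)
    rw [Finset.sum_mul]
    exact Finset.sum_congr rfl fun j _ => by ring
  · have := Cal_geom q hl hk
    rw [if_neg hlk] at this
    simp only [mul_pow, map_mul, map_pow, Complex.conj_ofReal] at this ⊢
    rw [← mul_zero ((r : ℂ) ^ k * r ^ l * inner ℂ (d l) (d k)), ← this, Finset.mul_sum]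
    exact Finset.sum_congr rfl fun j _ => by ring

lemma Cal_exp (q : ℕ) {s : ℝ} (hs : 0 ≤ s) : (1 + s / q) ^ q ≤ Real.exp s := by
  rcases q.eq_zero_or_pos with rfl | hq
  · simpa using hs
  have h : (q : ℝ) ≠ 0 := by positivity
  refine (pow_le_pow_left₀ (by positivity) ((add_comm _ _).trans_le
    (Real.add_one_le_exp (s / q))) q).trans_eq ?_
  rw [← Real.exp_nat_mul, mul_div_cancel₀ _ h]

lemma Cal_g {q : ℕ} (hq : 1 ≤ q) (z : ℂ) : ∃ β t : ℝ,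
    (sin t : ℂ) * Complex.exp (β * Complex.I) = cos t * (z * ((√q)⁻¹ : ℝ)) ∧
      (1 + ‖z‖ ^ 2 / q) * cos t ^ 2 = 1 := by
  refine ⟨z.arg, arctan (‖z‖ / √q), ?_, ?_⟩
  · have h : sin (arctan (‖z‖ / √q)) = cos (arctan (‖z‖ / √q)) * (‖z‖ / √q) := by
      rw [sin_arctan, cos_arctan]
      ring
    rw [h, Complex.ofReal_mul, div_eq_mul_inv ‖z‖, Complex.ofReal_mul]
    linear_combination (cos (arctan (‖z‖ * (√q)⁻¹)) : ℝ) * (((√q)⁻¹ : ℝ) : ℂ) *
      Complex.norm_mul_exp_arg_mul_I z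
  · rw [cos_sq_arctan, div_pow, Real.sq_sqrt (Nat.cast_nonneg q), mul_one_div_cancel]
    positivity

lemma Cal_pair {N : ℕ} (u v : ℕ → EuclideanSpace ℂ (Fin N)) :
    ∃ D : ℕ → EuclideanSpace ℂ (Fin N ⊕ Fin N), ∀ (s : Finset ℕ) (a : ℕ → ℂ),
      ‖∑ k ∈ s, a k • D k‖ ^ 2 = ‖∑ k ∈ s, a k • u k‖ ^ 2 + ‖∑ k ∈ s, conj (a k) • v k‖ ^ 2 := by
  refine ⟨fun k => WithLp.toLp 2 (Sum.elim (u k) fun i => conj (v k i)), fun s a => ?_⟩
  simp only [EuclideanSpace.norm_sq_eq, Fintype.sum_sum_type, WithLp.ofLp_sum, Finset.sum_apply,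
    WithLp.ofLp_smul, Pi.smul_apply, smul_eq_mul, Sum.elim_inl, Sum.elim_inr]
  congr 1
  refine Finset.sum_congr rfl fun i _ => ?_
  rw [← Complex.norm_conj, map_sum]
  simp

lemma Cal_sum {V : Type} [NormedAddCommGroup V] [InnerProductSpace ℂ V] (q : ℕ) (u : ℕ → V)
    (c : ℝ) (w : ℂ) : ‖∑ k ∈ Finset.range (q + 1), ((c : ℂ) ^ (q - k) * (c * w) ^ k) • u k‖ ^ 2 =
      (c ^ 2) ^ q * ‖∑ k ∈ Finset.range (q + 1), w ^ k • u k‖ ^ 2 := by
  have h : ∑ k ∈ Finset.range (q + 1), ((c : ℂ) ^ (q - k) * (c * w) ^ k) • u k =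
      (c : ℂ) ^ q • ∑ k ∈ Finset.range (q + 1), w ^ k • u k := by
    rw [Finset.smul_sum]
    refine Finset.sum_congr rfl fun k hk => ?_
    rw [smul_smul, mul_pow, ← mul_assoc, pow_sub_mul_pow _ (Nat.lt_succ_iff.1 (Finset.mem_range.1 hk))]
  rw [h, norm_smul, mul_pow, norm_pow, Complex.norm_real, Real.norm_eq_abs, pow_right_comm, sq_abs]

lemma Cal_key {N q : ℕ} (hq : 1 ≤ q) {W : Type} [NormedAddCommGroup W] [InnerProductSpace ℂ W]
    (Λ : QRep W) (ev : W →L[ℂ] EuclideanSpace ℂ (Fin N)) {h₁ h₂ : W}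
    (hh₁ : h₁ ∈ Λ.E (q, q ^ 2 + 2 * q)) (hh₂ : h₂ ∈ Λ.E (-q, q ^ 2 + 2 * q)) :
    ∃ g : ℂ → S3, ∀ x : S3, ∃ d : ℕ → EuclideanSpace ℂ (Fin N ⊕ Fin N), ∀ z : ℂ,
      ‖∑ k ∈ Finset.range (q + 1), z ^ k • d k‖ ^ 2 = (1 + ‖z‖ ^ 2 / q) ^ q *
        (‖ev (Λ.lam (g z * x : S3) h₁)‖ ^ 2 + ‖ev (Λ.lam (g z * x : S3) h₂)‖ ^ 2) := by
  obtain ⟨c, hc⟩ := Λ.highest hh₁
  obtain ⟨c', hc'⟩ := Λ.lowest hh₂
  choose β t h1 h2 using Cal_g hq
  refine ⟨fun z => ec (β z / 2) * ej (t z) * ec (-β z / 2), fun x => ?_⟩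
  obtain ⟨D, hD⟩ := Cal_pair (fun k => ev (Λ.lam x (c k))) fun k => ev (Λ.lam x (c' k))
  refine ⟨fun k => (((√q)⁻¹ : ℝ) : ℂ) ^ k • D k, fun z => ?_⟩
  have h3 : (sin (t z) : ℂ) * Complex.exp (-(β z * Complex.I)) =
      cos (t z) * conj (z * ((√q)⁻¹ : ℝ)) := by
    have := congrArg conj (h1 z)
    rwa [map_mul, map_mul, Complex.conj_ofReal, Complex.conj_ofReal, ← Complex.exp_conj, map_mul,
      Complex.conj_ofReal, Complex.conj_I, mul_neg] at this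
  rw [Λ.lam_mulS, Λ.lam_mulS _ x, hc, hc', h1, h3]
  simp only [map_sum, map_smul, smul_smul, ← mul_pow]
  rw [hD, Cal_sum, Cal_sum, ← mul_add, ← mul_assoc, ← mul_pow, h2, one_pow, one_mul]
  simp only [map_pow]

lemma Cal_avg {A : S3 → ℝ} (hA : Continuous A) (h0 : ∀ x, 0 ≤ A x) {n : ℕ} (g : Fin n → S3)
    (g' : ℕ → S3) (q : ℕ) {δ m : ℝ} (hδ : 0 < δ) (hm : 0 < m) (hI : ∫ x, A x ∂haar ≤ 2 * m)
    (hlt : ∫ x, |A x - m| ∂haar < δ / (6 * (n + 1)) * m) :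
    ∃ x, (∀ i, |A (g i * x) - m| ≤ δ / 3 * m) ∧
      ∑ j ∈ Finset.range (q + 1), A (g' j * x) ≤ 4 * (q + 1) * m := by
  have c1 (y : S3) : Continuous fun x => |A (y * x) - m| := by fun_prop
  have c2 (y : S3) : Continuous fun x => A (y * x) := by fun_prop
  have c3 : Continuous fun x => (∑ i, |A (g i * x) - m|) / (δ / 3 * m) :=
    (continuous_finsetSum _ fun i _ => c1 _).div_const _
  have c4 : Continuous fun x => (∑ j ∈ Finset.range (q + 1), A (g' j * x)) / (4 * (q + 1) * m) :=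
    (continuous_finsetSum _ fun i _ => c2 _).div_const _
  obtain ⟨x, hx⟩ := exists_le_integral (integrable_of_cont (c3.add c4))
  simp only [Pi.add_apply] at hx
  rw [integral_add (integrable_of_cont c3) (integrable_of_cont c4), integral_div, integral_div,
    integral_finsetSum _ fun i _ => integrable_of_cont (c1 _),
    integral_finsetSum _ fun i _ => integrable_of_cont (c2 _)] at hx
  simp only [integral_mul_left_eq_self (fun x => |A x - m|), integral_mul_left_eq_self A,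
    Finset.sum_const, Finset.card_univ, Fintype.card_fin, Finset.card_range, nsmul_eq_mul,
    Nat.cast_add, Nat.cast_one] at hx
  have p1 : 0 < δ / 3 * m := by positivity
  have p2 : 0 < 4 * (q + 1 : ℝ) * m := by positivity
  have h1 : n * (∫ x, |A x - m| ∂haar) / (δ / 3 * m) ≤ 1 / 2 := by
    rw [div_mul_eq_mul_div, lt_div_iff₀ (by positivity)] at hlt
    have : 0 ≤ ∫ x, |A x - m| ∂haar := integral_nonneg fun _ => abs_nonneg _
    rw [div_le_iff₀ p1]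
    linarith
  have h2 : (q + 1) * (∫ x, A x ∂haar) / (4 * (q + 1) * m) ≤ 1 / 2 := by
    rw [div_le_iff₀ p2]
    nlinarith only [hI, mul_le_mul_of_nonneg_left hI (show (0 : ℝ) ≤ q + 1 by positivity)]
  have h3 : 0 ≤ (∑ i, |A (g i * x) - m|) / (δ / 3 * m) := by positivity
  have h4 : 0 ≤ (∑ j ∈ Finset.range (q + 1), A (g' j * x)) / (4 * (q + 1) * m) :=
    div_nonneg (Finset.sum_nonneg fun _ _ => h0 _) p2.le
  refine ⟨x, fun i => (Finset.single_le_sum (f := fun i => |A (g i * x) - m|)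
    (fun _ _ => abs_nonneg _) (Finset.mem_univ i)).trans ((div_le_one p1).1 (by linarith)),
    (div_le_one p2).1 (by linarith)⟩
theorem cal (N : ℕ) : ∃ (η : ℝ) (q1 : ℕ), 0 < η ∧ ∀ q : ℕ, q1 ≤ q →
    ∀ (W : Type) [NormedAddCommGroup W] [InnerProductSpace ℂ W] (Λ : QRep W)
      (ev : W →L[ℂ] EuclideanSpace ℂ (Fin N)),
      (∀ h, ‖h‖ ^ 2 = ∫ x : S3, ‖ev (Λ.lam x h)‖ ^ 2 ∂haar) →
      ∀ h₁ ∈ Λ.E (q, q ^ 2 + 2 * q), ∀ h₂ ∈ Λ.E (-q, q ^ 2 + 2 * q), ∀ m : ℝ, 0 < m →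
        ‖h₁‖ ^ 2 + ‖h₂‖ ^ 2 ≤ 2 * m →
        η * m ≤ ∫ x : S3, |‖ev (Λ.lam x h₁)‖ ^ 2 + ‖ev (Λ.lam x h₂)‖ ^ 2 - m| ∂haar := by
  obtain ⟨n, ξ, δ, q1, hδ, hξ, H⟩ := cal1 (N + N)
  refine ⟨δ / (6 * (n + 1)), max q1 1, by positivity,
    fun q hq W _ _ Λ ev hev h₁ hh₁ h₂ hh₂ m hm hle => ?_⟩
  obtain ⟨g, hg⟩ := Cal_key (le_of_max_le_right hq) Λ ev hh₁ hh₂
  have hc (h : W) : Continuous fun x : S3 => ‖ev (Λ.lam x h)‖ ^ 2 :=
    (ev.continuous.comp (Λ.continuous_lam h)).norm.pow 2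
  have hA : Continuous fun x : S3 => ‖ev (Λ.lam x h₁)‖ ^ 2 + ‖ev (Λ.lam x h₂)‖ ^ 2 :=
    (hc h₁).add (hc h₂)
  have hI : ∫ x : S3, (‖ev (Λ.lam x h₁)‖ ^ 2 + ‖ev (Λ.lam x h₂)‖ ^ 2) ∂haar ≤ 2 * m := by
    rwa [integral_add (integrable_of_cont (hc h₁)) (integrable_of_cont (hc h₂)), ← hev, ← hev]
  refine le_of_not_gt fun hlt => ?_
  obtain ⟨x, hx1, hx2⟩ := Cal_avg hA (fun x => by positivity) (fun i => g (ξ i))
    (fun j : ℕ => g ((2 : ℝ) * Complex.exp (2 * π * j / (q + 1) * Complex.I))) q hδ hm hI hlt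
  obtain ⟨d, hd⟩ := hg x
  have hd' (z : ℂ) : ‖∑ k ∈ Finset.range (q + 1), z ^ k • (((√m)⁻¹ : ℝ) : ℂ) • d k‖ ^ 2 =
      (1 + ‖z‖ ^ 2 / q) ^ q *
        ((‖ev (Λ.lam (g z * x : S3) h₁)‖ ^ 2 + ‖ev (Λ.lam (g z * x : S3) h₂)‖ ^ 2) / m) := by
    simp only [smul_comm _ (((√m)⁻¹ : ℝ) : ℂ)]
    rw [← Finset.smul_sum, norm_smul, mul_pow, hd, Complex.norm_real, Real.norm_eq_abs, sq_abs,
      inv_pow, Real.sq_sqrt hm.le]
    ring
  have e3 := Real.exp_one_lt_three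
  obtain ⟨i, hi⟩ := H q (le_of_max_le_left hq) (Fin N ⊕ Fin N) (by simp)
    (fun k => (((√m)⁻¹ : ℝ) : ℂ) • d k) (by
      have h1 := parseval q (fun k => (((√m)⁻¹ : ℝ) : ℂ) • d k) 2
      have h2 (j : ℕ) : ‖((2 : ℝ) : ℂ) * Complex.exp (2 * π * j / (q + 1) * Complex.I)‖ ^ 2 = 4 := by
        have e : 2 * π * j / (q + 1) * Complex.I = (2 * π * j / (q + 1) : ℝ) * Complex.I := by
          push_cast
          rfl
        rw [norm_mul, e, Complex.norm_exp_ofReal_mul_I, Complex.norm_real]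
        norm_num
      have h3 : (1 + 4 / q : ℝ) ^ q ≤ 100 := by
        refine (Cal_exp q (by norm_num)).trans ?_
        rw [show (4 : ℝ) = (4 : ℕ) * 1 by norm_num, Real.exp_nat_mul]
        exact (pow_le_pow_left₀ (Real.exp_pos 1).le e3.le 4).trans (by norm_num)
      simp only [hd', h2] at h1
      rw [← Finset.mul_sum, ← Finset.sum_div, show (2 : ℝ) ^ 2 = 4 by norm_num] at h1
      refine le_of_mul_le_mul_left (a := (q + 1 : ℝ)) ?_ (by positivity)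
      rw [← h1]
      refine (mul_le_mul h3 ((div_le_iff₀ hm).2 hx2) (by positivity) (by norm_num)).trans_eq ?_
      ring)
  have h4 : (1 + ‖ξ i‖ ^ 2 / q : ℝ) ^ q ≤ 3 :=
    (Cal_exp q (sq_nonneg _)).trans ((Real.exp_le_exp.2
      (pow_le_one₀ (norm_nonneg _) (hξ i))).trans e3.le)
  rw [hd', ← mul_sub_one, div_sub_one hm.ne', abs_mul, abs_div, abs_of_pos hm,
    abs_of_nonneg (by positivity)] at hi
  have h5 := mul_le_mul h4 ((div_le_iff₀ hm).2 (hx1 i)) (by positivity) (by norm_num)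
  linarith only [hi, h5]

end Pool.Agent.Work.MP_0ba68b_gt.CX
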