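import Mathlib.Analysis.Real.Pi.Bounds
import Mathlib.Analysis.SpecialFunctions.Trigonometric.Bounds
import Mathlib.Analysis.SpecialFunctions.Trigonometric.Deriv
import Mathlib.Analysis.Calculus.Deriv.MeanValue

/-!
A bisection checker for boxes with rational corners, and polynomial bounds for `cos (π a)`.
-/

open Real

namespace Pool.Agent.Work.MP_0ba68b_gt.CX

/-- A box in four variables. -/
structure Box where
  (a0 a1 b0 b1 c0 c1 d0 d1 : ℚ)

/-- Membership in a box. -/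
def Box.Mem (B : Box) (a b c d : ℝ) : Prop :=
  (B.a0 ≤ a ∧ a ≤ B.a1) ∧ (B.b0 ≤ b ∧ b ≤ B.b1) ∧ (B.c0 ≤ c ∧ c ≤ B.c1) ∧ (B.d0 ≤ d ∧ d ≤ B.d1)

/-- The two halves of a box: the side that is longest relative to the weights is cut. -/
def Box.split (wa wb wc wd : ℚ) (B : Box) : Box × Box :=
  let la := (B.a1 - B.a0) * wa
  let lb := (B.b1 - B.b0) * wb
  let lc := (B.c1 - B.c0) * wc
  let ld := (B.d1 - B.d0) * wd
  if lb ≤ la ∧ lc ≤ la ∧ ld ≤ la then
    let m := (B.a0 + B.a1) / 2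
    ({ B with a1 := m }, { B with a0 := m })
  else if lc ≤ lb ∧ ld ≤ lb then
    let m := (B.b0 + B.b1) / 2
    ({ B with b1 := m }, { B with b0 := m })
  else if ld ≤ lc then
    let m := (B.c0 + B.c1) / 2
    ({ B with c1 := m }, { B with c0 := m })
  else
    let m := (B.d0 + B.d1) / 2
    ({ B with d1 := m }, { B with d0 := m })

lemma Box.mem_split (wa wb wc wd : ℚ) {B : Box} {a b c d : ℝ} (h : B.Mem a b c d) :
    (B.split wa wb wc wd).1.Mem a b c d ∨ (B.split wa wb wc wd).2.Mem a b c d := by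
  obtain ⟨ha, hb, hc, hd⟩ := h
  unfold Box.split
  simp only
  split_ifs
  · rcases le_total a (((B.a0 + B.a1) / 2 : ℚ) : ℝ) with h | h
    · exact Or.inl ⟨⟨ha.1, h⟩, hb, hc, hd⟩
    · exact Or.inr ⟨⟨h, ha.2⟩, hb, hc, hd⟩
  · rcases le_total b (((B.b0 + B.b1) / 2 : ℚ) : ℝ) with h | h
    · exact Or.inl ⟨ha, ⟨hb.1, h⟩, hc, hd⟩
    · exact Or.inr ⟨ha, ⟨h, hb.2⟩, hc, hd⟩
  · rcases le_total c (((B.c0 + B.c1) / 2 : ℚ) : ℝ) with h | h
    · exact Or.inl ⟨ha, hb, ⟨hc.1, h⟩, hd⟩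
    · exact Or.inr ⟨ha, hb, ⟨h, hc.2⟩, hd⟩
  · rcases le_total d (((B.d0 + B.d1) / 2 : ℚ) : ℝ) with h | h
    · exact Or.inl ⟨ha, hb, hc, ⟨hd.1, h⟩⟩
    · exact Or.inr ⟨ha, hb, hc, ⟨h, hd.2⟩⟩

/-- The checker. -/
def chk (test : Box → Bool) (wa wb wc wd : ℚ) : ℕ → Box → Bool
  | 0, B => test B
  | n + 1, B => test B || (chk test wa wb wc wd n (B.split wa wb wc wd).1 &&
      chk test wa wb wc wd n (B.split wa wb wc wd).2)

theorem chk_sound {test : Box → Bool} {P : ℝ → ℝ → ℝ → ℝ → Prop}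
    (ht : ∀ B, test B = true → ∀ a b c d, B.Mem a b c d → P a b c d) (wa wb wc wd : ℚ) :
    ∀ n B, chk test wa wb wc wd n B = true → ∀ a b c d, B.Mem a b c d → P a b c d := by
  intro n
  induction n with
  | zero => exact ht
  | succ n ih =>
    intro B h a b c d hm
    simp only [chk, Bool.or_eq_true, Bool.and_eq_true] at h
    rcases h with h | ⟨h1, h2⟩
    · exact ht B h a b c d hm
    · rcases Box.mem_split wa wb wc wd hm with h | h
      · exact ih _ h1 a b c d h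
      · exact ih _ h2 a b c d h

/-- Lower polynomial for `cos (π a)`. -/
def cl (a : ℚ) : ℚ :=
  1 - a * a * (49349 / 10000 - a * a * (40587 / 10000 - a * a * (13353 / 10000)))

/-- Upper polynomial for `cos (π a)`. -/
def cu (a : ℚ) : ℚ :=
  1 - a * a * (49348 / 10000 - a * a * (40588 / 10000 -
    a * a * (13352 / 10000 - a * a * (2354 / 10000))))

private lemma nonneg_of_deriv {f f' : ℝ → ℝ} (hd : ∀ x, HasDerivAt f (f' x) x) (h0 : f 0 = 0)
    (hp : ∀ x, 0 ≤ x → 0 ≤ f' x) {x : ℝ} (hx : 0 ≤ x) : 0 ≤ f x := by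
  have : MonotoneOn f (Set.Ici 0) := by
    refine monotoneOn_of_deriv_nonneg (convex_Ici 0)
      (fun y _ => (hd y).continuousAt.continuousWithinAt)
      (fun y _ => (hd y).differentiableAt.differentiableWithinAt) fun y hy => ?_
    rw [(hd y).deriv]
    exact hp y (le_of_lt (by simpa using hy))
  simpa [h0] using this Set.self_mem_Ici hx hx

lemma sin_ge3 {x : ℝ} (hx : 0 ≤ x) : x - x ^ 3 / 6 ≤ sin x := by
  have := nonneg_of_deriv (f := fun x => sin x - (x - x ^ 3 / 6))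
    (f' := fun x => cos x - (1 - x ^ 2 / 2))
    (fun x => by
      refine HasDerivAt.congr_deriv (((hasDerivAt_sin x).sub ((hasDerivAt_id x).sub ((hasDerivAt_pow 3 x).div_const 6))) : HasDerivAt _ _ x) ?_
      push_cast
      ring)
    (by simp) (fun x _ => by linarith [one_sub_sq_div_two_le_cos (x := x)]) hx
  linarith

lemma cos_le4 {x : ℝ} (hx : 0 ≤ x) : cos x ≤ 1 - x ^ 2 / 2 + x ^ 4 / 24 := by
  have := nonneg_of_deriv (f := fun x => 1 - x ^ 2 / 2 + x ^ 4 / 24 - cos x)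
    (f' := fun x => sin x - (x - x ^ 3 / 6))
    (fun x => by
      refine HasDerivAt.congr_deriv ((((((hasDerivAt_pow 2 x).div_const 2).const_sub 1).add
        ((hasDerivAt_pow 4 x).div_const 24)).sub (hasDerivAt_cos x)) : HasDerivAt _ _ x) ?_
      push_cast
      ring)
    (by simp) (fun x hx => by linarith [sin_ge3 hx]) hx
  linarith

lemma sin_le5 {x : ℝ} (hx : 0 ≤ x) : sin x ≤ x - x ^ 3 / 6 + x ^ 5 / 120 := by
  have := nonneg_of_deriv (f := fun x => x - x ^ 3 / 6 + x ^ 5 / 120 - sin x)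
    (f' := fun x => 1 - x ^ 2 / 2 + x ^ 4 / 24 - cos x)
    (fun x => by
      refine HasDerivAt.congr_deriv (((((hasDerivAt_id x).sub ((hasDerivAt_pow 3 x).div_const 6)).add
        ((hasDerivAt_pow 5 x).div_const 120)).sub (hasDerivAt_sin x)) : HasDerivAt _ _ x) ?_
      push_cast
      ring)
    (by simp) (fun x hx => by linarith [cos_le4 hx]) hx
  linarith

lemma cos_ge6 {x : ℝ} (hx : 0 ≤ x) : 1 - x ^ 2 / 2 + x ^ 4 / 24 - x ^ 6 / 720 ≤ cos x := by
  have := nonneg_of_deriv (f := fun x => cos x - (1 - x ^ 2 / 2 + x ^ 4 / 24 - x ^ 6 / 720))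
    (f' := fun x => x - x ^ 3 / 6 + x ^ 5 / 120 - sin x)
    (fun x => by
      refine HasDerivAt.congr_deriv (((hasDerivAt_cos x).sub (((((hasDerivAt_pow 2 x).div_const 2).const_sub 1).add
        ((hasDerivAt_pow 4 x).div_const 24)).sub ((hasDerivAt_pow 6 x).div_const 720))) : HasDerivAt _ _ x) ?_
      push_cast
      ring)
    (by simp) (fun x hx => by linarith [sin_le5 hx]) hx
  linarith

lemma sin_ge7 {x : ℝ} (hx : 0 ≤ x) : x - x ^ 3 / 6 + x ^ 5 / 120 - x ^ 7 / 5040 ≤ sin x := by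
  have := nonneg_of_deriv (f := fun x => sin x - (x - x ^ 3 / 6 + x ^ 5 / 120 - x ^ 7 / 5040))
    (f' := fun x => cos x - (1 - x ^ 2 / 2 + x ^ 4 / 24 - x ^ 6 / 720))
    (fun x => by
      refine HasDerivAt.congr_deriv (((hasDerivAt_sin x).sub ((((hasDerivAt_id x).sub
        ((hasDerivAt_pow 3 x).div_const 6)).add ((hasDerivAt_pow 5 x).div_const 120)).sub
        ((hasDerivAt_pow 7 x).div_const 5040))) : HasDerivAt _ _ x) ?_
      push_cast
      ring)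
    (by simp) (fun x hx => by linarith [cos_ge6 hx]) hx
  linarith

lemma cos_le8 {x : ℝ} (hx : 0 ≤ x) :
    cos x ≤ 1 - x ^ 2 / 2 + x ^ 4 / 24 - x ^ 6 / 720 + x ^ 8 / 40320 := by
  have := nonneg_of_deriv
    (f := fun x => 1 - x ^ 2 / 2 + x ^ 4 / 24 - x ^ 6 / 720 + x ^ 8 / 40320 - cos x)
    (f' := fun x => sin x - (x - x ^ 3 / 6 + x ^ 5 / 120 - x ^ 7 / 5040))
    (fun x => by
      refine HasDerivAt.congr_deriv ((((((((hasDerivAt_pow 2 x).div_const 2).const_sub 1).add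
        ((hasDerivAt_pow 4 x).div_const 24)).sub ((hasDerivAt_pow 6 x).div_const 720)).add
        ((hasDerivAt_pow 8 x).div_const 40320)).sub (hasDerivAt_cos x)) : HasDerivAt _ _ x) ?_
      push_cast
      ring)
    (by simp) (fun x hx => by linarith [sin_ge7 hx]) hx
  linarith

lemma pi_sq_lower : 98696 / 10000 ≤ π ^ 2 := by nlinarith [pi_gt_d6, pi_pos]
lemma pi_sq_upper : π ^ 2 ≤ 98697 / 10000 := by nlinarith [pi_lt_d6, pi_pos]

private lemma pi_pows : (π ^ 2 / 2 ≤ 49349 / 10000 ∧ 49348 / 10000 ≤ π ^ 2 / 2) ∧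
    (π ^ 4 / 24 ≤ 40588 / 10000 ∧ 40587 / 10000 ≤ π ^ 4 / 24) ∧
    (π ^ 6 / 720 ≤ 13353 / 10000 ∧ 13352 / 10000 ≤ π ^ 6 / 720) ∧
    π ^ 8 / 40320 ≤ 2354 / 10000 := by
  have h1 : (3.141592 : ℝ) ≤ π := pi_gt_d6.le
  have h2 : π ≤ 3.141593 := pi_lt_d6.le
  have up : ∀ n : ℕ, π ^ n ≤ 3.141593 ^ n := fun n => pow_le_pow_left₀ pi_pos.le h2 n
  have lo : ∀ n : ℕ, (3.141592 : ℝ) ^ n ≤ π ^ n := fun n => pow_le_pow_left₀ (by norm_num) h1 n
  refine ⟨⟨?_, ?_⟩, ⟨?_, ?_⟩, ⟨?_, ?_⟩, ?_⟩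
  · have := up 2; norm_num at this ⊢; linarith
  · have := lo 2; norm_num at this ⊢; linarith
  · have := up 4; norm_num at this ⊢; linarith
  · have := lo 4; norm_num at this ⊢; linarith
  · have := up 6; norm_num at this ⊢; linarith
  · have := lo 6; norm_num at this ⊢; linarith
  · have := up 8; norm_num at this ⊢; linarith

lemma cl_le_cos' {a : ℚ} (ha : 0 ≤ a) : (cl a : ℝ) ≤ cos (π * a) := by
  obtain ⟨⟨h2, -⟩, ⟨-, h4⟩, ⟨h6, -⟩, -⟩ := pi_pows
  have ha' : (0 : ℝ) ≤ a := by exact_mod_cast ha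
  refine le_trans ?_ (cos_ge6 (by positivity))
  simp only [cl]
  push_cast
  nlinarith [mul_nonneg (sub_nonneg.2 h2) (pow_nonneg ha' 2),
    mul_nonneg (sub_nonneg.2 h4) (pow_nonneg ha' 4),
    mul_nonneg (sub_nonneg.2 h6) (pow_nonneg ha' 6)]

lemma cos_le_cu' {a : ℚ} (ha : 0 ≤ a) : cos (π * a) ≤ (cu a : ℝ) := by
  obtain ⟨⟨-, h2⟩, ⟨h4, -⟩, ⟨-, h6⟩, h8⟩ := pi_pows
  have ha' : (0 : ℝ) ≤ a := by exact_mod_cast ha
  refine le_trans (cos_le8 (by positivity)) ?_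
  simp only [cu]
  push_cast
  nlinarith [mul_nonneg (sub_nonneg.2 h2) (pow_nonneg ha' 2),
    mul_nonneg (sub_nonneg.2 h4) (pow_nonneg ha' 4),
    mul_nonneg (sub_nonneg.2 h6) (pow_nonneg ha' 6),
    mul_nonneg (sub_nonneg.2 h8) (pow_nonneg ha' 8)]

/-- Lower bound on an interval: `0 ≤ x ≤ a ≤ 1`. -/
lemma cl_le_cos {a : ℚ} {x : ℝ} (hx : 0 ≤ x) (hxa : x ≤ a) (ha : a ≤ 1) :
    (cl a : ℝ) ≤ cos (π * x) := by
  have ha' : (a : ℝ) ≤ 1 := by exact_mod_cast ha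
  have h0 : 0 ≤ a := by exact_mod_cast hx.trans hxa
  refine (cl_le_cos' h0).trans (cos_le_cos_of_nonneg_of_le_pi (by positivity) ?_ ?_)
  · nlinarith [pi_pos]
  · nlinarith [pi_pos]

/-- Upper bound on an interval: `0 ≤ a ≤ x ≤ 1`. -/
lemma cos_le_cu {a : ℚ} {x : ℝ} (ha : 0 ≤ a) (hax : a ≤ x) (hx : x ≤ 1) :
    cos (π * x) ≤ (cu a : ℝ) := by
  have ha' : (0 : ℝ) ≤ a := by exact_mod_cast ha
  refine le_trans (cos_le_cos_of_nonneg_of_le_pi (by positivity) ?_ ?_) (cos_le_cu' ha)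
  · nlinarith [pi_pos]
  · nlinarith [pi_pos]

/-- The angle profile of the second explicit kernel. -/
noncomputable def th2 (ρ : ℝ) : ℝ := min (π * max (ρ / 2) (58 / 100 * ρ - 3 / 100)) (π / 2)

/-- The amplitude profile of the second explicit kernel. -/
noncomputable def h2 (ρ : ℝ) : ℝ :=
  max 0 (min (128 / 100 * (ρ - 42 / 100)) (98 / 100 * ρ - 17 / 100))

end Pool.Agent.Work.MP_0ba68b_gt.CX
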