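import Pool.Agent.Work.MP_0ba68b_gt.CX.Model4

/-!
Large ratios: add a circle factor.  The model lemma.

PLAN.  `switch`: let `z = |Δ₁ - m₁|`.  If `z ≤ 17/32` keep `m`: `sin² (π z)/π² ≥ 33/100 z²` (`z ≤ 1/2`:
`Real.mul_le_sin` gives `4/π²`; `1/2 ≤ z ≤ 17/32`: `sin (π z) = cos (π (z - 1/2)) ≥ 1 - (π/32)²/2`).  Otherwise let
`m₁' = round Δ₁`, `d = |Δ₁ - m₁'| ≤ 1/2`, `z² - d² ≥ 1/16` (if `m₁ ≠ m₁'` then `z ≥ 1 - d`; `z ≤ 1`: `d ≤ 1 - z`...), and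
`m₂' = m₂` if `m₁ - m₁'` is even, else `m₂ ± 1` towards `Δ₂`, so `(Δ₂ - m₂')² ≤ (Δ₂ - m₂)² + 1`.
`circle`: `K' = K + (1 - η/2) (y² - 16)/(4π²) cos (2π Δ₁)`, `nd` gains `(1 - η/2) (y² - 16) sin² (π Δ₁)/π²`, which is
`≤ (1 - η/2) (y² - 16) Δ₁²`.  `rep y = rep 4 + (y² - 16) Δ₁²`; `angP p (gam m' p') = angP p (gam m p')` if the parities agree
(`ang_zpow_even`, `ang_zpow_odd`); `(l2 + η/4) ≤ (1 - η/100)(1 - η/2) 33/100`.
`model`: `R = max R0 R1`; `inner_out`, `model4` at `min y 4`, then `circle` if `4 ≤ y`.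
-/

open Real

namespace Pool.Agent.Work.MP_0ba68b_gt.CX

lemma Circle_sin0 {z : ℝ} (h0 : 0 ≤ z) (h1 : z ≤ 17 / 32) :
    33 / 100 * z ^ 2 ≤ sin (π * z) ^ 2 / π ^ 2 := by
  have hp := pi_pos
  have hq : π ^ 2 ≤ 10 := by nlinarith [pi_lt_d2]
  rw [le_div_iff₀ (by positivity)]
  rcases le_total z (1 / 2) with h | h
  · have h2 := mul_le_sin (x := π * z) (by positivity) (by nlinarith only [hp, h])
    rw [show 2 / π * (π * z) = 2 * z by field_simp] at h2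
    have h3 : (2 * z) ^ 2 ≤ sin (π * z) ^ 2 := pow_le_pow_left₀ (by positivity) h2 2
    nlinarith only [h3, hq, sq_nonneg z]
  · have h2 : sin (π * z) = cos (π * (z - 1 / 2)) := by
      rw [← cos_sub_pi_div_two]; congr 1; ring
    have h3 := one_sub_sq_div_two_le_cos (x := π * (z - 1 / 2))
    have h4 : (z - 1 / 2) ^ 2 ≤ 1 / 1000 := by nlinarith only [h1, h]
    have h5 : (π * (z - 1 / 2)) ^ 2 ≤ 10 * (1 / 1000) := by
      rw [mul_pow]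
      exact mul_le_mul hq h4 (sq_nonneg _) (by norm_num)
    have h6 : (199 / 200 : ℝ) ^ 2 ≤ sin (π * z) ^ 2 :=
      pow_le_pow_left₀ (by norm_num) (by rw [h2]; linarith) 2
    have h7 : z ^ 2 ≤ (17 / 32) ^ 2 := pow_le_pow_left₀ h0 h1 2
    nlinarith only [h6, h7, hq, mul_le_mul h7 hq (sq_nonneg _) (by norm_num)]

lemma Circle_sin {d : ℝ} {k : ℤ} (h : |d - k| ≤ 17 / 32) :
    33 / 100 * (d - k) ^ 2 ≤ sin (π * d) ^ 2 / π ^ 2 := by
  have h1 := Circle_sin0 (abs_nonneg _) h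
  have h2 : sin (π * |d - k|) ^ 2 = sin (π * d) ^ 2 := by
    have h3 : sin (π * |d - k|) ^ 2 = sin (π * d - k * π) ^ 2 := by
      rcases abs_cases (d - k) with ⟨e, -⟩ | ⟨e, -⟩
      · rw [e]; congr 2; ring
      · rw [e, mul_neg, sin_neg, neg_sq]; congr 2; ring
    rw [h3, sin_sub_int_mul_pi, mul_pow, ← zpow_natCast, ← zpow_mul, mul_comm k, zpow_mul]
    simp
  rwa [h2, sq_abs] at h1

lemma switch (d1 d2 : ℝ) (m : ℤ × ℤ) : ∃ m' : ℤ × ℤ, Even (m'.1 + m'.2 - (m.1 + m.2)) ∧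
    16 * (d1 - m'.1) ^ 2 + (d2 - m'.2) ^ 2 ≤ 16 * (d1 - m.1) ^ 2 + (d2 - m.2) ^ 2 ∧
    33 / 100 * (d1 - m'.1) ^ 2 ≤ sin (π * d1) ^ 2 / π ^ 2 := by
  rcases le_total |d1 - m.1| (17 / 32) with h | h
  · exact ⟨m, by simp, le_rfl, Circle_sin h⟩
  have h1 : 33 / 100 * (d1 - round d1) ^ 2 ≤ sin (π * d1) ^ 2 / π ^ 2 :=
    Circle_sin ((abs_sub_round d1).trans (by norm_num))
  have h2 : ∀ k : ℤ, (d1 - round d1) ^ 2 ≤ (d1 - k) ^ 2 := fun k => sq_le_sq.2 (round_le d1 k)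
  have h3 : 16 * (d1 - round d1) ^ 2 + 1 ≤ 16 * (d1 - m.1) ^ 2 := by
    have h4 := h2 (m.1 + 1)
    have h5 := h2 (m.1 - 1)
    push_cast at h4 h5
    rcases le_abs.1 h with h | h <;> nlinarith
  rcases Int.even_or_odd (round d1 - m.1) with e | e
  · refine ⟨(round d1, m.2), ?_, by simp only []; linarith, h1⟩
    rwa [show round d1 + m.2 - (m.1 + m.2) = round d1 - m.1 by ring]
  · rcases le_total 0 (d2 - m.2) with s | s
    · refine ⟨(round d1, m.2 + 1), ?_, by push_cast; nlinarith only [h3, s], h1⟩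
      rw [show round d1 + (m.2 + 1) - (m.1 + m.2) = round d1 - m.1 + 1 by ring]
      exact e.add_one
    · refine ⟨(round d1, m.2 - 1), ?_, by push_cast; nlinarith only [h3, s], h1⟩
      rw [show round d1 + (m.2 - 1) - (m.1 + m.2) = round d1 - m.1 - 1 by ring]
      exact e.sub_odd odd_one

lemma Circle_ang {m m' : ℤ × ℤ} (h : Even (m'.1 + m'.2 - (m.1 + m.2))) (p p' : Pt I0) :
    angP p (gam m' p') = angP p (gam m p') := by
  have e : jj ^ (m'.1 + m'.2) = jj ^ (m'.1 + m'.2 - (m.1 + m.2)) * jj ^ (m.1 + m.2) := by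
    rw [← zpow_add, sub_add_cancel]
  simp only [angP, gam, rho_shift]
  rw [e, mul_assoc, ang_zpow_even h]

lemma Circle_nd (K : Pt I0 → Pt I0 → ℝ) (c : ℝ) (p p' : Pt I0) :
    nd (fun p p' => K p p' + c / (4 * π ^ 2) * cos (2 * π * p.1.2.1 - 2 * π * p'.1.2.1)) p p' =
      nd K p p' + c * (sin (π * (p.1.2.1 - p'.1.2.1)) ^ 2 / π ^ 2) := by
  have := pi_pos
  simp only [nd, sub_self, cos_zero]
  rw [show 2 * π * p.1.2.1 - 2 * π * p'.1.2.1 = 2 * (π * (p.1.2.1 - p'.1.2.1)) by ring,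
    cos_two_mul, cos_sq']
  field_simp
  ring

lemma Circle_sw {y η : ℝ} (hy : 4 ≤ y) (hη : 0 < η) (hη1 : η ≤ 1 / 1000) (m : ℤ × ℤ)
    (p p' : Pt I0) : ∃ m', angP p (gam m' p') = angP p (gam m p') ∧
      (l2 + η / 4) * rep y p (gam m' p') ≤ (l2 + η / 4) * rep 4 p (gam m p') + (1 - η / 100) *
        ((1 - η / 2) * (y ^ 2 - 16) * (sin (π * (p.1.2.1 - p'.1.2.1)) ^ 2 / π ^ 2)) := by
  obtain ⟨m', h1, h2, h3⟩ := switch (p.1.2.1 - p'.1.2.1) (p.1.2.2 - p'.1.2.2) m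
  refine ⟨m', Circle_ang h1 p p', ?_⟩
  have hy' : 0 ≤ y ^ 2 - 16 := by nlinarith only [hy]
  have h4 : rep y p (gam m' p') ≤
      rep 4 p (gam m p') + (y ^ 2 - 16) * (p.1.2.1 - p'.1.2.1 - m'.1) ^ 2 := by
    simp only [rep, Circle_ang h1 p p', Dsq, rho_gam]
    simp only [sg, gam, shift, ← sub_sub]
    linarith only [h2]
  have h5 : 0 ≤ l2 + η / 4 := by unfold l2; positivity
  have h6 : l2 + η / 4 ≤ (1 - η / 100) * (1 - η / 2) * (33 / 100) := by unfold l2; nlinarith only [hη, hη1]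
  have h7 : 0 ≤ (1 - η / 100) * (1 - η / 2) := mul_nonneg (by linarith only [hη, hη1]) (by linarith)
  have h8 := mul_le_mul_of_nonneg_right h6
    (mul_nonneg hy' (sq_nonneg (p.1.2.1 - p'.1.2.1 - m'.1)))
  have h9 := mul_le_mul_of_nonneg_left h3 (mul_nonneg h7 hy')
  have h10 := mul_le_mul_of_nonneg_left h4 h5
  linarith

lemma Circle_up {y η : ℝ} (hy : 4 ≤ y) (hη : 0 < η) (hη1 : η ≤ 1 / 1000) (d : ℝ) :
    (1 + η / 100) * ((1 - η / 2) * (y ^ 2 - 16) * (sin (π * d) ^ 2 / π ^ 2)) ≤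
      (1 - η / 4) * ((y ^ 2 - 16) * d ^ 2) := by
  have hp := pi_pos
  have hy' : 0 ≤ y ^ 2 - 16 := by nlinarith
  have h1 : sin (π * d) ^ 2 / π ^ 2 ≤ d ^ 2 := by
    rw [div_le_iff₀ (by positivity)]
    linarith [sin_sq_le_sq (x := π * d)]
  have h2 : (1 + η / 100) * (1 - η / 2) ≤ 1 - η / 4 := by nlinarith only [hη]
  have h3 := mul_le_mul h2 (mul_le_mul_of_nonneg_left h1 hy') (by positivity) (by linarith)
  linarith

lemma Circle_sg (y : ℝ) (a a' : Ax I0) :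
    sg y a a' = sg 4 a a' + (y ^ 2 - 16) * (a.2.1 - a'.2.1) ^ 2 := by
  unfold sg; ring

lemma Circle_rep {y : ℝ} (hy : 4 ≤ y) (p p' : Pt I0) : rep 4 p p' ≤ rep y p p' := by
  have hy' : 0 ≤ y ^ 2 - 16 := by nlinarith
  simp only [rep, Dsq, Circle_sg y]
  linarith [mul_nonneg hy' (sq_nonneg (p.1.2.1 - p'.1.2.1))]

theorem circle {y η bm μ ω R : ℝ} {W : ℝ → ℝ} {K : Pt I0 → Pt I0 → ℝ} (hy : 4 ≤ y) (hη : 0 < η)
    (hη1 : η ≤ 1 / 1000) (hR : 0 ≤ R) (h : ModelOut 4 η bm μ ω R W K) :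
    ∃ K', ModelOut y η bm μ ω R W K' := by
  have hp := pi_pos
  have hy' : 0 ≤ y ^ 2 - 16 := by nlinarith
  have hc : 0 ≤ (1 - η / 2) * (y ^ 2 - 16) := mul_nonneg (by linarith) hy'
  refine ⟨fun p p' => K p p' + (1 - η / 2) * (y ^ 2 - 16) / (4 * π ^ 2) *
    cos (2 * π * p.1.2.1 - 2 * π * p'.1.2.1), ⟨?_, ?_, ?_, ?_⟩, h.W0, h.W1, h.Wtop, h.Wbot, h.Wlip,
    ?_, ?_, ?_, ?_, ?_⟩
  · exact h.psd.add ((PSD.cos fun p : Pt I0 => 2 * π * p.1.2.1).smul (by positivity))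
  · intro p a' x' φ
    simp only [h.uinv]
  · intro m p p'
    simp only [h.ginv]
    simp only [gam, shift]
    rw [show 2 * π * p.1.2.1 - 2 * π * (p'.1.2.1 + m.1) =
      2 * π * p.1.2.1 - 2 * π * p'.1.2.1 - m.1 * (2 * π) by ring, cos_sub_int_mul_two_pi]
  · intro p a' x' x'' h0
    simp only [h.zero p a' x' x'' h0]
  · intro p
    have h1 := h.diag p
    have h2 : (1 - η / 2) * (y ^ 2 - 16) / (4 * π ^ 2) ≤ y ^ 2 - 16 := by
      refine (div_le_self hc (by nlinarith only [hη, hη1, hp, pi_gt_three])).trans ?_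
      nlinarith only [hη, hy']
    simp only [sub_self, cos_zero, mul_one]
    nlinarith
  · intro p p' hr
    obtain ⟨m, hm⟩ := h.lowA p p' hr
    obtain ⟨m', e, h1⟩ := Circle_sw hy hη hη1 m p p'
    refine ⟨m', ?_⟩
    have e2 : cap μ ω p (gam m' p') = cap μ ω p (gam m p') := by simp only [cap, e, rho_gam]
    rw [Circle_nd, e2]
    linarith
  · intro p p' hr hr'
    obtain ⟨m, hm⟩ := h.lowB p p' hr hr'
    obtain ⟨m', e, h1⟩ := Circle_sw hy hη hη1 m p p'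
    refine ⟨m', ?_⟩
    rw [Circle_nd, e]
    linarith
  · intro p ε hε
    obtain ⟨δ, hδ, h1⟩ := h.upA p ε hε
    refine ⟨δ, hδ, fun p' hp' => ?_⟩
    have h2 := Circle_rep hy p p'
    have h3 := h1 p' (h2.trans_lt hp')
    have h4 := Circle_up hy hη hη1 (p.1.2.1 - p'.1.2.1)
    have h5 := mul_le_mul_of_nonneg_left h2 hε.le
    rw [Circle_nd]
    simp only [Dsq, Circle_sg y] at h3 ⊢
    linarith
  · intro p hr ε hε
    obtain ⟨δ, hδ, h1⟩ := h.upB p hr ε hε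
    refine ⟨δ, hδ, fun p' hp' => ?_⟩
    have h2 := Circle_rep hy p p'
    have h3 := h1 p' (h2.trans_lt hp')
    have h4 := Circle_up hy hη hη1 (p.1.2.1 - p'.1.2.1)
    have h5 := mul_le_mul_of_nonneg_left h2 hε.le
    rw [Circle_nd, Circle_sg y]
    linarith

theorem model {η : ℝ} (hη : 0 < η) (hη1 : η ≤ 1 / 1000) : ∃ R, 2 ≤ R ∧
    ∀ y bm μ ω : ℝ, 1 ≤ y → 998 / 1000 ≤ bm → bm ≤ 1 → 0 ≤ μ → μ ≤ 1 / 1000 → 0 ≤ ω →
      (∀ R', 2 ≤ R' → ∃ K : Pt (IR R') → Pt (IR R') → ℝ, AdmL (min y 4) bm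
        (fun p p' => (l2 + η) * rep (min y 4) p p' + 2 * cap μ ω p p') K) →
      ∃ W K, ModelOut y η bm μ ω R W K := by
  obtain ⟨R0, h0, H0⟩ := inner_out hη hη1
  obtain ⟨R1, -, H1⟩ := model4 hη hη1
  have hR : 2 ≤ max R0 R1 := h0.trans (le_max_left _ _)
  refine ⟨max R0 R1, hR, fun y bm μ ω hy b0 b1 m0 m1 w0 hK => ?_⟩
  have y1 : 1 ≤ min y 4 := le_min hy (by norm_num)
  obtain ⟨Kin, hin⟩ := H0 _ (le_max_left R0 R1) _ bm μ ω y1 (min_le_right _ _) b0 b1 m0 m1 w0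
    (hK _ (by linarith))
  obtain ⟨W, K, hW⟩ := H1 _ (le_max_right R0 R1) _ bm μ ω y1 (min_le_right _ _) b0 b1 m0 m1 w0
    Kin hin
  rcases le_total y 4 with h | h
  · rw [min_eq_left h] at hW
    exact ⟨W, K, hW⟩
  · rw [min_eq_right h] at hW
    exact ⟨W, circle h hη hη1 (by linarith) hW⟩

end Pool.Agent.Work.MP_0ba68b_gt.CX
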