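import Pool.Agent.Work.MP_0ba68b_gt.CX.ClkPair

/-!
The clock lattice in the regime where three consecutive vectors form a good basis.

PLAN.  Write `p n = ‖pv (cz (v n))‖`, `A n = an (cz (v n))`, `t = T ((n+1)/3)`.  `r A (n+2) ≤ t p (n+2)` from `an_succ`, `five`.
`r A n ≤ √Q (v n)`, `p m ≤ √Q (v m)`; each pair has `|B| ≤ 2t √Q √Q` (`abs_real_inner_le_norm`, `orth'`).
Sizes: `A n ≤ t` (`an_le`), `p (n+2) ≤ 4 t r` (`n = 0`: `hr0`; `n ≥ 1`: `len_le`, `hr1`, `an_up`, `A ≤ 1`), `p (n+1) ≤ 5 p (n+2)`.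
Cases `n = 3j`: `(a,b,c) = (v (n+1), v (n+2), v n)`; `n = 3j+1`: `(v n, v (n+1), v (n+2))`; in both `a = v (3j+1)`, `b = v (3j+2)`,
`Q a ≥ p²`, `Q b ≤ (1 + t²) p²`, `ratio'`, `big'`.  `n = 3j+2`: `(v (n+2), v n, v (n+1))`, `r A n ≤ 2 N r A (n+1) ≤ 4 t p (n+3)`
(`an_lo`, `len_ge`), `p (n+2) ≥ p (n+3)/2` (`ratio'` at `j + 1`), `r A n ≥ p n/t ≥ 1/t`.
It is convenient to prove first the symmetric facts (three pair bounds, three size bounds, span) and then permute.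
-/

open Real

namespace Pool.Agent.Work.MP_0ba68b_gt.CX

variable {P : Par} {T Y : ℕ → ℝ} {v : ℕ → Z3} {N N' : ℕ → ℤ}

lemma ClkI_Q_eq (P : Par) (r : ℝ) (u : R3) :
    P.Q r u = (r * P.an u) ^ 2 + ‖P.pv u‖ ^ 2 := by
  unfold Par.Q; ring

lemma ClkI_B_eq (P : Par) (r : ℝ) (u w : R3) :
    P.B r u w = (r * P.an u) * (r * P.an w) + inner ℝ (P.pv u) (P.pv w) := by
  unfold Par.B; ring

lemma ClkI_an_sq_le (P : Par) (r : ℝ) (u : R3) : (r * P.an u) ^ 2 ≤ P.Q r u := by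
  rw [ClkI_Q_eq]; linarith [sq_nonneg ‖P.pv u‖]

lemma ClkI_pv_sq_le (P : Par) (r : ℝ) (u : R3) : ‖P.pv u‖ ^ 2 ≤ P.Q r u := by
  rw [ClkI_Q_eq]; linarith [sq_nonneg (r * P.an u)]

lemma ClkI_an_le (P : Par) (r : ℝ) (u : R3) : r * P.an u ≤ √(P.Q r u) :=
  Real.le_sqrt_of_sq_le (ClkI_an_sq_le P r u)

lemma ClkI_pv_le (P : Par) (r : ℝ) (u : R3) : ‖P.pv u‖ ≤ √(P.Q r u) :=
  Real.le_sqrt_of_sq_le (ClkI_pv_sq_le P r u)

lemma ClkI_Q_an (P : Par) {r t : ℝ} {u : R3} (h : ‖P.pv u‖ ≤ t * (r * P.an u)) :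
    P.Q r u ≤ (1 + t ^ 2) * (r * P.an u) ^ 2 := by
  rw [ClkI_Q_eq]
  have := pow_le_pow_left₀ (norm_nonneg _) h 2
  nlinarith

lemma ClkI_Q_pv (P : Par) {r t : ℝ} {u : R3} (h0 : 0 ≤ r * P.an u)
    (h : r * P.an u ≤ t * ‖P.pv u‖) : P.Q r u ≤ (1 + t ^ 2) * ‖P.pv u‖ ^ 2 := by
  rw [ClkI_Q_eq]
  have := pow_le_pow_left₀ h0 h 2
  nlinarith

lemma ClkI_mix (P : Par) {r t : ℝ} {u w : R3} (ht : 0 ≤ t) (hw : 0 ≤ r * P.an w)
    (hu : 0 ≤ r * P.an u) (h1 : ‖P.pv u‖ ≤ t * (r * P.an u)) (h2 : r * P.an w ≤ t * ‖P.pv w‖) :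
    |P.B r u w| ≤ 2 * t * (√(P.Q r u) * √(P.Q r w)) := by
  have a1 := ClkI_an_le P r u
  have a2 := ClkI_pv_le P r w
  have s1 : 0 ≤ √(P.Q r u) := Real.sqrt_nonneg _
  have b1 : r * P.an w ≤ t * √(P.Q r w) := h2.trans (mul_le_mul_of_nonneg_left a2 ht)
  have b2 : ‖P.pv u‖ ≤ t * √(P.Q r u) := h1.trans (mul_le_mul_of_nonneg_left a1 ht)
  have c1 : (r * P.an u) * (r * P.an w) ≤ √(P.Q r u) * (t * √(P.Q r w)) :=
    mul_le_mul a1 b1 hw s1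
  have c2 : ‖P.pv u‖ * ‖P.pv w‖ ≤ (t * √(P.Q r u)) * √(P.Q r w) :=
    mul_le_mul b2 a2 (norm_nonneg _) (mul_nonneg ht s1)
  have c3 := abs_real_inner_le_norm (P.pv u) (P.pv w)
  have c4 := mul_nonneg hu hw
  rw [ClkI_B_eq]
  refine (abs_add_le _ _).trans ?_
  rw [abs_of_nonneg c4]
  linarith

lemma ClkI_pl (P : Par) {r t : ℝ} {u w : R3} (ht : 0 ≤ t) (hu : 0 ≤ r * P.an u)
    (hw : 0 ≤ r * P.an w) (h1 : r * P.an u ≤ t * ‖P.pv u‖)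
    (ho : |inner ℝ (P.pv u) (P.pv w)| ≤ t * (‖P.pv u‖ * ‖P.pv w‖)) :
    |P.B r u w| ≤ 2 * t * (√(P.Q r u) * √(P.Q r w)) := by
  have a1 := ClkI_pv_le P r u
  have a2 := ClkI_pv_le P r w
  have a3 := ClkI_an_le P r w
  have s1 : 0 ≤ √(P.Q r u) := Real.sqrt_nonneg _
  have b1 : r * P.an u ≤ t * √(P.Q r u) := h1.trans (mul_le_mul_of_nonneg_left a1 ht)
  have c1 : (r * P.an u) * (r * P.an w) ≤ (t * √(P.Q r u)) * √(P.Q r w) :=
    mul_le_mul b1 a3 hw (mul_nonneg ht s1)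
  have c2 : ‖P.pv u‖ * ‖P.pv w‖ ≤ √(P.Q r u) * √(P.Q r w) :=
    mul_le_mul a1 a2 (norm_nonneg _) s1
  have c3 := ho.trans (mul_le_mul_of_nonneg_left c2 ht)
  have c4 := mul_nonneg hu hw
  rw [ClkI_B_eq]
  refine (abs_add_le _ _).trans ?_
  rw [abs_of_nonneg c4]
  linarith

lemma ClkI_ratio {y t p q Qa Qb : ℝ} (hy : 1 ≤ y) (ht : 0 < t) (ht1 : t ≤ 1 / 10 ^ 4)
    (hq : 0 ≤ q) (h : (y - t) * q ≤ p) (ha : p ^ 2 ≤ Qa) (hb : Qb ≤ (1 + t ^ 2) * q ^ 2) :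
    (y * (1 - 1000 * t)) ^ 2 * Qb ≤ Qa := by
  have e1 : 0 ≤ 1 - 1000 * t := by linarith
  have e2 : (1 - 1000 * t) * (1 + t) ≤ 1 - t := by nlinarith only [ht]
  have e3 : y * ((1 - 1000 * t) * (1 + t)) ≤ y - t := by
    have := mul_le_mul_of_nonneg_left e2 (by linarith : 0 ≤ y)
    nlinarith only [this, hy, ht]
  have e4 : y * ((1 - 1000 * t) * (1 + t)) * q ≤ p :=
    (mul_le_mul_of_nonneg_right e3 hq).trans h
  have e5 : 0 ≤ y * ((1 - 1000 * t) * (1 + t)) * q := by positivity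
  have e6 := pow_le_pow_left₀ e5 e4 2
  have e7 : Qb ≤ (1 + t) ^ 2 * q ^ 2 :=
    hb.trans (mul_le_mul_of_nonneg_right (by nlinarith only [ht]) (sq_nonneg q))
  have e8 := mul_le_mul_of_nonneg_left e7 (sq_nonneg (y * (1 - 1000 * t)))
  have e9 : (y * (1 - 1000 * t)) ^ 2 * ((1 + t) ^ 2 * q ^ 2) =
      (y * ((1 - 1000 * t) * (1 + t)) * q) ^ 2 := by ring
  linarith

lemma ClkI_ratio2 {y t a p Qa Qb : ℝ} (hy : 1 ≤ y) (hy4 : y ≤ 4) (ht : 0 < t)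
    (ht1 : t ≤ 1 / 10 ^ 4) (ha0 : 0 ≤ a) (hp : 0 ≤ p) (h : a ≤ 8 * t * p) (ha : p ^ 2 ≤ Qa)
    (hb0 : 0 ≤ Qb) (hb : Qb ≤ (1 + t ^ 2) * a ^ 2) :
    (y * (1 - 1000 * t)) ^ 2 * Qb ≤ Qa := by
  have e1 : 0 ≤ 1 - 1000 * t := by linarith
  have e2 : y * (1 - 1000 * t) ≤ 4 := by nlinarith only [hy4, ht, hy]
  have e3 : (y * (1 - 1000 * t)) ^ 2 ≤ 4 ^ 2 := pow_le_pow_left₀ (by positivity) e2 2
  have e4 : a ≤ p / 100 := h.trans (by nlinarith only [hp, ht1])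
  have e5 := pow_le_pow_left₀ ha0 e4 2
  have e6 : (1 + t ^ 2) * a ^ 2 ≤ 2 * a ^ 2 :=
    mul_le_mul_of_nonneg_right (by nlinarith only [ht, ht1]) (sq_nonneg a)
  have e7 := mul_le_mul_of_nonneg_right e3 hb0
  nlinarith only [ha, hb, e5, e6, e7, sq_nonneg p]

lemma ClkI_big {t c q Q : ℝ} (ht : 0 < t) (hc : c ≤ 1000) (hq : 0 ≤ q) (h : 1 ≤ c * t * q)
    (hQ : q ^ 2 ≤ Q) : 1 ≤ (1000 * t) ^ 2 * Q := by
  have e1 : 1 ≤ 1000 * t * q :=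
    h.trans (mul_le_mul_of_nonneg_right (mul_le_mul_of_nonneg_right hc ht.le) hq)
  have e2 := pow_le_pow_left₀ zero_le_one e1 2
  have e3 := mul_le_mul_of_nonneg_left hQ (sq_nonneg (1000 * t))
  have e4 : (1000 * t * q) ^ 2 = (1000 * t) ^ 2 * q ^ 2 := by ring
  linarith

lemma ClkI_size {t r a c Q : ℝ} (ht : 0 < t) (ht1 : t ≤ 1 / 10 ^ 4) (hr : 0 ≤ r) (ha : 0 ≤ a)
    (hc : c ≤ 20) (h : a ≤ c * (t * r)) (hQ : Q ≤ (1 + t ^ 2) * a ^ 2) :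
    Q ≤ (1000 * t * r) ^ 2 := by
  have e0 : 0 ≤ t * r := by positivity
  have e1 : a ≤ 20 * (t * r) := h.trans (mul_le_mul_of_nonneg_right hc e0)
  have e2 := pow_le_pow_left₀ ha e1 2
  have e3 : (1 + t ^ 2) * a ^ 2 ≤ 2 * a ^ 2 :=
    mul_le_mul_of_nonneg_right (by nlinarith) (sq_nonneg a)
  have e4 : (1000 * t * r) ^ 2 = 1000000 * (t * r) ^ 2 := by ring
  nlinarith only [hQ, e2, e3, sq_nonneg (t * r)]

lemma ClkI_N_pos (h : Clk P T Y v N N') (n : ℕ) : (0 : ℝ) < N n := by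
  have h1 := h.big n
  have h2 : 0 < T (n / 3 + 1) ^ 4 := pow_pos (h.T_pos _) 4
  by_contra hn
  push Not at hn
  nlinarith

lemma ClkI_pv_two (h : Clk P T Y v N N') (n : ℕ) {r : ℝ} (hr : 0 ≤ r) (hr0 : P.τ2 ≤ T 0 * r)
    (hr1 : ‖P.pv (cz (v n))‖ ≤ T ((n + 1) / 3) * (r * P.an (cz (v n)))) :
    ‖P.pv (cz (v (n + 2)))‖ ≤ 4 * (T ((n + 1) / 3) * r) := by
  have ht := h.T_pos ((n + 1) / 3)
  have e0 : 0 ≤ T ((n + 1) / 3) * r := mul_nonneg ht.le hr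
  cases n with
  | zero =>
    have e1 := h.norm_two
    simp only [Nat.zero_add, Nat.reduceDiv] at e0 e1 ⊢
    linarith
  | succ m =>
    have e1 := h.len_le m
    have e2 := h.an_up m
    have e3 : P.an (cz (v m)) ≤ 1 := (h.an_le m).trans ((h.T_le _).trans (by norm_num))
    have e4 := ClkI_N_pos h m
    have e5 := mul_le_mul_of_nonneg_left hr1 (by positivity : (0 : ℝ) ≤ 2 * N m)
    have e6 := mul_le_mul_of_nonneg_left (e2.trans (by linarith : _ ≤ (2 : ℝ))) e0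
    have e7 : (2 * N m : ℝ) * (T ((m + 1 + 1) / 3) * (r * P.an (cz (v (m + 1))))) =
        2 * (T ((m + 1 + 1) / 3) * r * (N m * P.an (cz (v (m + 1))))) := by ring
    have e8 : m + 1 + 2 = m + 3 := rfl
    rw [e8]
    linarith

lemma Clk.an_two (h : Clk P T Y v N N') (n : ℕ) {r : ℝ} (hr : 0 ≤ r)
    (hr2 : r * P.an (cz (v (n + 1))) ≤ T ((n + 1) / 3) * ‖P.pv (cz (v (n + 1)))‖) :
    r * P.an (cz (v (n + 2))) ≤ T ((n + 1) / 3) * ‖P.pv (cz (v (n + 2)))‖ := by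
  have e1 := h.an_succ (n + 1)
  have e2 := h.five (n + 1)
  have ht := h.T_pos ((n + 1) / 3)
  have hs := h.T_pos ((n + 1) / 3 + 1)
  have hs1 := h.T_le ((n + 1) / 3 + 1)
  have hA := h.an_pos (n + 1)
  have e3 : T ((n + 1) / 3 + 1) ^ 4 ≤ (1 / 10 ^ 4) ^ 4 := pow_le_pow_left₀ hs.le hs1 4
  have e4 : 2 * T ((n + 1) / 3 + 1) ^ 4 * P.an (cz (v (n + 1))) ≤
      1 / 5 * P.an (cz (v (n + 1))) :=
    mul_le_mul_of_nonneg_right (by norm_num at e3 ⊢; linarith) hA.le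
  have e5 := mul_le_mul_of_nonneg_left (e1.trans e4) hr
  have e6 := mul_le_mul_of_nonneg_left e2 ht.le
  have e7 : n + 1 + 1 = n + 2 := rfl
  rw [e7] at e5 e6
  linarith

theorem Clk.regI (h : Clk P T Y v N N') (n : ℕ) {r : ℝ} (hr0 : P.τ2 ≤ T 0 * r)
    (hr1 : ‖P.pv (cz (v n))‖ ≤ T ((n + 1) / 3) * (r * P.an (cz (v n))))
    (hr2 : r * P.an (cz (v (n + 1))) ≤ T ((n + 1) / 3) * ‖P.pv (cz (v (n + 1)))‖) :
    ∃ a b c, CBas P r (1000 * T ((n + 1) / 3)) (Y ((n + 1) / 3)) (1000 * T ((n + 1) / 3)) a b c ∧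
      (n % 3 = 0 → a = v (n + 1) ∧ b = v (n + 2)) := by
  have ht := h.T_pos ((n + 1) / 3)
  have ht1 := h.T_le ((n + 1) / 3)
  have hτ := h.one_le_tau
  have hr : 0 ≤ r := by
    by_contra hn
    push Not at hn
    nlinarith only [hr0, ht1, hτ, ht, hn, h.T_pos 0]
  have hr3 := h.an_two n hr hr2
  have a0 : 0 ≤ r * P.an (cz (v n)) := mul_nonneg hr (h.an_pos _).le
  have a1 : 0 ≤ r * P.an (cz (v (n + 1))) := mul_nonneg hr (h.an_pos _).le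
  have a2 : 0 ≤ r * P.an (cz (v (n + 2))) := mul_nonneg hr (h.an_pos _).le
  have bxy := ClkI_mix P ht.le a1 a0 hr1 hr2
  have bxz := ClkI_mix P ht.le a2 a0 hr1 hr3
  have byz := ClkI_pl P ht.le a1 a2 hr2 (h.orth' n)
  have byx := bxy
  have bzx := bxz
  have bzy := byz
  rw [P.B_comm, mul_comm (√_)] at byx bzx bzy
  have qx := ClkI_Q_an P hr1
  have qy := ClkI_Q_pv P a1 hr2
  have qz := ClkI_Q_pv P a2 hr3
  have p2 := ClkI_pv_two h n hr hr0 hr1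
  have p1 : ‖P.pv (cz (v (n + 1)))‖ ≤ 20 * (T ((n + 1) / 3) * r) := by
    have e2 := h.five (n + 1)
    have e7 : n + 1 + 1 = n + 2 := rfl
    rw [e7] at e2
    linarith only [p2, e2]
  have p0 : r * P.an (cz (v n)) ≤ 1 * (T ((n + 1) / 3) * r) := by
    have e1 : P.an (cz (v n)) ≤ T ((n + 1) / 3) :=
      (h.an_le n).trans (h.anti (Nat.div_le_div_right (by omega)))
    have := mul_le_mul_of_nonneg_left e1 hr
    linarith only [this]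
  have sx := ClkI_size ht ht1 hr a0 (by norm_num) p0 qx
  have sy := ClkI_size ht ht1 hr (norm_nonneg _) le_rfl p1 qy
  have sz := ClkI_size ht ht1 hr (norm_nonneg _) (by norm_num) p2 qz
  have he : 2 * (2 * T ((n + 1) / 3)) ≤ 1000 * T ((n + 1) / 3) := by linarith
  have he0 : 0 ≤ 2 * T ((n + 1) / 3) := by linarith only [ht]
  obtain ⟨j, hj | hj | hj⟩ : ∃ j, n = 3 * j ∨ n = 3 * j + 1 ∨ n = 3 * j + 2 :=
    ⟨n / 3, by omega⟩
  · have ej : (n + 1) / 3 = j := by omega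
    have r1 := h.ratio' j
    have r2 := h.big' j
    have o1 := h.par1 j
    have o2 := h.par2 j
    have o0 := h.par0 j
    rw [← hj] at r1 r2 o1 o2 o0
    rw [← ej] at r1 r2
    refine ⟨v (n + 1), v (n + 2), v n, ⟨⟨fun w => ?_, o1, o2, o0⟩,
      P.orth_of_pairs he byz byx bzx he0,
      ClkI_ratio (h.Y1 _) ht ht1 (norm_nonneg _) r1 (ClkI_pv_sq_le P r _) qz,
      ClkI_big ht (by norm_num) (norm_nonneg _) r2 (ClkI_pv_sq_le P r _), sy, sz, sx⟩,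
      fun _ => ⟨rfl, rfl⟩⟩
    obtain ⟨n1, n2, n3, e⟩ := h.span n w
    exact ⟨n2, n3, n1, by rw [e]; abel⟩
  · have ej : (n + 1) / 3 = j := by omega
    have r1 := h.ratio' j
    have r2 := h.big' j
    have o1 := h.par1 j
    have o2 := h.par2 j
    have o0 := h.par0 (j + 1)
    have f1 : 3 * j + 2 = n + 1 := by omega
    have f2 : 3 * (j + 1) = n + 2 := by omega
    rw [f1] at r1 r2 o2
    rw [f2] at o0
    rw [← hj] at r1 o1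
    rw [← ej] at r1 r2
    refine ⟨v n, v (n + 1), v (n + 2), ⟨⟨h.span n, o1, o2, o0⟩,
      P.orth_of_pairs he bxy bxz byz he0,
      ClkI_ratio (h.Y1 _) ht ht1 (norm_nonneg _) r1 (ClkI_pv_sq_le P r _) qy,
      ClkI_big ht (by norm_num) (norm_nonneg _) r2 (ClkI_pv_sq_le P r _), sx, sy, sz⟩,
      fun hn => by omega⟩
  · have ej : (n + 1) / 3 = j + 1 := by omega
    have r1 := h.ratio' (j + 1)
    have o1 := h.par1 (j + 1)
    have o2 := h.par2 j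
    have o0 := h.par0 (j + 1)
    have r2 := h.tau_le (3 * j + 1)
    have f1 : 3 * (j + 1) + 2 = n + 3 := by omega
    have f2 : 3 * (j + 1) + 1 = n + 2 := by omega
    have f3 : 3 * (j + 1) = n + 1 := by omega
    have f4 : 3 * j + 1 + 1 = n := by omega
    rw [f1, f2, ← ej] at r1
    rw [f2] at o1
    rw [f3] at o0
    rw [← hj] at o2
    rw [f4] at r2
    have g1 := h.an_lo n
    have g2 := h.len_ge n
    have g3 := ClkI_N_pos h n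
    have g4 : ‖P.pv (cz (v (n + 3)))‖ ≤ 2 * ‖P.pv (cz (v (n + 2)))‖ := by
      have := mul_le_mul_of_nonneg_right
        (by linarith only [ht, ht1, h.Y1 ((n + 1) / 3)] : 1 / 2 ≤ Y ((n + 1) / 3) - T ((n + 1) / 3))
        (norm_nonneg (P.pv (cz (v (n + 3)))))
      linarith only [r1, this]
    have g5 : r * P.an (cz (v n)) ≤ 8 * T ((n + 1) / 3) * ‖P.pv (cz (v (n + 2)))‖ := by
      have k1 := mul_le_mul_of_nonneg_left g1 hr
      have k2 := mul_le_mul_of_nonneg_left hr2 g3.le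
      have k3 := mul_le_mul_of_nonneg_left (g2.trans (by linarith only [g4] : _ ≤
        4 * ‖P.pv (cz (v (n + 2)))‖)) ht.le
      linarith only [k1, k2, k3]
    have g6 : 1 ≤ 1 * T ((n + 1) / 3) * (r * P.an (cz (v n))) := by linarith only [hr1, hτ, r2]
    refine ⟨v (n + 2), v n, v (n + 1), ⟨⟨fun w => ?_, o1, o2, o0⟩,
      P.orth_of_pairs he bzx bzy bxy he0,
      ClkI_ratio2 (h.Y1 _) (h.Y4 _) ht ht1 a0 (norm_nonneg _) g5 (ClkI_pv_sq_le P r _)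
        (P.Q_nonneg r _) qx,
      ClkI_big ht (by norm_num) a0 g6 (ClkI_an_sq_le P r _), sz, sx, sy⟩,
      fun hn => by omega⟩
    obtain ⟨n1, n2, n3, e⟩ := h.span n w
    exact ⟨n3, n1, n2, by rw [e]; abel⟩

end Pool.Agent.Work.MP_0ba68b_gt.CX
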