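import Pool.Agent.Work.MP_0ba68b_gt.CX.GDefs

/-!
One stage of the clock construction, in the plane.

PLAN.  `exists_even`: `2 * round (x/2)`.  `orth_step`: `N'` even near `⟪u, c⟫/‖c‖²`, then `⟪u - N' c, c⟫ = (x - N') ‖c‖²`.
Let `M` be even, `M ≥ 10⁴/T⁴`.  `N0 = N2 = M`.  `z3 = u - N0' z2`, `u = z0 - M z1`.  Bounds: `‖z3‖ ≤ ‖u‖ + ‖z2‖`
(`‖z3‖² = ‖u‖² - x² ‖c‖² + (x - N')² ‖c‖²`, given in `orth_step`), and `‖z3‖² ≥ ‖u‖² - ⟪u,c⟫²/‖c‖²` with `|⟪u,z2⟫| ≤ (‖z0‖ + M ‖z1‖/100) ‖z2‖`: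
`0.9 M ‖z1‖ ≤ ‖z3‖ ≤ 1.1 M ‖z1‖`.  `z5 = z2 - M z3`, `(M - 1) ‖z3‖ ≤ ‖z5‖ ≤ (M + 1) ‖z3‖`.  `N1` even near `Y ‖z5‖/‖z2‖`, `u' = z1 - N1 z2`,
`|‖u'‖ - Y ‖z5‖| ≤ 6 ‖z2‖`, `|⟪u', z3⟫| ≤ ‖z1‖ ‖z3‖ + N1 ‖z2‖²`, so `|⟪u', z3⟫|/‖z3‖ ≤ (T/10) ‖z5‖`, and
`|‖z4‖ - ‖u'‖| ≤ |⟪u',z3⟫|/‖z3‖ + ‖z3‖`.  `⟪z4, z5⟫ = ⟪z4, z2⟫ - M ⟪z4, z3⟫`.
-/

open Real

namespace Pool.Agent.Work.MP_0ba68b_gt.CX

/-- One step of the recurrence. -/
structure Step (T : ℝ) (a b c d : ℂ) (N N' : ℤ) : Prop where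
  eq : d = a - N * b - N' * c
  even : Even N
  even' : Even N'
  abs_le : |N'| ≤ N
  big : 1 ≤ N * T ^ 4
  orth : |inner ℝ c d| ≤ T * (‖c‖ * ‖d‖)
  len_ge : N * ‖b‖ ≤ 2 * ‖d‖
  len_le : ‖d‖ ≤ 2 * N * ‖b‖
  five : ‖c‖ ≤ 5 * ‖d‖

/-- The invariant at the start of a stage. -/
structure SInv (z0 z1 z2 : ℂ) : Prop where
  pos : 0 < ‖z2‖
  orth : |inner ℝ z1 z2| ≤ 1 / 100 * (‖z1‖ * ‖z2‖)
  lo : ‖z2‖ ≤ 2 * ‖z1‖
  hi : ‖z1‖ ≤ 5 * ‖z2‖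
  mono : ‖z0‖ ≤ ‖z1‖

lemma exists_even (x : ℝ) : ∃ N : ℤ, Even N ∧ |x - N| ≤ 1 := by
  refine ⟨2 * round (x / 2), even_two_mul _, ?_⟩
  have := abs_le.1 (abs_sub_round (x / 2))
  push_cast
  rw [abs_le]
  constructor <;> linarith only [this, this.1, this.2]

lemma ClkStep_smul (N : ℤ) (c : ℂ) : (N : ℂ) * c = (N : ℝ) • c := by simp

lemma orth_step (u : ℂ) {c : ℂ} (hc : 0 < ‖c‖) : ∃ N' : ℤ, Even N' ∧
    |(N' : ℝ)| ≤ |inner ℝ u c| / ‖c‖ ^ 2 + 1 ∧ |inner ℝ c (u - N' * c)| ≤ ‖c‖ ^ 2 ∧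
    ‖u - N' * c‖ ^ 2 ≤ ‖u‖ ^ 2 + ‖c‖ ^ 2 ∧
    ‖u‖ ^ 2 - (inner ℝ u c) ^ 2 / ‖c‖ ^ 2 ≤ ‖u - N' * c‖ ^ 2 := by
  obtain ⟨N, hN, h⟩ := exists_even (inner ℝ u c / ‖c‖ ^ 2)
  have h2 : 0 < ‖c‖ ^ 2 := by positivity
  obtain ⟨x, hx⟩ : ∃ x : ℝ, inner ℝ u c = x * ‖c‖ ^ 2 := ⟨_, (div_mul_cancel₀ _ h2.ne').symm⟩
  have e : ‖u - N * c‖ ^ 2 = ‖u‖ ^ 2 - x ^ 2 * ‖c‖ ^ 2 + (x - N) ^ 2 * ‖c‖ ^ 2 := by
    rw [ClkStep_smul, norm_sub_sq_real, real_inner_smul_right, norm_smul, mul_pow,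
      Real.norm_eq_abs, sq_abs, hx]
    ring
  rw [hx, mul_div_cancel_right₀ _ h2.ne'] at h
  have h3 : (x - N) ^ 2 ≤ 1 := (sq_le_one_iff_abs_le_one _).2 h
  refine ⟨N, hN, ?_, ?_, ?_, ?_⟩
  · rw [hx, abs_mul, abs_of_pos h2, mul_div_cancel_right₀ _ h2.ne']
    have := abs_sub_abs_le_abs_sub (N : ℝ) x
    rw [abs_sub_comm] at this
    linarith
  · rw [ClkStep_smul, inner_sub_right, real_inner_smul_right, real_inner_self_eq_norm_sq,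
      real_inner_comm, hx, ← sub_mul, abs_mul, abs_of_pos h2]
    exact mul_le_of_le_one_left h2.le h
  · have := mul_le_mul_of_nonneg_right h3 h2.le
    have := mul_nonneg (sq_nonneg x) h2.le
    linarith
  · have e2 : (x * ‖c‖ ^ 2) ^ 2 / ‖c‖ ^ 2 = x ^ 2 * ‖c‖ ^ 2 := by field_simp
    have := mul_nonneg (sq_nonneg (x - N)) h2.le
    rw [hx, e2]
    linarith only [e, this]

lemma ClkStep_orth (u : ℂ) {c : ℂ} (hc : 0 < ‖c‖) {q : ℝ} (hq : |inner ℝ u c| ≤ q * ‖c‖) :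
    ∃ N' : ℤ, Even N' ∧ |(N' : ℝ)| * ‖c‖ ≤ q + ‖c‖ ∧ |inner ℝ c (u - N' * c)| ≤ ‖c‖ ^ 2 ∧
      ‖u - N' * c‖ ≤ ‖u‖ + ‖c‖ ∧ ‖u‖ - q ≤ ‖u - N' * c‖ := by
  obtain ⟨N, h1, h2, h3, h4, h5⟩ := orth_step u hc
  have q0 : 0 ≤ q := nonneg_of_mul_nonneg_left ((abs_nonneg _).trans hq) hc
  refine ⟨N, h1, ?_, h3, ?_, ?_⟩
  · have a1 : |inner ℝ u c| / ‖c‖ ^ 2 * ‖c‖ ≤ q := by
      rw [div_mul_eq_mul_div, div_le_iff₀ (by positivity)]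
      nlinarith only [hc, hq]
    nlinarith only [a1, hc, h2]
  · refine (pow_le_pow_iff_left₀ (norm_nonneg _) (by positivity) two_ne_zero).1 ?_
    nlinarith only [h4, hc, mul_nonneg (norm_nonneg u) hc.le]
  · rcases le_total ‖u‖ q with h | h
    · linarith only [h, norm_nonneg (u - N * c)]
    · refine (pow_le_pow_iff_left₀ (sub_nonneg.2 h) (norm_nonneg _) two_ne_zero).1 ?_
      have a1 : inner ℝ u c ^ 2 / ‖c‖ ^ 2 ≤ q ^ 2 := by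
        rw [div_le_iff₀ (by positivity), ← sq_abs, ← mul_pow]
        exact pow_le_pow_left₀ (abs_nonneg _) hq 2
      linarith only [h5, a1, h, q0, mul_le_mul_of_nonneg_left h q0]

lemma ClkStep_norm (a b : ℂ) {N : ℤ} (hN : (0 : ℝ) ≤ N) :
    N * ‖b‖ - ‖a‖ ≤ ‖a - N * b‖ ∧ ‖a - N * b‖ ≤ N * ‖b‖ + ‖a‖ := by
  have e : ‖(N : ℂ) * b‖ = N * ‖b‖ := by
    rw [ClkStep_smul, norm_smul, Real.norm_of_nonneg hN]
  have h1 := norm_sub_le a (N * b)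
  have h2 := norm_sub_norm_le (N * b) a
  rw [norm_sub_rev] at h2
  constructor <;> linarith only [e, h2, h1]

lemma ClkStep_inner (a b c : ℂ) {N : ℤ} (hN : (0 : ℝ) ≤ N) :
    |inner ℝ (a - N * b) c| ≤ ‖a‖ * ‖c‖ + N * |inner ℝ b c| := by
  rw [ClkStep_smul, inner_sub_left, real_inner_smul_left]
  refine (abs_sub _ _).trans (add_le_add (abs_real_inner_le_norm _ _) ?_)
  rw [abs_mul, abs_of_nonneg hN]

lemma ClkStep_abs {N N' : ℤ} {x : ℝ} (hx : 0 < x) (h : |(N' : ℝ)| * x ≤ N * x) : |N'| ≤ N := by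
  exact_mod_cast le_of_mul_le_mul_right h hx

theorem clkStep {T Y : ℝ} {z0 z1 z2 : ℂ} (hT : 0 < T) (hT1 : T ≤ 1 / 100) (hY : 1 ≤ Y)
    (hY4 : Y ≤ 4) (h : SInv z0 z1 z2) : ∃ (z3 z4 z5 : ℂ) (N0 N0' N1 N1' N2 : ℤ),
      Step T z0 z1 z2 z3 N0 N0' ∧ Step T z1 z2 z3 z4 N1 N1' ∧ Step T z2 z3 z4 z5 N2 0 ∧
      |‖z4‖ - Y * ‖z5‖| ≤ T * ‖z5‖ ∧ SInv z3 z4 z5 := by
  obtain ⟨p2, o12, lo, hi, mono⟩ := h
  obtain ⟨M, ME, hM⟩ := exists_even (1 / T ^ 4 + 1)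
  have T4 : 0 < T ^ 4 := by positivity
  have M4 : 1 ≤ M * T ^ 4 := (div_le_iff₀ T4).1 (by linarith only [hM, (abs_le.1 hM).2])
  have M0 : (0 : ℝ) ≤ M := nonneg_of_mul_nonneg_left (by linarith only [hT, hT1, M4]) T4
  have MT : 1000000 ≤ M * T := by
    have a1 : T ^ 3 ≤ (1 / 100) ^ 3 := pow_le_pow_left₀ hT.le hT1 3
    have a2 := mul_le_mul_of_nonneg_left a1 (mul_nonneg M0 hT.le)
    linarith only [M4, a2]
  have M1 : (100000000 : ℝ) ≤ M := by linarith only [MT, hT1, M0, mul_le_mul_of_nonneg_left hT1 M0]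
  have p1 : 0 < ‖z1‖ := by linarith only [p2, lo]
  obtain ⟨u1, u2⟩ := ClkStep_norm z0 z1 M0
  obtain ⟨N0', E0, b1, b2, b3, b4⟩ := ClkStep_orth (z0 - M * z1) p2
    (q := ‖z1‖ + M * ‖z1‖ / 100) (by
      have a1 := ClkStep_inner z0 z1 z2 M0
      have a2 := mul_le_mul_of_nonneg_left o12 M0
      have a3 := mul_le_mul_of_nonneg_right mono p2.le
      linarith only [a1, a2, a3])
  obtain ⟨z3, e3⟩ : ∃ z3, z3 = z0 - M * z1 - N0' * z2 := ⟨_, rfl⟩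
  rw [← e3] at b2 b3 b4
  have c1 := mul_le_mul_of_nonneg_right M1 p1.le
  have c2 : 9 / 10 * (M * ‖z1‖) ≤ ‖z3‖ := by linarith only [mono, p1, u1, b4, c1]
  have c3 : 100000 * ‖z2‖ ≤ T * ‖z3‖ := by
    have a1 := mul_le_mul_of_nonneg_left c2 hT.le
    have a2 := mul_le_mul_of_nonneg_right MT p1.le
    linarith only [lo, p1, a1, a2]
  have p3 : 0 < ‖z3‖ := by linarith only [mono, p1, u1, b4, c1]
  have c4 := mul_le_mul_of_nonneg_right hT1 p3.le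
  have S0 : Step T z0 z1 z2 z3 M N0' := by
    refine ⟨e3, ME, E0, ClkStep_abs p2 ?_, M4, ?_, by linarith only [mono, p1, u1, b4, c1], by linarith only [lo, mono, p1, u2, b3, c1], by linarith only [lo, mono, p1, u1, b4, c1]⟩
    · have a1 := mul_le_mul_of_nonneg_left hi M0
      have a2 := mul_le_mul_of_nonneg_right M1 p2.le
      linarith only [p2, b1, c1, a1, a2]
    · have := mul_le_mul_of_nonneg_left c3 p2.le
      linarith only [b2, this, sq_nonneg ‖z2‖]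
  obtain ⟨v1, v2⟩ := ClkStep_norm z2 z3 M0
  obtain ⟨z5, e5⟩ : ∃ z5, z5 = z2 - M * z3 := ⟨_, rfl⟩
  rw [← e5] at v1 v2
  have d1 := mul_le_mul_of_nonneg_right M1 p3.le
  have p5 : 0 < ‖z5‖ := by linarith only [lo, mono, p1, u1, b4, c1, v1, d1]
  have d2 : 100000 * ‖z3‖ ≤ T * ‖z5‖ := by
    have a1 := mul_le_mul_of_nonneg_left v1 hT.le
    have a2 := mul_le_mul_of_nonneg_right MT p3.le
    have a3 := mul_le_mul_of_nonneg_right hT1 p2.le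
    linarith only [lo, mono, p1, u1, b4, c1, a1, a2, a3]
  have d3 := mul_le_mul_of_nonneg_right hT1 p5.le
  have d4 := mul_le_mul_of_nonneg_right hY p5.le
  have d5 := mul_le_mul_of_nonneg_right hY4 p5.le
  obtain ⟨N1, E1, hN1⟩ := exists_even (Y * ‖z5‖ / ‖z2‖)
  have n1 : Y * ‖z5‖ - ‖z2‖ ≤ N1 * ‖z2‖ := by
    have := (div_le_iff₀ p2).1 (show Y * ‖z5‖ / ‖z2‖ ≤ N1 + 1 by linarith only [hN1, (abs_le.1 hN1).2])
    linarith only [this]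
  have n2 : N1 * ‖z2‖ ≤ Y * ‖z5‖ + ‖z2‖ := by
    have := (le_div_iff₀ p2).1 (show N1 - 1 ≤ Y * ‖z5‖ / ‖z2‖ by linarith only [hN1, (abs_le.1 hN1).1])
    linarith only [this]
  have n3 : (M : ℝ) ≤ N1 := by
    refine le_of_mul_le_mul_right ?_ p2
    have := mul_le_mul_of_nonneg_left (show 10 * ‖z2‖ ≤ ‖z3‖ by linarith only [lo, mono, p1, u1, b4, c1]) M0
    linarith only [lo, mono, p1, u1, b4, c1, v1, d1, d4, n1, this]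
  have n0 : (0 : ℝ) ≤ N1 := M0.trans n3
  obtain ⟨w1, w2⟩ := ClkStep_norm z1 z2 n0
  obtain ⟨N1', E1', f1, f2, f3, f4⟩ := ClkStep_orth (z1 - N1 * z2) p3 (q := T * ‖z5‖ / 10) (by
    have a1 := ClkStep_inner z1 z2 z3 n0
    have a2 := mul_le_mul_of_nonneg_left b2 n0
    have a3 := mul_le_mul (show N1 * ‖z2‖ ≤ 5 * ‖z5‖ by linarith only [lo, mono, p1, u1, b4, c1, v1, d1, d5, n2]) c3 (by positivity)
      (by positivity)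
    have a4 := mul_le_mul_of_nonneg_right (show ‖z1‖ ≤ T * ‖z5‖ / 100000 by linarith only [mono, p1, u1, b4, c1, d2]) p3.le
    have a5 := mul_pos (mul_pos hT p5) p3
    linarith only [a1, a2, a3, a4, a5])
  obtain ⟨z4, e4⟩ : ∃ z4, z4 = z1 - N1 * z2 - N1' * z3 := ⟨_, rfl⟩
  rw [← e4] at f2 f3 f4
  have g1 : Y * ‖z5‖ - T * ‖z5‖ ≤ ‖z4‖ := by linarith only [lo, mono, p1, u1, b4, c1, d2, n1, w1, f4]
  have g2 : ‖z4‖ ≤ Y * ‖z5‖ + T * ‖z5‖ := by linarith only [lo, mono, p1, u1, b4, c1, d2, n2, w2, f3]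
  have g3 : ‖z5‖ ≤ 2 * ‖z4‖ := by linarith only [lo, mono, p1, u1, b4, c1, v1, d1, d3, d4, n1, w1, f4]
  have p4 : 0 < ‖z4‖ := by linarith only [lo, mono, p1, u1, b4, c1, v1, d1, d3, d4, n1, w1, f4]
  have S1 : Step T z1 z2 z3 z4 N1 N1' := by
    refine ⟨e4, E1, E1', ClkStep_abs p3 ?_, M4.trans (mul_le_mul_of_nonneg_right n3 T4.le), ?_,
      by linarith only [lo, mono, p1, u1, b4, c1, v1, d1, d3, d4, n1, w1, f4], by linarith only [lo, mono, p1, u1, b4, c1, v1, d1, d4, n1, w2, f3], by linarith only [lo, mono, p1, u1, b4, c1, v1, d1, d3, d4, n1, w1, f4]⟩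
    · have := mul_le_mul_of_nonneg_left (show ‖z2‖ ≤ ‖z3‖ by linarith only [lo, mono, p1, u1, b4, c1]) n0
      linarith only [lo, mono, p1, u1, b4, c1, v1, d1, d3, d4, n1, f1, this]
    · have a1 := mul_le_mul_of_nonneg_left g3 hT.le
      have a2 := mul_le_mul_of_nonneg_left (show ‖z3‖ ≤ T * ‖z4‖ by linarith only [mono, p1, u1, b4, c1, d2, a1]) p3.le
      linarith only [f2, a2]
  have o45 : |inner ℝ z4 z5| ≤ T * (‖z4‖ * ‖z5‖) := by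
    have a1 := ClkStep_inner z2 z3 z4 M0
    rw [← e5, real_inner_comm] at a1
    have a2 := mul_le_mul_of_nonneg_left f2 M0
    have a3 := mul_le_mul (show M * ‖z3‖ ≤ 4 * ‖z4‖ by linarith only [lo, mono, p1, u1, b4, c1, v1, d1, d3, d4, n1, w1, f4]) d2 (by positivity)
      (by positivity)
    have a4 := mul_le_mul_of_nonneg_right (show ‖z2‖ ≤ T * ‖z5‖ / 100000 by linarith only [lo, mono, p1, u1, b4, c1, d2]) p4.le
    have a5 := mul_pos (mul_pos hT p5) p4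
    linarith only [a1, a2, a3, a4, a5]
  refine ⟨z3, z4, z5, M, N0', N1, N1', M, S0, S1,
    ⟨by simpa using e5, ME, Even.zero, by simpa using (by exact_mod_cast M0 : (0 : ℤ) ≤ M), M4, o45,
      by linarith only [lo, mono, p1, u1, b4, c1, v1, d1], by linarith only [lo, mono, p1, u1, b4, c1, v2, d1], by linarith only [lo, mono, p1, u1, b4, c1, v1, d1, d5, n2, w2, f3]⟩, abs_le.2 ⟨by linarith only [lo, mono, p1, u1, b4, c1, d2, n1, w1, f4], by linarith only [lo, mono, p1, u1, b4, c1, d2, n2, w2, f3]⟩,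
    p5, o45.trans (mul_le_mul_of_nonneg_right hT1 (by positivity)), g3, by linarith only [lo, mono, p1, u1, b4, c1, v1, d1, d5, n2, w2, f3], by linarith only [lo, mono, p1, u1, b4, c1, v1, d1, d3, d4, n1, w1, f4]⟩

end Pool.Agent.Work.MP_0ba68b_gt.CX
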