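import Pool.Agent.Work.MP_0ba68b_gt.CX.Back
import Pool.Agent.Work.MP_0ba68b_gt.CX.ClkStep

/-!
The bilinear form of the clock lattice, and the full data of the clock construction.

PLAN.  `an`, `pv` are linear; `Q r (comb ξ) = ∑ ξᵢ² Q + 2 ∑ ξᵢ ξⱼ B`, `2 |ξᵢ ξⱼ| √Qᵢ √Qⱼ ≤ ξᵢ² Qᵢ + ξⱼ² Qⱼ`.
`exists_clk`: `A` from `back3` (`N n ≥ 1/T⁴ ≥ 100`), `φ1 = (2π/m0) A 1`, `φ2 = (2π/m0) A 2`, `v` by the three term recursion;
three step induction (`Nat.rec` on triples, or strong induction) for `pv (cz (v n)) = z n`, `an (cz (v n)) = (2π/m0) A n`, the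
parities, and the spanning property (`v n = v (n+3) + N • v (n+1) + N' • v (n+2)`).
`tau_le`: `‖z (n+3)‖ ≥ N ‖z (n+1)‖/2 ≥ ‖z (n+1)‖`.  `an_succ`: `N A (n+1) ≤ 2 A n`, `1 ≤ N T⁴`.
-/

open Real

namespace Pool.Agent.Work.MP_0ba68b_gt.CX

noncomputable section

/-- The bilinear form at clock radius `r`. -/
def Par.B (P : Par) (r : ℝ) (u w : R3) : ℝ :=
  r ^ 2 * (P.an u * P.an w) + inner ℝ (P.pv u) (P.pv w)

lemma Par.B_self (P : Par) (r : ℝ) (u : R3) : P.B r u u = P.Q r u := by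
  rw [Par.B, Par.Q, real_inner_self_eq_norm_sq, sq (P.an u)]

lemma Par.B_comm (P : Par) (r : ℝ) (u w : R3) : P.B r u w = P.B r w u := by
  rw [Par.B, Par.B, real_inner_comm, mul_comm (P.an u)]

lemma Par.Q_nonneg (P : Par) (r : ℝ) (u : R3) : 0 ≤ P.Q r u := by
  unfold Par.Q
  positivity

lemma Par.an_smul (P : Par) (t : ℝ) (u : R3) : P.an (t • u) = t * P.an u := by
  simp only [Par.an, Prod.smul_fst, Prod.smul_snd, smul_eq_mul]
  ring

lemma Par.pv_smul (P : Par) (t : ℝ) (u : R3) : P.pv (t • u) = t • P.pv u := by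
  apply Complex.ext <;> simp [Par.pv] <;> ring

lemma Par.an_sub (P : Par) (u w : R3) : P.an (u - w) = P.an u - P.an w := by
  simp only [Par.an, Prod.fst_sub, Prod.snd_sub]
  ring

lemma Par.pv_sub (P : Par) (u w : R3) : P.pv (u - w) = P.pv u - P.pv w := by
  apply Complex.ext <;> simp [Par.pv] <;> ring

lemma cz_sub_smul (u w : Z3) (n : ℤ) : cz (u - n • w) = cz u - (n : ℝ) • cz w := by
  simp [cz]

lemma Par.B_sub_smul (P : Par) (r t : ℝ) (u w x : R3) :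
    P.B r (u - t • w) x = P.B r u x - t * P.B r w x := by
  rw [Par.B, Par.B, Par.B, P.an_sub, P.pv_sub, P.an_smul, P.pv_smul, inner_sub_left,
    real_inner_smul_left]
  ring

lemma Par.Q_sub_smul (P : Par) (r t : ℝ) (u w : R3) :
    P.Q r (u - t • w) = P.Q r u - 2 * t * P.B r u w + t ^ 2 * P.Q r w := by
  rw [← P.B_self, P.B_sub_smul, P.B_comm r u, P.B_comm r w, P.B_sub_smul, P.B_sub_smul, P.B_self,
    P.B_self, P.B_comm r w]
  ring

lemma ClkPair_Q (P : Par) (r x y z : ℝ) (a b c : R3) : P.Q r (x • a + y • b + z • c) =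
    P.Q r a * x ^ 2 + P.Q r b * y ^ 2 + P.Q r c * z ^ 2 + 2 * x * y * P.B r a b +
      2 * x * z * P.B r a c + 2 * y * z * P.B r b c := by
  simp only [← P.B_self, Par.B, P.an_add, P.pv_add, P.an_smul, P.pv_smul, inner_add_left,
    inner_add_right, real_inner_smul_left, real_inner_smul_right]
  rw [real_inner_comm (P.pv a) (P.pv b), real_inner_comm (P.pv a) (P.pv c),
    real_inner_comm (P.pv b) (P.pv c)]
  ring

lemma ClkPair_cross {B ε p q : ℝ} (hp : 0 ≤ p) (hq : 0 ≤ q) (hε : 0 ≤ ε)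
    (h : |B| ≤ ε * (√p * √q)) (x y : ℝ) : |2 * x * y * B| ≤ ε * (p * x ^ 2 + q * y ^ 2) := by
  rw [abs_mul, abs_mul, abs_mul, abs_two]
  have h1 := mul_le_mul_of_nonneg_left h (show 0 ≤ 2 * |x| * |y| by positivity)
  have h2 := two_mul_le_add_sq (√p * |x|) (√q * |y|)
  rw [mul_pow, mul_pow, sq_sqrt hp, sq_sqrt hq, sq_abs, sq_abs] at h2
  have h3 := mul_le_mul_of_nonneg_left h2 hε
  linarith

lemma Par.orth_of_pairs (P : Par) {r ε e : ℝ} {a b c : Z3} (he : 2 * ε ≤ e)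
    (hab : |P.B r (cz a) (cz b)| ≤ ε * (√(P.Q r (cz a)) * √(P.Q r (cz b))))
    (hac : |P.B r (cz a) (cz c)| ≤ ε * (√(P.Q r (cz a)) * √(P.Q r (cz c))))
    (hbc : |P.B r (cz b) (cz c)| ≤ ε * (√(P.Q r (cz b)) * √(P.Q r (cz c)))) (hε : 0 ≤ ε) :
    P.Orth r e a b c := by
  intro ξ
  have qa := P.Q_nonneg r (cz a)
  have qb := P.Q_nonneg r (cz b)
  have qc := P.Q_nonneg r (cz c)
  have h1 := abs_le.1 (ClkPair_cross qa qb hε hab ξ.1 ξ.2.1)
  have h2 := abs_le.1 (ClkPair_cross qa qc hε hac ξ.1 ξ.2.2)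
  have h3 := abs_le.1 (ClkPair_cross qb qc hε hbc ξ.2.1 ξ.2.2)
  have h4 := mul_le_mul_of_nonneg_right he (show 0 ≤ P.Q r (cz a) * ξ.1 ^ 2 +
    P.Q r (cz b) * ξ.2.1 ^ 2 + P.Q r (cz c) * ξ.2.2 ^ 2 by positivity)
  rw [comb, ClkPair_Q]
  exact ⟨by linarith [h1.1, h2.1, h3.1], by linarith [h1.2, h2.2, h3.2]⟩

lemma CBas.mono {P : Par} {r E Y G G' : ℝ} {a b c : Z3} (h : CBas P r E Y G a b c) (h0 : 0 ≤ G)
    (hG : G ≤ G') : CBas P r E Y G' a b c := by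
  have k : (G * r) ^ 2 ≤ (G' * r) ^ 2 := by
    rw [mul_pow, mul_pow]
    exact mul_le_mul_of_nonneg_right (pow_le_pow_left₀ h0 hG 2) (sq_nonneg r)
  exact ⟨h.bas, h.orth, h.ratio, h.big, h.sa.trans k, h.sb.trans k, h.sc.trans k⟩

/-- The full data of the clock construction. -/
structure Clk (P : Par) (T Y : ℕ → ℝ) (v : ℕ → Z3) (N N' : ℕ → ℤ) : Prop
    extends ClkRel P T Y v N N' where
  anti : Antitone T
  T_pos : ∀ k, 0 < T k
  T_le : ∀ k, T k ≤ 1 / 10 ^ 4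
  Y1 : ∀ k, 1 ≤ Y k
  Y4 : ∀ k, Y k ≤ 4
  t12 : P.τ1 = 4 * P.τ2
  tbig : 1 ≤ T 0 * P.τ2
  an_pos : ∀ n, 0 < P.an (cz (v n))
  an_zero : P.an (cz (v 0)) ≤ T 0
  an_up : ∀ n, N n * P.an (cz (v (n + 1))) ≤ 2 * P.an (cz (v n))
  an_lo : ∀ n, P.an (cz (v n)) ≤ 2 * (N n * P.an (cz (v (n + 1))))
  span : ∀ n (w : Z3), ∃ n1 n2 n3 : ℤ, w = n1 • v n + n2 • v (n + 1) + n3 • v (n + 2)
  par0 : ∀ j, Even (par (v (3 * j)))
  par1 : ∀ j, Odd (par (v (3 * j + 1)))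
  par2 : ∀ j, Odd (par (v (3 * j + 2)))

/-- The three term recursion. -/
def ClkPair_v (N N' : ℕ → ℤ) : ℕ → Z3
  | 0 => (1, 0, 0)
  | 1 => (0, 1, 0)
  | 2 => (0, 0, 1)
  | n + 3 => ClkPair_v N N' n - N n • ClkPair_v N N' (n + 1) - N' n • ClkPair_v N N' (n + 2)

lemma ClkPair_ind {p : ℕ → Prop} (h0 : p 0) (h1 : p 1) (h2 : p 2)
    (h : ∀ n, p n → p (n + 1) → p (n + 2) → p (n + 3)) (n : ℕ) : p n := by
  have k : ∀ n, p n ∧ p (n + 1) ∧ p (n + 2) := fun n => by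
    induction n with
    | zero => exact ⟨h0, h1, h2⟩
    | succ n ih => exact ⟨ih.2.1, ih.2.2, h n ih.1 ih.2.1 ih.2.2⟩
  exact (k n).1

lemma ClkPair_N {T : ℝ} {N : ℤ} (h0 : 0 < T) (h1 : T ≤ 1 / 10 ^ 4) (h : 1 ≤ N * T ^ 4) :
    (100 : ℝ) ≤ N := by
  have a1 : T ^ 4 ≤ (1 / 10 ^ 4) ^ 4 := pow_le_pow_left₀ h0.le h1 4
  have a2 : (0 : ℝ) < N := (mul_pos_iff_of_pos_right (pow_pos h0 4)).1 (by linarith)
  have a3 := mul_le_mul_of_nonneg_left a1 a2.le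
  linarith

lemma ClkPair_par {u w x : Z3} {N N' : ℤ} (h : Even N) (h' : Even N') :
    Even (par (u - N • w - N' • x) - par u) := by
  have e : par (u - N • w - N' • x) - par u = -(N * par w + N' * par x) := by
    simp [par]
    ring
  rw [e]
  exact ((h.mul_right _).add (h'.mul_right _)).neg

lemma ClkPair_n1 (a : ℝ) : ‖(⟨a, 0⟩ : ℂ)‖ = |a| := Complex.norm_real a

lemma ClkPair_n2 (a : ℝ) : ‖(⟨0, a⟩ : ℂ)‖ = |a| := by
  rw [show (⟨0, a⟩ : ℂ) = a * Complex.I from Complex.ext (by simp) (by simp), norm_mul,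
    Complex.norm_I, mul_one, Complex.norm_real, Real.norm_eq_abs]

theorem exists_clk (q0 : ℕ) (θ : ℝ) {m0 : ℕ} {τ : ℝ} {T Y : ℕ → ℝ} {z : ℕ → ℂ} {N N' : ℕ → ℤ}
    (anti : Antitone T) (T_pos : ∀ k, 0 < T k) (T_le : ∀ k, T k ≤ 1 / 10 ^ 4)
    (Y1 : ∀ k, 1 ≤ Y k) (Y4 : ∀ k, Y k ≤ 4) (tbig : 1 ≤ T 0 * τ) (hm : 0 < m0)
    (hm' : 2 * π / m0 ≤ T 0) (z0 : z 0 = 0) (z1 : z 1 = ⟨4 * τ, 0⟩) (z2 : z 2 = ⟨0, τ⟩)
    (st : ∀ n, Step (T (n / 3 + 1)) (z n) (z (n + 1)) (z (n + 2)) (z (n + 3)) (N n) (N' n))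
    (nz : ∀ j, N' (3 * j + 2) = 0)
    (ratio : ∀ j, |‖z (3 * j + 4)‖ - Y (j + 1) * ‖z (3 * j + 5)‖| ≤ T (j + 1) * ‖z (3 * j + 5)‖)
    (mono : ∀ j, ‖z (3 * j + 3)‖ ≤ ‖z (3 * j + 4)‖) :
    ∃ (φ1 φ2 : ℝ) (v : ℕ → Z3), Clk ⟨q0, m0, θ, φ1, φ2, 4 * τ, τ⟩ T Y v N N' ∧
      ∀ n, Par.pv ⟨q0, m0, θ, φ1, φ2, 4 * τ, τ⟩ (cz (v n)) = z n := by
  have hτ : 0 < τ := (mul_pos_iff_of_pos_left (T_pos 0)).1 (by linarith)
  obtain ⟨A, A0, Ap, Ar, Au, Al⟩ := back3 N N'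
    (fun n => by exact_mod_cast ClkPair_N (T_pos _) (T_le _) (st n).big) fun n => (st n).abs_le
  have hc : 0 < 2 * π / m0 := by positivity
  have step : ∀ n, ClkPair_v N N' (n + 3) = ClkPair_v N N' n - N n • ClkPair_v N N' (n + 1) -
      N' n • ClkPair_v N N' (n + 2) := fun n => by rw [ClkPair_v]
  refine ⟨2 * π / m0 * A 1, 2 * π / m0 * A 2, ClkPair_v N N', ?_⟩
  generalize hP : (⟨q0, m0, θ, 2 * π / m0 * A 1, 2 * π / m0 * A 2, 4 * τ, τ⟩ : Par) = P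
  have hz : ∀ n, P.pv (cz (ClkPair_v N N' n)) = z n := by
    refine ClkPair_ind ?_ ?_ ?_ fun n h0 h1 h2 => ?_
    · rw [z0, ← hP]
      apply Complex.ext <;> simp [Par.pv, cz, ClkPair_v]
    · rw [z1, ← hP]
      simp [Par.pv, cz, ClkPair_v]
    · rw [z2, ← hP]
      simp [Par.pv, cz, ClkPair_v]
    · rw [step, cz_sub_smul, cz_sub_smul, P.pv_sub, P.pv_sub, P.pv_smul, P.pv_smul, h0, h1, h2,
        (st n).eq]
      simp
  have ha : ∀ n, P.an (cz (ClkPair_v N N' n)) = 2 * π / m0 * A n := by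
    refine ClkPair_ind ?_ ?_ ?_ fun n h0 h1 h2 => ?_
    · rw [A0, ← hP]
      simp [Par.an, cz, ClkPair_v]
    · rw [← hP]
      simp [Par.an, cz, ClkPair_v]
    · rw [← hP]
      simp [Par.an, cz, ClkPair_v]
    · rw [step, cz_sub_smul, cz_sub_smul, P.an_sub, P.an_sub, P.an_smul, P.an_smul, h0, h1, h2, Ar]
      ring
  have hp : ∀ n, Even (par (ClkPair_v N N' (n + 3)) - par (ClkPair_v N N' n)) := fun n => by
    rw [step]
    exact ClkPair_par (st n).even (st n).even'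
  have ho : ∀ i, Odd (par (ClkPair_v N N' i)) → ∀ j, Odd (par (ClkPair_v N N' (3 * j + i))) :=
    fun i hi j => by
      induction j with
      | zero => simpa using hi
      | succ j ih =>
        have k := (hp (3 * j + i)).add_odd ih
        rwa [sub_add_cancel, show 3 * j + i + 3 = 3 * (j + 1) + i by ring] at k
  refine ⟨⟨⟨rfl, rfl, rfl, step, fun n => (st n).even, fun n => (st n).even',
    fun n => (st n).abs_le, fun n => (st n).big, ?_, ?_, ?_, fun n => ?_, nz, ?_, ?_⟩, anti, T_pos,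
    T_le, Y1, Y4, by rw [← hP], by rw [← hP]; exact tbig, fun n => ?_, ?_, fun n => ?_,
    fun n => ?_, fun n => ?_, fun j => ?_, ho 1 (by simp [par, ClkPair_v]),
    ho 2 (by simp [par, ClkPair_v])⟩, hz⟩
  · simp only [hz]
    exact fun n => (st n).orth
  · simp only [hz]
    exact fun n => (st n).len_ge
  · simp only [hz]
    exact fun n => (st n).len_le
  · rw [hz, hz]
    rcases n with _ | _ | n
    · rw [z0, norm_zero]
      positivity
    · rw [zero_add, z1, z2, ClkPair_n1, ClkPair_n2, abs_of_pos hτ, abs_of_pos (by positivity)]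
      linarith
    · exact (st n).five
  · simp only [hz]
    exact ratio
  · simp only [hz]
    exact mono
  · rw [ha]
    exact mul_pos hc (Ap n)
  · rwa [ha, A0, mul_one]
  · rw [ha, ha]
    linarith [mul_le_mul_of_nonneg_left (Au n) hc.le]
  · rw [ha, ha]
    linarith [mul_le_mul_of_nonneg_left (Al n) hc.le]
  · induction n with
    | zero => exact fun w => ⟨w.1, w.2.1, w.2.2, by simp [ClkPair_v]⟩
    | succ n ih =>
      intro w
      obtain ⟨n1, n2, n3, rfl⟩ := ih w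
      refine ⟨n2 + n1 * N n, n3 + n1 * N' n, n1, ?_⟩
      rw [show n + 1 + 2 = n + 3 from rfl, step]
      module
  · induction j with
    | zero => simp [par, ClkPair_v]
    | succ j ih =>
      have k := (hp (3 * j)).add ih
      rwa [sub_add_cancel] at k

variable {P : Par} {T Y : ℕ → ℝ} {v : ℕ → Z3} {N N' : ℕ → ℤ}

lemma Clk.one_le_tau (h : Clk P T Y v N N') : 1 ≤ P.τ2 := by
  have a1 := h.tbig
  have a2 : 0 < P.τ2 := (mul_pos_iff_of_pos_left (h.T_pos 0)).1 (by linarith)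
  linarith [mul_le_mul_of_nonneg_right (h.T_le 0) a2.le]

lemma Clk.norm_zero (h : Clk P T Y v N N') : ‖P.pv (cz (v 0))‖ = 0 := by
  rw [h.v0, norm_eq_zero]
  apply Complex.ext <;> simp [Par.pv, cz]

lemma Clk.norm_one (h : Clk P T Y v N N') : ‖P.pv (cz (v 1))‖ = 4 * P.τ2 := by
  have a1 := h.one_le_tau
  rw [h.v1, show P.pv (cz (0, 1, 0)) = ⟨P.τ1, 0⟩ by simp [Par.pv, cz], ClkPair_n1, h.t12,
    abs_of_pos (by linarith)]

lemma Clk.norm_two (h : Clk P T Y v N N') : ‖P.pv (cz (v 2))‖ = P.τ2 := by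
  have a1 := h.one_le_tau
  rw [h.v2, show P.pv (cz (0, 0, 1)) = ⟨0, P.τ2⟩ by simp [Par.pv, cz], ClkPair_n2,
    abs_of_pos (by linarith)]

lemma Clk.tau_le (h : Clk P T Y v N N') (n : ℕ) : P.τ2 ≤ ‖P.pv (cz (v (n + 1)))‖ := by
  have a1 := h.one_le_tau
  induction n using Nat.twoStepInduction with
  | zero => linarith [h.norm_one]
  | one => exact h.norm_two.ge
  | more n ih _ =>
    have a2 := mul_le_mul_of_nonneg_right (ClkPair_N (h.T_pos _) (h.T_le _) (h.big n))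
      (norm_nonneg (P.pv (cz (v (n + 1)))))
    have a3 := h.len_ge n
    change P.τ2 ≤ ‖P.pv (cz (v (n + 3)))‖
    linarith

lemma Clk.an_succ (h : Clk P T Y v N N') (n : ℕ) :
    P.an (cz (v (n + 1))) ≤ 2 * T (n / 3 + 1) ^ 4 * P.an (cz (v n)) := by
  have a1 := mul_le_mul_of_nonneg_right (h.big n) (h.an_pos (n + 1)).le
  have a2 := mul_le_mul_of_nonneg_left (h.an_up n) (pow_pos (h.T_pos (n / 3 + 1)) 4).le
  linarith

lemma ClkPair_pow {T : ℝ} (h0 : 0 < T) (h1 : T ≤ 1 / 10 ^ 4) : T ^ 4 ≤ T :=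
  pow_le_of_le_one h0.le (by linarith) (by norm_num)

lemma Clk.an_le (h : Clk P T Y v N N') (n : ℕ) : P.an (cz (v n)) ≤ T ((n + 2) / 3) := by
  induction n with
  | zero => exact h.an_zero
  | succ n ih =>
    rw [show (n + 1 + 2) / 3 = n / 3 + 1 by omega]
    have a1 := h.an_succ n
    have a2 := mul_le_mul (ClkPair_pow (h.T_pos (n / 3 + 1)) (h.T_le _)) (ih.trans (h.T_le _))
      (h.an_pos n).le (h.T_pos _).le
    linarith [h.T_pos (n / 3 + 1)]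

lemma Clk.orth' (h : Clk P T Y v N N') (n : ℕ) :
    |inner ℝ (P.pv (cz (v (n + 1)))) (P.pv (cz (v (n + 2))))| ≤
      T ((n + 1) / 3) * (‖P.pv (cz (v (n + 1)))‖ * ‖P.pv (cz (v (n + 2)))‖) := by
  rcases n with _ | n
  · have e : inner ℝ (P.pv (cz (v (0 + 1)))) (P.pv (cz (v (0 + 2)))) = 0 := by
      rw [zero_add, zero_add, h.v1, h.v2]
      simp [Par.pv, cz, Complex.inner]
    rw [e, abs_zero]
    exact mul_nonneg (h.T_pos _).le (by positivity)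
  · exact (h.orth n).trans (mul_le_mul_of_nonneg_right (h.anti (by omega)) (by positivity))

lemma Clk.ratio' (h : Clk P T Y v N N') (j : ℕ) :
    (Y j - T j) * ‖P.pv (cz (v (3 * j + 2)))‖ ≤ ‖P.pv (cz (v (3 * j + 1)))‖ := by
  rcases j with _ | j
  · change _ * ‖P.pv (cz (v 2))‖ ≤ ‖P.pv (cz (v 1))‖
    rw [h.norm_one, h.norm_two]
    exact mul_le_mul_of_nonneg_right (by linarith [h.Y4 0, h.T_pos 0]) (by linarith [h.one_le_tau])
  · change _ * ‖P.pv (cz (v (3 * j + 5)))‖ ≤ ‖P.pv (cz (v (3 * j + 4)))‖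
    linarith [(abs_le.1 (h.ratio j)).1]

lemma Clk.big' (h : Clk P T Y v N N') (j : ℕ) : 1 ≤ 2 * T j * ‖P.pv (cz (v (3 * j + 2)))‖ := by
  rcases j with _ | j
  · change 1 ≤ _ * ‖P.pv (cz (v 2))‖
    rw [h.norm_two]
    linarith [h.tbig]
  · change 1 ≤ _ * ‖P.pv (cz (v (3 * j + 2 + 3)))‖
    have a1 := h.big (3 * j + 2)
    have a2 := ClkPair_N (h.T_pos _) (h.T_le _) a1
    rw [show (3 * j + 2) / 3 = j by omega] at a1
    have a3 := mul_le_mul_of_nonneg_left (h.len_ge (3 * j + 2)) (h.T_pos (j + 1)).le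
    have a4 := mul_le_mul_of_nonneg_left (ClkPair_pow (h.T_pos (j + 1)) (h.T_le _))
      (show (0 : ℝ) ≤ N (3 * j + 2) by linarith)
    have a5 := mul_le_mul_of_nonneg_left (h.one_le_tau.trans (h.tau_le (3 * j + 2)))
      (show 0 ≤ N (3 * j + 2) * T (j + 1) by linarith)
    linarith

end

end Pool.Agent.Work.MP_0ba68b_gt.CX
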