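import Pool.Agent.Work.MP_0ba68b_gt.CX.ClkPair

/-!
The clock lattice in the transition regime.

PLAN.  `s = T (n/3 + 1) ≤ t' = T ((n+2)/3) ≤ t = T ((n+1)/3)`, `u₁ = v (n+1)`, `u₂ = v (n+2)`, `u₃ = v n - α • u₁` with `α` even near
`α* = B (v n) u₁/Q u₁` (`exists_even`).  `|B u₃ u₁| ≤ Q u₁`, `Q u₃ ≤ Q (v n - β • u₁) + Q u₁` for every real `β` (`Q_sub_smul`).
`√Q u₁ ≤ 2 p (n+1)/s` and `≤ 2 r A (n+1)/s ≤ 4 s³ r`.  `r A (n+2) ≤ 10 s³ p (n+2)`.
`√Q u₃ ≥ s N p (n+1)/5 ≥ p (n+1)/(5 s³)`: if `|α| ≤ N/4` then `r (A n - α A (n+1)) ≥ r N A (n+1)/4`, else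
`‖pv u₃‖ ≥ (N/4 - 5) p (n+1)`.  `B u₃ u₂ = r an u₃ r A (n+2) + ⟪P n, P (n+2)⟫ - α ⟪P (n+1), P (n+2)⟫` with
`|α| p (n+1) ≤ √Q u₃ + p n`, `p n ≤ 5 p (n+1) ≤ 25 s³ √Q u₃`.  All pairs have `|B| ≤ 3t √Q √Q`.
Sizes: `p (n+2) ≤ 40 s³ r` (`n ≥ 1`: `len_le`, `five`, `an_succ`, `an_up`), `Q u₃ ≤ Q (v n) + Q u₁`, `an_le`.
Cases `n = 3j`: `(a,b,c) = (u₁, u₂, u₃)`; `n = 3j+1`: `(u₃, u₁, u₂)`; `n = 3j+2`: `(u₂, u₃, u₁)` with `β = N`, `v (n+3) = v n - N • u₁`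
(`nz`), `Q u₃ ≤ (1 + t) p (n+3)²`, `ratio'` at `j + 1`.
-/

open Real

namespace Pool.Agent.Work.MP_0ba68b_gt.CX

variable {P : Par} {T Y : ℕ → ℝ} {v : ℕ → Z3} {N N' : ℕ → ℤ}

lemma ClkT_an_le (P : Par) (r : ℝ) (u : R3) : |r * P.an u| ≤ √(P.Q r u) :=
  abs_le_sqrt (by unfold Par.Q; linarith only [sq_nonneg ‖P.pv u‖])

lemma ClkT_pv_le (P : Par) (r : ℝ) (u : R3) : ‖P.pv u‖ ≤ √(P.Q r u) :=
  le_sqrt_of_sq_le (by unfold Par.Q; linarith [sq_nonneg (r * P.an u)])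

lemma ClkT_sqrt_le (P : Par) (r : ℝ) (u : R3) (h : 0 ≤ r * P.an u) :
    √(P.Q r u) ≤ r * P.an u + ‖P.pv u‖ :=
  sqrt_le_iff.2 ⟨add_nonneg h (norm_nonneg _), by
    unfold Par.Q
    linarith only [h, mul_nonneg h (norm_nonneg (P.pv u))]⟩

lemma ClkT_B (P : Par) (r : ℝ) (u w : R3) :
    |P.B r u w| ≤ |r * P.an u| * |r * P.an w| + |inner ℝ (P.pv u) (P.pv w)| := by
  rw [← abs_mul, show r * P.an u * (r * P.an w) = r ^ 2 * (P.an u * P.an w) by ring]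
  exact abs_add_le _ _

/-- The nearest even multiple. -/
lemma ClkT_even (P : Par) (r : ℝ) (u w : R3) (hw : 0 < P.Q r w) : ∃ α : ℤ, Even α ∧
    |P.B r (u - (α : ℝ) • w) w| ≤ √(P.Q r w) * √(P.Q r w) ∧
    ∀ β : ℝ, √(P.Q r (u - (α : ℝ) • w)) ≤ √(P.Q r (u - β • w)) + √(P.Q r w) := by
  obtain ⟨α, h1, h2⟩ := exists_even (P.B r u w / P.Q r w)
  obtain ⟨a, ha⟩ : ∃ a, a = P.B r u w / P.Q r w := ⟨_, rfl⟩
  have e : P.B r u w = a * P.Q r w := by rw [ha, div_mul_cancel₀ _ hw.ne']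
  rw [← ha] at h2
  refine ⟨α, h1, ?_, fun β => ?_⟩
  · rw [P.B_sub_smul, P.B_self, e, ← sub_mul, abs_mul, abs_of_pos hw, mul_self_sqrt hw.le]
    exact mul_le_of_le_one_left hw.le h2
  · refine sqrt_le_iff.2 ⟨by positivity, ?_⟩
    have h3 := mul_le_mul_of_nonneg_right ((sq_le_one_iff_abs_le_one _).2 h2) hw.le
    have h4 := mul_nonneg (sq_nonneg (β - a)) hw.le
    have h5 := mul_nonneg (sqrt_nonneg (P.Q r (u - β • w))) (sqrt_nonneg (P.Q r w))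
    rw [add_sq, sq_sqrt (P.Q_nonneg _ _), sq_sqrt hw.le]
    have h6 := P.Q_sub_smul r α u w
    have h7 := P.Q_sub_smul r β u w
    rw [e] at h6 h7
    linarith only [h3, h4, h5, h6, h7]

lemma ClkT_mk {r t y g : ℝ} {a b c : Z3} (hb : IsBas a b c) (t0 : 0 < t) (t1 : t ≤ 1 / 10 ^ 4)
    (y0 : 1 ≤ y)
    (hab : |P.B r (cz a) (cz b)| ≤ 3 * t * (√(P.Q r (cz a)) * √(P.Q r (cz b))))
    (hac : |P.B r (cz a) (cz c)| ≤ 3 * t * (√(P.Q r (cz a)) * √(P.Q r (cz c))))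
    (hbc : |P.B r (cz b) (cz c)| ≤ 3 * t * (√(P.Q r (cz b)) * √(P.Q r (cz c))))
    (h1 : y * (1 - 1000 * t) * √(P.Q r (cz b)) ≤ √(P.Q r (cz a)))
    (h2 : 1 ≤ 1000 * t * √(P.Q r (cz b))) (sa : √(P.Q r (cz a)) ≤ g * r)
    (sb : √(P.Q r (cz b)) ≤ g * r) (sc : √(P.Q r (cz c)) ≤ g * r) :
    CBas P r (1000 * t) y g a b c := by
  refine ⟨hb, P.orth_of_pairs (by linarith only [t0]) hab hac hbc (by linarith), ?_, ?_,
    (sqrt_le_iff.1 sa).2, (sqrt_le_iff.1 sb).2, (sqrt_le_iff.1 sc).2⟩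
  · have h3 : 0 ≤ y * (1 - 1000 * t) * √(P.Q r (cz b)) :=
      mul_nonneg (mul_nonneg (by linarith) (by linarith)) (sqrt_nonneg _)
    have h4 := pow_le_pow_left₀ h3 h1 2
    rwa [mul_pow, sq_sqrt (P.Q_nonneg _ _), sq_sqrt (P.Q_nonneg _ _)] at h4
  · have h4 := pow_le_pow_left₀ zero_le_one h2 2
    rwa [one_pow, mul_pow, sq_sqrt (P.Q_nonneg _ _)] at h4

lemma ClkT_ratio {y t L p q M : ℝ} (t0 : 0 < t) (t1 : t ≤ 1 / 10 ^ 4) (y0 : 1 ≤ y) (p0 : 0 ≤ p)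
    (h1 : L ≤ (1 + t) * p) (h2 : (y - t) * p ≤ q) (h3 : q ≤ M) : y * (1 - 1000 * t) * L ≤ M := by
  have h4 : 0 ≤ y * (1 - 1000 * t) := mul_nonneg (by linarith only [t0, t1, y0]) (by linarith only [t0, t1])
  have h5 : y * (1 - 1000 * t) * (1 + t) ≤ y - t := by
    have h6 := mul_le_mul_of_nonneg_left y0 t0.le
    have h7 : 0 ≤ y * t * t := by positivity
    linarith only [t0, h6, h7]
  have h6 := mul_le_mul_of_nonneg_left h1 h4
  have h7 := mul_le_mul_of_nonneg_right h5 p0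
  linarith only [h2, h3, h6, h7]

lemma ClkT_par (h : Clk P T Y v N N') (j : ℕ) :
    Even (par (v (3 * j))) ∧ Odd (par (v (3 * j + 1))) ∧ Odd (par (v (3 * j + 2))) := by
  have key : ∀ n, ∃ e, Even e ∧ par (v (n + 3)) = par (v n) + e := fun n =>
    ⟨-(N n * par (v (n + 1))) - N' n * par (v (n + 2)),
      ((h.even n).mul_right _).neg.sub ((h.even' n).mul_right _), by
        rw [h.step]
        simp only [par, Prod.fst_sub, Prod.snd_sub, Prod.smul_fst, Prod.smul_snd, smul_eq_mul]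
        ring⟩
  induction j with
  | zero =>
    rw [mul_zero, zero_add, zero_add, h.v0, h.v1, h.v2]
    exact ⟨⟨0, rfl⟩, ⟨0, rfl⟩, ⟨0, rfl⟩⟩
  | succ j ih =>
    obtain ⟨e0, a0, b0⟩ := key (3 * j)
    obtain ⟨e1, a1, b1⟩ := key (3 * j + 1)
    obtain ⟨e2, a2, b2⟩ := key (3 * j + 2)
    refine ⟨?_, ?_, ?_⟩
    · rw [show 3 * (j + 1) = 3 * j + 3 from rfl, b0]
      exact ih.1.add a0
    · rw [show 3 * (j + 1) + 1 = 3 * j + 1 + 3 from rfl, b1]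
      exact ih.2.1.add_even a1
    · rw [show 3 * (j + 1) + 2 = 3 * j + 2 + 3 from rfl, b2]
      exact ih.2.2.add_even a2

lemma ClkT_par_sub (u w : Z3) (α : ℤ) : par (u - α • w) = par u - α * par w := by
  simp only [par, Prod.fst_sub, Prod.snd_sub, Prod.smul_fst, Prod.smul_snd, smul_eq_mul]
  ring

lemma ClkT_span (h : Clk P T Y v N N') (n : ℕ) (α : ℤ) (w : Z3) :
    ∃ n1 n2 n3 : ℤ, w = n1 • v (n + 1) + n2 • v (n + 2) + n3 • (v n - α • v (n + 1)) := by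
  obtain ⟨n1, n2, n3, e⟩ := h.span n w
  refine ⟨n2 + n1 * α, n3, n1, ?_⟩
  rw [e]
  module

/-- The size of the newest translation part. -/
lemma ClkT_p2 (h : Clk P T Y v N N') (n : ℕ) {r : ℝ} (r0 : 0 < r)
    (hr1 : T (n / 3 + 1) * ‖P.pv (cz (v (n + 1)))‖ ≤ r * P.an (cz (v (n + 1)))) :
    ‖P.pv (cz (v (n + 2)))‖ ≤ 40 * T (n / 3 + 1) ^ 3 * r := by
  have s0 := h.T_pos (n / 3 + 1)
  have a1 := mul_le_mul_of_nonneg_left (h.an_succ n) r0.le
  have p1 : ‖P.pv (cz (v (n + 1)))‖ ≤ 2 * T (n / 3 + 1) ^ 3 * r * P.an (cz (v n)) :=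
    le_of_mul_le_mul_left (by linarith only [hr1, a1]) s0
  have c0 : 0 < T (n / 3 + 1) ^ 3 * r := by positivity
  have one : ∀ k, P.an (cz (v k)) ≤ 1 := fun k =>
    (h.an_le k).trans ((h.T_le _).trans (by norm_num))
  rcases n with _ | m
  · have a2 := mul_le_mul_of_nonneg_left (one 0) c0.le
    have a3 := h.norm_one
    have a4 := h.norm_two
    have a5 := h.one_le_tau
    simp only [zero_add] at p1 a2 c0 ⊢
    linarith only [a2, a3, a4, a5, p1]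
  · have N0 : (0 : ℝ) ≤ N m := by
      have := (abs_nonneg _).trans (h.abs_le m)
      exact_mod_cast this
    have a2 := h.len_le m
    have a3 := mul_le_mul_of_nonneg_left (h.five (m + 1)) N0
    have a4 := mul_le_mul_of_nonneg_left p1 N0
    have a5 := mul_le_mul_of_nonneg_left ((h.an_up m).trans
      (mul_le_mul_of_nonneg_left (one m) zero_le_two)) c0.le
    show ‖P.pv (cz (v (m + 3)))‖ ≤ _
    linarith only [a2, a3, a4, a5]

/-- The new vector is long. -/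
lemma ClkT_long {s σ N a x0 x1 p0 p1 L : ℝ} (s0 : 0 < s) (s1 : s ≤ 1) (σ0 : 0 < σ)
    (σ1 : 100 * σ ≤ 1) (hN : 1 ≤ N * (s * σ)) (h1 : N * x1 ≤ 2 * x0) (h2 : s * p1 ≤ x1)
    (p10 : 0 < p1) (h3 : p0 ≤ 5 * p1) (h4 : x0 - a * x1 ≤ L) (h5 : |a| * p1 ≤ L + p0) :
    p1 ≤ 5 * σ * L := by
  have c0 : 0 < s * σ := mul_pos s0 σ0
  have N0 : 0 < N := pos_of_mul_pos_left (b := s * σ) (by linarith) c0.le
  have x10 : 0 < x1 := (mul_pos s0 p10).trans_le h2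
  have c1 : s * σ ≤ σ := mul_le_of_le_one_left σ0.le s1
  have N1 : 100 ≤ N := by
    have a1 := mul_le_mul_of_nonneg_left (show 100 * (s * σ) ≤ 1 by linarith) N0.le
    linarith
  have key : N * (s * p1) ≤ 5 * L := by
    rcases le_total |a| (N / 4) with h | h
    · have a1 := mul_le_mul_of_nonneg_right ((le_abs_self a).trans h) x10.le
      have a2 := mul_le_mul_of_nonneg_left h2 N0.le
      have a3 := mul_pos N0 x10
      linarith only [h1, h4, a1, a2, a3]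
    · have a1 := mul_le_mul_of_nonneg_right h p10.le
      have a2 := mul_le_mul_of_nonneg_right N1 p10.le
      have a3 := mul_le_mul_of_nonneg_left (mul_le_of_le_one_left p10.le s1) N0.le
      linarith only [h3, h5, a1, a2, a3]
  have a1 := mul_le_mul_of_nonneg_left key σ0.le
  have a2 := mul_le_mul_of_nonneg_right hN p10.le
  linarith

lemma ClkT_core (h : Clk P T Y v N N') (n : ℕ) {r : ℝ}
    (hr1 : T (n / 3 + 1) * ‖P.pv (cz (v (n + 1)))‖ ≤ r * P.an (cz (v (n + 1))))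
    (hr2 : T (n / 3 + 1) * (r * P.an (cz (v (n + 1)))) ≤ ‖P.pv (cz (v (n + 1)))‖) :
    ∃ α : ℤ, Even α ∧ ∀ u1 u2 u3 : R3, u1 = cz (v (n + 1)) → u2 = cz (v (n + 2)) →
      u3 = cz (v n - α • v (n + 1)) → ∀ t g : ℝ, t = T ((n + 1) / 3) → g = 1000 * T ((n + 2) / 3) →
      |P.B r u1 u2| ≤ 3 * t * (√(P.Q r u1) * √(P.Q r u2)) ∧
      |P.B r u3 u1| ≤ 3 * t * (√(P.Q r u3) * √(P.Q r u1)) ∧
      |P.B r u3 u2| ≤ 3 * t * (√(P.Q r u3) * √(P.Q r u2)) ∧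
      √(P.Q r u1) ≤ g * r ∧ √(P.Q r u2) ≤ g * r ∧ √(P.Q r u3) ≤ g * r ∧
      √(P.Q r u2) ≤ (1 + t) * ‖P.pv u2‖ ∧ √(P.Q r u1) ≤ t * √(P.Q r u3) ∧
      1 ≤ t * √(P.Q r u3) ∧
      (N' n = 0 → √(P.Q r u3) ≤ (1 + t) * ‖P.pv (cz (v (n + 3)))‖) := by
  have s0 := h.T_pos (n / 3 + 1)
  have st' : T (n / 3 + 1) ≤ T ((n + 2) / 3) := h.anti (by omega)
  have st : T (n / 3 + 1) ≤ T ((n + 1) / 3) := h.anti (by omega)
  have t1 := h.T_le ((n + 1) / 3)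
  have p11 : 1 ≤ ‖P.pv (cz (v (n + 1)))‖ := h.one_le_tau.trans (h.tau_le n)
  have x10 : 0 < r * P.an (cz (v (n + 1))) := (mul_pos s0 (by linarith only [s0, st, t1, p11])).trans_le hr1
  have r0 : 0 < r := pos_of_mul_pos_left x10 (h.an_pos _).le
  have x00 := mul_pos r0 (h.an_pos n)
  have x20 := mul_pos r0 (h.an_pos (n + 2))
  have x30 := mul_pos r0 (h.an_pos (n + 3))
  have hp2 := ClkT_p2 h n r0 hr1
  have hx0 := mul_le_mul_of_nonneg_left (h.an_le n) r0.le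
  have hx1 := mul_le_mul_of_nonneg_left (h.an_succ n) r0.le
  have hx2 : r * P.an (cz (v (n + 2))) ≤
      2 * T (n / 3 + 1) ^ 4 * (r * P.an (cz (v (n + 1)))) := by
    have a1 : T ((n + 1) / 3 + 1) ^ 4 ≤ T (n / 3 + 1) ^ 4 :=
      pow_le_pow_left₀ (h.T_pos _).le (h.anti (by omega)) 4
    have a2 := mul_le_mul_of_nonneg_left (h.an_succ (n + 1)) r0.le
    have a3 := mul_le_mul_of_nonneg_right a1 x10.le
    linarith only [a2, a3]
  have hx3 : r * P.an (cz (v (n + 3))) ≤ r * P.an (cz (v (n + 2))) := by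
    have a1 : T ((n + 2) / 3 + 1) ^ 4 ≤ (1 / 10 ^ 4) ^ 4 :=
      pow_le_pow_left₀ (h.T_pos _).le (h.T_le _) 4
    have a2 := mul_le_mul_of_nonneg_left (h.an_succ (n + 2)) r0.le
    have a3 := mul_le_mul_of_nonneg_right (a1.trans (show _ ≤ (1 / 2 : ℝ) by norm_num)) x20.le
    linarith only [a2, a3]
  have hN := h.big n
  have hup := mul_le_mul_of_nonneg_left (h.an_up n) r0.le
  have f0 := h.five n
  have f1 := h.five (n + 1)
  have lg := h.len_ge n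
  have o12 := h.orth' n
  have Q1 : 0 < P.Q r (cz (v (n + 1))) :=
    sqrt_pos.1 (lt_of_lt_of_le (by linarith only [s0, st, t1, p11]) (ClkT_pv_le P r _))
  obtain ⟨α, ev, b31, m3⟩ := ClkT_even P r (cz (v n)) (cz (v (n + 1))) Q1
  refine ⟨α, ev, ?_⟩
  rintro u1 u2 u3 rfl rfl rfl t g rfl rfl
  have m30 := m3 0
  have m3N := m3 (N n)
  rw [zero_smul, sub_zero] at m30
  rw [cz_sub_smul]
  have l0 := ClkT_sqrt_le P r _ x00.le
  have l1 := ClkT_sqrt_le P r _ x10.le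
  have l2 := ClkT_sqrt_le P r _ x20.le
  have l3 := ClkT_sqrt_le P r _ x30.le
  have g1 := ClkT_pv_le P r (cz (v (n + 1)))
  have g1' := ClkT_an_le P r (cz (v (n + 1)))
  have g2 := ClkT_pv_le P r (cz (v (n + 2)))
  have g3 := ClkT_pv_le P r (cz (v n) - (α : ℝ) • cz (v (n + 1)))
  have g3' := ClkT_an_le P r (cz (v n) - (α : ℝ) • cz (v (n + 1)))
  have b12 := ClkT_B P r (cz (v (n + 1))) (cz (v (n + 2)))
  have b32 := ClkT_B P r (cz (v n) - (α : ℝ) • cz (v (n + 1))) (cz (v (n + 2)))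
  have c1 : r * P.an (cz (v n)) - α * (r * P.an (cz (v (n + 1)))) ≤
      √(P.Q r (cz (v n) - (α : ℝ) • cz (v (n + 1)))) := by
    refine le_trans (le_of_eq ?_) ((le_abs_self _).trans g3')
    rw [P.an_sub, P.an_smul]
    ring
  have c2 : |(α : ℝ)| * ‖P.pv (cz (v (n + 1)))‖ ≤
      √(P.Q r (cz (v n) - (α : ℝ) • cz (v (n + 1)))) + ‖P.pv (cz (v n))‖ := by
    rw [P.pv_sub, P.pv_smul] at g3
    have a1 := norm_sub_norm_le ((α : ℝ) • P.pv (cz (v (n + 1)))) (P.pv (cz (v n)))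
    rw [norm_sub_rev, norm_smul, norm_eq_abs] at a1
    linarith only [g3, a1]
  have c3 : |inner ℝ (P.pv (cz (v n) - (α : ℝ) • cz (v (n + 1)))) (P.pv (cz (v (n + 2))))| ≤
      ‖P.pv (cz (v n))‖ * ‖P.pv (cz (v (n + 2)))‖ + |(α : ℝ)| *
        (T ((n + 1) / 3) * (‖P.pv (cz (v (n + 1)))‖ * ‖P.pv (cz (v (n + 2)))‖)) := by
    rw [P.pv_sub, P.pv_smul, inner_sub_left, real_inner_smul_left]
    refine (abs_sub _ _).trans (add_le_add (abs_real_inner_le_norm _ _) ?_)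
    rw [abs_mul]
    exact mul_le_mul_of_nonneg_left o12 (abs_nonneg _)
  have c4 : N' n = 0 → cz (v n) - (N n : ℝ) • cz (v (n + 1)) = cz (v (n + 3)) := fun e => by
    rw [h.step, e, zero_smul, sub_zero, cz_sub_smul]
  rw [abs_of_pos x10] at g1'
  rw [abs_of_pos x10, abs_of_pos x20] at b12
  rw [abs_of_pos x20] at b32
  have p00 := norm_nonneg (P.pv (cz (v n)))
  have p30 := norm_nonneg (P.pv (cz (v (n + 3))))
  have L30 := sqrt_nonneg (P.Q r (cz (v n) - (α : ℝ) • cz (v (n + 1))))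
  generalize √(P.Q r (cz (v n) - (α : ℝ) • cz (v (n + 1)))) = L3 at *
  generalize √(P.Q r (cz (v (n + 1)))) = L1 at *
  generalize √(P.Q r (cz (v (n + 2)))) = L2 at *
  generalize ‖P.pv (cz (v n))‖ = p0 at *
  generalize ‖P.pv (cz (v (n + 1)))‖ = p1 at *
  generalize ‖P.pv (cz (v (n + 2)))‖ = p2 at *
  generalize ‖P.pv (cz (v (n + 3)))‖ = p3 at *
  generalize T (n / 3 + 1) = s at *
  generalize T ((n + 1) / 3) = t at *
  generalize T ((n + 2) / 3) = t' at *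
  obtain ⟨x0, e0⟩ : ∃ x, x = r * P.an (cz (v n)) := ⟨_, rfl⟩
  obtain ⟨x1, e1⟩ : ∃ x, x = r * P.an (cz (v (n + 1))) := ⟨_, rfl⟩
  obtain ⟨x2, e2⟩ : ∃ x, x = r * P.an (cz (v (n + 2))) := ⟨_, rfl⟩
  obtain ⟨σ, eσ⟩ : ∃ σ, σ = s ^ 3 := ⟨_, rfl⟩
  have e4 : s ^ 4 = s * σ := by rw [eσ]; ring
  have s1 : s ≤ 1 / 10 ^ 4 := st.trans t1
  have ss : s * s ≤ s * (1 / 10 ^ 4) := mul_le_mul_of_nonneg_left s1 s0.le
  have σ0 : 0 < σ := eσ ▸ pow_pos s0 3
  have σs : σ ≤ s * s * (1 / 10 ^ 4) := by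
    rw [eσ, pow_succ, sq]
    exact mul_le_mul_of_nonneg_left s1 (mul_pos s0 s0).le
  have hx1' : x1 ≤ 2 * (s * σ) * x0 := by rw [e0, e1, ← e4]; linarith only [hx1]
  have hup' : N n * x1 ≤ 2 * x0 := by rw [e0, e1]; linarith only [hup]
  rw [e4] at hx2 hN
  rw [← eσ] at hp2
  rw [← e0] at x00 hx0 l0 c1
  rw [← e1] at hr1 hr2 x10 hx2 l1 g1' b12 c1
  rw [← e2] at x20 hx2 hx3 l2 b12 b32
  clear hx1 hup e0 e1 e2 eσ e4
  have d1 : p1 ≤ 5 * σ * L3 := ClkT_long s0 (by linarith only [t1, st, ss, σ0, σs]) σ0 (by linarith only [t1, st, ss, σ0, σs]) hN hup' hr1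
    (by linarith only [p11, t1, st, ss, σ0, σs]) f0 c1 c2
  have p20 : 0 < p2 := by linarith only [p11, f1, t1, st, ss, σ0, σs]
  have sp1 : s * p1 ≤ p1 := mul_le_of_le_one_left (by linarith only [p11, t1, st, ss, σ0, σs]) (by linarith only [t1, st, ss, σ0, σs])
  have sx1 : s * x1 ≤ x1 := mul_le_of_le_one_left x10.le (by linarith only [t1, st, ss, σ0, σs])
  have sl1 := mul_le_mul_of_nonneg_left l1 s0.le
  have d2 : x2 ≤ 2 * σ * p1 := by linarith only [hx2, hr2, σ0, mul_le_mul_of_nonneg_left hr2 σ0.le]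
  have d3 : x2 ≤ t * p2 := by
    have a1 := mul_le_mul_of_nonneg_left f1 σ0.le
    have a2 := mul_le_mul_of_nonneg_right (show 10 * σ ≤ t by linarith only [st, ss, σ0, σs]) p20.le
    linarith only [d2, a1, a2]
  have d4 : L1 ≤ t * L3 := by
    have a1 := mul_le_mul_of_nonneg_right (show 10 * σ ≤ s * s by linarith only [σ0, σs]) L30
    have a2 : L1 ≤ s * L3 := le_of_mul_le_mul_left (by linarith only [hr2, d1, sp1, sl1, a1]) s0
    exact a2.trans (mul_le_mul_of_nonneg_right st L30)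
  have d5 : L1 ≤ r * t' := by
    have a1 : L1 ≤ 4 * σ * x0 := le_of_mul_le_mul_left (by linarith only [hr1, hx1', sx1, sl1]) s0
    have a2 := mul_le_mul_of_nonneg_right (show 4 * σ ≤ 1 by linarith only [t1, st, ss, σ0, σs]) x00.le
    linarith only [hx0, a1, a2]
  have d6 : p2 ≤ r * t' := by
    linarith only [hp2, st', ss, σ0, σs, r0, mul_le_mul_of_nonneg_right (show 40 * σ ≤ t' by linarith) r0.le]
  have t0 : 0 < t := by linarith only [st, ss, σ0, σs]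
  have d7 : t * p2 ≤ p2 := mul_le_of_le_one_left p20.le (by linarith only [t1, st, ss, σ0, σs])
  have d8 : p0 ≤ t * L3 := by
    linarith only [f0, d1, st, ss, σ0, σs, L30, mul_le_mul_of_nonneg_right (show 25 * σ ≤ t by linarith) L30]
  have L10 : 0 ≤ L1 := by linarith only [p11, g1, t1, st, ss, σ0, σs]
  have rt : 0 < r * t' := mul_pos r0 (by linarith only [st', ss, σ0, σs])
  refine ⟨?_, ?_, ?_, by linarith only [p11, g1, t1, st, ss, σ0, σs, d5], by linarith only [p11, g1, t1, st, l2, ss, σ0, σs, d3, d5, d6, d7], by linarith only [m30, p11, g1, f0, t1, st, l0, hx0, ss, σ0, σs, d5], by linarith only [l2, d3], d4, ?_, fun e => ?_⟩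
  · have a1 := mul_le_mul g1' d3 x20.le L10
    have a2 := mul_le_mul_of_nonneg_left (mul_le_mul g1 g2 p20.le L10) t0.le
    have a3 := mul_le_mul_of_nonneg_left (mul_le_mul_of_nonneg_left g2 L10) t0.le
    have a4 : 0 ≤ t * (L1 * L2) := mul_nonneg t0.le (mul_nonneg L10 (by linarith only [p11, g2, f1, t1, st, ss, σ0, σs]))
    linarith only [o12, b12, a1, a2, a3, a4]
  · have a1 := mul_le_mul_of_nonneg_right d4 L10
    have a4 : 0 ≤ t * (L3 * L1) := mul_nonneg t0.le (mul_nonneg L30 L10)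
    linarith only [b31, a1, a4]
  · have a0 : x2 ≤ t / 2 * p2 := by
      have a1 := mul_le_mul_of_nonneg_left f1 σ0.le
      have a2 := mul_le_mul_of_nonneg_right (show 10 * σ ≤ t / 2 by linarith only [st, ss, σ0, σs]) p20.le
      linarith only [d2, a1, a2]
    have a1 := mul_le_mul g3' a0 x20.le L30
    have a2 := mul_le_mul_of_nonneg_right d8 p20.le
    have a3 := mul_le_mul_of_nonneg_left c2 (mul_pos t0 p20).le
    have a4 : p0 ≤ L3 / 2 := by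
      linarith only [d8, t1, st, ss, σ0, σs, L30, mul_le_mul_of_nonneg_right (show t ≤ 1 / 2 by linarith) L30]
    have a5 := mul_le_mul_of_nonneg_left a4 (mul_pos t0 p20).le
    have a6 := mul_le_mul_of_nonneg_left g2 (mul_nonneg t0.le L30)
    linarith only [c3, b32, a1, a2, a3, a5, a6]
  · linarith only [p11, g1, d4, mul_le_mul_of_nonneg_right (show 5 * σ ≤ t by linarith) L30]
  · rw [c4 e] at m3N
    have a1 : p1 ≤ 2 * (s * σ) * p3 := by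
      have a2 := mul_le_mul_of_nonneg_right hN (show 0 ≤ p1 by linarith only [p11, t1, st, ss, σ0, σs])
      have a3 := mul_le_mul_of_nonneg_left lg (mul_pos s0 σ0).le
      linarith only [a2, a3]
    have a2 : L1 ≤ 4 * σ * p3 := le_of_mul_le_mul_left (by linarith only [hr2, sp1, sl1, a1]) s0
    have a3 : 2 * σ * p1 ≤ L1 := by
      linarith only [g1, t1, st, ss, σ0, σs, p11, mul_le_mul_of_nonneg_right (show 2 * σ ≤ 1 by linarith) (show 0 ≤ p1 by linarith)]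
    have a4 := mul_le_mul_of_nonneg_right (show 8 * σ ≤ t by linarith only [st, ss, σ0, σs]) p30
    linarith only [m3N, l3, hx3, d2, a2, a3, a4]

theorem Clk.regT (h : Clk P T Y v N N') (n : ℕ) {r : ℝ}
    (hr1 : T (n / 3 + 1) * ‖P.pv (cz (v (n + 1)))‖ ≤ r * P.an (cz (v (n + 1))))
    (hr2 : T (n / 3 + 1) * (r * P.an (cz (v (n + 1)))) ≤ ‖P.pv (cz (v (n + 1)))‖) :
    ∃ a b c, CBas P r (1000 * T ((n + 1) / 3)) (Y ((n + 1) / 3)) (1000 * T ((n + 2) / 3)) a b c := by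
  obtain ⟨α, ev, H⟩ := ClkT_core h n hr1 hr2
  obtain ⟨b12, b31, b32, s1, s2, s3, e2, e1, e3, e4⟩ := H _ _ _ rfl rfl rfl _ _ rfl rfl
  have t0 := h.T_pos ((n + 1) / 3)
  have t1 := h.T_le ((n + 1) / 3)
  have y1 := h.Y1 ((n + 1) / 3)
  have sp := ClkT_span h n α
  obtain ⟨j, rfl | rfl | rfl⟩ : ∃ j, n = 3 * j ∨ n = 3 * j + 1 ∨ n = 3 * j + 2 :=
    ⟨n / 3, by omega⟩
  · obtain ⟨q0, q1, q2⟩ := ClkT_par h j
    have ej : (3 * j + 1) / 3 = j := by omega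
    refine ⟨_, _, _, ClkT_mk ⟨sp, q1, q2, ?_⟩ t0 t1 y1 b12 (by rwa [P.B_comm, mul_comm (√_)])
      (by rwa [P.B_comm, mul_comm (√_)]) ?_ ?_ s1 s2 s3⟩
    · rw [ClkT_par_sub]
      exact q0.sub (ev.mul_right _)
    · refine ClkT_ratio t0 t1 y1 (norm_nonneg _) e2 ?_ (ClkT_pv_le P r _)
      rw [ej]
      exact h.ratio' j
    · have a1 := h.big' j
      have a2 := mul_le_mul_of_nonneg_left (ClkT_pv_le P r (cz (v (3 * j + 2)))) t0.le
      rw [ej] at a2 ⊢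
      linarith only [t0, t1, a1, a2]
  · obtain ⟨-, q1, q2⟩ := ClkT_par h j
    have q3 := (ClkT_par h (j + 1)).1
    have ej : (3 * j + 1 + 1) / 3 = j := by omega
    refine ⟨_, _, _, ClkT_mk ⟨fun w => ?_, ?_, q2, q3⟩ t0 t1 y1 b31 b32 b12 ?_ ?_ s3 s1 s2⟩
    · obtain ⟨n1, n2, n3, e⟩ := sp w
      exact ⟨n3, n1, n2, e.trans (add_rotate _ _ _).symm⟩
    · rw [ClkT_par_sub]
      exact q1.sub_even (ev.mul_right _)
    · have a0 := sqrt_nonneg (P.Q r (cz (v (3 * j + 1 + 1))))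
      have a1 : Y ((3 * j + 1 + 1) / 3) * (1 - 1000 * T ((3 * j + 1 + 1) / 3)) ≤ 4 :=
        (mul_le_of_le_one_right (by linarith only [t0, t1, y1]) (by linarith only [t0])).trans (h.Y4 _)
      have a2 := mul_le_mul_of_nonneg_right a1 a0
      have a3 := mul_le_mul_of_nonneg_right (show T ((3 * j + 1 + 1) / 3) ≤ 1 / 4 by linarith only [t0, t1])
        (sqrt_nonneg (P.Q r (cz (v (3 * j + 1) - α • v (3 * j + 1 + 1)))))
      linarith only [e1, a2, a3]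
    · have a1 := h.big' j
      have a2 := mul_le_mul_of_nonneg_left (ClkT_pv_le P r (cz (v (3 * j + 2)))) t0.le
      rw [ej] at a2 ⊢
      linarith only [t0, t1, a1, a2]
  · have q2 := (ClkT_par h j).2.2
    obtain ⟨q3, q4, -⟩ := ClkT_par h (j + 1)
    have ej : (3 * j + 2 + 1) / 3 = j + 1 := by omega
    refine ⟨_, _, _, ClkT_mk ⟨fun w => ?_, q4, ?_, q3⟩ t0 t1 y1 (by rwa [P.B_comm, mul_comm (√_)])
      (by rwa [P.B_comm, mul_comm (√_)]) b31 ?_ ?_ s2 s3 s1⟩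
    · obtain ⟨n1, n2, n3, e⟩ := sp w
      exact ⟨n2, n3, n1, e.trans (add_rotate _ _ _)⟩
    · rw [ClkT_par_sub]
      exact q2.sub_even (ev.mul_right _)
    · refine ClkT_ratio t0 t1 y1 (norm_nonneg _) (e4 (h.nz j)) ?_ (ClkT_pv_le P r _)
      rw [ej]
      exact h.ratio' (j + 1)
    · linarith only [e3, t0, t1]

end Pool.Agent.Work.MP_0ba68b_gt.CX
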