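import Pool.Agent.Work.MP_0ba68b_gt.CX.ClkI
import Pool.Agent.Work.MP_0ba68b_gt.CX.ClkT

/-!
The arithmetic of the clock lattice at all radii, and the events.

PLAN.  `R n = p n/A n`; `R (n+2) ≥ R (n+1)/(10 T ((n+1)/3 + 1)⁴) ≥ 2 R (n+1)` (`five`, `an_succ`), so `R` is monotone and unbounded.
`lev r = Nat.find (r < R (3j+2))`, `r0 = τ2/T 0`, `lev (8 r0) = 0`, `φ1 = A 1`, `φ2 = A 2`, `2π/m0 = A 0`.
For `r ≥ r0` take the greatest `n` with `p n ≤ T ((n+1)/3) (r A n)` (true for `n = 0`; such `n` have `R n ≤ r`).  If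
`r A (n+1) ≤ T ((n+1)/3) p (n+1)` use `regI` (`8 r < R (n+1) ≤ R (3 ((n+1)/3) + 2)`), otherwise `regT`
(`8 r < R (n+2) ≤ R (3 ((n+2)/3) + 2)`); `CBas.mono`; `k = (n+1)/3 ≤ lev r` as `R (3 (k-1) + 2) ≤ R n ≤ r`.
Event: `n = 3k`, `r = R n/T k`, `regI`, `an_two`, `ClkRel.ratio`.
-/

open Real

namespace Pool.Agent.Work.MP_0ba68b_gt.CX

variable {P : Par} {T Y : ℕ → ℝ} {v : ℕ → Z3} {N N' : ℕ → ℤ}

/-- The radius at which the angle and the translation part of `v n` have the same size. -/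
noncomputable def ClkSeq_R (P : Par) (v : ℕ → Z3) (n : ℕ) : ℝ :=
  ‖P.pv (cz (v n))‖ / P.an (cz (v n))

lemma ClkSeq_R_mul (h : Clk P T Y v N N') (n : ℕ) :
    ClkSeq_R P v n * P.an (cz (v n)) = ‖P.pv (cz (v n))‖ :=
  div_mul_cancel₀ _ (h.an_pos n).ne'

lemma ClkSeq_R_nonneg (h : Clk P T Y v N N') (n : ℕ) : 0 ≤ ClkSeq_R P v n :=
  div_nonneg (norm_nonneg _) (h.an_pos n).le

lemma ClkSeq_R_pos (h : Clk P T Y v N N') (n : ℕ) : 0 < ClkSeq_R P v (n + 1) :=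
  div_pos (lt_of_lt_of_le (lt_of_lt_of_le one_pos h.one_le_tau) (h.tau_le n)) (h.an_pos _)

lemma ClkSeq_step (h : Clk P T Y v N N') (n : ℕ) :
    ClkSeq_R P v n ≤ 10 * T (n / 3 + 1) ^ 4 * ClkSeq_R P v (n + 1) := by
  have h1 := h.five n
  have h2 := h.an_succ n
  have h3 := ClkSeq_R_mul h (n + 1)
  have h4 := ClkSeq_R_nonneg h (n + 1)
  rw [ClkSeq_R, div_le_iff₀ (h.an_pos n)]
  have h5 := mul_le_mul_of_nonneg_left h2 h4
  nlinarith only [h1, h3, h5]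

lemma ClkSeq_cube (h : Clk P T Y v N N') (k : ℕ) : T k ^ 3 ≤ 1 / 10 ^ 12 := by
  have := pow_le_pow_left₀ (h.T_pos k).le (h.T_le k) 3
  norm_num at this ⊢
  exact this

lemma ClkSeq_two (h : Clk P T Y v N N') (n : ℕ) : 2 * ClkSeq_R P v n ≤ ClkSeq_R P v (n + 1) := by
  have h1 := ClkSeq_step h n
  have h2 := pow_le_pow_left₀ (h.T_pos (n / 3 + 1)).le (h.T_le _) 4
  have h4 := ClkSeq_R_nonneg h (n + 1)
  have h5 := mul_le_mul_of_nonneg_right h2 h4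
  nlinarith

lemma ClkSeq_mono (h : Clk P T Y v N N') : Monotone (ClkSeq_R P v) := by
  refine monotone_nat_of_le_succ fun n => ?_
  have := ClkSeq_two h n
  have := ClkSeq_R_nonneg h n
  linarith

lemma ClkSeq_unb (h : Clk P T Y v N N') (r : ℝ) : ∃ n, r < ClkSeq_R P v n := by
  have h1 : ∀ n : ℕ, 2 ^ n * ClkSeq_R P v 1 ≤ ClkSeq_R P v (n + 1) := by
    intro n
    induction n with
    | zero => simp
    | succ n ih =>
      have := ClkSeq_two h (n + 1)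
      rw [pow_succ]
      linarith
  have h0 := ClkSeq_R_pos h 0
  obtain ⟨n, hn⟩ := pow_unbounded_of_one_lt (r / ClkSeq_R P v 1) (one_lt_two (α := ℝ))
  rw [zero_add] at h0
  rw [div_lt_iff₀ h0] at hn
  exact ⟨n + 1, hn.trans_le (h1 n)⟩

lemma ClkSeq_ex (h : Clk P T Y v N N') (r : ℝ) : ∃ j, r < ClkSeq_R P v (3 * j + 2) := by
  obtain ⟨n, hn⟩ := ClkSeq_unb h r
  exact ⟨n, hn.trans_le (ClkSeq_mono h (by omega))⟩

lemma ClkSeq_small (h : Clk P T Y v N N') {x : ℝ} (hx : x ≤ 2 * T 1 ^ 4 * T 0) :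
    x ≤ T 0 ^ 2 / 100 := by
  have h0 := h.T_pos 0
  have h1 : T 1 ^ 4 ≤ T 0 ^ 4 := pow_le_pow_left₀ (h.T_pos 1).le (h.anti zero_le_one) 4
  have h2 := ClkSeq_cube h 0
  have h3 : T 0 ^ 4 * T 0 = T 0 ^ 3 * T 0 ^ 2 := by ring
  have h4 := mul_le_mul_of_nonneg_right h1 h0.le
  have h5 := mul_le_mul_of_nonneg_right h2 (sq_nonneg (T 0))
  have h6 := sq_nonneg (T 0)
  linarith

lemma ClkSeq_an1 (h : Clk P T Y v N N') : P.an (cz (v 1)) ≤ T 0 ^ 2 / 100 := by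
  refine ClkSeq_small h ((h.an_succ 0).trans ?_)
  exact mul_le_mul_of_nonneg_left h.an_zero (by have := h.T_pos 1; positivity)

lemma ClkSeq_an2 (h : Clk P T Y v N N') : P.an (cz (v 2)) ≤ T 0 ^ 2 / 100 := by
  refine ClkSeq_small h ((h.an_succ 1).trans ?_)
  exact mul_le_mul_of_nonneg_left ((h.an_le 1).trans (h.anti (Nat.zero_le _)))
    (by have := h.T_pos 1; positivity)

lemma ClkSeq_pt (h : Clk P T Y v N N') {r : ℝ} (hr0 : P.τ2 ≤ T 0 * r) :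
    ∃ k m a b c, (∀ j < k, ClkSeq_R P v (3 * j + 2) ≤ r) ∧ 8 * r < ClkSeq_R P v (3 * m + 2) ∧
      CBas P r (1000 * T k) (Y k) (1000 * T m) a b c := by
  classical
  have hr : 0 < r := by
    have h1 := h.one_le_tau
    have h2 := h.T_pos 0
    by_contra h3
    have := mul_nonpos_of_nonneg_of_nonpos h2.le (not_lt.1 h3)
    linarith
  have hS : ∀ n, ‖P.pv (cz (v n))‖ ≤ T ((n + 1) / 3) * (r * P.an (cz (v n))) →
      ClkSeq_R P v n ≤ r := by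
    intro n hn
    rw [ClkSeq_R, div_le_iff₀ (h.an_pos n)]
    have h1 := h.T_le ((n + 1) / 3)
    have h2 := mul_pos hr (h.an_pos n)
    nlinarith
  have hex : ∃ n, ¬ ‖P.pv (cz (v n))‖ ≤ T ((n + 1) / 3) * (r * P.an (cz (v n))) := by
    obtain ⟨n, hn⟩ := ClkSeq_unb h r
    exact ⟨n, fun hh => absurd (hS n hh) (not_le.2 hn)⟩
  have hm := Nat.find_spec hex
  have hlt := fun m => Nat.find_min hex (m := m)
  generalize Nat.find hex = m at hm hlt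
  obtain _ | n := m
  · exfalso
    apply hm
    rw [h.norm_zero]
    exact mul_nonneg (h.T_pos _).le (mul_pos hr (h.an_pos 0)).le
  have hn := not_not.1 (hlt n (Nat.lt_succ_self n))
  have hk : ∀ j < (n + 1) / 3, ClkSeq_R P v (3 * j + 2) ≤ r := fun j hj =>
    (ClkSeq_mono h (by omega)).trans (hS n hn)
  have hA := h.an_pos (n + 1)
  have hR := ClkSeq_R_mul h (n + 1)
  have hR0 := ClkSeq_R_pos h n
  by_cases hc : r * P.an (cz (v (n + 1))) ≤ T ((n + 1) / 3) * ‖P.pv (cz (v (n + 1)))‖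
  · obtain ⟨a, b, c, hb, -⟩ := h.regI n hr0 hn hc
    refine ⟨(n + 1) / 3, (n + 1) / 3, a, b, c, hk, ?_, hb⟩
    refine lt_of_lt_of_le ?_ (ClkSeq_mono h (show n + 1 ≤ _ by omega))
    rw [← hR, ← mul_assoc] at hc
    have h1 := le_of_mul_le_mul_right hc hA
    have h2 := h.T_le ((n + 1) / 3)
    nlinarith only [hr, h1, hR0, h2]
  · have t1 : T (n / 3 + 1) ≤ T ((n + 1) / 3) := h.anti (by omega)
    have t2 : T (n / 3 + 1) ≤ T ((n + 1 + 1) / 3) := h.anti (by omega)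
    have t3 : T ((n + 1) / 3 + 1) ≤ T (n / 3 + 1) := h.anti (by omega)
    have hr2 : T (n / 3 + 1) * (r * P.an (cz (v (n + 1)))) ≤ ‖P.pv (cz (v (n + 1)))‖ :=
      (mul_le_mul_of_nonneg_right t2 (mul_pos hr hA).le).trans (not_le.1 hm).le
    obtain ⟨a, b, c, hb⟩ := h.regT n
      ((mul_le_mul_of_nonneg_right t1 (norm_nonneg _)).trans (not_le.1 hc).le) hr2
    refine ⟨(n + 1) / 3, (n + 2) / 3, a, b, c, hk, ?_, hb⟩
    refine lt_of_lt_of_le ?_ (ClkSeq_mono h (show n + 1 + 1 ≤ _ by omega))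
    rw [← hR, ← mul_assoc] at hr2
    have h1 := le_of_mul_le_mul_right hr2 hA
    have h2 := ClkSeq_step h (n + 1)
    have h3 := ClkSeq_R_pos h (n + 1)
    have h4 := pow_le_pow_left₀ (h.T_pos _).le t3 4
    have h5 := ClkSeq_cube h (n / 3 + 1)
    have h6 := h.T_pos (n / 3 + 1)
    generalize T (n / 3 + 1) = t at *
    generalize ClkSeq_R P v (n + 1 + 1) = R at *
    have h7 : t * r ≤ t * (10 * t ^ 3 * R) := by
      have := mul_le_mul_of_nonneg_right h4 h3.le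
      nlinarith only [h1, h2, this]
    have h8 := le_of_mul_le_mul_left h7 h6
    nlinarith only [hr, h8, h5, h3]

theorem Clk.arith (h : Clk P T Y v N N') :
    ∃ r0 lev, ClkArith P (fun k => 1000 * T k) Y r0 lev := by
  classical
  have hτ := h.one_le_tau
  have h0 := h.T_pos 0
  have h0' := h.T_le 0
  have hr : T 0 * (P.τ2 / T 0) = P.τ2 := mul_div_cancel₀ _ h0.ne'
  have hr0 : 0 < P.τ2 / T 0 := div_pos (by linarith) h0
  have hl : Nat.find (ClkSeq_ex h (8 * (P.τ2 / T 0))) = 0 := by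
    rw [Nat.find_eq_zero, ClkSeq_R, lt_div_iff₀ (h.an_pos _), mul_zero, zero_add, h.norm_two]
    have h1 := mul_le_mul_of_nonneg_left (ClkSeq_an2 h) hr0.le
    generalize P.τ2 / T 0 = r at *
    have h2 : r * (T 0 ^ 2 / 100) = T 0 * P.τ2 / 100 := by
      rw [← hr]
      ring
    nlinarith
  have hph : ∀ x, 0 < x → x ≤ T 0 ^ 2 / 100 → 2 * (P.τ2 / T 0) * |x| ≤ 1000 * T 0 * P.τ2 := by
    intro x hx0 hx
    rw [abs_of_pos hx0]
    have h1 := mul_le_mul_of_nonneg_left hx hr0.le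
    generalize P.τ2 / T 0 = r at *
    have h2 : r * (T 0 ^ 2 / 100) = T 0 * P.τ2 / 100 := by
      rw [← hr]
      ring
    have h3 := h.tbig
    nlinarith only [h0, h0', h1, h2, h3]
  have e0 : P.an (cz (v 0)) = 2 * π / P.m0 := by simp [h.v0, Par.an, cz]
  have e1 : P.an (cz (v 1)) = P.φ1 := by simp [h.v1, Par.an, cz]
  have e2 : P.an (cz (v 2)) = P.φ2 := by simp [h.v2, Par.an, cz]
  refine ⟨P.τ2 / T 0, fun r => Nat.find (ClkSeq_ex h r), hr0, ?_, h.t12, ?_, ?_, ?_, ?_, ?_, ?_⟩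
  · intro r r' hrr
    exact Nat.find_mono fun n hn => hrr.trans_lt hn
  · have := h.tbig
    linarith
  · rw [← e1]
    exact hph _ (h.an_pos 1) (ClkSeq_an1 h)
  · rw [← e2]
    exact hph _ (h.an_pos 2) (ClkSeq_an2 h)
  · simp only [hl]
    rw [mul_assoc, hr, h.t12]
    linarith
  · simp only [hl]
    rw [← e0]
    have := h.an_zero
    linarith
  · intro r hrr
    obtain ⟨k, m, a, b, c, hk, hm, hb⟩ := ClkSeq_pt h (r := r)
      (hr.symm.le.trans (mul_le_mul_of_nonneg_left hrr h0.le))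
    refine ⟨k, a, b, c, ?_, hb.mono ?_ ?_⟩
    · exact (Nat.le_find_iff _ _).2 fun j hj => not_lt.2 (hk j hj)
    · have := h.T_pos m
      linarith
    · have := h.anti (Nat.find_le hm (h := ClkSeq_ex h (8 * r)))
      linarith

lemma ClkSeq_real {t y x1 x2 p1 p2 : ℝ} (t0 : 0 < t) (t1 : t ≤ 1 / 10 ^ 4) (y1 : 1 ≤ y) (y4 : y ≤ 4)
    (a0 : 0 ≤ x1) (a1 : x1 ≤ t * p1) (b0 : 0 ≤ x2) (b1 : x2 ≤ t * p2) (q1 : 0 ≤ p1) (q2 : 0 ≤ p2)
    (hq : |p1 - y * p2| ≤ t * p2) :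
    |x1 ^ 2 + p1 ^ 2 - y ^ 2 * (x2 ^ 2 + p2 ^ 2)| ≤ 1000 * t * (x2 ^ 2 + p2 ^ 2) ∧
      x2 ^ 2 + p2 ^ 2 ≤ 4 * p2 ^ 2 := by
  have hp : p1 ≤ 5 * p2 := by
    have := (abs_le.1 hq).2
    nlinarith
  have h1 : x1 ^ 2 ≤ 25 * (t * p2 ^ 2) := by
    have e1 : x1 ≤ t * (5 * p2) := a1.trans (mul_le_mul_of_nonneg_left hp t0.le)
    have e2 := pow_le_pow_left₀ a0 e1 2
    have e3 : t * (t * p2 ^ 2) ≤ 1 * (t * p2 ^ 2) :=
      mul_le_mul_of_nonneg_right (by linarith) (by positivity)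
    nlinarith only [e2, e3]
  have h2 : x2 ^ 2 ≤ t * p2 ^ 2 := by
    have e2 := pow_le_pow_left₀ b0 b1 2
    have e3 : t * (t * p2 ^ 2) ≤ 1 * (t * p2 ^ 2) :=
      mul_le_mul_of_nonneg_right (by linarith) (by positivity)
    nlinarith only [e2, e3]
  have h3 : y ^ 2 * x2 ^ 2 ≤ 16 * (t * p2 ^ 2) :=
    mul_le_mul (by nlinarith only [y4, t0, t1, y1]) h2 (sq_nonneg _) (by norm_num)
  have h4 : |p1 ^ 2 - y ^ 2 * p2 ^ 2| ≤ 9 * (t * p2 ^ 2) := by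
    have e1 : p1 ^ 2 - y ^ 2 * p2 ^ 2 = (p1 - y * p2) * (p1 + y * p2) := by ring
    have e2 : p1 + y * p2 ≤ 9 * p2 := by nlinarith only [t0, hp, y4, b0, b1]
    have e3 : 0 ≤ p1 + y * p2 := by positivity
    rw [e1, abs_mul, abs_of_nonneg e3]
    have := mul_le_mul hq e2 e3 (by positivity)
    linarith
  have h5 : 0 ≤ y ^ 2 * x2 ^ 2 := by positivity
  have h6 : 0 ≤ t * x2 ^ 2 := by positivity
  have h7 : 0 ≤ t * p2 ^ 2 := by positivity
  have h8 := sq_nonneg x1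
  have h9 := abs_le.1 h4
  refine ⟨abs_le.2 ⟨by nlinarith only [h1, h3, h6, h9], by nlinarith only [h1, h5, h6, h9]⟩, ?_⟩
  have := mul_le_mul_of_nonneg_right t1 (sq_nonneg p2)
  nlinarith only [h2, this, sq_nonneg p2]

theorem Clk.event (h : Clk P T Y v N N') {k : ℕ} (hk : 1 ≤ k) : ∃ (r : ℝ) (a b c : Z3), 0 < r ∧
    CBas P r (1000 * T k) (Y k) (1000 * T k) a b c ∧
    |P.Q r (cz a) - Y k ^ 2 * P.Q r (cz b)| ≤ 1000 * T k * P.Q r (cz b) ∧
    P.Q r (cz b) ≤ 4 * ‖P.pv (cz (v (3 * k + 2)))‖ ^ 2 := by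
  obtain ⟨j, rfl⟩ : ∃ j, k = j + 1 := ⟨k - 1, by omega⟩
  have t0 := h.T_pos (j + 1)
  have hR0 : 0 < ClkSeq_R P v (3 * (j + 1)) := ClkSeq_R_pos h (3 * j + 2)
  have hr : T (j + 1) * (ClkSeq_R P v (3 * (j + 1)) / T (j + 1)) = ClkSeq_R P v (3 * (j + 1)) :=
    mul_div_cancel₀ _ t0.ne'
  have hr0 := div_pos hR0 t0
  generalize ClkSeq_R P v (3 * (j + 1)) / T (j + 1) = r at hr hr0
  have e : (3 * (j + 1) + 1) / 3 = j + 1 := by omega
  have c0 : P.τ2 ≤ T 0 * r := by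
    have h1 : P.τ2 ≤ ‖P.pv (cz (v (3 * (j + 1))))‖ := h.tau_le (3 * j + 2)
    have h2 := ClkSeq_R_mul h (3 * (j + 1))
    have h3 := (h.an_le (3 * (j + 1))).trans (h.T_le _)
    have h4 := mul_le_mul_of_nonneg_right (h.anti (Nat.zero_le (j + 1))) hr0.le
    nlinarith
  have c1 : ‖P.pv (cz (v (3 * (j + 1))))‖ ≤
      T ((3 * (j + 1) + 1) / 3) * (r * P.an (cz (v (3 * (j + 1))))) := by
    rw [e, ← mul_assoc, hr, ClkSeq_R_mul h]
  have c2 : r * P.an (cz (v (3 * (j + 1) + 1))) ≤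
      T ((3 * (j + 1) + 1) / 3) * ‖P.pv (cz (v (3 * (j + 1) + 1)))‖ := by
    rw [e, ← ClkSeq_R_mul h, ← mul_assoc]
    refine mul_le_mul_of_nonneg_right ?_ (h.an_pos _).le
    have h2 := ClkSeq_step h (3 * (j + 1))
    have h3 := ClkSeq_R_nonneg h (3 * (j + 1) + 1)
    have t3 : T (3 * (j + 1) / 3 + 1) ≤ T (j + 1) := h.anti (by omega)
    have h4 := pow_le_pow_left₀ (h.T_pos _).le t3 4
    have t1 := h.T_le (j + 1)
    rw [← hr] at h2
    generalize T (j + 1) = t at *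
    generalize ClkSeq_R P v (3 * (j + 1) + 1) = R at *
    have h7 : t * r ≤ t * (10 * t ^ 2 * (t * R)) := by
      have := mul_le_mul_of_nonneg_right h4 h3
      nlinarith only [h2, this]
    have h8 := le_of_mul_le_mul_left h7 t0
    have h9 : 10 * t ^ 2 ≤ 1 := by nlinarith only [hr, hR0, t0, t1, hr0]
    have := mul_le_mul_of_nonneg_right h9 (mul_nonneg t0.le h3)
    linarith
  have c3 := h.an_two _ hr0.le c2
  obtain ⟨a, b, c, hb, hab⟩ := h.regI _ c0 c1 c2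
  obtain ⟨rfl, rfl⟩ := hab (by omega)
  rw [e] at hb c2 c3
  have := ClkSeq_real t0 (h.T_le _) (h.Y1 (j + 1)) (h.Y4 (j + 1))
    (mul_pos hr0 (h.an_pos _)).le c2 (mul_pos hr0 (h.an_pos _)).le c3 (norm_nonneg _)
    (norm_nonneg _) (h.ratio j)
  refine ⟨r, _, _, c, hr0, hb, ?_⟩
  simpa only [Par.Q, mul_pow] using this

end Pool.Agent.Work.MP_0ba68b_gt.CX
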