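import Pool.Agent.Work.MP_0ba68b_gt.CX.GDefs

/-!
The orbits of the group are closed.

PLAN.  `act` depends on `k` only modulo `q0` and on `v.1` only modulo `m0` (`ec_add_int`, `Complex.exp_periodic`-type lemmas).
So the part of an orbit in a ball `closedBall Y 1` is contained in the image of a finite set of data
(`k ∈ [0, q0)`, `v.1 ∈ [0, m0)`, `|n|`, `|v.2.1|`, `|v.2.2|` bounded by `dist_sq`).  A set whose intersection with every unit ball is
finite is closed: `isClosed_of_closure_subset`, a point `Y` of the closure lies in the closure of the finite set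
`S ∩ ball Y 1` (`IsOpen.closure_inter`, `Set.Finite.isClosed`).
`D2_comm`: the set in the definition of `odist` is symmetric (`dist_comm`).
-/

open Real

namespace Pool.Agent.Work.MP_0ba68b_gt.CX

lemma Par.act_k (P : Par) (h : P.Good) (k l n : ℤ) (v : Z3) (X : VV) :
    P.act (k + P.q0 * l) n v X = P.act k n v X := by
  have hq : (P.q0 : ℝ) ≠ 0 := by exact_mod_cast h.q0_pos.ne'
  have e : al P.q0 P.θ (k + P.q0 * l) n = al P.q0 P.θ k n + l * (2 * π) := by
    simp only [al]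
    push_cast
    field_simp
    ring
  simp only [Par.act, e, ec_add_int]

lemma Par.act_m (P : Par) (h : P.Good) (k l n : ℤ) (v : Z3) (X : VV) :
    P.act k n (v + (P.m0 * l, 0, 0)) X = P.act k n v X := by
  have hm : (P.m0 : ℝ) ≠ 0 := by exact_mod_cast h.m0_pos.ne'
  have e1 : par (v + (P.m0 * l, 0, 0)) = par v := by simp [par]
  have e2 : P.pv (cz (v + (P.m0 * l, 0, 0))) = P.pv (cz v) := by simp [Par.pv, cz]
  have e3 : P.an (cz (v + (P.m0 * l, 0, 0))) = P.an (cz v) + l * (2 * π) := by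
    simp only [Par.an, cz, Prod.fst_add, Prod.snd_add]
    push_cast
    field_simp
    ring
  have e4 : Complex.exp (P.an (cz (v + (P.m0 * l, 0, 0))) * Complex.I) =
      Complex.exp (P.an (cz v) * Complex.I) := by
    rw [e3]
    push_cast
    rw [add_mul, Complex.exp_add, mul_assoc (l : ℂ), Complex.exp_int_mul_two_pi_mul_I, mul_one]
  simp only [Par.act, e1, e2, e4]

lemma Closed_mem {n : ℤ} {N : ℕ} {τ B : ℝ} (hτ : 0 < τ) (h : |τ * n| ≤ B) (hN : B / τ ≤ N) :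
    n ∈ Set.Icc (-(N : ℤ)) N := by
  rw [abs_mul, abs_of_pos hτ, ← le_div_iff₀' hτ] at h
  have : |n| ≤ (N : ℤ) := by exact_mod_cast h.trans hN
  exact abs_le.1 this

lemma Closed_fin (P : Par) (h : P.Good) (X Y : VV) :
    (Metric.ball Y 1 ∩ {Y | ∃ g ∈ P.Gam, g X = Y}).Finite := by
  obtain ⟨N, hN⟩ := exists_nat_ge (max ((|vt X| + |vt Y| + 1) / 1)
    (max ((‖vs X‖ + ‖vs Y‖ + 1) / P.τ1) ((‖vs X‖ + ‖vs Y‖ + 1) / P.τ2)))
  rw [max_le_iff, max_le_iff] at hN
  have hq : (0 : ℤ) < P.q0 := by exact_mod_cast h.q0_pos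
  have hm : (0 : ℤ) < P.m0 := by exact_mod_cast h.m0_pos
  refine (((Set.finite_Icc (0 : ℤ) P.q0).prod ((Set.finite_Icc (-(N : ℤ)) N).prod
    ((Set.finite_Icc (0 : ℤ) P.m0).prod ((Set.finite_Icc (-(N : ℤ)) N).prod
      (Set.finite_Icc (-(N : ℤ)) N))))).image fun d => P.act d.1 d.2.1 d.2.2 X).subset ?_
  rintro _ ⟨hb, _, ⟨k, n, v, rfl⟩, rfl⟩
  have h1 : dist (P.act k n v X) Y ^ 2 ≤ 1 :=
    pow_le_one₀ dist_nonneg (Metric.mem_ball.1 hb).le
  rw [dist_sq] at h1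
  simp only [Par.act, vx_mk, vw_mk, vt_mk, vs_mk] at h1
  have p1 := sq_nonneg ‖(ec (al P.q0 P.θ k n) : S3).1 * ((jj ^ par v : S3) * vx X) - vx Y‖
  have p2 := sq_nonneg ‖Complex.exp (P.an (cz v) * Complex.I) * vw X - vw Y‖
  have p3 := sq_nonneg ((-1) ^ par v * vt X + n - vt Y)
  have p4 := sq_nonneg ‖vs X + P.pv (cz v) - vs Y‖
  have a1 : |(-1) ^ par v * vt X + n - vt Y| ≤ 1 := (sq_le_one_iff_abs_le_one _).1 (by linarith)
  have a2 : ‖vs X + P.pv (cz v) - vs Y‖ ≤ 1 :=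
    (le_abs_self _).trans ((sq_le_one_iff_abs_le_one _).1 (by linarith))
  have a3 : |(1 : ℝ) * n| ≤ |vt X| + |vt Y| + 1 := by
    have b1 := abs_le.1 a1
    have b2 := abs_le.1 (le_refl |vt X|)
    have b3 := abs_le.1 (le_refl |vt Y|)
    rw [abs_le]
    rcases Int.even_or_odd (par v) with e | e <;> rw [e.neg_one_zpow] at b1 <;> constructor <;>
      linarith [b1.1, b1.2, b2.1, b2.2, b3.1, b3.2]
  have a4 : ‖P.pv (cz v)‖ ≤ ‖vs X‖ + ‖vs Y‖ + 1 := by
    have e : P.pv (cz v) = (vs X + P.pv (cz v) - vs Y) + vs Y - vs X := by ring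
    have b1 := norm_sub_le ((vs X + P.pv (cz v) - vs Y) + vs Y) (vs X)
    have b2 := norm_add_le (vs X + P.pv (cz v) - vs Y) (vs Y)
    rw [← e] at b1
    linarith
  refine ⟨(k % P.q0, n, v.1 % P.m0, v.2.1, v.2.2), ⟨⟨Int.emod_nonneg _ hq.ne',
    (Int.emod_lt_of_pos _ hq).le⟩, Closed_mem one_pos a3 hN.1, ⟨Int.emod_nonneg _ hm.ne',
    (Int.emod_lt_of_pos _ hm).le⟩,
    Closed_mem h.τ1_pos ((Complex.abs_re_le_norm _).trans a4) hN.2.1,
    Closed_mem h.τ2_pos ((Complex.abs_im_le_norm _).trans a4) hN.2.2⟩, ?_⟩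
  change P.act _ _ _ X = P.act k n v X
  rw [← P.act_k h _ (k / P.q0), ← P.act_m h _ (v.1 / P.m0), Int.emod_add_mul_ediv]
  congr 1
  ext <;> simp [Int.emod_add_mul_ediv]

theorem Par.closed (P : Par) (h : P.Good) (X : VV) : IsClosed {Y | ∃ g ∈ P.Gam, g X = Y} := by
  refine isClosed_of_closure_subset fun Y hY => ?_
  have h1 := Metric.isOpen_ball.inter_closure ⟨Metric.mem_ball_self one_pos, hY⟩
  rw [(Closed_fin P h X Y).isClosed.closure_eq] at h1
  exact h1.2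

lemma Par.D2_comm (P : Par) (X Y : VV) : P.D2 X Y = P.D2 Y X := by
  unfold Par.D2 odist
  congr 2
  ext r
  constructor <;> rintro ⟨u, hu, v, hv, rfl⟩ <;> exact ⟨v, hv, u, hu, dist_comm _ _⟩

end Pool.Agent.Work.MP_0ba68b_gt.CX
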