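import Pool.Agent.Work.MP_0ba68b_gt.CX.ClkPair
import Pool.Agent.Work.MP_0ba68b_gt.CX.Closed

/-!
Coordinates with respect to a basis of the clock lattice.

PLAN.  `comb a b c` is a linear map that is onto (the three standard vectors are integer combinations), hence bijective
(`LinearMap.injective_iff_surjective`, `LinearEquiv.ofBijective`).
`eta_act`: `arg (exp (iψ) w) = arg w + ψ + 2π l` for some `l` (`Complex.arg_mul_coe_angle`, `Real.Angle.angle_eq_iff_two_pi_dvd_sub`,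
or `Complex.exp_eq_exp_iff_exists_int` with `Complex.norm_mul_exp_arg_mul_I`), `an (cz (m0 l, 0, 0)) = 2π l`; a vector is determined by
`an` and `pv` (`eta_an_pv`).  `norm_sub_exp`: polar form `w = ‖w‖ exp (i arg w)`.
-/

open Real

namespace Pool.Agent.Work.MP_0ba68b_gt.CX

noncomputable section

/-- The lattice vector with integer coordinates `n`. -/
def lv (a b c n : Z3) : Z3 := n.1 • a + n.2.1 • b + n.2.2 • c

lemma comb_cz (a b c n : Z3) : comb a b c (cz n) = cz (lv a b c n) := by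
  ext <;> simp [comb, cz, lv]

lemma comb_sub (a b c : Z3) (ξ ξ' : R3) : comb a b c (ξ - ξ') = comb a b c ξ - comb a b c ξ' := by
  simp only [comb, Prod.fst_sub, Prod.snd_sub, sub_smul]
  abel

lemma IsBas.even_lv {a b c : Z3} (h : IsBas a b c) (n : Z3) :
    Even (n.1 + n.2.1 - par (lv a b c n)) := by
  obtain ⟨x, hx⟩ := h.odda
  obtain ⟨y, hy⟩ := h.oddb
  obtain ⟨z, hz⟩ := h.evenc
  have e : par (lv a b c n) = n.1 * par a + n.2.1 * par b + n.2.2 * par c := by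
    simp [par, lv]
    ring
  rw [e, hx, hy, hz]
  exact ⟨-(n.1 * x + n.2.1 * y + n.2.2 * z), by ring⟩

lemma IsBas.exists_lv {a b c : Z3} (h : IsBas a b c) (v : Z3) : ∃ n, v = lv a b c n := by
  obtain ⟨n1, n2, n3, e⟩ := h.span v
  exact ⟨(n1, n2, n3), e⟩

theorem IsBas.exists_coord {a b c : Z3} (h : IsBas a b c) : ∃ crd : R3 →ₗ[ℝ] R3,
    (∀ η, comb a b c (crd η) = η) ∧ ∀ ξ, crd (comb a b c ξ) = ξ := by
  let L : R3 →ₗ[ℝ] R3 :=
    { toFun := comb a b c
      map_add' := fun x y => by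
        simp only [comb, Prod.fst_add, Prod.snd_add, add_smul]
        abel
      map_smul' := fun t x => by
        simp only [comb, Prod.smul_fst, Prod.smul_snd, smul_eq_mul, mul_smul, smul_add,
          RingHom.id_apply] }
  have hz : ∀ v : Z3, cz v ∈ LinearMap.range L := fun v => by
    obtain ⟨n, rfl⟩ := h.exists_lv v
    exact ⟨cz n, comb_cz a b c n⟩
  have hs : Function.Surjective L := fun η => by
    have e : η = η.1 • cz (1, 0, 0) + η.2.1 • cz (0, 1, 0) + η.2.2 • cz (0, 0, 1) := by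
      ext <;> simp [cz]
    have : η ∈ LinearMap.range L := by
      rw [e]
      exact add_mem (add_mem (Submodule.smul_mem _ _ (hz _)) (Submodule.smul_mem _ _ (hz _)))
        (Submodule.smul_mem _ _ (hz _))
    exact this
  let e := LinearEquiv.ofBijective L ⟨LinearMap.injective_iff_surjective.2 hs, hs⟩
  exact ⟨e.symm.toLinearMap, fun η => e.apply_symm_apply η, fun ξ => e.symm_apply_apply ξ⟩

variable {P : Par}

lemma Par.Good.an_eta (h : P.Good) (ψ : ℝ) (s : ℂ) : P.an (P.eta ψ s) = ψ := by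
  have h1 : (P.m0 : ℝ) ≠ 0 := by exact_mod_cast h.m0_pos.ne'
  have h2 := pi_ne_zero
  simp only [Par.an, Par.eta]
  have : 2 * π * ((ψ - s.re / P.τ1 * P.φ1 - s.im / P.τ2 * P.φ2) * P.m0 / (2 * π)) / P.m0 =
      ψ - s.re / P.τ1 * P.φ1 - s.im / P.τ2 * P.φ2 := by
    generalize ψ - s.re / P.τ1 * P.φ1 - s.im / P.τ2 * P.φ2 = x
    field_simp
  rw [this]
  ring

lemma Par.Good.pv_eta (h : P.Good) (ψ : ℝ) (s : ℂ) : P.pv (P.eta ψ s) = s := by
  have h1 := h.τ1_pos.ne'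
  have h2 := h.τ2_pos.ne'
  apply Complex.ext <;> simp only [Par.pv, Par.eta] <;> field_simp

lemma Par.Good.eta_an_pv (h : P.Good) (η : R3) : P.eta (P.an η) (P.pv η) = η := by
  have h0 : (P.m0 : ℝ) ≠ 0 := by exact_mod_cast h.m0_pos.ne'
  have h1 := h.τ1_pos.ne'
  have h2 := h.τ2_pos.ne'
  have h3 := pi_ne_zero
  ext <;> simp only [Par.pv, Par.eta, Par.an] <;> field_simp
  ring

lemma Par.Good.an_m0 (h : P.Good) (l : ℤ) : P.an (cz (P.m0 * l, 0, 0)) = 2 * π * l := by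
  have h0 : (P.m0 : ℝ) ≠ 0 := by exact_mod_cast h.m0_pos.ne'
  simp only [Par.an, cz]
  push_cast
  field_simp
  ring

lemma Par.pv_first (P : Par) (l : ℤ) : P.pv (cz (l, 0, 0)) = 0 := by
  apply Complex.ext <;> simp [Par.pv, cz]

lemma Par.Good.eta_act (h : P.Good) (k n : ℤ) (v : Z3) {X : VV} (hw : vw X ≠ 0) : ∃ l : ℤ,
    P.eta (Complex.arg (vw (P.act k n v X))) (vs (P.act k n v X)) =
      P.eta (Complex.arg (vw X)) (vs X) + cz (v + (P.m0 * l, 0, 0)) := by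
  have e1 : vw (P.act k n v X) = Complex.exp (P.an (cz v) * Complex.I) * vw X := rfl
  have e2 : vs (P.act k n v X) = vs X + P.pv (cz v) := rfl
  have a1 := Complex.norm_mul_exp_arg_mul_I (vw (P.act k n v X))
  have a2 := Complex.norm_mul_exp_arg_mul_I (vw X)
  have a3 : ‖vw (P.act k n v X)‖ = ‖vw X‖ := by
    rw [e1, norm_mul, Complex.norm_exp_ofReal_mul_I, one_mul]
  have a4 : (‖vw X‖ : ℂ) ≠ 0 := by simpa using hw
  have a5 : Complex.exp (Complex.arg (vw (P.act k n v X)) * Complex.I) =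
      Complex.exp ((Complex.arg (vw X) + P.an (cz v)) * Complex.I) := by
    apply mul_left_cancel₀ a4
    rw [add_mul, Complex.exp_add, ← mul_assoc, a2, mul_comm (vw X), ← e1, ← a3, a1]
  obtain ⟨l, hl⟩ := Complex.exp_eq_exp_iff_exists_int.1 a5
  have a6 : Complex.arg (vw (P.act k n v X)) = Complex.arg (vw X) + P.an (cz v) + 2 * π * l := by
    have := congrArg Complex.im hl
    simp at this
    linarith
  refine ⟨l, ?_⟩
  rw [← h.eta_an_pv (_ + _), P.an_add, P.pv_add, h.an_eta, h.pv_eta, cz_add, P.an_add, P.pv_add,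
    h.an_m0, P.pv_first, a6, e2, add_zero, add_assoc]

lemma norm_sub_exp (w w' : ℂ) (ψ : ℝ) : ‖w - Complex.exp (ψ * Complex.I) * w'‖ ^ 2 =
    (‖w‖ - ‖w'‖) ^ 2 + 2 * ‖w‖ * ‖w'‖ * (1 - cos (Complex.arg w - Complex.arg w' - ψ)) := by
  have b1 := Complex.norm_mul_cos_arg w
  have b2 := Complex.norm_mul_sin_arg w
  have b3 := Complex.norm_mul_cos_arg w'
  have b4 := Complex.norm_mul_sin_arg w'
  rw [Complex.sq_norm, Complex.normSq_apply]
  simp only [Complex.sub_re, Complex.sub_im, Complex.mul_re, Complex.mul_im,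
    Complex.exp_ofReal_mul_I_re, Complex.exp_ofReal_mul_I_im]
  rw [← b1, ← b2, ← b3, ← b4, cos_sub, cos_sub, sin_sub]
  linear_combination ‖w‖ ^ 2 * sin_sq_add_cos_sq (Complex.arg w) +
    ‖w'‖ ^ 2 * (sin (Complex.arg w') ^ 2 + cos (Complex.arg w') ^ 2) * sin_sq_add_cos_sq ψ +
    ‖w'‖ ^ 2 * sin_sq_add_cos_sq (Complex.arg w')

lemma Par.dist_act_sq (P : Par) (k n : ℤ) (v : Z3) (X X' : VV) :
    dist X (P.act k n v X') ^ 2 = fd2 (fp X) (fib P.q0 P.θ k n (fJ (par v) (fp X'))) +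
      (‖vw X‖ - ‖vw X'‖) ^ 2 + 2 * ‖vw X‖ * ‖vw X'‖ *
        (1 - cos (Complex.arg (vw X) - Complex.arg (vw X') - P.an (cz v))) +
      ‖vs X - vs X' - P.pv (cz v)‖ ^ 2 := by
  have e1 : vw (P.act k n v X') = Complex.exp (P.an (cz v) * Complex.I) * vw X' := rfl
  have e2 : vs (P.act k n v X') = vs X' + P.pv (cz v) := rfl
  rw [dist_sq, ← fp_act, e1, e2, norm_sub_exp, ← sub_sub]
  simp only [fd2, fp]
  ring

/-- The upper bound for the quotient distance in terms of the quadratic form. -/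
lemma Par.Good.D2_le_Q (h : P.Good) (k n : ℤ) (v : Z3) (X X' : VV) {r : ℝ}
    (hr : ‖vw X‖ * ‖vw X'‖ ≤ r ^ 2) :
    P.D2 X X' ≤ fd2 (fp X) (fib P.q0 P.θ k n (fJ (par v) (fp X'))) + (‖vw X‖ - ‖vw X'‖) ^ 2 +
      P.Q r (P.eta (Complex.arg (vw X)) (vs X) - P.eta (Complex.arg (vw X')) (vs X') - cz v) := by
  refine (P.D2_le k n v X X').trans ?_
  rw [P.dist_act_sq]
  simp only [Par.Q, P.an_sub, P.pv_sub, h.an_eta, h.pv_eta]
  generalize Complex.arg (vw X) - Complex.arg (vw X') - P.an (cz v) = θ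
  have a1 := one_sub_sq_div_two_le_cos (x := θ)
  have a2 := mul_nonneg (norm_nonneg (vw X)) (norm_nonneg (vw X'))
  have a3 := mul_le_mul_of_nonneg_right hr (sq_nonneg θ)
  have a4 := mul_le_mul_of_nonneg_left a1 a2
  linarith

lemma Par.sqrt_Q_lip (P : Par) (u : R3) (r r' : ℝ) :
    |√(P.Q r u) - √(P.Q r' u)| ≤ |P.an u| * |r - r'| := by
  have e : ∀ s : ℝ, √(P.Q s u) = ‖(⟨s * P.an u, ‖P.pv u‖⟩ : ℂ)‖ := fun s => by
    rw [Complex.norm_def, Complex.normSq_mk, Par.Q]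
    congr 1
    ring
  rw [e, e]
  refine (abs_norm_sub_norm_le _ _).trans (le_of_eq ?_)
  have : (⟨r * P.an u, ‖P.pv u‖⟩ : ℂ) - ⟨r' * P.an u, ‖P.pv u‖⟩ = (P.an u * (r - r') : ℝ) := by
    apply Complex.ext
    · simp only [Complex.sub_re, Complex.ofReal_re]
      ring
    · simp only [Complex.sub_im, Complex.ofReal_im, sub_self]
  rw [this, Complex.norm_real, Real.norm_eq_abs, abs_mul]

lemma Par.Q_geom (P : Par) (u : R3) {r r' : ℝ} (hr : 0 ≤ r) (hr' : 0 ≤ r') :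
    P.Q √(r * r') u ≤ √(P.Q r u) * √(P.Q r' u) := by
  rw [← sqrt_mul (P.Q_nonneg r u)]
  apply le_sqrt_of_sq_le
  simp only [Par.Q, sq_sqrt (mul_nonneg hr hr')]
  have := mul_nonneg (mul_nonneg (sq_nonneg (P.an u)) (sq_nonneg ‖P.pv u‖)) (sq_nonneg (r - r'))
  nlinarith

lemma Par.Q_mono (P : Par) (u : R3) {r r' t : ℝ} (hr : 0 ≤ r) (h : r ≤ t * r') (ht : 1 ≤ t) :
    P.Q r u ≤ t ^ 2 * P.Q r' u := by
  simp only [Par.Q]
  have a1 := mul_le_mul_of_nonneg_right (pow_le_pow_left₀ hr h 2) (sq_nonneg (P.an u))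
  have a2 := mul_le_mul_of_nonneg_right (one_le_pow₀ ht (n := 2)) (sq_nonneg ‖P.pv u‖)
  rw [mul_pow] at a1
  linarith

end

end Pool.Agent.Work.MP_0ba68b_gt.CX
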