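import Pool.Agent.Work.MP_0ba68b_gt.CX.Chk
import Mathlib.Analysis.Convex.SpecificFunctions.Deriv

/-!
The numerical inequality for the first explicit kernel.

A bisection in natural numbers (lengths scaled by `2 ^ 16`, cosines by `2 ^ 20`, `Y` by `2 ^ 8`) on
the box `ρ ∈ [0, 3/4]`, `a, b ∈ [0, 1/2]`, `Y ∈ [1, 16]`, with `P = 809 / 256 ≥ (8/25) π²`.
A box is accepted if one of the three terms of the minimum is below the right side, or by the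
ratio form (`sin (c ρ) / ρ` clamped is decreasing).
For `ρ ≥ 3/4` the sine is `1`; the case `ρ = 3/4` gives the bound by the minimum of the last two
terms (`2 (3/4)² ≥ 1`), which is `H1inf`.
-/

open Real

namespace Pool.Agent.Work.MP_0ba68b_gt.CX

/-- Scaled lower bound of the cosine. -/
def Num1_cl (A : ℕ) : ℕ :=
  (10000 * 2 ^ 96 + 40587 * 2 ^ 32 * (A * A * (A * A)) -
    (49349 * 2 ^ 64 * (A * A) + 13353 * (A * A * (A * A * (A * A))))) / (10000 * 2 ^ 76)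

/-- Scaled upper bound of the cosine. -/
def Num1_cu (A : ℕ) : ℕ :=
  (10000 * 2 ^ 128 + 40588 * 2 ^ 64 * (A * A * (A * A)) +
    2354 * (A * A * (A * A) * (A * A * (A * A))) -
    (49348 * 2 ^ 96 * (A * A) + 13352 * 2 ^ 32 * (A * A * (A * A * (A * A))))) /
      (10000 * 2 ^ 108) + 1

/-- Scaled lower bound of the squared sine of the clamped angle. -/
def Num1_s (R : ℕ) : ℕ := Num1_cl (32768 - 67 * R / 100) * Num1_cl (32768 - 67 * R / 100)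

/-- The four acceptance tests. -/
def Num1_t2 (r1 a0 b0 y0 y1 G sa sb fa fb t : ℕ) : Bool :=
  Nat.ble (512 * 809 * (r1 * r1)) (y0 * fa + 256 * (fb + t)) ||
  Nat.ble (256 * 809 * ((65536 - b0) * (65536 - b0))) (y0 * fa + 256 * (sb + t)) ||
  Nat.ble (y1 * (809 * ((65536 - a0) * (65536 - a0)) - sa)) (256 * (fb + t)) ||
  Nat.ble (2 ^ 41 * 809 * (r1 * r1)) (Num1_s r1 * G)

/-- Intermediate values. -/
def Num1_t1 (r0 r1 a0 a1 b0 b1 y0 y1 G sa sb : ℕ) : Bool :=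
  Num1_t2 r1 a0 b0 y0 y1 G sa sb (sa - 809 * (a1 * a1)) (sb - 809 * (b1 * b1))
    (Num1_s r0 * G / 2 ^ 40)

/-- The test on one box. -/
def Num1_test (r0 r1 a0 a1 b0 b1 y0 y1 : ℕ) : Bool :=
  Num1_t1 r0 r1 a0 a1 b0 b1 y0 y1 ((Num1_cl a1 + Num1_cl b1) * (Num1_cl a1 + Num1_cl b1))
    (2 ^ 40 - Num1_cu a0 * Num1_cu a0) (2 ^ 40 - Num1_cu b0 * Num1_cu b0) &&
  (Nat.ble a1 65536 && Nat.ble b1 65536)

/-- The bisection. -/
def Num1_go : ℕ → ℕ → ℕ → ℕ → ℕ → ℕ → ℕ → ℕ → ℕ → Bool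
  | 0, _, _, _, _, _, _, _, _ => false
  | n + 1, r0, r1, a0, a1, b0, b1, y0, y1 => Num1_test r0 r1 a0 a1 b0 b1 y0 y1 ||
      bif Nat.ble (r1 - r0) ((a1 - a0) * 2) && Nat.ble (b1 - b0) (a1 - a0) &&
          Nat.ble ((y1 - y0) * 8) (a1 - a0) then
        Num1_go n r0 r1 a0 ((a0 + a1) / 2) b0 b1 y0 y1 &&
          Num1_go n r0 r1 ((a0 + a1) / 2) a1 b0 b1 y0 y1
      else bif Nat.ble (r1 - r0) ((b1 - b0) * 2) && Nat.ble ((y1 - y0) * 8) (b1 - b0) then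
        Num1_go n r0 r1 a0 a1 b0 ((b0 + b1) / 2) y0 y1 &&
          Num1_go n r0 r1 a0 a1 ((b0 + b1) / 2) b1 y0 y1
      else bif Nat.ble ((y1 - y0) * 16) (r1 - r0) then
        Num1_go n r0 ((r0 + r1) / 2) a0 a1 b0 b1 y0 y1 &&
          Num1_go n ((r0 + r1) / 2) r1 a0 a1 b0 b1 y0 y1
      else
        Num1_go n r0 r1 a0 a1 b0 b1 y0 ((y0 + y1) / 2) &&
          Num1_go n r0 r1 a0 a1 b0 b1 ((y0 + y1) / 2) y1

theorem Num1_run : Num1_go 27 0 49152 0 32768 0 32768 256 4096 = true := by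
  decide +kernel

lemma Num1_sub_ge (p q : ℕ) : (p : ℝ) - q ≤ ((p - q : ℕ) : ℝ) := by
  have : (p : ℝ) ≤ ((p - q + q : ℕ) : ℝ) := by exact_mod_cast le_tsub_add
  push_cast at this
  linarith

lemma Num1_sub_le (p q : ℕ) {z : ℝ} (h0 : 0 ≤ z) (h : (p : ℝ) - q ≤ z) :
    ((p - q : ℕ) : ℝ) ≤ z := by
  rcases le_total p q with hpq | hpq
  · rw [Nat.sub_eq_zero_of_le hpq]
    simpa using h0
  · rwa [Nat.cast_sub hpq]

lemma Num1_cos_nonneg {x : ℝ} (h0 : 0 ≤ x) (h : x ≤ 1 / 2) : 0 ≤ cos (π * x) :=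
  cos_nonneg_of_neg_pi_div_two_le_of_le (by nlinarith [pi_pos]) (by nlinarith [pi_pos])

lemma Num1_cl_le {A : ℕ} {x : ℝ} (h0 : 0 ≤ x) (h : x ≤ 1 / 2) (hA : 65536 * x ≤ A)
    (hA1 : A ≤ 65536) : (Num1_cl A : ℝ) ≤ 2 ^ 20 * cos (π * x) := by
  have hc := Num1_cos_nonneg h0 h
  have h1 := cl_le_cos (a := (A : ℚ) / 65536) h0 (by push_cast; linarith)
    (by rw [div_le_one (by norm_num)]; exact_mod_cast hA1)
  refine Nat.cast_div_le.trans ?_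
  rw [div_le_iff₀ (by positivity)]
  refine Num1_sub_le _ _ (by positivity) ?_
  simp only [cl] at h1
  push_cast at h1 ⊢
  linarith

lemma Num1_le_cu {A : ℕ} {x : ℝ} (hA : (A : ℝ) ≤ 65536 * x) (h : x ≤ 1) :
    2 ^ 20 * cos (π * x) ≤ (Num1_cu A : ℝ) := by
  have h1 := cos_le_cu (a := (A : ℚ) / 65536) (x := x) (by positivity) (by push_cast; linarith) h
  have key : ∀ p q : ℕ, (10000 * 2 ^ 108 : ℝ) * (2 ^ 20 * cos (π * x)) ≤ (p : ℝ) - q →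
      2 ^ 20 * cos (π * x) ≤ (((p - q) / (10000 * 2 ^ 108) + 1 : ℕ) : ℝ) := fun p q hpq => by
    have h2 : ((p - q : ℕ) : ℝ) ≤
        ((10000 * 2 ^ 108 * ((p - q) / (10000 * 2 ^ 108) + 1) : ℕ) : ℝ) :=
      Nat.cast_le.2 (Nat.lt_mul_div_succ _ (by positivity)).le
    rw [Nat.cast_mul] at h2
    have h3 := Num1_sub_ge p q
    have h4 : ((10000 * 2 ^ 108 : ℕ) : ℝ) = 10000 * 2 ^ 108 := by push_cast; ring
    rw [h4] at h2
    exact le_of_mul_le_mul_left (hpq.trans (h3.trans h2)) (by positivity)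
  refine key _ _ ?_
  simp only [cu] at h1
  push_cast at h1 ⊢
  linarith

lemma Num1_s_le {R : ℕ} {ρ : ℝ} (h : (R : ℝ) ≤ 65536 * ρ) :
    (Num1_s R : ℝ) ≤ 2 ^ 40 * sin (min (67 / 100 * π * ρ) (π / 2)) ^ 2 := by
  have hR : (0 : ℝ) ≤ R := R.cast_nonneg
  have e : min (67 / 100 * π * ρ) (π / 2) = π / 2 - π * (1 / 2 - min (67 / 100 * ρ) (1 / 2)) := by
    have : π * min (67 / 100 * ρ) (1 / 2) = min (π * (67 / 100 * ρ)) (π * (1 / 2)) :=
      mul_min_of_nonneg _ _ pi_pos.le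
    rw [mul_sub, this]
    ring_nf
  rw [e, sin_pi_div_two_sub]
  have h1 : min (67 / 100 * ρ) (1 / 2) ≤ 1 / 2 := min_le_right _ _
  have h2 : 0 ≤ min (67 / 100 * ρ) (1 / 2) := le_min (by linarith only [h]) (by norm_num)
  have h3 : ((67 * R / 100 : ℕ) : ℝ) ≤ 67 * R / 100 := by
    simpa using (Nat.cast_div_le (α := ℝ) (m := 67 * R) (n := 100))
  have h4 := Num1_cl_le (A := 32768 - 67 * R / 100) (x := 1 / 2 - min (67 / 100 * ρ) (1 / 2))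
    (by linarith only [h1]) (by linarith only [h2]) (by
      rcases min_cases (67 / 100 * ρ) (1 / 2) with ⟨h5, -⟩ | ⟨h5, -⟩
      · have := Num1_sub_ge 32768 (67 * R / 100)
        rw [h5]
        push_cast at this
        linarith
      · rw [h5]
        simp) (by omega)
  have h0 : (0 : ℝ) ≤ Num1_cl (32768 - 67 * R / 100) := Nat.cast_nonneg _
  rw [Num1_s, Nat.cast_mul]
  refine (mul_self_le_mul_self h0 h4).trans (le_of_eq ?_)
  ring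

lemma Num1_ratio {ρ r : ℝ} (h0 : 0 ≤ ρ) (h : ρ ≤ r) :
    ρ * sin (min (67 / 100 * π * r) (π / 2)) ≤ r * sin (min (67 / 100 * π * ρ) (π / 2)) := by
  rcases eq_or_lt_of_le (h0.trans h) with hr | hr
  · have : ρ = 0 := le_antisymm (hr ▸ h) h0
    simp [this, ← hr]
  have hp := pi_pos
  set x := min (67 / 100 * π * r) (π / 2) with hx
  have hx0 : 0 ≤ x := le_min (by positivity) (by positivity)
  have hx1 : x ≤ π / 2 := min_le_right _ _
  have hx2 : x ≤ 67 / 100 * π * r := min_le_left _ _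
  have ht0 : 0 ≤ ρ / r := by positivity
  have ht1 : ρ / r ≤ 1 := (div_le_one hr).2 h
  have hc : (1 - ρ / r) • sin 0 + (ρ / r) • sin x ≤ sin ((1 - ρ / r) • (0 : ℝ) + (ρ / r) • x) :=
    strictConcaveOn_sin_Icc.concaveOn.2 ⟨le_rfl, hp.le⟩ ⟨hx0, by linarith⟩ (by linarith) ht0
      (by ring)
  simp only [smul_eq_mul, sin_zero, mul_zero, zero_add] at hc
  have hm : sin (ρ / r * x) ≤ sin (min (67 / 100 * π * ρ) (π / 2)) := by
    refine sin_le_sin_of_le_of_le_pi_div_two ?_ (min_le_right _ _) (le_min ?_ ?_)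
    · have := mul_nonneg ht0 hx0
      linarith only [hp, this]
    · refine (mul_le_mul_of_nonneg_left hx2 ht0).trans (le_of_eq ?_)
      field_simp
    · nlinarith only [hx1, hx0, ht1]
  have := mul_le_mul_of_nonneg_left (hc.trans hm) hr.le
  rwa [← mul_assoc, mul_div_cancel₀ _ hr.ne'] at this

lemma Num1_sa {A : ℕ} {x : ℝ} (h0 : 0 ≤ x) (h : x ≤ 1 / 2) (hA : (A : ℝ) ≤ 65536 * x) :
    ((2 ^ 40 - Num1_cu A * Num1_cu A : ℕ) : ℝ) ≤ 2 ^ 40 * sin (π * x) ^ 2 := by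
  refine Num1_sub_le _ _ (by positivity) ?_
  have h1 := mul_self_le_mul_self (mul_nonneg (by positivity) (Num1_cos_nonneg h0 h))
    (Num1_le_cu hA (by linarith))
  rw [sin_sq]
  push_cast
  linarith

lemma Num1_f0 {x : ℝ} (h0 : 0 ≤ x) (h : x ≤ 1 / 2) : 809 / 256 * x ^ 2 ≤ sin (π * x) ^ 2 := by
  have hp := pi_pos
  have h1 := mul_le_sin (x := π * x) (by positivity) (by nlinarith)
  have h2 : 2 / π * (π * x) = 2 * x := by field_simp
  rw [h2] at h1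
  nlinarith [mul_self_le_mul_self (by positivity) h1]

lemma Num1_fa {s A : ℕ} {x : ℝ} (h0 : 0 ≤ x) (h : x ≤ 1 / 2) (hA : 65536 * x ≤ A)
    (hs : (s : ℝ) ≤ 2 ^ 40 * sin (π * x) ^ 2) :
    ((s - 809 * (A * A) : ℕ) : ℝ) ≤ 2 ^ 40 * (sin (π * x) ^ 2 - 809 / 256 * x ^ 2) := by
  refine Num1_sub_le _ _ (mul_nonneg (by positivity) (sub_nonneg.2 (Num1_f0 h0 h))) ?_
  have h1 := mul_self_le_mul_self (by positivity) hA
  push_cast
  linarith

lemma Num1_co {A : ℕ} {x : ℝ} (h : x ≤ 1 / 2) (hA : (A : ℝ) ≤ 65536 * x) :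
    2 ^ 32 * (1 - x) ^ 2 ≤ ((65536 - A : ℕ) : ℝ) * ((65536 - A : ℕ) : ℝ) := by
  have h1 := Num1_sub_ge 65536 A
  push_cast at h1
  have h2 : 65536 * (1 - x) ≤ ((65536 - A : ℕ) : ℝ) := by linarith
  have := mul_self_le_mul_self (by linarith) h2
  linarith

/-- The inequality with the rational constant. -/
def Num1_H (ρ a b Y : ℝ) : Prop :=
  809 / 256 * min (2 * ρ ^ 2 + Y * a ^ 2 + b ^ 2)
      (min (Y * a ^ 2 + (1 - b) ^ 2) (Y * (1 - a) ^ 2 + b ^ 2)) ≤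
    Y * sin (π * a) ^ 2 + sin (π * b) ^ 2 +
      sin (min (67 / 100 * π * ρ) (π / 2)) ^ 2 * (cos (π * a) + cos (π * b)) ^ 2

lemma Num1_test_sound {r0 r1 a0 a1 b0 b1 y0 y1 : ℕ}
    (ht : Num1_test r0 r1 a0 a1 b0 b1 y0 y1 = true) {ρ a b Y : ℝ}
    (ha : a ∈ Set.Icc (0 : ℝ) (1 / 2)) (hb : b ∈ Set.Icc (0 : ℝ) (1 / 2))
    (hr0 : (r0 : ℝ) ≤ 65536 * ρ) (hr1 : 65536 * ρ ≤ r1) (ha0 : (a0 : ℝ) ≤ 65536 * a)
    (ha1 : 65536 * a ≤ a1) (hb0 : (b0 : ℝ) ≤ 65536 * b) (hb1 : 65536 * b ≤ b1)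
    (hy0 : (y0 : ℝ) ≤ 256 * Y) (hy1 : 256 * Y ≤ y1) : Num1_H ρ a b Y := by
  simp only [Num1_test, Num1_t1, Num1_t2, Bool.and_eq_true, Bool.or_eq_true, Nat.ble_eq] at ht
  obtain ⟨ht, hA, hB⟩ := ht
  have hρ : 0 ≤ ρ := by linarith [(r0.cast_nonneg : (0 : ℝ) ≤ r0)]
  have hY : 0 ≤ Y := by linarith [(y0.cast_nonneg : (0 : ℝ) ≤ y0)]
  have hG : (((Num1_cl a1 + Num1_cl b1) * (Num1_cl a1 + Num1_cl b1) : ℕ) : ℝ) ≤
      2 ^ 40 * (cos (π * a) + cos (π * b)) ^ 2 := by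
    have := mul_self_le_mul_self (by positivity)
      (add_le_add (Num1_cl_le ha.1 ha.2 ha1 hA) (Num1_cl_le hb.1 hb.2 hb1 hB))
    push_cast
    linarith
  have hsa := Num1_sa ha.1 ha.2 ha0
  have hsb := Num1_sa hb.1 hb.2 hb0
  generalize (Num1_cl a1 + Num1_cl b1) * (Num1_cl a1 + Num1_cl b1) = G at ht hG
  generalize 2 ^ 40 - Num1_cu a0 * Num1_cu a0 = sa at ht hsa
  generalize 2 ^ 40 - Num1_cu b0 * Num1_cu b0 = sb at ht hsb
  have hfa := Num1_fa ha.1 ha.2 ha1 hsa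
  have hfb := Num1_fa hb.1 hb.2 hb1 hsb
  have hs0 := Num1_s_le hr0
  have hs1 := Num1_s_le (R := r1) (ρ := r1 / 65536) (by linarith only [])
  have hrat := Num1_ratio hρ (r := r1 / 65536) (by linarith only [hr1])
  have hS1 : 0 ≤ sin (min (67 / 100 * π * (r1 / 65536)) (π / 2)) :=
    sin_nonneg_of_nonneg_of_le_pi (le_min (by positivity) (by positivity))
      ((min_le_right _ _).trans (by linarith only [pi_pos]))
  have hca := Num1_co ha.2 ha0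
  have hcb := Num1_co hb.2 hb0
  have hf0a := Num1_f0 ha.1 ha.2
  have hf0b := Num1_f0 hb.1 hb.2
  have hr := mul_self_le_mul_self (by positivity) hr1
  unfold Num1_H
  have hC : 0 ≤ (cos (π * a) + cos (π * b)) ^ 2 := sq_nonneg _
  generalize (cos (π * a) + cos (π * b)) ^ 2 = C at *
  generalize sin (min (67 / 100 * π * (r1 / 65536)) (π / 2)) = S1 at *
  generalize sin (min (67 / 100 * π * ρ) (π / 2)) = S at *
  generalize sin (π * a) ^ 2 = SA at *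
  generalize sin (π * b) ^ 2 = SB at *
  have hT : ((Num1_s r0 * G / 2 ^ 40 : ℕ) : ℝ) ≤ 2 ^ 40 * (S ^ 2 * C) := by
    refine Nat.cast_div_le.trans ?_
    rw [div_le_iff₀ (by positivity)]
    have := mul_le_mul hs0 hG G.cast_nonneg (by positivity)
    push_cast
    linarith
  generalize Num1_s r0 * G / 2 ^ 40 = t at ht hT
  generalize sa - 809 * (a1 * a1) = fa at ht hfa
  generalize sb - 809 * (b1 * b1) = fb at ht hfb
  have hyf := mul_le_mul hy0 hfa fa.cast_nonneg (by positivity)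
  have m1 := min_le_left (2 * ρ ^ 2 + Y * a ^ 2 + b ^ 2)
    (min (Y * a ^ 2 + (1 - b) ^ 2) (Y * (1 - a) ^ 2 + b ^ 2))
  have m2 := (min_le_right (2 * ρ ^ 2 + Y * a ^ 2 + b ^ 2) _).trans
    (min_le_left (Y * a ^ 2 + (1 - b) ^ 2) (Y * (1 - a) ^ 2 + b ^ 2))
  have m3 := (min_le_right (2 * ρ ^ 2 + Y * a ^ 2 + b ^ 2) _).trans
    (min_le_right (Y * a ^ 2 + (1 - b) ^ 2) (Y * (1 - a) ^ 2 + b ^ 2))
  generalize min (2 * ρ ^ 2 + Y * a ^ 2 + b ^ 2)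
    (min (Y * a ^ 2 + (1 - b) ^ 2) (Y * (1 - a) ^ 2 + b ^ 2)) = m at *
  rcases ht with ((ht | ht) | ht) | ht
  · have h := (Nat.cast_le (α := ℝ)).2 ht
    push_cast at h
    linarith
  · have h := (Nat.cast_le (α := ℝ)).2 ht
    generalize 65536 - b0 = u at h hcb
    push_cast at h
    linarith
  · have h := (Nat.cast_le (α := ℝ)).2 ht
    have h1 := Num1_sub_ge (809 * ((65536 - a0) * (65536 - a0))) sa
    generalize 809 * ((65536 - a0) * (65536 - a0)) - sa = w at h h1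
    generalize 65536 - a0 = u at h1 hca
    push_cast at h h1
    have h2 := mul_le_mul_of_nonneg_right hy1 (w.cast_nonneg (α := ℝ))
    have h3 : 2 ^ 40 * (809 / 256 * (1 - a) ^ 2 - SA) ≤ w := by linarith
    have h4 := mul_le_mul_of_nonneg_left h3 hY
    linarith only [hT, hfb, m3, h, h2, h4]
  · have h := (Nat.cast_le (α := ℝ)).2 ht
    push_cast at h
    have h1 := mul_le_mul hs1 hG G.cast_nonneg (by positivity)
    have h2 : 2 * (809 / 256) * (r1 / 65536 : ℝ) ^ 2 ≤ S1 ^ 2 * C := by linarith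
    have h3 : 2 * (809 / 256) * ρ ^ 2 ≤ S ^ 2 * C := by
      rcases eq_or_lt_of_le (r1.cast_nonneg (α := ℝ)) with h5 | h5
      · have : ρ = 0 := by linarith only [hr0, hr1, h5]
        rw [this]
        have := mul_nonneg (sq_nonneg S) hC
        linarith
      · have h6 := mul_le_mul_of_nonneg_right
          (mul_self_le_mul_self (mul_nonneg hρ hS1) hrat) hC
        have h7 := mul_le_mul_of_nonneg_left h2 (sq_nonneg ρ)
        refine le_of_mul_le_mul_left (a := (r1 / 65536 : ℝ) ^ 2) ?_ (by positivity)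
        linarith only [h6, h7]
    have h4 := mul_le_mul_of_nonneg_left hf0a hY
    linarith only [hf0b, m1, h3, h4]

lemma Num1_go_sound {ρ a b Y : ℝ} (ha : a ∈ Set.Icc (0 : ℝ) (1 / 2))
    (hb : b ∈ Set.Icc (0 : ℝ) (1 / 2)) (n : ℕ) : ∀ r0 r1 a0 a1 b0 b1 y0 y1 : ℕ,
    Num1_go n r0 r1 a0 a1 b0 b1 y0 y1 = true →
    (r0 : ℝ) ≤ 65536 * ρ → 65536 * ρ ≤ r1 → (a0 : ℝ) ≤ 65536 * a → 65536 * a ≤ a1 →
    (b0 : ℝ) ≤ 65536 * b → 65536 * b ≤ b1 → (y0 : ℝ) ≤ 256 * Y → 256 * Y ≤ y1 →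
    Num1_H ρ a b Y := by
  induction n with
  | zero => intro _ _ _ _ _ _ _ _ h; simp [Num1_go] at h
  | succ n ih =>
    intro r0 r1 a0 a1 b0 b1 y0 y1 h hr0 hr1 ha0 ha1 hb0 hb1 hy0 hy1
    rw [Num1_go, Bool.or_eq_true] at h
    rcases h with h | h
    · exact Num1_test_sound h ha hb hr0 hr1 ha0 ha1 hb0 hb1 hy0 hy1
    simp only [Bool.cond_eq_ite] at h
    split_ifs at h <;> rw [Bool.and_eq_true] at h
    · rcases le_total (65536 * a) (((a0 + a1) / 2 : ℕ) : ℝ) with k | k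
      · exact ih _ _ _ _ _ _ _ _ h.1 hr0 hr1 ha0 k hb0 hb1 hy0 hy1
      · exact ih _ _ _ _ _ _ _ _ h.2 hr0 hr1 k ha1 hb0 hb1 hy0 hy1
    · rcases le_total (65536 * b) (((b0 + b1) / 2 : ℕ) : ℝ) with k | k
      · exact ih _ _ _ _ _ _ _ _ h.1 hr0 hr1 ha0 ha1 hb0 k hy0 hy1
      · exact ih _ _ _ _ _ _ _ _ h.2 hr0 hr1 ha0 ha1 k hb1 hy0 hy1
    · rcases le_total (65536 * ρ) (((r0 + r1) / 2 : ℕ) : ℝ) with k | k
      · exact ih _ _ _ _ _ _ _ _ h.1 hr0 k ha0 ha1 hb0 hb1 hy0 hy1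
      · exact ih _ _ _ _ _ _ _ _ h.2 k hr1 ha0 ha1 hb0 hb1 hy0 hy1
    · rcases le_total (256 * Y) (((y0 + y1) / 2 : ℕ) : ℝ) with k | k
      · exact ih _ _ _ _ _ _ _ _ h.1 hr0 hr1 ha0 ha1 hb0 hb1 hy0 k
      · exact ih _ _ _ _ _ _ _ _ h.2 hr0 hr1 ha0 ha1 hb0 hb1 k hy1

lemma Num1_main {ρ a b Y : ℝ} (hρ : 0 ≤ ρ) (hρ1 : ρ ≤ 3 / 4) (ha : a ∈ Set.Icc (0 : ℝ) (1 / 2))
    (hb : b ∈ Set.Icc (0 : ℝ) (1 / 2)) (hY : Y ∈ Set.Icc (1 : ℝ) 16) : Num1_H ρ a b Y := by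
  refine Num1_go_sound ha hb _ _ _ _ _ _ _ _ _ Num1_run ?_ ?_ ?_ ?_ ?_ ?_ ?_ ?_ <;> push_cast <;>
    linarith [ha.1, ha.2, hb.1, hb.2, hY.1, hY.2]

lemma Num1_div {m z : ℝ} (hm : 0 ≤ m) (h : 809 / 256 * m ≤ z) : 8 / 25 * m ≤ z / π ^ 2 := by
  rw [le_div_iff₀ (by positivity)]
  nlinarith [mul_le_mul_of_nonneg_left pi_sq_upper hm]

lemma Num1_one {ρ : ℝ} (h : 3 / 4 ≤ ρ) : sin (min (67 / 100 * π * ρ) (π / 2)) = 1 := by
  rw [min_eq_right (by nlinarith [pi_pos]), sin_pi_div_two]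

theorem H1inf {a b Y : ℝ} (ha : a ∈ Set.Icc (0 : ℝ) (1 / 2)) (hb : b ∈ Set.Icc (0 : ℝ) (1 / 2))
    (hY : Y ∈ Set.Icc (1 : ℝ) 16) :
    8 / 25 * min (Y * a ^ 2 + (1 - b) ^ 2) (Y * (1 - a) ^ 2 + b ^ 2) ≤
      (Y * sin (π * a) ^ 2 + sin (π * b) ^ 2 + (cos (π * a) + cos (π * b)) ^ 2) / π ^ 2 := by
  have h := Num1_main (ρ := 3 / 4) (by norm_num) le_rfl ha hb hY
  have hY0 : 0 ≤ Y := by linarith [hY.1]
  rw [Num1_H, Num1_one le_rfl, one_pow, one_mul,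
    min_eq_right ((min_le_left _ _).trans (by nlinarith only [hb.1]))] at h
  exact Num1_div (le_min (by positivity) (by positivity)) h

theorem H1 {ρ a b Y : ℝ} (hρ : 0 ≤ ρ) (ha : a ∈ Set.Icc (0 : ℝ) (1 / 2))
    (hb : b ∈ Set.Icc (0 : ℝ) (1 / 2)) (hY : Y ∈ Set.Icc (1 : ℝ) 16) :
    8 / 25 * min (2 * ρ ^ 2 + Y * a ^ 2 + b ^ 2)
        (min (Y * a ^ 2 + (1 - b) ^ 2) (Y * (1 - a) ^ 2 + b ^ 2)) ≤
      (Y * sin (π * a) ^ 2 + sin (π * b) ^ 2 +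
        sin (min (67 / 100 * π * ρ) (π / 2)) ^ 2 * (cos (π * a) + cos (π * b)) ^ 2) / π ^ 2 := by
  have hY0 : 0 ≤ Y := by linarith [hY.1]
  rcases le_total ρ (3 / 4) with h | h
  · exact Num1_div (le_min (by positivity) (le_min (by positivity) (by positivity)))
      (Num1_main hρ h ha hb hY)
  · rw [Num1_one h, one_pow, one_mul]
    refine le_trans ?_ (H1inf ha hb hY)
    exact mul_le_mul_of_nonneg_left (min_le_right _ _) (by norm_num)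

end Pool.Agent.Work.MP_0ba68b_gt.CX
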