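import Pool.Agent.Work.MP_0ba68b_gt.CX.Rot
import Pool.Agent.Work.MP_0ba68b_gt.CX.Num1

/-!
An explicit kernel of level `8/25` for a large angular budget, and the outer kernel.

PLAN for `feas_E1`.  `K = 18/100 ρ ρ' + 37/100 ρ ρ' p2 + krot y θ`, `θ ρ = min (67/100 π ρ) (π/2)`;
`nd K = 55/100 Δρ² + (37/100) 3 ρ ρ' (1 - u²) + nd krot`.  `up0`: `55/100 + (67/100)² ≤ 1`.
`upj`: `1 - u² = sin² 2t ≤ 4 t²`, `1 - u = 2 sin² t`, `sin θ ≤ 67/100 π ρ`: `4.44 + 1.8 ≤ 7`.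
Lower (`adm_of_exists`): move to the cell (`exists_cell`, `nd_gam`), `a = |Δ₁|`, `b = |Δ₂|`, `c = ‖cin‖`,
`u = 2c² - 1`, `1 - u² = 4 c² (1 - c²)`, `e = √(ρ ρ')`.  By `krot_low`, `sin_sq_clamp`, `ntor_mono`
(`e ≤ (ρ + ρ')/2`, monotone clamp): `nd krot ≥ ntor y S(e) .. - (67/100)²/3 Δρ²`.
If `c² ≥ 1/2`: drop the `S` term, `sin² (π a) ≥ 4 a²`, `4/π² ≥ 8/25`, take `m = 0`.
If `c² ≤ 1/2`: `x = c²`, `cj = ‖cin x (j x')‖ = √(1 - x)` (`norm_cin_sq_add`),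
`cos² + cos² - 2 u cos cos = (cos + cos)² - 4 x cos cos ≥ (cos + cos)² - 4 x`, `S(e)/π² ≤ (67/100)² e²`,
`12 (37/100) x (1 - x) - 4 (67/100)² x ≥ 0.424 x ≥ (16/25) (1 - cj)` (`1 - cj = x / (1 + cj)`,
`cj ≥ 0.707`); then `H1` at `e`, with `m = 0` (`ang ≤ 2 e²`), `exists_odd2`, `exists_odd1`.
`outer_low`: same with `nd_k0`, `θ = π/2`, `H1inf` if `ρ ρ' ≥ 5`
(`(24/25) x (1 - x) e² - (99/100) 4 x / π² ≥ 0.6336 (1 - cj) e²`); if `ρ ρ' < 5` then `ρ' < 1/2`,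
`Δρ ≥ 9.5`, and a cell representative has `rep ≤ Δρ² + 10 + 17/4`.
`outer_up`: `PreK.J`, `krot_up0`, `krot_upj`, `1 - u = 2 (1 - c²) ≤ 4 (1 - c)`.
-/

open Real

namespace Pool.Agent.Work.MP_0ba68b_gt.CX

variable {I : Set ℝ}

lemma E1_pi : 9 < π ^ 2 ∧ π ^ 2 < 10 := by
  constructor <;> linarith only [pi_gt_three, pi_lt_d2, pi_pos, mul_pos_of_neg_of_neg (Mathlib.Tactic.Linarith.sub_neg_of_lt pi_gt_three) (Mathlib.Tactic.Linarith.sub_neg_of_lt pi_gt_three), mul_pos_of_neg_of_neg (Mathlib.Tactic.Linarith.sub_neg_of_lt pi_gt_three) (Mathlib.Tactic.Linarith.sub_neg_of_lt pi_lt_d2)]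

lemma E1_sin {a : ℝ} (ha : a ∈ Set.Icc (0 : ℝ) (1 / 2)) : 4 * a ^ 2 ≤ sin (π * a) ^ 2 := by
  have h := mul_le_sin (x := π * a) (mul_nonneg pi_pos.le ha.1) (by linarith only [ha, ha.2, pi_pos, mul_nonneg_of_nonpos_of_nonpos (Mathlib.Tactic.Linarith.sub_nonpos_of_le ha.right) (le_of_lt (Mathlib.Tactic.Linarith.sub_neg_of_lt pi_pos))])
  have e : 2 / π * (π * a) = 2 * a := by field_simp
  rw [e] at h
  linarith only [h, ha, ha.1, mul_nonneg_of_nonpos_of_nonpos (Mathlib.Tactic.Linarith.sub_nonpos_of_le h) (Mathlib.Tactic.Linarith.sub_nonpos_of_le h), mul_nonneg_of_nonpos_of_nonpos (Mathlib.Tactic.Linarith.sub_nonpos_of_le h) (Mathlib.Tactic.Linarith.sub_nonpos_of_le ha.left)]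

lemma E1_near {y S a b u : ℝ} (ha : a ∈ Set.Icc (0 : ℝ) (1 / 2))
    (hb : b ∈ Set.Icc (0 : ℝ) (1 / 2)) (hS : 0 ≤ S) (hu : |u| ≤ 1) :
    2 / 5 * (y ^ 2 * a ^ 2 + b ^ 2) ≤ ntor y S (π * a) (π * b) u := by
  have h1 := mul_nonneg hS (ntor_coef (a := π * a) (b := π * b) hu).1
  have h2 := mul_le_mul_of_nonneg_left (E1_sin ha) (sq_nonneg y)
  have h3 := E1_sin hb
  have h4 : 0 ≤ y ^ 2 * a ^ 2 + b ^ 2 := by positivity
  rw [ntor, le_div_iff₀ (by positivity)]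
  linarith only [h1, h2, h3, h4, mul_le_mul_of_nonneg_left E1_pi.2.le h4]

lemma E1_far (y a b : ℝ) {S x : ℝ} (hS : 0 ≤ S) (hx : 0 ≤ x) :
    (y ^ 2 * sin a ^ 2 + sin b ^ 2 + S * (cos a + cos b) ^ 2) / π ^ 2 - 4 * x * (S / π ^ 2) ≤
      ntor y S a b (2 * x - 1) := by
  have h1 : cos a * cos b ≤ 1 := by
    linarith only [cos_sq_le_one a, cos_sq_le_one b, sq_nonneg (cos a - cos b), sq_nonneg (cos a - cos b)]
  have h2 := mul_le_mul_of_nonneg_left h1 (mul_nonneg hS hx)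
  rw [ntor, ← mul_div_assoc, ← sub_div]
  refine div_le_div_of_nonneg_right ?_ (by positivity)
  linarith only [h2]

lemma E1_cj {c d : ℝ} (hd : 0 ≤ d) (h : c ^ 2 + d ^ 2 = 1) (hc : c ^ 2 ≤ 1 / 2) :
    1 - d ≤ 59 / 100 * c ^ 2 := by
  have h1 : 7 / 10 ≤ d := by (refine le_of_not_gt fun h_nl => ?_; linarith only [h_nl, h, hc, hd, mul_nonneg_of_nonpos_of_nonpos (Mathlib.Tactic.Linarith.sub_nonpos_of_le hd) (le_of_lt (Mathlib.Tactic.Linarith.sub_neg_of_lt h_nl))])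
  have h2 : d ≤ 1 := by (refine le_of_not_gt fun h_nl => ?_; linarith only [h_nl, h, hd, sq_nonneg c, sq_nonneg c, mul_nonneg_of_nonpos_of_nonpos (Mathlib.Tactic.Linarith.sub_nonpos_of_le hd) (le_of_lt (Mathlib.Tactic.Linarith.sub_neg_of_lt h_nl))])
  linarith only [h, h1, h2, mul_nonneg (sub_nonneg.2 h1) (sub_nonneg.2 h2), sq_nonneg c]

lemma E1_c {c : ℝ} (h0 : 0 ≤ c) (h1 : c ≤ 1) (hc : 1 / 2 ≤ c ^ 2) :
    17 / 5 * (1 - c) ≤ 1 - (2 * c ^ 2 - 1) ^ 2 := by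
  have h2 : 7 / 10 ≤ c := by (refine le_of_not_gt fun h_nl => ?_; linarith only [h_nl, hc, h0, mul_nonneg_of_nonpos_of_nonpos (Mathlib.Tactic.Linarith.sub_nonpos_of_le h0) (le_of_lt (Mathlib.Tactic.Linarith.sub_neg_of_lt h_nl))])
  have h3 : 17 / 5 ≤ 4 * c ^ 2 * (1 + c) := by linarith only [hc, h2, mul_nonneg_of_nonpos_of_nonpos (Mathlib.Tactic.Linarith.sub_nonpos_of_le (sq_nonneg ((1 : ℝ) * c))) (Mathlib.Tactic.Linarith.sub_nonpos_of_le h2)]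
  linarith only [h3, h1, mul_le_mul_of_nonneg_right h3 (sub_nonneg.2 h1)]

lemma E1_abs (x x' : S3) : |uu x x'| ≤ 1 := abs_le.2 ⟨neg_one_le_uu x x', uu_le x x'⟩

/-- The three representatives of a pair in the cell. -/
lemma E1_cell (y : ℝ) (p q : Pt I) (h1 : |p.1.2.1 - q.1.2.1| ≤ 1 / 2)
    (h2 : |p.1.2.2 - q.1.2.2| ≤ 1 / 2) : ∃ a b c d : ℝ, a ∈ Set.Icc (0 : ℝ) (1 / 2) ∧
      b ∈ Set.Icc (0 : ℝ) (1 / 2) ∧ 0 ≤ c ∧ c ≤ 1 ∧ 0 ≤ d ∧ c ^ 2 + d ^ 2 = 1 ∧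
      uu p.2 q.2 = 2 * c ^ 2 - 1 ∧
      (∀ θ : ℝ → ℝ, ntor y (sin ((θ (rho p.1) + θ (rho q.1)) / 2) ^ 2) (π * a) (π * b)
        (2 * c ^ 2 - 1) ≤ nd (krot y θ) p q) ∧
      (∃ m, rep y p (gam m q) = (rho p.1 - rho q.1) ^ 2 + (y ^ 2 * a ^ 2 + b ^ 2) +
        2 * (rho p.1 * rho q.1 * (1 - c))) ∧
      (∃ m, rep y p (gam m q) = (rho p.1 - rho q.1) ^ 2 + (y ^ 2 * a ^ 2 + (1 - b) ^ 2) +
        2 * (rho p.1 * rho q.1 * (1 - d))) ∧
      ∃ m, rep y p (gam m q) = (rho p.1 - rho q.1) ^ 2 + (y ^ 2 * (1 - a) ^ 2 + b ^ 2) +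
        2 * (rho p.1 * rho q.1 * (1 - d)) := by
  refine ⟨_, _, ‖cin p.2 q.2‖, ‖cin p.2 (jj * q.2)‖, ⟨abs_nonneg _, h1⟩, ⟨abs_nonneg _, h2⟩,
    norm_nonneg _, norm_cin_le _ _, norm_nonneg _, norm_cin_sq_add _ _, rfl, fun θ => ?_,
    ⟨0, ?_⟩, ?_, ?_⟩
  · have h := krot_low y θ p q
    rw [← ntor_abs, abs_mul, abs_mul, abs_of_pos pi_pos] at h
    exact h
  · rw [gam_zero, sq_abs, sq_abs]
    simp only [rep, Dsq, sg, angP, ang]
    ring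
  · obtain ⟨m, hm⟩ := exists_odd2 y p q h2
    refine ⟨m, ?_⟩
    rw [hm, sq_abs]
    simp only [ang, Metric.unitSphere.coe_mul]
    ring
  · obtain ⟨m, hm⟩ := exists_odd1 y p q h1
    refine ⟨m, ?_⟩
    rw [hm, sq_abs]
    simp only [ang, Metric.unitSphere.coe_mul]
    ring

/-- The clamped angle. -/
noncomputable def E1_th (r : ℝ) : ℝ := min (67 / 100 * π * max r 0) (π / 2)

lemma E1_th_mem (r : ℝ) : E1_th r ∈ Set.Icc 0 (π / 2) :=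
  ⟨le_min (by positivity) (by positivity), min_le_right _ _⟩

lemma E1_th_eq {r : ℝ} (h : 0 ≤ r) : E1_th r = min (67 / 100 * π * r) (π / 2) := by
  rw [E1_th, max_eq_left h]

lemma E1_th_sin {r : ℝ} (h : 0 ≤ r) : sin (E1_th r) ^ 2 / π ^ 2 ≤ 4489 / 10000 * r ^ 2 := by
  have h1 : E1_th r ≤ 67 / 100 * π * r := E1_th_eq h ▸ min_le_left _ _
  have h2 := pow_le_pow_left₀ (E1_th_mem r).1 h1 2
  rw [div_le_iff₀ (by positivity)]
  linarith only [h2, sin_sq_le_sq (x := E1_th r)]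

lemma E1_th_lip {r r' : ℝ} (h : 0 ≤ r) (h' : 0 ≤ r') :
    (E1_th r - E1_th r') ^ 2 / π ^ 2 ≤ 4489 / 10000 * (r - r') ^ 2 := by
  have h1 := abs_min_sub_min_le_max (67 / 100 * π * r) (π / 2) (67 / 100 * π * r') (π / 2)
  rw [sub_self, abs_zero, max_eq_left (abs_nonneg _), ← E1_th_eq h, ← E1_th_eq h'] at h1
  have h2 := sq_le_sq.2 h1
  rw [div_le_iff₀ (by positivity)]
  linarith only [h2]

lemma E1_th_mid {r r' : ℝ} (h : 0 ≤ r) (h' : 0 ≤ r') :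
    sin (E1_th √(r * r')) ^ 2 - (67 / 100 * π * (r - r')) ^ 2 / 12 ≤
      sin ((E1_th r + E1_th r') / 2) ^ 2 := by
  have h1 := sin_sq_clamp (φ := 67 / 100 * π * r) (φ' := 67 / 100 * π * r') (by positivity)
    (by positivity)
  rw [← E1_th_eq h, ← E1_th_eq h', ← mul_sub] at h1
  refine le_trans (sub_le_sub_right ?_ _) h1
  have h2 : √(r * r') ≤ (r + r') / 2 :=
    sqrt_le_iff.2 ⟨by positivity, by nlinarith only [sq_nonneg (r - r')]⟩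
  have h3 := E1_th_mem √(r * r')
  refine pow_le_pow_left₀ (sin_nonneg_of_nonneg_of_le_pi h3.1 (by linarith only [h3, h3.2, pi_pos]))
    (sin_le_sin_of_le_of_le_pi_div_two (by linarith only [h3.1, pi_pos]) (min_le_right _ _) ?_) 2
  rw [E1_th_eq (sqrt_nonneg _)]
  exact min_le_min_right _ (by nlinarith only [h2, pi_pos])

/-- The first explicit kernel. -/
noncomputable def E1_K (y : ℝ) (p p' : Pt I) : ℝ :=
  18 / 100 * (rho p.1 * rho p'.1) + 37 / 100 * (rho p.1 * rho p'.1 * p2 p.2 p'.2) +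
    krot y E1_th p p'

lemma E1_base {y : ℝ} (hy : 1 ≤ y) : BaseK (E1_K y : Pt I → Pt I → ℝ) :=
  (((baseK_radial id).smul (c := 18 / 100) (by norm_num)).add
    ((baseK_p2 id).smul (c := 37 / 100) (by norm_num))).add (krot_base hy _)

lemma E1_nd (y : ℝ) (p p' : Pt I) : nd (E1_K y) p p' = 55 / 100 * (rho p.1 - rho p'.1) ^ 2 +
    111 / 100 * (rho p.1 * rho p'.1 * (1 - uu p.2 p'.2 ^ 2)) + nd (krot y E1_th) p p' := by
  simp only [nd, E1_K, p2, uu_self]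
  ring

lemma E1_low {y : ℝ} (hy : 1 ≤ y) (hy' : y ≤ 4) (p q : Pt I) (hp : 0 ≤ rho p.1) (hq : 0 ≤ rho q.1)
    (h1 : |p.1.2.1 - q.1.2.1| ≤ 1 / 2) (h2 : |p.1.2.2 - q.1.2.2| ≤ 1 / 2) :
    ∃ m, 8 / 25 * rep y p (gam m q) ≤ nd (E1_K y) p q := by
  obtain ⟨a, b, c, d, ha, hb, c0, c1, d0, hcd, hu, hk, ⟨m0, r0⟩, ⟨m1, r1⟩, ⟨m2, r2⟩⟩ :=
    E1_cell y p q h1 h2
  have hu1 : |2 * c ^ 2 - 1| ≤ 1 := hu ▸ E1_abs _ _
  have h3 := (ntor_mono y (π * a) (π * b) hu1 (by positivity) (E1_th_mid hp hq)).trans (hk E1_th)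
  have e : 4 * ((67 / 100 * π * (rho p.1 - rho q.1)) ^ 2 / 12) / π ^ 2 =
      4489 / 30000 * (rho p.1 - rho q.1) ^ 2 := by
    field_simp
    ring
  rw [e] at h3
  rw [E1_nd, hu]
  have hE : 0 ≤ rho p.1 * rho q.1 := mul_nonneg hp hq
  have hD := sq_nonneg (rho p.1 - rho q.1)
  have hs := E1_th_sin (sqrt_nonneg (rho p.1 * rho q.1))
  have hH := H1 (sqrt_nonneg (rho p.1 * rho q.1)) ha hb (Y := y ^ 2) ⟨by nlinarith only [hy], by nlinarith only [hy', hy]⟩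
  rw [← E1_th_eq (sqrt_nonneg _), sq_sqrt hE] at hH
  rw [sq_sqrt hE] at hs
  generalize rho p.1 * rho q.1 = E at *
  generalize (rho p.1 - rho q.1) ^ 2 = D at *
  rcases le_total (1 / 2) (c ^ 2) with hc | hc
  · have h4 := E1_near (y := y) ha hb (sq_nonneg (sin (E1_th √E))) hu1
    have h5 := mul_le_mul_of_nonneg_left (E1_c c0 c1 hc) hE
    have h6 : 0 ≤ E * (1 - c) := mul_nonneg hE (sub_nonneg.2 c1)
    have h7 : 0 ≤ y ^ 2 * a ^ 2 + b ^ 2 := by positivity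
    exact ⟨m0, by rw [r0]; nlinarith only [hD, h3, h4, h5, h6, h7]⟩
  · have h4 := E1_far y (π * a) (π * b) (sq_nonneg (sin (E1_th √E))) (sq_nonneg c)
    have h5 := mul_le_mul_of_nonneg_left (E1_cj d0 hcd hc) hE
    have h6 := mul_le_mul_of_nonneg_left hs (sq_nonneg c)
    have h7 : 0 ≤ E * c ^ 2 := by positivity
    have h8 : E * (2 * c ^ 2) ≤ E * (1 - (2 * c ^ 2 - 1) ^ 2) :=
      mul_le_mul_of_nonneg_left (by nlinarith only [hc, sq_nonneg c]) hE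
    have h9 : 0 ≤ E * c := mul_nonneg hE c0
    rcases min_choice (2 * E + y ^ 2 * a ^ 2 + b ^ 2)
      (min (y ^ 2 * a ^ 2 + (1 - b) ^ 2) (y ^ 2 * (1 - a) ^ 2 + b ^ 2)) with h | h
    · rw [h] at hH
      exact ⟨m0, by rw [r0]; nlinarith only [hH, hD, h3, h4, h6, h7, h8, h9]⟩
    rcases min_choice (y ^ 2 * a ^ 2 + (1 - b) ^ 2) (y ^ 2 * (1 - a) ^ 2 + b ^ 2) with h' | h'
    · rw [h, h'] at hH
      exact ⟨m1, by rw [r1]; nlinarith only [hH, hD, h3, h4, h5, h6, h7, h8]⟩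
    · rw [h, h'] at hH
      exact ⟨m2, by rw [r2]; nlinarith only [hH, hD, h3, h4, h5, h6, h7, h8]⟩

theorem feas_E1 {y : ℝ} (hy : 1 ≤ y) (hy' : y ≤ 4) : Feas y 7 (8 / 25) := by
  intro R hR
  have hr : ∀ a : Ax (IR R), 0 ≤ rho a := fun a => (rho_pos (by linarith) a).le
  refine ⟨E1_K y, adm_of_exists (E1_base hy) (by norm_num) (fun a a' x => ?_) (fun a t ht => ?_)
    fun p p' => ?_⟩
  · have h1 := krot_up0 hy E1_th_mem a a' x
    have h2 := E1_th_lip (hr a) (hr a')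
    rw [E1_nd, Dsq]
    simp only [uu_self]
    linarith only [h1, h2, sq_nonneg (rho a - rho a'), sq_nonneg (rho a - rho a')]
  · have hu : uu 1 (ej t) = cos (2 * t) := uu_of_cos (by
      rw [Metric.unitSphere.coe_one, cin_one_ej, Complex.norm_real, Real.norm_eq_abs,
        abs_of_nonneg (cos_nonneg_of_mem_Icc ⟨by linarith [ht.1, pi_pos], ht.2⟩)])
    have h1 := E1_th_sin (hr a)
    have h2 : 1 - cos (2 * t) ≤ 2 * t ^ 2 := by
      nlinarith only [one_sub_sq_div_two_le_cos (x := 2 * t)]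
    have h3 : 1 - cos (2 * t) ^ 2 ≤ 4 * t ^ 2 := by
      nlinarith only [sin_sq_le_sq (x := 2 * t), sin_sq_add_cos_sq (2 * t)]
    have h4 := mul_le_mul h1 h2 (sub_nonneg.2 (cos_le_one _)) (by positivity)
    have h5 := mul_le_mul_of_nonneg_left h3 (sq_nonneg (rho a))
    have e : 2 * sin (E1_th (rho a)) ^ 2 * (1 - cos (2 * t)) / π ^ 2 =
        2 * (sin (E1_th (rho a)) ^ 2 / π ^ 2 * (1 - cos (2 * t))) := by ring
    rw [E1_nd, krot_upj]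
    simp only [hu]
    rw [e]
    nlinarith only [h4, h5, mul_nonneg (sq_nonneg (rho a)) (sq_nonneg t)]
  · obtain ⟨m0, h1, h2⟩ := exists_cell p p'
    obtain ⟨m, hm⟩ := E1_low hy hy' p (gam m0 p') (hr _) (hr _) h1 h2
    rw [gam_add, (E1_base hy).nd_gam] at hm
    exact ⟨_, hm⟩

lemma E1_outer {y : ℝ} (hy : 1 ≤ y) (hy' : y ≤ 4) (p q : Pt I0) (h : 10 ≤ rho p.1)
    (h1 : |p.1.2.1 - q.1.2.1| ≤ 1 / 2) (h2 : |p.1.2.2 - q.1.2.2| ≤ 1 / 2) :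
    ∃ m, 3168 / 10000 * rep y p (gam m q) ≤
      nd k0 p q + 99 / 100 * nd (krot y fun _ => π / 2) p q := by
  obtain ⟨a, b, c, d, ha, hb, c0, c1, d0, hcd, hu, hk, ⟨m0, r0⟩, ⟨m1, r1⟩, ⟨m2, r2⟩⟩ :=
    E1_cell y p q h1 h2
  have hu1 : |2 * c ^ 2 - 1| ≤ 1 := hu ▸ E1_abs _ _
  have h3 := hk fun _ => π / 2
  rw [add_halves, sin_pi_div_two, one_pow] at h3
  have hq := rho_nonneg q.1
  have hE : 0 ≤ rho p.1 * rho q.1 := mul_nonneg (by linarith only [h]) hq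
  have hD := sq_nonneg (rho p.1 - rho q.1)
  have hF : rho p.1 * rho q.1 < 5 → 90 ≤ (rho p.1 - rho q.1) ^ 2 := fun h5 => by
    have : rho q.1 < 1 / 2 := by nlinarith only [h5, h, hq]
    nlinarith only [h, h5, hq]
  have hH := H1inf ha hb (Y := y ^ 2) ⟨by nlinarith only [hy], by nlinarith only [hy', hy]⟩
  rw [nd_k0, hu, mul_assoc]
  generalize rho p.1 * rho q.1 = E at *
  generalize (rho p.1 - rho q.1) ^ 2 = D at *
  have h4 := E1_near (y := y) ha hb zero_le_one hu1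
  have h7 : 0 ≤ y ^ 2 * a ^ 2 + b ^ 2 := by positivity
  rcases le_total (1 / 2) (c ^ 2) with hc | hc
  · have h5 := mul_le_mul_of_nonneg_left (E1_c c0 c1 hc) hE
    have h6 : 0 ≤ E * (1 - c) := mul_nonneg hE (sub_nonneg.2 c1)
    exact ⟨m0, by rw [r0]; nlinarith only [h3, hD, h4, h7, h5, h6]⟩
  have h7 : 0 ≤ E * c ^ 2 := by positivity
  have h8 : E * (2 * c ^ 2) ≤ E * (1 - (2 * c ^ 2 - 1) ^ 2) :=
    mul_le_mul_of_nonneg_left (by nlinarith only [hc, sq_nonneg c]) hE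
  rcases lt_or_ge E 5 with h5 | h5
  · have h9 : 0 ≤ E * c := mul_nonneg hE c0
    exact ⟨m0, by rw [r0]; nlinarith [hF h5]⟩
  have h4 := E1_far y (π * a) (π * b) zero_le_one (sq_nonneg c)
  have h9 := mul_le_mul_of_nonneg_left (E1_cj d0 hcd hc) hE
  have hs : 1 / π ^ 2 ≤ E / 45 := by
    have : 1 / π ^ 2 ≤ 1 / 9 := one_div_le_one_div_of_le (by norm_num) E1_pi.1.le
    linarith only [h5, this]
  have h6 := mul_le_mul_of_nonneg_left hs (sq_nonneg c)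
  rw [one_mul] at h4
  rcases min_choice (y ^ 2 * a ^ 2 + (1 - b) ^ 2) (y ^ 2 * (1 - a) ^ 2 + b ^ 2) with h' | h'
  · rw [h'] at hH
    exact ⟨m1, by rw [r1]; nlinarith only [h3, hH, hD, h7, h8, h4, h9, h6]⟩
  · rw [h'] at hH
    exact ⟨m2, by rw [r2]; nlinarith only [h3, hH, hD, h7, h8, h4, h9, h6]⟩

theorem outer_low {y : ℝ} (hy : 1 ≤ y) (hy' : y ≤ 4) (p p' : Pt I0) (h : 10 ≤ rho p.1)
    (h' : rho p'.1 ≤ rho p.1) : ∃ m, 3168 / 10000 * rep y p (gam m p') ≤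
      nd k0 p p' + 99 / 100 * nd (krot y fun _ => π / 2) p p' := by
  obtain ⟨m0, h1, h2⟩ := exists_cell p p'
  obtain ⟨m, hm⟩ := E1_outer hy hy' p (gam m0 p') h h1 h2
  rw [gam_add, baseK_k0.nd_gam, (krot_base hy _).nd_gam] at hm
  exact ⟨_, hm⟩

theorem outer_up {y : ℝ} (hy : 1 ≤ y) (p p' : Pt I0) :
    nd (krot y fun _ => π / 2) p p' ≤ sg y p.1 p'.1 + 8 / π ^ 2 * (1 - ‖cin p.2 p'.2‖) := by
  obtain ⟨a, x⟩ := p
  obtain ⟨a', x'⟩ := p'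
  have h1 := (abs_le.1 ((krot_base hy fun _ => π / 2).toPreK.J a a' x x')).2
  have h2 := krot_up0 hy (θ := fun _ => π / 2) (fun _ => ⟨by positivity, le_rfl⟩) a a' x
  have h0 : 0 ≤ 1 - uu x x' := sub_nonneg.2 (uu_le x x')
  rw [krot_upj, krot_upj, mul_self_sqrt (by positivity), sin_pi_div_two] at h1
  have h3 : 2 * 1 ^ 2 * (1 - uu x x') / π ^ 2 ≤ 8 / π ^ 2 * (1 - ‖cin x x'‖) := by
    rw [div_mul_eq_mul_div]
    refine div_le_div_of_nonneg_right ?_ (by positivity)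
    rw [uu]
    nlinarith only [sq_nonneg (1 - ‖cin x x'‖)]
  rw [sub_self, zero_pow two_ne_zero, zero_div] at h2
  linarith only [h1, h2, h3]

theorem k0_up (p p' : Pt I0) :
    nd k0 p p' ≤ 24 / 25 * ((rho p.1 - rho p'.1) ^ 2 + angP p p') := by
  have hE := mul_nonneg (rho_nonneg p.1) (rho_nonneg p'.1)
  have c0 := norm_nonneg (cin p.2 p'.2)
  have c1 := norm_cin_le p.2 p'.2
  rw [nd_k0, angP, ang, uu]
  generalize ‖cin p.2 p'.2‖ = c at *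
  have h1 : 4 * c ^ 2 * (1 + c) ≤ 8 := by linarith only [c1, c0, mul_nonneg_of_nonpos_of_nonpos (Mathlib.Tactic.Linarith.sub_nonpos_of_le (sq_nonneg c)) (Mathlib.Tactic.Linarith.sub_nonpos_of_le c1), mul_nonneg_of_nonpos_of_nonpos (Mathlib.Tactic.Linarith.sub_nonpos_of_le c0) (Mathlib.Tactic.Linarith.sub_nonpos_of_le c1)]
  have h2 : 1 - (2 * c ^ 2 - 1) ^ 2 ≤ 8 * (1 - c) := by
    linarith only [h1, c1, mul_le_mul_of_nonneg_right h1 (sub_nonneg.2 c1)]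
  linarith only [h2, hE, mul_le_mul_of_nonneg_left h2 hE]

end Pool.Agent.Work.MP_0ba68b_gt.CX
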