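import Pool.Agent.Work.MP_0ba68b_gt.CX.Chk

/-!
The numerical inequalities for the second explicit kernel.

PLAN (tested in floating point: about 5500 boxes, depth 18, margin 9 percent).
`H2`: for `ρ ≤ 4` use `chk` on `ρ ∈ [0,4]`, `s ∈ [0, 7072/10000]`, `β ∈ [0,1/2]` (fourth side `[0,0]`,
weight `0`), weights `(1, 10/7, 2, 0)`, fuel `24`, `decide +kernel` (cut in pieces if needed).
With `ϑ(r) = min (1/2) (max (r/2) (58/100 r - 3/100))`, `A(r) = (max 0 (cl (1/2 - ϑ r)))² / 9.8697`,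
`G = A(r0) + 49/200 h(r0)²` (`th2`, `h2` are monotone), `cb = max 0 (cl β1)`,
`sb = (1 - (cu β0)²) / 9.8697`, `u = max 0 (1 - 2 s1²)`, `1 - u² = 4 s² (1 - s²) ≥ 4 s0² (1 - s0²)`
(use `s² ≤ 1/2`), `N = sb + A(r0) (u + cb)² + G 4 s0² (1 - s0²)`,
`1 - √(1 - x) ≤ x/2 + 172/1000 x²` for `0 ≤ x ≤ 1/2`: accept if
(1) `N ≥ 8/25 (2 r1² (s1²/2 + 172/1000 s1⁴) + (1 - β0)²)`, or (2) `N ≥ 8/25 (2 r1² (1 - s0) + β1²)`, or
(3) `r1 ≤ 3/8` and `max 0 (sb - 8/25 β1²) + A(r1) ((u + cb)² + 4 s0² (1 - s0²)) ≥ 8/25 2 r1² (1 - s0)`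
(ratio form: for `ρ ≤ r1 ≤ 3/8`, `th2 ρ = π ρ / 2` and `A(ρ) r1² ≥ A(r1) ρ²` by concavity of `sin`).
For `ρ ≥ 4`: `A = 1/π²`; first term of the minimum: `sin² b/π² + (1 + cos b)²/π² = (2 + 2 cos b)/π²
≥ 4 (1 - β)²/π²`, `(1 + cos b)² - (u + cos b)² ≤ 4 (1 - u) = 8 s²`, `1 - u² ≥ 2 s²`,
`1 - √(1 - s²) ≤ 0.586 s²`, and `2 G - 8/π² ≥ 0.3751 ρ²`.
`Bud`: `ρ ≤ 3/8`: `h2 = 0`, `sin x ≤ x`; `ρ ≥ 6/5`: `(0.98 ρ - 0.17)² + 0.406 ≤ ρ²`; in between `chk` in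
one variable (the maximum of the ratio is `0.978`), with `sin θ = cos (π/2 - θ) ≤ cu`.
`Gl`: the minimum of `G / ρ²` is `0.2199`; `ρ ≤ 3/8` by `sin x ≥ x - x³/6`; `ρ ≥ 4` directly; `chk` between.
-/

open Real

namespace Pool.Agent.Work.MP_0ba68b_gt.CX

/-- The angle profile divided by `π`, on rationals. -/
def Num2_tq (r : ℚ) : ℚ := min (1 / 2) (max (r / 2) (58 / 100 * r - 3 / 100))

/-- The amplitude profile on rationals. -/
def Num2_hq (r : ℚ) : ℚ := max 0 (min (128 / 100 * (r - 42 / 100)) (98 / 100 * r - 17 / 100))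

/-- The angle profile divided by `π`. -/
noncomputable def Num2_t (ρ : ℝ) : ℝ := min (1 / 2) (max (ρ / 2) (58 / 100 * ρ - 3 / 100))

lemma Num2_th (ρ : ℝ) : th2 ρ = π * Num2_t ρ := by
  unfold th2 Num2_t
  rw [mul_min_of_nonneg _ _ pi_pos.le, min_comm]
  congr 1
  ring

lemma Num2_tq_cast (r : ℚ) : (Num2_tq r : ℝ) = Num2_t r := by
  unfold Num2_tq Num2_t
  push_cast
  rfl

lemma Num2_hq_cast (r : ℚ) : (Num2_hq r : ℝ) = h2 r := by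
  unfold Num2_hq h2
  push_cast
  rfl

lemma Num2_t_mono {x y : ℝ} (h : x ≤ y) : Num2_t x ≤ Num2_t y :=
  min_le_min le_rfl (max_le_max (by linarith) (by linarith))

lemma Num2_h_mono {x y : ℝ} (h : x ≤ y) : h2 x ≤ h2 y :=
  max_le_max le_rfl (min_le_min (by linarith) (by linarith))

lemma Num2_h_nonneg (x : ℝ) : 0 ≤ h2 x := le_max_left _ _

lemma Num2_t_nonneg {x : ℝ} (h : 0 ≤ x) : 0 ≤ Num2_t x :=
  le_min (by norm_num) (le_max_of_le_left (by linarith))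

lemma Num2_t_le (x : ℝ) : Num2_t x ≤ 1 / 2 := min_le_left _ _

lemma Num2_sin (ρ : ℝ) : sin (th2 ρ) = cos (π * (1 / 2 - Num2_t ρ)) := by
  rw [Num2_th, ← cos_pi_div_two_sub]
  congr 1
  ring

lemma Num2_sin_nonneg {ρ : ℝ} (h : 0 ≤ ρ) : 0 ≤ sin (th2 ρ) := by
  rw [Num2_th]
  have h1 := Num2_t_nonneg h
  have h3 := Num2_t_le ρ
  exact sin_nonneg_of_nonneg_of_le_pi (by positivity) (by nlinarith [pi_pos])

lemma Num2_div_lo {x y : ℝ} (hx : 0 ≤ x) (h : y ≤ x) : y / (98697 / 10000) ≤ x / π ^ 2 :=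
  (div_le_div_of_nonneg_right h (by norm_num)).trans
    (div_le_div_of_nonneg_left hx (by positivity) pi_sq_upper)

lemma Num2_div_up {x y : ℝ} (hx : 0 ≤ x) (h : x ≤ y) : x / π ^ 2 ≤ y / (98696 / 10000) :=
  (div_le_div_of_nonneg_left hx (by norm_num) pi_sq_lower).trans
    (div_le_div_of_nonneg_right h (by norm_num))

/-- Lower bound for the squared sine. -/
def Num2_A (r : ℚ) : ℚ := max 0 (cl (1 / 2 - Num2_tq r)) ^ 2 / (98697 / 10000)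

/-- Upper bound for the squared sine. -/
def Num2_AU (r : ℚ) : ℚ := cu (1 / 2 - Num2_tq r) ^ 2 / (98696 / 10000)

lemma Num2_A_le {r : ℚ} {ρ : ℝ} (hr : 0 ≤ r) (h : r ≤ ρ) :
    (Num2_A r : ℝ) ≤ sin (th2 ρ) ^ 2 / π ^ 2 := by
  have hr' : (0 : ℝ) ≤ r := by exact_mod_cast hr
  have h1 : (cl (1 / 2 - Num2_tq r) : ℝ) ≤ sin (th2 ρ) := by
    rw [Num2_sin]
    refine cl_le_cos (by linarith [Num2_t_le ρ]) ?_ ?_
    · push_cast
      rw [Num2_tq_cast]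
      linarith [Num2_t_mono h]
    · have : (0 : ℝ) ≤ Num2_tq r := by rw [Num2_tq_cast]; exact Num2_t_nonneg hr'
      have : 0 ≤ Num2_tq r := by exact_mod_cast this
      linarith
  unfold Num2_A
  push_cast
  exact Num2_div_lo (by positivity)
    (pow_le_pow_left₀ (le_max_left _ _) (max_le (Num2_sin_nonneg (hr'.trans h)) h1) 2)

lemma Num2_le_AU {r : ℚ} {ρ : ℝ} (hρ : 0 ≤ ρ) (h : ρ ≤ r) :
    sin (th2 ρ) ^ 2 / π ^ 2 ≤ (Num2_AU r : ℝ) := by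
  have h1 : sin (th2 ρ) ≤ (cu (1 / 2 - Num2_tq r) : ℝ) := by
    rw [Num2_sin]
    refine cos_le_cu ?_ ?_ (by linarith [Num2_t_nonneg hρ])
    · have : Num2_tq r ≤ 1 / 2 := min_le_left _ _
      linarith
    · push_cast
      rw [Num2_tq_cast]
      linarith [Num2_t_mono h]
  unfold Num2_AU
  push_cast
  exact Num2_div_up (by positivity) (pow_le_pow_left₀ (Num2_sin_nonneg hρ) h1 2)

lemma Num2_A_nonneg (r : ℚ) : (0 : ℝ) ≤ Num2_A r := by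
  unfold Num2_A
  push_cast
  positivity

lemma Num2_small {ρ : ℝ} (h : ρ ≤ 3 / 8) : th2 ρ = π * ρ / 2 ∧ h2 ρ = 0 := by
  constructor
  · rw [Num2_th, Num2_t, max_eq_left (by linarith), min_eq_right (by linarith)]
    ring
  · exact max_eq_left (min_le_of_left_le (by linarith))

lemma Num2_big {ρ : ℝ} (h : 2 ≤ ρ) : sin (th2 ρ) = 1 ∧ h2 ρ = 98 / 100 * ρ - 17 / 100 := by
  constructor
  · rw [Num2_sin, Num2_t, min_eq_left (le_max_of_le_left (by linarith)), sub_self, mul_zero,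
      cos_zero]
  · rw [h2, min_eq_right (by linarith), max_eq_right (by linarith)]

lemma Num2_ratio {ρ r : ℝ} (hρ : 0 ≤ ρ) (h : ρ ≤ r) (hr : r ≤ 3 / 8) :
    ρ ^ 2 * ((1 - 98697 / 240000 * r ^ 2) ^ 2 / 4) ≤ sin (th2 ρ) ^ 2 / π ^ 2 := by
  rw [(Num2_small (h.trans hr)).1, le_div_iff₀ (by positivity)]
  have h1 := sin_ge3 (x := π * ρ / 2) (by positivity)
  have h3 : ρ ^ 2 ≤ r ^ 2 := pow_le_pow_left₀ hρ h 2
  have h4 : r ^ 2 ≤ (3 / 8) ^ 2 := pow_le_pow_left₀ (hρ.trans h) hr 2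
  have h5 : π ^ 2 * ρ ^ 2 ≤ 98697 / 10000 * r ^ 2 :=
    mul_le_mul pi_sq_upper h3 (by positivity) (by norm_num)
  have h6 : 0 ≤ 1 - 98697 / 240000 * r ^ 2 := by linarith
  have h7 : π * ρ / 2 * (1 - 98697 / 240000 * r ^ 2) ≤ sin (π * ρ / 2) := by
    refine le_trans ?_ h1
    have : π * ρ / 2 - (π * ρ / 2) ^ 3 / 6 = π * ρ / 2 * (1 - π ^ 2 * ρ ^ 2 / 24) := by ring
    rw [this]
    exact mul_le_mul_of_nonneg_left (by linarith only [h5]) (by positivity)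
  calc _ = (π * ρ / 2 * (1 - 98697 / 240000 * r ^ 2)) ^ 2 := by ring
    _ ≤ _ := pow_le_pow_left₀ (mul_nonneg (by positivity) h6) h7 2

/-- Test for the budget inequality. -/
def Num2_tB (B : Box) : Bool :=
  decide (0 ≤ B.a0) && decide (Num2_hq B.a1 ^ 2 + 4 * Num2_AU B.a1 ≤ B.a0 ^ 2)

lemma Num2_tB_sound (B : Box) (h : Num2_tB B = true) (ρ b c d : ℝ) (hm : B.Mem ρ b c d) :
    h2 ρ ^ 2 + 4 * sin (th2 ρ) ^ 2 / π ^ 2 ≤ ρ ^ 2 := by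
  simp only [Num2_tB, Bool.and_eq_true, decide_eq_true_eq] at h
  obtain ⟨h0, h1⟩ := h
  obtain ⟨⟨m0, m1⟩, -⟩ := hm
  have h0' : (0 : ℝ) ≤ B.a0 := by exact_mod_cast h0
  have h1' : (Num2_hq B.a1 : ℝ) ^ 2 + 4 * (Num2_AU B.a1 : ℝ) ≤ (B.a0 : ℝ) ^ 2 := by
    exact_mod_cast h1
  rw [Num2_hq_cast] at h1'
  have e1 := Num2_le_AU (h0'.trans m0) m1
  have e2 := pow_le_pow_left₀ (Num2_h_nonneg ρ) (Num2_h_mono m1) 2
  have e3 := pow_le_pow_left₀ h0' m0 2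
  rw [mul_div_assoc]
  linarith

lemma Num2_runB : chk Num2_tB 1 0 0 0 12 ⟨3 / 8, 11 / 8, 0, 0, 0, 0, 0, 0⟩ = true := by
  decide +kernel

theorem Bud {ρ : ℝ} (hρ : 0 ≤ ρ) : h2 ρ ^ 2 + 4 * sin (th2 ρ) ^ 2 / π ^ 2 ≤ ρ ^ 2 := by
  have _ := hρ
  rcases le_total ρ (3 / 8) with h | h
  · obtain ⟨e1, e2⟩ := Num2_small h
    rw [e1, e2, zero_pow two_ne_zero, zero_add, div_le_iff₀ (by positivity)]
    have := sin_sq_le_sq (x := π * ρ / 2)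
    linarith
  rcases le_total ρ (11 / 8) with h' | h'
  · refine chk_sound (P := fun ρ _ _ _ => h2 ρ ^ 2 + 4 * sin (th2 ρ) ^ 2 / π ^ 2 ≤ ρ ^ 2)
      Num2_tB_sound _ _ _ _ _ _ Num2_runB ρ 0 0 0 ?_
    simp only [Box.Mem]
    push_cast
    exact ⟨⟨h, h'⟩, ⟨le_rfl, le_rfl⟩, ⟨le_rfl, le_rfl⟩, le_rfl, le_rfl⟩
  · have e1 : h2 ρ ≤ 98 / 100 * ρ - 17 / 100 := max_le (by linarith) (min_le_right _ _)
    have e2 := pow_le_pow_left₀ (Num2_h_nonneg ρ) e1 2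
    have e3 := Num2_div_up (sq_nonneg (sin (th2 ρ))) (sin_sq_le_one _)
    rw [mul_div_assoc]
    nlinarith

/-- Test for the lower bound. -/
def Num2_tG (B : Box) : Bool :=
  decide (0 ≤ B.a0) && decide (19 / 100 * B.a1 ^ 2 ≤ Num2_A B.a0 + 49 / 200 * Num2_hq B.a0 ^ 2)

lemma Num2_tG_sound (B : Box) (h : Num2_tG B = true) (ρ b c d : ℝ) (hm : B.Mem ρ b c d) :
    19 / 100 * ρ ^ 2 ≤ sin (th2 ρ) ^ 2 / π ^ 2 + 49 / 200 * h2 ρ ^ 2 := by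
  simp only [Num2_tG, Bool.and_eq_true, decide_eq_true_eq] at h
  obtain ⟨h0, h1⟩ := h
  obtain ⟨⟨m0, m1⟩, -⟩ := hm
  have h0' : (0 : ℝ) ≤ B.a0 := by exact_mod_cast h0
  have h1' := (Rat.cast_le (K := ℝ)).2 h1
  push_cast at h1'
  rw [Num2_hq_cast] at h1'
  have e1 := Num2_A_le h0 m0
  have e2 := pow_le_pow_left₀ (Num2_h_nonneg _) (Num2_h_mono m0) 2
  have e3 := pow_le_pow_left₀ (h0'.trans m0) m1 2
  linarith

lemma Num2_runG : chk Num2_tG 1 0 0 0 12 ⟨3 / 8, 19 / 8, 0, 0, 0, 0, 0, 0⟩ = true := by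
  decide +kernel

theorem Gl {ρ : ℝ} (hρ : 0 ≤ ρ) :
    19 / 100 * ρ ^ 2 ≤ sin (th2 ρ) ^ 2 / π ^ 2 + 49 / 200 * h2 ρ ^ 2 := by
  rcases le_total ρ (3 / 8) with h | h
  · have e1 := Num2_ratio hρ h le_rfl
    have e2 := sq_nonneg (h2 ρ)
    have e3 := sq_nonneg ρ
    norm_num at e1
    linarith
  rcases le_total ρ (19 / 8) with h' | h'
  · refine chk_sound
      (P := fun ρ _ _ _ => 19 / 100 * ρ ^ 2 ≤ sin (th2 ρ) ^ 2 / π ^ 2 + 49 / 200 * h2 ρ ^ 2)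
      Num2_tG_sound _ _ _ _ _ _ Num2_runG ρ 0 0 0 ?_
    simp only [Box.Mem]
    push_cast
    exact ⟨⟨h, h'⟩, ⟨le_rfl, le_rfl⟩, ⟨le_rfl, le_rfl⟩, le_rfl, le_rfl⟩
  · rw [(Num2_big (ρ := ρ) (by linarith)).2]
    have : 0 ≤ sin (th2 ρ) ^ 2 / π ^ 2 := by positivity
    nlinarith

lemma Num2_sqrt {s : ℝ} (hs' : s ^ 2 ≤ 1 / 2) :
    1 - √(1 - s ^ 2) ≤ s ^ 2 / 2 + 172 / 1000 * s ^ 4 := by
  have h0 := sq_nonneg s
  have e : s ^ 4 = (s ^ 2) ^ 2 := by ring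
  rw [e]
  generalize s ^ 2 = x at *
  have h1 : 1 - x / 2 - 172 / 1000 * x ^ 2 ≤ √(1 - x) := by
    refine le_trans (le_abs_self _) (abs_le_sqrt ?_)
    have h2 : 0 ≤ 94 / 1000 - 172 / 1000 * x - 29584 / 1000000 * x ^ 2 := by nlinarith
    nlinarith [mul_nonneg (sq_nonneg x) h2]
  linarith

/-- The statement that is checked on boxes. -/
def Num2_P (ρ s β : ℝ) : Prop := s ^ 2 ≤ 1 / 2 →
    8 / 25 * min (2 * ρ ^ 2 * (1 - √(1 - s ^ 2)) + (1 - β) ^ 2) (2 * ρ ^ 2 * (1 - s) + β ^ 2) ≤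
      sin (π * β) ^ 2 / π ^ 2 + sin (th2 ρ) ^ 2 / π ^ 2 * (1 - 2 * s ^ 2 + cos (π * β)) ^ 2 +
        (sin (th2 ρ) ^ 2 / π ^ 2 + 49 / 200 * h2 ρ ^ 2) * (1 - (1 - 2 * s ^ 2) ^ 2)

lemma Num2_jordan {β : ℝ} (h0 : 0 ≤ β) (h1 : β ≤ 1 / 2) :
    8 / 25 * β ^ 2 ≤ sin (π * β) ^ 2 / π ^ 2 := by
  have e1 : 2 / π * (π * β) ≤ sin (π * β) := mul_le_sin (by positivity) (by nlinarith [pi_pos])
  have e2 : 2 / π * (π * β) = 2 * β := by field_simp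
  rw [e2] at e1
  have e3 := Num2_div_lo (sq_nonneg _) (pow_le_pow_left₀ (by linarith) e1 2)
  nlinarith [sq_nonneg β]

lemma Num2_core {ρ s β r s1 b1 d e A H sb v w k f : ℝ} (hρ : 0 ≤ ρ) (hs : 0 ≤ s) (hβ : 0 ≤ β)
    (hβ' : β ≤ 1 / 2) (hs' : s ^ 2 ≤ 1 / 2) (hr : ρ ≤ r) (hs1 : s ≤ s1) (hb1 : β ≤ b1)
    (hd : 1 - β ≤ d) (he : 1 - s ≤ e) (hA : A ≤ sin (th2 ρ) ^ 2 / π ^ 2)
    (hH : H ≤ 49 / 200 * h2 ρ ^ 2) (hsb : sb ≤ sin (π * β) ^ 2 / π ^ 2) (hv0 : 0 ≤ v)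
    (hv : v ≤ (1 - 2 * s ^ 2 + cos (π * β)) ^ 2) (hw0 : 0 ≤ w) (hw : w ≤ 1 - (1 - 2 * s ^ 2) ^ 2)
    (hf0 : 0 ≤ f) (hf : f ≤ sin (π * β) ^ 2 / π ^ 2 - 8 / 25 * β ^ 2)
    (h : (8 / 25 * (2 * r ^ 2 * (s1 ^ 2 / 2 + 172 / 1000 * s1 ^ 4) + d ^ 2) ≤
        sb + A * v + (A + H) * w ∨ 8 / 25 * (2 * r ^ 2 * e + b1 ^ 2) ≤ sb + A * v + (A + H) * w) ∨
      (ρ ^ 2 * k ≤ sin (th2 ρ) ^ 2 / π ^ 2 ∧ 16 / 25 * (r ^ 2 * e) ≤ f + r ^ 2 * (k * (v + w)))) :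
    8 / 25 * min (2 * ρ ^ 2 * (1 - √(1 - s ^ 2)) + (1 - β) ^ 2) (2 * ρ ^ 2 * (1 - s) + β ^ 2) ≤
      sin (π * β) ^ 2 / π ^ 2 + sin (th2 ρ) ^ 2 / π ^ 2 * (1 - 2 * s ^ 2 + cos (π * β)) ^ 2 +
        (sin (th2 ρ) ^ 2 / π ^ 2 + 49 / 200 * h2 ρ ^ 2) * (1 - (1 - 2 * s ^ 2) ^ 2) := by
  have sq1 : s ^ 2 ≤ s1 ^ 2 := pow_le_pow_left₀ hs hs1 2
  have sq4 : s ^ 4 ≤ s1 ^ 4 := pow_le_pow_left₀ hs hs1 4
  have rq1 : ρ ^ 2 ≤ r ^ 2 := pow_le_pow_left₀ hρ hr 2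
  have bq1 : β ^ 2 ≤ b1 ^ 2 := pow_le_pow_left₀ hβ hb1 2
  have bq0 : (1 - β) ^ 2 ≤ d ^ 2 := pow_le_pow_left₀ (by linarith) hd 2
  have s1' : s ≤ 1 := by nlinarith only [hs', hs]
  have hN : sb + A * v + (A + H) * w ≤
      sin (π * β) ^ 2 / π ^ 2 + sin (th2 ρ) ^ 2 / π ^ 2 * (1 - 2 * s ^ 2 + cos (π * β)) ^ 2 +
        (sin (th2 ρ) ^ 2 / π ^ 2 + 49 / 200 * h2 ρ ^ 2) * (1 - (1 - 2 * s ^ 2) ^ 2) :=
    add_le_add (add_le_add hsb (mul_le_mul hA hv hv0 (by positivity)))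
      (mul_le_mul (add_le_add hA hH) hw hw0 (by positivity))
  rcases h with (h | h) | ⟨e1, h⟩
  · refine le_trans ?_ (h.trans hN)
    refine mul_le_mul_of_nonneg_left ((min_le_left _ _).trans (add_le_add ?_ bq0)) (by norm_num)
    calc 2 * ρ ^ 2 * (1 - √(1 - s ^ 2)) ≤ 2 * ρ ^ 2 * (s ^ 2 / 2 + 172 / 1000 * s ^ 4) :=
          mul_le_mul_of_nonneg_left (Num2_sqrt hs') (by positivity)
      _ ≤ _ := mul_le_mul (by linarith) (by linarith only [sq1, sq4]) (by positivity) (by positivity)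
  · refine le_trans ?_ (h.trans hN)
    refine mul_le_mul_of_nonneg_left ((min_le_right _ _).trans (add_le_add ?_ bq1)) (by norm_num)
    exact mul_le_mul (by linarith) he (by linarith) (by positivity)
  · have e3 : 0 ≤ f + ρ ^ 2 * (k * (v + w) - 16 / 25 * e) := by
      rcases le_total 0 (k * (v + w) - 16 / 25 * e) with t | t
      · exact add_nonneg hf0 (mul_nonneg (sq_nonneg _) t)
      · linarith [mul_le_mul_of_nonpos_right rq1 t]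
    have e4 : ρ ^ 2 * k * v ≤ sin (th2 ρ) ^ 2 / π ^ 2 * (1 - 2 * s ^ 2 + cos (π * β)) ^ 2 :=
      mul_le_mul e1 hv hv0 (by positivity)
    have e5 : ρ ^ 2 * k * w ≤
        (sin (th2 ρ) ^ 2 / π ^ 2 + 49 / 200 * h2 ρ ^ 2) * (1 - (1 - 2 * s ^ 2) ^ 2) :=
      mul_le_mul (by linarith [sq_nonneg (h2 ρ)]) hw hw0 (by positivity)
    have e6 : ρ ^ 2 * (1 - s) ≤ ρ ^ 2 * e := mul_le_mul_of_nonneg_left he (sq_nonneg _)
    have e7 := min_le_right (2 * ρ ^ 2 * (1 - √(1 - s ^ 2)) + (1 - β) ^ 2)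
      (2 * ρ ^ 2 * (1 - s) + β ^ 2)
    linarith

/-- Bisection on boxes with natural number corners in three variables. -/
def Num2_chk (test : ℕ → ℕ → ℕ → ℕ → ℕ → ℕ → Bool) : ℕ → ℕ → ℕ → ℕ → ℕ → ℕ → ℕ → Bool
  | 0, a0, a1, b0, b1, c0, c1 => test a0 a1 b0 b1 c0 c1
  | n + 1, a0, a1, b0, b1, c0, c1 => test a0 a1 b0 b1 c0 c1 ||
      cond (Nat.ble (2 * (b1 - b0)) (a1 - a0) && Nat.ble (2 * (c1 - c0)) (a1 - a0))
        (Num2_chk test n a0 ((a0 + a1) / 2) b0 b1 c0 c1 &&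
          Num2_chk test n ((a0 + a1) / 2) a1 b0 b1 c0 c1)
        (cond (Nat.ble (c1 - c0) (b1 - b0))
          (Num2_chk test n a0 a1 b0 ((b0 + b1) / 2) c0 c1 &&
            Num2_chk test n a0 a1 ((b0 + b1) / 2) b1 c0 c1)
          (Num2_chk test n a0 a1 b0 b1 c0 ((c0 + c1) / 2) &&
            Num2_chk test n a0 a1 b0 b1 ((c0 + c1) / 2) c1))

lemma Num2_chk_sound {test : ℕ → ℕ → ℕ → ℕ → ℕ → ℕ → Bool} {P : ℝ → ℝ → ℝ → Prop}
    (ht : ∀ a0 a1 b0 b1 c0 c1, test a0 a1 b0 b1 c0 c1 = true → ∀ a b c : ℝ,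
      a0 ≤ a → a ≤ a1 → b0 ≤ b → b ≤ b1 → c0 ≤ c → c ≤ c1 → P a b c) :
    ∀ n a0 a1 b0 b1 c0 c1, Num2_chk test n a0 a1 b0 b1 c0 c1 = true → ∀ a b c : ℝ,
      a0 ≤ a → a ≤ a1 → b0 ≤ b → b ≤ b1 → c0 ≤ c → c ≤ c1 → P a b c := by
  intro n
  induction n with
  | zero => exact ht
  | succ n ih =>
    intro a0 a1 b0 b1 c0 c1 h a b c m1 m2 m3 m4 m5 m6
    rw [Num2_chk, Bool.or_eq_true] at h
    rcases h with h | h
    · exact ht _ _ _ _ _ _ h a b c m1 m2 m3 m4 m5 m6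
    generalize (Nat.ble (2 * (b1 - b0)) (a1 - a0) && Nat.ble (2 * (c1 - c0)) (a1 - a0)) = t at h
    generalize Nat.ble (c1 - c0) (b1 - b0) = t' at h
    cases t
    · cases t'
      · rw [cond_false, cond_false, Bool.and_eq_true] at h
        rcases le_total c (((c0 + c1) / 2 : ℕ) : ℝ) with g | g
        · exact ih _ _ _ _ _ _ h.1 a b c m1 m2 m3 m4 m5 g
        · exact ih _ _ _ _ _ _ h.2 a b c m1 m2 m3 m4 g m6
      · rw [cond_false, cond_true, Bool.and_eq_true] at h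
        rcases le_total b (((b0 + b1) / 2 : ℕ) : ℝ) with g | g
        · exact ih _ _ _ _ _ _ h.1 a b c m1 m2 m3 g m5 m6
        · exact ih _ _ _ _ _ _ h.2 a b c m1 m2 g m4 m5 m6
    · rw [cond_true, Bool.and_eq_true] at h
      rcases le_total a (((a0 + a1) / 2 : ℕ) : ℝ) with g | g
      · exact ih _ _ _ _ _ _ h.1 a b c m1 g m3 m4 m5 m6
      · exact ih _ _ _ _ _ _ h.2 a b c g m2 m3 m4 m5 m6

lemma Num2_sub (x y : ℕ) : ((x - y : ℕ) : ℝ) = max 0 ((x : ℝ) - y) := by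
  rcases le_total y x with h | h
  · rw [Nat.cast_sub h, max_eq_right (sub_nonneg.2 (Nat.cast_le.2 h))]
  · rw [Nat.sub_eq_zero_of_le h, max_eq_left (sub_nonpos.2 (Nat.cast_le.2 h)), Nat.cast_zero]

/-- Lower bound of `2^20 cos (π a)`, `x = (102400 a)²`. -/
def Num2_CL (x : ℕ) : ℕ :=
  ((10000 * 102400 ^ 6 + 40587 * 102400 ^ 2 * (x * x)) -
    (49349 * 102400 ^ 4 * x + 13353 * (x * x * x))) / (10000 * 100 ^ 6 * 1024 ^ 4)

/-- Upper bound of `2^20 cos (π a)`, `x = (1024 a)²`. -/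
def Num2_CU (x : ℕ) : ℕ :=
  ((10000 * 1024 ^ 8 + 40588 * 1024 ^ 4 * (x * x) + 2354 * (x * x * (x * x))) -
    (49348 * 1024 ^ 6 * x + 13352 * 1024 ^ 2 * (x * x * x))) / (10000 * 1024 ^ 6) + 1

/-- Minimum. -/
def Num2_mn (x y : ℕ) : ℕ := x - (x - y)

/-- Square. -/
def Num2_sq (x : ℕ) : ℕ := x * x

lemma Num2_mn_cast (x y : ℕ) : (Num2_mn x y : ℝ) = min (x : ℝ) y := by
  have : Num2_mn x y = min x y := by unfold Num2_mn; omega
  rw [this, Nat.cast_min]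

lemma Num2_sq_cast (x : ℕ) : (Num2_sq x : ℝ) = (x : ℝ) ^ 2 := by
  rw [Num2_sq, Nat.cast_mul, sq]

lemma Num2_CL_le {y : ℕ} {x : ℝ} (hx : 0 ≤ x) (hx' : x ≤ 1 / 2) (hxy : 102400 * x ≤ y)
    (hy : (y : ℝ) ≤ 102400) : (Num2_CL (Num2_sq y) : ℝ) / 1048576 ≤ cos (π * x) := by
  have hc : 0 ≤ cos (π * x) :=
    cos_nonneg_of_neg_pi_div_two_le_of_le (by nlinarith [pi_pos]) (by nlinarith [pi_pos])
  have h1 := cl_le_cos (a := (y : ℚ) / 102400) hx (by push_cast; linarith) (by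
    have : (y : ℚ) ≤ 102400 := by exact_mod_cast hy
    linarith)
  simp only [cl] at h1
  push_cast at h1
  rw [div_le_iff₀ (by norm_num), Num2_CL]
  refine Nat.cast_div_le.trans ?_
  rw [Num2_sub, div_le_iff₀ (by norm_num)]
  unfold Num2_sq
  push_cast
  exact max_le (by positivity) (by linarith)

lemma Num2_le_CU {y : ℕ} {x : ℝ} (hx : x ≤ 1) (hxy : y ≤ 1024 * x) :
    cos (π * x) ≤ (Num2_CU (y * y) : ℝ) / 1048576 := by
  have h1 := cos_le_cu (a := (y : ℚ) / 1024) (by positivity) (by push_cast; linarith) hx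
  simp only [cu] at h1
  push_cast at h1
  rw [le_div_iff₀ (by norm_num), Num2_CU]
  have key : ∀ m n : ℕ, 0 < n → (m : ℝ) / n ≤ ((m / n + 1 : ℕ) : ℝ) := fun m n hn => by
    rw [div_le_iff₀' (by exact_mod_cast hn)]
    exact_mod_cast (Nat.lt_mul_div_succ m hn).le
  refine le_trans ?_ (key _ _ (by norm_num))
  rw [Num2_sub, le_div_iff₀ (by norm_num)]
  push_cast
  exact le_max_of_le_right (by linarith)

/-- Scaled lower bound of the squared sine. -/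
def Num2_AN (a : ℕ) : ℕ :=
  Num2_sq (Num2_CL (Num2_sq (Num2_mn (51200 - 50 * a) (54272 - 58 * a)))) * 10000 / 98697

/-- Scaled lower bound of the amplitude term. -/
def Num2_HN (a : ℕ) : ℕ :=
  49 * 1048576 * Num2_sq (Num2_mn (128 * a - 55051) (98 * a - 17408)) / 2000000

/-- Scaled lower bound of the first term. -/
def Num2_sbN (c : ℕ) : ℕ := (1048576 * 1048576 - Num2_sq (Num2_CU (c * c))) * 10000 / 98697

/-- Scaled lower bound of `(u + cos)²`. -/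
def Num2_vN (b c : ℕ) : ℕ := Num2_sq ((1048576 - 2 * (b * b)) + Num2_CL (Num2_sq (100 * c)))

/-- Scaled lower bound of `1 - u²`. -/
def Num2_wN (b : ℕ) : ℕ := 4 * (b * b) * (1048576 - b * b)

/-- Scaled ratio bound. -/
def Num2_kN (a : ℕ) : ℕ := Num2_sq (240000 * 1048576 - 98697 * (a * a)) / (4 * 240000 * 240000)

lemma Num2_AN_le {a : ℕ} {ρ : ℝ} (h : a ≤ 1024 * ρ) :
    (Num2_AN a : ℝ) / 1048576 ^ 2 ≤ sin (th2 ρ) ^ 2 / π ^ 2 := by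
  have a0 : (0 : ℝ) ≤ a := Nat.cast_nonneg a
  have hρ : 0 ≤ ρ := by linarith
  have h1 : (Num2_CL (Num2_sq (Num2_mn (51200 - 50 * a) (54272 - 58 * a))) : ℝ) / 1048576 ≤
      sin (th2 ρ) := by
    rw [Num2_sin]
    refine Num2_CL_le (by linarith [Num2_t_le ρ]) (by linarith [Num2_t_nonneg hρ]) ?_ ?_
    · rw [Num2_mn_cast, Num2_sub, Num2_sub, Num2_t]
      push_cast
      rcases le_total (1 / 2 : ℝ) (max (ρ / 2) (58 / 100 * ρ - 3 / 100)) with g | g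
      · rw [min_eq_left g, sub_self, mul_zero]
        exact le_min (le_max_left _ _) (le_max_left _ _)
      · rw [min_eq_right g]
        have g1 := le_max_left (ρ / 2) (58 / 100 * ρ - 3 / 100)
        have g2 := le_max_right (ρ / 2) (58 / 100 * ρ - 3 / 100)
        exact le_min (le_max_of_le_right (by linarith)) (le_max_of_le_right (by linarith))
    · rw [Num2_mn_cast, Num2_sub]
      push_cast
      exact min_le_of_left_le (max_le (by norm_num) (by linarith))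
  refine le_trans ?_ (Num2_div_lo (sq_nonneg _) (pow_le_pow_left₀ (by positivity) h1 2))
  rw [div_le_iff₀ (by norm_num), Num2_AN]
  refine Nat.cast_div_le.trans ?_
  rw [Nat.cast_mul, Num2_sq_cast]
  push_cast
  linarith

lemma Num2_HN_le {a : ℕ} {ρ : ℝ} (h : a ≤ 1024 * ρ) :
    (Num2_HN a : ℝ) / 1048576 ^ 2 ≤ 49 / 200 * h2 ρ ^ 2 := by
  have h1 : (Num2_mn (128 * a - 55051) (98 * a - 17408) : ℝ) ≤ 102400 * h2 ρ := by
    rw [Num2_mn_cast, Num2_sub, Num2_sub]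
    push_cast
    have g0 := Num2_h_nonneg ρ
    have g1 : min (128 / 100 * (ρ - 42 / 100)) (98 / 100 * ρ - 17 / 100) ≤ h2 ρ := le_max_right _ _
    rcases min_le_iff.1 g1 with g | g
    · exact min_le_of_left_le (max_le (by linarith) (by linarith))
    · exact min_le_of_right_le (max_le (by linarith) (by linarith))
  have h3 := pow_le_pow_left₀ (Nat.cast_nonneg _) h1 2
  rw [div_le_iff₀ (by norm_num), Num2_HN]
  refine Nat.cast_div_le.trans ?_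
  rw [Nat.cast_mul, Num2_sq_cast]
  push_cast
  linarith

lemma Num2_sbN_le {c : ℕ} {β : ℝ} (h : c ≤ 1024 * β) (h' : β ≤ 1 / 2) :
    (Num2_sbN c : ℝ) / 1048576 ^ 2 ≤ sin (π * β) ^ 2 / π ^ 2 := by
  have c0 : (0 : ℝ) ≤ c := Nat.cast_nonneg c
  have hβ : 0 ≤ β := by linarith
  have hc : 0 ≤ cos (π * β) :=
    cos_nonneg_of_neg_pi_div_two_le_of_le (by nlinarith [pi_pos]) (by nlinarith [pi_pos])
  have h1 := pow_le_pow_left₀ hc (Num2_le_CU (by linarith) h) 2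
  refine le_trans ?_ (Num2_div_lo (sq_nonneg _) le_rfl)
  rw [div_le_iff₀ (by norm_num), Num2_sbN]
  refine Nat.cast_div_le.trans ?_
  have h3 : ((1048576 * 1048576 - Num2_sq (Num2_CU (c * c)) : ℕ) : ℝ) ≤
      1048576 ^ 2 * sin (π * β) ^ 2 := by
    rw [Num2_sub, Num2_sq_cast]
    refine max_le (by positivity) ?_
    rw [sin_sq]
    push_cast
    linarith
  rw [Nat.cast_mul]
  generalize ((1048576 * 1048576 - Num2_sq (Num2_CU (c * c)) : ℕ) : ℝ) = z at h3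
  push_cast
  linarith

lemma Num2_vN_le {b c : ℕ} {s β : ℝ} (hs : 0 ≤ s) (hb : 1024 * s ≤ b) (hs' : s ^ 2 ≤ 1 / 2)
    (hβ : 0 ≤ β) (hc : 1024 * β ≤ c) (hc' : (c : ℝ) ≤ 512) :
    (Num2_vN b c : ℝ) / 1048576 ^ 2 ≤ (1 - 2 * s ^ 2 + cos (π * β)) ^ 2 := by
  have h1 := Num2_CL_le (y := 100 * c) hβ (by linarith) (by push_cast; linarith)
    (by push_cast; linarith)
  have h3 := pow_le_pow_left₀ (by linarith) hb 2
  have h4 : ((1048576 - 2 * (b * b) : ℕ) : ℝ) / 1048576 ≤ 1 - 2 * s ^ 2 := by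
    rw [Num2_sub, div_le_iff₀ (by norm_num)]
    push_cast
    exact max_le (by linarith) (by linarith)
  rw [Num2_vN, Num2_sq_cast, ← div_pow, Nat.cast_add, add_div]
  exact pow_le_pow_left₀ (by positivity) (add_le_add h4 h1) 2

lemma Num2_wN_le {b : ℕ} {s : ℝ} (hb : b ≤ 1024 * s) (hs' : s ^ 2 ≤ 1 / 2) :
    (Num2_wN b : ℝ) / 1048576 ^ 2 ≤ 1 - (1 - 2 * s ^ 2) ^ 2 := by
  have h3 := pow_le_pow_left₀ (Nat.cast_nonneg b) hb 2
  rw [Num2_wN, Nat.cast_mul, Num2_sub, div_le_iff₀ (by norm_num)]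
  push_cast
  rw [max_eq_right (by linarith)]
  have h4 := mul_nonneg (sub_nonneg.2 h3)
    (show 0 ≤ 1048576 - (1024 * s) ^ 2 - (b : ℝ) ^ 2 by linarith)
  linarith

lemma Num2_kN_le {a : ℕ} {ρ : ℝ} (hρ : 0 ≤ ρ) (h : 1024 * ρ ≤ a) (ha : (a : ℝ) ≤ 384) :
    ρ ^ 2 * ((Num2_kN a : ℝ) / 1048576 ^ 2) ≤ sin (th2 ρ) ^ 2 / π ^ 2 := by
  refine le_trans (mul_le_mul_of_nonneg_left ?_ (sq_nonneg _))
    (Num2_ratio (r := a / 1024) hρ (by linarith) (by linarith))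
  have h3 := pow_le_pow_left₀ (Nat.cast_nonneg a) ha 2
  rw [div_le_iff₀ (by norm_num), Num2_kN]
  refine Nat.cast_div_le.trans ?_
  rw [Num2_sq_cast, Num2_sub]
  push_cast
  rw [max_eq_right (by linarith)]
  linarith

/-- The three acceptance tests. -/
def Num2_t3 (a1 b0 b1 c0 c1 sb v w N : ℕ) : Bool :=
  Nat.ble (8 * 1048576 * (2 * (a1 * a1) * (500 * 1048576 * (b1 * b1) + 172 * (b1 * b1 * (b1 * b1))) +
    1000 * 1048576 * 1048576 * Num2_sq (1024 - c0))) (25000 * N) ||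
  Nat.ble (8 * 1024 ^ 5 * (2 * (a1 * a1) * (1024 - b0) + 1024 * (c1 * c1))) (25 * N) ||
  (Nat.ble a1 384 && Nat.ble (16 * 1024 ^ 7 * (a1 * a1 * (1024 - b0)))
    (1048576 ^ 3 * (25 * sb - 8 * 1048576 * (c1 * c1)) + 25 * (a1 * a1) * (Num2_kN a1 * (v + w))))

/-- The tests with the common lower bound. -/
def Num2_t2 (a1 b0 b1 c0 c1 A H sb v w : ℕ) : Bool :=
  Num2_t3 a1 b0 b1 c0 c1 sb v w (1048576 * 1048576 * sb + A * v + (A + H) * w)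

/-- The test on a box. -/
def Num2_tN (a0 a1 b0 b1 c0 c1 : ℕ) : Bool :=
  Nat.ble c1 512 &&
    Num2_t2 a1 b0 b1 c0 c1 (Num2_AN a0) (Num2_HN a0) (Num2_sbN c0) (Num2_vN b1 c1) (Num2_wN b0)

lemma Num2_tN_sound (a0 a1 b0 b1 c0 c1 : ℕ) (h : Num2_tN a0 a1 b0 b1 c0 c1 = true) (a b c : ℝ)
    (m1 : a0 ≤ a) (m2 : a ≤ a1) (m3 : b0 ≤ b) (m4 : b ≤ b1) (m5 : c0 ≤ c) (m6 : c ≤ c1) :
    Num2_P (a / 1024) (b / 1024) (c / 1024) := by
  obtain ⟨ρ, rfl⟩ : ∃ ρ, a = 1024 * ρ := ⟨a / 1024, by ring⟩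
  obtain ⟨s, rfl⟩ : ∃ s, b = 1024 * s := ⟨b / 1024, by ring⟩
  obtain ⟨β, rfl⟩ : ∃ β, c = 1024 * β := ⟨c / 1024, by ring⟩
  rw [mul_div_cancel_left₀ ρ (by norm_num), mul_div_cancel_left₀ s (by norm_num),
    mul_div_cancel_left₀ β (by norm_num)]
  intro hs'
  simp only [Num2_tN, Num2_t2, Num2_t3, Bool.and_eq_true, Bool.or_eq_true, Nat.ble_eq] at h
  obtain ⟨c1', h⟩ := h
  have c1r : (c1 : ℝ) ≤ 512 := by exact_mod_cast c1'
  have hρ : 0 ≤ ρ := by linarith [Nat.cast_nonneg (α := ℝ) a0]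
  have hs : 0 ≤ s := by linarith [Nat.cast_nonneg (α := ℝ) b0]
  have hβ : 0 ≤ β := by linarith [Nat.cast_nonneg (α := ℝ) c0]
  have hβ' : β ≤ 1 / 2 := by linarith
  have hsb := Num2_sbN_le m5 hβ'
  have hq := pow_le_pow_left₀ (by linarith) m6 2
  refine Num2_core (r := a1 / 1024) (s1 := b1 / 1024) (b1 := c1 / 1024)
    (d := (1024 - c0 : ℕ) / 1024) (e := (1024 - b0 : ℕ) / 1024)
    (k := (Num2_kN a1 : ℝ) / 1048576 ^ 2)
    (f := (25 * Num2_sbN c0 - 8 * 1048576 * (c1 * c1) : ℕ) / (25 * 1048576 ^ 2))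
    hρ hs hβ hβ' hs' (by linarith) (by linarith) (by linarith) ?_ ?_ (Num2_AN_le m1)
    (Num2_HN_le m1) hsb (by positivity) (Num2_vN_le hs m4 hs' hβ m6 c1r) (by positivity)
    (Num2_wN_le m3 hs') (by positivity) ?_ ?_
  · rw [Num2_sub, le_div_iff₀ (by norm_num)]
    push_cast
    exact le_max_of_le_right (by linarith)
  · rw [Num2_sub, le_div_iff₀ (by norm_num)]
    push_cast
    exact le_max_of_le_right (by linarith)
  · rw [Num2_sub, div_le_iff₀ (by norm_num)]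
    push_cast
    exact max_le (by linarith [Num2_jordan hβ hβ']) (by linarith)
  generalize 25 * Num2_sbN c0 - 8 * 1048576 * (c1 * c1) = f at h ⊢
  generalize 1024 - c0 = d at h ⊢
  generalize 1024 - b0 = e at h ⊢
  unfold Num2_sq at h
  rcases h with (h | h) | ⟨h3, h⟩
  · have h' := (Nat.cast_le (α := ℝ)).2 h
    push_cast at h'
    exact Or.inl (Or.inl (by linarith))
  · have h' := (Nat.cast_le (α := ℝ)).2 h
    push_cast at h'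
    exact Or.inl (Or.inr (by linarith))
  · have h' := (Nat.cast_le (α := ℝ)).2 h
    push_cast at h'
    exact Or.inr ⟨Num2_kN_le hρ m2 (by exact_mod_cast h3), by linarith⟩

lemma Num2_run : Num2_chk Num2_tN 24 0 4096 0 725 0 512 = true := by
  decide +kernel

lemma Num2_far {ρ s β : ℝ} (hρ : 4 ≤ ρ) (hβ : β ∈ Set.Icc (0 : ℝ) (1 / 2)) : Num2_P ρ s β := by
  intro hs'
  obtain ⟨b0, b1⟩ := hβ
  obtain ⟨e1, e2⟩ := Num2_big (ρ := ρ) (by linarith)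
  rw [e1, e2, one_pow]
  have s0 := sq_nonneg s
  have q := Num2_sqrt hs'
  have e : s ^ 4 = s ^ 2 * s ^ 2 := by ring
  rw [e] at q
  generalize s ^ 2 = x at *
  have q1 : 1 - √(1 - x) ≤ 586 / 1000 * x := by nlinarith only [q, hs', s0]
  have c1 : 1 - 2 / π * (π * β) ≤ cos (π * β) :=
    one_sub_mul_le_cos (by positivity) (by nlinarith only [b1, pi_pos])
  have c2 : 2 / π * (π * β) = 2 * β := by field_simp
  rw [c2] at c1
  have c3 := cos_le_one (π * β)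
  have p0 : 1 / (98697 / 10000) ≤ 1 / π ^ 2 := Num2_div_lo zero_le_one le_rfl
  have p1 : 1 / π ^ 2 ≤ 1 / (98696 / 10000) := Num2_div_up zero_le_one le_rfl
  rw [sin_sq, div_eq_mul_one_div (1 - cos (π * β) ^ 2)]
  generalize 1 / π ^ 2 = p at *
  generalize cos (π * β) = c at *
  have t1 : 4 * (1 - β) ^ 2 - 8 * x ≤ 1 - c ^ 2 + (1 - 2 * x + c) ^ 2 := by nlinarith only [b0, b1, s0, hs', c1]
  have t2 : p * (4 * (1 - β) ^ 2 - 8 * x) ≤ p * (1 - c ^ 2 + (1 - 2 * x + c) ^ 2) :=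
    mul_le_mul_of_nonneg_left t1 (by linarith)
  have t3 : 8 / 25 * (1 - β) ^ 2 ≤ p * (4 * (1 - β) ^ 2) := by nlinarith only [p0, sq_nonneg (1 - β)]
  have t4 : (p + 49 / 200 * (98 / 100 * ρ - 17 / 100) ^ 2) * (2 * x) ≤
      (p + 49 / 200 * (98 / 100 * ρ - 17 / 100) ^ 2) * (1 - (1 - 2 * x) ^ 2) :=
    mul_le_mul_of_nonneg_left (by nlinarith only [hs', s0]) (by nlinarith only [p0, sq_nonneg (98 / 100 * ρ - 17 / 100)])
  have t5 : 3751 / 10000 * ρ ^ 2 ≤ 49 / 100 * (98 / 100 * ρ - 17 / 100) ^ 2 - 6 * p := by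
    nlinarith only [hρ, p1]
  have t6 := mul_le_mul_of_nonneg_right t5 s0
  have t7 : ρ ^ 2 * (1 - √(1 - x)) ≤ ρ ^ 2 * (586 / 1000 * x) :=
    mul_le_mul_of_nonneg_left q1 (sq_nonneg _)
  have t8 := min_le_left (2 * ρ ^ 2 * (1 - √(1 - x)) + (1 - β) ^ 2) (2 * ρ ^ 2 * (1 - s) + β ^ 2)
  have t9 := mul_nonneg (sq_nonneg ρ) s0
  linarith

theorem H2 {ρ s β : ℝ} (hρ : 0 ≤ ρ) (hs : 0 ≤ s) (hs' : s ^ 2 ≤ 1 / 2)
    (hβ : β ∈ Set.Icc (0 : ℝ) (1 / 2)) :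
    8 / 25 * min (2 * ρ ^ 2 * (1 - √(1 - s ^ 2)) + (1 - β) ^ 2) (2 * ρ ^ 2 * (1 - s) + β ^ 2) ≤
      sin (π * β) ^ 2 / π ^ 2 + sin (th2 ρ) ^ 2 / π ^ 2 * (1 - 2 * s ^ 2 + cos (π * β)) ^ 2 +
        (sin (th2 ρ) ^ 2 / π ^ 2 + 49 / 200 * h2 ρ ^ 2) * (1 - (1 - 2 * s ^ 2) ^ 2) := by
  have s1 : s ≤ 725 / 1024 := by nlinarith
  rcases le_total ρ 4 with h4 | h4
  · have := Num2_chk_sound (P := fun a b c => Num2_P (a / 1024) (b / 1024) (c / 1024))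
      Num2_tN_sound _ _ _ _ _ _ _ Num2_run (1024 * ρ) (1024 * s) (1024 * β)
      (by push_cast; linarith) (by push_cast; linarith) (by push_cast; linarith)
      (by push_cast; linarith) (by push_cast; linarith [hβ.1]) (by push_cast; linarith [hβ.2])
    rw [mul_div_cancel_left₀ ρ (by norm_num), mul_div_cancel_left₀ s (by norm_num),
      mul_div_cancel_left₀ β (by norm_num)] at this
    exact this hs'
  · exact Num2_far h4 hβ hs'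

end Pool.Agent.Work.MP_0ba68b_gt.CX
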