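import Pool.Agent.Work.MP_0ba68b_gt.CX.Rot
import Pool.Agent.Work.MP_0ba68b_gt.CX.Num2

/-!
An explicit kernel of level `8/25` for the true budget and the ratio `4`.

PLAN.  `K = 527/1000 ρ ρ' + (h2 ρ) (h2 ρ') p2 / 12 + krot 4 th2`.
`nd` of the middle term is `(h - h')²/12 + (h h'/12) 3 (1 - u²) ≥ (hm²/12) 3 (1 - u²)`, `hm = (h + h')/2`
(`h h' = hm² - (h - h')²/4`).  `h2` is `128/100`-Lipschitz, `th2` is `58/100 π`-Lipschitz: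
`up0` from `0.527 + 1.28²/12 + 0.58² ≤ 1`.  `upj` from `Bud`.
Kink: with `r = (ρ + ρ')/2`, `hm ≥ h2 r - (3/10) |Δρ|/4` (write `min L1 L2 = L1 - (L1 - L2)₊`, and
`(z₊ + z'₊)/2 ≤ ((z + z')/2)₊ + |z - z'|/4`; `max 0` is convex, monotone and `1`-Lipschitz), so
`hm² ≥ (49/50) (h2 r)² - 49 (3/40)² Δρ²`.  Angle: the unclamped profile is convex, so by `sin_sq_clamp`
`sin² ((θ + θ')/2) ≥ sin² (th2 r) - (58/100 π)² Δρ²/12`; `ntor_mono`.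
Radial balance: `0.527 - 0.58²/3 - 49 (3/40)²/4 ≥ 8/25`.  Use `ρ ρ' ≤ r²`.
First coordinate: in the cell, `ntor 4 S a b u ≥ ntor 4 S 0 b u + 13 sin² a / π²`
(`1 - cos a ≤ sin² a` on `[0, π/2]`, `S ≤ 1`) and `13 · 4 / π² ≥ 16 · 8/25`.
`ntor 4 S 0 b u = sin² b/π² + A (u - cos b)² + A (1 - u²)`, `A = S/π²`.
If `c² ≥ 1/2` (`c = ‖cin‖`): `m = 0`, `Gl`, `4 c² (1 + c) ≥ 3.41`.  If `c² ≤ 1/2`: `H2` with `s = c`,
`u = -(1 - 2 s²)`, `‖cin x (j x')‖ = √(1 - s²)`; `exists_odd2` for the first term of the minimum.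
Then scale (`AdmL.smul`).
-/

open Real

namespace Pool.Agent.Work.MP_0ba68b_gt.CX

/-- The unclamped angle profile. -/
noncomputable def E2_ph (ρ : ℝ) : ℝ := π * max (ρ / 2) (58 / 100 * ρ - 3 / 100)

lemma E2_th_eq (ρ : ℝ) : th2 ρ = min (E2_ph ρ) (π / 2) := rfl

lemma E2_ph_nonneg {ρ : ℝ} (h : 0 ≤ ρ) : 0 ≤ E2_ph ρ :=
  mul_nonneg pi_pos.le (le_max_of_le_left (by linarith))

lemma E2_th_mem {ρ : ℝ} (h : 0 ≤ ρ) : th2 ρ ∈ Set.Icc 0 (π / 2) :=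
  ⟨le_min (E2_ph_nonneg h) (by positivity), min_le_right _ _⟩

lemma E2_ph_lip (ρ ρ' : ℝ) : |E2_ph ρ - E2_ph ρ'| ≤ 58 / 100 * π * |ρ - ρ'| := by
  have h1 : |max (ρ / 2) (58 / 100 * ρ - 3 / 100) - max (ρ' / 2) (58 / 100 * ρ' - 3 / 100)| ≤
      58 / 100 * |ρ - ρ'| := by
    refine (abs_max_sub_max_le_max _ _ _ _).trans (max_le ?_ ?_)
    · rw [show ρ / 2 - ρ' / 2 = 1 / 2 * (ρ - ρ') by ring, abs_mul, abs_of_pos one_half_pos]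
      linarith [abs_nonneg (ρ - ρ')]
    · rw [show 58 / 100 * ρ - 3 / 100 - (58 / 100 * ρ' - 3 / 100) = 58 / 100 * (ρ - ρ') by ring,
        abs_mul, abs_of_pos (by norm_num : (0 : ℝ) < 58 / 100)]
  unfold E2_ph
  rw [← mul_sub, abs_mul, abs_of_pos pi_pos]
  calc _ ≤ π * (58 / 100 * |ρ - ρ'|) := mul_le_mul_of_nonneg_left h1 pi_pos.le
    _ = _ := by ring

lemma E2_sq_le {x y k : ℝ} (h : |x| ≤ k * |y|) : x ^ 2 ≤ k ^ 2 * y ^ 2 := by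
  have h1 := pow_le_pow_left₀ (abs_nonneg x) h 2
  rwa [mul_pow, sq_abs, sq_abs] at h1

lemma E2_th_lip (ρ ρ' : ℝ) : (th2 ρ - th2 ρ') ^ 2 / π ^ 2 ≤ (58 / 100) ^ 2 * (ρ - ρ') ^ 2 := by
  have h1 : |th2 ρ - th2 ρ'| ≤ 58 / 100 * π * |ρ - ρ'| := by
    rw [E2_th_eq, E2_th_eq]
    refine (abs_min_sub_min_le_max _ _ _ _).trans (max_le (E2_ph_lip ρ ρ') ?_)
    rw [sub_self, abs_zero]
    positivity
  rw [div_le_iff₀ (by positivity)]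
  exact (E2_sq_le h1).trans_eq (by ring)

lemma E2_h_lip (ρ ρ' : ℝ) : (h2 ρ - h2 ρ') ^ 2 ≤ (128 / 100) ^ 2 * (ρ - ρ') ^ 2 := by
  refine E2_sq_le ?_
  unfold h2
  refine (abs_max_sub_max_le_max _ _ _ _).trans (max_le ?_ ?_)
  · rw [sub_self, abs_zero]
    positivity
  refine (abs_min_sub_min_le_max _ _ _ _).trans (max_le ?_ ?_)
  · rw [← mul_sub, show ρ - 42 / 100 - (ρ' - 42 / 100) = ρ - ρ' by ring, abs_mul,
      abs_of_pos (by norm_num : (0 : ℝ) < 128 / 100)]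
  · rw [show 98 / 100 * ρ - 17 / 100 - (98 / 100 * ρ' - 17 / 100) = 98 / 100 * (ρ - ρ') by ring,
      abs_mul, abs_of_pos (by norm_num : (0 : ℝ) < 98 / 100)]
    linarith [abs_nonneg (ρ - ρ')]

lemma E2_h_nonneg (ρ : ℝ) : 0 ≤ h2 ρ := le_max_left _ _

lemma E2_kink (ρ ρ' : ℝ) : h2 ((ρ + ρ') / 2) ≤ (h2 ρ + h2 ρ') / 2 + 3 / 40 * |ρ - ρ'| := by
  have h1 := E2_h_nonneg ρ
  have h2' := E2_h_nonneg ρ'
  have h3 : min (128 / 100 * (ρ - 42 / 100)) (98 / 100 * ρ - 17 / 100) ≤ h2 ρ := le_max_right _ _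
  have h4 : min (128 / 100 * (ρ' - 42 / 100)) (98 / 100 * ρ' - 17 / 100) ≤ h2 ρ' :=
    le_max_right _ _
  have h5 := le_abs_self (ρ - ρ')
  have h6 := neg_abs_le (ρ - ρ')
  refine max_le (by linarith only [h1, h2', h5, h6]) ?_
  have h7 := min_le_left (128 / 100 * ((ρ + ρ') / 2 - 42 / 100))
    (98 / 100 * ((ρ + ρ') / 2) - 17 / 100)
  have h8 := min_le_right (128 / 100 * ((ρ + ρ') / 2 - 42 / 100))
    (98 / 100 * ((ρ + ρ') / 2) - 17 / 100)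
  rcases min_le_iff.1 h3 with h | h <;> rcases min_le_iff.1 h4 with h' | h' <;> linarith

lemma E2_mid {h h' X D w : ℝ} (hX : 0 ≤ X) (hk : X ≤ (h + h') / 2 + 3 / 40 * |D|)
    (hw : 0 ≤ w) (hw1 : w ≤ 1) :
    49 / 200 * X ^ 2 * w - 49 / 4 * (3 / 40) ^ 2 * D ^ 2 ≤
      1 / 12 * ((h - h') ^ 2 + h * h' * (3 * w)) := by
  have h1 : X ^ 2 ≤ ((h + h') / 2 + 3 / 40 * |D|) ^ 2 := pow_le_pow_left₀ hX hk 2
  have h2 : 49 / 50 * X ^ 2 ≤ ((h + h') / 2) ^ 2 + 49 * (3 / 40) ^ 2 * D ^ 2 := by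
    rw [← sq_abs D]
    nlinarith [sq_nonneg ((h + h') / 2 - 49 * (3 / 40 * |D|))]
  have h3 := mul_le_mul_of_nonneg_right h2 hw
  have h4 := mul_le_mul_of_nonneg_left hw1 (sq_nonneg D)
  have h5 := mul_le_mul_of_nonneg_left hw1 (sq_nonneg (h - h'))
  nlinarith only [h3, h4, h5, sq_nonneg (h - h')]

lemma E2_angle {ρ ρ' : ℝ} (h : 0 ≤ ρ) (h' : 0 ≤ ρ') :
    sin (th2 ((ρ + ρ') / 2)) ^ 2 - (58 / 100 * π) ^ 2 * (ρ - ρ') ^ 2 / 12 ≤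
      sin ((th2 ρ + th2 ρ') / 2) ^ 2 := by
  have h1 := sin_sq_clamp (E2_ph_nonneg h) (E2_ph_nonneg h')
  have h2 := E2_sq_le (E2_ph_lip ρ ρ')
  have h3 : E2_ph ((ρ + ρ') / 2) ≤ (E2_ph ρ + E2_ph ρ') / 2 := by
    unfold E2_ph
    rw [← mul_add, mul_div_assoc]
    refine mul_le_mul_of_nonneg_left (max_le ?_ ?_) pi_pos.le
    · linarith [le_max_left (ρ / 2) (58 / 100 * ρ - 3 / 100),
        le_max_left (ρ' / 2) (58 / 100 * ρ' - 3 / 100)]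
    · linarith [le_max_right (ρ / 2) (58 / 100 * ρ - 3 / 100),
        le_max_right (ρ' / 2) (58 / 100 * ρ' - 3 / 100)]
  have h4 := E2_th_mem (ρ := (ρ + ρ') / 2) (by linarith only [h, h'])
  have h5 : sin (th2 ((ρ + ρ') / 2)) ≤ sin (min ((E2_ph ρ + E2_ph ρ') / 2) (π / 2)) :=
    sin_le_sin_of_le_of_le_pi_div_two (by linarith [h4.1, pi_pos]) (min_le_right _ _)
      (min_le_min_right _ h3)
  have h6 := pow_le_pow_left₀ (sin_nonneg_of_nonneg_of_le_pi h4.1 (by linarith only [h4.2, pi_pos])) h5 2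
  rw [E2_th_eq ρ, E2_th_eq ρ']
  linarith

lemma E2_sin {a : ℝ} (ha : a ∈ Set.Icc (0 : ℝ) (1 / 2)) : 4 * a ^ 2 ≤ sin (π * a) ^ 2 := by
  have h1 : 2 / π * (π * a) ≤ sin (π * a) :=
    mul_le_sin (mul_nonneg pi_pos.le ha.1) (by nlinarith [ha.2, pi_pos])
  rw [← mul_assoc, div_mul_cancel₀ _ pi_pos.ne'] at h1
  have h2 := pow_le_pow_left₀ (by linarith [ha.1]) h1 2
  linarith

lemma E2_cos {a : ℝ} (ha : a ∈ Set.Icc (0 : ℝ) (1 / 2)) : 0 ≤ cos (π * a) :=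
  cos_nonneg_of_mem_Icc ⟨by nlinarith [ha.1, pi_pos], by nlinarith [ha.2, pi_pos]⟩

lemma E2_pi : π ^ 2 ≤ 10 := by nlinarith [pi_lt_d2, pi_pos]

lemma E2_first {S a b u : ℝ} (hS : 0 ≤ S) (hS1 : S ≤ 1) (ha : a ∈ Set.Icc (0 : ℝ) (1 / 2))
    (hu : |u| ≤ 1) : 8 / 25 * (16 * a ^ 2) +
      (sin b ^ 2 / π ^ 2 + S / π ^ 2 * (cos b - u) ^ 2 + S / π ^ 2 * (1 - u ^ 2)) ≤
        ntor 4 S (π * a) b u := by
  have h1 := E2_sin ha
  have h2 := E2_cos ha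
  have h3 := cos_le_one (π * a)
  have h4 := sin_sq_add_cos_sq (π * a)
  have h5 : -1 ≤ u * cos b := by
    have : |u * cos b| ≤ 1 := by
      rw [abs_mul]
      exact mul_le_one₀ hu (abs_nonneg _) (abs_cos_le_one b)
    exact (abs_le.1 this).1
  have h6 : 1 - cos (π * a) ≤ sin (π * a) ^ 2 := by nlinarith only [h4, h2, h3]
  have h7 : -(3 * sin (π * a) ^ 2) ≤
      -sin (π * a) ^ 2 + 2 * (u * cos b) * (1 - cos (π * a)) := by nlinarith only [h6, h3, h5]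
  have h8 : -(3 * sin (π * a) ^ 2) ≤
      S * (-sin (π * a) ^ 2 + 2 * (u * cos b) * (1 - cos (π * a))) := by
    nlinarith only [hS1, hS, h7, sq_nonneg (sin (π * a))]
  have h9 : 8 / 25 * (16 * a ^ 2) * π ^ 2 ≤ 13 * sin (π * a) ^ 2 := by
    nlinarith only [h1, E2_pi, sq_nonneg a]
  have hp : 0 < π ^ 2 := by positivity
  unfold ntor
  rw [le_div_iff₀ hp]
  have e : (8 / 25 * (16 * a ^ 2) +
      (sin b ^ 2 / π ^ 2 + S / π ^ 2 * (cos b - u) ^ 2 + S / π ^ 2 * (1 - u ^ 2))) * π ^ 2 =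
      8 / 25 * (16 * a ^ 2) * π ^ 2 + (sin b ^ 2 + S * (cos b - u) ^ 2 + S * (1 - u ^ 2)) := by
    field_simp
  have e2 : cos (π * a) ^ 2 = 1 - sin (π * a) ^ 2 := by linarith only [h4]
  rw [e, e2]
  nlinarith only [h8, h9]

/-- The reduced lower bound. -/
noncomputable def E2_T (r s β : ℝ) : ℝ :=
  sin (π * β) ^ 2 / π ^ 2 + sin (th2 r) ^ 2 / π ^ 2 * (1 - 2 * s ^ 2 + cos (π * β)) ^ 2 +
    (sin (th2 r) ^ 2 / π ^ 2 + 49 / 200 * h2 r ^ 2) * (1 - (1 - 2 * s ^ 2) ^ 2)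

lemma E2_min {r s β : ℝ} (hr : 0 ≤ r) (hs : 0 ≤ s) (hs1 : s ≤ 1)
    (hβ : β ∈ Set.Icc (0 : ℝ) (1 / 2)) :
    8 / 25 * min (2 * r ^ 2 * (1 - √(1 - s ^ 2)) + (1 - β) ^ 2) (2 * r ^ 2 * (1 - s) + β ^ 2) ≤
      E2_T r s β := by
  rcases le_total (s ^ 2) (1 / 2) with h | h
  · exact H2 hr hs h hβ
  have h1 := min_le_right (2 * r ^ 2 * (1 - √(1 - s ^ 2)) + (1 - β) ^ 2)
    (2 * r ^ 2 * (1 - s) + β ^ 2)
  have h2' : 8 / 25 * β ^ 2 ≤ sin (π * β) ^ 2 / π ^ 2 := by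
    rw [le_div_iff₀ (by positivity)]
    nlinarith only [E2_sin hβ, E2_pi, sq_nonneg β]
  have h3 : 0 ≤ sin (th2 r) ^ 2 / π ^ 2 * (1 - 2 * s ^ 2 + cos (π * β)) ^ 2 := by positivity
  have h4 : 7 / 10 ≤ s := by nlinarith only [h, hs]
  have h5 : 34 / 10 * (1 - s) ≤ 1 - (1 - 2 * s ^ 2) ^ 2 := by
    have e : 1 - (1 - 2 * s ^ 2) ^ 2 = 4 * (s ^ 2 * (1 + s)) * (1 - s) := by ring
    have : 1 / 2 * (17 / 10) ≤ s ^ 2 * (1 + s) :=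
      mul_le_mul h (by linarith only [h4]) (by norm_num) (sq_nonneg s)
    rw [e]
    exact mul_le_mul_of_nonneg_right (by linarith only [this]) (by linarith)
  have h6 := mul_le_mul (Gl hr) h5 (by linarith only [hs1]) ((by positivity : (0 : ℝ) ≤ _).trans (Gl hr))
  have h7 : 0 ≤ r ^ 2 * (1 - s) := mul_nonneg (sq_nonneg r) (by linarith only [hs1])
  unfold E2_T
  nlinarith

lemma E2_low {ρ ρ' a β c : ℝ} (h : 0 ≤ ρ) (h' : 0 ≤ ρ') (ha : a ∈ Set.Icc (0 : ℝ) (1 / 2))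
    (hc : 0 ≤ c) (hc1 : c ≤ 1) :
    8 / 25 * ((ρ - ρ') ^ 2 + 16 * a ^ 2) + E2_T ((ρ + ρ') / 2) c β ≤
      527 / 1000 * (ρ - ρ') ^ 2 +
        1 / 12 * ((h2 ρ - h2 ρ') ^ 2 + h2 ρ * h2 ρ' * (3 * (1 - (2 * c ^ 2 - 1) ^ 2))) +
        ntor 4 (sin ((th2 ρ + th2 ρ') / 2) ^ 2) (π * a) (π * β) (2 * c ^ 2 - 1) := by
  have hc2 : c ^ 2 ≤ 1 := pow_le_one₀ hc hc1
  have hu : |2 * c ^ 2 - 1| ≤ 1 := abs_le.2 ⟨by nlinarith, by linarith⟩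
  have hw : 0 ≤ 1 - (2 * c ^ 2 - 1) ^ 2 := by
    rw [← sq_abs]
    linarith [pow_le_one₀ (n := 2) (abs_nonneg _) hu]
  have h1 := E2_mid (E2_h_nonneg _) (E2_kink ρ ρ') hw (by linarith [sq_nonneg (2 * c ^ 2 - 1)])
  have h2' := ntor_mono 4 (π * a) (π * β) hu (by positivity) (E2_angle h h')
  have h3 := E2_first (S := sin (th2 ((ρ + ρ') / 2)) ^ 2) (b := π * β) (sq_nonneg _)
    (sin_sq_le_one _) ha hu
  have e : 4 * ((58 / 100 * π) ^ 2 * (ρ - ρ') ^ 2 / 12) / π ^ 2 =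
      (58 / 100) ^ 2 / 3 * (ρ - ρ') ^ 2 := by
    field_simp
    ring
  have e2 : E2_T ((ρ + ρ') / 2) c β = sin (π * β) ^ 2 / π ^ 2 +
      sin (th2 ((ρ + ρ') / 2)) ^ 2 / π ^ 2 * (cos (π * β) - (2 * c ^ 2 - 1)) ^ 2 +
      sin (th2 ((ρ + ρ') / 2)) ^ 2 / π ^ 2 * (1 - (2 * c ^ 2 - 1) ^ 2) +
      49 / 200 * h2 ((ρ + ρ') / 2) ^ 2 * (1 - (2 * c ^ 2 - 1) ^ 2) := by
    unfold E2_T
    ring
  rw [e] at h2'
  rw [e2]
  linarith [sq_nonneg (ρ - ρ')]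

/-- The kernel. -/
noncomputable def E2_K {I : Set ℝ} (p p' : Pt I) : ℝ :=
  527 / 1000 * (rho p.1 * rho p'.1) + 1 / 12 * (h2 (rho p.1) * h2 (rho p'.1) * p2 p.2 p'.2) +
    krot 4 (fun r => th2 |r|) p p'

lemma E2_base {I : Set ℝ} : BaseK (E2_K : Pt I → Pt I → ℝ) :=
  (((baseK_radial id).smul (c := 527 / 1000) (by norm_num)).add
    ((baseK_p2 h2).smul (c := 1 / 12) (by norm_num))).add (krot_base (by norm_num) _)

lemma E2_nd {I : Set ℝ} (p p' : Pt I) : nd E2_K p p' = 527 / 1000 * (rho p.1 - rho p'.1) ^ 2 +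
    1 / 12 * ((h2 (rho p.1) - h2 (rho p'.1)) ^ 2 +
      h2 (rho p.1) * h2 (rho p'.1) * (3 * (1 - uu p.2 p'.2 ^ 2))) +
    nd (krot 4 fun r => th2 |r|) p p' := by
  simp only [nd, E2_K, p2_self]
  simp only [p2]
  ring

lemma E2_cell {I : Set ℝ} (p q : Pt I) (h : 0 ≤ rho p.1) (h' : 0 ≤ rho q.1)
    (h1 : |p.1.2.1 - q.1.2.1| ≤ 1 / 2) (h2' : |p.1.2.2 - q.1.2.2| ≤ 1 / 2) :
    ∃ m, 8 / 25 * rep 4 p (gam m q) ≤ nd E2_K p q := by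
  have hc := norm_nonneg (cin p.2 q.2)
  have hc1 := norm_cin_le p.2 q.2
  have k1 := krot_low 4 (fun r => th2 |r|) p q
  rw [← ntor_abs, abs_mul, abs_mul, abs_of_pos pi_pos, abs_of_nonneg h, abs_of_nonneg h'] at k1
  have k2 := E2_low (β := |p.1.2.2 - q.1.2.2|) h h' ⟨abs_nonneg _, h1⟩ hc hc1
  have k3 := E2_min (r := (rho p.1 + rho q.1) / 2) (by linarith only [h, h']) hc hc1 ⟨abs_nonneg _, h2'⟩
  have k4 : rho p.1 * rho q.1 ≤ ((rho p.1 + rho q.1) / 2) ^ 2 := by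
    nlinarith only [sq_nonneg (rho p.1 - rho q.1)]
  rw [E2_nd]
  unfold uu at k1 ⊢
  rw [sq_abs] at k2
  rcases min_le_iff.1 (le_refl (min (2 * ((rho p.1 + rho q.1) / 2) ^ 2 *
      (1 - √(1 - ‖cin p.2 q.2‖ ^ 2)) + (1 - |p.1.2.2 - q.1.2.2|) ^ 2)
      (2 * ((rho p.1 + rho q.1) / 2) ^ 2 * (1 - ‖cin p.2 q.2‖) + |p.1.2.2 - q.1.2.2| ^ 2)))
    with k5 | k5
  · obtain ⟨m, hm⟩ := exists_odd2 4 p q h2'
    refine ⟨m, ?_⟩
    have e : ‖cin p.2 ((jj * q.2 : S3) : Quaternion ℝ)‖ = √(1 - ‖cin p.2 q.2‖ ^ 2) := by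
      rw [← eq_sub_of_add_eq' (norm_cin_sq_add p.2 q.2), sqrt_sq (norm_nonneg _),
        Metric.unitSphere.coe_mul]
    have k6 : 0 ≤ 1 - √(1 - ‖cin p.2 q.2‖ ^ 2) := by
      rw [← e]
      linarith only [norm_cin_le p.2 (jj * q.2)]
    have k7 := mul_le_mul_of_nonneg_right k4 k6
    rw [hm, ang, e]
    linarith
  · refine ⟨0, ?_⟩
    have k7 := mul_le_mul_of_nonneg_right k4 (sub_nonneg.2 hc1)
    rw [sq_abs] at k5 k3
    rw [gam_zero, rep, Dsq, sg, angP, ang]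
    linarith

theorem feas_E2_one : Feas 4 1 (8 / 25) := by
  intro R hR
  have hρ : ∀ a : Ax (IR R), 0 ≤ rho a := fun a => (rho_pos (by linarith) a).le
  refine ⟨E2_K, adm_of_exists E2_base (by norm_num) (fun a a' x => ?_) (fun a t ht => ?_)
    fun p p' => ?_⟩
  · have k1 := krot_up0 (y := 4) (θ := fun r => th2 |r|) (by norm_num)
      (fun r => E2_th_mem (abs_nonneg r)) a a' x
    rw [abs_of_nonneg (hρ a), abs_of_nonneg (hρ a')] at k1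
    have k2 := E2_th_lip (rho a) (rho a')
    have k3 := E2_h_lip (rho a) (rho a')
    rw [E2_nd, Dsq]
    simp only [uu_self]
    nlinarith [sq_nonneg (rho a - rho a')]
  · have e : uu 1 (ej t) = cos (2 * t) := by
      refine uu_of_cos ?_
      rw [Metric.unitSphere.coe_one, cin_one_ej, Complex.norm_real,
        Real.norm_of_nonneg (cos_nonneg_of_mem_Icc ⟨by linarith [ht.1, pi_pos], ht.2⟩)]
    have k1 : 1 - cos (2 * t) ^ 2 ≤ 4 * t ^ 2 := by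
      have := sin_sq_le_sq (x := 2 * t)
      linarith [sin_sq_add_cos_sq (2 * t)]
    have k2 : 1 - cos (2 * t) ≤ 2 * t ^ 2 := by
      have := one_sub_sq_div_two_le_cos (x := 2 * t)
      linarith
    have k3 := mul_le_mul_of_nonneg_right (Bud (hρ a)) (sq_nonneg t)
    have k4 := mul_le_mul_of_nonneg_left k1 (sq_nonneg (h2 (rho a)))
    have k5 := mul_le_mul_of_nonneg_left k2
      (by positivity : 0 ≤ 2 * sin (th2 (rho a)) ^ 2 / π ^ 2)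
    rw [E2_nd, krot_upj]
    simp only [e, abs_of_nonneg (hρ a)]
    have e2 : 2 * sin (th2 (rho a)) ^ 2 * (1 - cos (2 * t)) / π ^ 2 =
        2 * sin (th2 (rho a)) ^ 2 / π ^ 2 * (1 - cos (2 * t)) := by ring
    have e3 : 2 * sin (th2 (rho a)) ^ 2 / π ^ 2 * (2 * t ^ 2) =
        4 * sin (th2 (rho a)) ^ 2 / π ^ 2 * t ^ 2 := by ring
    rw [e2]
    rw [e3] at k5
    nlinarith only [k3, k4, k5]
  · obtain ⟨m, h1, h2'⟩ := exists_cell p p'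
    obtain ⟨m', hm⟩ := E2_cell p (gam m p') (hρ _) (hρ _) h1 h2'
    rw [gam_add, E2_base.nd_gam] at hm
    exact ⟨_, hm⟩

theorem feas_E2 {b lam : ℝ} (hb : 0 ≤ b) (hb1 : b ≤ 1) (hl : lam ≤ 8 / 25 * b) :
    Feas 4 b lam := by
  intro R hR
  obtain ⟨K, hK⟩ := feas_E2_one R hR
  refine ⟨_, (hK.smul hb hb1).mono (mul_one b).le fun p p' _ => ?_⟩
  have h0 : 0 ≤ rep 4 p p' := add_nonneg (Dsq_nonneg _ _ _)
    (ang_nonneg (rho_pos (by linarith) _).le (rho_pos (by linarith) _).le _ _)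
  nlinarith [mul_le_mul_of_nonneg_right hl h0]

end Pool.Agent.Work.MP_0ba68b_gt.CX
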