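import Pool.Agent.Work.MP_0ba68b_gt.Basic
import Pool.Agent.Work.MP_0ba68b_gt.CX.Base2

/-!
The dual certificate: for the square lattice the level `ℓ²` is not feasible.

PLAN.  `R = 2`, radius `ρ = √(1/2)`.  Average over translations (`AdmL.avg`), take a Gram map `F`
(`PSD.exists_map`), `G t s₁ s₂ = F ((ρ, s₁, s₂), ej t)`, `G± = (G t ± G (t + π/2)) / 2`
(`ej (π/2) = jj`; `G (t + π) = G t` by `uinv`; `G (t + π/2) (s₁ + 1) s₂ = G t s₁ s₂` by `ginv`; equality of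
vectors from `nd = 0`).  The kernel `⟪G t s, G t' s'⟫` depends on `t - t'` only through
`|cos (t - t')|` (`eq_of_norm`, `rinv`) and on `s - s'`.  So `⟪G+, G-⟫ = 0`, `N = N+ + N-`,
`‖G-‖² = M` is constant, `G-` changes sign under `t + π/2`, `s₁ + 1`, `s₂ + 1`, and `G+` is invariant.
Pairs: `P1 = (0,0,0), (π/4, 1/2, 1/2)`, minimal with `rep = 1/2 + (1 - cos (π/4))`;
`P2 = (0,0,0), (0,0,1)`, minimal with `rep = 1`.  `N-(P1) = 2M` (the odd kernel vanishes at `t = π/4`),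
`N-(P2) = 4M`, `N+(P2) = 0`, and `N+(P1) ≤ N+(π/4,0,0) + N+(0,1/2,0) + N+(0,0,1/2)` by the quadrilateral
inequality `‖a-d‖² + ‖b-c‖² ≤ ‖a-b‖² + ‖b-d‖² + ‖d-c‖² + ‖c-a‖²` twice (both diagonals are equal; use the
period `1` of `G+`).  For each of the three directions, with `k = 50` steps in a quarter of the period
`2T` of `G-` (`T = π/2, 1, 1`; step `h = T/(2k)`): `chain_long` (Basic.lean) for `G-` over `2k` steps gives
`4 M sin² (π/(4k)) ≤ N-(h)`, and for `i ↦ G+ (i h + T/2) - G+ (i h)` over `k` steps gives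
`N+(T/2) sin² (π/(2k)) ≤ N+(h)`; since `sin² (π/2k) ≤ 4 sin² (π/4k)`,
`(N+(T/2) + M) sin² (π/(2k)) ≤ N(h) ≤ budget h²` (treat a zero norm separately).  Sum:
`lam (1/2 + 1 - √2/2 + 1/4) ≤ (1/8 + 2/π²) (x / sin x)²`, `x = π/100`, which is `< 0.315 · 1.04289`.
-/

open Real

namespace Pool.Agent.Work.MP_0ba68b_gt.CX

section Abs
open scoped RealInnerProductSpace
variable {H V : Type} [NormedAddCommGroup H] [InnerProductSpace ℝ H] [AddCommGroup V] [Module ℝ V]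

theorem E3_chain (v : ℕ → H) {k : ℕ} (hk : 0 < k) {c d : ℝ} (h0 : v k = -v 0)
    (h1 : ∀ i, ‖v i‖ ^ 2 = c) (h2 : ∀ i, ‖v i - v (i + 1)‖ ^ 2 ≤ d) :
    4 * c * sin (π / (2 * k)) ^ 2 ≤ d := by
  have hd : 0 ≤ d := (sq_nonneg _).trans (h2 0)
  have hc : 0 ≤ c := h1 0 ▸ sq_nonneg _
  rcases hc.eq_or_lt with h | h
  · rw [← h, mul_zero, zero_mul]
    exact hd
  have h3 := chain_long hk (sqrt_pos.2 h) (sqrt_nonneg d) h0
    (fun i => by rw [← h1 i, sqrt_sq (norm_nonneg _)])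
    (fun i => le_sqrt_of_sq_le (h2 i))
  have hk1 : (1 : ℝ) ≤ k := by exact_mod_cast hk
  have h4 : 0 ≤ sin (π / (2 * k)) :=
    sin_nonneg_of_nonneg_of_le_pi (by positivity) (div_le_self pi_pos.le (by linarith))
  have h5 := pow_le_pow_left₀ (by positivity) h3 2
  rw [mul_pow, mul_pow, sq_sqrt hc, sq_sqrt hd] at h5
  linarith only [h5]

theorem E3_dir (A B : V → H) (np nm : V → ℝ) (M : ℝ) (hA : ∀ u w, ‖A u - A (u + w)‖ ^ 2 = np w)
    (hB : ∀ u w, ‖B u - B (u + w)‖ ^ 2 = nm w) (hM : ∀ u, ‖B u‖ ^ 2 = M) (d : V)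
    (pA : ∀ u, A (u + d) = A u) (pB : ∀ u, B (u + d) = -B u) :
    (np ((1 / 2 : ℝ) • d) + M) * sin (π / 100) ^ 2 ≤
      np ((1 / 100 : ℝ) • d) + nm ((1 / 100 : ℝ) • d) := by
  have st : ∀ i : ℕ, ((i + 1 : ℕ) / 100 : ℝ) • d = (i / 100 : ℝ) • d + (1 / 100 : ℝ) • d := by
    intro i
    rw [← add_smul]
    push_cast
    rw [add_div]
  have h1 := E3_chain (fun i : ℕ => B ((i / 100 : ℝ) • d)) (k := 100) (by norm_num) (c := M)
    (d := nm ((1 / 100 : ℝ) • d)) (by simpa using pB 0) (fun i => hM _)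
    (fun i => by rw [st, hB])
  have h2 := E3_chain
    (fun i : ℕ => A ((i / 100 : ℝ) • d) - A ((i / 100 : ℝ) • d + (1 / 2 : ℝ) • d)) (k := 50)
    (by norm_num) (c := np ((1 / 2 : ℝ) • d)) (d := 4 * np ((1 / 100 : ℝ) • d)) ?_
    (fun i => hA _ _) ?_
  · have hM0 : 0 ≤ M := hM 0 ▸ sq_nonneg _
    have e1 : π / (2 * ((50 : ℕ) : ℝ)) = π / 100 := by
      push_cast
      ring
    have e2 : π / 100 = 2 * (π / (2 * ((100 : ℕ) : ℝ))) := by
      push_cast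
      ring
    have h3 : sin (π / 100) ^ 2 ≤ 4 * sin (π / (2 * ((100 : ℕ) : ℝ))) ^ 2 := by
      rw [e2, sin_two_mul]
      have h4 := mul_le_mul_of_nonneg_left (cos_sq_le_one (π / (2 * ((100 : ℕ) : ℝ))))
        (sq_nonneg (sin (π / (2 * ((100 : ℕ) : ℝ)))))
      linarith only [h4]
    rw [e1] at h2
    have h4 := mul_le_mul_of_nonneg_left h3 hM0
    linarith
  · have e1 : (((50 : ℕ) : ℝ) / 100) = 1 / 2 := by norm_num
    have e2 : (1 / 2 : ℝ) • d + (1 / 2 : ℝ) • d = 0 + d := by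
      rw [← add_smul, zero_add, add_halves, one_smul]
    simp only [e1, e2, pA, Nat.cast_zero, zero_div, zero_smul, zero_add, neg_sub]
    rw [← pA 0, zero_add]
  · intro i
    have a1 := hA ((i / 100 : ℝ) • d) ((1 / 100 : ℝ) • d)
    have a2 := hA ((i / 100 : ℝ) • d + (1 / 2 : ℝ) • d) ((1 / 100 : ℝ) • d)
    rw [st, add_right_comm _ ((1 / 100 : ℝ) • d), sub_sub_sub_comm]
    generalize A ((i / 100 : ℝ) • d) - A ((i / 100 : ℝ) • d + (1 / 100 : ℝ) • d) = x at a1 ⊢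
    generalize A ((i / 100 : ℝ) • d + (1 / 2 : ℝ) • d) -
      A ((i / 100 : ℝ) • d + (1 / 2 : ℝ) • d + (1 / 100 : ℝ) • d) = y at a2 ⊢
    have a3 := parallelogram_law_with_norm ℝ x y
    have a4 := mul_self_nonneg ‖x + y‖
    nlinarith only [a1, a2, a3]

theorem E3_four (x y z : H) :
    ‖z‖ ^ 2 + ‖y - x‖ ^ 2 ≤ ‖x‖ ^ 2 + ‖z - x‖ ^ 2 + ‖z - y‖ ^ 2 + ‖y‖ ^ 2 := by
  have h := sq_nonneg ‖x + y - z‖
  rw [norm_sub_sq_real, norm_add_sq_real, inner_add_left] at h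
  rw [norm_sub_sq_real, norm_sub_sq_real, norm_sub_sq_real, real_inner_comm x y,
    real_inner_comm x z, real_inner_comm y z]
  linarith

theorem E3_quad (A : V → H) (np : V → ℝ) (hA : ∀ u w, ‖A u - A (u + w)‖ ^ 2 = np w) (d q : V)
    (pA : ∀ u, A (u + d) = A u) : np ((1 / 2 : ℝ) • d + q) ≤ np ((1 / 2 : ℝ) • d) + np q := by
  have e0 : (1 / 2 : ℝ) • d + (1 / 2 : ℝ) • d = d := by rw [← add_smul, add_halves, one_smul]
  generalize (1 / 2 : ℝ) • d = p at e0 ⊢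
  have h := E3_four (A 0 - A p) (A 0 - A q) (A 0 - A (p + q))
  have a1 := hA 0 p
  have a2 := hA 0 q
  have a3 := hA 0 (p + q)
  have a4 := hA p q
  have a5 := hA q p
  have a6 := hA p (p + q)
  have e1 : p + (p + q) = q + d := by rw [← add_assoc, e0, add_comm]
  rw [e1, pA] at a6
  rw [zero_add] at a1 a2 a3
  rw [add_comm q p] at a5
  simp only [sub_sub_sub_cancel_left] at h
  linarith

theorem E3_abs (G : V → H) (κ : V → ℝ) (hG : ∀ u w, ⟪G u, G (u + w)⟫ = κ w) (e f g : V)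
    (he : ∀ u, G (u + e + e) = G u) (hf : ∀ u, G (u + e + f) = G u)
    (hg : ∀ u, G (u + e + g) = G u)
    (ho : κ ((1 / 2 : ℝ) • e + ((1 / 2 : ℝ) • f + (1 / 2 : ℝ) • g) + e) =
      κ ((1 / 2 : ℝ) • e + ((1 / 2 : ℝ) • f + (1 / 2 : ℝ) • g))) :
    (2 * κ 0 - 2 * κ ((1 / 2 : ℝ) • e + ((1 / 2 : ℝ) • f + (1 / 2 : ℝ) • g)) +
        (2 * κ 0 - 2 * κ g) / 4) * sin (π / 100) ^ 2 ≤
      (2 * κ 0 - 2 * κ ((1 / 100 : ℝ) • e)) + (2 * κ 0 - 2 * κ ((1 / 100 : ℝ) • f)) +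
        (2 * κ 0 - 2 * κ ((1 / 100 : ℝ) • g)) := by
  have k2 : ∀ u w, ⟪G u, G (u + w + e)⟫ = κ (w + e) := fun u w => by rw [add_assoc, hG]
  have k3 : ∀ u w, ⟪G (u + e), G (u + w)⟫ = κ (w + e) := fun u w => by
    rw [← he (u + w), show u + w + e + e = u + e + (w + e) by abel, hG]
  have k4 : ∀ u w, ⟪G (u + e), G (u + w + e)⟫ = κ w := fun u w => by
    rw [add_right_comm u w e, hG]
  let A : V → H := fun u => (1 / 2 : ℝ) • (G u + G (u + e))
  let B : V → H := fun u => (1 / 2 : ℝ) • (G u - G (u + e))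
  have iA : ∀ u w, ⟪A u, A (u + w)⟫ = (κ w + κ (w + e)) / 2 := fun u w => by
    simp only [A, real_inner_smul_left, real_inner_smul_right, inner_add_left, inner_add_right,
      hG, k2, k3, k4]
    ring
  have iB : ∀ u w, ⟪B u, B (u + w)⟫ = (κ w - κ (w + e)) / 2 := fun u w => by
    simp only [B, real_inner_smul_left, real_inner_smul_right, inner_sub_left, inner_sub_right,
      hG, k2, k3, k4]
    ring
  have nA : ∀ u, ‖A u‖ ^ 2 = (κ 0 + κ e) / 2 := fun u => by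
    have h := iA u 0
    rwa [add_zero, zero_add, real_inner_self_eq_norm_sq] at h
  have nB : ∀ u, ‖B u‖ ^ 2 = (κ 0 - κ e) / 2 := fun u => by
    have h := iB u 0
    rwa [add_zero, zero_add, real_inner_self_eq_norm_sq] at h
  have hA : ∀ u w, ‖A u - A (u + w)‖ ^ 2 = (fun w => κ 0 + κ e - κ w - κ (w + e)) w :=
    fun u w => by
      rw [norm_sub_sq_real, nA, nA, iA]
      ring
  have hB : ∀ u w, ‖B u - B (u + w)‖ ^ 2 = (fun w => κ 0 - κ e - κ w + κ (w + e)) w :=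
    fun u w => by
      rw [norm_sub_sq_real, nB, nB, iB]
      ring
  have per : ∀ d, (∀ u, G (u + e + d) = G u) →
      (∀ u, A (u + d) = A u) ∧ ∀ u, B (u + d) = -B u := by
    intro d hd
    have a1 : ∀ u, G (u + d + e) = G u := fun u => by rw [add_right_comm, hd]
    have a2 : ∀ u, G (u + d) = G (u + e) := fun u => by
      rw [← he (u + d), show u + d + e + e = u + e + e + d by abel, hd]
    constructor
    · intro u
      simp only [A, a1, a2]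
      rw [add_comm]
    · intro u
      simp only [B, a1, a2]
      rw [← smul_neg, neg_sub]
  have d1 := E3_dir A B _ _ _ hA hB nB e (per e he).1 (per e he).2
  have d2 := E3_dir A B _ _ _ hA hB nB f (per f hf).1 (per f hf).2
  have d3 := E3_dir A B _ _ _ hA hB nB g (per g hg).1 (per g hg).2
  have q1 := E3_quad A _ hA e ((1 / 2 : ℝ) • f + (1 / 2 : ℝ) • g) (per e he).1
  have q2 := E3_quad A _ hA f ((1 / 2 : ℝ) • g) (per f hf).1
  have kg : κ g = κ e := by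
    rw [← hG 0 g, ← hG 0 e, ← he (0 + g), show 0 + g + e + e = 0 + e + e + g by abel, hg]
  rw [ho] at q1
  have h := mul_le_mul_of_nonneg_right (add_le_add q1 q2) (sq_nonneg (sin (π / 100)))
  rw [kg]
  linarith

end Abs

theorem E3_num {lam : ℝ} (hl : l2 ≤ lam) :
    1 / 2 * (π / 200) ^ 2 + 2 / 10000 <
      (lam * (1 / 2 + (1 - cos (π / 4))) + lam / 4) * sin (π / 100) ^ 2 := by
  have p1 := pi_gt_d6
  have p2 := pi_lt_d6
  have h1 : π / 100 - (π / 100) ^ 3 / 6 < sin (π / 100) := sin_gt_sub_cube (by linarith)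
  have h2 : (π / 100) ^ 3 ≤ (0.031416 : ℝ) ^ 3 := pow_le_pow_left₀ (by linarith) (by linarith) 3
  have h3 : (0.031408 : ℝ) ≤ sin (π / 100) := by
    norm_num at h2
    linarith
  have h4 := pow_le_pow_left₀ (by norm_num) h3 2
  have h5 : √2 < 1.414214 := (sqrt_lt' (by norm_num)).2 (by norm_num)
  have h6 : (π / 200) ^ 2 ≤ (0.015708 : ℝ) ^ 2 := pow_le_pow_left₀ (by linarith only [p1, p2]) (by linarith only [p1, p2]) 2
  have h7 : (0.328511 : ℝ) ≤ lam * (1 / 2 + (1 - cos (π / 4))) + lam / 4 := by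
    rw [cos_pi_div_four]
    unfold l2 at hl
    have h8 : (63 / 200 : ℝ) * 1.042893 ≤ lam * (7 / 4 - √2 / 2) :=
      mul_le_mul hl (by linarith only [h5]) (by norm_num) (by linarith only [hl, p1, p2])
    linarith only [p1, p2, h8]
  have h8 := mul_le_mul h7 h4 (by norm_num) (le_trans (by norm_num) h7)
  norm_num at h6 h8 ⊢
  linarith only [p1, p2, h6, h8]

/-- The radius `√(1/2)`. -/
noncomputable def E3_r : IR 2 := ⟨√(1 / 2), by
  constructor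
  · exact le_sqrt_of_sq_le (by norm_num)
  · exact sqrt_le_iff.2 ⟨by norm_num, by norm_num⟩⟩

/-- The points of the three-parameter family. -/
noncomputable def E3_pt (u : ℝ × ℝ × ℝ) : Pt (IR 2) := ((E3_r, u.2.1, u.2.2), ej u.1)

theorem E3_rr : (E3_r : ℝ) * E3_r = 1 / 2 := mul_self_sqrt (by norm_num)

theorem E3_cin (t : ℝ) : ‖cin (ej 0 : S3) (ej t : S3)‖ = |cos t| := by
  rw [ej_zero, Metric.unitSphere.coe_one, cin_one_ej, Complex.norm_real, norm_eq_abs]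

theorem E3_cin4 : ‖cin (ej 0 : S3) (ej (π / 4 + π / 2) : S3)‖ = ‖cin (ej 0 : S3) (ej (π / 4) : S3)‖ := by
  rw [E3_cin, E3_cin, cos_add_pi_div_two, abs_neg, sin_pi_div_four, cos_pi_div_four]

theorem E3_ej (t : ℝ) : ej (t + π / 2) = jj * ej t := by
  rw [add_comm, ej_add, ej_pi_div_two]

theorem E3_half (m : ℤ) : (0 - 1 / 2 : ℝ) ^ 2 ≤ (0 - (1 / 2 + m)) ^ 2 := by
  have h : (0 : ℤ) ≤ m * (m + 1) := by
    rcases le_or_gt 0 m with h | h
    · positivity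
    · exact mul_nonneg_of_nonpos_of_nonpos h.le h
  have h' : (0 : ℝ) ≤ m * (m + 1) := by exact_mod_cast h
  linarith

theorem E3_min1 : Minimal 1 (E3_pt 0) (E3_pt (π / 4, 1 / 2, 1 / 2)) := by
  intro m
  have h1 : angP (E3_pt 0) (gam m (E3_pt (π / 4, 1 / 2, 1 / 2))) =
      angP (E3_pt 0) (E3_pt (π / 4, 1 / 2, 1 / 2)) := by
    show ang E3_r E3_r (ej 0) (jj ^ (m.1 + m.2) * ej (π / 4)) = ang E3_r E3_r (ej 0) (ej (π / 4))
    rcases Int.even_or_odd (m.1 + m.2) with h | h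
    · exact ang_zpow_even h _ _ _ _
    · rw [ang_zpow_odd h, ← E3_ej, ang, ang, E3_cin4]
  unfold rep
  rw [h1]
  refine add_le_add ?_ le_rfl
  show ((E3_r : ℝ) - E3_r) ^ 2 + (1 ^ 2 * (0 - 1 / 2) ^ 2 + (0 - 1 / 2) ^ 2) ≤
    ((E3_r : ℝ) - E3_r) ^ 2 + (1 ^ 2 * (0 - (1 / 2 + m.1)) ^ 2 + (0 - (1 / 2 + m.2)) ^ 2)
  linarith [E3_half m.1, E3_half m.2]

theorem E3_rep1 : rep 1 (E3_pt 0) (E3_pt (π / 4, 1 / 2, 1 / 2)) = 1 / 2 + (1 - cos (π / 4)) := by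
  show ((E3_r : ℝ) - E3_r) ^ 2 + (1 ^ 2 * (0 - 1 / 2) ^ 2 + (0 - 1 / 2) ^ 2) +
    2 * E3_r * E3_r * (1 - ‖cin (ej 0 : S3) (ej (π / 4) : S3)‖) = _
  have h : 0 ≤ cos (π / 4) := by
    rw [cos_pi_div_four]
    positivity
  rw [E3_cin, abs_of_nonneg h, mul_assoc 2, E3_rr]
  ring

theorem E3_rep2 : rep 1 (E3_pt 0) (E3_pt (0, 0, 1)) = 1 := by
  show ((E3_r : ℝ) - E3_r) ^ 2 + (1 ^ 2 * (0 - 0) ^ 2 + (0 - 1) ^ 2) +
    ang E3_r E3_r (ej 0) (ej 0) = _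
  rw [ang_self]
  ring

theorem E3_min2 : Minimal 1 (E3_pt 0) (E3_pt (0, 0, 1)) := by
  intro m
  rw [E3_rep2]
  show 1 ≤ ((E3_r : ℝ) - E3_r) ^ 2 + (1 ^ 2 * (0 - (0 + m.1)) ^ 2 + (0 - (1 + m.2)) ^ 2) +
    ang E3_r E3_r (ej 0) (jj ^ (m.1 + m.2) * ej 0)
  rcases Int.even_or_odd (m.1 + m.2) with h | h
  · have h1 : (1 : ℤ) ≤ m.1 ^ 2 + (1 + m.2) ^ 2 := by
      obtain ⟨k, hk⟩ := h
      by_cases h2 : m.1 = 0
      · have h3 : 1 + m.2 ≠ 0 := by omega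
        have h4 := sq_pos_of_ne_zero h3
        have h5 := sq_nonneg m.1
        omega
      · have h4 := sq_pos_of_ne_zero h2
        have h5 := sq_nonneg (1 + m.2)
        omega
    have h2 : (1 : ℝ) ≤ m.1 ^ 2 + (1 + m.2) ^ 2 := by exact_mod_cast h1
    rw [ang_zpow_even h, ang_self]
    linarith
  · rw [ang_zpow_odd h, ang, Metric.unitSphere.coe_mul, cin_jj_self, norm_zero, mul_assoc 2, E3_rr]
    linarith [sq_nonneg (0 - (0 + m.1) : ℝ), sq_nonneg (0 - (1 + m.2) : ℝ)]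

theorem not_feas_E3 {b lam : ℝ} (hb : b ≤ 1) (hl : l2 ≤ lam) : ¬ Feas 1 b lam := by
  intro hF
  obtain ⟨K0, hK0⟩ := hF 2 le_rfl
  obtain ⟨K, hK, hs⟩ := hK0.avg fun s t a a' x x' => by
    simp only [rep, Dsq, sg, angP, shift, rho, add_sub_add_right_eq_sub]
  obtain ⟨H, _, _, _, F, hF⟩ := hK.psd.exists_map
  have heq : ∀ q q', (∀ p, K p q = K p q') → F q = F q' := by
    intro q q' h
    have h1 := nd_of_map hF q q'
    rw [nd, ← h q', ← h q, hK.psd.symm q' q, ← h q] at h1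
    have h2 : ‖F q - F q'‖ ^ 2 = 0 := by linarith
    exact sub_eq_zero.1 (norm_eq_zero.1 (pow_eq_zero_iff two_ne_zero |>.1 h2))
  have hG : ∀ u w : ℝ × ℝ × ℝ, K (E3_pt u) (E3_pt (u + w)) = K (E3_pt 0) (E3_pt w) := by
    intro u w
    have e1 : E3_pt u = (shift (E3_r, 0, 0) u.2.1 u.2.2, ej 0 * ej u.1) := by
      simp only [E3_pt, shift, zero_add, ← ej_add]
    have e2 : E3_pt (u + w) = (shift (E3_r, w.2.1, w.2.2) u.2.1 u.2.2, ej w.1 * ej u.1) := by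
      simp only [E3_pt, shift, ← ej_add, Prod.fst_add, Prod.snd_add, add_comm]
    rw [e1, e2, hs, hK.rinv]
    rfl
  have hN : ∀ w, 2 * K (E3_pt 0) (E3_pt 0) - 2 * K (E3_pt 0) (E3_pt w) =
      nd K (E3_pt 0) (E3_pt w) := by
    intro w
    have h := hG w 0
    rw [add_zero] at h
    rw [nd, h]
    ring
  have v1 : (1 / 2 : ℝ) • ((π / 2, 0, 0) : ℝ × ℝ × ℝ) + ((1 / 2 : ℝ) • ((0, 1, 0) : ℝ × ℝ × ℝ) +
      (1 / 2 : ℝ) • ((0, 0, 1) : ℝ × ℝ × ℝ)) = (π / 4, 1 / 2, 1 / 2) := by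
    simp only [Prod.smul_mk, Prod.mk_add_mk, smul_eq_mul, Prod.mk.injEq]
    exact ⟨by ring, by ring, by ring⟩
  have v2 : (1 / 100 : ℝ) • ((π / 2, 0, 0) : ℝ × ℝ × ℝ) = (π / 200, 0, 0) := by
    simp only [Prod.smul_mk, smul_eq_mul, Prod.mk.injEq]
    exact ⟨by ring, by ring, by ring⟩
  have v3 : (1 / 100 : ℝ) • ((0, 1, 0) : ℝ × ℝ × ℝ) = (0, 1 / 100, 0) := by
    simp only [Prod.smul_mk, smul_eq_mul, mul_zero, mul_one]
  have v4 : (1 / 100 : ℝ) • ((0, 0, 1) : ℝ × ℝ × ℝ) = (0, 0, 1 / 100) := by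
    simp only [Prod.smul_mk, smul_eq_mul, mul_zero, mul_one]
  have main := E3_abs (fun u => F (E3_pt u)) (fun w => K (E3_pt 0) (E3_pt w))
    (fun u w => (hF _ _).trans (hG u w)) (π / 2, 0, 0) (0, 1, 0) (0, 0, 1)
    (fun u => heq _ _ fun p => ?_) (fun u => heq _ _ fun p => ?_)
    (fun u => heq _ _ fun p => ?_) ?_
  · simp only [hN, v1, v2, v3, v4] at main
    have l1 := hK.low _ _ E3_min1
    have l2 := hK.low _ _ E3_min2
    simp only [E3_rep1, E3_rep2, mul_one] at l1 l2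
    have u1 : nd K (E3_pt 0) (E3_pt (π / 200, 0, 0)) ≤ 1 / 2 * (π / 200) ^ 2 := by
      have h := hK.upj (E3_r, 0, 0) (π / 200) ⟨by positivity, by linarith [pi_pos]⟩
      rw [← ej_zero, sq (rho _), show rho ((E3_r, 0, 0) : Ax (IR 2)) = E3_r from rfl, E3_rr] at h
      exact h.trans (mul_le_mul_of_nonneg_right (by linarith only [hb]) (sq_nonneg _))
    have u2 : nd K (E3_pt 0) (E3_pt (0, 1 / 100, 0)) ≤ 1 / 10000 := by
      refine (hK.up0 (E3_r, 0, 0) (E3_r, 1 / 100, 0) (ej 0)).trans (le_of_eq ?_)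
      show ((E3_r : ℝ) - E3_r) ^ 2 + (1 ^ 2 * (0 - 1 / 100) ^ 2 + (0 - 0) ^ 2) = _
      ring
    have u3 : nd K (E3_pt 0) (E3_pt (0, 0, 1 / 100)) ≤ 1 / 10000 := by
      refine (hK.up0 (E3_r, 0, 0) (E3_r, 0, 1 / 100) (ej 0)).trans (le_of_eq ?_)
      show ((E3_r : ℝ) - E3_r) ^ 2 + (1 ^ 2 * (0 - 0) ^ 2 + (0 - 1 / 100) ^ 2) = _
      ring
    have h1 := mul_le_mul_of_nonneg_right (add_le_add l1 (div_le_div_of_nonneg_right l2 zero_le_four))
      (sq_nonneg (sin (π / 100)))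
    linarith [E3_num hl]
  · have e : E3_pt (u + (π / 2, 0, 0) + (π / 2, 0, 0)) = ((E3_r, u.2.1, u.2.2), ec π * ej u.1) := by
      simp only [E3_pt, Prod.fst_add, Prod.snd_add, add_zero, E3_ej, ← mul_assoc, jj_mul_jj]
    rw [e, hK.uinv]
    rfl
  · have e : E3_pt (u + (π / 2, 0, 0) + (0, 1, 0)) = gam (1, 0) (E3_pt u) := by
      simp only [E3_pt, gam, shift, Prod.fst_add, Prod.snd_add, add_zero, E3_ej, zpow_one,
        Int.cast_one, Int.cast_zero]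
    rw [e, hK.ginv]
  · have e : E3_pt (u + (π / 2, 0, 0) + (0, 0, 1)) = gam (0, 1) (E3_pt u) := by
      simp only [E3_pt, gam, shift, Prod.fst_add, Prod.snd_add, add_zero, zero_add, E3_ej, zpow_one,
        Int.cast_one, Int.cast_zero]
    rw [e, hK.ginv]
  · rw [v1]
    simp only [E3_pt, Prod.mk_add_mk, add_zero]
    exact hK.toPreK.eq_of_norm E3_cin4 _ _

end Pool.Agent.Work.MP_0ba68b_gt.CX
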