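import Pool.Agent.Work.MP_0ba68b_gt.CX.Base1
import Pool.Agent.Work.MP_0ba68b_gt.CX.Coord

/-!
At an event a finite dimensional embedding of the orbit space gives an approximate embedding of
the model.

PLAN.  `τ = √Q r b ≥ 1/E`, `η p = comb a b c (ξ₁, ξ₂, 0)`, `X p = mkV ((τ ρ) • x) (r exp (i an η)) 0 (pv η)`, `F p = ((1 + E) τ)⁻¹ • f (X p)`.
`f (act g X) = f X` from `D2 = 0` (`D2_le` with the inverse, or `orb_apply`).
`up`: `D2 ≤ dist² ≤ τ² ‖ρ x - ρ' x'‖² + Q r (comb Δ)`, `orth`, `Q a ≤ (y² + E) τ² ≤ y² (1 + E) τ²`.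
`ginv`: `X (gam m p) = act k 0 v (X p)`, `v = lv (m₁, m₂, 0)`, `k = 0` or `q0/2` (`j^(m₁+m₂) = ec φ * j^(par v)`, `φ ∈ {0, π}`).
`zap`: `dist² (X (a, ec (2π/q) x), act k n 0 (X (a,x))) ≤ τ² R² (q δ)² + q²`, `δ ≤ E/τ`, `1/τ ≤ E`.
`dist_low1`: for all `k, n, v`: replace `v` by `v + (m0 l, 0, 0) = lv n'` (`act_m`) so that `ψ = an (η - η' - cz v) ∈ [-π, π]`;
`dist² ≥ τ² (Δρ² + ang ρ ρ' x (j^(par v) x')) + 2 r² (1 - cos ψ) + ‖pv (..)‖²` (`norm_smul_sub_sq`, `re ≤ norm`, `ang_ec`).  If `ψ² ≤ E`: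
`2 (1 - cos ψ) ≥ (1 - E) ψ²`, the last two terms are `≥ (1 - E) Q r (comb (Δ - n')) ≥ (1 - E)³ τ² sg`, and minimality applies to
`m = (n'₁, n'₂)`.  If `ψ² ≥ E`: `2 r² (1 - cos ψ) ≥ (4/π²) E r² ≥ (2/5) τ²/E ≥ τ² (3 R² + 5) ≥ τ² rep` (`sb`, `Minimal.rep_le`).
`low2`: odd `par v`: the quaternion part is `2 τ² ρ²` (`cin_jj_self`) `≥ 4 τ² ρ² sin² (π/2q)`.  Even `par v`: it is
`τ² ρ² (2 - 2 cos (al + π/q + φ))`, plus `n²`.  If `|n| ≥ 2 R τ` done; else `al = 2π l/q + e`, `|e| ≤ 2 R E`, `cos` is `1`-Lipschitz and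
`cos (2π l'/q + π/q) ≤ cos (π/q) = 1 - 2 sin² (π/2q)` (odd multiples of `π/q`).
-/

open scoped Quaternion
open Real

namespace Pool.Agent.Work.MP_0ba68b_gt.CX

lemma cos_odd_le {q : ℕ} (hq : 0 < q) (l : ℤ) : cos (2 * π * l / q + π / q) ≤ cos (π / q) := by
  have hq' : (0 : ℝ) < q := Nat.cast_pos.2 hq
  have h0 : (0 : ℝ) ≤ (l % q : ℤ) := Int.cast_nonneg (Int.emod_nonneg l (by omega))
  have h1 : ((l % q : ℤ) : ℝ) + 1 ≤ q := by
    exact_mod_cast Int.emod_lt_of_pos l (show (0 : ℤ) < q by omega)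
  have h2 : (l : ℝ) = (l % q : ℤ) + q * (l / q : ℤ) := by
    exact_mod_cast (Int.emod_add_mul_ediv l q).symm
  set t : ℝ := ((l % q : ℤ) : ℝ)
  have h3 : 2 * π * l / q + π / q = (2 * t + 1) * (π / q) + (l / q : ℤ) * (2 * π) := by
    rw [h2]
    field_simp
    ring
  have h4 : 0 < π / q := div_pos pi_pos hq'
  have h5 : q * (π / q) = π := mul_div_cancel₀ _ hq'.ne'
  rw [h3, cos_add_int_mul_two_pi]
  rcases le_total ((2 * t + 1) * (π / q)) π with h | h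
  · exact cos_le_cos_of_nonneg_of_le_pi h4.le h (by nlinarith only [h0, h4])
  · rw [← cos_two_pi_sub]
    exact cos_le_cos_of_nonneg_of_le_pi h4.le (by linarith only [h]) (by nlinarith only [h5, h1, h4])

noncomputable section

variable {I : Set ℝ}

/-- The clock vector of a model point. -/
def Event_eta (a b c : Z3) (p : Pt I) : R3 := comb a b c (p.1.2.1, p.1.2.2, 0)

/-- The point of the space attached to a model point. -/
def Event_X (P : Par) (r τ : ℝ) (a b c : Z3) (p : Pt I) : VV :=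
  mkV ((τ * rho p.1) • (p.2 : ℍ[ℝ])) (r * Complex.exp (P.an (Event_eta a b c p) * Complex.I)) 0
    (P.pv (Event_eta a b c p))

lemma Event_an_sub (P : Par) (u w : R3) : P.an (u - w) = P.an u - P.an w := by
  simp [Par.an]; ring

lemma Event_pv_sub (P : Par) (u w : R3) : P.pv (u - w) = P.pv u - P.pv w := by
  apply Complex.ext <;> simp [Par.pv] <;> ring

lemma Event_exp (r α α' β : ℝ) : ‖(r : ℂ) * Complex.exp (α * Complex.I) -
    Complex.exp (β * Complex.I) * (r * Complex.exp (α' * Complex.I))‖ ^ 2 =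
    2 * r ^ 2 * (1 - cos (α - α' - β)) := by
  have e : Complex.exp (β * Complex.I) * (r * Complex.exp (α' * Complex.I)) =
      r * Complex.exp ((α' + β : ℝ) * Complex.I) := by
    push_cast
    rw [add_mul, Complex.exp_add]
    ring
  rw [e, sub_sub, cos_sub, Complex.sq_norm, Complex.normSq_apply]
  simp only [Complex.sub_re, Complex.sub_im, Complex.re_ofReal_mul, Complex.im_ofReal_mul,
    Complex.exp_ofReal_mul_I_re, Complex.exp_ofReal_mul_I_im]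
  linear_combination r ^ 2 * sin_sq_add_cos_sq α + r ^ 2 * sin_sq_add_cos_sq (α' + β)

lemma Event_dist (P : Par) (r τ : ℝ) (a b c : Z3) (p p' : Pt I) (k n : ℤ) (v : Z3) :
    dist (Event_X P r τ a b c p) (P.act k n v (Event_X P r τ a b c p')) ^ 2 =
      τ ^ 2 * ‖rho p.1 • (p.2 : ℍ[ℝ]) -
        rho p'.1 • ((ec (al P.q0 P.θ k n) * (jj ^ par v * p'.2) : S3) : ℍ[ℝ])‖ ^ 2 +
      2 * r ^ 2 * (1 - cos (P.an (Event_eta a b c p - Event_eta a b c p' - cz v))) + n ^ 2 +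
      ‖P.pv (Event_eta a b c p - Event_eta a b c p' - cz v)‖ ^ 2 := by
  have e : ∀ (s t : ℝ) (x z : ℍ[ℝ]), ‖(τ * s) • x - (τ * t) • z‖ ^ 2 =
      τ ^ 2 * ‖s • x - t • z‖ ^ 2 := fun s t x z => by
    rw [mul_smul, mul_smul, ← smul_sub, norm_smul, mul_pow, Real.norm_eq_abs, sq_abs]
  rw [dist_sq]
  simp only [Event_X, Par.act, vx_mk, vw_mk, vt_mk, vs_mk, Event_exp, Event_an_sub, Event_pv_sub,
    mul_smul_comm, e, Metric.unitSphere.coe_mul, ← sub_sub]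
  ring

lemma Event_cin (α β : ℝ) (x : S3) : (cin (ec α * x : S3) (ec β * x : S3)).re = cos (α - β) := by
  rw [Metric.unitSphere.coe_mul, Metric.unitSphere.coe_mul, cin_mul_right, cin_re, cos_sub]
  simp

lemma Event_jj {a b c : Z3} (h : IsBas a b c) (n : Z3) : ∃ φ, (φ = 0 ∨ φ = π) ∧
    jj ^ (n.1 + n.2.1) = ec φ * jj ^ par (lv a b c n) := by
  obtain ⟨φ, h1, h2⟩ := jj_zpow_even (h.even_lv n)
  exact ⟨φ, h2, by rw [← h1, ← zpow_add, sub_add_cancel]⟩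

lemma Event_half {q : ℕ} (hq : 0 < q) (he : Even q) {φ : ℝ} (h : φ = 0 ∨ φ = π) :
    ∃ k : ℤ, 2 * π * k / q = φ := by
  rcases h with rfl | rfl
  · exact ⟨0, by simp⟩
  · obtain ⟨s, rfl⟩ := he
    have : (s : ℝ) ≠ 0 := Nat.cast_ne_zero.2 (by omega)
    refine ⟨s, ?_⟩
    push_cast
    field_simp
    ring

lemma Event_comb (a b c n : Z3) (p p' : Pt I) :
    Event_eta a b c p - Event_eta a b c p' - cz (lv a b c n) =
      comb a b c (p.1.2.1 - (p'.1.2.1 + n.1), p.1.2.2 - (p'.1.2.2 + n.2.1), -n.2.2) := by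
  rw [Event_eta, Event_eta, ← comb_cz, ← comb_sub, ← comb_sub]
  simp [cz, sub_sub]

lemma Event_zero (P : Par) (a b c : Z3) :
    P.an (comb a b c (0, 0, 0)) = 0 ∧ P.pv (comb a b c (0, 0, 0)) = 0 := by
  refine ⟨by simp [comb, Par.an], ?_⟩
  apply Complex.ext <;> simp [comb, Par.pv]

lemma Event_lv0 (a b c : Z3) : lv a b c 0 = 0 := by simp [lv]

lemma Event_Q (P : Par) (r : ℝ) (u : R3) : 0 ≤ P.Q r u := by
  unfold Par.Q
  positivity

variable {P : Par} {r τ y E R : ℝ} {a b c : Z3}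

lemma Event_up (ho : P.Orth r E a b c) (hτ : P.Q r (cz b) = τ ^ 2) (hE : 0 < E) (hy : 1 ≤ y)
    (ha : P.Q r (cz a) ≤ (y ^ 2 + E) * τ ^ 2) (p p' : Pt I) :
    P.D2 (Event_X P r τ a b c p) (Event_X P r τ a b c p') ≤ ((1 + E) * τ) ^ 2 *
      (‖rho p.1 • (p.2 : ℍ[ℝ]) - rho p'.1 • (p'.2 : ℍ[ℝ])‖ ^ 2 + sg y p.1 p'.1) := by
  refine (P.D2_le 0 0 (lv a b c 0) _ _).trans ?_
  rw [Event_dist, Event_comb]
  have h1 := (ho (p.1.2.1 - p'.1.2.1, p.1.2.2 - p'.1.2.2, 0)).2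
  simp only [Event_lv0, al, par, Prod.fst_zero, Prod.snd_zero, Int.cast_zero, add_zero, mul_zero,
    zero_div, zero_mul, ec_zero, zpow_zero, one_mul, neg_zero, sg, hτ] at h1 ⊢
  rw [Par.Q] at h1
  set u := comb a b c (p.1.2.1 - p'.1.2.1, p.1.2.2 - p'.1.2.2, 0)
  set A := ‖rho p.1 • (p.2 : ℍ[ℝ]) - rho p'.1 • (p'.2 : ℍ[ℝ])‖ ^ 2
  set s := (p.1.2.1 - p'.1.2.1) ^ 2
  set t := (p.1.2.2 - p'.1.2.2) ^ 2
  have hA : 0 ≤ A := by positivity
  have hs : 0 ≤ s := by positivity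
  have ht : 0 ≤ t := by positivity
  have h2 : 2 * r ^ 2 * (1 - cos (P.an u)) ≤ r ^ 2 * P.an u ^ 2 := by
    nlinarith only [one_sub_sq_div_two_le_cos (x := P.an u), sq_nonneg r]
  have h3 : P.Q r (cz a) * s ≤ (1 + E) * τ ^ 2 * (y ^ 2 * s) := by
    have : y ^ 2 + E ≤ (1 + E) * y ^ 2 := by nlinarith only [hE, hy, one_le_pow₀ (n := 2) hy]
    calc _ ≤ (y ^ 2 + E) * τ ^ 2 * s := by gcongr
      _ ≤ (1 + E) * y ^ 2 * τ ^ 2 * s := by gcongr
      _ = _ := by ring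
  have h4 : τ ^ 2 * t ≤ (1 + E) * τ ^ 2 * t := by nlinarith only [hE, ht, mul_nonneg (sq_nonneg τ) ht]
  have h5 : τ ^ 2 * A ≤ (1 + E) ^ 2 * (τ ^ 2 * A) :=
    le_mul_of_one_le_left (by positivity) (one_le_pow₀ (by linarith))
  have h6 := mul_le_mul_of_nonneg_left (add_le_add h3 h4) (show 0 ≤ 1 + E by linarith)
  linarith

lemma Event_ginv (hP : P.Good) (hb : IsBas a b c) (m : ℤ × ℤ) (p : Pt I) :
    P.D2 (Event_X P r τ a b c (gam m p)) (Event_X P r τ a b c p) ≤ 0 := by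
  obtain ⟨φ, h1, h2⟩ := Event_jj hb (m.1, m.2, 0)
  obtain ⟨k, hk⟩ := Event_half hP.q0_pos hP.q0_even h1
  refine (P.D2_le k 0 (lv a b c (m.1, m.2, 0)) _ _).trans ?_
  rw [Event_dist, Event_comb, al, hk, Int.cast_zero, zero_mul, add_zero, ← mul_assoc, ← h2]
  simp [gam, shift, rho, Event_zero]

lemma Event_zap {q : ℕ} {δ : ℝ} (hδ : δ ^ 2 * τ ^ 2 ≤ 1) {k n : ℤ} (hn : |n| ≤ q)
    (h : |al P.q0 P.θ k n - 2 * π / q| ≤ q * δ) (hR : 0 < R) (s : Ax (IR R)) (x : S3) :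
    P.D2 (Event_X P r τ a b c (s, ec (2 * π / q) * x)) (Event_X P r τ a b c (s, x)) ≤
      (q * (R + 1)) ^ 2 := by
  refine (P.D2_le k n (lv a b c 0) _ _).trans ?_
  rw [Event_dist, Event_comb, norm_smul_sub_sq]
  simp only [Event_lv0, par, Prod.fst_zero, Prod.snd_zero, Int.cast_zero, add_zero, zpow_zero,
    one_mul, neg_zero, sub_self, Event_zero, Event_cin, cos_zero, norm_zero]
  have h1 : (n : ℝ) ^ 2 ≤ q ^ 2 := sq_le_sq' (by exact_mod_cast (abs_le.1 hn).1)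
    (by exact_mod_cast (abs_le.1 hn).2)
  have h2 : (2 * π / q - al P.q0 P.θ k n) ^ 2 ≤ (q * δ) ^ 2 :=
    sq_le_sq' (by linarith [(abs_le.1 h).2]) (by linarith [(abs_le.1 h).1])
  have h3 := one_sub_sq_div_two_le_cos (x := 2 * π / q - al P.q0 P.θ k n)
  have h4 : rho s ^ 2 ≤ R ^ 2 := pow_le_pow_left₀ (rho_pos hR s).le s.1.2.2 2
  have h5 : τ ^ 2 * (2 * rho s * rho s * (1 - cos (2 * π / q - al P.q0 P.θ k n))) ≤
      R ^ 2 * q ^ 2 := by
    calc _ = τ ^ 2 * (rho s ^ 2 * (2 * (1 - cos (2 * π / q - al P.q0 P.θ k n)))) := by ring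
      _ ≤ τ ^ 2 * (rho s ^ 2 * (q * δ) ^ 2) := by
        gcongr
        linarith
      _ = rho s ^ 2 * q ^ 2 * (δ ^ 2 * τ ^ 2) := by ring
      _ ≤ R ^ 2 * q ^ 2 * 1 := by gcongr
      _ = _ := mul_one _
  nlinarith only [h1, h5, hR, mul_nonneg (sq_nonneg (q : ℝ)) hR.le]

lemma Event_rep (hR : 0 < R) (hy : 1 ≤ y) (hy4 : y ≤ 4) {p p' : Pt (IR R)} (h : Minimal y p p') :
    rep y p p' ≤ 2 * R ^ 2 + 5 := by
  have h1 := h.rep_le (rho_pos hR _).le (rho_pos hR _).le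
  have h2 : rho p.1 ^ 2 ≤ R ^ 2 := pow_le_pow_left₀ (rho_pos hR _).le p.1.1.2.2 2
  have h3 : rho p'.1 ^ 2 ≤ R ^ 2 := pow_le_pow_left₀ (rho_pos hR _).le p'.1.1.2.2 2
  nlinarith

lemma Event_near {ψ : ℝ} (hE : E ≤ 1) (h : ψ ^ 2 ≤ E) : (1 - E) * ψ ^ 2 ≤ 2 * (1 - cos ψ) := by
  have h1 := (abs_le.1 (cos_bound (x := ψ) ((sq_le_one_iff_abs_le_one ψ).1 (h.trans hE)))).2
  rw [show |ψ| ^ 4 = ψ ^ 2 * ψ ^ 2 by rw [← sq_abs ψ]; ring] at h1
  nlinarith [sq_nonneg ψ]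

lemma Event_far {ψ : ℝ} (h0 : |ψ| ≤ π) (h : E ≤ ψ ^ 2) : 2 / 5 * E ≤ 2 * (1 - cos ψ) := by
  have h1 := cos_le_one_sub_mul_cos_sq h0
  have h2 : 1 / 5 ≤ 2 / π ^ 2 := by
    rw [div_le_div_iff₀ (by norm_num) (by positivity)]
    nlinarith [pi_lt_d2, pi_pos]
  nlinarith [sq_nonneg ψ]

lemma Event_low1 (hP : P.Good) (hb : CBas P r E y E a b c) (hτ : P.Q r (cz b) = τ ^ 2)
    (hE : 0 < E) (hy : 1 ≤ y) (hy4 : y ≤ 4) (hR : 0 < R) (hB : E * (2 * R ^ 2 + 5) ≤ 2 / 5)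
    (ha : (y ^ 2 - E) * τ ^ 2 ≤ P.Q r (cz a)) {p p' : Pt (IR R)} (h : Minimal y p p') :
    (1 - E) ^ 3 * τ ^ 2 * rep y p p' ≤
      P.D2 (Event_X P r τ a b c p) (Event_X P r τ a b c p') := by
  refine P.le_D2 fun k n v => ?_
  have hE1 : E ≤ 1 := by nlinarith only [hB, hE, sq_nonneg R]
  have hE2 : 0 ≤ 1 - E := by linarith
  set ψ := P.an (Event_eta a b c p - Event_eta a b c p' - cz v) with hψ
  set l := round (ψ / (2 * π))
  obtain ⟨m, hm⟩ := hb.bas.exists_lv (v + (P.m0 * l, 0, 0))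
  have h1 : |P.an (Event_eta a b c p - Event_eta a b c p' - cz (lv a b c m))| ≤ π := by
    rw [← hm, cz_add, ← sub_sub, Event_an_sub, hP.an_m0, ← hψ,
      show ψ - 2 * π * l = 2 * π * (ψ / (2 * π) - l) by field_simp, abs_mul,
      abs_of_pos (by positivity : 0 < 2 * π)]
    nlinarith only [abs_sub_round (ψ / (2 * π)), pi_pos]
  rw [← P.act_m hP k l, hm, Event_dist, norm_smul_sub_sq]
  rw [Event_comb] at h1 ⊢
  obtain ⟨φ, -, h2⟩ := Event_jj hb.bas m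
  have h3 := (hb.orth (p.1.2.1 - (p'.1.2.1 + m.1), p.1.2.2 - (p'.1.2.2 + m.2.1), -m.2.2)).1
  have h4 := h (m.1, m.2.1)
  have h5 := Event_rep hR hy hy4 h
  have h6 : ang (rho p.1) (rho p'.1) p.2 (jj ^ (m.1 + m.2.1) * p'.2) ≤ 2 * rho p.1 * rho p'.1 *
      (1 - (cin p.2 (ec (al P.q0 P.θ k n) * (jj ^ par (lv a b c m) * p'.2) : S3)).re) := by
    rw [h2, mul_assoc, ang_ec, ← ang_ec _ _ (al P.q0 P.θ k n), ang]
    have := rho_pos hR p.1
    have := rho_pos hR p'.1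
    gcongr
    exact Complex.re_le_norm _
  have h7 := ang_nonneg (rho_pos hR p.1).le (rho_pos hR p'.1).le p.2 (jj ^ (m.1 + m.2.1) * p'.2)
  change _ ≤ (rho p.1 - rho p'.1) ^ 2 + (y ^ 2 * (p.1.2.1 - (p'.1.2.1 + m.1)) ^ 2 +
    (p.1.2.2 - (p'.1.2.2 + m.2.1)) ^ 2) +
    ang (rho p.1) (rho p'.1) p.2 (jj ^ (m.1 + m.2.1) * p'.2) at h4
  rw [hτ] at h3
  dsimp only at h3
  set u := comb a b c (p.1.2.1 - (p'.1.2.1 + m.1), p.1.2.2 - (p'.1.2.2 + m.2.1), -m.2.2)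
  set s := (p.1.2.1 - (p'.1.2.1 + m.1)) ^ 2
  set t := (p.1.2.2 - (p'.1.2.2 + m.2.1)) ^ 2
  set A := (rho p.1 - rho p'.1) ^ 2
  set G := ang (rho p.1) (rho p'.1) p.2 (jj ^ (m.1 + m.2.1) * p'.2)
  have hs : 0 ≤ s := by positivity
  have ht : 0 ≤ t := by positivity
  have hA : 0 ≤ A + G := by positivity
  have h8 := mul_le_mul_of_nonneg_left (add_le_add_right h6 A) (sq_nonneg τ)
  have hc : (1 - E) ^ 3 ≤ 1 := pow_le_one₀ hE2 (by linarith)
  have hn := sq_nonneg (n : ℝ)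
  have hp := sq_nonneg ‖P.pv u‖
  rcases le_total (P.an u ^ 2) E with h9 | h9
  · have e1 := mul_le_mul_of_nonneg_left (Event_near hE1 h9) (sq_nonneg r)
    have e2 : (1 - E) * τ ^ 2 * (y ^ 2 * s) ≤ P.Q r (cz a) * s := by
      have : (1 - E) * y ^ 2 ≤ y ^ 2 - E := by nlinarith only [hE, hy, one_le_pow₀ (n := 2) hy]
      calc _ = (1 - E) * y ^ 2 * τ ^ 2 * s := by ring
        _ ≤ (y ^ 2 - E) * τ ^ 2 * s := by gcongr
        _ ≤ _ := by gcongr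
    have e3 : (1 - E) * τ ^ 2 * t ≤ τ ^ 2 * t := by nlinarith only [hE, ht, mul_nonneg (sq_nonneg τ) ht]
    have e4 := mul_nonneg (Event_Q P r (cz c)) (sq_nonneg (-(m.2.2 : ℝ)))
    have e5 : (1 - E) * ((1 - E) * τ ^ 2 * (y ^ 2 * s + t)) ≤
        r ^ 2 * P.an u ^ 2 + ‖P.pv u‖ ^ 2 :=
      le_trans (mul_le_mul_of_nonneg_left (by linarith only [e2, e3, e4]) hE2) h3
    have e6 := mul_le_mul_of_nonneg_left e5 hE2
    have e7 := mul_le_mul_of_nonneg_left h4 (show 0 ≤ (1 - E) ^ 3 * τ ^ 2 by positivity)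
    have e8 := mul_le_of_le_one_left (mul_nonneg (sq_nonneg τ) hA) hc
    have e9 := mul_nonneg hE.le hp
    linarith
  · have e1 := mul_le_mul_of_nonneg_left (Event_far h1 h9) (sq_nonneg r)
    have e2 : τ ^ 2 * (2 * R ^ 2 + 5) ≤ (E * r) ^ 2 * (2 * R ^ 2 + 5) :=
      mul_le_mul_of_nonneg_right (hτ ▸ hb.sb) (by positivity)
    have e3 := mul_le_mul_of_nonneg_left hB (show 0 ≤ E * r ^ 2 by positivity)
    have e4 := mul_le_mul_of_nonneg_left h5 (show 0 ≤ (1 - E) ^ 3 * τ ^ 2 by positivity)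
    have e5 := mul_le_of_le_one_left (show 0 ≤ τ ^ 2 * (2 * R ^ 2 + 5) by positivity) hc
    have e6 := mul_nonneg (sq_nonneg τ) hA
    linarith

lemma Event_low2 {q : ℕ} {δ : ℝ} (hq : 2 ≤ q) (he : Even q) (hτ : 0 < τ) (hE : 0 < E)
    (hδ0 : 0 ≤ δ) (hδ : δ * τ ≤ E)
    (h : ∀ k n : ℤ, ∃ l : ℤ, |al P.q0 P.θ k n - 2 * π * l / q| ≤ |(n : ℝ)| * δ) (hR : 0 < R)
    (s : Ax (IR R)) (x : S3) :
    τ ^ 2 * (2 * rho s ^ 2 * (1 - cos (π / q)) - 4 * R ^ 3 * E) ≤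
      P.D2 (Event_X P r τ a b c (s, x)) (Event_X P r τ a b c (s, ec (π / q) * x)) := by
  refine P.le_D2 fun k n v => ?_
  have hq' : (2 : ℝ) ≤ q := by exact_mod_cast hq
  have h0 : 0 ≤ cos (π / q) := cos_nonneg_of_mem_Icc
    ⟨le_trans (by linarith [pi_pos]) (by positivity : 0 ≤ π / q), by gcongr⟩
  have h1 : rho s ^ 2 ≤ R ^ 2 := pow_le_pow_left₀ (rho_pos hR s).le s.1.2.2 2
  have h2 : 0 ≤ τ ^ 2 * (R ^ 3 * E) := by positivity
  have h3 : 0 ≤ τ ^ 2 * rho s ^ 2 := by positivity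
  rw [Event_dist, norm_smul_sub_sq]
  dsimp only
  set u := Event_eta a b c (s, x) - Event_eta a b c (s, ec (π / q) * x) - cz v
  have h4 := mul_nonneg (sq_nonneg r) (sub_nonneg.2 (cos_le_one (P.an u)))
  have h5 := sq_nonneg ‖P.pv u‖
  have h6 := sq_nonneg (n : ℝ)
  have h7 := mul_nonneg h3 h0
  rcases Int.even_or_odd (par v) with hv | hv
  · obtain ⟨φ, e1, e2⟩ := jj_zpow_even hv
    have e3 := Event_cin 0 (al P.q0 P.θ k n + (φ + π / q)) x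
    rw [ec_zero, one_mul, zero_sub, cos_neg, ec_add, ec_add, mul_assoc, mul_assoc] at e3
    rw [e1, e3]
    have e4 := mul_nonneg h3 (sub_nonneg.2 (cos_le_one (al P.q0 P.θ k n + (φ + π / q))))
    rcases le_total (2 * R * τ) |(n : ℝ)| with hn | hn
    · have e5 := pow_le_pow_left₀ (by positivity) hn 2
      have e6 := mul_le_mul_of_nonneg_left h1 (sq_nonneg τ)
      rw [sq_abs] at e5
      linarith only [h2, h4, h5, h6, h7, e4, e5, e6]
    · obtain ⟨l, hl⟩ := h k n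
      obtain ⟨l', hl'⟩ := Event_half (by omega) he e2
      have e5 := cos_odd_le (q := q) (by omega) (l + l')
      have e6 := (abs_le.1 ((abs_cos_sub_cos_le (al P.q0 P.θ k n + (φ + π / q))
        (2 * π * (l + l' : ℤ) / q + π / q)).trans (hl.trans' (le_of_eq (by
          rw [← hl']
          push_cast
          congr 1
          ring))))).2
      have e7 : |(n : ℝ)| * δ ≤ 2 * R * E := by
        calc _ ≤ 2 * R * τ * δ := by gcongr
          _ = 2 * R * (δ * τ) := by ring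
          _ ≤ _ := by gcongr
      have e8 := mul_le_mul_of_nonneg_left (show cos (al P.q0 P.θ k n + (φ + π / q)) ≤
        cos (π / q) + 2 * R * E by linarith only [e5, e6, e7]) h3
      have e9 := mul_le_mul_of_nonneg_left h1 (show 0 ≤ τ ^ 2 * (R * E) by positivity)
      linarith
  · obtain ⟨φ, e1, -⟩ := jj_zpow_odd hv
    have e2 : ec (al P.q0 P.θ k n) * (ec φ * jj * (ec (π / q) * x)) =
        ec (al P.q0 P.θ k n + φ + -(π / q)) * (jj * x) := by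
      rw [ec_add, ec_add, mul_assoc, mul_assoc, ← mul_assoc jj, jj_mul_ec]
      simp only [mul_assoc]
    rw [e1, e2, Metric.unitSphere.coe_mul, Metric.unitSphere.coe_mul, cin_ec_right, cin_jj_self,
      mul_zero, Complex.zero_re]
    linarith

end

theorem event_apx {q : ℕ} {y R ε : ℝ} (hq : 2 ≤ q) (he : Even q) (hy : 1 ≤ y) (hy4 : y ≤ 4)
    (hR : 2 ≤ R) (hε : 0 < ε) : ∃ E0 > 0, ∀ (P : Par) (E : ℝ) (N : ℕ), P.Good → 0 < E → E ≤ E0 →
      Event P q y E → ∀ f : VV → EuclideanSpace ℝ (Fin N),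
        (∀ X X', l2 * P.D2 X X' ≤ ‖f X - f X'‖ ^ 2 ∧ ‖f X - f X'‖ ^ 2 ≤ P.D2 X X') →
        ∃ F : Pt (IR R) → EuclideanSpace ℝ (Fin N), Apx N q y R ε F := by
  have hR0 : 0 < R := by linarith
  have hq0 : (0 : ℝ) < q := Nat.cast_pos.2 (by omega)
  have m1 : 0 < q * (R + 1) := by positivity
  have m2 : 0 < 2 * R ^ 2 + 5 := by positivity
  have m3 : 0 < R ^ 3 := by positivity
  refine ⟨min ε (2 / 5) / (q * (R + 1) + 2 * (2 * R ^ 2 + 5) + 4 * R ^ 3), by positivity, ?_⟩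
  rintro P E N hP hE hE0 ⟨r, δ, a, b, c, -, hb, ha, hδ0, hδ, h1, k, n, hn, h2⟩ f hf
  rw [le_div_iff₀ (by positivity), le_min_iff] at hE0
  have n1 := mul_pos hE m1
  have n2 := mul_pos hE m2
  have n3 := mul_pos hE m3
  have hE1 : E ≤ 1 := by nlinarith only [hE0, n1, n2, n3, hE, hE0.2, sq_nonneg R]
  obtain ⟨τ, hτ0, hτ⟩ : ∃ τ, 0 ≤ τ ∧ P.Q r (cz b) = τ ^ 2 :=
    ⟨_, sqrt_nonneg _, (sq_sqrt (Event_Q P r (cz b))).symm⟩
  have hbig : 1 ≤ E * τ := by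
    have := hb.big
    rw [hτ, ← mul_pow] at this
    exact (one_le_sq_iff₀ (by positivity)).1 this
  have hτp : 0 < τ := hτ0.lt_of_ne fun h => by
    rw [← h] at hbig
    linarith
  rw [hτ] at ha hδ
  have hδ' : δ * τ ≤ E := (pow_le_pow_iff_left₀ (by positivity) hE.le two_ne_zero).1
    (by rwa [mul_pow])
  have hs : 0 < ((1 + E) * τ) ^ 2 := by positivity
  have hl : l2 = 63 / 200 := rfl
  have key : ∀ X X', ‖((1 + E) * τ)⁻¹ • f X - ((1 + E) * τ)⁻¹ • f X'‖ ^ 2 =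
      ‖f X - f X'‖ ^ 2 / ((1 + E) * τ) ^ 2 := fun X X' => by
    rw [← smul_sub, norm_smul, mul_pow, Real.norm_eq_abs, sq_abs, inv_pow, div_eq_inv_mul]
  refine ⟨fun p => ((1 + E) * τ)⁻¹ • f (Event_X P r τ a b c p), fun p p' => ?_, fun m p => ?_,
    fun s x => ?_, fun p p' h => ?_, fun s x => ?_⟩
  · rw [key, div_le_iff₀' hs]
    exact (hf _ _).2.trans (Event_up hb.orth hτ hE hy (by linarith [(abs_le.1 ha).2]) p p')
  · have := (hf _ _).2.trans (Event_ginv (r := r) (τ := τ) hP hb.bas m p)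
    rw [sub_eq_zero.1 (norm_eq_zero.1 (pow_eq_zero_iff two_ne_zero |>.1
      (le_antisymm this (sq_nonneg _))))]
  · refine (pow_le_pow_iff_left₀ (norm_nonneg _) hε.le two_ne_zero).1 ?_
    rw [key, div_le_iff₀ hs, ← mul_pow]
    refine ((hf _ _).2.trans (Event_zap (hδ.trans (pow_le_one₀ hE.le hE1)) hn h2 hR0 s x)).trans
      (pow_le_pow_left₀ m1.le ?_ 2)
    calc q * (R + 1) ≤ q * (R + 1) * (E * τ) := le_mul_of_one_le_right m1.le hbig
      _ = E * (q * (R + 1)) * (1 * τ) := by ring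
      _ ≤ _ := by
        gcongr
        · linarith [hE0.1]
        · linarith
  · rw [key, le_div_iff₀ hs]
    refine le_trans ?_ ((mul_le_mul_of_nonneg_left (Event_low1 hP hb hτ hE hy hy4 hR0
      (by linarith [hE0.2]) (by linarith [(abs_le.1 ha).1]) h) (by norm_num [hl])).trans
      (hf _ _).1)
    have e0 : 0 ≤ rep y p p' := add_nonneg (Dsq_nonneg _ _ _)
      (ang_nonneg (rho_pos hR0 _).le (rho_pos hR0 _).le _ _)
    have e1 := mul_le_mul_of_nonneg_left (Event_rep hR0 hy hy4 h) hE.le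
    have e2 : (1 - 5 * E) * (1 + E) ^ 2 ≤ (1 - E) ^ 3 := by nlinarith only [hE, mul_pos hE hE]
    calc _ ≤ l2 * ((1 - 5 * E) * rep y p p') * ((1 + E) * τ) ^ 2 := by
          gcongr
          rw [hl]
          linarith [hE0.1]
      _ = l2 * ((1 - 5 * E) * (1 + E) ^ 2 * τ ^ 2 * rep y p p') := by ring
      _ ≤ _ := by
          rw [hl]
          gcongr
  · rw [key, le_div_iff₀ hs]
    refine le_trans ?_ ((mul_le_mul_of_nonneg_left
      (Event_low2 hq he hτp hE hδ0 hδ' h1 hR0 s x) (by norm_num [hl])).trans (hf _ _).1)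
    have e0 : 4 * rho s ^ 2 * sin (π / (2 * q)) ^ 2 = 2 * rho s ^ 2 * (1 - cos (π / q)) := by
      rw [show π / q = 2 * (π / (2 * q)) by field_simp, cos_two_mul, cos_sq']
      ring
    rw [e0]
    set S := 2 * rho s ^ 2 * (1 - cos (π / q))
    have e1 : rho s ^ 2 ≤ R ^ 2 := pow_le_pow_left₀ (rho_pos hR0 s).le s.1.2.2 2
    have e2 : S ≤ 2 * R ^ 3 := by
      have := mul_nonneg (sq_nonneg (rho s)) (show 0 ≤ 1 + cos (π / q) by
        linarith [neg_one_le_cos (π / q)])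
      have := mul_le_mul_of_nonneg_left hR (sq_nonneg R)
      simp only [S]
      linarith
    have e3 : 0 ≤ S := mul_nonneg (by positivity) (sub_nonneg.2 (cos_le_one _))
    have e4 : (l2 * S - ε) * (1 + E) ^ 2 ≤ l2 * (S - 4 * R ^ 3 * E) := by
      have f1 := mul_le_mul_of_nonneg_left e2 hE.le
      have f2 := mul_le_mul_of_nonneg_left hE1 (mul_nonneg hE.le e3)
      have f3 : ε ≤ ε * (1 + E) ^ 2 := le_mul_of_one_le_right hε.le (one_le_pow₀ (by linarith))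
      rw [hl]
      linarith [hE0.1]
    have := mul_le_mul_of_nonneg_left e4 (sq_nonneg τ)
    linarith

end Pool.Agent.Work.MP_0ba68b_gt.CX
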