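import Pool.Agent.Work.MP_0ba68b_gt.CX.FibSmp
import Pool.Agent.Work.MP_0ba68b_gt.CX.Part

/-!
The fibre kernel.

PLAN.  `e k = ϑ k/1000`, thresholds `thr k = (q k)²/e k`, `64 thr k ≤ thr (k+1)`.  `exists_lev`: `lev r` is the greatest `k` with
`thr k ≤ r` (`Nat.findGreatest`, or `sSup`), `0` if there is none.  `nu r = e (lev r)`, `r0 = thr 0`, `c, w` from `exists_part`,
`k i = lev (c i)`, samples from `fsmp0` (`i = 0`) and `fsmp` (`FibArith.fb` at radius `c i`), `(1 + e)^4 ≤ 1 + 5 e`,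
`B i = 10 (c i)²/(q (k i))²`.  `Kc = ∑' i, w i ‖x‖ * w i ‖x'‖ * Kc i`, `Ko = w 0 ‖x‖ * w 0 ‖x'‖ * Ko 0` (`PSD.wsum`, `wsum_eq`, `nd_wsum`;
`Part.zero` for `x' = 0`; norms are preserved by `fib`, `fJ`).  `nth K Θ = nd K + K p p' (2 - 2Θ)`, `|Ko p p'| ≤ 1/10`.
Prove the four estimates at once under `j = 0 ∨ ρm j ≤ ..` and note `η 0/20, μ 0, c 0 ≤ 1/1000`.
If a radius `≥ 2 thr j` lies in the window `i` then `j ≤ k i`.  If the larger radius `r` lies in window `i` then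
`gap r ≥ e (k i + 1) c i` (`4 max r r0 < thr (k i + 2)`), so `(Δ w i)² B i/e (k i) ≤ 250 Δρ²/(e (k i + 1)³ q (k i)²) ≤ (η j/400) Δρ²`.
Near lower: apply `PSD.nd_weight_lower` with `β = e (k i)` to `Kc i + 9/10 Ko i` for the two indices active at `p`, drop the others,
choose the index with the smaller `vert`.  Far lower: `fib_cover` at level `lev r`, radius `r`, `gap r ≥ e (lev r + 1) r`.
Upper: choose `δ` with `|Δρ| < gap ‖x‖/2`, and `100 δ ≤ ‖x‖ ‖x'‖` if `x ≠ 0` (`δ ≤ r0²` if `x = 0`); `PSD.nd_weight_upper` for the at most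
four indices active at `p` or `p'`; no `ε` is needed.
-/

open scoped Quaternion
open Real

namespace Pool.Agent.Work.MP_0ba68b_gt.CX

lemma exists_lev {thr : ℕ → ℝ} (h0 : 0 < thr 0) (hg : ∀ k, 64 * thr k ≤ thr (k + 1)) :
    ∃ lev : ℝ → ℕ, Monotone lev ∧ (∀ r, thr 0 ≤ r → thr (lev r) ≤ r) ∧
      (∀ r k, thr k ≤ r → k ≤ lev r) ∧ ∀ r k, r < thr (k + 1) → lev r ≤ k := by
  have hp : ∀ k : ℕ, (k + 1) * thr 0 ≤ thr k := by
    intro k
    induction k with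
    | zero => simp
    | succ k ih =>
      have : (0 : ℝ) ≤ k * thr 0 := by positivity
      push_cast
      linarith only [h0, ih, this, hg, hg k]
  have hm : Monotone thr := monotone_nat_of_le_succ fun k => by
    have : (0 : ℝ) ≤ (k + 1) * thr 0 := by positivity
    linarith only [this, hg, hp, hg k, hp k]
  have hb : ∀ r, BddAbove {k | thr k ≤ r} := fun r => ⟨⌈r / thr 0⌉₊, fun k hk => by
    have h1 : (k : ℝ) ≤ r / thr 0 := by
      rw [le_div_iff₀ h0]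
      have : thr k ≤ r := hk
      linarith [hp k]
    exact_mod_cast h1.trans (Nat.le_ceil _)⟩
  refine ⟨fun r => sSup {k | thr k ≤ r}, fun r r' h => csSup_le_csSup' (hb r') fun k hk =>
    le_trans hk h, fun r h => Nat.sSup_mem ⟨0, h⟩ (hb r), fun r k h => le_csSup (hb r) h,
    fun r k h => csSup_le' fun k' hk' => ?_⟩
  by_contra hc
  exact absurd ((hm (not_le.1 hc)).trans hk') (not_le.2 h)

/-- The glued kernel. -/
noncomputable def Fib_sum (w : ℕ → ℝ → ℝ) (K : ℕ → FP → FP → ℝ) (p p' : FP) : ℝ :=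
  ∑' i, w i ‖p.1‖ * w i ‖p'.1‖ * K i p p'

lemma Fib_pick {u v a b A : ℝ} (h : u ^ 2 + v ^ 2 = 1) (hs : u ^ 2 * a + v ^ 2 * b ≤ A) :
    (u ≠ 0 ∧ a ≤ A) ∨ (v ≠ 0 ∧ b ≤ A) := by
  by_cases hu : u = 0
  · have : v ^ 2 = 1 := by simpa [hu] using h
    exact Or.inr ⟨fun hv => by simp [hv] at this, by simpa [hu, this] using hs⟩
  by_cases hv : v = 0
  · have : u ^ 2 = 1 := by simpa [hv] using h
    exact Or.inl ⟨hu, by simpa [hv, this] using hs⟩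
  rcases le_total a b with h1 | h1
  · refine Or.inl ⟨hu, le_trans ?_ hs⟩
    linarith only [h1, h, mul_le_mul_of_nonneg_left h1 (sq_nonneg v), congrArg (· * a) h]
  · refine Or.inr ⟨hv, le_trans ?_ hs⟩
    linarith [mul_le_mul_of_nonneg_left h1 (sq_nonneg u), congrArg (· * b) h]

lemma Fib_err {d g Δ c t t' Q : ℝ} (hd : |d| * g ≤ 5 * |Δ|) (hg : t / 1000 * c ≤ g) (hc : 0 < c)
    (ht : 0 < t) (ht' : t ≤ t') (hQ : 0 < Q) :
    d ^ 2 * (10 * c ^ 2 / Q ^ 2) / (t' / 1000) ≤ 25 * 10 ^ 10 * (1 / (t ^ 3 * Q ^ 2)) * Δ ^ 2 := by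
  have h1 : |d| * (t / 1000 * c) ≤ 5 * |Δ| := (mul_le_mul_of_nonneg_left hg (abs_nonneg d)).trans hd
  have h2 := pow_le_pow_left₀ (by positivity) h1 2
  rw [mul_pow, mul_pow 5, sq_abs, sq_abs] at h2
  calc _ ≤ d ^ 2 * (10 * c ^ 2 / Q ^ 2) / (t / 1000) := by gcongr
    _ = d ^ 2 * (t / 1000 * c) ^ 2 * (10 ^ 10 * (1 / (t ^ 3 * Q ^ 2))) := by field_simp; ring
    _ ≤ 5 ^ 2 * Δ ^ 2 * (10 ^ 10 * (1 / (t ^ 3 * Q ^ 2))) := by gcongr
    _ = _ := by ring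

lemma Fib_far {r Δ t Q : ℝ} (hr : 0 ≤ r) (hg : t / 1000 * r ≤ 2 * |Δ|) (ht : 0 < t) (ht1 : t ≤ 1)
    (hQ : 0 < Q) : 100 * r ^ 2 / Q ^ 2 ≤ 4 * 10 ^ 8 * (1 / (t ^ 3 * Q ^ 2)) * Δ ^ 2 := by
  have h2 := pow_le_pow_left₀ (by positivity) hg 2
  rw [mul_pow 2, sq_abs] at h2
  calc _ = (t / 1000 * r) ^ 2 * (10 ^ 8 * (t / (t ^ 3 * Q ^ 2))) := by field_simp; ring
    _ ≤ 2 ^ 2 * Δ ^ 2 * (10 ^ 8 * (1 / (t ^ 3 * Q ^ 2))) := by gcongr
    _ = _ := by ring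

lemma Fib_fd2 (p p' : FP) : (‖p.1‖ - ‖p'.1‖) ^ 2 ≤ fd2 p p' := by
  have := pow_le_pow_left₀ (abs_nonneg _) (abs_norm_sub_norm_le p.1 p'.1) 2
  rw [sq_abs] at this
  exact this.trans (le_add_of_nonneg_right (sq_nonneg _))

section

variable {q0 : ℕ} {θ r0 : ℝ} {nu : ℝ → ℝ} {c : ℕ → ℝ} {w : ℕ → ℝ → ℝ} {e Q B : ℕ → ℝ}
  {Kc Ko : ℕ → FP → FP → ℝ}

lemma Fib_nf (P : Part r0 nu c w) {r r' : ℝ} (h : 0 ≤ r) (h' : 0 ≤ r') :
    (∀ i, w i r ≠ 0 ∨ w i r' ≠ 0 → Win nu c i r ∧ Win nu c i r') ∨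
      (r0 ≤ max r r' ∧ gap r0 nu (max r r') ≤ 2 * |r - r'| ∧ gap r0 nu r ≤ 2 * |r - r'|) := by
  rcases le_total r' r with h1 | h1
  · rw [max_eq_left h1, abs_of_nonneg (sub_nonneg.2 h1)]
    exact (P.nf r r' h' h1).imp_right fun a => ⟨a.1, a.2.1, a.2.1⟩
  · rw [max_eq_right h1, abs_sub_comm, abs_of_nonneg (sub_nonneg.2 h1)]
    exact (P.nf r' r h h1).imp (fun a i hi => (a i hi.symm).symm) id

lemma Fib_lip (P : Part r0 nu c w) {r r' : ℝ} (h : 0 ≤ r) (h' : 0 ≤ r') (i : ℕ) :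
    |w i r - w i r'| * gap r0 nu (max r r') ≤ 5 * |r - r'| := by
  rcases le_total r' r with h1 | h1
  · rw [max_eq_left h1, abs_of_nonneg (sub_nonneg.2 h1)]
    exact P.lip i r r' h' h1
  · rw [max_eq_right h1, abs_sub_comm r, abs_of_nonneg (sub_nonneg.2 h1), abs_sub_comm]
    exact P.lip i r' r h h1

lemma Fib_psd (P : Part r0 nu c w) {K : ℕ → FP → FP → ℝ} (h : ∀ i, PSD (K i)) :
    PSD (Fib_sum w K) :=
  PSD.wsum h (fun i p => w i ‖p.1‖) fun p => by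
    obtain ⟨j, hj, -⟩ := P.two ‖p.1‖
    exact ⟨j + 2, fun i hi => hj i (by omega) (by omega)⟩

lemma Fib_nd {p p' : FP} {s : Finset ℕ} (hx : ∀ i, i ∉ s → w i ‖p.1‖ = 0)
    (hy : ∀ i, i ∉ s → w i ‖p'.1‖ = 0) (f : ℝ) :
    nd (Fib_sum w Kc) p p' + f * nd (Fib_sum w Ko) p p' = ∑ i ∈ s,
      nd (fun x y : FP => w i ‖x.1‖ * w i ‖y.1‖ * (Kc i x y + f * Ko i x y)) p p' := by
  unfold Fib_sum
  rw [nd_wsum (w := fun i (p : FP) => w i ‖p.1‖) hx hy,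
    nd_wsum (w := fun i (p : FP) => w i ‖p.1‖) hx hy, Finset.mul_sum, ← Finset.sum_add_distrib]
  refine Finset.sum_congr rfl fun i _ => ?_
  simp only [nd]
  ring

lemma Fib_supp (P : Part r0 nu c w) (r r' : ℝ) : ∃ (j : ℕ) (s : Finset ℕ), {j, j + 1} ⊆ s ∧
    s.card ≤ 4 ∧ (∀ i, i ∉ ({j, j + 1} : Finset ℕ) → w i r = 0) ∧ (∀ i, i ∉ s → w i r' = 0) ∧
    w j r ^ 2 + w (j + 1) r ^ 2 = 1 := by
  obtain ⟨j, h1, h2⟩ := P.two r
  obtain ⟨j', h3, -⟩ := P.two r'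
  refine ⟨j, {j, j + 1} ∪ {j', j' + 1}, Finset.subset_union_left,
    (Finset.card_union_le _ _).trans (add_le_add Finset.card_le_two Finset.card_le_two),
    fun i hi => ?_, fun i hi => ?_, h2⟩
  · simp only [Finset.mem_insert, Finset.mem_singleton, not_or] at hi
    exact h1 i hi.1 hi.2
  · simp only [Finset.mem_union, Finset.mem_insert, Finset.mem_singleton, not_or] at hi
    exact h3 i hi.2.1 hi.2.2

lemma Fib_diag (P : Part r0 nu c w) (h : ∀ i p, Ko i p p ≤ 1 / 10) (p : FP) :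
    Fib_sum w Ko p p ≤ 1 / 10 := by
  obtain ⟨j, s, -, -, h1, -, h2⟩ := Fib_supp P ‖p.1‖ 0
  unfold Fib_sum
  rw [wsum_eq (w := fun i (p : FP) => w i ‖p.1‖) p h1, Finset.sum_pair (by omega)]
  linarith only [h2, h, mul_le_mul_of_nonneg_left (h j p) (sq_nonneg (w j ‖p.1‖)),
    mul_le_mul_of_nonneg_left (h (j + 1) p) (sq_nonneg (w (j + 1) ‖p.1‖)), sq_nonneg (w j ‖p.1‖), sq_nonneg (w (j + (1 : ℕ)) ‖p.1‖)]

lemma Fib_abs {K : FP → FP → ℝ} (h : PSD K) (hd : ∀ p, K p p ≤ 1 / 10) (p p' : FP) :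
    |K p p'| ≤ 1 / 10 :=
  (h.abs_le p p').trans ((mul_le_mul (sqrt_le_sqrt (hd p)) (sqrt_le_sqrt (hd p')) (sqrt_nonneg _)
    (sqrt_nonneg _)).trans_eq (mul_self_sqrt (by norm_num)))

variable (P : Part r0 nu c w) (he : ∀ i, 0 < e i)
  (hS : ∀ i, FSmp q0 θ (Win nu c i) (e i) (Q i) (B i) (i = 0) (Kc i) (Ko i)) {p p' : FP} {T E : ℝ}
  (hn : ∀ i, w i ‖p.1‖ ≠ 0 ∨ w i ‖p'.1‖ ≠ 0 → Win nu c i ‖p.1‖ ∧ Win nu c i ‖p'.1‖)
  (hT0 : 0 ≤ T) (hT : ∀ i, Win nu c i ‖p.1‖ → Win nu c i ‖p'.1‖ →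
    (w i ‖p.1‖ - w i ‖p'.1‖) ^ 2 * B i / e i ≤ T)
include he hS hn hT0 hT

lemma Fib_werr {f : ℝ} (hf : f ≤ 21 / 20) (i : ℕ) :
    (w i ‖p.1‖ - w i ‖p'.1‖) ^ 2 * (Kc i p' p' + f * Ko i p' p') / e i ≤ 21 / 20 * T := by
  by_cases h : w i ‖p.1‖ ≠ 0 ∨ w i ‖p'.1‖ ≠ 0
  · have a1 := hT i (hn i h).1 (hn i h).2
    have a2 := (hS i).diag p' (hn i h).2
    have a3 := (hS i).psdc.diag_nonneg p'
    have a4 := mul_le_mul_of_nonneg_right hf ((hS i).psdo.diag_nonneg p')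
    have a5 := he i
    calc _ ≤ (w i ‖p.1‖ - w i ‖p'.1‖) ^ 2 * (21 / 20 * B i) / e i := by
          gcongr
          linarith only [a2, a3, a4]
      _ = 21 / 20 * ((w i ‖p.1‖ - w i ‖p'.1‖) ^ 2 * B i / e i) := by ring
      _ ≤ _ := by linarith only [a1]
  · push Not at h
    rw [h.1, h.2]
    simp only [sub_self, ne_eq, OfNat.ofNat_ne_zero, not_false_eq_true, zero_pow, zero_mul, zero_div]
    positivity

include P

lemma Fib_low (hE : ∀ i, Win nu c i ‖p.1‖ → Win nu c i ‖p'.1‖ →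
      1 / Q i ^ 2 * (‖p.1‖ - ‖p'.1‖) ^ 2 +
        min (9 / Q i * angH p.1 p'.1) (900 / Q i ^ 2 * (‖p.1‖ * ‖p'.1‖)) ≤ E) :
    ∃ k n, l2 * vert p (fib q0 θ k n p') ≤
      nd (Fib_sum w Kc) p p' + 9 / 10 * nd (Fib_sum w Ko) p p' + 3 * T + E := by
  obtain ⟨j, s, s1, -, s2, s3, s4⟩ := Fib_supp P ‖p.1‖ ‖p'.1‖
  have hp : ∀ i, PSD fun x y => Kc i x y + 9 / 10 * Ko i x y := fun i =>
    (hS i).psdc.add ((hS i).psdo.smul (by norm_num))
  have a1 := Finset.sum_le_sum_of_subset_of_nonneg s1 fun i _ _ =>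
    ((hp i).weight fun x : FP => w i ‖x.1‖).nd_nonneg p p'
  rw [← Fib_nd (fun i hi => s2 i fun h => hi (s1 h)) s3, Finset.sum_pair (by omega)] at a1
  have a2 : ∀ i, w i ‖p.1‖ ^ 2 * ((1 - e i) * (nd (Kc i) p p' + 9 / 10 * nd (Ko i) p p')) ≤
      nd (fun x y : FP => w i ‖x.1‖ * w i ‖y.1‖ * (Kc i x y + 9 / 10 * Ko i x y)) p p' +
        21 / 20 * T := by
    intro i
    have b1 := (hp i).nd_weight_lower (fun x : FP => w i ‖x.1‖) p p' (he i)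
    rw [nd_add, nd_smul] at b1
    linarith only [b1, he, hS, hn, hT0, hT, Fib_werr he hS hn hT0 hT (f := 9 / 10) (by norm_num) i]
  have a3 : ∀ i, w i ‖p.1‖ ≠ 0 ∧ (1 - e i) * (nd (Kc i) p p' + 9 / 10 * nd (Ko i) p p') ≤
      nd (Fib_sum w Kc) p p' + 9 / 10 * nd (Fib_sum w Ko) p p' + 3 * T →
      ∃ k n, l2 * vert p (fib q0 θ k n p') ≤
        nd (Fib_sum w Kc) p p' + 9 / 10 * nd (Fib_sum w Ko) p p' + 3 * T + E := by
    intro i hi
    obtain ⟨b1, b2⟩ := hn i (Or.inl hi.1)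
    obtain ⟨k, n, h⟩ := (hS i).low p p' b1 b2
    exact ⟨k, n, by linarith only [hi, h, hE, b1, b2, hE i b1 b2, hi.2]⟩
  exact (Fib_pick s4 (by linarith only [hT0, a1, a2, a2 j, a2 (j + 1)])).elim (a3 j) (a3 (j + 1))

lemma Fib_up (he1 : ∀ i, e i ≤ 1) (hE : ∀ i, w i ‖p.1‖ ≠ 0 →
      (1 + e i) * (nd (Kc i) p p' + 21 / 20 * nd (Ko i) p p') ≤ E) :
    nd (Fib_sum w Kc) p p' + 21 / 20 * nd (Fib_sum w Ko) p p' ≤ E + 9 * T := by
  obtain ⟨j, s, s1, s0, s2, s3, s4⟩ := Fib_supp P ‖p.1‖ ‖p'.1‖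
  have hp : ∀ i, PSD fun x y => Kc i x y + 21 / 20 * Ko i x y := fun i =>
    (hS i).psdc.add ((hS i).psdo.smul (by norm_num))
  have a2 : ∀ i ∈ s,
      nd (fun x y : FP => w i ‖x.1‖ * w i ‖y.1‖ * (Kc i x y + 21 / 20 * Ko i x y)) p p' ≤
        w i ‖p.1‖ ^ 2 * E + 21 / 10 * T := by
    intro i _
    have b1 := (hp i).nd_weight_upper (fun x : FP => w i ‖x.1‖) p p' (he i)
    rw [nd_add, nd_smul] at b1
    have b2 := Fib_werr he hS hn hT0 hT (f := 21 / 20) le_rfl i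
    have b3 : w i ‖p.1‖ ^ 2 * ((1 + e i) * (nd (Kc i) p p' + 21 / 20 * nd (Ko i) p p')) ≤
        w i ‖p.1‖ ^ 2 * E := by
      by_cases h : w i ‖p.1‖ = 0
      · simp [h]
      · exact mul_le_mul_of_nonneg_left (hE i h) (sq_nonneg _)
    have b4 := le_div_self (mul_nonneg (sq_nonneg (w i ‖p.1‖ - w i ‖p'.1‖)) ((hp i).diag_nonneg p'))
      (he i) (he1 i)
    rw [add_mul 1 (1 / e i), one_mul, one_div_mul_eq_div] at b1
    linarith only [b1, b2, b3, b4]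
  have a3 : ∑ i ∈ s, w i ‖p.1‖ ^ 2 = 1 := by
    rw [← Finset.sum_subset s1 fun i _ hi => by rw [s2 i hi]; ring, Finset.sum_pair (by omega), s4]
  have a4 := Finset.sum_le_sum a2
  rw [← Fib_nd (fun i hi => s2 i fun h => hi (s1 h)) s3, Finset.sum_add_distrib, ← Finset.sum_mul,
    a3, Finset.sum_const, nsmul_eq_mul] at a4
  have a5 : (s.card : ℝ) ≤ 4 := by exact_mod_cast s0
  nlinarith only [hT0, a4, a5]

end

theorem fib_out {q0 : ℕ} {θ : ℝ} {q : ℕ → ℕ} {ϑ : ℕ → ℝ} (hq : 0 < q0) (hqe : Even q0)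
    (h0 : ∀ k, 0 < ϑ k) (h1 : ∀ k, ϑ k ≤ 1) (ha : Antitone ϑ)
    (hb : ∀ k, 10 ^ 15 ≤ q k * ϑ (k + 1) ^ 4) (hA : FibArith q0 θ q fun k => ϑ k / 1000) :
    ∃ Kc Ko, FibOut q0 θ (fun j => 2 * ((q j : ℝ) ^ 2 / (ϑ j / 1000))) (fun j => ϑ j / q j)
      (fun j => 10 / q j) (fun j => 1000 / (q j : ℝ) ^ 2)
      (fun j => kap / q j + ϑ j / q j / 10) Kc Ko := by
  have hQ : ∀ k, (10 : ℝ) ^ 15 ≤ q k := fun k =>
    (hb k).trans (mul_le_of_le_one_right (Nat.cast_nonneg _) (pow_le_one₀ (h0 _).le (h1 _)))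
  have Q0 : ∀ k, (0 : ℝ) < q k := fun k => lt_of_lt_of_le (by norm_num) (hQ k)
  have Qg : ∀ k, (8 : ℝ) * q k ≤ q (k + 1) := fun k => by exact_mod_cast hA.grow k
  have Qm : Monotone fun k => (q k : ℝ) := monotone_nat_of_le_succ fun k => by
    linarith only [Qg, Qg k, Q0 k]
  obtain ⟨G, hG⟩ : ∃ G : ℕ → ℝ, ∀ k, G k = 1 / (ϑ (k + 1) ^ 3 * (q k : ℝ) ^ 2) := ⟨_, fun _ => rfl⟩
  have η1 : ∀ j k, j ≤ k → ϑ k / q k ≤ ϑ j / q j := fun j k h =>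
    div_le_div₀ (h0 j).le (ha h) (Q0 j) (Qm h)
  have η0 : ∀ j, 0 < ϑ j / q j := fun j => div_pos (h0 j) (Q0 j)
  have G1 : ∀ j k, j ≤ k → 10 ^ 15 * G k ≤ ϑ j / q j := fun j k h => by
    have a1 := h0 (k + 1)
    have a2 := Q0 k
    calc _ ≤ q k * ϑ (k + 1) ^ 4 * G k := by
          refine mul_le_mul_of_nonneg_right (hb k) ?_
          rw [hG]
          positivity
      _ = ϑ (k + 1) / q k := by rw [hG]; field_simp
      _ ≤ ϑ k / q k := div_le_div_of_nonneg_right (ha (Nat.le_succ k)) a2.le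
      _ ≤ _ := η1 j k h
  have G2 : ∀ j k, j ≤ k → 1 / (q k : ℝ) ^ 2 ≤ ϑ j / q j / 1000 := fun j k h => by
    have a1 := h0 (k + 1)
    have a2 := Q0 k
    obtain a3 : 1 / (q k : ℝ) ^ 2 ≤ G k := by
      rw [hG]
      exact one_div_le_one_div_of_le (by positivity)
        (mul_le_of_le_one_left (by positivity) (pow_le_one₀ a1.le (h1 _)))
    have a4 : 0 ≤ 1 / (q k : ℝ) ^ 2 := by positivity
    linarith only [a3, a4, G1, h, G1 j k h]
  obtain ⟨thr, ht⟩ : ∃ thr : ℕ → ℝ, ∀ k, thr k = (q k : ℝ) ^ 2 / (ϑ k / 1000) := ⟨_, fun _ => rfl⟩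
  have t0 : ∀ k, 0 < thr k := fun k => by
    have := h0 k
    have := Q0 k
    rw [ht]
    positivity
  have tg : ∀ k, 64 * thr k ≤ thr (k + 1) := fun k => by
    have a1 := h0 (k + 1)
    have a2 := ha (Nat.le_succ k)
    rw [ht, ht, ← mul_div_assoc]
    exact div_le_div₀ (sq_nonneg _) (by nlinarith only [Qg k, Q0 k]) (by positivity) (by linarith only [a2])
  obtain ⟨lev, l1, l2', l3, l4⟩ := exists_lev (t0 0) tg
  have l5 : ∀ r r', r' ≤ 8 * r → thr 0 ≤ r → lev r' ≤ lev r + 1 := fun r r' h h' => by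
    refine l4 _ _ ?_
    have a1 : r < thr (lev r + 1) := lt_of_not_ge fun a => by
      have := l3 _ _ a
      omega
    linarith only [h, a1, tg, t0, tg (lev r + 1), t0 (lev r + 1)]
  obtain ⟨nu, hnu⟩ : ∃ nu : ℝ → ℝ, ∀ r, nu r = ϑ (lev r) / 1000 := ⟨_, fun _ => rfl⟩
  have n0 : ∀ r, 0 < nu r := fun r => by rw [hnu]; linarith only [h0, h0 (lev r)]
  have n1 : ∀ r, nu r ≤ 1 / 1000 := fun r => by rw [hnu]; linarith only [h1, h1 (lev r)]
  obtain ⟨c, w, P⟩ := exists_part (t0 0) (nu := nu)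
    (fun r r' h => by rw [hnu, hnu]; linarith only [ha, l1, h, ha (l1 h)]) n0 fun r => by linarith only [n1, n1 r]
  have c0 : ∀ i, 0 < c i := fun i => (t0 0).trans_le (P.ge i)
  have W1 : ∀ i r, Win nu c i r → r ≤ c i * (1 + 5 * nu (c i)) := fun i r h =>
    h.2.2.trans (mul_le_mul_of_nonneg_left (by
      have a1 := n0 (c i)
      have a2 := n1 (c i)
      generalize nu (c i) = x at a1 a2
      (refine le_of_not_gt fun h_nl => ?_; linarith only [h_nl, a1, a2, mul_pos a1 a1, mul_pos a1 (mul_pos a1 a1), mul_nonneg_of_nonpos_of_nonpos (Mathlib.Tactic.Linarith.sub_nonpos_of_le (mul_self_nonneg x)) (Mathlib.Tactic.Linarith.sub_nonpos_of_le a2), mul_nonneg_of_nonpos_of_nonpos (Mathlib.Tactic.Linarith.sub_nonpos_of_le (mul_self_nonneg x)) (le_of_lt (Mathlib.Tactic.Linarith.sub_neg_of_lt (mul_pos a1 (mul_pos a1 a1)))), mul_nonneg_of_nonpos_of_nonpos (le_of_lt (Mathlib.Tactic.Linarith.sub_neg_of_lt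 a1)) (Mathlib.Tactic.Linarith.sub_nonpos_of_le a2), mul_nonneg_of_nonpos_of_nonpos (Mathlib.Tactic.Linarith.sub_nonpos_of_le a2) (le_of_lt (Mathlib.Tactic.Linarith.sub_neg_of_lt h_nl))])) (c0 i).le)
  have W2 : ∀ i r, Win nu c i r → r ≤ 2 * c i := fun i r h => by
    linarith only [W1, h, c0, n1, W1 i r h, n1 (c i), c0 i, mul_nonneg_of_nonpos_of_nonpos (Mathlib.Tactic.Linarith.sub_nonpos_of_le (n1 (c i))) (le_of_lt (Mathlib.Tactic.Linarith.sub_neg_of_lt (c0 i)))]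
  have W3 : ∀ i j r, Win nu c i r → j = 0 ∨ 2 * thr j ≤ r → j ≤ lev (c i) := fun i j r h h' => by
    rcases h' with rfl | h'
    · exact Nat.zero_le _
    · exact l3 _ _ (by linarith only [h', W2, h, W2 i r h])
  obtain W4 : ∀ i r, Win nu c i r → ϑ (lev (c i) + 1) / 1000 * c i ≤ gap (thr 0) nu r := by
    clear * - nu c thr w P W2 c0 ϑ lev ha l5 hnu h0
    intro i r h
    obtain a1 : c i ≤ max r (thr 0) := by
      rcases h.2.1 with rfl | a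
      · rw [P.c0]
        exact le_max_right _ _
      · exact a.trans (le_max_left _ _)
    have a2 : max r (thr 0) ≤ 2 * c i := max_le (W2 i r h) (by linarith [P.ge i, c0 i])
    have a3 := ha (l5 (c i) (4 * max r (thr 0)) (by linarith) (P.ge i))
    rw [gap, hnu]
    exact mul_le_mul (by linarith only [a3]) a1 (c0 i).le (by linarith only [h0, h0 (lev (4 * max r (thr 0)))])
  have W5 : ∀ i r r', Win nu c i r → Win nu c i r' → Win nu c i (max r r') := fun i r r' h h' => by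
    rcases max_choice r r' with a | a <;> rwa [a]
  obtain hS : ∀ i, ∃ Kc Ko, FSmp q0 θ (Win nu c i) (ϑ (lev (c i)) / 1000) (q (lev (c i)))
      (10 * c i ^ 2 / (q (lev (c i)) : ℝ) ^ 2) (i = 0) Kc Ko := by
    clear * - q0 θ nu c ϑ lev q l4 thr w P tg t0 hA Q0 hQ ht hq hqe h0 h1 W2 l2' c0 W1 hnu
    intro i
    by_cases hi : i = 0
    · subst hi
      have a1 : lev (c 0) = 0 := Nat.le_zero.1 (l4 _ _ (by rw [P.c0]; linarith only [tg, t0, tg 0, t0 0]))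
      rw [a1, eq_self, hA.q_zero]
      have a2 := Q0 0
      have a3 := hQ 0
      have a4 := ht 0
      rw [hA.q_zero] at a2 a3 a4
      refine fsmp0 hq hqe ?_ (by linarith only [h0, h0 0]) (by linarith only [h1, h1 0]) hA.th0 ?_ (W2 0)
      · rw [P.c0, a4, le_div_iff₀ (by linarith only [h0, h0 0])]
        nlinarith only [a3, h1 0]
      · rw [P.c0, a4]
        exact hA.th1
    · obtain ⟨k1, m1, k2, m2, h⟩ := hA.fb (lev (c i)) (c i) (ht _ ▸ l2' _ (P.ge i))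
      rw [eq_false hi]
      exact fsmp hq hqe (c0 i) (by linarith [h0 (lev (c i))]) (by linarith only [h1, h1 (lev (c i))])
        (le_trans (by norm_num) (hQ _)) h fun r hr => ⟨hr.2.1.resolve_left hi, hnu _ ▸ W1 i r hr⟩
  choose Kc Ko hS using hS
  have he : ∀ i, 0 < ϑ (lev (c i)) / 1000 := fun i => by linarith only [h0, h0 (lev (c i))]
  have pc := Fib_psd P fun i => (hS i).psdc
  have po := Fib_psd P fun i => (hS i).psdo
  have dg := Fib_diag P fun i => (hS i).diago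
  obtain hT : ∀ j (p p' : FP), j = 0 ∨ 2 * thr j ≤ max ‖p.1‖ ‖p'.1‖ → ∀ i, Win nu c i ‖p.1‖ →
      Win nu c i ‖p'.1‖ → (w i ‖p.1‖ - w i ‖p'.1‖) ^ 2 * (10 * c i ^ 2 / (q (lev (c i)) : ℝ) ^ 2) /
        (ϑ (lev (c i)) / 1000) ≤ ϑ j / q j / 4000 * (‖p.1‖ - ‖p'.1‖) ^ 2 := by
    intro j p p' hj i a1 a2
    have a3 := W5 i _ _ a1 a2
    refine (Fib_err (Fib_lip P (norm_nonneg _) (norm_nonneg _) i) (W4 i _ a3) (c0 i) (h0 _)
      (ha (Nat.le_succ _)) (Q0 _)).trans (mul_le_mul_of_nonneg_right ?_ (sq_nonneg _))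
    rw [← hG]
    linarith only [G1, W3, a3, hj, G1 _ _ (W3 i j _ a3 hj)]
  obtain low : ∀ j (p p' : FP) Θ f, j = 0 ∨ 2 * thr j ≤ max ‖p.1‖ ‖p'.1‖ → |Θ| ≤ 1 → 9 / 10 ≤ f →
      f ≤ 1 → ∃ k n, l2 * vert p (fib q0 θ k n p') ≤
        nd (Fib_sum w Kc) p p' + f * nth (Fib_sum w Ko) Θ p p' + (2 - 2 * Θ) +
          ϑ j / q j / 20 * (‖p.1‖ - ‖p'.1‖) ^ 2 +
          min (10 / q j * angH p.1 p'.1) (1000 / (q j : ℝ) ^ 2 * (‖p.1‖ * ‖p'.1‖)) := by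
    intro j p p' Θ f hj hΘ f1 f2
    obtain a1 : 9 / 10 * nd (Fib_sum w Ko) p p' ≤ f * nth (Fib_sum w Ko) Θ p p' + (2 - 2 * Θ) := by
      clear * - w Ko Θ p p' hΘ po dg f f1 f2
      obtain b1 : nth (Fib_sum w Ko) Θ p p' =
          nd (Fib_sum w Ko) p p' + Fib_sum w Ko p p' * (2 - 2 * Θ) := by
        simp only [nth, nd]
        ring
      have b2 : 0 ≤ 2 - 2 * Θ := by linarith only [hΘ, (abs_le.1 hΘ).2]
      have b3 := mul_le_mul_of_nonneg_right (abs_le.1 (Fib_abs po dg p p')).1 b2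
      have b4 := mul_le_mul_of_nonneg_left b3 (by linarith only [f1] : 0 ≤ f)
      rw [b1]
      linarith only [b2, b4, f1, po, f2, po.nd_nonneg p p', mul_nonneg_of_nonpos_of_nonpos (Mathlib.Tactic.Linarith.sub_nonpos_of_le f1) (Mathlib.Tactic.Linarith.sub_nonpos_of_le (PSD.nd_nonneg po p p')), mul_nonneg_of_nonpos_of_nonpos (Mathlib.Tactic.Linarith.sub_nonpos_of_le f2) (Mathlib.Tactic.Linarith.sub_nonpos_of_le b2)]
    have a2 := mul_nonneg (η0 j).le (sq_nonneg (‖p.1‖ - ‖p'.1‖))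
    have a3 := angH_nonneg p.1 p'.1
    have a4 := Q0 j
    rcases Fib_nf P (norm_nonneg p.1) (norm_nonneg p'.1) with hn | ⟨b1, b2, -⟩
    · obtain ⟨k, n, h⟩ := Fib_low P he hS hn (by linarith only [a2]) (hT j p p' hj)
        (E := ϑ j / q j / 1000 * (‖p.1‖ - ‖p'.1‖) ^ 2 + min (10 / q j * angH p.1 p'.1)
          (1000 / (q j : ℝ) ^ 2 * (‖p.1‖ * ‖p'.1‖))) fun i b1 b2 => by
          clear * - j lev c i W3 p p' W5 b1 b2 hj q Qm ϑ G2 a4 a3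
          have b3 := W3 i j _ (W5 i _ _ b1 b2) hj
          have b4 : (q j : ℝ) ≤ q (lev (c i)) := Qm b3
          refine add_le_add (mul_le_mul_of_nonneg_right (G2 _ _ b3) (sq_nonneg _))
            (min_le_min ?_ ?_) <;> gcongr <;> norm_num
      exact ⟨k, n, by clear * - p q0 θ k n p' w Kc f Ko Θ ϑ j q a1 a2 h; linarith only [a1, a2, h]⟩
    · obtain ⟨r, hr⟩ : ∃ r, r = max ‖p.1‖ ‖p'.1‖ := ⟨_, rfl⟩
      rw [← hr] at b1 b2 hj
      obtain ⟨k1, m1, k2, m2, h⟩ := hA.fb (lev r) r (ht _ ▸ l2' _ b1)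
      obtain ⟨k, n, h'⟩ := fib_cover hq h p p' (hr ▸ le_max_left _ _) (hr ▸ le_max_right _ _)
      have r0 : 0 < r := (t0 0).trans_le b1
      obtain b3 : j ≤ lev r := by
        rcases hj with rfl | hj
        · exact Nat.zero_le _
        · exact l3 _ _ (by linarith only [r0, hj, t0 j])
      have b4 := ha (l5 r (4 * r) (by linarith only [r0]) b1)
      rw [gap, max_eq_left b1, hnu] at b2
      have b5 := Fib_far r0.le ((mul_le_mul_of_nonneg_right (by linarith only [b4]) r0.le).trans b2)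
        (h0 (lev r + 1)) (h1 _) (Q0 (lev r))
      rw [← hG] at b5
      have b6 := mul_le_mul_of_nonneg_right (G1 _ _ b3) (sq_nonneg (‖p.1‖ - ‖p'.1‖))
      have b7 : 0 ≤ min (10 / q j * angH p.1 p'.1) (1000 / (q j : ℝ) ^ 2 * (‖p.1‖ * ‖p'.1‖)) :=
        le_min (by positivity) (by positivity)
      refine ⟨k, n, ?_⟩
      rw [l2]
      clear * - p q0 θ k n p' w Kc f Ko Θ ϑ j q r lev G a1 a2 h' b5 b6 b7 pc po; linarith only [a1, a2, h', b5, b6, b7, pc, po, pc.nd_nonneg p p', po.nd_nonneg p p', vert_nonneg p (fib q0 θ k n p')]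
  obtain up : ∀ j (p : FP), j = 0 ∨ 2 * thr j ≤ ‖p.1‖ → ∃ δ > 0, ∀ p', fd2 p p' < δ → ∀ Θ, |Θ| ≤ 1 →
      nd (Fib_sum w Kc) p p' + 21 / 20 * nth (Fib_sum w Ko) Θ p p' ≤
        ϑ j / q j / 20 * (‖p.1‖ - ‖p'.1‖) ^ 2 + (kap / q j + ϑ j / q j / 10) * angH p.1 p'.1 +
          24 / 25 * vert p p' + 3 * (2 - 2 * Θ) := by
    clear * - thr nu n0 t0 w Kc Ko ϑ q c P η0 q0 θ lev he hS hT h1 W3 G2 Q0 Qm η1 po dg
    intro j p hj
    have g0 : 0 < gap (thr 0) nu ‖p.1‖ := mul_pos (n0 _) ((t0 0).trans_le (le_max_right _ _))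
    obtain ⟨δ, d0, hδ⟩ : ∃ δ > 0, ∀ p', fd2 p p' < δ → ∀ i, w i ‖p.1‖ ≠ 0 →
        100 * fd2 p p' ≤ ‖p.1‖ * ‖p'.1‖ ∨ (i = 0 ∧ p.1 = 0) := by
      clear * - p w thr nu c P t0
      by_cases hp : p.1 = 0
      · refine ⟨1, one_pos, fun p' _ i hi => Or.inr ⟨?_, hp⟩⟩
        by_contra a
        exact hi (P.zero _ (by rw [hp, norm_zero]; exact (t0 0).le) i a)
      · have a1 := norm_pos_iff.2 hp
        refine ⟨‖p.1‖ ^ 2 / 200, by positivity, fun p' h i _ => Or.inl ?_⟩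
        obtain a2 : ‖p.1‖ / 2 ≤ ‖p'.1‖ := by
          by_contra a
          linarith only [h, a1, a, Fib_fd2 p p', norm_nonneg p'.1, sq_nonneg (‖p.1‖ - ‖p'.1‖), mul_pos_of_neg_of_neg (Mathlib.Tactic.Linarith.sub_neg_of_lt a1) (Mathlib.Tactic.Linarith.sub_neg_of_lt (lt_of_not_ge a)), mul_pos_of_neg_of_neg (Mathlib.Tactic.Linarith.sub_neg_of_lt (lt_of_not_ge a)) (Mathlib.Tactic.Linarith.sub_neg_of_lt (lt_of_not_ge a))]
        linarith only [h, a1, a2, mul_nonneg_of_nonpos_of_nonpos (le_of_lt (Mathlib.Tactic.Linarith.sub_neg_of_lt a1)) (Mathlib.Tactic.Linarith.sub_nonpos_of_le a2)]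
    refine ⟨min δ ((gap (thr 0) nu ‖p.1‖ / 2) ^ 2), lt_min d0 (by positivity),
      fun p' h Θ hΘ => ?_⟩
    rw [lt_min_iff] at h
    have a2 := mul_nonneg (η0 j).le (sq_nonneg (‖p.1‖ - ‖p'.1‖))
    have a3 := angH_nonneg p.1 p'.1
    rcases Fib_nf P (norm_nonneg p.1) (norm_nonneg p'.1) with hn | ⟨-, -, b2⟩
    · have b1 := Fib_up P he hS hn (by linarith only [a2])
        (hT j p p' (hj.imp_right fun a => a.trans (le_max_left _ _)))
        (fun i => by linarith only [h1, h1 (lev (c i))])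
        (E := ϑ j / q j / 1000 * (‖p.1‖ - ‖p'.1‖) ^ 2 + (kap / q j + ϑ j / q j / 10) *
          angH p.1 p'.1 + 24 / 25 * vert p p') fun i hi => by
          obtain ⟨b1, b2⟩ := hn i (Or.inl hi)
          have b3 := W3 i j _ b1 hj
          refine ((hS i).up p p' b1 b2 (hδ p' h.1 i hi)).trans (add_le_add (add_le_add
            (mul_le_mul_of_nonneg_right (G2 _ _ b3) (sq_nonneg _))
            (mul_le_mul_of_nonneg_right ?_ a3)) le_rfl)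
          have b4 := div_le_div_of_nonneg_left kap_pos.le (Q0 j) (Qm b3)
          have b5 := G2 _ _ b3
          have b6 := η1 _ _ b3
          have b7 := η0 j
          rw [show 20 * (ϑ (lev (c i)) / 1000) / (q (lev (c i)) : ℝ) =
            ϑ (lev (c i)) / q (lev (c i)) / 50 by ring,
            show 20 / (q (lev (c i)) : ℝ) ^ 2 = 20 * (1 / (q (lev (c i)) : ℝ) ^ 2) by ring]
          linarith only [b4, b5, b6, b7]
      obtain b2 : nth (Fib_sum w Ko) Θ p p' =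
          nd (Fib_sum w Ko) p p' + Fib_sum w Ko p p' * (2 - 2 * Θ) := by
        simp only [nth, nd]
        ring
      have b3 : 0 ≤ 2 - 2 * Θ := by linarith only [hΘ, (abs_le.1 hΘ).2]
      have b4 := mul_le_mul_of_nonneg_right (abs_le.1 (Fib_abs po dg p p')).2 b3
      rw [b2]
      clear * - w Kc p p' Ko Θ ϑ j q a2 b1 b3 b4; linarith only [a2, b1, b3, b4]
    · have b3 := pow_le_pow_left₀ (by positivity)
        (by linarith only [b2] : gap (thr 0) nu ‖p.1‖ / 2 ≤ |‖p.1‖ - ‖p'.1‖|) 2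
      rw [sq_abs] at b3
      linarith only [h, b3, Fib_fd2 p p', h.2]
  have z0 : ∀ (i : ℕ) (p' : FP), ¬ (p'.1 ≠ 0 ∨ i = 0) → w i ‖p'.1‖ = 0 := fun i p' h => by
    push Not at h
    exact P.zero _ (by rw [h.1, norm_zero]; exact (t0 0).le) i h.2
  have z1 : ϑ 0 / q 0 ≤ 1 / 1000 :=
    div_le_div₀ zero_le_one (h1 0) (by norm_num) (le_trans (by norm_num) (hQ 0))
  obtain z2 : 10 / (q 0 : ℝ) ≤ 1 / 1000 := by
    rw [div_le_iff₀ (Q0 0)]
    linarith only [hQ, hQ 0]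
  obtain z3 : kap / q 0 ≤ 1 / 2000 := by
    rw [div_le_iff₀ (Q0 0)]
    linarith only [hQ, hQ 0, kap_le]
  refine ⟨Fib_sum w Kc, Fib_sum w Ko, pc, po, fun k n p p' => tsum_congr fun i => ?_,
    fun k n p p' => tsum_congr fun i => ?_, fun a p p' => tsum_congr fun i => ?_,
    fun a p p' => ?_, fun p => (dg p).trans (by norm_num), fun p p' Θ f a1 a2 a3 => ?_,
    fun j p p' Θ f a0 => low j p p' Θ f (Or.inr (ht j ▸ a0)), fun p ε hε => ?_,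
    fun j p a0 ε hε => ?_⟩
  · rw [show ‖(fib q0 θ k n p').1‖ = ‖p'.1‖ from norm_S3_mul _ _]
    by_cases h : p'.1 ≠ 0 ∨ i = 0
    · rw [(hS i).fibc k n p p' h]
    · rw [z0 i p' h, mul_zero, zero_mul, zero_mul]
  · rw [show ‖(fib q0 θ k n p').1‖ = ‖p'.1‖ from norm_S3_mul _ _, (hS i).fibo]
  · rw [show ‖(fJ a p').1‖ = ‖p'.1‖ from norm_S3_mul _ _]
    by_cases h : p'.1 ≠ 0 ∨ i = 0
    · rw [(hS i).Jc a p p' h]
    · rw [z0 i p' h, mul_zero, zero_mul, zero_mul]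
  · unfold Fib_sum
    rw [← tsum_mul_left]
    refine tsum_congr fun i => ?_
    rw [show ‖(fJ a p').1‖ = ‖p'.1‖ from norm_S3_mul _ _, (hS i).Jo]
    ring
  · obtain ⟨k, n, h⟩ := low 0 p p' Θ f (Or.inl rfl) a1 a2 a3
    have b1 := (min_le_left _ (1000 / (q 0 : ℝ) ^ 2 * (‖p.1‖ * ‖p'.1‖))).trans
      (mul_le_mul_of_nonneg_right z2 (angH_nonneg p.1 p'.1))
    have b2 := mul_le_mul_of_nonneg_right z1 (sq_nonneg (‖p.1‖ - ‖p'.1‖))
    exact ⟨k, n, by clear * - p q0 θ k n p' w Kc f Ko Θ ϑ q h b1 b2; linarith only [h, b1, b2, sq_nonneg (‖p.1‖ - ‖p'.1‖)]⟩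
  · obtain ⟨δ, d0, h⟩ := up 0 p (Or.inl rfl)
    refine ⟨δ, d0, fun p' a1 Θ a2 => ?_⟩
    have b1 := mul_le_mul_of_nonneg_right (by linarith only [z1, z3] : kap / q 0 + ϑ 0 / q 0 / 10 ≤ 1 / 1000)
      (angH_nonneg p.1 p'.1)
    have b2 := mul_le_mul_of_nonneg_right z1 (sq_nonneg (‖p.1‖ - ‖p'.1‖))
    have b3 := mul_nonneg hε.le ((sq_nonneg _).trans (Fib_fd2 p p'))
    clear * - w Kc p p' Ko Θ ε q ϑ b1 b2 b3 h a1 a2; linarith only [b1, b2, b3, h, a1, a2, h p' a1 Θ a2, sq_nonneg (‖p.1‖ - ‖p'.1‖)]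
  · obtain ⟨δ, d0, h⟩ := up j p (Or.inr (ht j ▸ a0))
    exact ⟨δ, d0, fun p' a1 Θ a2 => (h p' a1 Θ a2).trans (le_add_of_nonneg_right
      (mul_nonneg hε.le ((sq_nonneg _).trans (Fib_fd2 p p'))))⟩

end Pool.Agent.Work.MP_0ba68b_gt.CX
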