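import Pool.Agent.Work.MP_0ba68b_gt.CX.GDefs

/-!
The fibre modes.

PLAN.  `md` is the real part of `cin ^ ν * exp (-I κ (t - t'))`, a kernel of finite rank (`FRc_cin`, `FRc.pow`, `FRc_exp`,
`FRc.mul`, `PSD.of_FRc`).  `md (sJ p) (sJ p') = md p p'` (`cin_jj_jj`, conjugation), `md p (sJ (sJ p')) = md p p'` for even `ν`
(`jj_mul_jj`, `cin_ec_right`), hence `md (sJ p) p' = md p (sJ p')`, and the even and odd parts are Gram kernels of
`(F p ± F (sJ p))/2` (as in `symK_base`); `PSD.mul_uu`.  `tw_diag`: `uu_self`.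
Screw: `sJ (ec φ * x, t + n) = (ec (-φ) * (jj * x), -t + (-n))` (`jj_mul_ec`).
`tw = md - od (1 - uu)` with `|od| ≤ 1`; if `cin x x' = c exp (iα)` then `md = c ^ ν cos (ν α - κ (t - t'))`,
`0 ≤ 1 - c ^ ν ≤ min 1 (ν (1 - c))`, `1 - uu = 2 (1 - c²) ≤ min 2 (4 (1 - c))`.
`vert`: `norm_sub_sq_hat` gives `vert = 2 ρ ρ' (‖cin‖ - re cin) + Δt²`; `hat_mul` (if `x' = 0` both sides lose the term);
`cin_ec_right`; `2 - 2 cos α ≤ α²`.  `vert_ge`: `fd2 ≥ 2 ρ ρ' (1 - c cos α)`, so `c cos α ≥ 0.995`, `|α| ≤ 0.11`,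
`2 - 2 cos α ≥ α² (1 - α²/12)` (`Real.cos_le_one_sub_mul_cos_sq`-type, or `cos_bound`, `Real.cos_le_one_sub_sq_div_two_add..`,
or `2 - 2 cos α = 4 sin² (α/2)` with `Real.sin_gt_sub_cube`).
`fib_coord`: Cramer, `al k1 n1 * n2 - al k2 n2 * n1 = (2π/q0) (k1 n2 - k2 n1)`, `cos_neg`.
-/

open scoped Quaternion
open Real

namespace Pool.Agent.Work.MP_0ba68b_gt.CX

noncomputable section

/-- Directions and heights. -/
abbrev SP : Type := S3 × ℝ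

/-- The flip. -/
def sJ (p : SP) : SP := (jj * p.1, -p.2)

/-- The mode with frequencies `ν`, `κ`. -/
def md (ν : ℕ) (κ : ℝ) (p p' : SP) : ℝ :=
  (cin p.1 p'.1 ^ ν * Complex.exp (-(κ * (p.2 - p'.2) : ℝ) * Complex.I)).re

/-- The twisted symmetrisation of the mode. -/
def tw (ν : ℕ) (κ : ℝ) (p p' : SP) : ℝ :=
  (md ν κ p p' + md ν κ p (sJ p')) / 2 + (md ν κ p p' - md ν κ p (sJ p')) / 2 * uu p.1 p'.1

/-- The direction and height of a point. -/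
def sp (p : FP) : SP := (hat p.1, p.2)

/-- The fibre angle. -/
def fa (p p' : FP) : ℝ := Complex.arg (cin (hat p.1) (hat p'.1))

variable {ν : ℕ} {κ : ℝ}

lemma FibM_polar (c : ℂ) (ν : ℕ) (s : ℝ) :
    (c ^ ν * Complex.exp (-(s : ℂ) * Complex.I)).re = ‖c‖ ^ ν * cos (ν * c.arg - s) := by
  have e : c ^ ν * Complex.exp (-(s : ℂ) * Complex.I) =
      ((‖c‖ ^ ν : ℝ) : ℂ) * Complex.exp (((ν * c.arg - s : ℝ) : ℂ) * Complex.I) := by
    conv_lhs => rw [← Complex.norm_mul_exp_arg_mul_I c]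
    rw [mul_pow, ← Complex.exp_nat_mul, mul_assoc, ← Complex.exp_add]
    push_cast
    congr 2
    ring
  rw [e, Complex.re_ofReal_mul, Complex.exp_ofReal_mul_I_re]

lemma FibM_md (ν : ℕ) (κ : ℝ) (p p' : SP) :
    md ν κ p p' = ‖cin p.1 p'.1‖ ^ ν * cos (ν * (cin p.1 p'.1).arg - κ * (p.2 - p'.2)) :=
  FibM_polar _ _ _

lemma FibM_abs (ν : ℕ) (κ : ℝ) (p p' : SP) : |md ν κ p p'| ≤ 1 := by
  rw [FibM_md, abs_mul, abs_of_nonneg (by positivity)]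
  exact mul_le_one₀ (pow_le_one₀ (norm_nonneg _) (norm_cin_le _ _)) (abs_nonneg _)
    (abs_cos_le_one _)

lemma FibM_psd (ν : ℕ) (κ : ℝ) : PSD (md ν κ) := by
  refine (PSD.of_FRc (((FRc_cin.comp fun p : SP => (p.1 : ℍ[ℝ])).pow ν).mul
    (FRc_exp fun p : SP => -(κ * p.2)))).congr fun p p' => ?_
  unfold md
  congr 4
  push_cast
  ring

lemma FibM_JJ (ν : ℕ) (κ : ℝ) (p p' : SP) : md ν κ (sJ p) (sJ p') = md ν κ p p' := by
  unfold md sJ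
  rw [← Complex.conj_re (cin p.1 p'.1 ^ ν * _), map_mul, map_pow, ← Complex.exp_conj]
  simp only [Metric.unitSphere.coe_mul, cin_jj_jj, map_mul, map_neg, Complex.conj_ofReal,
    Complex.conj_I]
  congr 3
  push_cast
  ring

lemma FibM_screw {φ n : ℝ} {l : ℤ} (h : ν * φ - κ * n = 2 * π * l) (p : SP) (x' : S3) (t' : ℝ) :
    md ν κ p (ec φ * x', t' + n) = md ν κ p (x', t') := by
  unfold md
  simp only [Metric.unitSphere.coe_mul, cin_ec_right]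
  have h' : (ν : ℂ) * φ - κ * n = 2 * π * l := by exact_mod_cast h
  have e : (ν : ℂ) * -(φ * Complex.I) + -((κ * (p.2 - (t' + n)) : ℝ) : ℂ) * Complex.I =
      -((κ * (p.2 - t') : ℝ) : ℂ) * Complex.I + (-l : ℤ) * (2 * π * Complex.I) := by
    push_cast
    linear_combination (-Complex.I) * h'
  rw [mul_pow, ← Complex.exp_nat_mul, mul_right_comm, ← Complex.exp_add, e, Complex.exp_add,
    Complex.exp_int_mul_two_pi_mul_I, mul_one, mul_comm]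

lemma FibM_int (hν : Even ν) (κ : ℝ) {φ : ℝ} (h : φ = 0 ∨ φ = π) :
    ∃ l : ℤ, ν * φ - κ * 0 = 2 * π * l := by
  obtain ⟨m, rfl⟩ := hν
  rcases h with rfl | rfl
  · exact ⟨0, by simp⟩
  · exact ⟨m, by push_cast; ring⟩

lemma FibM_J2 (hν : Even ν) (κ : ℝ) (p p' : SP) : md ν κ p (sJ (sJ p')) = md ν κ p p' := by
  obtain ⟨l, hl⟩ := FibM_int hν κ (Or.inr rfl)
  have e : sJ (sJ p') = (ec π * p'.1, p'.2 + 0) := by
    simp only [sJ, ← mul_assoc, jj_mul_jj, neg_neg, add_zero]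
  rw [e, FibM_screw hl]

lemma FibM_sym {X : Type} {K : X → X → ℝ} (h : PSD K) (T : X → X) (s : ℝ) :
    PSD fun x y => K x y + s * K x (T y) + s * K (T x) y + s ^ 2 * K (T x) (T y) := by
  obtain ⟨H, _, _, _, F, hF⟩ := h.exists_map
  refine (PSD.of_map fun x => F x + s • F (T x)).congr fun x y => ?_
  simp only [inner_add_left, inner_add_right, real_inner_smul_left, real_inner_smul_right, hF]
  ring

lemma tw_psd (hν : Even ν) (κ : ℝ) : PSD (tw ν κ) := by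
  have e : ∀ p p', md ν κ (sJ p) p' = md ν κ p (sJ p') := fun p p' => by
    rw [← FibM_J2 hν κ (sJ p) p', FibM_JJ]
  have h1 := (FibM_sym (FibM_psd ν κ) sJ 1).smul (a := 1 / 4) (by norm_num)
  have h2 := ((FibM_sym (FibM_psd ν κ) sJ (-1)).smul (a := 1 / 4) (by norm_num)).mul_uu Prod.fst
  refine (h1.add h2).congr fun p p' => ?_
  simp only [tw, e, FibM_J2 hν]
  ring

lemma tw_diag (ν : ℕ) (κ : ℝ) (p : SP) : tw ν κ p p = 1 := by
  have e : md ν κ p p = 1 := by simp [md, cin_self]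
  rw [tw, uu_self, e]
  ring

lemma tw_J (hν : Even ν) (κ : ℝ) (p p' : SP) : tw ν κ p (sJ p') = tw ν κ p p' := by
  have e : uu p.1 (sJ p').1 = -uu p.1 p'.1 := uu_jj _ _
  rw [tw, tw, FibM_J2 hν, e]
  ring

lemma tw_screw {φ n : ℝ} {l : ℤ} (h : ν * φ - κ * n = 2 * π * l) (p : SP) (x' : S3) (t' : ℝ) :
    tw ν κ p (ec φ * x', t' + n) = tw ν κ p (x', t') := by
  have e : sJ (ec φ * x', t' + n) = (ec (-φ) * (jj * x'), -t' + -n) := by
    simp only [sJ, ← mul_assoc, jj_mul_ec, neg_add]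
  have h' : ν * -φ - κ * -n = 2 * π * (-l : ℤ) := by
    push_cast
    linear_combination -h
  rw [tw, tw, e, FibM_screw h, FibM_screw h', uu_ec]
  rfl

lemma tw_fib {q0 : ℕ} (hq : 0 < q0) (θ : ℝ) (k2 : ℤ) (n2 : ℕ) (k n : ℤ) (p : SP) {p' : FP}
    (h : p'.1 ≠ 0) : tw (q0 * n2) (q0 * al q0 θ k2 n2) p (sp (fib q0 θ k n p')) =
      tw (q0 * n2) (q0 * al q0 θ k2 n2) p (sp p') := by
  have hq' : (q0 : ℝ) ≠ 0 := Nat.cast_ne_zero.2 hq.ne'
  have e : sp (fib q0 θ k n p') = (ec (al q0 θ k n) * hat p'.1, p'.2 + n) := by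
    simp only [sp, fib, hat_mul _ h]
  rw [e]
  refine tw_screw (l := k * n2 - k2 * n) ?_ p _ _
  simp only [al]
  push_cast
  field_simp
  ring

lemma tw_fJ (hν : Even ν) (κ : ℝ) (a : ℤ) (p : SP) {p' : FP} (h : p'.1 ≠ 0) :
    tw ν κ p (sp (fJ a p')) = tw ν κ p (sp p') := by
  have e : sp (fJ a p') = (jj ^ a * hat p'.1, (-1) ^ a * p'.2 + 0) := by
    simp only [sp, fJ, hat_mul _ h, add_zero]
  rw [e]
  rcases Int.even_or_odd a with ha | ha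
  · obtain ⟨φ, e1, e2⟩ := jj_zpow_even ha
    obtain ⟨l, hl⟩ := FibM_int hν κ e2
    rw [e1, tw_screw hl, ha.neg_one_zpow, one_mul]
    rfl
  · obtain ⟨φ, e1, e2⟩ := jj_zpow_odd ha
    obtain ⟨l, hl⟩ := FibM_int hν κ e2
    rw [e1, mul_assoc, tw_screw hl, ha.neg_one_zpow, neg_one_mul]
    exact tw_J hν κ p (sp p')

lemma FibM_real {a b c w u N x : ℝ} (hb : |b| ≤ 1) (ha : |a| ≤ 1) (e : a = w * x) (hx : |x| ≤ 1)
    (hw0 : 0 ≤ w) (hw1 : w ≤ 1) (hw : 1 - w ≤ N * (1 - c)) (hc0 : 0 ≤ c) (hc : c ≤ 1)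
    (hu : u = 2 * c ^ 2 - 1) :
    |2 - 2 * ((a + b) / 2 + (a - b) / 2 * u) - (2 - 2 * x)| ≤ min 6 ((2 * N + 8) * (1 - c)) := by
  have e1 : 2 - 2 * ((a + b) / 2 + (a - b) / 2 * u) - (2 - 2 * x) =
      2 * (1 - w) * x + (a - b) * (1 - u) := by
    linear_combination (-2 : ℝ) * e
  have hu0 : 0 ≤ 1 - u := by nlinarith only [hc, hu, hc0]
  have h1 : |2 * (1 - w) * x| ≤ 2 * (1 - w) := by
    rw [abs_mul, abs_of_nonneg (by linarith)]
    exact mul_le_of_le_one_right (by linarith) hx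
  have h2 : |(a - b) * (1 - u)| ≤ 2 * (1 - u) := by
    rw [abs_mul, abs_of_nonneg hu0]
    exact mul_le_mul_of_nonneg_right ((abs_sub a b).trans (by linarith)) hu0
  rw [e1]
  refine ((abs_add_le _ _).trans (add_le_add h1 h2)).trans (le_min ?_ ?_)
  · nlinarith only [hw0, hu]
  · nlinarith only [hw, hu, sq_nonneg (1 - c)]

lemma FibM_err (ν : ℕ) (κ : ℝ) (p p' : FP) :
    |2 - 2 * tw ν κ (sp p) (sp p') - (2 - 2 * cos (ν * fa p p' - κ * (p.2 - p'.2)))| ≤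
      min 6 ((2 * ν + 8) * (1 - ‖cin (hat p.1) (hat p'.1)‖)) := by
  have h0 := norm_nonneg (cin (hat p.1) (hat p'.1))
  have h1 := norm_cin_le (hat p.1) (hat p'.1)
  refine FibM_real (FibM_abs _ _ _ _) (FibM_abs _ _ _ _) (FibM_md ν κ (sp p) (sp p'))
    (abs_cos_le_one _) (pow_nonneg h0 _) (pow_le_one₀ h0 h1) ?_ h0 h1 rfl
  have := one_add_mul_le_pow (a := ‖cin (hat p.1) (hat p'.1)‖ - 1) (by linarith) ν
  rw [add_sub_cancel] at this
  change 1 - ‖cin (hat p.1) (hat p'.1)‖ ^ ν ≤ _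
  linarith

lemma tw_low (ν : ℕ) (κ : ℝ) (p p' : FP) :
    2 - 2 * cos (ν * fa p p' - κ * (p.2 - p'.2)) -
      min 6 ((2 * ν + 8) * (1 - ‖cin (hat p.1) (hat p'.1)‖)) ≤ 2 - 2 * tw ν κ (sp p) (sp p') := by
  linarith [(abs_le.1 (FibM_err ν κ p p')).1]

lemma tw_up (ν : ℕ) (κ : ℝ) (p p' : FP) :
    2 - 2 * tw ν κ (sp p) (sp p') ≤ 2 - 2 * cos (ν * fa p p' - κ * (p.2 - p'.2)) +
      (2 * ν + 8) * (1 - ‖cin (hat p.1) (hat p'.1)‖) := by
  linarith [(abs_le.1 ((FibM_err ν κ p p').trans (min_le_right _ _))).2]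

lemma FibM_vert (p p' : FP) : vert p p' = 2 * ‖p.1‖ * ‖p'.1‖ *
    (‖cin (hat p.1) (hat p'.1)‖ - (cin (hat p.1) (hat p'.1)).re) + (p.2 - p'.2) ^ 2 := by
  rw [vert, fd2, angH, ang, norm_sub_sq_hat]
  ring

lemma vert_eq (p p' : FP) : vert p p' = 2 * ‖p.1‖ * ‖p'.1‖ *
    (‖cin (hat p.1) (hat p'.1)‖ * (1 - cos (fa p p'))) + (p.2 - p'.2) ^ 2 := by
  rw [FibM_vert, ← Complex.norm_mul_cos_arg (cin (hat p.1) (hat p'.1)), fa]
  ring

lemma vert_nonneg (p p' : FP) : 0 ≤ vert p p' := by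
  have := sub_nonneg.2 (cos_le_one (fa p p'))
  rw [vert_eq]
  positivity

lemma angH_nonneg (x x' : ℍ[ℝ]) : 0 ≤ angH x x' := by
  have := sub_nonneg.2 (norm_cin_le (hat x) (hat x'))
  rw [angH, ang]
  positivity

lemma angH_fib (q0 : ℕ) (θ : ℝ) (k n : ℤ) (x : ℍ[ℝ]) (p' : FP) :
    angH x (fib q0 θ k n p').1 = angH x p'.1 := by
  by_cases h : p'.1 = 0
  · simp only [fib, h, mul_zero]
  · simp only [fib, angH, ang, hat_mul _ h, norm_S3_mul, Metric.unitSphere.coe_mul,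
      norm_cin_ec_right]

lemma vert_fib_le (q0 : ℕ) (θ : ℝ) (k n : ℤ) (p p' : FP) :
    vert p (fib q0 θ k n p') ≤
      ‖p.1‖ * ‖p'.1‖ * (fa p p' - al q0 θ k n) ^ 2 + (p.2 - p'.2 - n) ^ 2 := by
  rw [FibM_vert]
  simp only [fib, norm_S3_mul, sub_add_eq_sub_sub]
  by_cases h : p'.1 = 0
  · simp [h]
  · have e := FibM_polar (cin (hat p.1) (hat p'.1)) 1 (al q0 θ k n)
    rw [pow_one, pow_one, Nat.cast_one, one_mul, neg_mul, mul_comm, ← cin_ec_right] at e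
    rw [hat_mul _ h, Metric.unitSphere.coe_mul, norm_cin_ec_right, e, fa]
    have h1 := norm_cin_le (hat p.1) (hat p'.1)
    have h2 := one_sub_sq_div_two_le_cos (x := (cin (hat p.1) (hat p'.1)).arg - al q0 θ k n)
    have h3 := cos_le_one ((cin (hat p.1) (hat p'.1)).arg - al q0 θ k n)
    have h4 := mul_le_of_le_one_left (sub_nonneg.2 h3) h1
    have h5 : 0 ≤ ‖p.1‖ * ‖p'.1‖ := by positivity
    have h6 := mul_le_mul_of_nonneg_left (h4.trans (sub_le_comm.1 h2)) h5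
    linarith

lemma FibM_small {c α : ℝ} (hc0 : 0 ≤ c) (hc : c ≤ 1) (hα : |α| ≤ π)
    (h : 200 * (1 - c * cos α) ≤ 1) : 99 / 100 * α ^ 2 ≤ 2 * (c * (1 - cos α)) := by
  have h1 := cos_le_one α
  have h2 : c * cos α ≤ c := mul_le_of_le_one_right hc0 h1
  have h3 : 199 / 200 ≤ cos α := by nlinarith
  have h4 := cos_le_one_sub_mul_cos_sq hα
  have hp : π ^ 2 ≤ 16 := by nlinarith only [pi_le_four, pi_pos]
  have h5 : 1 / 8 ≤ 2 / π ^ 2 := by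
    rw [le_div_iff₀ (by positivity)]
    linarith
  have h6 := mul_le_mul_of_nonneg_right h5 (sq_nonneg α)
  have h7 : α ^ 2 ≤ 1 / 25 := by linarith
  have h8 : |α| ≤ 1 := abs_le_one_iff_mul_self_le_one.2 (by nlinarith only [h3, h4, h6])
  have h9 := (abs_le.1 (cos_bound h8)).2
  rw [show |α| ^ 4 = α ^ 2 * α ^ 2 by rw [← sq_abs α]; ring] at h9
  have h10 := mul_le_mul_of_nonneg_right h7 (sq_nonneg α)
  have h11 := mul_le_mul_of_nonneg_right (show 199 / 200 ≤ c by linarith only [h, h2]) (sub_nonneg.2 h1)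
  linarith [sq_nonneg α]

lemma vert_ge (p p' : FP) (h : 100 * fd2 p p' ≤ ‖p.1‖ * ‖p'.1‖) :
    99 / 100 * (‖p.1‖ * ‖p'.1‖ * fa p p' ^ 2) + (p.2 - p'.2) ^ 2 ≤ vert p p' := by
  rw [vert_eq]
  have h5 : 0 ≤ ‖p.1‖ * ‖p'.1‖ := by positivity
  rcases h5.eq_or_lt with h0 | h0
  · rw [mul_assoc 2, ← h0]
    simp
  · have e := Complex.norm_mul_cos_arg (cin (hat p.1) (hat p'.1))
    rw [fd2, norm_sub_sq_hat, ← e] at h
    have h1 := FibM_small (norm_nonneg _) (norm_cin_le (hat p.1) (hat p'.1))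
      (Complex.abs_arg_le_pi (cin (hat p.1) (hat p'.1))) (by
        refine le_of_mul_le_mul_left ?_ h0
        linarith [sq_nonneg (‖p.1‖ - ‖p'.1‖), sq_nonneg (p.2 - p'.2)])
    have h2 := mul_le_mul_of_nonneg_left h1 h5
    rw [fa]
    linarith

lemma fib_coord {q0 : ℕ} (hq : 0 < q0) (θ : ℝ) {k1 n1 k2 n2 : ℤ}
    (hd : k1 * n2 - k2 * n1 = 1 ∨ k1 * n2 - k2 * n1 = -1) (α t : ℝ) : ∃ ζ1 ζ2 : ℝ,
      α = ζ1 * al q0 θ k1 n1 + ζ2 * al q0 θ k2 n2 ∧ t = ζ1 * n1 + ζ2 * n2 ∧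
      cos (q0 * n2 * α - q0 * al q0 θ k2 n2 * t) = cos (2 * π * ζ1) ∧
      cos (q0 * n1 * α - q0 * al q0 θ k1 n1 * t) = cos (2 * π * ζ2) := by
  have hq' : (q0 : ℝ) ≠ 0 := Nat.cast_ne_zero.2 hq.ne'
  have hp := pi_ne_zero
  have e : q0 * (al q0 θ k1 n1 * n2 - al q0 θ k2 n2 * n1) =
      2 * π * ((k1 * n2 - k2 * n1 : ℤ) : ℝ) := by
    simp only [al]
    push_cast
    field_simp
    ring
  generalize al q0 θ k1 n1 = A1 at e ⊢
  generalize al q0 θ k2 n2 = A2 at e ⊢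
  rcases hd with hd | hd
  · rw [hd, Int.cast_one, mul_one] at e
    refine ⟨q0 * (α * n2 - A2 * t) / (2 * π), q0 * (A1 * t - α * n1) / (2 * π), ?_, ?_, ?_, ?_⟩
    · field_simp
      linear_combination (-α) * e
    · field_simp
      linear_combination (-t) * e
    · congr 1
      field_simp
    · rw [← cos_neg]
      congr 1
      field_simp
      ring
  · rw [hd, Int.cast_neg, Int.cast_one, mul_neg, mul_one] at e
    refine ⟨q0 * (A2 * t - α * n2) / (2 * π), q0 * (α * n1 - A1 * t) / (2 * π), ?_, ?_, ?_, ?_⟩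
    · field_simp
      linear_combination α * e
    · field_simp
      linear_combination t * e
    · rw [← cos_neg]
      congr 1
      field_simp
      ring
    · congr 1
      field_simp

lemma al_comb (q0 : ℕ) (θ : ℝ) (k1 n1 k2 n2 a b : ℤ) :
    al q0 θ (a * k1 + b * k2) (a * n1 + b * n2) = a * al q0 θ k1 n1 + b * al q0 θ k2 n2 := by
  simp only [al]
  push_cast
  ring

/-- One sample of the fibre kernel, valid on a window of radii. -/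
structure FSmp (q0 : ℕ) (θ : ℝ) (Wn : ℝ → Prop) (e Q B : ℝ) (z : Prop)
    (Kc Ko : FP → FP → ℝ) : Prop where
  psdc : PSD Kc
  psdo : PSD Ko
  fibc : ∀ k n p p', p'.1 ≠ 0 ∨ z → Kc p (fib q0 θ k n p') = Kc p p'
  fibo : ∀ k n p p', Ko p (fib q0 θ k n p') = Ko p p'
  Jc : ∀ a p p', p'.1 ≠ 0 ∨ z → Kc p (fJ a p') = Kc p p'
  Jo : ∀ a p p', Ko p (fJ a p') = (-1) ^ a * Ko p p'
  diago : ∀ p, Ko p p ≤ 1 / 10
  zero : ¬ z → ∀ p p', Ko p p' = 0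
  diag : ∀ p, Wn ‖p.1‖ → Kc p p + Ko p p ≤ B
  low : ∀ p p', Wn ‖p.1‖ → Wn ‖p'.1‖ → ∃ k n, l2 * vert p (fib q0 θ k n p') ≤
    (1 - e) * (nd Kc p p' + 9 / 10 * nd Ko p p') + 1 / Q ^ 2 * (‖p.1‖ - ‖p'.1‖) ^ 2 +
      min (9 / Q * angH p.1 p'.1) (900 / Q ^ 2 * (‖p.1‖ * ‖p'.1‖))
  up : ∀ p p', Wn ‖p.1‖ → Wn ‖p'.1‖ → 100 * fd2 p p' ≤ ‖p.1‖ * ‖p'.1‖ ∨ (z ∧ p.1 = 0) →
    (1 + e) * (nd Kc p p' + 21 / 20 * nd Ko p p') ≤ 1 / Q ^ 2 * (‖p.1‖ - ‖p'.1‖) ^ 2 +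
      (kap / Q + 20 * e / Q + 20 / Q ^ 2) * angH p.1 p'.1 + 24 / 25 * vert p p'

end

end Pool.Agent.Work.MP_0ba68b_gt.CX
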