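import Pool.Agent.Work.MP_0ba68b_gt.CX.FibM

/-!
The samples of the fibre kernel.

PLAN.  `γ² = l2 (1 + 13 e)`.  `fsmp`: `f₁`, `f₂` the two lengths at radius `c0`, `Kc = (γ² f₁²/16) tw (q0 n2) (q0 al k2 n2) +
(γ² f₂²/16) tw (q0 n1) (q0 al k1 n1)` composed with `sp` (use `n1.toNat`, `n2.toNat`), `Ko = 0`.  `nd = ∑ (γ² f²/16) (2 - 2 tw)`.
With `ζ` from `fib_coord` for `(fa p p', Δt)`: `c0² α² + t² = f₁² ζ₁² + f₂² ζ₂² + 2 ζ₁ ζ₂ (inner)` lies between `(1 ∓ e) (f₁² ζ₁² + f₂² ζ₂²)`.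
`low`: subtract `round ζ` (`al_comb`, `vert_fib_le`), `2 - 2 cos (2π ζ) = 4 sin² (π ξ) ≥ 16 ξ²` for `ξ = ζ - round ζ`
(`Real.mul_abs_le_abs_sin`), `ρ ρ' ≤ (1 + 5e)² c0²`, `(1 + 5e)² (1 + e) ≤ (1 - e) (1 + 13 e)`.
`up`: `2 - 2 cos (2π ζ) ≤ 4π² ζ²`, `vert_ge`, `c0² ≤ ρ ρ'`.  Angular terms: `1 - c = angH/(2 ρ ρ') ≤ angH/(2 c0²)`,
Lagrange identity `f₁² f₂² - inner² = c0² (2π/q0)²`, so `f₁² q0 n2/c0² ≤ 4π² n2/((1 - e²) q0 f₂²)`; `cost`, `len1`, `len2`;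
`γ² π²/4 = kap (1 + 13 e)`.
`fsmp0`: `a² = γ² (2π/q0)²/16`, `Kc = a² ‖x‖ ‖x'‖ tw q0 (q0 θ) + (9/400) cos (2π t) cos (2π t')`, `Ko = (9/400) sin (2π t) sin (2π t')`
(`q0 θ = q0 al 0 1`, `tw_fib` with `k2 = 0`, `n2 = 1`); `nd_amp`.  `low`: `n = round Δt`, `ξ₂ = Δt - n`, `k = round ((α - θ Δt) q0/2π)`,
`α - al k n = (2π/q0) ξ₁ + θ ξ₂`, `(u + v)² ≤ (1 + e) u² + (1 + 1/e) v²`, `ρ θ ≤ e`.
`up`: `2 - 2 cos (q0 (α - θ Δt)) ≤ q0² (α - θ Δt)²`, `(21/20) (9/400) 4π² ≤ 0.933`.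
-/

open scoped Quaternion
open Real

namespace Pool.Agent.Work.MP_0ba68b_gt.CX

lemma FibSmp_cos_low (ζ : ℝ) : 16 * (ζ - round ζ) ^ 2 ≤ 2 - 2 * cos (2 * π * ζ) := by
  have h1 : cos (2 * π * ζ) = cos (2 * π * (ζ - round ζ)) := by
    rw [← cos_sub_int_mul_two_pi (2 * π * ζ) (round ζ)]
    congr 1
    ring
  have h2 := abs_sub_round ζ
  have h3 : |2 * π * (ζ - round ζ)| ≤ π := by
    rw [abs_mul, abs_of_pos (by positivity : 0 < 2 * π)]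
    linarith only [h2, pi_pos, mul_nonneg_of_nonpos_of_nonpos (Mathlib.Tactic.Linarith.sub_nonpos_of_le h2) (le_of_lt (Mathlib.Tactic.Linarith.sub_neg_of_lt pi_pos))]
  have h4 := cos_le_one_sub_mul_cos_sq h3
  have h5 : 2 / π ^ 2 * (2 * π * (ζ - round ζ)) ^ 2 = 8 * (ζ - round ζ) ^ 2 := by
    field_simp
    ring
  rw [h1]
  linarith only [h4, h5]

lemma FibSmp_cos_up (x : ℝ) : 2 - 2 * cos x ≤ x ^ 2 := by
  have := one_sub_sq_div_two_le_cos (x := x)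
  linarith only [this]

lemma FibSmp_cross {e f1 f2 I : ℝ} (he : 0 ≤ e) (h : |I| ≤ e * (f1 * f2)) (x y : ℝ) :
    |2 * x * y * I| ≤ e * (f1 ^ 2 * x ^ 2 + f2 ^ 2 * y ^ 2) := by
  have h1 : |2 * x * y * I| = 2 * |x| * |y| * |I| := by
    rw [abs_mul, abs_mul, abs_mul, abs_two]
  have h2 : 2 * |x| * |y| * |I| ≤ 2 * |x| * |y| * (e * (f1 * f2)) :=
    mul_le_mul_of_nonneg_left h (by positivity)
  have h3 : 2 * |x| * |y| * (f1 * f2) ≤ f1 ^ 2 * x ^ 2 + f2 ^ 2 * y ^ 2 := by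
    rw [← sq_abs x, ← sq_abs y]
    linarith only [sq_nonneg (f1 * |x| - f2 * |y|)]
  have h4 := mul_le_mul_of_nonneg_left h3 he
  rw [h1]
  linarith only [h2, h4]

lemma FibSmp_flen_sq (q0 : ℕ) (θ ρ : ℝ) (k n : ℤ) :
    flen q0 θ ρ k n ^ 2 = ρ ^ 2 * al q0 θ k n ^ 2 + (n : ℝ) ^ 2 := by
  unfold flen
  rw [sq_sqrt (by positivity)]

lemma FibSmp_flen_nonneg (q0 : ℕ) (θ ρ : ℝ) (k n : ℤ) : 0 ≤ flen q0 θ ρ k n := sqrt_nonneg _

lemma FibSmp_lagr {q0 : ℕ} (hq : 0 < q0) (θ : ℝ) {k1 n1 k2 n2 : ℤ}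
    (hd : k1 * n2 - k2 * n1 = 1 ∨ k1 * n2 - k2 * n1 = -1) :
    (q0 : ℝ) ^ 2 * (al q0 θ k1 n1 * n2 - al q0 θ k2 n2 * n1) ^ 2 = 4 * π ^ 2 := by
  have hq' : (q0 : ℝ) ≠ 0 := by positivity
  have h1 : (q0 : ℝ) * (al q0 θ k1 n1 * n2 - al q0 θ k2 n2 * n1) =
      2 * π * ((k1 * n2 - k2 * n1 : ℤ) : ℝ) := by
    unfold al
    push_cast
    field_simp
    ring
  rw [← mul_pow, h1]
  rcases hd with h | h <;> rw [h] <;> push_cast <;> ring

/-- The angular sum. -/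
lemma FibSmp_angsum {q c0 e Q F1 F2 I n1 n2 : ℝ} (hq : 0 < q) (hc : 0 < c0) (he : 0 < e)
    (he1 : e ≤ 1 / 1000) (hQ : 0 < Q) (h1 : 0 ≤ F1) (h2 : 0 ≤ F2)
    (hL : q ^ 2 * (F1 * F2 - I ^ 2) = 4 * π ^ 2 * c0 ^ 2) (hI : I ^ 2 ≤ e ^ 2 * (F1 * F2))
    (hcost : n1 / (q * F1) + n2 / (q * F2) ≤ (1 + e) / Q) :
    (1 - e) * (F1 * (q * n2) + F2 * (q * n1)) ≤ 4 * π ^ 2 * c0 ^ 2 / Q := by
  have hpos : 0 < F1 * F2 := by
    have h3 : 0 < q ^ 2 * (F1 * F2 - I ^ 2) := by rw [hL]; positivity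
    have h4 : 0 < F1 * F2 - I ^ 2 := (mul_pos_iff_of_pos_left (by positivity)).1 h3
    linarith only [h4, sq_nonneg I]
  have hF1 : 0 < F1 := by
    rcases h1.eq_or_lt with h | h
    · rw [← h] at hpos; simp at hpos
    · exact h
  have hF2 : 0 < F2 := (mul_pos_iff_of_pos_left hF1).1 hpos
  have e1 : F1 * (q * n2) + F2 * (q * n1) =
      q ^ 2 * (F1 * F2) * (n1 / (q * F1) + n2 / (q * F2)) := by
    field_simp
    ring
  have h5 : q ^ 2 * (F1 * F2) * (n1 / (q * F1) + n2 / (q * F2)) ≤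
      q ^ 2 * (F1 * F2) * ((1 + e) / Q) := mul_le_mul_of_nonneg_left hcost (by positivity)
  have h6 : (1 - e ^ 2) * (q ^ 2 * (F1 * F2)) ≤ 4 * π ^ 2 * c0 ^ 2 := by
    have := mul_le_mul_of_nonneg_left hI (sq_nonneg q)
    linarith only [hL, this]
  have h7 : (1 - e) * (q ^ 2 * (F1 * F2) * ((1 + e) / Q)) =
      (1 - e ^ 2) * (q ^ 2 * (F1 * F2)) / Q := by
    field_simp
    ring
  calc (1 - e) * (F1 * (q * n2) + F2 * (q * n1))
      ≤ (1 - e) * (q ^ 2 * (F1 * F2) * ((1 + e) / Q)) := by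
        rw [e1]; exact mul_le_mul_of_nonneg_left h5 (by linarith only [he, he1])
    _ ≤ _ := by rw [h7]; exact div_le_div_of_nonneg_right h6 hQ.le

lemma FibSmp_sq_le {f c0 Q : ℝ} (h0 : 0 ≤ f) (h : f ≤ 10 * c0 / Q) :
    f ^ 2 ≤ 100 * (c0 ^ 2 * (1 / Q) ^ 2) := by
  have := pow_le_pow_left₀ h0 h 2
  calc f ^ 2 ≤ (10 * c0 / Q) ^ 2 := this
    _ = _ := by ring

/-- The angular error, in terms of `P = 1 / Q`. -/
lemma FibSmp_err {c0 e P F1 F2 ν1 ν2 u R : ℝ} (he : 0 < e) (hP : 0 ≤ P)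
    (hu : 0 ≤ u) (hR : c0 ^ 2 ≤ R) (h1 : 0 ≤ F1) (h2 : 0 ≤ F2)
    (hF1 : F1 ≤ 100 * (c0 ^ 2 * P ^ 2)) (hF2 : F2 ≤ 100 * (c0 ^ 2 * P ^ 2))
    (hs : (1 - e) * (F1 * ν2 + F2 * ν1) ≤ 4 * π ^ 2 * c0 ^ 2 * P) :
    (1 - e) * (l2 * (1 + 13 * e) / 16 * (F1 * ((2 * ν2 + 8) * u) + F2 * ((2 * ν1 + 8) * u))) ≤
      (1 + 13 * e) * (kap * P + 50 * l2 * P ^ 2) * (2 * R * u) := by
  have hl : 0 < l2 := by unfold l2; norm_num
  have h3 : (1 - e) * (F1 * (2 * ν2 + 8) + F2 * (2 * ν1 + 8)) ≤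
      (8 * π ^ 2 * P + 1600 * P ^ 2) * c0 ^ 2 := by
    linarith only [hF1, hF2, hs, he, h1, h2, mul_nonneg he.le h1, mul_nonneg he.le h2]
  have h4 : (8 * π ^ 2 * P + 1600 * P ^ 2) * c0 ^ 2 ≤ (8 * π ^ 2 * P + 1600 * P ^ 2) * R :=
    mul_le_mul_of_nonneg_left hR (by positivity)
  have h5 := mul_le_mul_of_nonneg_left (h3.trans h4)
    (by positivity : 0 ≤ l2 * (1 + 13 * e) / 16 * u)
  unfold kap
  linarith only [h5]

lemma FibSmp_angH (x x' : ℍ[ℝ]) :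
    angH x x' = 2 * (‖x‖ * ‖x'‖) * (1 - ‖cin (hat x) (hat x')‖) := by
  unfold angH ang
  ring

lemma FibSmp_l2 : l2 = 63 / 200 := rfl

lemma FibSmp_low_main {e c0 R F1 F2 a1 a2 n1 n2 ξ1 ξ2 : ℝ} (he : 0 < e) (he1 : e ≤ 1 / 1000)
    (hR : R ≤ c0 ^ 2 * (1 + 5 * e) ^ 2) (hF1 : F1 = c0 ^ 2 * a1 ^ 2 + n1 ^ 2)
    (hF2 : F2 = c0 ^ 2 * a2 ^ 2 + n2 ^ 2)
    (hI : |2 * ξ1 * ξ2 * (c0 ^ 2 * (a1 * a2) + n1 * n2)| ≤ e * (F1 * ξ1 ^ 2 + F2 * ξ2 ^ 2)) :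
    R * (ξ1 * a1 + ξ2 * a2) ^ 2 + (ξ1 * n1 + ξ2 * n2) ^ 2 ≤
      (1 - e) * (1 + 13 * e) * (F1 * ξ1 ^ 2 + F2 * ξ2 ^ 2) := by
  have h0 : 0 ≤ F1 * ξ1 ^ 2 + F2 * ξ2 ^ 2 := by rw [hF1, hF2]; positivity
  have h1 : c0 ^ 2 * (ξ1 * a1 + ξ2 * a2) ^ 2 + (ξ1 * n1 + ξ2 * n2) ^ 2 ≤
      (1 + e) * (F1 * ξ1 ^ 2 + F2 * ξ2 ^ 2) := by
    have := (abs_le.1 hI).2
    have e1 : c0 ^ 2 * (ξ1 * a1 + ξ2 * a2) ^ 2 + (ξ1 * n1 + ξ2 * n2) ^ 2 =
        F1 * ξ1 ^ 2 + F2 * ξ2 ^ 2 + 2 * ξ1 * ξ2 * (c0 ^ 2 * (a1 * a2) + n1 * n2) := by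
      rw [hF1, hF2]; ring
    linarith only [this, e1]
  have h2 : R * (ξ1 * a1 + ξ2 * a2) ^ 2 ≤ c0 ^ 2 * (1 + 5 * e) ^ 2 * (ξ1 * a1 + ξ2 * a2) ^ 2 :=
    mul_le_mul_of_nonneg_right hR (sq_nonneg _)
  have h3 : (ξ1 * n1 + ξ2 * n2) ^ 2 ≤ (1 + 5 * e) ^ 2 * (ξ1 * n1 + ξ2 * n2) ^ 2 :=
    le_mul_of_one_le_left (sq_nonneg _) (by nlinarith only [he])
  have h4 := mul_le_mul_of_nonneg_left h1 (sq_nonneg (1 + 5 * e))
  have h5 : (1 + 5 * e) ^ 2 * (1 + e) ≤ (1 - e) * (1 + 13 * e) := by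
    have : e ^ 2 ≤ e / 1000 := by nlinarith only [he, he1]
    have : e ^ 3 ≤ e / 1000 := by nlinarith only [he, this, he1]
    linarith
  have h6 := mul_le_mul_of_nonneg_right h5 h0
  linarith only [h2, h3, h4, h6]

lemma FibSmp_up_main {e c0 R F1 F2 a1 a2 n1 n2 ζ1 ζ2 V : ℝ} (he : 0 < e) (he1 : e ≤ 1 / 1000)
    (hR : c0 ^ 2 ≤ R) (hF1 : F1 = c0 ^ 2 * a1 ^ 2 + n1 ^ 2)
    (hF2 : F2 = c0 ^ 2 * a2 ^ 2 + n2 ^ 2)
    (hI : |2 * ζ1 * ζ2 * (c0 ^ 2 * (a1 * a2) + n1 * n2)| ≤ e * (F1 * ζ1 ^ 2 + F2 * ζ2 ^ 2))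
    (hV : 99 / 100 * (R * (ζ1 * a1 + ζ2 * a2) ^ 2) + (ζ1 * n1 + ζ2 * n2) ^ 2 ≤ V) :
    (1 + e) * ((1 + 13 * e) * kap * (F1 * ζ1 ^ 2 + F2 * ζ2 ^ 2)) ≤ 24 / 25 * V := by
  have h0 : 0 ≤ F1 * ζ1 ^ 2 + F2 * ζ2 ^ 2 := by rw [hF1, hF2]; positivity
  have h1 : (1 - e) * (F1 * ζ1 ^ 2 + F2 * ζ2 ^ 2) ≤
      c0 ^ 2 * (ζ1 * a1 + ζ2 * a2) ^ 2 + (ζ1 * n1 + ζ2 * n2) ^ 2 := by
    have := (abs_le.1 hI).1
    have e1 : c0 ^ 2 * (ζ1 * a1 + ζ2 * a2) ^ 2 + (ζ1 * n1 + ζ2 * n2) ^ 2 =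
        F1 * ζ1 ^ 2 + F2 * ζ2 ^ 2 + 2 * ζ1 * ζ2 * (c0 ^ 2 * (a1 * a2) + n1 * n2) := by
      rw [hF1, hF2]; ring
    linarith only [this, e1]
  have h2 : c0 ^ 2 * (ζ1 * a1 + ζ2 * a2) ^ 2 ≤ R * (ζ1 * a1 + ζ2 * a2) ^ 2 :=
    mul_le_mul_of_nonneg_right hR (sq_nonneg _)
  have h3 : 99 / 100 * ((1 - e) * (F1 * ζ1 ^ 2 + F2 * ζ2 ^ 2)) ≤ V := by
    linarith only [hV, h1, h2, sq_nonneg (ζ1 * n1 + ζ2 * n2)]
  have h4 : (1 + e) * ((1 + 13 * e) * kap) ≤ 24 / 25 * (99 / 100 * (1 - e)) := by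
    have h5 : (1 + e) * (1 + 13 * e) ≤ 11 / 10 := by nlinarith only [he, he1]
    have h6 := mul_le_mul h5 kap_le kap_pos.le (by norm_num)
    linarith only [he, he1, h6]
  have h7 := mul_le_mul_of_nonneg_right h4 h0
  nlinarith only [hV, h1, h2, h7]

lemma FibSmp_coef_low {e P : ℝ} (he : 0 < e) (he1 : e ≤ 1 / 1000) (hP : 0 ≤ P) (hP1 : P ≤ 1 / 2) :
    (1 + 13 * e) * (kap * P + 50 * l2 * P ^ 2) ≤ 9 * P := by
  have h1 : kap * P ≤ 4 / 5 * P := mul_le_mul_of_nonneg_right kap_le hP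
  have h2 : P ^ 2 ≤ P / 2 := by (refine le_of_not_gt fun h_nl => ?_; linarith only [h_nl, he, he1, hP, hP1, mul_pos_of_neg_of_neg (Mathlib.Tactic.Linarith.sub_neg_of_lt he) (Mathlib.Tactic.Linarith.sub_neg_of_lt h_nl), mul_nonneg_of_nonpos_of_nonpos (Mathlib.Tactic.Linarith.sub_nonpos_of_le he1) (le_of_lt (Mathlib.Tactic.Linarith.sub_neg_of_lt h_nl)), mul_nonneg_of_nonpos_of_nonpos (Mathlib.Tactic.Linarith.sub_nonpos_of_le hP) (Mathlib.Tactic.Linarith.sub_nonpos_of_le hP1)])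
  have h3 : kap * P + 50 * l2 * P ^ 2 ≤ 347 / 40 * P := by
    rw [FibSmp_l2]; linarith only [h1, h2]
  have h4 : (1 + 13 * e) * (kap * P + 50 * l2 * P ^ 2) ≤ (1 + 13 * e) * (347 / 40 * P) :=
    mul_le_mul_of_nonneg_left h3 (by positivity)
  nlinarith only [hP, h4, he1]

lemma FibSmp_coef_up {e P : ℝ} (he : 0 < e) (he1 : e ≤ 1 / 1000) (hP : 0 ≤ P) :
    (1 + e) * ((1 + 13 * e) * (kap * P + 50 * l2 * P ^ 2)) ≤
      (1 - e) * (kap * P + 20 * e * P + 20 * P ^ 2) := by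
  have h1 : (1 + e) * (1 + 13 * e) * kap ≤ (1 - e) * (kap + 20 * e) := by
    have h2 : e * kap ≤ e * (4 / 5) := mul_le_mul_of_nonneg_left kap_le he.le
    have h3 : e ^ 2 * kap ≤ e ^ 2 * (4 / 5) := mul_le_mul_of_nonneg_left kap_le (sq_nonneg _)
    have h4 : e ^ 2 ≤ e / 1000 := by nlinarith only [he, he1]
    linarith only [he, h2, h3, h4]
  have h2 : (1 + e) * (1 + 13 * e) * (50 * l2) ≤ (1 - e) * 20 := by
    rw [FibSmp_l2]; linarith only [he, he1, mul_nonneg_of_nonpos_of_nonpos (le_of_lt (Mathlib.Tactic.Linarith.sub_neg_of_lt he)) (Mathlib.Tactic.Linarith.sub_nonpos_of_le he1)]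
  have h3 := mul_le_mul_of_nonneg_right h1 hP
  have h4 := mul_le_mul_of_nonneg_right h2 (sq_nonneg P)
  linarith only [h3, h4]

lemma FibSmp_sq_add {e : ℝ} (he : 0 < e) (x y w : ℝ) (hw : w ≤ e ^ 2) (R θ : ℝ) (hR : 0 ≤ R)
    (h : R * θ ^ 2 = w) : R * (x + θ * y) ^ 2 ≤ (1 + e) * (R * x ^ 2) + (e + e ^ 2) * y ^ 2 := by
  have h1 : e * (x + θ * y) ^ 2 ≤ e * ((1 + e) * x ^ 2) + (1 + e) * (θ * y) ^ 2 := by
    linarith [sq_nonneg (e * x - θ * y)]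
  have h2 := mul_le_mul_of_nonneg_left h1 hR
  have h3 : (1 + e) * (w * y ^ 2) ≤ (1 + e) * (e ^ 2 * y ^ 2) :=
    mul_le_mul_of_nonneg_left (mul_le_mul_of_nonneg_right hw (sq_nonneg _)) (by linarith)
  refine le_of_mul_le_mul_left ?_ he
  have e1 : R * (e * ((1 + e) * x ^ 2) + (1 + e) * (θ * y) ^ 2) =
      e * ((1 + e) * (R * x ^ 2)) + (1 + e) * (w * y ^ 2) := by rw [← h]; ring
  linarith only [h2, h3, e1]

lemma FibSmp_cs (s t : ℝ) :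
    (cos (2 * π * s) - cos (2 * π * t)) ^ 2 + (sin (2 * π * s) - sin (2 * π * t)) ^ 2 =
      2 - 2 * cos (2 * π * (s - t)) := by
  rw [mul_sub (2 * π), cos_sub]
  linarith only [sin_sq_add_cos_sq (2 * π * s), sin_sq_add_cos_sq (2 * π * t)]

lemma FibSmp_G {e : ℝ} (he : 0 < e) (he1 : e ≤ 1 / 1000) :
    0 ≤ (1 + 13 * e) * kap ∧ (1 + e) * ((1 + 13 * e) * kap) ≤ 82 / 100 ∧
      (1 + e) * ((1 + 13 * e) * kap) ≤ kap + 20 * e := by
  have hk := kap_pos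
  have h2 : e * kap ≤ e * (4 / 5) := mul_le_mul_of_nonneg_left kap_le he.le
  have h3 : e ^ 2 * kap ≤ e ^ 2 * (4 / 5) := mul_le_mul_of_nonneg_left kap_le (sq_nonneg _)
  have h4 : e ^ 2 ≤ e / 1000 := by linarith only [he, he1, mul_nonneg_of_nonpos_of_nonpos (le_of_lt (Mathlib.Tactic.Linarith.sub_neg_of_lt he)) (Mathlib.Tactic.Linarith.sub_nonpos_of_le he1)]
  have h5 := kap_le
  refine ⟨by positivity, by linarith only [he, he1, h2, h3, h4, h5], by linarith only [he, h2, h3, h4]⟩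

lemma FibSmp_low0 {e R X Y S T M : ℝ} (he : 0 < e) (he1 : e ≤ 1 / 1000) (hX : 0 ≤ X)
    (hY : 0 ≤ Y) (hS : S ≤ (1 + e) * X + (e + e ^ 2) * Y + Y)
    (hT : (1 + 13 * e) * l2 * X - M + 81 / 250 * Y ≤ T) (hM : (1 - e) * M ≤ R) :
    l2 * S ≤ (1 - e) * T + R := by
  rw [FibSmp_l2] at hT ⊢
  have h1 := mul_le_mul_of_nonneg_left hT (by linarith only [he, he1] : 0 ≤ 1 - e)
  have h4 : e ^ 2 ≤ e / 1000 := by nlinarith only [he, he1]
  have h2 : 63 / 200 * (1 + e) * X ≤ (1 - e) * ((1 + 13 * e) * (63 / 200)) * X :=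
    mul_le_mul_of_nonneg_right (by linarith only [he, h4]) hX
  have h3 : 63 / 200 * (1 + e + e ^ 2) * Y ≤ (1 - e) * (81 / 250) * Y :=
    mul_le_mul_of_nonneg_right (by linarith only [he, he1, h4]) hY
  linarith only [hS, hM, h1, h2, h3]

lemma FibSmp_up0 {e G X Y Z C V : ℝ} (he : 0 < e) (he1 : e ≤ 1 / 1000) (hX : 0 ≤ X)
    (hY : 0 ≤ Y) (hG0 : 0 ≤ G) (hG : (1 + e) * G ≤ 82 / 100)
    (hZ : Z ≤ (1 + e) * X + (e + e ^ 2) * Y) (hC : C ≤ 4 * π ^ 2 * Y)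
    (hV : 99 / 100 * X + Y ≤ V) :
    (1 + e) * (G * Z + 189 / 8000 * C) ≤ 24 / 25 * V := by
  have hpi : π ^ 2 ≤ 10 := by nlinarith only [he, he1, pi_lt_d2, pi_pos]
  have h4 : e ^ 2 ≤ e / 1000 := by nlinarith only [he, he1]
  have h1 : Z ≤ 1001 / 1000 * X + 2 / 1000 * Y := by
    have a1 : (1 + e) * X ≤ 1001 / 1000 * X := mul_le_mul_of_nonneg_right (by linarith only [he1]) hX
    have a2 : (e + e ^ 2) * Y ≤ 2 / 1000 * Y := mul_le_mul_of_nonneg_right (by linarith only [he, he1, h4]) hY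
    linarith only [hZ, a1, a2]
  have h2 : (1 + e) * G * Z ≤ 82 / 100 * (1001 / 1000 * X + 2 / 1000 * Y) :=
    (mul_le_mul_of_nonneg_left h1 (by positivity)).trans
      (mul_le_mul_of_nonneg_right hG (by positivity))
  have h3 : C ≤ 40 * Y := by nlinarith only [hC, he, he1, hY, hpi]
  have h5 : (1 + e) * C ≤ 1001 / 1000 * (40 * Y) :=
    (mul_le_mul_of_nonneg_left h3 (by positivity)).trans
      (mul_le_mul_of_nonneg_right (by linarith only [he1]) (by positivity))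
  linarith only [hX, hY, hV, h2, h5]

theorem fsmp {q0 : ℕ} {θ c0 e Q : ℝ} {k1 n1 k2 n2 : ℤ} {Wn : ℝ → Prop} (hq : 0 < q0)
    (hqe : Even q0) (hc : 0 < c0) (he : 0 < e) (he1 : e ≤ 1 / 1000) (hQ : 2 ≤ Q)
    (hb : FBas q0 θ c0 e Q k1 n1 k2 n2) (hW : ∀ r, Wn r → c0 ≤ r ∧ r ≤ c0 * (1 + 5 * e)) :
    ∃ Kc Ko, FSmp q0 θ Wn e Q (10 * c0 ^ 2 / Q ^ 2) False Kc Ko := by
  obtain ⟨hn1, hn2, hdet, horth, hcost, hl1, hl2⟩ := hb
  lift n1 to ℕ using hn1 with N1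
  lift n2 to ℕ using hn2 with N2
  have hl : 0 < l2 := by unfold l2; norm_num
  have hQ0 : 0 < Q := by linarith only [he, he1, hQ]
  have hq' : (0 : ℝ) < q0 := by exact_mod_cast hq
  set a1 := al q0 θ k1 N1 with ha1
  set a2 := al q0 θ k2 N2 with ha2
  set f1 := flen q0 θ c0 k1 N1 with hf1
  set f2 := flen q0 θ c0 k2 N2 with hf2
  have hF1 : f1 ^ 2 = c0 ^ 2 * a1 ^ 2 + (N1 : ℝ) ^ 2 := by
    rw [hf1, FibSmp_flen_sq]; push_cast; rfl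
  have hF2 : f2 ^ 2 = c0 ^ 2 * a2 ^ 2 + (N2 : ℝ) ^ 2 := by
    rw [hf2, FibSmp_flen_sq]; push_cast; rfl
  have h01 : 0 ≤ f1 := FibSmp_flen_nonneg _ _ _ _ _
  have h02 : 0 ≤ f2 := FibSmp_flen_nonneg _ _ _ _ _
  simp only [Int.cast_natCast] at horth hcost
  set P : ℝ := 1 / Q with hP
  have hP0 : 0 ≤ P := by positivity
  have hP1 : P ≤ 1 / 2 := one_div_le_one_div_of_le (by norm_num) hQ
  have hs1 : f1 ^ 2 ≤ 100 * (c0 ^ 2 * P ^ 2) := FibSmp_sq_le h01 hl1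
  have hs2 : f2 ^ 2 ≤ 100 * (c0 ^ 2 * P ^ 2) := FibSmp_sq_le h02 hl2
  have hL : (q0 : ℝ) ^ 2 * (f1 ^ 2 * f2 ^ 2 - (c0 ^ 2 * (a1 * a2) + N1 * N2) ^ 2) =
      4 * π ^ 2 * c0 ^ 2 := by
    have := FibSmp_lagr hq θ hdet
    simp only [Int.cast_natCast] at this
    rw [hF1, hF2, ← this]
    ring
  have hI : (c0 ^ 2 * (a1 * a2) + N1 * N2) ^ 2 ≤ e ^ 2 * (f1 ^ 2 * f2 ^ 2) := by
    have := pow_le_pow_left₀ (abs_nonneg _) horth 2
    rw [sq_abs] at this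
    calc _ ≤ _ := this
      _ = _ := by ring
  have hsum : (1 - e) * (f1 ^ 2 * (q0 * N2) + f2 ^ 2 * (q0 * N1)) ≤ 4 * π ^ 2 * c0 ^ 2 * P := by
    have := FibSmp_angsum hq' hc he he1 hQ0 (sq_nonneg f1) (sq_nonneg f2) hL hI hcost
    calc _ ≤ _ := this
      _ = _ := by rw [hP]; ring
  set g : ℝ := l2 * (1 + 13 * e) / 16 with hg
  have hg0 : 0 ≤ g := by positivity
  have hg1 : g ≤ 1 / 50 := by rw [hg, FibSmp_l2]; linarith only [he, he1]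
  have hnd : ∀ p p' : FP, nd (fun p p' : FP =>
      g * f1 ^ 2 * tw (q0 * N2) (q0 * a2) (sp p) (sp p') +
        g * f2 ^ 2 * tw (q0 * N1) (q0 * a1) (sp p) (sp p')) p p' =
      g * (f1 ^ 2 * (2 - 2 * tw (q0 * N2) (q0 * a2) (sp p) (sp p')) +
        f2 ^ 2 * (2 - 2 * tw (q0 * N1) (q0 * a1) (sp p) (sp p'))) := by
    intro p p'
    simp only [nd, tw_diag]
    ring
  have hnd0 : ∀ p p' : FP, nd (fun _ _ : FP => (0 : ℝ)) p p' = 0 := by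
    intro p p'; simp [nd]
  refine ⟨fun p p' => g * f1 ^ 2 * tw (q0 * N2) (q0 * a2) (sp p) (sp p') +
      g * f2 ^ 2 * tw (q0 * N1) (q0 * a1) (sp p) (sp p'), fun _ _ => 0, ?_, PSD.zero, ?_, ?_, ?_,
      ?_, ?_, ?_, ?_, ?_, ?_⟩
  · exact (((tw_psd (hqe.mul_right N2) _).comp sp).smul (by positivity)).add
      (((tw_psd (hqe.mul_right N1) _).comp sp).smul (by positivity))
  · intro k n p p' h
    have h' : p'.1 ≠ 0 := h.resolve_right not_false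
    simp only [ha1, ha2, tw_fib hq θ _ _ k n _ h']
  · intro _ _ _ _; rfl
  · intro a p p' h
    have h' : p'.1 ≠ 0 := h.resolve_right not_false
    simp only [tw_fJ (hqe.mul_right N2) _ a _ h', tw_fJ (hqe.mul_right N1) _ a _ h']
  · intro _ _ _; simp
  · intro _; norm_num
  · intro _ _ _; rfl
  · intro p _
    simp only [tw_diag]
    have e1 : 10 * c0 ^ 2 / Q ^ 2 = 10 * (c0 ^ 2 * P ^ 2) := by rw [hP]; ring
    have h1 := mul_le_mul hg1 (add_le_add hs1 hs2) (by positivity) (by norm_num)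
    have h2 : 0 ≤ c0 ^ 2 * P ^ 2 := by positivity
    rw [e1]
    linarith only [h1, h2]
  · intro p p' hp hp'
    obtain ⟨hp1, hp2⟩ := hW _ hp
    obtain ⟨hp1', hp2'⟩ := hW _ hp'
    obtain ⟨ζ1, ζ2, hα, ht, hc1, hc2⟩ := fib_coord hq θ hdet (fa p p') (p.2 - p'.2)
    simp only [Int.cast_natCast] at ht hc1 hc2
    rw [← ha1, ← ha2] at hα
    rw [← ha2] at hc1
    rw [← ha1] at hc2
    refine ⟨round ζ1 * k1 + round ζ2 * k2, round ζ1 * N1 + round ζ2 * N2, ?_⟩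
    have hv := vert_fib_le q0 θ (round ζ1 * k1 + round ζ2 * k2) (round ζ1 * N1 + round ζ2 * N2) p p'
    rw [al_comb, ← ha1, ← ha2] at hv
    set ξ1 := ζ1 - round ζ1 with hξ1
    set ξ2 := ζ2 - round ζ2 with hξ2
    have e1 : fa p p' - (round ζ1 * a1 + round ζ2 * a2) = ξ1 * a1 + ξ2 * a2 := by
      rw [hα, hξ1, hξ2]; ring
    have e2 : p.2 - p'.2 - ((round ζ1 * N1 + round ζ2 * N2 : ℤ) : ℝ) = ξ1 * N1 + ξ2 * N2 := by
      rw [ht, hξ1, hξ2]; push_cast; ring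
    rw [e1, e2] at hv
    set R := ‖p.1‖ * ‖p'.1‖ with hR
    have hR1 : c0 ^ 2 ≤ R := by
      rw [hR, sq]; exact mul_le_mul hp1 hp1' hc.le (norm_nonneg _)
    have hR2 : R ≤ c0 ^ 2 * (1 + 5 * e) ^ 2 := by
      have := mul_le_mul hp2 hp2' (norm_nonneg _) (by positivity)
      calc R ≤ _ := this
        _ = _ := by ring
    have hm := FibSmp_low_main he he1 hR2 hF1 hF2 (FibSmp_cross he.le horth ξ1 ξ2)
    have t1 := tw_low (q0 * N2) (q0 * a2) p p'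
    have t2 := tw_low (q0 * N1) (q0 * a1) p p'
    push_cast at t1 t2
    rw [hc1] at t1
    rw [hc2] at t2
    have c1 := FibSmp_cos_low ζ1
    have c2 := FibSmp_cos_low ζ2
    rw [← hξ1] at c1
    rw [← hξ2] at c2
    set u := 1 - ‖cin (hat p.1) (hat p'.1)‖ with hu
    have hu0 : 0 ≤ u := by have := norm_cin_le (hat p.1) (hat p'.1); linarith only [this]
    have hA : angH p.1 p'.1 = 2 * R * u := FibSmp_angH _ _
    have hRu : 0 ≤ 2 * R * u :=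
      mul_nonneg (mul_nonneg zero_le_two ((sq_nonneg c0).trans hR1)) hu0
    set M1 := min 6 ((2 * ((q0 : ℝ) * N2) + 8) * u) with hM1
    set M2 := min 6 ((2 * ((q0 : ℝ) * N1) + 8) * u) with hM2
    have herr : (1 - e) * (g * (f1 ^ 2 * M1 + f2 ^ 2 * M2)) ≤
        min (9 / Q * angH p.1 p'.1) (900 / Q ^ 2 * R) := by
      refine le_min ?_ ?_
      · have h1 := FibSmp_err he hP0 hu0 hR1 (sq_nonneg f1) (sq_nonneg f2) hs1 hs2 hsum
        have h2 : f1 ^ 2 * M1 + f2 ^ 2 * M2 ≤ f1 ^ 2 * ((2 * ((q0 : ℝ) * N2) + 8) * u) +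
            f2 ^ 2 * ((2 * ((q0 : ℝ) * N1) + 8) * u) :=
          add_le_add (mul_le_mul_of_nonneg_left (min_le_right _ _) (sq_nonneg _))
            (mul_le_mul_of_nonneg_left (min_le_right _ _) (sq_nonneg _))
        have h3 := mul_le_mul_of_nonneg_left (mul_le_mul_of_nonneg_left h2 hg0)
          (by linarith only [he, he1] : 0 ≤ 1 - e)
        have h4 := mul_le_mul_of_nonneg_right (FibSmp_coef_low he he1 hP0 hP1)
          hRu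
        have e3 : 9 / Q * angH p.1 p'.1 = 9 * P * (2 * R * u) := by rw [hA, hP]; ring
        rw [e3]
        exact h3.trans (h1.trans h4)
      · have h2 : f1 ^ 2 * M1 + f2 ^ 2 * M2 ≤ f1 ^ 2 * 6 + f2 ^ 2 * 6 :=
          add_le_add (mul_le_mul_of_nonneg_left (min_le_left _ _) (sq_nonneg _))
            (mul_le_mul_of_nonneg_left (min_le_left _ _) (sq_nonneg _))
        have h3 : c0 ^ 2 * P ^ 2 ≤ R * P ^ 2 := mul_le_mul_of_nonneg_right hR1 (sq_nonneg _)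
        have h4 : f1 ^ 2 * M1 + f2 ^ 2 * M2 ≤ 1200 * (R * P ^ 2) := by linarith only [hs1, hs2, h2, h3]
        have h5 : 0 ≤ R * P ^ 2 := by have : 0 ≤ c0 ^ 2 * P ^ 2 := by positivity
                                      linarith only [h3, this]
        have h6 : g * (f1 ^ 2 * M1 + f2 ^ 2 * M2) ≤ 1 / 50 * (1200 * (R * P ^ 2)) :=
          (mul_le_mul_of_nonneg_left h4 hg0).trans
            (mul_le_mul_of_nonneg_right hg1 (by linarith only [h5]))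
        have h7 := mul_le_mul_of_nonneg_left h6 (by linarith only [he, he1] : 0 ≤ 1 - e)
        have e3 : 900 / Q ^ 2 * R = 900 * (R * P ^ 2) := by rw [hP]; ring
        have h8 : 0 ≤ e * (R * P ^ 2) := mul_nonneg he.le h5
        rw [e3]
        linarith only [h5, h7, h8]
    have hlow : g * (16 * (f1 ^ 2 * ξ1 ^ 2 + f2 ^ 2 * ξ2 ^ 2) - (f1 ^ 2 * M1 + f2 ^ 2 * M2)) ≤
        g * (f1 ^ 2 * (2 - 2 * tw (q0 * N2) (q0 * a2) (sp p) (sp p')) +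
          f2 ^ 2 * (2 - 2 * tw (q0 * N1) (q0 * a1) (sp p) (sp p'))) := by
      refine mul_le_mul_of_nonneg_left ?_ hg0
      have h1 := mul_le_mul_of_nonneg_left (by linarith only [c1, t1] :
        16 * ξ1 ^ 2 - M1 ≤ 2 - 2 * tw (q0 * N2) (q0 * a2) (sp p) (sp p')) (sq_nonneg f1)
      have h2 := mul_le_mul_of_nonneg_left (by linarith only [c2, t2] :
        16 * ξ2 ^ 2 - M2 ≤ 2 - 2 * tw (q0 * N1) (q0 * a1) (sp p) (sp p')) (sq_nonneg f2)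
      linarith only [h1, h2]
    rw [hnd, hnd0]
    have h8 := mul_le_mul_of_nonneg_left hlow (by linarith only [he, he1] : 0 ≤ 1 - e)
    have h9 := mul_le_mul_of_nonneg_left (hv.trans hm) hl.le
    have h10 : 0 ≤ 1 / Q ^ 2 * (‖p.1‖ - ‖p'.1‖) ^ 2 := by positivity
    have e4 : l2 * ((1 - e) * (1 + 13 * e) * (f1 ^ 2 * ξ1 ^ 2 + f2 ^ 2 * ξ2 ^ 2)) =
        (1 - e) * (g * (16 * (f1 ^ 2 * ξ1 ^ 2 + f2 ^ 2 * ξ2 ^ 2))) := by rw [hg]; ring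
    have e5 : (1 - e) * (g * (16 * (f1 ^ 2 * ξ1 ^ 2 + f2 ^ 2 * ξ2 ^ 2) -
        (f1 ^ 2 * M1 + f2 ^ 2 * M2))) =
        (1 - e) * (g * (16 * (f1 ^ 2 * ξ1 ^ 2 + f2 ^ 2 * ξ2 ^ 2))) -
          (1 - e) * (g * (f1 ^ 2 * M1 + f2 ^ 2 * M2)) := by ring
    simp only [mul_zero, add_zero]
    linarith only [herr, h8, h9, h10, e4]
  · intro p p' hp hp' hcl
    have hcl' : 100 * fd2 p p' ≤ ‖p.1‖ * ‖p'.1‖ := hcl.resolve_right fun h => h.1
    obtain ⟨hp1, -⟩ := hW _ hp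
    obtain ⟨hp1', -⟩ := hW _ hp'
    obtain ⟨ζ1, ζ2, hα, ht, hc1, hc2⟩ := fib_coord hq θ hdet (fa p p') (p.2 - p'.2)
    simp only [Int.cast_natCast] at ht hc1 hc2
    rw [← ha1, ← ha2] at hα
    rw [← ha2] at hc1
    rw [← ha1] at hc2
    have hv := vert_ge p p' hcl'
    set R := ‖p.1‖ * ‖p'.1‖ with hR
    have hR1 : c0 ^ 2 ≤ R := by
      rw [hR, sq]; exact mul_le_mul hp1 hp1' hc.le (norm_nonneg _)
    have t1 := tw_up (q0 * N2) (q0 * a2) p p'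
    have t2 := tw_up (q0 * N1) (q0 * a1) p p'
    push_cast at t1 t2
    rw [hc1] at t1
    rw [hc2] at t2
    rw [hα, ht] at hv
    have hm := FibSmp_up_main he he1 hR1 hF1 hF2 (FibSmp_cross he.le horth ζ1 ζ2) hv
    have c1 := FibSmp_cos_up (2 * π * ζ1)
    have c2 := FibSmp_cos_up (2 * π * ζ2)
    set u := 1 - ‖cin (hat p.1) (hat p'.1)‖ with hu
    have hu0 : 0 ≤ u := by have := norm_cin_le (hat p.1) (hat p'.1); linarith only [this]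
    have hA : angH p.1 p'.1 = 2 * R * u := FibSmp_angH _ _
    have hRu : 0 ≤ 2 * R * u :=
      mul_nonneg (mul_nonneg zero_le_two ((sq_nonneg c0).trans hR1)) hu0
    set M1 := (2 * ((q0 : ℝ) * N2) + 8) * u with hM1
    set M2 := (2 * ((q0 : ℝ) * N1) + 8) * u with hM2
    have herr : (1 + e) * (g * (f1 ^ 2 * M1 + f2 ^ 2 * M2)) ≤
        (kap / Q + 20 * e / Q + 20 / Q ^ 2) * angH p.1 p'.1 := by
      have h1 := FibSmp_err he hP0 hu0 hR1 (sq_nonneg f1) (sq_nonneg f2) hs1 hs2 hsum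
      have h4 := mul_le_mul_of_nonneg_right (FibSmp_coef_up he he1 hP0)
          hRu
      have e3 : (kap / Q + 20 * e / Q + 20 / Q ^ 2) * angH p.1 p'.1 =
          (kap * P + 20 * e * P + 20 * P ^ 2) * (2 * R * u) := by rw [hA, hP]; ring
      rw [e3]
      have h5 := mul_le_mul_of_nonneg_left h1 (by linarith only [he, he1] : 0 ≤ 1 + e)
      refine le_of_mul_le_mul_left ?_ (by linarith only [he, he1] : 0 < 1 - e)
      calc (1 - e) * ((1 + e) * (g * (f1 ^ 2 * M1 + f2 ^ 2 * M2)))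
          = (1 + e) * ((1 - e) * (g * (f1 ^ 2 * M1 + f2 ^ 2 * M2))) := by ring
        _ ≤ _ := h5
        _ = (1 + e) * ((1 + 13 * e) * (kap * P + 50 * l2 * P ^ 2)) * (2 * R * u) := by ring
        _ ≤ _ := h4
        _ = _ := by ring
    have hup : g * (f1 ^ 2 * (2 - 2 * tw (q0 * N2) (q0 * a2) (sp p) (sp p')) +
          f2 ^ 2 * (2 - 2 * tw (q0 * N1) (q0 * a1) (sp p) (sp p'))) ≤
        g * (4 * π ^ 2 * (f1 ^ 2 * ζ1 ^ 2 + f2 ^ 2 * ζ2 ^ 2) + (f1 ^ 2 * M1 + f2 ^ 2 * M2)) := by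
      refine mul_le_mul_of_nonneg_left ?_ hg0
      have h1 := mul_le_mul_of_nonneg_left (by linarith only [c1, t1] :
        2 - 2 * tw (q0 * N2) (q0 * a2) (sp p) (sp p') ≤ (2 * π * ζ1) ^ 2 + M1) (sq_nonneg f1)
      have h2 := mul_le_mul_of_nonneg_left (by linarith only [c2, t2] :
        2 - 2 * tw (q0 * N1) (q0 * a1) (sp p) (sp p') ≤ (2 * π * ζ2) ^ 2 + M2) (sq_nonneg f2)
      linarith only [h1, h2]
    rw [hnd, hnd0]
    have h8 := mul_le_mul_of_nonneg_left hup (by linarith only [he, he1] : 0 ≤ 1 + e)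
    have h10 : 0 ≤ 1 / Q ^ 2 * (‖p.1‖ - ‖p'.1‖) ^ 2 := by positivity
    have e5 : (1 + e) * (g * (4 * π ^ 2 * (f1 ^ 2 * ζ1 ^ 2 + f2 ^ 2 * ζ2 ^ 2) +
        (f1 ^ 2 * M1 + f2 ^ 2 * M2))) =
        (1 + e) * ((1 + 13 * e) * kap * (f1 ^ 2 * ζ1 ^ 2 + f2 ^ 2 * ζ2 ^ 2)) +
          (1 + e) * (g * (f1 ^ 2 * M1 + f2 ^ 2 * M2)) := by rw [hg]; unfold kap; ring
    simp only [mul_zero, add_zero]
    linarith only [hm, herr, h8, h10, e5]

theorem fsmp0 {q0 : ℕ} {θ r0 e : ℝ} {Wn : ℝ → Prop} (hq : 0 < q0) (hqe : Even q0)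
    (hr : (q0 : ℝ) ≤ r0) (he : 0 < e) (he1 : e ≤ 1 / 1000) (hθ : 0 ≤ θ) (hθ1 : 2 * r0 * θ ≤ e)
    (hW : ∀ r, Wn r → r ≤ 2 * r0) :
    ∃ Kc Ko, FSmp q0 θ Wn e q0 (10 * r0 ^ 2 / (q0 : ℝ) ^ 2) True Kc Ko := by
  have hq' : (0 : ℝ) < q0 := by exact_mod_cast hq
  have hq1 : (1 : ℝ) ≤ q0 := by exact_mod_cast hq
  obtain ⟨hG0, hG1, hG2⟩ := FibSmp_G he he1
  set G : ℝ := (1 + 13 * e) * kap with hG
  have hG3 : G ≤ 82 / 100 := by nlinarith only [hG1, he, hG0]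
  set P : ℝ := 1 / q0 with hP
  have hP0 : 0 < P := by positivity
  have hPq : P * q0 = 1 := by rw [hP]; field_simp
  have hP1 : P ≤ 1 := by nlinarith only [hq1, hPq, hq']
  have hal : al q0 θ 0 ((1 : ℕ) : ℤ) = θ := by simp [al]
  have htf : ∀ (k n : ℤ) (p : SP) {p' : FP}, p'.1 ≠ 0 →
      tw q0 (q0 * θ) p (sp (fib q0 θ k n p')) = tw q0 (q0 * θ) p (sp p') := by
    intro k n p p' h
    have := tw_fib hq θ 0 1 k n p h
    rwa [hal, mul_one] at this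
  have hRθ : ∀ p p' : FP, Wn ‖p.1‖ → Wn ‖p'.1‖ → ‖p.1‖ * ‖p'.1‖ * θ ^ 2 ≤ e ^ 2 := by
    intro p p' hp hp'
    have h1 : ‖p.1‖ * θ ≤ e := (mul_le_mul_of_nonneg_right (hW _ hp) hθ).trans hθ1
    have h2 : ‖p'.1‖ * θ ≤ e := (mul_le_mul_of_nonneg_right (hW _ hp') hθ).trans hθ1
    calc ‖p.1‖ * ‖p'.1‖ * θ ^ 2 = (‖p.1‖ * θ) * (‖p'.1‖ * θ) := by ring
      _ ≤ e * e := mul_le_mul h1 h2 (by positivity) he.le
      _ = e ^ 2 := by ring
  have hndc : ∀ p p' : FP, nd (fun p p' : FP =>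
      G * P ^ 2 * (‖p.1‖ * ‖p'.1‖ * tw q0 (q0 * θ) (sp p) (sp p')) +
        9 / 400 * (cos (2 * π * p.2) * cos (2 * π * p'.2))) p p' =
      G * P ^ 2 * ((‖p.1‖ - ‖p'.1‖) ^ 2 +
        ‖p.1‖ * ‖p'.1‖ * (2 - 2 * tw q0 (q0 * θ) (sp p) (sp p'))) +
        9 / 400 * (cos (2 * π * p.2) - cos (2 * π * p'.2)) ^ 2 := by
    intro p p'
    simp only [nd, tw_diag]
    ring
  have hndo : ∀ p p' : FP, nd (fun p p' : FP =>
      9 / 400 * (sin (2 * π * p.2) * sin (2 * π * p'.2))) p p' =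
      9 / 400 * (sin (2 * π * p.2) - sin (2 * π * p'.2)) ^ 2 := by
    intro p p'
    simp only [nd]
    ring
  refine ⟨fun p p' => G * P ^ 2 * (‖p.1‖ * ‖p'.1‖ * tw q0 (q0 * θ) (sp p) (sp p')) +
      9 / 400 * (cos (2 * π * p.2) * cos (2 * π * p'.2)),
    fun p p' => 9 / 400 * (sin (2 * π * p.2) * sin (2 * π * p'.2)), ?_, ?_, ?_, ?_, ?_,
      ?_, ?_, ?_, ?_, ?_, ?_⟩
  · exact ((((tw_psd hqe _).comp sp).weight fun p : FP => ‖p.1‖).smul (by positivity)).add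
      ((PSD.rankOne fun p : FP => cos (2 * π * p.2)).smul (by norm_num))
  · exact (PSD.rankOne fun p : FP => sin (2 * π * p.2)).smul (by norm_num)
  · intro k n p p' _
    have h1 : ‖(fib q0 θ k n p').1‖ = ‖p'.1‖ := norm_S3_mul _ _
    have h2 : cos (2 * π * (fib q0 θ k n p').2) = cos (2 * π * p'.2) := by
      rw [← cos_add_int_mul_two_pi (2 * π * p'.2) n]
      congr 1
      simp only [fib]
      ring
    simp only [h1, h2]
    by_cases h : p'.1 = 0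
    · simp [h]
    · rw [htf k n _ h]
  · intro k n p p'
    have h2 : sin (2 * π * (fib q0 θ k n p').2) = sin (2 * π * p'.2) := by
      rw [← sin_add_int_mul_two_pi (2 * π * p'.2) n]
      congr 1
      simp only [fib]
      ring
    simp only [h2]
  · intro a p p' _
    have h1 : ‖(fJ a p').1‖ = ‖p'.1‖ := norm_S3_mul _ _
    have h2 : cos (2 * π * (fJ a p').2) = cos (2 * π * p'.2) := by
      simp only [fJ]
      rcases Int.even_or_odd a with h | h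
      · rw [h.neg_one_zpow, one_mul]
      · rw [h.neg_one_zpow, neg_one_mul, mul_neg, cos_neg]
    simp only [h1, h2]
    by_cases h : p'.1 = 0
    · simp [h]
    · rw [tw_fJ hqe _ a _ h]
  · intro a p p'
    simp only [fJ]
    rcases Int.even_or_odd a with h | h
    · rw [h.neg_one_zpow, one_mul, one_mul]
    · rw [h.neg_one_zpow, neg_one_mul, mul_neg, sin_neg]
      ring
  · intro p
    have := sin_sq_le_one (2 * π * p.2)
    show 9 / 400 * (sin (2 * π * p.2) * sin (2 * π * p.2)) ≤ 1 / 10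
    linarith only [he, he1, this]
  · intro h
    exact absurd trivial h
  · intro p hp
    simp only [tw_diag]
    have h1 := sin_sq_add_cos_sq (2 * π * p.2)
    have h2 : ‖p.1‖ * ‖p.1‖ ≤ 2 * r0 * (2 * r0) :=
      mul_le_mul (hW _ hp) (hW _ hp) (norm_nonneg _) (by linarith only [hr, he, he1, hq1])
    have h3 : 1 ≤ r0 * P := by nlinarith only [hPq, hr, hP0]
    have h4 : 1 ≤ (r0 * P) ^ 2 := one_le_pow₀ h3
    have h5 : G * (P ^ 2 * (‖p.1‖ * ‖p.1‖)) ≤ 82 / 100 * (P ^ 2 * (2 * r0 * (2 * r0))) :=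
      mul_le_mul hG3 (mul_le_mul_of_nonneg_left h2 (sq_nonneg _)) (by positivity) (by norm_num)
    have e1 : 10 * r0 ^ 2 / (q0 : ℝ) ^ 2 = 10 * (r0 * P) ^ 2 := by rw [hP]; ring
    rw [e1]
    linarith only [he, he1, h1, h4, h5]
  · intro p p' hp hp'
    set α := fa p p' with hα
    set t := p.2 - p'.2 with ht
    set ζ := (α - θ * t) * q0 / (2 * π) with hζ
    refine ⟨round ζ, round t, ?_⟩
    have hv := vert_fib_le q0 θ (round ζ) (round t) p p'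
    rw [← hα, ← ht] at hv
    have t1 := tw_low q0 (q0 * θ) p p'
    rw [← hα, ← ht] at t1
    have e0 : (q0 : ℝ) * α - q0 * θ * t = 2 * π * ζ := by
      rw [hζ]; field_simp
    rw [e0] at t1
    have c1 := FibSmp_cos_low ζ
    have c2 := FibSmp_cos_low t
    have c3 := FibSmp_cs p.2 p'.2
    rw [← ht] at c3
    have e1 : α - al q0 θ (round ζ) (round t) =
        2 * π * P * (ζ - round ζ) + θ * (t - round t) := by
      have : α - θ * t = 2 * π * P * ζ := by rw [hζ, hP]; field_simp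
      unfold al
      rw [hP] at this ⊢
      linear_combination this
    rw [e1] at hv
    generalize ζ - round ζ = ξ1 at hv c1
    generalize t - round t = ξ2 at hv c2
    have hRt := hRθ p p' hp hp'
    have hA := FibSmp_angH p.1 p'.1
    have hu0 : 0 ≤ 1 - ‖cin (hat p.1) (hat p'.1)‖ := by
      have := norm_cin_le (hat p.1) (hat p'.1); linarith only [this]
    have hR0 : 0 ≤ ‖p.1‖ * ‖p'.1‖ := by positivity
    rw [hndc, hndo, hA]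
    have e2 : 1 / (q0 : ℝ) ^ 2 = P ^ 2 := by rw [hP]; ring
    have e3 : 9 / (q0 : ℝ) = 9 * P := by rw [hP]; ring
    have e4 : 900 / (q0 : ℝ) ^ 2 = 900 * P ^ 2 := by rw [hP]; ring
    rw [e2, e3, e4]
    generalize 1 - ‖cin (hat p.1) (hat p'.1)‖ = u at t1 hu0 ⊢
    generalize ‖p.1‖ * ‖p'.1‖ = R at hv hRt hR0 ⊢
    have hs := FibSmp_sq_add he (2 * π * P * ξ1) ξ2 _ hRt R θ hR0 rfl
    set M := min 6 ((2 * (q0 : ℝ) + 8) * u) with hM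
    have hM0 : 0 ≤ M := le_min (by norm_num) (by positivity)
    have hc0 : 0 ≤ G * P ^ 2 * R := by positivity
    have herr : (1 - e) * (G * P ^ 2 * R * M) ≤ min (9 * P * (2 * R * u)) (900 * P ^ 2 * R) := by
      refine (mul_le_of_le_one_left (by positivity) (by linarith only [he])).trans (le_min ?_ ?_)
      · have h1 : G * P ^ 2 * R * M ≤ G * P ^ 2 * R * ((2 * (q0 : ℝ) + 8) * u) :=
          mul_le_mul_of_nonneg_left (min_le_right _ _) hc0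
        have e5 : G * P ^ 2 * R * ((2 * (q0 : ℝ) + 8) * u) =
            G * (1 + 4 * P) * (P * (2 * R * u)) := by
          linear_combination (2 * G * P * R * u) * hPq
        have h2 : G * (1 + 4 * P) ≤ 82 / 100 * 5 :=
          mul_le_mul hG3 (by linarith only [hP1]) (by positivity) (by norm_num)
        have h3 : G * (1 + 4 * P) * (P * (2 * R * u)) ≤ 9 * (P * (2 * R * u)) :=
          mul_le_mul_of_nonneg_right (by linarith only [he, he1, h2]) (by positivity)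
        linarith only [h1, e5, h3]
      · have h1 : G * P ^ 2 * R * M ≤ G * P ^ 2 * R * 6 :=
          mul_le_mul_of_nonneg_left (min_le_left _ _) hc0
        have h2 : G * (P ^ 2 * R) ≤ 82 / 100 * (P ^ 2 * R) :=
          mul_le_mul_of_nonneg_right hG3 (by positivity)
        have h3 : 0 ≤ P ^ 2 * R := by positivity
        linarith only [hc0, h1, h2]
    have h10 : 0 ≤ P ^ 2 * (‖p.1‖ - ‖p'.1‖) ^ 2 := by positivity
    have h11 : 0 ≤ G * P ^ 2 * (‖p.1‖ - ‖p'.1‖) ^ 2 := by positivity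
    have h12 := mul_le_mul_of_nonneg_left (by linarith only [c1, t1] :
      16 * ξ1 ^ 2 - M ≤ 2 - 2 * tw q0 (q0 * θ) (sp p) (sp p')) hc0
    have e6 : G * P ^ 2 * R * (16 * ξ1 ^ 2 - M) =
        (1 + 13 * e) * l2 * (R * (2 * π * P * ξ1) ^ 2) - G * P ^ 2 * R * M := by
      rw [hG]; unfold kap; ring
    have h13 := sq_nonneg (cos (2 * π * p.2) - cos (2 * π * p'.2))
    have key := FibSmp_low0 (T := G * P ^ 2 * ((‖p.1‖ - ‖p'.1‖) ^ 2 +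
        R * (2 - 2 * tw q0 (q0 * θ) (sp p) (sp p'))) +
        9 / 400 * (cos (2 * π * p.2) - cos (2 * π * p'.2)) ^ 2 +
        9 / 10 * (9 / 400 * (sin (2 * π * p.2) - sin (2 * π * p'.2)) ^ 2)) he he1
      (by positivity : 0 ≤ R * (2 * π * P * ξ1) ^ 2) (sq_nonneg ξ2)
      (hv.trans (add_le_add_left hs _)) (by linarith only [c3, c2, h11, h12, e6, h13]) herr
    linarith only [h10, key]
  · intro p p' hp hp' hcl
    have hv : 99 / 100 * (‖p.1‖ * ‖p'.1‖ * fa p p' ^ 2) + (p.2 - p'.2) ^ 2 ≤ vert p p' := by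
      rcases hcl with h | ⟨-, h⟩
      · exact vert_ge p p' h
      · rw [vert_eq, h]; simp
    have t1 := tw_up q0 (q0 * θ) p p'
    have c3 := FibSmp_cs p.2 p'.2
    generalize fa p p' = α at hv t1
    generalize p.2 - p'.2 = t at hv t1 c3
    have c1 := FibSmp_cos_up (q0 * α - q0 * θ * t)
    have c2 := FibSmp_cos_up (2 * π * t)
    have hRt := hRθ p p' hp hp'
    have hA := FibSmp_angH p.1 p'.1
    have hu0 : 0 ≤ 1 - ‖cin (hat p.1) (hat p'.1)‖ := by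
      have := norm_cin_le (hat p.1) (hat p'.1); linarith only [this]
    have hR0 : 0 ≤ ‖p.1‖ * ‖p'.1‖ := by positivity
    rw [hndc, hndo, hA]
    have e2 : 1 / (q0 : ℝ) ^ 2 = P ^ 2 := by rw [hP]; ring
    have e3 : kap / q0 + 20 * e / q0 + 20 / (q0 : ℝ) ^ 2 = (kap + 20 * e) * P + 20 * P ^ 2 := by
      rw [hP]; ring
    rw [e2, e3]
    generalize 1 - ‖cin (hat p.1) (hat p'.1)‖ = u at t1 hu0 ⊢
    generalize ‖p.1‖ * ‖p'.1‖ = R at hv hRt hR0 ⊢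
    have hs := FibSmp_sq_add he α (-t) _ hRt R θ hR0 rfl
    rw [neg_sq] at hs
    have key := FibSmp_up0 (C := 2 - 2 * cos (2 * π * t)) he he1
      (by positivity : 0 ≤ R * α ^ 2) (sq_nonneg t) hG0 hG1 hs (by linarith only [c2]) hv
    have hc0 : 0 ≤ G * P ^ 2 * R := by positivity
    have h12 := mul_le_mul_of_nonneg_left (by linarith only [c1, t1] :
      2 - 2 * tw q0 (q0 * θ) (sp p) (sp p') ≤ (q0 * α - q0 * θ * t) ^ 2 + (2 * q0 + 8) * u) hc0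
    have e6 : G * P ^ 2 * R * ((q0 * α - q0 * θ * t) ^ 2 + (2 * q0 + 8) * u) =
        G * (R * (α + θ * -t) ^ 2) + (G * P + 4 * G * P ^ 2) * (2 * R * u) := by
      linear_combination (G * R * (α - θ * t) ^ 2 * (P * q0 + 1) + 2 * G * P * R * u) * hPq
    have h13 := sq_nonneg (cos (2 * π * p.2) - cos (2 * π * p'.2))
    have h14 : G * P ^ 2 * ((‖p.1‖ - ‖p'.1‖) ^ 2 +
        R * (2 - 2 * tw q0 (q0 * θ) (sp p) (sp p'))) +
        9 / 400 * (cos (2 * π * p.2) - cos (2 * π * p'.2)) ^ 2 +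
        21 / 20 * (9 / 400 * (sin (2 * π * p.2) - sin (2 * π * p'.2)) ^ 2) ≤
        G * (P ^ 2 * (‖p.1‖ - ‖p'.1‖) ^ 2) + (G * P + 4 * G * P ^ 2) * (2 * R * u) +
          (G * (R * (α + θ * -t) ^ 2) + 189 / 8000 * (2 - 2 * cos (2 * π * t))) := by
      linarith only [c3, h12, e6, h13]
    have h15 := mul_le_mul_of_nonneg_left h14 (by linarith only [he, he1] : 0 ≤ 1 + e)
    have h16 : (1 + e) * G * (P ^ 2 * (‖p.1‖ - ‖p'.1‖) ^ 2) ≤ 1 * (P ^ 2 * (‖p.1‖ - ‖p'.1‖) ^ 2) :=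
      mul_le_mul_of_nonneg_right (by linarith only [he, he1, hG1]) (by positivity)
    have h17 : (1 + e) * (G * P + 4 * G * P ^ 2) ≤ (kap + 20 * e) * P + 20 * P ^ 2 := by
      have a1 := mul_le_mul_of_nonneg_right hG2 hP0.le
      have a2 := mul_le_mul_of_nonneg_right hG1 (sq_nonneg P)
      have a3 := sq_nonneg P
      linarith only [a1, a2, a3]
    have h18 := mul_le_mul_of_nonneg_right h17 (by positivity : 0 ≤ 2 * R * u)
    linarith only [key, h15, h16, h18]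

/-- The covering radius of the fibre lattice. -/
theorem fib_cover {q0 : ℕ} {θ r e Q : ℝ} {k1 n1 k2 n2 : ℤ} (hq : 0 < q0)
    (hb : FBas q0 θ r e Q k1 n1 k2 n2) (p p' : FP) (h : ‖p.1‖ ≤ r) (h' : ‖p'.1‖ ≤ r) :
    ∃ k n, vert p (fib q0 θ k n p') ≤ 100 * r ^ 2 / Q ^ 2 := by
  obtain ⟨ζ1, ζ2, hα, ht, -, -⟩ := fib_coord hq θ hb.det (fa p p') (p.2 - p'.2)
  refine ⟨round ζ1 * k1 + round ζ2 * k2, round ζ1 * n1 + round ζ2 * n2, ?_⟩
  have hv := vert_fib_le q0 θ (round ζ1 * k1 + round ζ2 * k2) (round ζ1 * n1 + round ζ2 * n2) p p'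
  rw [al_comb] at hv
  have e1 : fa p p' - (round ζ1 * al q0 θ k1 n1 + round ζ2 * al q0 θ k2 n2) =
      (ζ1 - round ζ1) * al q0 θ k1 n1 + (ζ2 - round ζ2) * al q0 θ k2 n2 := by
    rw [hα]; ring
  have e2 : p.2 - p'.2 - ((round ζ1 * n1 + round ζ2 * n2 : ℤ) : ℝ) =
      (ζ1 - round ζ1) * n1 + (ζ2 - round ζ2) * n2 := by
    rw [ht]; push_cast; ring
  rw [e1, e2] at hv
  have b1 := abs_sub_round ζ1
  have b2 := abs_sub_round ζ2
  have s1 := FibSmp_sq_le (FibSmp_flen_nonneg _ _ _ _ _) hb.len1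
  have s2 := FibSmp_sq_le (FibSmp_flen_nonneg _ _ _ _ _) hb.len2
  rw [FibSmp_flen_sq] at s1 s2
  have hR : ‖p.1‖ * ‖p'.1‖ ≤ r ^ 2 := by
    rw [sq]; exact mul_le_mul h h' (norm_nonneg _) ((norm_nonneg _).trans h)
  have e3 : 100 * r ^ 2 / Q ^ 2 = 100 * (r ^ 2 * (1 / Q) ^ 2) := by ring
  rw [e3]
  generalize ζ1 - round ζ1 = ξ1 at hv b1
  generalize ζ2 - round ζ2 = ξ2 at hv b2
  generalize al q0 θ k1 n1 = a1 at hv s1
  generalize al q0 θ k2 n2 = a2 at hv s2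
  have d1 : ξ1 ^ 2 ≤ 1 / 4 := by rw [← sq_abs]; nlinarith only [b1, abs_nonneg ξ1]
  have d2 : ξ2 ^ 2 ≤ 1 / 4 := by rw [← sq_abs]; nlinarith only [b2, abs_nonneg ξ2]
  have hsq : ∀ x y : ℝ, (ξ1 * x + ξ2 * y) ^ 2 ≤ (x ^ 2 + y ^ 2) / 2 := by
    intro x y
    have a1 := mul_le_mul_of_nonneg_right d1 (sq_nonneg x)
    have a2 := mul_le_mul_of_nonneg_right d2 (sq_nonneg y)
    linarith only [a1, a2, sq_nonneg (ξ1 * x - ξ2 * y)]
  have h1 := mul_le_mul hR (hsq a1 a2) (sq_nonneg _) (sq_nonneg _)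
  have h2 := hsq n1 n2
  linarith only [s1, hv, s2, h1, h2]

end Pool.Agent.Work.MP_0ba68b_gt.CX
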