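import Pool.Agent.Work.MP_0ba68b_gt.CX.GlobD

/-!
The two sided bound for the global kernel.

PLAN.  `low_near` (`‖x'‖ ≤ ‖x‖`): `nd_globK`, `PSD.nd_weight_lower` with `β = 1/1000` for `kV` (`kV_diag`, `Wg_near`, `Wg_sq`) and `β = η i/100` for
`ks i` (`ks_err`); sum the bounds `(out i).low` with the weights `w i r²` (terms with `w i r = 0` vanish; `∑ w² = 1`):
`2000 (η/1000)² ≤ η/100`, `l2 + 0.2 + 4 · 0.0025 ≤ 3/5`.
`low_far` (`r' ≤ r`, `gap r ≤ 2 Δr`, `gap r' ≤ 2 Δr`): some `i` has `w i r ≠ 0`, so `Win i r`, `(out i).far`; drop the private terms; and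
`99/100 nd kV ≤ nd (Wg Wg' kV) + Δr²/100`: let `Z` be the point with the larger `‖x‖`; if `Wg Z ≠ 1` both radii are `≤ Δr/500`
(`Wg_ne_one`, `PSD.nd_le`); if `Wg Z = 1`, `nd_weight_lower` with `β = 1/100`, the error vanishes or `‖x‖ ≤ Δr/500` at the other point.
`up_loc`: `δ ≤ gap r/2` forces `Near` (`nf`, in either order); if `‖x‖ < 1` take `δ ≤ 1 - ‖x‖` (`Wg_zero` at both points; also `W i = 0`), else `δ ≤ 1/100` so
`kV X' X' ≤ (min ρ ρ')²`; `δ ≤` the `δ` of `(out i).up` for the two indices active at `r` (if `vw X = 0` only `i = 0` is active);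
`nd_weight_upper`; `3/5 + 0.21 + 0.011 ≤ 99/100`.
`glob`: `nd_le_of_local`, `le_D2`, `globK_act` (with symmetry for the diagonal term), `D2_comm`, `nd_comm`.
-/

open scoped Quaternion
open Real

namespace Pool.Agent.Work.MP_0ba68b_gt.CX

variable {P : Par} {r0 : ℝ} {nu : ℝ → ℝ} {c : ℕ → ℝ} {w : ℕ → ℝ → ℝ} {η : ℕ → ℝ}
  {Kc : FP → FP → ℝ} {W : ℕ → ℝ → ℝ} {ks : ℕ → VV → VV → ℝ}

lemma Glob_vw (X X' : VV) : |‖vw X‖ - ‖vw X'‖| ≤ dist X X' := by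
  refine (abs_norm_sub_norm_le _ _).trans (abs_le_of_sq_le_sq' ?_ dist_nonneg).2
  rw [dist_sq]
  linarith [sq_nonneg ‖vx X - vx X'‖, sq_nonneg (vt X - vt X'), sq_nonneg ‖vs X - vs X'‖]

lemma Glob_vx (X X' : VV) : |‖vx X‖ - ‖vx X'‖| ≤ dist X X' := by
  refine (abs_norm_sub_norm_le _ _).trans (abs_le_of_sq_le_sq' ?_ dist_nonneg).2
  rw [dist_sq]
  linarith [sq_nonneg ‖vw X - vw X'‖, sq_nonneg (vt X - vt X'), sq_nonneg ‖vs X - vs X'‖]

lemma Glob_win (h : GD P r0 nu c w η Kc W ks) {i : ℕ} {r : ℝ} (hr : 0 ≤ r) (hi : w i r ≠ 0) :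
    Win nu c i r := by
  rcases h.part.nf r r hr le_rfl with a | a
  · exact (a i (Or.inl hi)).1
  · linarith [a.2.1, h.gap_pos r]

lemma Glob_eta {e D u : ℝ} (h0 : 0 < e) (h1 : e ≤ 1 / 1000) :
    2002 * (u ^ 2 * ((e / 1000) ^ 2 * D ^ 2)) ≤ u ^ 2 * (e / 100 * D ^ 2) := by
  have : 2002 * (e / 1000) ^ 2 ≤ e / 100 := by nlinarith
  nlinarith [mul_le_mul_of_nonneg_right this (mul_nonneg (sq_nonneg u) (sq_nonneg D))]

lemma Glob_cone (h : GD P r0 nu c w η Kc W ks) {Z Z' : VV} {T : ℝ} (hx : ‖vx Z'‖ ≤ ‖vx Z‖)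
    (h1 : gap r0 nu ‖vw Z‖ ^ 2 ≤ 4 * T) (h2 : gap r0 nu ‖vw Z'‖ ^ 2 ≤ 4 * T) :
    99 / 100 * nd kV Z Z' ≤ nd (fun X X' => Wg w W X * Wg w W X' * kV X X') Z Z' + T / 100 := by
  have hT : 0 ≤ T := by linarith [sq_nonneg (gap r0 nu ‖vw Z‖)]
  by_cases a : Wg w W Z = 1
  · have b1 := kV_psd.nd_weight_lower (Wg w W) Z Z' (β := 1 / 100) (by norm_num)
    rw [a, kV_diag] at b1
    by_cases a' : Wg w W Z' = 1
    · rw [a'] at b1
      linarith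
    · have b2 := h.Wg_ne_one a'
      have b3 : (1 - Wg w W Z') ^ 2 ≤ 1 := by
        nlinarith only [h.Wg_le_one Z', Wg_nonneg (w := w) (W := W) Z']
      have b4 := mul_le_mul_of_nonneg_right b3 (sq_nonneg ‖vx Z'‖)
      linarith
  · have b1 := kV_psd.nd_le Z Z'
    rw [kV_diag, kV_diag] at b1
    have b2 := pow_le_pow_left₀ (norm_nonneg _) hx 2
    linarith [h.Wg_ne_one a, (kV_psd.weight (Wg w W)).nd_nonneg Z Z']

lemma GD.low_near (h : GD P r0 nu c w η Kc W ks) {X X' : VV}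
    (hn : Near nu c w ‖vw X‖ ‖vw X'‖) (hx : ‖vx X'‖ ≤ ‖vx X‖) :
    l2 * P.D2 X X' ≤ nd (globK Kc w W ks) X X' := by
  obtain ⟨s, s0, s1, s2, s3, -⟩ := h.part.exists_set ‖vw X‖ ‖vw X'‖
  have a1 := kV_psd.nd_weight_lower (Wg w W) X X' (β := 1 / 1000) (by norm_num)
  have a2 := h.Wg_near hn s1
  rw [min_eq_right hx] at a2
  rw [kV_diag, Wg_sq s1] at a1
  have a3 : ∀ i ∈ s, w i ‖vw X‖ ^ 2 * (l2 * P.D2 X X' - l2 * (‖vw X‖ - ‖vw X'‖) ^ 2 -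
      nd Kc (fp X) (fp X')) + 2002 * (w i ‖vw X‖ ^ 2 * ((η i / 1000) ^ 2 * (‖vx X‖ - ‖vx X'‖) ^ 2)) ≤
      999 / 1000 * nd kV X X' * (w i ‖vw X‖ ^ 2 * W i ‖vx X‖ ^ 2) +
        nd (fun X X' => w i ‖vw X‖ * w i ‖vw X'‖ * ks i X X') X X' +
        1 / 400 * (‖vw X‖ - ‖vw X'‖) ^ 2 := by
    intro i _
    have e0 := h.η_pos i
    have b1 := (h.out i).psd.nd_weight_lower (fun X => w i ‖vw X‖) X X' (β := η i / 100)
      (by positivity)
    have b2 : (w i ‖vw X‖ - w i ‖vw X'‖) ^ 2 * ks i X' X' / (η i / 100) ≤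
        1 / 400 * (‖vw X‖ - ‖vw X'‖) ^ 2 := by
      rw [div_le_iff₀ (by positivity)]
      linarith only [h.ks_err hn i]
    have b3 := Glob_eta (D := ‖vx X‖ - ‖vx X'‖) (u := w i ‖vw X‖) e0 (h.η_le i)
    by_cases a : w i ‖vw X‖ = 0
    · rw [a] at b1 b2 ⊢
      linarith
    · have b4 := mul_le_mul_of_nonneg_left
        ((h.out i).low X X' (hn i (Or.inl a)).1 (hn i (Or.inl a)).2 hx) (sq_nonneg (w i ‖vw X‖))
      linarith
  have a4 := Finset.sum_le_sum a3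
  rw [Finset.sum_add_distrib, Finset.sum_add_distrib, Finset.sum_add_distrib, ← Finset.sum_mul, s3,
    ← Finset.mul_sum, ← Finset.mul_sum, Finset.sum_const, nsmul_eq_mul] at a4
  have a5 : (s.card : ℝ) ≤ 4 := by exact_mod_cast s0
  have a6 := mul_le_mul_of_nonneg_right a5 (sq_nonneg (‖vw X‖ - ‖vw X'‖))
  have a7 := Finset.sum_nonneg (s := s) fun i _ => (by positivity :
    0 ≤ w i ‖vw X‖ ^ 2 * ((η i / 1000) ^ 2 * (‖vx X‖ - ‖vx X'‖) ^ 2))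
  have a8 : l2 * (‖vw X‖ - ‖vw X'‖) ^ 2 = 63 / 200 * (‖vw X‖ - ‖vw X'‖) ^ 2 := rfl
  rw [nd_globK s1 s2]
  linarith [sq_nonneg (‖vw X‖ - ‖vw X'‖)]

lemma GD.low_far (h : GD P r0 nu c w η Kc W ks) {X X' : VV} (hr : ‖vw X'‖ ≤ ‖vw X‖)
    (h1 : gap r0 nu ‖vw X‖ ≤ 2 * (‖vw X‖ - ‖vw X'‖))
    (h2 : gap r0 nu ‖vw X'‖ ≤ 2 * (‖vw X‖ - ‖vw X'‖)) :
    l2 * P.D2 X X' ≤ nd (globK Kc w W ks) X X' := by
  obtain ⟨s, -, s1, s2, s3, -⟩ := h.part.exists_set ‖vw X‖ ‖vw X'‖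
  obtain ⟨i, -, hi⟩ := Finset.exists_ne_zero_of_sum_ne_zero (s3.trans_ne one_ne_zero)
  have a1 := (h.out i).far X X' (Glob_win h (norm_nonneg _) fun a => hi (by rw [a]; ring)) hr
  have a2 := pow_le_pow_left₀ (h.gap_pos _).le h1 2
  have a3 := pow_le_pow_left₀ (h.gap_pos _).le h2 2
  have a4 : 99 / 100 * nd kV X X' ≤ nd (fun X X' => Wg w W X * Wg w W X' * kV X X') X X' +
      (‖vw X‖ - ‖vw X'‖) ^ 2 / 100 := by
    rcases le_total ‖vx X'‖ ‖vx X‖ with a | a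
    · exact Glob_cone h a (by linarith) (by linarith)
    · rw [kV_psd.nd_comm, (kV_psd.weight (Wg w W)).nd_comm]
      exact Glob_cone h a (by linarith) (by linarith)
  have a5 := Finset.sum_nonneg (s := s) fun i _ =>
    ((h.out i).psd.weight fun X => w i ‖vw X‖).nd_nonneg X X'
  have a8 : l2 * (‖vw X‖ - ‖vw X'‖) ^ 2 = 63 / 200 * (‖vw X‖ - ‖vw X'‖) ^ 2 := rfl
  rw [nd_globK s1 s2]
  linarith [sq_nonneg (‖vw X‖ - ‖vw X'‖)]

lemma GD.up_loc (h : GD P r0 nu c w η Kc W ks) (X : VV) {ε : ℝ} (hε : 0 < ε) : ∃ δ > 0,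
    ∀ X', dist X X' < δ → nd (globK Kc w W ks) X X' ≤ (1 + ε) * dist X X' ^ 2 := by
  have a0 : ∀ i, ∃ δ > 0, w i ‖vw X‖ ≠ 0 → ∀ X', dist X X' < δ → Win nu c i ‖vw X'‖ →
      nd Kc (fp X) (fp X') + 1001 / 1000 * (W i ‖vx X‖ ^ 2 * nd kV X X') +
        (1 + η i / 100) * nd (ks i) X X' + η i / 100 * (‖vx X‖ - ‖vx X'‖) ^ 2 ≤
      (1 + ε) * dist X X' ^ 2 - 99 / 100 * (‖vw X‖ - ‖vw X'‖) ^ 2 := by
    intro i
    by_cases a : w i ‖vw X‖ = 0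
    · exact ⟨1, one_pos, fun b => absurd a b⟩
    · obtain ⟨δ, d0, hδ⟩ := (h.out i).up X (Glob_win h (norm_nonneg _) a) (by
        by_contra b
        push Not at b
        exact a (h.part.zero _ (by rw [b.1, norm_zero]; exact h.r0_pos.le) i b.2)) ε hε
      exact ⟨δ, d0, fun _ => hδ⟩
  choose δ d0 hδ using a0
  obtain ⟨j, hj, -⟩ := h.part.two ‖vw X‖
  obtain ⟨δ', d1, hδ'⟩ : ∃ δ' > 0, ∀ X', dist X X' < δ' →
      (Wg w W X - Wg w W X') ^ 2 * kV X' X' ≤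
        (Wg w W X - Wg w W X') ^ 2 * min ‖vx X‖ ‖vx X'‖ ^ 2 := by
    rcases lt_or_ge ‖vx X‖ 1 with a | a
    · refine ⟨1 - ‖vx X‖, sub_pos.2 a, fun X' hX => ?_⟩
      rw [h.Wg_zero a.le, h.Wg_zero (by linarith [(abs_le.1 (Glob_vx X X')).1])]
      simp
    · refine ⟨1 / 100, by norm_num, fun X' hX => mul_le_mul_of_nonneg_left ?_ (sq_nonneg _)⟩
      rw [kV_diag]
      rcases le_total ‖vx X‖ ‖vx X'‖ with b | b
      · have := pow_le_pow_left₀ (norm_nonneg _)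
          (by linarith [(abs_le.1 (Glob_vx X X')).1] : ‖vx X'‖ ≤ 101 / 100 * ‖vx X‖) 2
        rw [min_eq_left b]
        linarith [sq_nonneg ‖vx X‖]
      · rw [min_eq_right b]
        linarith [sq_nonneg ‖vx X'‖]
  have g0 := h.gap_pos ‖vw X‖
  refine ⟨min (min (δ j) (δ (j + 1))) (min δ' (gap r0 nu ‖vw X‖ / 2)),
    lt_min (lt_min (d0 _) (d0 _)) (lt_min d1 (by linarith)), fun X' hX => ?_⟩
  simp only [lt_min_iff] at hX
  have hd := abs_le.1 (Glob_vw X X')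
  have hn : Near nu c w ‖vw X‖ ‖vw X'‖ := by
    rcases le_total ‖vw X'‖ ‖vw X‖ with a | a
    · exact (h.part.nf _ _ (norm_nonneg _) a).resolve_right fun b => by linarith [b.2.1, hX.2.2]
    · exact fun i hi => ((h.part.nf _ _ (norm_nonneg _) a).resolve_right
        (fun b => by linarith [b.2.2, hX.2.2]) i hi.symm).symm
  obtain ⟨s, s0, s1, s2, s3, -⟩ := h.part.exists_set ‖vw X‖ ‖vw X'‖
  have a1 := kV_psd.nd_weight_upper (Wg w W) X X' (β := 1 / 1000) (by norm_num)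
  have a2 := (hδ' X' hX.2.1).trans (h.Wg_near hn s1)
  rw [Wg_sq s1] at a1
  have a3 : ∀ i ∈ s, 1001 / 1000 * nd kV X X' * (w i ‖vw X‖ ^ 2 * W i ‖vx X‖ ^ 2) +
      nd (fun X X' => w i ‖vw X‖ * w i ‖vw X'‖ * ks i X X') X X' +
      2002 * (w i ‖vw X‖ ^ 2 * ((η i / 1000) ^ 2 * (‖vx X‖ - ‖vx X'‖) ^ 2)) ≤
      w i ‖vw X‖ ^ 2 * ((1 + ε) * dist X X' ^ 2 - 99 / 100 * (‖vw X‖ - ‖vw X'‖) ^ 2 -
        nd Kc (fp X) (fp X')) + 1 / 100 * (‖vw X‖ - ‖vw X'‖) ^ 2 := by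
    intro i _
    have e0 := h.η_pos i
    have b1 := (h.out i).psd.nd_weight_upper (fun X => w i ‖vw X‖) X X' (β := η i / 100)
      (by positivity)
    have b2 : (1 + 1 / (η i / 100)) * ((w i ‖vw X‖ - w i ‖vw X'‖) ^ 2 * ks i X' X') ≤
        1 / 100 * (‖vw X‖ - ‖vw X'‖) ^ 2 := by
      refine (mul_le_mul_of_nonneg_left (h.ks_err hn i) (by positivity)).trans ?_
      rw [← mul_assoc]
      refine mul_le_mul_of_nonneg_right ?_ (sq_nonneg _)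
      rw [show (1 + 1 / (η i / 100)) * (25 / 10 ^ 6 * η i) = 25 / 10 ^ 6 * (η i + 100) by
        field_simp]
      linarith only [h.η_le i]
    have b3 := Glob_eta (D := ‖vx X‖ - ‖vx X'‖) (u := w i ‖vw X‖) e0 (h.η_le i)
    by_cases a : w i ‖vw X‖ = 0
    · rw [a] at b1 b2 ⊢
      linarith
    · have b5 : dist X X' < δ i := by
        by_contra b
        exact a (hj i (fun e => b (e ▸ hX.1.1)) fun e => b (e ▸ hX.1.2))
      have b4 := mul_le_mul_of_nonneg_left (hδ i a X' b5 (hn i (Or.inl a)).2)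
        (sq_nonneg (w i ‖vw X‖))
      linarith
  have a4 := Finset.sum_le_sum a3
  rw [Finset.sum_add_distrib, Finset.sum_add_distrib, Finset.sum_add_distrib, ← Finset.sum_mul, s3,
    ← Finset.mul_sum, ← Finset.mul_sum, Finset.sum_const, nsmul_eq_mul] at a4
  have a5 : (s.card : ℝ) ≤ 4 := by exact_mod_cast s0
  have a6 := mul_le_mul_of_nonneg_right a5 (sq_nonneg (‖vw X‖ - ‖vw X'‖))
  rw [nd_globK s1 s2]
  linarith [sq_nonneg (‖vw X‖ - ‖vw X'‖)]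

theorem GD.glob (h : GD P r0 nu c w η Kc W ks) : ∃ K : VV → VV → ℝ, PSD K ∧
    ∀ X X', l2 * P.D2 X X' ≤ nd K X X' ∧ nd K X X' ≤ P.D2 X X' := by
  have hp := h.globK_psd
  have low : ∀ X X' : VV, ‖vw X'‖ ≤ ‖vw X‖ → l2 * P.D2 X X' ≤ nd (globK Kc w W ks) X X' := by
    intro X X' hr
    rcases h.part.nf _ _ (norm_nonneg _) hr with a | a
    · rcases le_total ‖vx X'‖ ‖vx X‖ with b | b
      · exact h.low_near a b
      · rw [P.D2_comm, hp.nd_comm]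
        exact h.low_near (fun i hi => (a i hi.symm).symm) b
    · exact h.low_far hr a.2.1 a.2.2
  refine ⟨_, hp, fun X X' => ⟨?_, P.le_D2 fun k n v => ?_⟩⟩
  · rcases le_total ‖vw X'‖ ‖vw X‖ with a | a
    · exact low X X' a
    · rw [P.D2_comm, hp.nd_comm]
      exact low X' X a
  · refine le_of_eq_of_le ?_ (nd_le_of_local hp (fun x _ hε => h.up_loc x hε) X (P.act k n v X'))
    simp only [nd]
    rw [h.globK_act, h.globK_act, hp.symm (P.act k n v X'), h.globK_act]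

end Pool.Agent.Work.MP_0ba68b_gt.CX
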