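import Pool.Agent.Work.MP_0ba68b_gt.CX.RepB

/-!
From an equivariant family in a representation to an admissible kernel with a smaller budget.

PLAN.  `S` from `exists_supp`, `K = K0 + symK K1` (`K0_base`, `symK_base`, `BaseK.add`).
`K0 + K1 = ∑ s ∈ S, ks s` (`Finset.sum_filter_add_sum_filter_not`).  Same direction:
`K (a,x) (a',x) = re ⟪h a, h a'⟫` (`symK_diag`, `ks_diag`, `Supp.inner_sum`), so `up0` is `hU` at `x = x' = 1`
(`norm_smul_sub_sq`, `cin_self`).  `hU` with `a = a'`, `x' = 1` and `norm_gen_le` bound the generators by `ρ`.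
`symK_nd`: `nd (symK K1) = nd K1 + odd * (1 - uu)`, `|odd| ≤ 2 √(K1 p p) √(K1 p' p') ≤ 2 ρ ρ'/q²`
(`symK_odd_abs`, `mass'` with `u' = u`), `1 - uu = 2 sin² t ≤ min (2 t²) (min (4 (1 - cos t)) 2)`.
`upj`: `ks_upj`, `energy`, `hS`.  `low`: `hopf` gives `x' = ec φ * ej t * ec ψ * x`; `nd_eq_of_norm` reduces to
`(a,1), (a', ej t)`; for each `α` the pair `(a, ec α), (a', ec α * ej t)` is minimal with the same `rep`
(`minimal_mul_right`, `minimal_ec`, `rep_mul_right`, `rep_ec`); `hL` and `Supp.avg` with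
`M = (‖h a‖² + ‖h a'‖² - lam rep + ε)/2`; then `ks_close` with `mass`, `ks_far` with `mass'`;
`angP = 2 ρ ρ' (1 - cos t)`; losses `(5/q + 4/q²) angP` and `8 ρ ρ'/q²`.
-/

open scoped Quaternion ComplexConjugate
open Real

namespace Pool.Agent.Work.MP_0ba68b_gt.CX.QRep

variable {W : Type} [NormedAddCommGroup W] [InnerProductSpace ℂ W] [FiniteDimensional ℂ W]

lemma RepK_cin {t : ℝ} (ht : t ∈ Set.Icc 0 (π / 2)) :
    ‖cin ((1 : S3) : ℍ[ℝ]) (ej t)‖ = cos t := by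
  have h : cin ((1 : S3) : ℍ[ℝ]) (ej t) = (cos t : ℝ) := cin_one_ej t
  rw [h, Complex.norm_real, Real.norm_of_nonneg
    (cos_nonneg_of_mem_Icc ⟨by linarith [ht.1, pi_pos], ht.2⟩)]

lemma RepK_uu {t : ℝ} (ht : t ∈ Set.Icc 0 (π / 2)) :
    0 ≤ 1 - uu 1 (ej t) ∧ 1 - uu 1 (ej t) ≤ 2 * t ^ 2 ∧ 1 - uu 1 (ej t) ≤ 4 * (1 - cos t) ∧
      1 - uu 1 (ej t) ≤ 2 := by
  rw [uu, RepK_cin ht]
  have h1 := sin_sq_add_cos_sq t
  have h2 : sin t ^ 2 ≤ t ^ 2 := sin_sq_le_sq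
  refine ⟨by nlinarith [sq_nonneg (sin t)], by linarith, by nlinarith [sq_nonneg (1 - cos t)],
    by nlinarith [sq_nonneg (cos t)]⟩

lemma RepK_loss {o u A B : ℝ} (ho : |o| ≤ A) (hu : 0 ≤ u) (hB : u ≤ B) :
    -(A * B) ≤ o * u ∧ o * u ≤ A * B := by
  have h0 : 0 ≤ A := (abs_nonneg _).trans ho
  rw [← abs_le, abs_mul, abs_of_nonneg hu]
  exact mul_le_mul ho hB hu h0

theorem repK (Λ : QRep W) {I : Set ℝ} {h : Ax I → W} {q : ℕ} {y σ lam ε : ℝ} (hq : 0 < q)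
    (he : Even q) (hρ : ∀ a : Ax I, 0 ≤ rho a) (hf : Λ.Fam q h)
    (hU : ∀ a a' (x x' : S3), ‖Λ.lam x (h a) - Λ.lam x' (h a')‖ ^ 2 ≤
      ‖rho a • (x : ℍ[ℝ]) - rho a' • (x' : ℍ[ℝ])‖ ^ 2 + sg y a a')
    (hL : ∀ a a' (x x' : S3), Minimal y (a, x) (a', x') →
      lam * rep y (a, x) (a', x') - ε ≤ ‖Λ.lam x (h a) - Λ.lam x' (h a')‖ ^ 2)
    (hS : ∀ a, σ * rho a ^ 2 ≤ q * Λ.sav q (h a)) :
    ∃ K : Pt I → Pt I → ℝ, AdmL y (1 - σ + 4 / q ^ 2)
      (fun p p' => lam * rep y p p' - ε - cap (9 / q) (8 / q ^ 2) p p') K ∧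
      ∀ p, K p p = ‖h p.1‖ ^ 2 := by
  obtain ⟨S, hSp⟩ := Λ.exists_supp
  have hq1 : (1 : ℝ) ≤ q := by exact_mod_cast hq
  have hq0 : (0 : ℝ) < q := by linarith
  have hb : BaseK fun p p' => Λ.K0 S h p p' + symK (Λ.K1 S h) p p' :=
    (K0_base hq he hf S).add
      (symK_base (Λ.K1_pre h S) (K1_gam hq he hf hSp) (K1_even hq he hf S))
  have hsum : ∀ p p', Λ.K0 S h p p' + Λ.K1 S h p p' = ∑ s ∈ S, Λ.ks h s p p' := fun p p' =>
    Finset.sum_filter_add_sum_filter_not _ _ _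
  have hks : ∀ a a' x, ∑ s ∈ S, Λ.ks h s (a, x) (a', x) = (inner ℂ (h a) (h a')).re := by
    intro a a' x
    rw [hSp.inner_sum, Complex.re_sum]
    exact Finset.sum_congr rfl fun s _ => Λ.ks_diag h s a a' x
  have hself : ∀ u : W, (inner ℂ u u).re = ‖u‖ ^ 2 := fun u => inner_self_eq_norm_sq (𝕜 := ℂ) u
  have hsub : ∀ u v : W, ‖u - v‖ ^ 2 = ‖u‖ ^ 2 - 2 * (inner ℂ u v).re + ‖v‖ ^ 2 := fun u v =>
    norm_sub_sq (𝕜 := ℂ) u v
  have hg : ∀ a, ‖Λ.gI (h a)‖ ≤ rho a ∧ ‖Λ.gJ (h a)‖ ≤ rho a ∧ ‖Λ.gK (h a)‖ ≤ rho a := by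
    intro a
    refine Λ.norm_gen_le (hρ a) fun x => ?_
    have h1 := hU a a x 1
    rw [Λ.lam_oneS, ← smul_sub, norm_smul, Real.norm_of_nonneg (hρ a),
      show sg y a a = 0 by simp [sg], add_zero] at h1
    exact le_of_sq_le_sq h1 (mul_nonneg (hρ a) (norm_nonneg _))
  have hII : ∀ a a', ‖Λ.gI (h a)‖ * ‖Λ.gI (h a')‖ ≤ rho a * rho a' := fun a a' =>
    mul_le_mul (hg a).1 (hg a').1 (norm_nonneg _) (hρ a)
  have hK1 : ∀ p : Pt I, √(Λ.K1 S h p p) ≤ rho p.1 / q := by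
    rintro ⟨a, x⟩
    refine Real.sqrt_le_iff.2 ⟨div_nonneg (hρ a) hq0.le, ?_⟩
    have h1 := hSp.mass' hq (u' := h a) (hf.zq a)
    have h2 : Λ.K1 S h (a, x) (a, x) = ∑ s ∈ S with s.1 ≠ 0, ‖Λ.pr s (h a)‖ * ‖Λ.pr s (h a)‖ :=
      Finset.sum_congr rfl fun s _ => by rw [Λ.ks_diag, hself, sq]
    rw [h2, div_pow, sq (rho a)]
    exact h1.trans (div_le_div_of_nonneg_right (hII a a) (by positivity))
  have hodd : ∀ p p' : Pt I, |Λ.K1 S h p p' - Λ.K1 S h p (gam (1, 0) p')| ≤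
      2 * (rho p.1 * rho p'.1 / q ^ 2) := by
    intro p p'
    refine (symK_odd_abs (Λ.K1_pre h S) (K1_gam hq he hf hSp) p p').trans ?_
    have := mul_le_mul (hK1 p) (hK1 p') (Real.sqrt_nonneg _) (div_nonneg (hρ _) hq0.le)
    rw [div_mul_div_comm, ← sq] at this
    linarith
  have hnd : ∀ p p' : Pt I, nd (fun p p' => Λ.K0 S h p p' + symK (Λ.K1 S h) p p') p p' =
      (∑ s ∈ S, Λ.ks h s p p) + (∑ s ∈ S, Λ.ks h s p' p') - 2 * (∑ s ∈ S, Λ.ks h s p p') +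
        (Λ.K1 S h p p' - Λ.K1 S h p (gam (1, 0) p')) * (1 - uu p.2 p'.2) := by
    intro p p'
    have := symK_nd (Λ.K1 S h) p p'
    simp only [nd, ← hsum] at this ⊢
    linarith
  refine ⟨_, ⟨hb, fun a a' x => ?_, fun a t ht => ?_, ?_⟩, ?_⟩
  · have h1 := hU a a' 1 1
    rw [Λ.lam_oneS, Λ.lam_oneS, norm_smul_sub_sq, cin_self, hsub] at h1
    rw [hnd, hks, hks, hks, hself, hself, uu_self, Dsq]
    simp only [Complex.one_re, sub_self, mul_zero, add_zero] at h1 ⊢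
    linarith
  · have h1 : ∑ s ∈ S, nd (Λ.ks h s) (a, 1) (a, ej t) ≤
        (∑ s ∈ S, (1 - th s) * (en s + |(s.1 : ℝ)|) * ‖Λ.pr s (h a)‖ ^ 2) * t ^ 2 := by
      rw [Finset.sum_mul]
      exact Finset.sum_le_sum fun s _ => Λ.ks_upj h s a ht
    have h2 := hSp.energy hq (hf.zq a)
    have h3 := pow_le_pow_left₀ (norm_nonneg _) (hg a).2.1 2
    have h4 := pow_le_pow_left₀ (norm_nonneg _) (hg a).2.2 2
    have h5 := mul_le_mul_of_nonneg_right (h2.trans (show _ ≤ rho a ^ 2 - σ * rho a ^ 2 by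
      linarith [hS a])) (sq_nonneg t)
    have h6 := (RepK_loss (hodd (a, 1) (a, ej t)) (RepK_uu ht).1 (RepK_uu ht).2.1).2
    simp only [nd, Finset.sum_sub_distrib, Finset.sum_add_distrib, ← Finset.mul_sum] at h1
    rw [hnd]
    have e : (1 - σ + 4 / q ^ 2) * rho a ^ 2 * t ^ 2 = (rho a ^ 2 - σ * rho a ^ 2) * t ^ 2 +
        2 * (rho a * rho a / q ^ 2) * (2 * t ^ 2) := by ring
    rw [e]
    dsimp only at h6 ⊢
    linarith
  · rintro ⟨a, x⟩ ⟨a', x'⟩ hm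
    obtain ⟨φ, ψ, t, ht, ex, ec'⟩ := hopf x x'
    rw [hb.toPreK.nd_eq_of_norm (ec'.trans (RepK_cin ht).symm), hnd, hks, hks, hself, hself]
    have hM := hSp.avg (h a) (h a') (ej t)
      (M := (‖h a‖ ^ 2 + ‖h a'‖ ^ 2 - lam * rep y (a, x) (a', x') + ε) / 2) fun α => by
        have e1 : ec (α + ψ) * (x * (ec ψ * x)⁻¹) = ec α := by rw [ec_add]; group
        have e2 : ec (α + -φ) * (x' * (ec ψ * x)⁻¹) = ec α * ej t := by
          rw [ec_add, ec_neg, ex]; group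
        have m1 := minimal_ec (minimal_mul_right hm (ec ψ * x)⁻¹) (α + ψ) (α + -φ)
        have r1 := (rep_ec y a a' _ _ (α + ψ) (α + -φ)).trans (rep_mul_right y a a' x x' (ec ψ * x)⁻¹)
        rw [e1, e2] at m1 r1
        have := hL a a' _ _ m1
        rw [r1, hsub, Λ.norm_lam, Λ.norm_lam] at this
        linarith
    have hc : 0 ≤ 1 - cos t := by linarith [cos_le_one t]
    have hrr : 0 ≤ rho a * rho a' := mul_nonneg (hρ a) (hρ a')
    have c1 := Finset.sum_le_sum fun s (_ : s ∈ S) => Λ.ks_close h s a a' ht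
    have c2 := Finset.sum_le_sum fun s (_ : s ∈ S) => Λ.ks_far h s a a' t
    rw [Finset.sum_sub_distrib] at c1 c2
    have d1 : ∑ s ∈ S, 5 * |(s.1 : ℝ)| * (1 - cos t) * (‖Λ.pr s (h a)‖ * ‖Λ.pr s (h a')‖) ≤
        5 * (1 - cos t) * (rho a * rho a' / q) := by
      have := (hSp.mass hq (u' := h a') (hf.zq a)).trans
        (div_le_div_of_nonneg_right (hII a a') hq0.le)
      refine le_trans (le_of_eq ?_) (mul_le_mul_of_nonneg_left this (by positivity))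
      rw [Finset.mul_sum]
      exact Finset.sum_congr rfl fun s _ => by ring
    have d2 : ∑ s ∈ S, (if s.1 = 0 then 0 else 2 * (‖Λ.pr s (h a)‖ * ‖Λ.pr s (h a')‖)) ≤
        2 * (rho a * rho a' / q ^ 2) := by
      have := (hSp.mass' hq (u' := h a') (hf.zq a)).trans
        (div_le_div_of_nonneg_right (hII a a') (by positivity))
      refine le_trans (le_of_eq ?_) (mul_le_mul_of_nonneg_left this (by norm_num))
      rw [Finset.mul_sum, Finset.sum_filter]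
      exact Finset.sum_congr rfl fun s _ => by simp only [ne_eq, ite_not]
    have l1 := (RepK_loss (hodd (a, 1) (a', ej t)) (RepK_uu ht).1 (RepK_uu ht).2.2.1).1
    have l2 := (RepK_loss (hodd (a, 1) (a', ej t)) (RepK_uu ht).1 (RepK_uu ht).2.2.2).1
    have hA : angP (a, x) (a', x') = 2 * rho a * rho a' * (1 - cos t) := by
      simp only [angP, ang, ec']
    have hqq : rho a * rho a' / q ^ 2 * (1 - cos t) ≤ rho a * rho a' / q * (1 - cos t) :=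
      mul_le_mul_of_nonneg_right
        (div_le_div_of_nonneg_left hrr hq0 (by nlinarith only [hq1])) hc
    dsimp only at l1 l2 ⊢
    rw [cap, hA]
    have f1 : 9 / (q : ℝ) * (2 * rho a * rho a' * (1 - cos t)) =
        18 * (rho a * rho a' / q * (1 - cos t)) := by ring
    have f2 : 8 / (q : ℝ) ^ 2 * (rho a * rho a') = 8 * (rho a * rho a' / q ^ 2) := by ring
    dsimp only
    rw [f1, f2]
    rcases min_choice (18 * (rho a * rho a' / q * (1 - cos t))) (8 * (rho a * rho a' / q ^ 2))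
      with e | e <;> rw [e] <;> linarith
  · rintro ⟨a, x⟩
    dsimp only
    rw [symK_diag, hsum, hks, hself]

end Pool.Agent.Work.MP_0ba68b_gt.CX.QRep
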