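import Pool.Agent.Work.MP_0ba68b_gt.CX.Cal

/-!
The Calabi gap for the saving functional.

PLAN.  `η₀, q1` from `cal N` (take `η₀ ≤ 1`), `η = (η₀/10)²`.  `m = 0`: `sav ≥ 0`.  Let `S` be a support,
`T = S.filter (s.1 / q odd)`, i.e. `q ∣ s.1 ∧ Odd (s.1 / q)`; labels with `pr s h ≠ 0` have `q ∣ s.1`.
`h - lam (ec (π/q)) h = ∑ (1 - exp (I n π/q)) • pr s h = 2 • ∑_{T} pr s h`.  Put `h₁ = pr (q, c) h`,
`h₂ = pr (-q, c) h`, `r = ∑_T pr s h - h₁ - h₂` (a sum over `T` minus the two labels; if a label is not in `S` its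
projection vanishes).  So `m ≤ ‖ev (lam x (h₁ + h₂ + r))‖²` for all `x`.  Orthogonality: `‖h₁‖² + ‖h₂‖² + ‖r‖² ≥ m`
(integrate) and `sav ≥ ‖h₁‖² + ‖h₂‖² + 2 ‖r‖²`.  Pointwise: apply the bound at `ec α * x` and average over
`α ∈ [0, 2π]` (or over roots of unity): with `a α = ev (lam (ec α * x) (h₁ + h₂))`, `b α = ev (lam (ec α * x) r)`,
`√m ≤ ‖a α‖ + ‖b α‖`, so `m ≤ (1 + γ) ‖a α‖² + (1 + 1/γ) ‖b α‖²` (`vec_upper`), the mean of `‖a α‖²` is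
`A x = ‖ev (lam x h₁)‖² + ‖ev (lam x h₂)‖²` (weights `q ≠ -q`), and `B x = ` mean of `‖b α‖²` has `∫ B = ‖r‖²` (Fubini or a
finite mean with left invariance; the mean over `α = π j/(2q)`, `j < 2`... : `α ∈ {0, π/(2q)}` already kills the mixed term
`exp (2 i q α)`).  Suppose `sav < (1 + η) m`: then `‖r‖² < η m`, `∫ A ≤ (1 + η) m`,
`|A - m| = (A - m) + 2 (m - A)₊`, `(m - A)₊ ≤ γ A + (1 + 1/γ) B`, `γ = √η = η₀/10`: the integral is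
`≤ (η + 2 γ (1 + η) + 2 (η + γ)) m < η₀ m`.
-/

open scoped Quaternion ComplexConjugate
open Real MeasureTheory

namespace Pool.Agent.Work.MP_0ba68b_gt.CX

lemma Sav_num {γ η₀ m a ρ : ℝ} (hγ : 0 < γ) (hγ1 : γ ≤ 1 / 10) (hη : 10 * γ ≤ η₀) (hm : 0 < m)
    (h1 : m ≤ a + ρ) (h2 : a + 2 * ρ < (1 + γ ^ 2) * m) (hρ : 0 ≤ ρ) :
    a - m + 2 * (γ * a + (1 + 1 / γ) * ρ) < η₀ * m := by
  have hρ' : ρ ≤ γ ^ 2 * m := by linarith
  have ha : a ≤ (1 + γ ^ 2) * m := by linarith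
  have h3 : 1 / γ * ρ ≤ γ * m := by
    rw [one_div, inv_mul_le_iff₀ hγ]
    nlinarith
  have hg2 : γ ^ 2 ≤ γ / 10 := by nlinarith only [hγ, hγ1]
  have h4 : γ ^ 2 * m ≤ γ / 10 * m := by gcongr
  have h5 : γ * a ≤ γ * (2 * m) := by
    apply mul_le_mul_of_nonneg_left _ hγ.le
    have : γ / 10 * m ≤ m := by nlinarith only [h1, h2, hρ, hγ, h4]
    linarith
  have h6 : 10 * γ * m ≤ η₀ * m := by gcongr
  have h7 : 0 < γ * m := mul_pos hγ hm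
  nlinarith

lemma Sav_abs {A B m γ : ℝ} (hγ : 0 < γ) (hA : 0 ≤ A) (hB : 0 ≤ B)
    (h : m ≤ (1 + γ) * A + (1 + 1 / γ) * B) :
    |A - m| ≤ A - m + 2 * (γ * A + (1 + 1 / γ) * B) := by
  have h1 : 0 ≤ γ * A := by positivity
  have h2 : 0 ≤ (1 + 1 / γ) * B := by positivity
  rw [abs_le]
  constructor <;> nlinarith

lemma Sav_pt {H : Type} [NormedAddCommGroup H] [InnerProductSpace ℂ H] (u v b b' : H) {m γ : ℝ}
    (hγ : 0 < γ) (h0 : m ≤ ‖u + v + b‖ ^ 2)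
    (h1 : m ≤ ‖Complex.I • u + (-Complex.I) • v + b'‖ ^ 2) :
    m ≤ (1 + γ) * (‖u‖ ^ 2 + ‖v‖ ^ 2) + (1 + 1 / γ) * ((‖b‖ ^ 2 + ‖b'‖ ^ 2) / 2) := by
  have e0 := vec_upper (u + v) b hγ
  have e1 := vec_upper (Complex.I • u + (-Complex.I) • v) b' hγ
  have e2 : ‖Complex.I • u + (-Complex.I) • v‖ = ‖u - v‖ := by
    rw [neg_smul, ← sub_eq_add_neg, ← smul_sub, norm_smul, Complex.norm_I, one_mul]
  have e3 := parallelogram_law_with_norm ℂ u v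
  rw [e2] at e1
  have e4 : ‖u + v‖ ^ 2 + ‖u - v‖ ^ 2 = 2 * (‖u‖ ^ 2 + ‖v‖ ^ 2) := by nlinarith only [e3]
  have e5 : (1 + γ) * ‖u + v‖ ^ 2 + (1 + γ) * ‖u - v‖ ^ 2 =
      2 * ((1 + γ) * (‖u‖ ^ 2 + ‖v‖ ^ 2)) := by rw [← mul_add, e4]; ring
  nlinarith

lemma Sav_int {A B : S3 → ℝ} (iA : Integrable A haar) (iB : Integrable B haar) (m γ : ℝ)
    (hb : ∀ x, |A x - m| ≤ A x - m + 2 * (γ * A x + (1 + 1 / γ) * B x)) :
    ∫ x, |A x - m| ∂haar ≤ ∫ x, A x ∂haar - m +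
      2 * (γ * ∫ x, A x ∂haar + (1 + 1 / γ) * ∫ x, B x ∂haar) := by
  have i1 : Integrable (fun x => A x - m) haar := iA.sub (integrable_const m)
  have i3 : Integrable (fun x => γ * A x) haar := iA.const_mul γ
  have i4 : Integrable (fun x => (1 + 1 / γ) * B x) haar := iB.const_mul _
  have i5 : Integrable (fun x => γ * A x + (1 + 1 / γ) * B x) haar := i3.add i4
  have i2 : Integrable (fun x => 2 * (γ * A x + (1 + 1 / γ) * B x)) haar := i5.const_mul 2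
  have i6 : Integrable (fun x => A x - m + 2 * (γ * A x + (1 + 1 / γ) * B x)) haar := i1.add i2
  refine (integral_mono i1.abs i6 hb).trans_eq ?_
  rw [integral_add i1 i2, integral_sub iA (integrable_const m), integral_const_mul,
    integral_add i3 i4, integral_const_mul, integral_const_mul]
  simp

section
variable {W : Type} [NormedAddCommGroup W] [InnerProductSpace ℂ W] [FiniteDimensional ℂ W]
  (Λ : QRep W)

lemma Sav_pr (s : ℤ × ℝ) (φ : ℝ) (h : W) :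
    Λ.pr s ((1 / 2 : ℂ) • (h - Λ.lam (ec φ) h)) =
      ((1 - Complex.exp (Complex.I * s.1 * φ)) / 2) • Λ.pr s h := by
  rw [map_smul, map_sub, Λ.pr_lam_ec, Λ.lam_ec_of_mem (Λ.pr_mem s h)]
  module

lemma Sav_coef (n : ℤ) (φ : ℝ) : ‖(1 - Complex.exp (Complex.I * n * φ)) / 2‖ ≤ 1 := by
  have h1 : ‖Complex.exp (Complex.I * n * φ)‖ = 1 := by
    rw [show Complex.I * n * φ = ((n * φ : ℝ) : ℂ) * Complex.I by push_cast; ring]
    exact Complex.norm_exp_ofReal_mul_I _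
  have h2 := norm_sub_le (1 : ℂ) (Complex.exp (Complex.I * n * φ))
  rw [norm_div, div_le_one (by simp)]
  rw [h1, norm_one] at h2
  simpa [one_add_one_eq_two] using h2

lemma Sav_norm (φ : ℝ) (h : W) :
    ‖(1 / 2 : ℂ) • (h - Λ.lam (ec φ) h)‖ ^ 2 ≤ ‖h‖ ^ 2 - ‖Λ.P0 h‖ ^ 2 := by
  classical
  obtain ⟨S, hS⟩ := Λ.exists_supp
  rw [hS.norm_sq, hS.norm_sq h, hS.norm_P0, Finset.sum_filter, ← Finset.sum_sub_distrib]
  refine Finset.sum_le_sum fun s _ => ?_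
  rw [Sav_pr, norm_smul, mul_pow]
  split_ifs with h0
  · simp [h0]
  · have := Sav_coef s.1 φ
    have h2 : ‖(1 - Complex.exp (Complex.I * s.1 * φ)) / 2‖ ^ 2 ≤ 1 :=
      pow_le_one₀ (norm_nonneg _) this
    nlinarith [sq_nonneg ‖Λ.pr s h‖]

lemma Sav_split {s s' : ℤ × ℝ} (hs : s ≠ s') (g : W) :
    ‖g‖ ^ 2 = ‖Λ.pr s g‖ ^ 2 + ‖Λ.pr s' g‖ ^ 2 + ‖g - Λ.pr s g - Λ.pr s' g‖ ^ 2 := by
  have o12 : inner ℂ (Λ.pr s g) (Λ.pr s' g) = 0 := Λ.orth (Λ.pr_mem s g) (Λ.pr_mem s' g) hs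
  have o21 : inner ℂ (Λ.pr s' g) (Λ.pr s g) = 0 := Λ.orth (Λ.pr_mem s' g) (Λ.pr_mem s g) hs.symm
  have o1 : inner ℂ (g - Λ.pr s g) (Λ.pr s g) = 0 :=
    Submodule.starProjection_inner_eq_zero g _ (Λ.pr_mem s g)
  have o2 : inner ℂ (g - Λ.pr s' g) (Λ.pr s' g) = 0 :=
    Submodule.starProjection_inner_eq_zero g _ (Λ.pr_mem s' g)
  have o3 : inner ℂ (g - Λ.pr s g - Λ.pr s' g) (Λ.pr s g + Λ.pr s' g) = 0 := by
    rw [inner_add_right, inner_sub_left, o1, o21, sub_right_comm, inner_sub_left, o2, o12]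
    simp
  have e1 := norm_add_sq_eq_norm_sq_add_norm_sq_of_inner_eq_zero _ _ o3
  have e2 := norm_add_sq_eq_norm_sq_add_norm_sq_of_inner_eq_zero _ _ o12
  rw [show g - Λ.pr s g - Λ.pr s' g + (Λ.pr s g + Λ.pr s' g) = g by abel] at e1
  nlinarith

end

theorem sav_gap (N : ℕ) : ∃ (η : ℝ) (q1 : ℕ), 0 < η ∧ ∀ q : ℕ, q1 ≤ q →
    ∀ (W : Type) [NormedAddCommGroup W] [InnerProductSpace ℂ W] [FiniteDimensional ℂ W]
      (Λ : QRep W) (ev : W →L[ℂ] EuclideanSpace ℂ (Fin N)),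
      (∀ h, ‖h‖ ^ 2 = ∫ x : S3, ‖ev (Λ.lam x h)‖ ^ 2 ∂haar) →
      ∀ h, Λ.lam (ec (2 * π / q)) h = h → ∀ m : ℝ, 0 ≤ m →
        (∀ x : S3, 4 * m ≤ ‖ev (Λ.lam x h) - ev (Λ.lam (ec (π / q) * x : S3) h)‖ ^ 2) →
        (1 + η) * m ≤ Λ.sav q h := by
  obtain ⟨η₀, q1, hη₀, hcal⟩ := cal N
  set γ : ℝ := min η₀ 1 / 10 with hγdef
  have hγ : 0 < γ := by positivity
  have hγ1 : γ ≤ 1 / 10 := by
    have := min_le_right η₀ 1
    linarith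
  have hγ2 : 10 * γ ≤ η₀ := by
    have := min_le_left η₀ 1
    linarith
  refine ⟨γ ^ 2, max q1 1, by positivity, fun q hq W _ _ _ Λ ev hev h _ m hm hlow => ?_⟩
  have hq1 : q1 ≤ q := le_trans (le_max_left _ _) hq
  have hq0 : 0 < q := lt_of_lt_of_le one_pos (le_trans (le_max_right _ _) hq)
  have hqc : (q : ℂ) ≠ 0 := by exact_mod_cast hq0.ne'
  set g : W := (1 / 2 : ℂ) • (h - Λ.lam (ec (π / q)) h) with hg
  set s₁ : ℤ × ℝ := (q, q ^ 2 + 2 * q) with hs₁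
  set s₂ : ℤ × ℝ := (-q, q ^ 2 + 2 * q) with hs₂
  have hne : s₁ ≠ s₂ := by
    intro e
    have := congrArg Prod.fst e
    simp only [hs₁, hs₂] at this
    omega
  have p1 : Λ.pr s₁ g = Λ.pr s₁ h := by
    rw [hg, Sav_pr, show Complex.I * (s₁.1 : ℂ) * ((π / q : ℝ) : ℂ) = π * Complex.I by
      simp only [hs₁]; push_cast; field_simp, Complex.exp_pi_mul_I]
    norm_num
  have p2 : Λ.pr s₂ g = Λ.pr s₂ h := by
    rw [hg, Sav_pr, show Complex.I * (s₂.1 : ℂ) * ((π / q : ℝ) : ℂ) = -(π * Complex.I) by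
      simp only [hs₂]; push_cast; field_simp, Complex.exp_neg, Complex.exp_pi_mul_I]
    norm_num
  have m1 := Λ.pr_mem s₁ h
  have m2 := Λ.pr_mem s₂ h
  have hsplit := Sav_split Λ hne g
  rw [p1, p2] at hsplit
  have hnorm : ‖g‖ ^ 2 ≤ ‖h‖ ^ 2 - ‖Λ.P0 h‖ ^ 2 := Sav_norm Λ _ h
  have hsav : Λ.sav q h = 2 * (‖h‖ ^ 2 - ‖Λ.P0 h‖ ^ 2) - ‖Λ.pr s₁ h‖ ^ 2 - ‖Λ.pr s₂ h‖ ^ 2 := rfl
  set h₁ := Λ.pr s₁ h
  set h₂ := Λ.pr s₂ h
  set r := g - h₁ - h₂ with hr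
  have hgr : g = h₁ + h₂ + r := by rw [hr]; abel
  have hc : ∀ w : W, Continuous fun x : S3 => ‖ev (Λ.lam x w)‖ ^ 2 := fun w =>
    ((ev.continuous.comp (Λ.continuous_lam w)).norm).pow 2
  have hi : ∀ w : W, Integrable (fun x : S3 => ‖ev (Λ.lam x w)‖ ^ 2) haar := fun w =>
    integrable_of_cont (hc w)
  have hpt : ∀ x : S3, m ≤ ‖ev (Λ.lam x g)‖ ^ 2 := fun x => by
    have := hlow x
    rw [Λ.lam_mulS, ← map_sub, ← map_sub] at this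
    rw [hg, map_smul, map_smul, norm_smul, mul_pow]
    have e : ‖(1 / 2 : ℂ)‖ ^ 2 = 1 / 4 := by simp; norm_num
    rw [e]
    linarith
  have hgm : m ≤ ‖g‖ ^ 2 := by
    rw [hev g]
    have := integral_mono (integrable_const m) (hi g) hpt
    simpa using this
  by_contra hcon
  rw [not_le, hsav] at hcon
  have n1 := sq_nonneg ‖h₁‖
  have n2 := sq_nonneg ‖h₂‖
  have n3 := sq_nonneg ‖r‖
  have hlt : ‖h₁‖ ^ 2 + ‖h₂‖ ^ 2 + 2 * ‖r‖ ^ 2 < (1 + γ ^ 2) * m := by linarith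
  have hm0 : 0 < m := by
    rcases hm.eq_or_lt with e | e
    · rw [← e] at hlt
      linarith
    · exact e
  have hg2 : γ ^ 2 * m ≤ 1 * m := by
    gcongr
    nlinarith only [hγ, hγ1]
  have hbig := hcal q hq1 W Λ ev hev h₁ m1 h₂ m2 m hm0 (by linarith)
  set α : ℝ := π / (2 * q) with hα
  set r' := Λ.lam (ec α) r with hr'
  have l1 : Λ.lam (ec α) h₁ = Complex.I • h₁ := by
    rw [Λ.lam_ec_of_mem m1, show Complex.I * (s₁.1 : ℂ) * (α : ℂ) = π / 2 * Complex.I by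
      simp only [hs₁, hα]; push_cast; field_simp, Complex.exp_pi_div_two_mul_I]
  have l2 : Λ.lam (ec α) h₂ = (-Complex.I) • h₂ := by
    rw [Λ.lam_ec_of_mem m2, show Complex.I * (s₂.1 : ℂ) * (α : ℂ) = -(π / 2 * Complex.I) by
      simp only [hs₂, hα]; push_cast; field_simp, Complex.exp_neg, Complex.exp_pi_div_two_mul_I,
      Complex.inv_I]
  have hb : ∀ x : S3, |‖ev (Λ.lam x h₁)‖ ^ 2 + ‖ev (Λ.lam x h₂)‖ ^ 2 - m| ≤
      ‖ev (Λ.lam x h₁)‖ ^ 2 + ‖ev (Λ.lam x h₂)‖ ^ 2 - m +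
        2 * (γ * (‖ev (Λ.lam x h₁)‖ ^ 2 + ‖ev (Λ.lam x h₂)‖ ^ 2) +
          (1 + 1 / γ) * ((‖ev (Λ.lam x r)‖ ^ 2 + ‖ev (Λ.lam x r')‖ ^ 2) / 2)) := fun x => by
    refine Sav_abs hγ (by positivity) (by positivity) (Sav_pt _ _ _ _ hγ ?_ ?_)
    · have := hpt x
      rwa [hgr, map_add, map_add, map_add, map_add] at this
    · have := hpt (ec α * x)
      have e : Λ.lam (ec α) g = Complex.I • h₁ + (-Complex.I) • h₂ + r' := by
        rw [hgr, map_add, map_add, l1, l2]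
      rwa [Λ.lam_mulS, e, map_add, map_add, map_add, map_add, map_smul, map_smul, map_smul,
        map_smul] at this
  have iA : Integrable (fun x : S3 => ‖ev (Λ.lam x h₁)‖ ^ 2 + ‖ev (Λ.lam x h₂)‖ ^ 2) haar :=
    (hi h₁).add (hi h₂)
  have iB : Integrable (fun x : S3 => (‖ev (Λ.lam x r)‖ ^ 2 + ‖ev (Λ.lam x r')‖ ^ 2) / 2) haar :=
    ((hi r).add (hi r')).div_const 2
  have hint := Sav_int iA iB m γ hb
  have vA : ∫ x : S3, (‖ev (Λ.lam x h₁)‖ ^ 2 + ‖ev (Λ.lam x h₂)‖ ^ 2) ∂haar =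
      ‖h₁‖ ^ 2 + ‖h₂‖ ^ 2 := by
    rw [integral_add (hi h₁) (hi h₂), ← hev, ← hev]
  have vB : ∫ x : S3, ((‖ev (Λ.lam x r)‖ ^ 2 + ‖ev (Λ.lam x r')‖ ^ 2) / 2) ∂haar = ‖r‖ ^ 2 := by
    rw [integral_div, integral_add (hi r) (hi r'), ← hev, ← hev, hr', Λ.norm_lam]
    ring
  rw [vA, vB] at hint
  have hnum := Sav_num hγ hγ1 hγ2 hm0 (a := ‖h₁‖ ^ 2 + ‖h₂‖ ^ 2) (ρ := ‖r‖ ^ 2) (by linarith only [hsplit, hgm]) hlt n3
  exact absurd (hbig.trans hint) (not_le.2 hnum)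

end Pool.Agent.Work.MP_0ba68b_gt.CX
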