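import Pool.Agent.Work.MP_0ba68b_gt.CX.Base1
import Pool.Agent.Work.MP_0ba68b_gt.CX.Haar

/-!
Approximate embeddings can be made exactly invariant, normalised and polynomial in the direction.

PLAN.  `Apx.of_close`: for minimal pairs `‖F p - F p'‖² ≤ B := 4R² + (y²+1)`-type bounds are not needed: use
`vec_lower` with `u = F p - F p'`, `v` the error of norm `≤ 2δ`, `rep ≤ 3 R² + (y² + 1)/4` (`Minimal.rep_le`) and
`4 ρ² sin² ≤ 4 R²`: `(1 - β) (l2 rep - ε') - 4 δ²/β ≥ l2 rep - ε` for `β`, `ε'`, `δ` small.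
`zavg`: `G (a,x) = (1/q) ∑ l < q, F (a, ec (2π l/q) * x) - G₀`; `‖F (a, ec (2π l/q) x) - F (a,x)‖ ≤ l ε'` by induction;
`up` by convexity (`norm_sum_le`, left multiplication is an isometry); `ginv`: `ec φ * j^k = j^k * ec (± φ)`
(`jj_zpow_even`, `jj_zpow_odd`, `jj_mul_ec`), reindex `l ↦ -l` (sum over `ZMod q`, or use that the summand is
`q`-periodic in `l : ℤ`).  Subtract the value at the base point `((1,0,0), 1)`.
`smooth`: `-1 = ec π = ec (2π/q) ^ (q/2)`, so `G (a, -x) = G (a, x)`.  `G' (a,x) = ∫ g, sD D g • G (a, x * g)`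
`= ∫ z, sD D (x⁻¹ * z) • G (a, z)` (`integral_mul_left_eq_self`, `re_inv_mul`), `φ a z = (ZD D)⁻¹ • G (a,z)`.
`‖G (a, x g) - G (a,x)‖² ≤ ρ² min ‖g - 1‖² ‖g + 1‖² = 2 ρ² (1 - |re g|) ≤ 2 R² (1 - (re g)²)`;
`‖G' - G‖ ≤ ∫ sD g ‖..‖ ≤ ∫ sD g (δ/2 + ‖..‖²/(2δ))`, `sD_conc`.  Right multiplication is an isometry of `ℍ`.
-/

open scoped Quaternion RealInnerProductSpace
open Real MeasureTheory

namespace Pool.Agent.Work.MP_0ba68b_gt.CX

variable {N q : ℕ} {y R : ℝ}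

lemma Apx.mono {ε ε' : ℝ} {F : Pt (IR R) → EuclideanSpace ℝ (Fin N)} (h : Apx N q y R ε F)
    (he : ε ≤ ε') : Apx N q y R ε' F := by
  exact ⟨h.up, h.ginv, fun a x => (h.zap a x).trans he,
    fun p p' hm => (sub_le_sub_left he _).trans (h.low1 p p' hm),
    fun a x => (sub_le_sub_left he _).trans (h.low2 a x)⟩

lemma Smooth_low {V : Type} [NormedAddCommGroup V] {B ε : ℝ} (hB : 0 ≤ B) (hε : 0 < ε) :
    ∃ δ > 0, ∀ (L : ℝ) (f f' g g' c : V), L ≤ B → L - δ ≤ ‖f - f'‖ ^ 2 → ‖g + c - f‖ ≤ δ →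
      ‖g' + c - f'‖ ≤ δ → L - ε ≤ ‖g - g'‖ ^ 2 := by
  have h0 : 0 < min 1 (ε / (5 + B)) := lt_min one_pos (by positivity)
  refine ⟨_, h0, fun L f f' g g' c hL h1 h2 h3 => ?_⟩
  have h4 : min 1 (ε / (5 + B)) * (5 + B) ≤ ε := (le_div_iff₀ (by positivity)).1 (min_le_right _ _)
  have h5 := min_le_left 1 (ε / (5 + B))
  generalize min 1 (ε / (5 + B)) = δ at *
  have h6 := vec_lower (f - f') ((g + c - f) - (g' + c - f')) h0
  have h7 : ‖(g + c - f) - (g' + c - f')‖ ≤ 2 * δ := (norm_sub_le _ _).trans (by linarith)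
  have h8 : ‖(g + c - f) - (g' + c - f')‖ ^ 2 / δ ≤ 4 * δ := by
    rw [div_le_iff₀ h0]
    nlinarith only [h0, h7, norm_nonneg ((g + c - f) - (g' + c - f'))]
  rw [show f - f' + ((g + c - f) - (g' + c - f')) = g - g' by abel] at h6
  have h9 := mul_le_mul_of_nonneg_left h1 (sub_nonneg.2 h5)
  have h10 := mul_le_mul_of_nonneg_left hL h0.le
  nlinarith only [h4, h6, h8, h9, h10, sq_nonneg δ]

lemma Smooth_rho (hR : 2 ≤ R) (a : Ax (IR R)) : 0 < rho a ∧ rho a ≤ R ∧ rho a ^ 2 ≤ R ^ 2 := by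
  have h := rho_pos (by linarith : 0 < R) a
  exact ⟨h, a.1.2.2, pow_le_pow_left₀ h.le a.1.2.2 2⟩

lemma Apx.of_close (q : ℕ) (y : ℝ) (hR : 2 ≤ R) {ε : ℝ} (hε : 0 < ε) : ∃ δ > 0,
    ∀ F G : Pt (IR R) → EuclideanSpace ℝ (Fin N), ∀ c, Apx N q y R δ F → (∀ p, ‖G p + c - F p‖ ≤ δ) →
      (∀ p p', Minimal y p p' → l2 * rep y p p' - ε ≤ ‖G p - G p'‖ ^ 2) ∧
      ∀ a x, l2 * (4 * rho a ^ 2 * sin (π / (2 * q)) ^ 2) - ε ≤
        ‖G (a, x) - G (a, ec (π / q) * x)‖ ^ 2 := by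
  have hl : 0 < l2 := by unfold l2; norm_num
  obtain ⟨δ, h0, h⟩ := Smooth_low (V := EuclideanSpace ℝ (Fin N))
    (B := l2 * (4 * R ^ 2 + y ^ 2 + 1)) (by positivity) hε
  refine ⟨δ, h0, fun F G c hF hG => ⟨fun p p' hm => ?_, fun a x => ?_⟩⟩
  · refine h _ _ _ _ _ c (mul_le_mul_of_nonneg_left ?_ hl.le) (hF.low1 p p' hm) (hG _) (hG _)
    have h1 := Smooth_rho hR p.1
    have h2 := Smooth_rho hR p'.1
    have h3 := hm.rep_le h1.1.le h2.1.le
    nlinarith [sq_nonneg y, sq_nonneg R, h1.2.2, h2.2.2]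
  · refine h _ _ _ _ _ c (mul_le_mul_of_nonneg_left ?_ hl.le) (hF.low2 a x) (hG _) (hG _)
    have h1 := (Smooth_rho hR a).2.2
    have h2 := mul_le_mul_of_nonneg_left (sin_sq_le_one (π / (2 * q))) (sq_nonneg (rho a))
    nlinarith [sq_nonneg y]

lemma Smooth_shift {V : Type} [AddCommGroup V] (hq : 0 < q) {f : ℝ → V}
    (hf : ∀ φ, f (φ + 2 * π) = f φ) :
    ∑ l ∈ Finset.range q, f (((l + 1 : ℕ) : ℝ) * (2 * π / q)) =
      ∑ l ∈ Finset.range q, f (l * (2 * π / q)) := by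
  have h1 := Finset.sum_range_succ (fun l : ℕ => f (l * (2 * π / q))) q
  have h2 := Finset.sum_range_succ' (fun l : ℕ => f (l * (2 * π / q))) q
  have h3 : (q : ℝ) ≠ 0 := by positivity
  have h4 : f (q * (2 * π / q)) = f ((0 : ℕ) * (2 * π / q)) := by
    rw [← hf ((0 : ℕ) * _)]
    congr 1
    field_simp
    simp
  rw [h1, h4] at h2
  exact (add_right_cancel h2).symm

lemma Smooth_neg {V : Type} [AddCommGroup V] (hq : 0 < q) {f : ℝ → V}
    (hf : ∀ φ, f (φ + 2 * π) = f φ) :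
    ∑ l ∈ Finset.range q, f (-(l * (2 * π / q))) = ∑ l ∈ Finset.range q, f (l * (2 * π / q)) := by
  rw [← Smooth_shift hq hf, ← Finset.sum_range_reflect]
  refine Finset.sum_congr rfl fun l hl => ?_
  have h3 : (q : ℝ) ≠ 0 := by positivity
  have h4 : l + 1 ≤ q := Finset.mem_range.1 hl
  rw [← hf, Nat.sub_sub, add_comm 1 l, Nat.cast_sub h4]
  congr 1
  field_simp
  ring

lemma Smooth_ec (φ : ℝ) : ec (φ + 2 * π) = ec φ := by
  simpa using ec_add_int φ 1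

lemma Smooth_comm (k : ℤ) :
    (∀ φ, ec φ * jj ^ k = jj ^ k * ec φ) ∨ ∀ φ, ec φ * jj ^ k = jj ^ k * ec (-φ) := by
  rcases Int.even_or_odd k with h | h
  · obtain ⟨ψ, e, -⟩ := jj_zpow_even h
    exact Or.inl fun φ => by rw [e, ← ec_add, ← ec_add, add_comm]
  · obtain ⟨ψ, e, -⟩ := jj_zpow_odd h
    exact Or.inr fun φ => by
      rw [e, mul_assoc, jj_mul_ec, neg_neg, ← mul_assoc, ← mul_assoc, ← ec_add, ← ec_add, add_comm]

lemma Smooth_avg {V : Type} [NormedAddCommGroup V] [NormedSpace ℝ V] (hq : 0 < q) {u : ℕ → V}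
    {C : ℝ} (h : ∀ l < q, ‖u l‖ ≤ C) : ‖(q : ℝ)⁻¹ • ∑ l ∈ Finset.range q, u l‖ ≤ C := by
  have h0 : (0 : ℝ) < q := by positivity
  have h1 := (norm_sum_le _ _).trans
    (Finset.sum_le_card_nsmul (Finset.range q) _ C fun l hl => h l (Finset.mem_range.1 hl))
  rw [Finset.card_range, nsmul_eq_mul] at h1
  rwa [norm_smul, norm_inv, Real.norm_of_nonneg h0.le, inv_mul_le_iff₀ h0]

lemma Smooth_step (l : ℕ) (θ : ℝ) (x : S3) :
    ec (((l + 1 : ℕ) : ℝ) * θ) * x = ec θ * (ec (l * θ) * x) := by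
  rw [← mul_assoc, ← ec_add]
  congr 2
  push_cast
  ring

theorem zavg (hq : 0 < q) (hR : 2 ≤ R)
    (hA : ∀ ε > 0, ∃ F : Pt (IR R) → EuclideanSpace ℝ (Fin N), Apx N q y R ε F) {ε : ℝ}
    (hε : 0 < ε) : ∃ G : Pt (IR R) → EuclideanSpace ℝ (Fin N), Apx N q y R ε G ∧
      (∀ a x, G (a, ec (2 * π / q) * x) = G (a, x)) ∧
      ∀ p, ‖G p‖ ^ 2 ≤ 4 * R ^ 2 + y ^ 2 * p.1.2.1 ^ 2 + p.1.2.2 ^ 2 := by
  obtain ⟨δ, h0, hc⟩ := Apx.of_close (N := N) q y hR hε
  have q1 : (1 : ℝ) ≤ q := by exact_mod_cast hq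
  obtain ⟨F, hF⟩ := hA (δ / q) (by positivity)
  set A : Pt (IR R) → EuclideanSpace ℝ (Fin N) := fun p =>
    (q : ℝ)⁻¹ • ∑ l ∈ Finset.range q, F (p.1, ec (l * (2 * π / q)) * p.2) with hA'
  have up : ∀ p p', ‖A p - A p'‖ ^ 2 ≤
      ‖rho p.1 • (p.2 : ℍ[ℝ]) - rho p'.1 • (p'.2 : ℍ[ℝ])‖ ^ 2 + sg y p.1 p'.1 := fun p p' => by
    have b0 := add_nonneg (sq_nonneg ‖rho p.1 • (p.2 : ℍ[ℝ]) - rho p'.1 • (p'.2 : ℍ[ℝ])‖)
      (sg_nonneg y p.1 p'.1)
    rw [← Real.le_sqrt (norm_nonneg _) b0]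
    simp only [hA', ← smul_sub, ← Finset.sum_sub_distrib]
    refine Smooth_avg hq fun l _ => ?_
    rw [Real.le_sqrt (norm_nonneg _) b0]
    refine (hF.up _ _).trans (le_of_eq ?_)
    simp only [Metric.unitSphere.coe_mul, ← mul_smul_comm, ← mul_sub, norm_S3_mul]
  have zi : ∀ a x, A (a, ec (2 * π / q) * x) = A (a, x) := fun a x => by
    simp only [hA']
    rw [← Smooth_shift hq (f := fun φ => F (a, ec φ * x)) fun φ => by rw [Smooth_ec]]
    congr 1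
    refine Finset.sum_congr rfl fun l _ => ?_
    rw [← mul_assoc, ← ec_add]
    congr 4
    push_cast
    ring
  have gi : ∀ m p, A (gam m p) = A p := fun m p => by
    simp only [hA']
    congr 1
    rcases Smooth_comm (m.1 + m.2) with e | e
    · refine Finset.sum_congr rfl fun l _ => ?_
      rw [← hF.ginv m (p.1, _)]
      simp only [gam, ← mul_assoc, e]
    · rw [← Smooth_neg hq (f := fun φ => F (p.1, ec φ * p.2)) fun φ => by rw [Smooth_ec]]
      refine Finset.sum_congr rfl fun l _ => ?_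
      rw [← hF.ginv m (p.1, _)]
      simp only [gam, ← mul_assoc, e]
  have cl : ∀ (l : ℕ) a x, ‖F (a, ec (l * (2 * π / q)) * x) - F (a, x)‖ ≤ l * (δ / q) := by
    intro l a x
    induction l with
    | zero => simp [ec_zero]
    | succ l ih =>
      rw [Smooth_step]
      refine (norm_sub_le_norm_sub_add_norm_sub _ _ _).trans
        ((add_le_add (hF.zap a _) ih).trans (le_of_eq ?_))
      push_cast
      ring
  have cA : ∀ p, ‖A p - F p‖ ≤ δ := fun p => by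
    have e : F p = (q : ℝ)⁻¹ • ∑ l ∈ Finset.range q, F p := by
      rw [Finset.sum_const, Finset.card_range, ← Nat.cast_smul_eq_nsmul ℝ, smul_smul,
        inv_mul_cancel₀ (by positivity), one_smul]
    rw [e]
    simp only [hA', ← smul_sub, ← Finset.sum_sub_distrib]
    refine Smooth_avg hq fun l hl => (cl l p.1 p.2).trans ?_
    have : (l : ℝ) ≤ q := by exact_mod_cast hl.le
    calc _ ≤ q * (δ / q) := by gcongr
      _ = δ := by field_simp
  have r1 : (1 : ℝ) ∈ IR R := ⟨inv_le_one_of_one_le₀ (by linarith), by linarith⟩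
  have lo := hc F (fun p => A p - A ((⟨1, r1⟩, 0, 0), 1)) (A ((⟨1, r1⟩, 0, 0), 1))
    (hF.mono (div_le_self h0.le q1)) fun p => by simpa using cA p
  refine ⟨fun p => A p - A ((⟨1, r1⟩, 0, 0), 1), ⟨fun p p' => by simpa using up p p',
    fun m p => by rw [gi], fun a x => by simpa [zi] using hε.le, lo.1, lo.2⟩,
    fun a x => by simp only [zi], fun p => (up _ _).trans ?_⟩
  have b1 := Smooth_rho hR p.1
  have b2 : ‖rho p.1 • (p.2 : ℍ[ℝ]) - (1 : ℝ) • ((1 : S3) : ℍ[ℝ])‖ ≤ 2 * R := by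
    refine (norm_sub_le _ _).trans ?_
    rw [norm_smul, norm_smul, S3.norm, S3.norm, Real.norm_of_nonneg b1.1.le, norm_one]
    linarith [b1.2.1]
  have b3 := pow_le_pow_left₀ (norm_nonneg _) b2 2
  have b4 : sg y p.1 (⟨1, r1⟩, 0, 0) = y ^ 2 * p.1.2.1 ^ 2 + p.1.2.2 ^ 2 := by simp [sg]
  change ‖rho p.1 • (p.2 : ℍ[ℝ]) - (1 : ℝ) • ((1 : S3) : ℍ[ℝ])‖ ^ 2 + sg y p.1 (⟨1, r1⟩, 0, 0) ≤ _
  linarith

lemma Smooth_int {V : Type} [NormedAddCommGroup V] [NormedSpace ℝ V] (D : ℕ) {u : S3 → V}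
    {b : S3 → ℝ} (hb : Continuous b) (h : ∀ g, ‖u g‖ ≤ b g) :
    ‖∫ g, sD D g • u g ∂haar‖ ≤ ∫ g, sD D g * b g ∂haar := by
  refine norm_integral_le_of_norm_le (integrable_of_cont ((continuous_sD D).mul hb))
    (Filter.Eventually.of_forall fun g => ?_)
  rw [norm_smul, Real.norm_of_nonneg (sD_nonneg D g)]
  exact mul_le_mul_of_nonneg_left (h g) (sD_nonneg D g)

lemma Smooth_sq {V : Type} [NormedAddCommGroup V] [NormedSpace ℝ V] (D : ℕ) {u : S3 → V}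
    {B : ℝ} (h : ∀ g, ‖u g‖ ^ 2 ≤ B) : ‖∫ g, sD D g • u g ∂haar‖ ^ 2 ≤ B := by
  have h0 : 0 ≤ B := (sq_nonneg _).trans (h 1)
  have h1 := Smooth_int D (b := fun _ => √B) continuous_const
    fun g => (Real.le_sqrt (norm_nonneg _) h0).2 (h g)
  rw [integral_mul_const, integral_sD, one_mul] at h1
  exact (Real.le_sqrt (norm_nonneg _) h0).1 h1

lemma Smooth_cont {ε : ℝ} {G : Pt (IR R) → EuclideanSpace ℝ (Fin N)} (h : Apx N q y R ε G)
    (hR : 2 ≤ R) (a : Ax (IR R)) : Continuous fun x => G (a, x) := by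
  have h0 := Smooth_rho hR a
  refine (LipschitzWith.of_dist_le_mul (K := ⟨rho a, h0.1.le⟩) fun x x' => ?_).continuous
  have h1 := h.up (a, x) (a, x')
  simp only [sg, sub_self, ← smul_sub, norm_smul, Real.norm_of_nonneg h0.1.le] at h1
  rw [Subtype.dist_eq, dist_eq_norm, dist_eq_norm]
  exact abs_le_of_sq_le_sq' (by simpa using h1) (mul_nonneg h0.1.le (norm_nonneg _)) |>.2

lemma Smooth_chord {r : ℝ} (s : ℝ) (x g : S3) :
    ‖r • ((x : ℍ[ℝ]) * g) - r • (s • (x : ℍ[ℝ]))‖ ^ 2 =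
      r ^ 2 * (1 + s ^ 2 - 2 * s * (g : ℍ[ℝ]).re) := by
  have e : (x : ℍ[ℝ]) * g - s • (x : ℍ[ℝ]) = x * (g - s • (1 : ℍ[ℝ])) := by
    rw [mul_sub, mul_smul_comm, mul_one]
  rw [← smul_sub, e, norm_smul, norm_S3_mul, mul_pow, Real.norm_eq_abs, sq_abs, hnorm_sq]
  have := S3.sq_sum g
  simp
  left
  linarith

lemma Smooth_move {ε : ℝ} {G : Pt (IR R) → EuclideanSpace ℝ (Fin N)} (h : Apx N q y R ε G)
    (hR : 2 ≤ R) (hπ : ∀ a x, G (a, ec π * x) = G (a, x)) (a : Ax (IR R)) (x g : S3) :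
    ‖G (a, x * g) - G (a, x)‖ ^ 2 ≤ 2 * R ^ 2 * (1 - (g : ℍ[ℝ]).re ^ 2) := by
  have h0 := (Smooth_rho hR a).2.2
  have h1 := S3.sq_sum g
  have h2 : (g : ℍ[ℝ]).re ^ 2 ≤ 1 := by
    nlinarith [sq_nonneg (g : ℍ[ℝ]).imI, sq_nonneg (g : ℍ[ℝ]).imJ, sq_nonneg (g : ℍ[ℝ]).imK]
  have h3 := mul_le_mul_of_nonneg_right h0 (sub_nonneg.2 h2)
  have h4 := abs_le.1 ((sq_le_one_iff_abs_le_one _).1 h2)
  have s0 : sg y a a = 0 := by simp [sg]
  rcases le_total 0 (g : ℍ[ℝ]).re with c | c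
  · have b1 := h.up (a, x * g) (a, x)
    have b2 := Smooth_chord (r := rho a) 1 x g
    simp only [Metric.unitSphere.coe_mul, s0] at b1
    rw [one_smul] at b2
    have b3 := mul_nonneg (sq_nonneg (rho a)) (mul_nonneg c (sub_nonneg.2 h4.2))
    nlinarith only [h3, b2, b1, b3]
  · have b1 := h.up (a, x * g) (a, ec π * x)
    have b2 := Smooth_chord (r := rho a) (-1) x g
    simp only [Metric.unitSphere.coe_mul, s0, hπ, coe_ec_pi, neg_one_mul] at b1
    rw [neg_one_smul] at b2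
    have b3 := mul_nonneg (sq_nonneg (rho a))
      (mul_nonneg (neg_nonneg.2 c) (neg_le_iff_add_nonneg.1 h4.1))
    nlinarith only [h3, b2, b1, b3]

theorem smooth (hq : 0 < q) (he : Even q) (hR : 2 ≤ R)
    (hA : ∀ ε > 0, ∃ F : Pt (IR R) → EuclideanSpace ℝ (Fin N), Apx N q y R ε F) {ε : ℝ}
    (hε : 0 < ε) : ∃ (m : ℕ) (G : Pt (IR R) → EuclideanSpace ℝ (Fin N))
      (φ : Ax (IR R) → S3 → EuclideanSpace ℝ (Fin N)), Apx N q y R ε G ∧
      (∀ a x, G (a, ec (2 * π / q) * x) = G (a, x)) ∧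
      (∀ p, ‖G p‖ ^ 2 ≤ 4 * R ^ 2 + y ^ 2 * p.1.2.1 ^ 2 + p.1.2.2 ^ 2) ∧
      (∀ a, Continuous (φ a)) ∧
      ∀ a (x : S3), G (a, x) = ∫ z : S3, ⟪(x : ℍ[ℝ]), (z : ℍ[ℝ])⟫ ^ m • φ a z ∂haar := by
  obtain ⟨δ, h0, hc⟩ := Apx.of_close (N := N) q y hR hε
  obtain ⟨G, hG, zi, nb⟩ := zavg hq hR hA h0
  have R0 : 0 < R := by linarith
  obtain ⟨D, hD⟩ := sD_conc (ε := δ ^ 2 / (2 * R ^ 2)) (by positivity)
  have zl : ∀ (l : ℕ) a x, G (a, ec (l * (2 * π / q)) * x) = G (a, x) := fun l a x => by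
    induction l with
    | zero => simp [ec_zero]
    | succ l ih => rw [Smooth_step, zi, ih]
  have hπ : ∀ a x, G (a, ec π * x) = G (a, x) := fun a x => by
    obtain ⟨k, rfl⟩ := he
    have k0 : (k : ℝ) ≠ 0 := by
      have : k ≠ 0 := by omega
      exact_mod_cast this
    rw [← zl k a x]
    congr 4
    push_cast
    field_simp
    ring
  have ct := Smooth_cont hG hR
  have ig : ∀ p : Pt (IR R), Integrable (fun g => sD D g • G (p.1, p.2 * g)) haar := fun p =>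
    integrable_of_cont ((continuous_sD D).smul ((ct p.1).comp (continuous_const.mul continuous_id)))
  set A : Pt (IR R) → EuclideanSpace ℝ (Fin N) := fun p =>
    ∫ g, sD D g • G (p.1, p.2 * g) ∂haar with hA'
  have zA : ∀ a x, A (a, ec (2 * π / q) * x) = A (a, x) := fun a x => by
    simp only [hA', mul_assoc, zi]
  have cA : ∀ p, ‖A p + 0 - G p‖ ≤ δ := fun p => by
    have e : G p = ∫ g, sD D g • G p ∂haar := by rw [integral_smul_const, integral_sD, one_smul]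
    have c1 : Continuous fun g : S3 => 1 - (g : ℍ[ℝ]).re ^ 2 :=
      continuous_const.sub ((Quaternion.continuous_re.comp continuous_subtype_val).pow 2)
    have i1 : Integrable (fun g => sD D g • G p) haar :=
      integrable_of_cont ((continuous_sD D).smul continuous_const)
    have i2 : Integrable (fun g => sD D g * (δ / 2)) haar :=
      integrable_of_cont ((continuous_sD D).mul continuous_const)
    have i3 : Integrable (fun g : S3 => R ^ 2 / δ * (sD D g * (1 - (g : ℍ[ℝ]).re ^ 2))) haar :=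
      integrable_of_cont (continuous_const.mul ((continuous_sD D).mul c1))
    rw [add_zero, e, hA', ← integral_sub (ig p) i1]
    simp only [← smul_sub]
    refine (Smooth_int D (b := fun g => δ / 2 + R ^ 2 / δ * (1 - (g : ℍ[ℝ]).re ^ 2))
      (continuous_const.add (continuous_const.mul c1)) fun g => ?_).trans ?_
    · have b1 := Smooth_move hG hR hπ p.1 p.2 g
      rw [← sub_le_iff_le_add', div_mul_eq_mul_div, le_div_iff₀ h0]
      nlinarith only [b1, sq_nonneg (‖G (p.1, p.2 * g) - G (p.1, p.2)‖ - δ)]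
    · simp only [mul_add, mul_left_comm _ (R ^ 2 / δ)]
      rw [integral_add i2 i3, integral_mul_const, integral_const_mul, integral_sD]
      have b2 := mul_le_mul_of_nonneg_left hD (by positivity : 0 ≤ R ^ 2 / δ)
      have b3 : R ^ 2 / δ * (δ ^ 2 / (2 * R ^ 2)) = δ / 2 := by field_simp
      linarith
  have lo := hc G A 0 hG cA
  refine ⟨2 * D, A, fun a z => (ZD D)⁻¹ • G (a, z), ⟨fun p p' => ?_, fun m p => ?_,
    fun a x => by simpa [zA] using hε.le, lo.1, lo.2⟩, zA, fun p => Smooth_sq D fun g => nb _,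
    fun a => (ct a).const_smul (ZD D)⁻¹, fun a x => ?_⟩
  · rw [hA', ← integral_sub (ig p) (ig p')]
    simp only [← smul_sub]
    refine Smooth_sq D fun g => (hG.up _ _).trans (le_of_eq ?_)
    simp only [Metric.unitSphere.coe_mul, ← smul_mul_assoc, ← sub_mul, norm_mul, S3.norm, mul_one]
  · simp only [hA']
    congr 1
    funext g
    rw [← hG.ginv m (p.1, _)]
    simp only [gam, mul_assoc]
  · rw [← integral_mul_left_eq_self _ x]
    simp only [hA']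
    congr 1
    funext g
    rw [← re_inv_mul, inv_mul_cancel_left, smul_smul, sD, div_eq_mul_inv]

end Pool.Agent.Work.MP_0ba68b_gt.CX
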