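import Pool.Agent.Work.MP_0ba68b_gt.CX.PolyW
import Pool.Agent.Work.MP_0ba68b_gt.CX.RepK
import Pool.Agent.Work.MP_0ba68b_gt.CX.Sav
import Pool.Agent.Work.MP_0ba68b_gt.CX.Smooth

/-!
Finite dimensional approximate embeddings give admissible kernels with a smaller budget.

PLAN.  `AdmL.ulim`: `exists_ulim` for `g n (p, p') = K n p p'` (bounded by `PSD.abs_le`), `PSD.of_tendsto`,
`tendsto_nhds_unique`, `le_of_tendsto'`, `le_of_tendsto_of_tendsto'`.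
`thmI_eps`: `η₀, q₀` from `sav_gap N` (take `η₀ ≤ 1`), `η = η₀/2`.  Apply `smooth` with `ε' ≤ ε` small, `exists_qrep N m`, choose
`h a`.  Key identity: for `x, x'`, `‖lam x (h a) - lam x' (h a')‖² = ∫ z, ‖G (a, x * z) - G (a', x' * z)‖²`
(`map_sub`, `lam_mulS`, `EuclideanSpace.norm_sq_eq`, `Complex.norm_real`).  It gives `Fam` (norm zero), `hU` (right multiplication is
an isometry), `hL` (`minimal_mul_right`, `rep_mul_right`), `‖h a‖² ≤` the bound.  `sav_gap` with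
`m = max 0 (l2 ρ² sin² (π/2q) - ε'/4)`, `ρ ≥ 1/R`; `sin x ≥ x - x³/6` gives `q l2 sin² (π/2q) ≥ (kap/q) (1 - 1/q²)`;
take `σ = (1 + η) kap/q + 4/q²`, valid for `q ≥ 100/η₀` and `ε' R² q² ≤ 1`-type smallness.
`thmI`: `ε = 1/(n+1)` and `AdmL.ulim`.
-/

open scoped Quaternion
open Real Filter Topology

namespace Pool.Agent.Work.MP_0ba68b_gt.CX

theorem AdmL.ulim {I : Set ℝ} {y b : ℝ} {lo : Pt I → Pt I → ℝ} {K : ℕ → Pt I → Pt I → ℝ}
    {e : ℕ → ℝ} (he : Tendsto e atTop (𝓝 0))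
    (h : ∀ n, AdmL y b (fun p p' => lo p p' - e n) (K n)) (hb : ∀ p, ∃ C, ∀ n, K n p p ≤ C) :
    ∃ L : Pt I → Pt I → ℝ, AdmL y b lo L := by
  have hbd : ∀ i : Pt I × Pt I, ∃ C, ∀ n, |K n i.1 i.2| ≤ C := by
    rintro ⟨p, p'⟩
    obtain ⟨C, hC⟩ := hb p
    obtain ⟨C', hC'⟩ := hb p'
    refine ⟨√C * √C', fun n => ((h n).psd.abs_le p p').trans ?_⟩
    exact mul_le_mul (Real.sqrt_le_sqrt (hC n)) (Real.sqrt_le_sqrt (hC' n)) (Real.sqrt_nonneg _)
      (Real.sqrt_nonneg _)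
  obtain ⟨U, L, hU, hL⟩ := exists_ulim (fun n (i : Pt I × Pt I) => K n i.1 i.2) hbd
  have hL' : ∀ p p', Tendsto (fun n => K n p p') U (𝓝 (L (p, p'))) := fun p p' => hL (p, p')
  have hnd : ∀ p p', Tendsto (fun n => nd (K n) p p') U (𝓝 (nd (fun p p' => L (p, p')) p p')) :=
    fun p p' => ((hL' p p).add (hL' p' p')).sub ((hL' p p').const_mul 2)
  have heq : ∀ p p' r r', (∀ n, K n p p' = K n r r') → L (p, p') = L (r, r') :=
    fun p p' r r' e => tendsto_nhds_unique (hL' p p') ((hL' r r').congr fun n => (e n).symm)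
  refine ⟨fun p p' => L (p, p'), ⟨⟨⟨PSD.of_tendsto (fun n => (h n).psd) hL', ?_, ?_⟩, ?_⟩,
    ?_, ?_, ?_⟩⟩
  · exact fun a a' x x' g => heq _ _ _ _ fun n => (h n).rinv a a' x x' g
  · exact fun p a' x' φ => heq _ _ _ _ fun n => (h n).uinv p a' x' φ
  · exact fun m p p' => heq _ _ _ _ fun n => (h n).ginv m p p'
  · exact fun a a' x => le_of_tendsto' (hnd _ _) fun n => (h n).up0 a a' x
  · exact fun a t ht => le_of_tendsto' (hnd _ _) fun n => (h n).upj a t ht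
  · intro p p' hm
    have h1 : Tendsto (fun n => lo p p' - e n) U (𝓝 (lo p p' - 0)) :=
      tendsto_const_nhds.sub (he.mono_left hU)
    rw [sub_zero] at h1
    exact le_of_tendsto_of_tendsto' h1 (hnd p p') fun n => (h n).low p p' hm

lemma ThmI_norm {N : ℕ} {u v : EuclideanSpace ℂ (Fin N)} {f g : EuclideanSpace ℝ (Fin N)}
    (hu : ∀ i, u i = (f i : ℝ)) (hv : ∀ i, v i = (g i : ℝ)) : ‖u - v‖ ^ 2 = ‖f - g‖ ^ 2 := by
  rw [EuclideanSpace.norm_sq_eq, EuclideanSpace.norm_sq_eq]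
  refine Finset.sum_congr rfl fun i _ => ?_
  rw [PiLp.sub_apply, PiLp.sub_apply, hu, hv, ← Complex.ofReal_sub, Complex.norm_real]

lemma ThmI_sin {q : ℝ} (hq : 100 ≤ q) :
    kap / q ^ 2 * (1 - 2 / q ^ 2) ≤ l2 * sin (π / (2 * q)) ^ 2 := by
  have hq0 : 0 < q := by linarith
  have hx0 : 0 < π / (2 * q) := by positivity
  have hx : π / (2 * q) ≤ 2 / q := by
    rw [div_le_div_iff₀ (by positivity) hq0]
    nlinarith [pi_le_four]
  have hq2 : 2 / q ≤ 1 := by rw [div_le_one hq0]; linarith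
  have hk : kap / q ^ 2 = l2 * (π / (2 * q)) ^ 2 := by
    unfold kap; field_simp; ring
  have h2 : (π / (2 * q)) ^ 2 ≤ 4 / q ^ 2 := by
    calc (π / (2 * q)) ^ 2 ≤ (2 / q) ^ 2 := by gcongr
      _ = 4 / q ^ 2 := by ring
  have hs' := Real.sin_gt_sub_cube hx0
  set x := π / (2 * q)
  have hs : x - x ^ 3 / 4 ≤ sin x := by linarith [pow_pos hx0 3]
  have hx1 : x ≤ 1 := hx.trans hq2
  have h3 : 0 ≤ x - x ^ 3 / 4 := by nlinarith only [hx0, hx1, hq2, hx, mul_nonneg hx0.le (sub_nonneg.2 hx1), sq_nonneg x]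
  have h4 : (x - x ^ 3 / 4) ^ 2 ≤ sin x ^ 2 := by gcongr
  have h5 : x ^ 2 * (1 - 2 / q ^ 2) ≤ (x - x ^ 3 / 4) ^ 2 := by
    have e : (x - x ^ 3 / 4) ^ 2 = x ^ 2 * (1 - x ^ 2 / 2 + x ^ 4 / 16) := by ring
    have e2 : 4 / q ^ 2 = 2 * (2 / q ^ 2) := by ring
    rw [e]
    refine mul_le_mul_of_nonneg_left ?_ (sq_nonneg x)
    have : 0 ≤ x ^ 4 := by positivity
    linarith
  rw [hk, mul_assoc]
  exact mul_le_mul_of_nonneg_left (h5.trans h4) (by unfold l2; norm_num)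

lemma ThmI_arith {η q ρ R e : ℝ} (h0 : 0 < η) (h1 : η ≤ 1) (hq : 100 ≤ η * q) (hR : 0 < R)
    (hρ : R⁻¹ ≤ ρ) (he0 : 0 ≤ e) (he : e * (q ^ 3 * R ^ 2) ≤ 1) :
    ((1 + η / 2) * kap / q + 4 / q ^ 2) * ρ ^ 2 ≤
      q * ((1 + η) * (l2 * ρ ^ 2 * sin (π / (2 * q)) ^ 2 - e / 4)) := by
  have hq0 : 0 < q := by
    by_contra hc
    push Not at hc
    nlinarith
  have hq1 : 100 ≤ q := by nlinarith
  have hs := ThmI_sin hq1
  have hρ1 : 1 ≤ R * ρ := by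
    have := mul_le_mul_of_nonneg_left hρ hR.le
    rwa [mul_inv_cancel₀ hR.ne'] at this
  have hρ2 : 1 ≤ R ^ 2 * ρ ^ 2 := by rw [← mul_pow]; exact one_le_pow₀ hρ1
  have he2 : e ≤ ρ ^ 2 / q ^ 3 := by
    rw [le_div_iff₀ (by positivity)]
    have a1 : e * q ^ 3 ≤ e * q ^ 3 * (R ^ 2 * ρ ^ 2) :=
      le_mul_of_one_le_right (by positivity) hρ2
    have a2 : e * (q ^ 3 * R ^ 2) * ρ ^ 2 ≤ 1 * ρ ^ 2 := by gcongr
    nlinarith only [a1, a2]
  have hk1 := kap_le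
  have hk2 := le_kap
  set t := q⁻¹ with ht
  have ht0 : 0 < t := inv_pos.2 hq0
  have hqt : q * t = 1 := mul_inv_cancel₀ hq0.ne'
  have ht1 : 100 * t ≤ η := by nlinarith only [h0, hqt, hq, ht0]
  have key : (1 + η / 2) * kap * t + 4 * t ^ 2 ≤
      (1 + η) * (kap * t * (1 - 2 * t ^ 2) - t ^ 2 / 4) := by
    have b1 : (1 + η / 2) * kap + 4 * t ≤ (1 + η) * (kap * (1 - 2 * t ^ 2) - t / 4) := by
      have c1 : t ^ 2 ≤ t := by nlinarith only [ht0, hq1, hqt]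
      have c2 : kap * t ^ 2 ≤ t := by nlinarith only [ht0, c1, hk1]
      have c3 : η * (kap * t ^ 2) ≤ t := by
        have : 0 ≤ kap * t ^ 2 := by positivity
        nlinarith only [h0, c2, h1, ht0]
      have c4 : η * t ≤ t := by nlinarith only [h1, ht0]
      have c5 : 3 / 4 * η ≤ η * kap := by nlinarith only [h0, hk2]
      nlinarith only [ht0, ht1, c2, c3, c4, c5]
    nlinarith only [b1, ht0, mul_le_mul_of_nonneg_left b1 ht0.le]
  have e1 : (1 + η / 2) * kap / q + 4 / q ^ 2 = (1 + η / 2) * kap * t + 4 * t ^ 2 := by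
    rw [ht]; field_simp
  have e2 : q * (ρ ^ 2 * (kap / q ^ 2 * (1 - 2 / q ^ 2)) - ρ ^ 2 / q ^ 3 / 4) =
      (kap * t * (1 - 2 * t ^ 2) - t ^ 2 / 4) * ρ ^ 2 := by
    rw [ht]; field_simp
  have d1 : ρ ^ 2 * (kap / q ^ 2 * (1 - 2 / q ^ 2)) - ρ ^ 2 / q ^ 3 / 4 ≤
      l2 * ρ ^ 2 * sin (π / (2 * q)) ^ 2 - e / 4 := by
    have := mul_le_mul_of_nonneg_left hs (sq_nonneg ρ)
    nlinarith only [he2, this]
  calc ((1 + η / 2) * kap / q + 4 / q ^ 2) * ρ ^ 2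
      ≤ (1 + η) * (kap * t * (1 - 2 * t ^ 2) - t ^ 2 / 4) * ρ ^ 2 := by
        rw [e1]; exact mul_le_mul_of_nonneg_right key (sq_nonneg ρ)
    _ = (1 + η) * (q * (ρ ^ 2 * (kap / q ^ 2 * (1 - 2 / q ^ 2)) - ρ ^ 2 / q ^ 3 / 4)) := by
        rw [e2]; ring
    _ ≤ (1 + η) * (q * (l2 * ρ ^ 2 * sin (π / (2 * q)) ^ 2 - e / 4)) := by gcongr
    _ = _ := by ring

theorem thmI_eps (N : ℕ) : ∃ (η : ℝ) (q1 : ℕ), 0 < η ∧ η ≤ 1 ∧ ∀ q : ℕ, q1 ≤ q → Even q →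
    ∀ y R : ℝ, 2 ≤ R →
      (∀ ε > 0, ∃ F : Pt (IR R) → EuclideanSpace ℝ (Fin N), Apx N q y R ε F) → ∀ ε > 0,
      ∃ K : Pt (IR R) → Pt (IR R) → ℝ, AdmL y (1 - (1 + η) * kap / q)
        (fun p p' => l2 * rep y p p' - cap (9 / q) (8 / q ^ 2) p p' - ε) K ∧
        ∀ p, K p p ≤ 4 * R ^ 2 + y ^ 2 * p.1.2.1 ^ 2 + p.1.2.2 ^ 2 := by
  obtain ⟨η0, q0, hη0, hsav⟩ := sav_gap N
  have hη1 : 0 < min η0 1 := lt_min hη0 one_pos
  have hη2 : min η0 1 ≤ 1 := min_le_right _ _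
  have hη3 : min η0 1 ≤ η0 := min_le_left _ _
  set η := min η0 1
  refine ⟨η / 2, max q0 ⌈100 / η⌉₊, by positivity, by linarith, ?_⟩
  intro q hq hev y R hR hA ε hε
  have hq0 : q0 ≤ q := (le_max_left _ _).trans hq
  have hq1 : 100 ≤ η * q := by
    have : 100 / η ≤ q := Nat.ceil_le.1 ((le_max_right _ _).trans hq)
    rwa [div_le_iff₀' hη1] at this
  have hq2 : 0 < q := by
    rcases Nat.eq_zero_or_pos q with h | h
    · rw [h] at hq1; norm_num at hq1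
    · exact h
  have hq3 : (0 : ℝ) < q := by exact_mod_cast hq2
  have hR0 : 0 < R := by linarith
  have he0 : 0 < min ε (1 / (q ^ 3 * R ^ 2)) := lt_min hε (by positivity)
  have he1 : min ε (1 / (q ^ 3 * R ^ 2)) ≤ ε := min_le_left _ _
  have he2 : min ε (1 / (q ^ 3 * R ^ 2)) * (q ^ 3 * R ^ 2) ≤ 1 := by
    rw [← le_div_iff₀ (by positivity)]
    exact min_le_right _ _
  set e := min ε (1 / ((q : ℝ) ^ 3 * R ^ 2))
  obtain ⟨m, G, φ, hG, hz, hbd, hφ, hGφ⟩ := smooth hq2 hev hR hA he0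
  obtain ⟨W, _, _, _, Λ, ev, hn, hex⟩ := exists_qrep N m
  choose h hh using fun a => hex (φ a) (hφ a)
  have hev' : ∀ a (x : S3) i, ev (Λ.lam x (h a)) i = (G (a, x) i : ℝ) := fun a x i => by
    rw [hh, hGφ]
  have hint : ∀ w, MeasureTheory.Integrable (fun x : S3 => ‖ev (Λ.lam x w)‖ ^ 2) haar := fun w =>
    integrable_of_cont ((ev.continuous.comp (Λ.continuous_lam w)).norm.pow 2)
  have hup : ∀ w c, (∀ z : S3, ‖ev (Λ.lam z w)‖ ^ 2 ≤ c) → ‖w‖ ^ 2 ≤ c := fun w c hc => by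
    rw [hn]
    refine (MeasureTheory.integral_mono (hint w) (MeasureTheory.integrable_const c) hc).trans ?_
    simp
  have hlo : ∀ w c, (∀ z : S3, c ≤ ‖ev (Λ.lam z w)‖ ^ 2) → c ≤ ‖w‖ ^ 2 := fun w c hc => by
    rw [hn]
    refine le_trans ?_ (MeasureTheory.integral_mono (MeasureTheory.integrable_const c) (hint w) hc)
    simp
  have key : ∀ a a' (x x' z : S3), ‖ev (Λ.lam z (Λ.lam x (h a) - Λ.lam x' (h a')))‖ ^ 2 =
      ‖G (a, x * z) - G (a', x' * z)‖ ^ 2 := fun a a' x x' z => by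
    rw [map_sub, map_sub, ← Λ.lam_mulS, ← Λ.lam_mulS]
    exact ThmI_norm (hev' _ _) (hev' _ _)
  have heq : ∀ a a' (x : S3), (∀ z, G (a, x * z) = G (a', z)) → Λ.lam x (h a) = h a' := by
    intro a a' x hx
    have := hup (Λ.lam x (h a) - Λ.lam (1 : S3) (h a')) 0 fun z => by
      rw [key, one_mul, hx]; simp
    rw [Λ.lam_oneS] at this
    rw [← sub_eq_zero, ← norm_eq_zero]
    exact pow_eq_zero_iff two_ne_zero |>.1 (le_antisymm this (sq_nonneg _))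
  have hf : Λ.Fam q h :=
    ⟨fun a => heq a a _ fun z => hz a z, fun a k => heq _ a _ fun z => by
      rw [← hG.ginv k (a, z)]
      simp only [gam]⟩
  obtain ⟨K, hK, hKd⟩ := Λ.repK (h := h) (y := y) (σ := (1 + η / 2) * kap / q + 4 / q ^ 2)
    (lam := l2) (ε := e) hq2 hev (fun a => (rho_pos hR0 a).le) hf
    (fun a a' x x' => hup _ _ fun z => by
      rw [key]
      refine (hG.up _ _).trans_eq ?_
      simp only [Metric.unitSphere.coe_mul]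
      rw [← smul_mul_assoc, ← smul_mul_assoc, ← sub_mul, norm_mul, S3.norm, mul_one])
    (fun a a' x x' hm => hlo _ _ fun z => by
      rw [key, ← rep_mul_right y a a' x x' z]
      exact hG.low1 _ _ (minimal_mul_right hm z))
    (fun a => by
      have h1 := hsav q hq0 W Λ ev hn (h a) (hf.zq a)
        (max 0 (l2 * rho a ^ 2 * sin (π / (2 * q)) ^ 2 - e / 4)) (le_max_left _ _) fun x => by
          rw [ThmI_norm (hev' _ _) (hev' _ _)]
          rcases le_total 0 (l2 * rho a ^ 2 * sin (π / (2 * q)) ^ 2 - e / 4) with h2 | h2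
          · rw [max_eq_right h2]
            linarith [hG.low2 a x]
          · rw [max_eq_left h2, mul_zero]
            positivity
      refine (ThmI_arith hη1 hη2 hq1 hR0 a.1.2.1 he0.le he2).trans ?_
      refine mul_le_mul_of_nonneg_left (le_trans ?_ h1) hq3.le
      exact (mul_le_mul_of_nonneg_left (le_max_right 0 _) (by linarith)).trans
        (mul_le_mul_of_nonneg_right (by linarith) (le_max_left _ _)))
  refine ⟨K, hK.mono (le_of_eq (by ring)) fun p p' _ => by linarith, fun p => ?_⟩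
  rw [hKd]
  refine hup _ _ fun z => ?_
  have := ThmI_norm (v := 0) (g := 0) (hev' p.1 z) (fun i => by simp)
  rw [sub_zero, sub_zero] at this
  rw [this]
  exact hbd (p.1, z)

theorem thmI (N : ℕ) : ∃ (η : ℝ) (q1 : ℕ), 0 < η ∧ η ≤ 1 ∧ ∀ q : ℕ, q1 ≤ q → Even q →
    ∀ y R : ℝ, 2 ≤ R →
      (∀ ε > 0, ∃ F : Pt (IR R) → EuclideanSpace ℝ (Fin N), Apx N q y R ε F) →
      ∃ K : Pt (IR R) → Pt (IR R) → ℝ, AdmL y (1 - (1 + η) * kap / q)
        (fun p p' => l2 * rep y p p' - cap (9 / q) (8 / q ^ 2) p p') K := by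
  obtain ⟨η, q1, h0, h1, H⟩ := thmI_eps N
  refine ⟨η, q1, h0, h1, fun q hq he y R hR hA => ?_⟩
  choose K hK hb using fun n : ℕ => H q hq he y R hR hA (1 / ((n : ℝ) + 1)) (by positivity)
  exact AdmL.ulim tendsto_one_div_add_atTop_nhds_zero_nat hK fun p => ⟨_, fun n => hb n p⟩

end Pool.Agent.Work.MP_0ba68b_gt.CX
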