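import Pool.Agent.Work.MP_0ba68b_gt.CX.E1
import Pool.Agent.Work.MP_0ba68b_gt.CX.ThmI

/-!
At a tuned ratio there are no good finite dimensional approximate embeddings.

PLAN.  `η, q1` from `thmI N`, `ϑN = η / 10⁵`, `qN = max q1 10⁴`.  By contradiction `thmI` gives `K₁`.  `K₂` from
`UpProp` applied to the kernel of level `l2` (budget `1 - kap/q + ϑ/10⁵`), `K₃` from `feas_E1`.  Mix with the weights
`1 - w₂ - w₃`, `w₂ = 300/q`, `w₃ = η kap/(28 q)` (`AdmL.mix` twice, the second time with `t = 1`: note `s + t ≤ 1` is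
required, so write the mixture as `(1 - w₃) (s K₁ + (1 - s) K₂) + w₃ K₃`, `s = 1 - 301/q`), then `AdmL.mono`.
Budget: `≤ 1 - kap/q - (9/10) η kap/q + 301 ϑ/(10⁵ q) + 7 w₃ ≤ 1 - kap/q`.
Level: close pairs: `cap ≤ (9/q) angP ≤ (301/q) (3/100) angP`; far pairs: `cap ≤ (8/q²) ρ ρ' ≤ (8 ϑ/q) rep`
(from `1 ≤ q ϑ t0²`, `t0² ρ ρ' ≤ rep`); the gain `w₃ (8/25 - l2) = η kap/(5600 q) ≥ 13 ϑ/q`.
-/

open Real

namespace Pool.Agent.Work.MP_0ba68b_gt.CX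

lemma NoApx_budget {η ϑ u k : ℝ} (hη : 0 < η) (hη1 : η ≤ 1) (hϑ : 0 < ϑ) (hϑ' : ϑ ≤ η / 10 ^ 5)
    (hu : 0 < u) (hu' : u ≤ 1 / 10 ^ 4) (hk : 3 / 4 ≤ k) (hk' : k ≤ 4 / 5) :
    (1 - η * k * u / 28) * ((1 - 301 * u) * (1 - (1 + η) * k * u) +
      301 * u * (1 - k * u + ϑ / 10 ^ 5)) + η * k * u / 28 * 7 ≤ 1 - k * u := by
  have h1 : 0 < k * u := by positivity
  have h2 : k * u ≤ 1 / 10 ^ 4 := by nlinarith
  have h3 : 0 < η * (k * u) := by positivity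
  have h4 : η * (k * u) ≤ k * u := by nlinarith only [hη1, h1]
  have h5 : 0 ≤ (1 - 301 * u) * (1 - (1 + η) * k * u) := by
    apply mul_nonneg
    · linarith
    · nlinarith only [hη1, hϑ, hϑ', h2, h4]
  have h6 : 0 ≤ 301 * u * (1 - k * u + ϑ / 10 ^ 5) := by
    apply mul_nonneg
    · linarith
    · linarith [div_pos hϑ (show (0 : ℝ) < 10 ^ 5 by norm_num)]
  have h7 : 0 ≤ η * k * u / 28 * ((1 - 301 * u) * (1 - (1 + η) * k * u) +
      301 * u * (1 - k * u + ϑ / 10 ^ 5)) := by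
    apply mul_nonneg
    · positivity
    · linarith
  have h8 : u * (η * (k * u)) ≤ 1 / 10 ^ 4 * (η * (k * u)) :=
    mul_le_mul_of_nonneg_right hu' h3.le
  have h9 : u * ϑ ≤ u * (η / 10 ^ 5) := mul_le_mul_of_nonneg_left hϑ' hu.le
  have h10 : η * u * (3 / 4) ≤ η * u * k := mul_le_mul_of_nonneg_left hk (by positivity)
  have h11 : 0 < η * u := by positivity
  nlinarith only [h3, h7, h8, h9, h10]

lemma NoApx_level {η ϑ u k : ℝ} (hη : 0 < η) (hϑ : 0 < ϑ) (hϑ' : ϑ ≤ η / 10 ^ 5)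
    (hu : 0 < u) (hk : 3 / 4 ≤ k) :
    63 / 200 + 2 * (ϑ * u) ≤
      (1 - η * k * u / 28) * (63 / 200 - 9 * (ϑ * u)) + η * k * u / 28 * (8 / 25) := by
  have hk0 : 0 < k := by linarith
  have h7 : 0 ≤ η * k * u / 28 * (9 * (ϑ * u)) := by positivity
  have h9 : u * ϑ ≤ u * (η / 10 ^ 5) := mul_le_mul_of_nonneg_left hϑ' hu.le
  have h10 : η * u * (3 / 4) ≤ η * u * k := mul_le_mul_of_nonneg_left hk (by positivity)
  have h11 : 0 < η * u := by positivity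
  nlinarith

lemma NoApx_low {ϑ u t r A P c : ℝ} (hϑ : 0 < ϑ) (hu : 0 < u) (hu' : u ≤ 1 / 10 ^ 4)
    (ht : u ≤ ϑ * t) (hr : 0 ≤ r) (hA : 0 ≤ A) (hP : 0 ≤ P) (hc1 : c ≤ 9 * u * A)
    (hc2 : c ≤ 8 * u ^ 2 * P) :
    (63 / 200 - 9 * (ϑ * u)) * r ≤ (1 - 301 * u) * (63 / 200 * r - c) +
      301 * u * ((63 / 200 - ϑ / 10 ^ 5) * r + if r ≤ t * P then 3 / 100 * A else 0) := by
  have hs : 0 ≤ 1 - 301 * u := by linarith
  have h0 : 0 ≤ ϑ * u * r := by positivity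
  split_ifs with h
  · have h1 : (1 - 301 * u) * c ≤ (1 - 301 * u) * (9 * u * A) := mul_le_mul_of_nonneg_left hc1 hs
    have h2 : 0 ≤ u * A := by positivity
    have h3 : 0 ≤ u * (u * A) := by positivity
    nlinarith only [h0, h1, h2, h3]
  · push Not at h
    have h1 : (1 - 301 * u) * c ≤ (1 - 301 * u) * (8 * u ^ 2 * P) :=
      mul_le_mul_of_nonneg_left hc2 hs
    have h2 : u * P ≤ ϑ * t * P := mul_le_mul_of_nonneg_right ht hP
    have h3 : ϑ * (t * P) ≤ ϑ * r := mul_le_mul_of_nonneg_left h.le hϑ.le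
    have h4 : u * P ≤ ϑ * r := by linarith
    have h5 : u * (u * P) ≤ u * (ϑ * r) := mul_le_mul_of_nonneg_left h4 hu.le
    have h6 : 0 ≤ u * (u * (u * P)) := by positivity
    nlinarith only [h0, h1, h5, h6]

theorem noApx (N : ℕ) : ∃ (ϑN : ℝ) (qN : ℕ), 0 < ϑN ∧ ∀ (ϑ t0 y R : ℝ) (q : ℕ), 0 < ϑ → ϑ ≤ ϑN →
    UpProp (ϑ / 10 ^ 5) t0 → qN ≤ q → Even q → 1 ≤ q * ϑ * t0 ^ 2 → 1 ≤ y → y ≤ 4 → 2 ≤ R →
    (¬ ∃ K : Pt (IR R) → Pt (IR R) → ℝ, Adm y (1 - kap / q) (l2 + 2 * (ϑ / q)) K) →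
    (∃ K : Pt (IR R) → Pt (IR R) → ℝ, Adm y (1 - kap / q) l2 K) →
    ∃ ε > 0, ¬ ∃ F : Pt (IR R) → EuclideanSpace ℝ (Fin N), Apx N q y R ε F := by
  obtain ⟨η, q1, hη, hη1, hI⟩ := thmI N
  refine ⟨η / 10 ^ 5, max q1 (10 ^ 4), by positivity, ?_⟩
  intro ϑ t0 y R q hϑ hϑ' hU hq hev ht hy hy' hR hno hyes
  by_contra hcon
  apply hno
  have hall : ∀ ε > 0, ∃ F : Pt (IR R) → EuclideanSpace ℝ (Fin N), Apx N q y R ε F := by
    intro ε hε
    by_contra h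
    exact hcon ⟨ε, hε, h⟩
  obtain ⟨K1, hK1⟩ := hI q ((le_max_left _ _).trans hq) hev y R hR hall
  obtain ⟨K0, hK0⟩ := hyes
  have hq4 : (10 : ℝ) ^ 4 ≤ q := by exact_mod_cast (le_max_right _ _).trans hq
  have hq0 : (0 : ℝ) < q := lt_of_lt_of_le (by norm_num) hq4
  obtain ⟨u, hu_def⟩ : ∃ u : ℝ, u = (q : ℝ)⁻¹ := ⟨_, rfl⟩
  have hu : 0 < u := by rw [hu_def]; positivity
  have hu' : u ≤ 1 / 10 ^ 4 := by
    rw [hu_def, one_div]; exact inv_anti₀ (by norm_num) hq4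
  have hdiv : ∀ x : ℝ, x / q = x * u := fun x => by rw [hu_def, div_eq_mul_inv]
  have hdiv2 : ∀ x : ℝ, x / (q : ℝ) ^ 2 = x * u ^ 2 := fun x => by
    rw [hu_def, div_eq_mul_inv, inv_pow]
  have hk := le_kap
  have hk' := kap_le
  have hku : 0 < kap * u := mul_pos kap_pos hu
  have hku' : kap * u ≤ 1 / 10 ^ 4 := by nlinarith only [hu', hη1, hϑ, hku, hϑ', hu, hk']
  have htu : u ≤ ϑ * t0 ^ 2 := by
    have h1 : u * 1 ≤ u * (q * ϑ * t0 ^ 2) := mul_le_mul_of_nonneg_left ht hu.le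
    have h2 : u * q = 1 := by rw [hu_def]; exact inv_mul_cancel₀ hq0.ne'
    calc u = u * 1 := (mul_one u).symm
      _ ≤ u * (q * ϑ * t0 ^ 2) := h1
      _ = u * q * (ϑ * t0 ^ 2) := by ring
      _ = ϑ * t0 ^ 2 := by rw [h2, one_mul]
  simp only [hdiv, hdiv2] at hK1 hK0 ⊢
  obtain ⟨K2, hK2⟩ := hU R hR y (1 - kap * u) l2 hy (by linarith only [hη1, hϑ, hϑ', hku']) (by linarith)
    (by unfold l2; norm_num) (by unfold l2; norm_num) K0 hK0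
  obtain ⟨K3, hK3⟩ := feas_E1 hy hy' R hR
  have hR0 : 0 < R := by linarith
  have hA : ∀ p p' : Pt (IR R), 0 ≤ angP p p' := fun p p' =>
    ang_nonneg (rho_pos hR0 _).le (rho_pos hR0 _).le _ _
  have hr : ∀ p p' : Pt (IR R), 0 ≤ rep y p p' := fun p p' =>
    add_nonneg (Dsq_nonneg _ _ _) (hA p p')
  have hM := (hK1.mix hK2 (s := 1 - 301 * u) (t := 301 * u) (by linarith) (by linarith)
    (by linarith)).mono (lo' := fun p p' => (63 / 200 - 9 * (ϑ * u)) * rep y p p') le_rfl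
    (fun p p' _ => NoApx_low hϑ hu hu' htu (hr p p') (hA p p')
      (mul_pos (rho_pos hR0 p.1) (rho_pos hR0 p'.1)).le (min_le_left _ _) (min_le_right _ _))
  have hw : 0 ≤ η * kap * u / 28 := by have := kap_pos; positivity
  have hw' : η * kap * u / 28 ≤ 1 := by nlinarith only [hη1, hϑ, hϑ', hη, hku']
  refine ⟨_, (hM.mix hK3 (s := 1 - η * kap * u / 28) (t := η * kap * u / 28) (by linarith) hw
    (by linarith)).mono (NoApx_budget hη hη1 hϑ hϑ' hu hu' hk hk') fun p p' _ => ?_⟩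
  have := mul_le_mul_of_nonneg_right (NoApx_level hη hϑ hϑ' hu hk) (hr p p')
  unfold l2
  linarith

end Pool.Agent.Work.MP_0ba68b_gt.CX
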