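import Pool.Agent.Work.MP_0ba68b_gt.CX.SmpD

/-!
The local upper bound for one sample, in coordinates.

PLAN.  `Δ = ξ - ξ'`, `S = Q √(r r') (comb Δ) ≥ (1 - η/100) (τa² Δ₁² + τb² Δ₂² + Q √(r r') c Δ₃²)` (`valid`, `conn`).
`τb² rep y pt pt' = Δρ² + angH + τa² Δ₁² + τb² Δ₂² ≤ fd2 + 2 S` (`angH_mpt` with `m = 0`, `a = 0`; `vert_nonneg`).
If `‖x‖/τb < R⁻¹` use `mo.upB`, `fo.up0`; otherwise `mo.upA`, `fo.upk` (`plat`) and `cost`; both with `ε/4`.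
`(1 + η/100) nth ≤ 21/20 nth` (`nth_nonneg`), `3 (2 - 2Θ) ≤ 60 (Δ₁² + Δ₂²) ≤ (3η/100) (τa² Δ₁² + τb² Δ₂²)`.
Third coordinate: `sqrt_Q_lip`, `angc`; `2 - 2 cos (2π Δ₃) ≤ 4π² Δ₃²`; if `0 < r` take `δ ≤ (r/100)²`, then
`√Q r c √Q r' c ≤ 1.03 Q √(r r') c` (`Q_mono`); if `r = 0` and `pv c = 0` then `Q r c = 0`.  `(9/400) 4π² 1.03 ≤ 0.92`.
-/

open scoped Quaternion
open Real

namespace Pool.Agent.Work.MP_0ba68b_gt.CX

variable {P : Par} {ρm η μ ω cc : ℕ → ℝ} {j : ℕ} {R bm : ℝ} {Wn : ℝ → Prop} {g : ℝ → ℝ}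
  {a b c : Z3} {τa τb : ℝ} {Kc Ko : FP → FP → ℝ} {W : ℝ → ℝ} {K : Pt I0 → Pt I0 → ℝ}

lemma SmpUp_cos (t : ℝ) : 2 - 2 * cos t ≤ t ^ 2 := by
  have := Real.one_sub_sq_div_two_le_cos (x := t)
  linarith

lemma SmpUp_pi : π ^ 2 ≤ 987 / 100 := by
  nlinarith [pi_lt_d4, pi_pos]

lemma SmpUp_theta {e A B d1 d2 : ℝ} (he : 0 < e) (hB : 2000 ≤ e * B) (hAB : B ≤ A) :
    3 * (2 - 2 * cos (π * (d1 + d2))) ≤ 3 / 100 * e * (A * d1 ^ 2 + B * d2 ^ 2) := by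
  have h1 := SmpUp_cos (π * (d1 + d2))
  have h2 : (d1 + d2) ^ 2 ≤ 2 * (d1 ^ 2 + d2 ^ 2) := by nlinarith only [sq_nonneg (d1 - d2)]
  have h3 : (π * (d1 + d2)) ^ 2 ≤ 10 * (2 * (d1 ^ 2 + d2 ^ 2)) := by
    rw [mul_pow]
    exact mul_le_mul (SmpUp_pi.trans (by norm_num)) h2 (sq_nonneg _) (by norm_num)
  have hA : 2000 ≤ e * A := hB.trans (mul_le_mul_of_nonneg_left hAB he.le)
  have h4 := mul_le_mul_of_nonneg_right hA (sq_nonneg d1)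
  have h5 := mul_le_mul_of_nonneg_right hB (sq_nonneg d2)
  nlinarith only [h1, h3, h4, h5]

lemma SmpUp_third (P : Par) (u : R3) {r : ℝ} (hr : 0 ≤ r) (h0 : r ≠ 0 ∨ P.pv u = 0) :
    ∃ δ > 0, ∀ r', 0 ≤ r' → (r - r') ^ 2 < δ →
      √(P.Q r u) * √(P.Q r' u) ≤ 103 / 100 * P.Q √(r * r') u := by
  rcases hr.eq_or_lt with h | h
  · refine ⟨1, one_pos, fun r' _ _ => ?_⟩
    have hp : P.pv u = 0 := h0.resolve_left fun h' => h' h.symm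
    have : P.Q r u = 0 := by rw [← h]; simp [Par.Q, hp]
    rw [this, sqrt_zero, zero_mul]
    exact mul_nonneg (by norm_num) (P.Q_nonneg _ _)
  · refine ⟨(r / 100) ^ 2, by positivity, fun r' hr' hd => ?_⟩
    have ha := abs_lt_of_sq_lt_sq' hd (by positivity)
    have hs : √(r * r') ^ 2 = r * r' := sq_sqrt (mul_nonneg hr hr')
    have hs0 := sqrt_nonneg (r * r')
    have h1 : r ≤ 101 / 100 * √(r * r') := by
      refine (abs_le_of_sq_le_sq' ?_ (by positivity)).2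
      rw [mul_pow, hs]
      nlinarith [ha.1, ha.2]
    have h2 : r' ≤ 101 / 100 * √(r * r') := by
      refine (abs_le_of_sq_le_sq' ?_ (by positivity)).2
      rw [mul_pow, hs]
      nlinarith [ha.1, ha.2]
    have q1 := P.Q_mono u hr h1 (by norm_num)
    have q2 := P.Q_mono u hr' h2 (by norm_num)
    have q0 := P.Q_nonneg √(r * r') u
    have e1 := sq_sqrt (P.Q_nonneg r u)
    have e2 := sq_sqrt (P.Q_nonneg r' u)
    nlinarith only [q1, q2, q0, e1, e2, sq_nonneg (√(P.Q r u) - √(P.Q r' u))]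

lemma SmpUp_clk {e E p C d x : ℝ} (he0 : 0 < e) (he : e ≤ 1 / 1000) (hE : E ≤ 1 / 10000 * x)
    (hx : 0 ≤ x) (hp0 : 0 ≤ p) (hp : p ≤ 103 / 100 * C) :
    (1 + e / 100) * (9 / 400 * (E + p * (2 - 2 * cos (2 * π * d)))) ≤
      1 / 100 * x + 92 / 100 * (C * d ^ 2) := by
  have h1 := SmpUp_cos (2 * π * d)
  have h2 : (2 * π * d) ^ 2 ≤ 4 * (987 / 100) * d ^ 2 := by
    have := mul_le_mul_of_nonneg_right SmpUp_pi (sq_nonneg d)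
    nlinarith only [this]
  have h3 : p * (2 - 2 * cos (2 * π * d)) ≤ 103 / 100 * C * (4 * (987 / 100) * d ^ 2) :=
    (mul_le_mul_of_nonneg_left (h1.trans h2) hp0).trans
      (mul_le_mul_of_nonneg_right hp (by positivity))
  have hC : 0 ≤ C * d ^ 2 := mul_nonneg (by linarith only [hp0, hp]) (sq_nonneg d)
  have h4 : 9 / 400 * (E + p * (2 - 2 * cos (2 * π * d))) ≤
      1 / 1000 * x + 915 / 1000 * (C * d ^ 2) := by nlinarith only [hE, hx, h3, hC]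
  have h5 : (1 + e / 100) * (1 / 1000 * x + 915 / 1000 * (C * d ^ 2)) ≤
      (1 + 1 / 100000) * (1 / 1000 * x + 915 / 1000 * (C * d ^ 2)) :=
    mul_le_mul_of_nonneg_right (by linarith only [he]) (by positivity)
  have h6 := mul_le_mul_of_nonneg_left h4 (show 0 ≤ 1 + e / 100 by linarith only [he0, he])
  linarith

lemma SmpUp_fin {e ε S G Z : ℝ} (he0 : 0 < e) (he : e ≤ 1 / 1000) (hε : 0 < ε) (hG : 0 ≤ G)
    (hZ : 0 ≤ Z) (hS : (1 - e / 100) * (G + Z) ≤ S) :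
    G ≤ 2 * S ∧ 0 ≤ S ∧ (1 - e / 4) * G + 3 / 100 * e * G + ε / 4 * G + 92 / 100 * Z ≤
      (1 - e / 10 + ε) * S := by
  have h1 : 1 / 2 * (G + Z) ≤ (1 - e / 100) * (G + Z) :=
    mul_le_mul_of_nonneg_right (by linarith) (by linarith)
  have h2 : G ≤ 2 * S := by linarith
  have h3 : 0 ≤ S := by linarith
  refine ⟨h2, h3, ?_⟩
  have h4 := mul_le_mul_of_nonneg_left hS (show 0 ≤ 1 - e / 10 by linarith)
  have h5 : ε / 4 * G ≤ ε * S := by nlinarith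
  have h6 : (1 - 11 / 100 * e) * (G + Z) ≤ (1 - e / 10) * ((1 - e / 100) * (G + Z)) := by
    rw [← mul_assoc]
    exact mul_le_mul_of_nonneg_right (by nlinarith only [he0]) (by linarith)
  have h7 := mul_nonneg he0.le hG
  have h8 := mul_le_mul_of_nonneg_right he hZ
  nlinarith

lemma SmpUp_rad (hτ : 0 < τb) (ξ ξ' : R3) (x x' : ℍ[ℝ]) :
    τb ^ 2 * (rho (mpt τb ξ x).1 - rho (mpt τb ξ' x').1) ^ 2 = (‖x‖ - ‖x'‖) ^ 2 := by
  rw [rho_mpt hτ, rho_mpt hτ]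
  field_simp

lemma SmpUp_sg (hτ : 0 < τb) (ξ ξ' : R3) (x x' : ℍ[ℝ]) :
    τb ^ 2 * sg (τa / τb) (mpt τb ξ x).1 (mpt τb ξ' x').1 =
      τa ^ 2 * (ξ.1 - ξ'.1) ^ 2 + τb ^ 2 * (ξ.2.1 - ξ'.2.1) ^ 2 := by
  simp only [sg, mpt]
  field_simp

lemma SmpUp_ang (hτ : 0 < τb) (ξ ξ' : R3) (x : ℍ[ℝ]) (p' : FP) :
    τb ^ 2 * angP (mpt τb ξ x) (mpt τb ξ' p'.1) = angH x p'.1 := by
  have h := angH_mpt hτ ξ ξ' x p' 0 (a := 0) (by simp)
  rw [gam_zero] at h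
  rw [← h]
  simp [fJ]

/-- The model part and the fibre part together. -/
lemma SD.SmpUp_two (h : SD P ρm η μ ω cc j R bm Wn g a b c τa τb Kc Ko W K) (ξ : R3) (p : FP)
    {ε : ℝ} (hε : 0 < ε) : ∃ δ > 0, ∀ (ξ' : R3) (p' : FP) (Θ G : ℝ), |Θ| ≤ 1 →
      G = τa ^ 2 * (ξ.1 - ξ'.1) ^ 2 + τb ^ 2 * (ξ.2.1 - ξ'.2.1) ^ 2 → fd2 p p' + G < δ →
      nd Kc p p' + 21 / 20 * nth Ko Θ p p' +
        1001 / 1000 * (W (‖p.1‖ / τb) ^ 2 * (τb ^ 2 * nd k0 (mpt τb ξ p.1) (mpt τb ξ' p'.1))) +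
        (1 + η j / 100) * (τb ^ 2 * nd K (mpt τb ξ p.1) (mpt τb ξ' p'.1)) +
        η j / 100 * (‖p.1‖ - ‖p'.1‖) ^ 2 ≤
      (1 + 2 * ε) * fd2 p p' + (1 - η j / 4) * G + ε * G + 3 * (2 - 2 * Θ) := by
  have hτ := h.smp.pos
  have hτ2 : 0 < τb ^ 2 := by positivity
  have he0 := h.η_pos
  have he := h.η_le
  have key : ∀ (ξ' : R3) (p' : FP) (G δ1 δ2 : ℝ),
      G = τa ^ 2 * (ξ.1 - ξ'.1) ^ 2 + τb ^ 2 * (ξ.2.1 - ξ'.2.1) ^ 2 →
      fd2 p p' + G < min (τb ^ 2 * δ1) δ2 →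
      rep (τa / τb) (mpt τb ξ p.1) (mpt τb ξ' p'.1) < δ1 ∧ fd2 p p' < δ2 ∧
      τb ^ 2 * rep (τa / τb) (mpt τb ξ p.1) (mpt τb ξ' p'.1) ≤ fd2 p p' + G := by
    intro ξ' p' G δ1 δ2 hG hd
    have e1 := SmpUp_rad hτ ξ ξ' p.1 p'.1
    have e2 := SmpUp_sg (τa := τa) hτ ξ ξ' p.1 p'.1
    have e3 := SmpUp_ang hτ ξ ξ' p.1 p'
    have hv := vert_nonneg p p'
    have hG0 : 0 ≤ G := by rw [hG]; positivity
    have h3 : τb ^ 2 * rep (τa / τb) (mpt τb ξ p.1) (mpt τb ξ' p'.1) ≤ fd2 p p' + G := by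
      unfold vert at hv
      unfold rep Dsq
      rw [mul_add, mul_add, e1, e2, e3, ← hG]
      linarith
    refine ⟨lt_of_mul_lt_mul_left (h3.trans_lt (hd.trans_le (min_le_left _ _))) hτ2.le, ?_, h3⟩
    have := hd.trans_le (min_le_right _ _)
    linarith
  by_cases hc : rho (mpt τb ξ p.1).1 < R⁻¹
  · obtain ⟨δ1, h1, H1⟩ := h.mo.upB (mpt τb ξ p.1) hc ε hε
    obtain ⟨δ2, h2, H2⟩ := h.fo.up0 p ε hε
    refine ⟨min (τb ^ 2 * δ1) δ2, lt_min (mul_pos hτ2 h1) h2, fun ξ' p' Θ G hΘ hG hd => ?_⟩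
    obtain ⟨k1, k2, k3⟩ := key ξ' p' G δ1 δ2 hG hd
    have m1 := mul_le_mul_of_nonneg_left (H1 _ k1) hτ2.le
    have m2 := H2 p' k2 Θ hΘ
    have e1 := SmpUp_rad hτ ξ ξ' p.1 p'.1
    have e2 := SmpUp_sg (τa := τa) hτ ξ ξ' p.1 p'.1
    have e3 := SmpUp_ang hτ ξ ξ' p.1 p'
    rw [← hG] at e2
    have hv := vert_nonneg p p'
    have ha := angH_nonneg p.1 p'.1
    have hD := sq_nonneg (‖p.1‖ - ‖p'.1‖)
    have k4 := mul_le_mul_of_nonneg_left k3 hε.le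
    have k5 := mul_le_mul_of_nonneg_right he hD
    have m3 : 1001 / 1000 * (W (‖p.1‖ / τb) ^ 2 *
          (τb ^ 2 * nd k0 (mpt τb ξ p.1) (mpt τb ξ' p'.1))) +
        (1 + η j / 100) * (τb ^ 2 * nd K (mpt τb ξ p.1) (mpt τb ξ' p'.1)) ≤
        (1 - η j / 4) * G + 99 / 100 * ((‖p.1‖ - ‖p'.1‖) ^ 2 + angH p.1 p'.1) +
          ε * (τb ^ 2 * rep (τa / τb) (mpt τb ξ p.1) (mpt τb ξ' p'.1)) := by
      rw [← e1, ← e2, ← e3, ← rho_mpt hτ ξ p.1]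
      linarith
    unfold vert at hv m2
    linarith
  · have hR : (0 : ℝ) < R := by linarith [h.R_ge]
    have hρ : ρm j ≤ ‖p.1‖ := by
      rw [rho_mpt hτ, not_lt, le_div_iff₀ hτ, inv_mul_le_iff₀ hR] at hc
      have := h.smp.plat.trans hc
      rw [mul_comm R] at this
      exact le_of_mul_le_mul_right this hR
    obtain ⟨δ1, h1, H1⟩ := h.mo.upA (mpt τb ξ p.1) ε hε
    obtain ⟨δ2, h2, H2⟩ := h.fo.upk j p hρ ε hε
    refine ⟨min (τb ^ 2 * δ1) δ2, lt_min (mul_pos hτ2 h1) h2, fun ξ' p' Θ G hΘ hG hd => ?_⟩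
    obtain ⟨k1, k2, k3⟩ := key ξ' p' G δ1 δ2 hG hd
    have m1 := mul_le_mul_of_nonneg_left (H1 _ k1) hτ2.le
    have m2 := H2 p' k2 Θ hΘ
    have e1 := SmpUp_rad hτ ξ ξ' p.1 p'.1
    have e2 := SmpUp_sg (τa := τa) hτ ξ ξ' p.1 p'.1
    have e3 := SmpUp_ang hτ ξ ξ' p.1 p'
    rw [← hG] at e2
    have hv := vert_nonneg p p'
    have ha := angH_nonneg p.1 p'.1
    have hD := sq_nonneg (‖p.1‖ - ‖p'.1‖)
    have k4 := mul_le_mul_of_nonneg_left k3 hε.le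
    have k5 := mul_nonneg he0.le hD
    have k6 := mul_le_mul_of_nonneg_right h.cost ha
    have m3 : 1001 / 1000 * (W (‖p.1‖ / τb) ^ 2 *
          (τb ^ 2 * nd k0 (mpt τb ξ p.1) (mpt τb ξ' p'.1))) +
        (1 + η j / 100) * (τb ^ 2 * nd K (mpt τb ξ p.1) (mpt τb ξ' p'.1)) ≤
        (1 - η j / 4) * ((‖p.1‖ - ‖p'.1‖) ^ 2 + G + bm * angH p.1 p'.1) +
          ε * (τb ^ 2 * rep (τa / τb) (mpt τb ξ p.1) (mpt τb ξ' p'.1)) := by
      unfold Dsq at m1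
      rw [← e1, ← e2, ← e3, ← rho_mpt hτ ξ p.1]
      linarith only [m1]
    unfold vert at hv m2
    linarith

theorem SD.core_up (h : SD P ρm η μ ω cc j R bm Wn g a b c τa τb Kc Ko W K) (ξ : R3) (p : FP)
    {r : ℝ} (hr : Wn r) (h0 : r ≠ 0 ∨ P.pv (cz c) = 0) {ε : ℝ} (hε : 0 < ε) : ∃ δ > 0,
    ∀ (ξ' : R3) (p' : FP) (r' : ℝ), Wn r' →
      fd2 p p' + (r - r') ^ 2 + P.Q √(r * r') (comb a b c (ξ - ξ')) < δ →
      nd Kc p p' +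
          1001 / 1000 * (W (‖p.1‖ / τb) ^ 2 * (τb ^ 2 * nd k0 (mpt τb ξ p.1) (mpt τb ξ' p'.1))) +
          (1 + η j / 100) * nd (kx P τb c K Ko) (ξ, p, r) (ξ', p', r') +
          η j / 100 * (‖p.1‖ - ‖p'.1‖) ^ 2 ≤
        (1 + ε) * fd2 p p' + (1 - η j / 10 + ε) * P.Q √(r * r') (comb a b c (ξ - ξ')) +
          1 / 100 * (r - r') ^ 2 := by
  have hτ := h.smp.pos
  have he0 := h.η_pos
  have he := h.η_le
  have hr0 := h.smp.nonneg r hr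
  obtain ⟨δ1, h1, H1⟩ := h.SmpUp_two ξ p (ε := ε / 4) (by positivity)
  obtain ⟨δ2, h2, H2⟩ := SmpUp_third P (cz c) hr0 h0
  refine ⟨min (δ1 / 2) δ2, lt_min (by positivity) h2, fun ξ' p' r' hr' hd => ?_⟩
  have hr0' := h.smp.nonneg r' hr'
  have hW : Wn √(r * r') := by
    rcases le_total r r' with hle | hle
    · refine h.smp.conn r r' _ hr hr' (le_sqrt_of_sq_le (by nlinarith only [he0, he, hr0, hle])) ?_
      exact sqrt_le_iff.2 ⟨hr0', by nlinarith only [he0, he, hr0, hle]⟩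
    · refine h.smp.conn r' r _ hr' hr (le_sqrt_of_sq_le (by nlinarith only [he0, he, hr0', hle])) ?_
      exact sqrt_le_iff.2 ⟨hr0, by nlinarith only [he0, he, hr0, hle]⟩
  have hv := (h.smp.valid _ hW (ξ - ξ')).1
  simp only [Prod.fst_sub, Prod.snd_sub] at hv
  have hC := P.Q_nonneg √(r * r') (cz c)
  obtain ⟨f1, f2, f3⟩ := SmpUp_fin he0 he hε (by positivity) (by positivity) hv
  have hF : 0 ≤ fd2 p p' := by unfold fd2; positivity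
  have hx := sq_nonneg (r - r')
  have d1 := hd.trans_le (min_le_left _ _)
  have d2 := hd.trans_le (min_le_right _ _)
  have hΘ := abs_cos_le_one (π * ((ξ.1 + ξ.2.1) - (ξ'.1 + ξ'.2.1)))
  have g1 := H1 ξ' p' _ _ hΘ rfl (by linarith only [f1, hF, hx, d1])
  have g2 := H2 r' hr0' (by linarith only [f2, hF, d2])
  have hE : (√(P.Q r (cz c)) - √(P.Q r' (cz c))) ^ 2 ≤ 1 / 10000 * (r - r') ^ 2 := by
    have l1 := (P.sqrt_Q_lip (cz c) r r').trans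
      (mul_le_mul_of_nonneg_right h.smp.angc (abs_nonneg _))
    have l2 := pow_le_pow_left₀ (abs_nonneg _) l1 2
    rw [sq_abs, mul_pow, sq_abs] at l2
    linarith only [l2]
  have g3 := SmpUp_clk (d := ξ.2.2 - ξ'.2.2) he0 he hE hx (by positivity) g2
  have g4 := SmpUp_theta (A := τa ^ 2) (d1 := ξ.1 - ξ'.1) (d2 := ξ.2.1 - ξ'.2.1) he0 h.smp.big
    (pow_le_pow_left₀ hτ.le h.smp.ge 2)
  rw [show ξ.1 - ξ'.1 + (ξ.2.1 - ξ'.2.1) = (ξ.1 + ξ.2.1) - (ξ'.1 + ξ'.2.1) by ring] at g4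
  have g5 := nth_nonneg h.fo.psdo hΘ p p'
  have g6 := mul_le_mul_of_nonneg_right (show 1 + η j / 100 ≤ 21 / 20 by linarith only [he0, he]) g5
  have g7 := mul_nonneg hε.le hF
  rw [nd_kx]
  simp only
  linarith

end Pool.Agent.Work.MP_0ba68b_gt.CX
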