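import Pool.Agent.Work.MP_0ba68b_gt.CX.SmpLow
import Pool.Agent.Work.MP_0ba68b_gt.CX.SmpUp

/-!
The output of one sample.

PLAN.  `crd` from `exists_coord`, `U X = (crd (eta (arg (vw X)) (vs X)), fp X, ‖vw X‖)`, `ks X X' = kx (U X) (U X')`, weight `r ↦ W (r/τb)`
(`τb ≥ 1` from `big`).  `inv`: `eta_act`, `exists_lv`, `comb_cz`, `even_lv`, `kx_shift`, `fp_act`; if `vw X' = 0` and the basis is standard then
`crd η = (η₂, η₃, η₁)`, `Q 0 c = 0`, `kx_third`.  `diag`, `Wtop`: `size`, `mo.diag`, `fo.diag`.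
`low`: `core_low`, `D2_le_Q` with `v = lv n`, `r = √(‖w‖ ‖w'‖)`, `comb (ξ - ξ' - cz n) = eta - eta' - cz v`, `nd_kV`.
`up`: if `vw X ≠ 0`: `l = round ((arg w - arg w')/(2π))`, `ψ = arg w - arg w' - 2π l ∈ [-π, π]`, `v = (m0 l, 0, 0) = lv n`,
`ξ'' = ξ' + cz n` gives the same kernel values (`kx_shift` in both variables, `a = 0`); `S = r r' ψ² + ‖Δs‖²`,
`dist² = fd2 + Δr² + 2 r r' (1 - cos ψ) + ‖Δs‖²` (`dist_act_sq`, `act_zero`), `ψ² ≤ (π²/2) (1 - cos ψ)` (`Real.cos_le_one_sub_mul_cos_sq`-type: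
`cos_le_one_sub_mul_sq`, i.e. `cos x ≤ 1 - 2/π² x²`), so `S ≤ 3 dist²` and `ψ² ≤ η` near `X`; then `(1 - η/10) ψ² ≤ 2 (1 - cos ψ)`.
If `vw X = 0`: `S = ‖Δs‖²`.
-/

open scoped Quaternion
open Real

namespace Pool.Agent.Work.MP_0ba68b_gt.CX

variable {P : Par} {ρm η μ ω cc : ℕ → ℝ} {j : ℕ} {R bm : ℝ} {Wn : ℝ → Prop} {g : ℝ → ℝ}
  {a b c : Z3} {τa τb : ℝ} {Kc Ko : FP → FP → ℝ} {W : ℝ → ℝ} {K : Pt I0 → Pt I0 → ℝ}

lemma SmpA_fib_zero (q0 : ℕ) (θ : ℝ) (p : FP) : fib q0 θ 0 0 (fJ 0 p) = p := by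
  simp [fib, fJ, al, ec_zero]

lemma SmpA_norm_vw (P : Par) (k n : ℤ) (v : Z3) (X : VV) : ‖vw (P.act k n v X)‖ = ‖vw X‖ := by
  simp only [Par.act, vw_mk, norm_mul, Complex.norm_exp_ofReal_mul_I, one_mul]

lemma SmpA_one_le (h : SD P ρm η μ ω cc j R bm Wn g a b c τa τb Kc Ko W K) : 1 ≤ τb := by
  have h1 := h.smp.big
  have h2 := h.η_le
  have h3 := h.smp.pos
  by_contra hc
  push Not at hc
  have h4 : τb ^ 2 ≤ 1 := by nlinarith
  have h5 : η j * τb ^ 2 ≤ 1 / 1000 * 1 :=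
    mul_le_mul h2 h4 (sq_nonneg _) (by norm_num)
  linarith

lemma SmpA_crd_std {crd : R3 →ₗ[ℝ] R3}
    (hc : ∀ ξ, crd (comb (0, 1, 0) (0, 0, 1) (1, 0, 0) ξ) = ξ) (e : R3) :
    crd e = (e.2.1, e.2.2, e.1) := by
  have : comb (0, 1, 0) (0, 0, 1) (1, 0, 0) (e.2.1, e.2.2, e.1) = e := by
    ext <;> simp [comb, cz]
  rw [← hc (e.2.1, e.2.2, e.1), this]

lemma SmpA_exists_angle (θ : ℝ) : ∃ l : ℤ, |θ - 2 * π * l| ≤ π := by
  refine ⟨round (θ / (2 * π)), ?_⟩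
  have h := abs_sub_round (θ / (2 * π))
  have hp : 0 < 2 * π := by positivity
  have e : θ - 2 * π * round (θ / (2 * π)) = (2 * π) * (θ / (2 * π) - round (θ / (2 * π))) := by
    field_simp
  rw [e, abs_mul, abs_of_pos hp]
  nlinarith

lemma SmpA_sq_le {ψ : ℝ} (h : |ψ| ≤ π) : ψ ^ 2 ≤ 5 * (1 - cos ψ) := by
  have h1 := Real.cos_le_one_sub_mul_cos_sq h
  have hp : 0 < π ^ 2 := by positivity
  have h2 : π ^ 2 ≤ 10 := by nlinarith only [pi_lt_d2, pi_pos]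
  have h3 : 2 / 10 ≤ 2 / π ^ 2 := div_le_div_of_nonneg_left (by norm_num) hp h2
  nlinarith [sq_nonneg ψ]

lemma SmpA_sq_le_local {ψ e : ℝ} (he : e ≤ 1) (h : ψ ^ 2 ≤ e / 2) :
    (1 - e / 10) * ψ ^ 2 ≤ 2 * (1 - cos ψ) := by
  have h0 : |ψ| ≤ 1 := by
    rw [← sq_le_one_iff_abs_le_one]
    linarith
  have h1 := (abs_le.1 (Real.cos_bound h0)).2
  have h2 : |ψ| ^ 4 = ψ ^ 2 * ψ ^ 2 := by
    rw [show |ψ| ^ 4 = (|ψ| ^ 2) ^ 2 by ring, sq_abs]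
    ring
  rw [h2] at h1
  have h3 : ψ ^ 2 * ψ ^ 2 ≤ ψ ^ 2 * (e / 2) := mul_le_mul_of_nonneg_left h (sq_nonneg _)
  have h4 : 0 ≤ ψ ^ 2 * e := by nlinarith only [h3, sq_nonneg ψ, sq_nonneg (ψ ^ 2)]
  nlinarith

lemma SmpA_dist_sq (X X' : VV) (l : ℤ) : dist X X' ^ 2 =
    fd2 (fp X) (fp X') + (‖vw X‖ - ‖vw X'‖) ^ 2 + 2 * ‖vw X‖ * ‖vw X'‖ *
      (1 - cos (Complex.arg (vw X) - Complex.arg (vw X') - 2 * π * l)) + ‖vs X - vs X'‖ ^ 2 := by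
  have h := norm_sub_exp (vw X) (vw X') 0
  simp only [Complex.ofReal_zero, zero_mul, Complex.exp_zero, one_mul, sub_zero] at h
  have e : cos (Complex.arg (vw X) - Complex.arg (vw X') - 2 * π * l) =
      cos (Complex.arg (vw X) - Complex.arg (vw X')) := by
    rw [mul_comm (2 * π) (l : ℝ)]
    exact Real.cos_sub_int_mul_two_pi _ _
  rw [dist_sq, h, e]
  simp only [fd2, fp]
  ring

lemma SmpA_fd2_nonneg (p p' : FP) : 0 ≤ fd2 p p' := by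
  unfold fd2
  positivity

lemma SmpA_inv (h : SD P ρm η μ ω cc j R bm Wn g a b c τa τb Kc Ko W K) {z : Prop}
    (hz : z → a = (0, 1, 0) ∧ b = (0, 0, 1) ∧ c = (1, 0, 0)) {crd : R3 →ₗ[ℝ] R3}
    (hc2 : ∀ ξ, crd (comb a b c ξ) = ξ) (k n : ℤ) (v : Z3) (u : CP) (X' : VV)
    (hX : vw X' ≠ 0 ∨ z) :
    kx P τb c K Ko u (crd (P.eta (Complex.arg (vw (P.act k n v X'))) (vs (P.act k n v X'))),
        fp (P.act k n v X'), ‖vw (P.act k n v X')‖) =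
      kx P τb c K Ko u (crd (P.eta (Complex.arg (vw X')) (vs X')), fp X', ‖vw X'‖) := by
  rw [SmpA_norm_vw, fp_act]
  by_cases hw : vw X' = 0
  · obtain ⟨rfl, rfl, rfl⟩ := hz (hX.resolve_left (not_not.2 hw))
    have hev : Even ((v.2.1, v.2.2, (0 : ℤ)).1 + (v.2.1, v.2.2, (0 : ℤ)).2.1 - par v) := by
      simp [par]
    rw [← kx_shift h.mo.toWeakK h.fo.fibo h.fo.Jo u (crd (P.eta (Complex.arg (vw X')) (vs X')))
      (fp X') ‖vw X'‖ (v.2.1, v.2.2, 0) hev k n]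
    have h1 := h.good.τ1_pos.ne'
    have h2 := h.good.τ2_pos.ne'
    apply kx_third
    · rw [hw, Par.Q, P.pv_first]
      simp
    · rw [SmpA_crd_std hc2, SmpA_crd_std hc2]
      simp only [Par.eta, Par.act, vs_mk, Complex.add_re, Par.pv, cz, Prod.fst_add]
      field_simp
    · rw [SmpA_crd_std hc2, SmpA_crd_std hc2]
      simp only [Par.eta, Par.act, vs_mk, Complex.add_im, Par.pv, cz, Prod.fst_add, Prod.snd_add]
      field_simp
  · obtain ⟨l, hl⟩ := h.good.eta_act k n v hw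
    obtain ⟨n', hn'⟩ := h.smp.bas.exists_lv (v + (P.m0 * l, 0, 0))
    have hev := h.smp.bas.even_lv n'
    have hp : par (lv a b c n') = par v := by
      rw [← hn', par_add]
      simp [par]
    rw [hp] at hev
    rw [hl, hn', map_add, ← comb_cz, hc2]
    exact kx_shift h.mo.toWeakK h.fo.fibo h.fo.Jo u _ _ _ n' hev k n

lemma SmpA_diag (h : SD P ρm η μ ω cc j R bm Wn g a b c τa τb Kc Ko W K) (u : CP) {r : ℝ}
    (hu : Wn u.2.2) (hr : Wn r) : 10 ^ 6 * kx P τb c K Ko u u ≤ η j * g r ^ 2 := by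
  have h1 := h.smp.size r u.2.2 hr hu
  have h2 := h.mo.diag (mpt τb u.1 u.2.1.1)
  have h3 := h.fo.diag u.2.1
  have hτ := h.smp.pos
  have hτa : 0 < τa := hτ.trans_le h.smp.ge
  have hR : 0 < R := by linarith [h.R_ge]
  have h4 : τb ^ 2 * K (mpt τb u.1 u.2.1.1) (mpt τb u.1 u.2.1.1) ≤ 100 * (R * τb + τa) ^ 2 := by
    have e : τb ^ 2 * (100 * (R + τa / τb) ^ 2) = 100 * (R * τb + τa) ^ 2 := by
      field_simp
    rw [← e]
    exact mul_le_mul_of_nonneg_left h2 (sq_nonneg _)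
  simp only [kx, sub_self, mul_zero, cos_zero, mul_one]
  have hq := Real.sqrt_nonneg (P.Q u.2.2 (cz c))
  set q := √(P.Q u.2.2 (cz c))
  have hA : 0 < R * τb + τa := by positivity
  set A := R * τb + τa
  have h5 : A ^ 2 + q * q + 1 ≤ (A + q + 1) ^ 2 := by nlinarith only [hq, hA, mul_nonneg hA.le hq]
  nlinarith only [h3, h4, h1, h5, mul_nonneg hq hq, sq_nonneg A]

lemma SmpA_up (h : SD P ρm η μ ω cc j R bm Wn g a b c τa τb Kc Ko W K) {crd : R3 →ₗ[ℝ] R3}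
    (hc1 : ∀ e, comb a b c (crd e) = e) (X : VV) (hX : Wn ‖vw X‖)
    (h0 : ‖vw X‖ ≠ 0 ∨ P.pv (cz c) = 0) {ε : ℝ} (hε : 0 < ε) : ∃ δ > 0, ∀ X', dist X X' < δ →
      Wn ‖vw X'‖ →
      nd Kc (fp X) (fp X') + 1001 / 1000 * (W (‖vx X‖ / τb) ^ 2 * nd kV X X') +
        (1 + η j / 100) * nd (kx P τb c K Ko)
          (crd (P.eta (Complex.arg (vw X)) (vs X)), fp X, ‖vw X‖)
          (crd (P.eta (Complex.arg (vw X')) (vs X')), fp X', ‖vw X'‖) +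
        η j / 100 * (‖vx X‖ - ‖vx X'‖) ^ 2 ≤
      (1 + ε) * dist X X' ^ 2 - 99 / 100 * (‖vw X‖ - ‖vw X'‖) ^ 2 := by
  obtain ⟨δ0, hδ0, H⟩ := h.core_up (crd (P.eta (Complex.arg (vw X)) (vs X))) (fp X) hX h0
    (ε := ε / 4) (by positivity)
  have hη := h.η_pos
  have hη1 := h.η_le
  obtain ⟨δ1, hδ1, H1⟩ : ∃ δ1 > 0, ∀ d r' ψ : ℝ, 0 ≤ d → d < δ1 → 0 ≤ r' →
      (‖vw X‖ - r') ^ 2 ≤ d ^ 2 → ‖vw X‖ * r' * ψ ^ 2 ≤ 3 * d ^ 2 →
      ‖vw X‖ = 0 ∨ ψ ^ 2 ≤ η j / 2 := by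
    by_cases hr : ‖vw X‖ = 0
    · exact ⟨1, one_pos, fun _ _ _ _ _ _ _ _ => Or.inl hr⟩
    · have hr0 : 0 < ‖vw X‖ := lt_of_le_of_ne (norm_nonneg _) (Ne.symm hr)
      refine ⟨min (‖vw X‖ / 2) (√(η j / 12) * ‖vw X‖), by positivity,
        fun d r' ψ hd hd1 hr' h1 h2 => Or.inr ?_⟩
      set r := ‖vw X‖
      have hd2 : d < r / 2 := hd1.trans_le (min_le_left _ _)
      have hd3 : d < √(η j / 12) * r := hd1.trans_le (min_le_right _ _)
      have hd4 : d ^ 2 ≤ η j / 12 * r ^ 2 := by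
        have := pow_le_pow_left₀ hd hd3.le 2
        rwa [mul_pow, Real.sq_sqrt (by positivity)] at this
      have h3 : r - r' ≤ d := by
        exact (abs_le_of_sq_le_sq' h1 hd).2
      have h4 : r / 2 ≤ r' := by linarith
      have h5 : r * (r / 2) * ψ ^ 2 ≤ r * r' * ψ ^ 2 := by gcongr
      have h6 : r ^ 2 * ψ ^ 2 ≤ r ^ 2 * (η j / 2) := by nlinarith only [h2, hd4, h5]
      exact le_of_mul_le_mul_left h6 (by positivity)
  refine ⟨min (min δ1 1) (δ0 / 4), by positivity, fun X' hd hX' => ?_⟩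
  have hd1 : dist X X' < δ1 := hd.trans_le ((min_le_left _ _).trans (min_le_left _ _))
  have hd2 : dist X X' < 1 := hd.trans_le ((min_le_left _ _).trans (min_le_right _ _))
  have hd3 : dist X X' < δ0 / 4 := hd.trans_le (min_le_right _ _)
  have hd0 : 0 ≤ dist X X' := dist_nonneg
  obtain ⟨l, hl⟩ := SmpA_exists_angle (Complex.arg (vw X) - Complex.arg (vw X'))
  have hD := SmpA_dist_sq X X' l
  obtain ⟨n, hn⟩ := h.smp.bas.exists_lv (P.m0 * l, 0, 0)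
  have hev := h.smp.bas.even_lv n
  have hp : par (lv a b c n) = 0 := by
    rw [← hn]
    simp [par]
  rw [hp] at hev
  have hsh : ∀ u, kx P τb c K Ko u
      (crd (P.eta (Complex.arg (vw X')) (vs X')) + cz n, fp X', ‖vw X'‖) =
      kx P τb c K Ko u (crd (P.eta (Complex.arg (vw X')) (vs X')), fp X', ‖vw X'‖) := by
    intro u
    have := kx_shift (τ := τb) (c := c) h.mo.toWeakK h.fo.fibo h.fo.Jo u
      (crd (P.eta (Complex.arg (vw X')) (vs X'))) (fp X') ‖vw X'‖ n hev 0 0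
    rwa [SmpA_fib_zero] at this
  have hsy := (kx_psd P τb c h.mo.psd h.fo.psdo).symm
  have hnd : nd (kx P τb c K Ko) (crd (P.eta (Complex.arg (vw X)) (vs X)), fp X, ‖vw X‖)
      (crd (P.eta (Complex.arg (vw X')) (vs X')) + cz n, fp X', ‖vw X'‖) =
      nd (kx P τb c K Ko) (crd (P.eta (Complex.arg (vw X)) (vs X)), fp X, ‖vw X‖)
      (crd (P.eta (Complex.arg (vw X')) (vs X')), fp X', ‖vw X'‖) := by
    simp only [nd]
    rw [hsh, hsh, hsy _ (crd (P.eta (Complex.arg (vw X')) (vs X')), fp X', ‖vw X'‖), hsh]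
  have hr0 := norm_nonneg (vw X)
  have hr0' := norm_nonneg (vw X')
  have hrr : 0 ≤ ‖vw X‖ * ‖vw X'‖ := mul_nonneg hr0 hr0'
  have hQ : P.Q √(‖vw X‖ * ‖vw X'‖) (comb a b c (crd (P.eta (Complex.arg (vw X)) (vs X)) -
      (crd (P.eta (Complex.arg (vw X')) (vs X')) + cz n))) =
      ‖vw X‖ * ‖vw X'‖ * (Complex.arg (vw X) - Complex.arg (vw X') - 2 * π * l) ^ 2 +
        ‖vs X - vs X'‖ ^ 2 := by
    rw [← sub_sub, comb_sub, comb_sub, hc1, hc1, comb_cz, ← hn, Par.Q, Real.sq_sqrt hrr,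
      P.an_sub, P.an_sub, P.pv_sub, P.pv_sub, h.good.an_eta, h.good.an_eta, h.good.pv_eta,
      h.good.pv_eta, h.good.an_m0, P.pv_first, sub_zero]
  have H2 := H (crd (P.eta (Complex.arg (vw X')) (vs X')) + cz n) (fp X') ‖vw X'‖ hX'
  rw [hQ, hnd] at H2
  have hkV := nd_kV h.smp.pos (crd (P.eta (Complex.arg (vw X)) (vs X)))
    (crd (P.eta (Complex.arg (vw X')) (vs X')) + cz n) X X'
  have hs := SmpA_sq_le hl
  have hf := SmpA_fd2_nonneg (fp X) (fp X')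
  set ψ := Complex.arg (vw X) - Complex.arg (vw X') - 2 * π * l
  have hc0 : 0 ≤ 1 - cos ψ := by linarith [cos_le_one ψ]
  have hs2 : ‖vw X‖ * ‖vw X'‖ * ψ ^ 2 ≤ ‖vw X‖ * ‖vw X'‖ * (5 * (1 - cos ψ)) :=
    mul_le_mul_of_nonneg_left hs hrr
  have hs3 : 0 ≤ ‖vw X‖ * ‖vw X'‖ * (1 - cos ψ) := mul_nonneg hrr hc0
  have hσ := sq_nonneg ‖vs X - vs X'‖
  have hΔ := sq_nonneg (‖vw X‖ - ‖vw X'‖)
  have hS : ‖vw X‖ * ‖vw X'‖ * ψ ^ 2 + ‖vs X - vs X'‖ ^ 2 ≤ 3 * dist X X' ^ 2 := by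
    linarith
  have hdd : dist X X' ^ 2 < δ0 / 4 := by nlinarith only [hd3, hd2, hd0]
  have H3 := H2 (by linarith)
  have hloc : (1 - η j / 10) * (‖vw X‖ * ‖vw X'‖ * ψ ^ 2) ≤
      2 * ‖vw X‖ * ‖vw X'‖ * (1 - cos ψ) := by
    rcases H1 (dist X X') ‖vw X'‖ ψ hd0 hd1 hr0' (by linarith) (by linarith only [hf, hD, hs2, hs3, hσ, hΔ]) with h1 | h1
    · simp [h1]
    · have := mul_le_mul_of_nonneg_left (SmpA_sq_le_local (by linarith) h1) hrr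
      linarith only [this]
  have e1 : (fp X).1 = vx X := rfl
  have e2 : (fp X').1 = vx X' := rfl
  rw [e1, e2, ← hkV] at H3
  have h7 : ε / 4 * (‖vw X‖ * ‖vw X'‖ * ψ ^ 2 + ‖vs X - vs X'‖ ^ 2) ≤
      ε / 4 * (3 * dist X X' ^ 2) := mul_le_mul_of_nonneg_left hS (by positivity)
  have h8 : ε / 4 * fd2 (fp X) (fp X') ≤ ε / 4 * dist X X' ^ 2 :=
    mul_le_mul_of_nonneg_left (by linarith only [hD, hs3, hσ, hΔ]) (by positivity)
  have h9 : 0 ≤ η j * ‖vs X - vs X'‖ ^ 2 := by positivity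
  nlinarith only [hD, H3, hloc, h7, h8, h9]

theorem SD.out (h : SD P ρm η μ ω cc j R bm Wn g a b c τa τb Kc Ko W K) {z : Prop}
    (hz : z → a = (0, 1, 0) ∧ b = (0, 0, 1) ∧ c = (1, 0, 0)) :
    ∃ W' ks, SmpOut P Kc (η j) Wn g z W' ks := by
  obtain ⟨crd, hc1, hc2⟩ := h.smp.bas.exists_coord
  have hτ := h.smp.pos
  have hτ1 := SmpA_one_le h
  refine ⟨fun r => W (r / τb), fun X X' => kx P τb c K Ko
    (crd (P.eta (Complex.arg (vw X)) (vs X)), fp X, ‖vw X‖)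
    (crd (P.eta (Complex.arg (vw X')) (vs X')), fp X', ‖vw X'‖),
    (kx_psd P τb c h.mo.psd h.fo.psdo).comp
      (fun X : VV => (crd (P.eta (Complex.arg (vw X)) (vs X)), fp X, ‖vw X‖)),
    fun k n v X X' hX => SmpA_inv h hz hc2 k n v _ X' hX, fun r => h.mo.W0 _, fun r => h.mo.W1 _,
    fun r hr => h.mo.Wbot _ ((div_le_one hτ).2 (hr.trans hτ1)), ?_, ?_,
    fun X r hX hr => SmpA_diag h _ hX hr, ?_, ?_, h.far⟩
  · intro ρ r hρ hW hr
    have h1 : ρ / τb < R := by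
      by_contra hc
      exact hW (h.mo.Wtop _ (not_lt.1 hc))
    rw [div_lt_iff₀ hτ] at h1
    have h2 := h.smp.size r r hr hr
    have hτa : 0 < τa := hτ.trans_le h.smp.ge
    have hq := Real.sqrt_nonneg (P.Q r (cz c))
    have h3 : ρ ^ 2 ≤ (R * τb + τa + √(P.Q r (cz c)) + 1) ^ 2 :=
      pow_le_pow_left₀ hρ (by linarith) 2
    have h4 : η j * g r ^ 2 ≤ 1 / 1000 * g r ^ 2 :=
      mul_le_mul_of_nonneg_right h.η_le (sq_nonneg _)
    nlinarith [sq_nonneg ρ]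
  · intro r r' h0 h1
    have h2 := h.mo.Wlip (r / τb) (r' / τb) (by positivity) (by gcongr)
    have h3 := mul_le_mul_of_nonneg_right h2 hτ.le
    have e1 : |W (r / τb) - W (r' / τb)| * (r' / τb) * τb = |W (r / τb) - W (r' / τb)| * r' := by
      field_simp
    have e2 : η j / 1000 * (r / τb - r' / τb) * τb = η j / 1000 * (r - r') := by
      field_simp
    rwa [e1, e2] at h3
  · intro X X' hX hX' hx
    obtain ⟨n, k, m, H⟩ := h.core_low (crd (P.eta (Complex.arg (vw X)) (vs X)))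
      (crd (P.eta (Complex.arg (vw X')) (vs X'))) (fp X) (fp X') hX hX' hx
    have hrr : 0 ≤ ‖vw X‖ * ‖vw X'‖ := by positivity
    have H2 := h.good.D2_le_Q k m (lv a b c n) X X' (r := √(‖vw X‖ * ‖vw X'‖))
      (Real.sq_sqrt hrr).ge
    rw [comb_sub, comb_sub, hc1, hc1, comb_cz] at H
    have e1 : (fp X).1 = vx X := rfl
    have e2 : (fp X').1 = vx X' := rfl
    rw [e1, e2, ← nd_kV hτ] at H
    have hl : 0 ≤ l2 := by unfold l2; norm_num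
    have H3 := mul_le_mul_of_nonneg_left H2 hl
    simp only [nd] at H ⊢
    linarith
  · intro X hX hz' ε hε
    have h0 : ‖vw X‖ ≠ 0 ∨ P.pv (cz c) = 0 := by
      rcases hz' with h1 | h1
      · exact Or.inl (norm_ne_zero_iff.2 h1)
      · right
        rw [(hz h1).2.2, P.pv_first]
    exact SmpA_up h hc1 X hX h0 hε

end Pool.Agent.Work.MP_0ba68b_gt.CX
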