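import Pool.Agent.Work.MP_0ba68b_gt.CX.Band
import Pool.Agent.Work.MP_0ba68b_gt.CX.E2
import Pool.Agent.Work.MP_0ba68b_gt.CX.E3

/-!
The upgrade lemma, the tuning of the ratio, and the kernel for the middle region.

PLAN for `upgrade`: see the header of Band.lean.
`tune`: `S = {y ∈ [1,4] | ¬ Feas y b lam}` contains `1` (`not_feas_E3`), not `4` (`feas_E2`); `s = sSup S`;
pick `y ∈ S` with `y (1 + ε) > s` (`exists_lt_of_lt_csSup` with `s / (1 + ε)`); unfold `¬ Feas`.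
`mid`: `η = ϑ / q`, `w = 700 / q ≤ 1`; mix `(1 - w) K + w K♯` (`AdmL.mix`, `AdmL.mono`); the level is
`≥ l2 + 2η - 700 ϑ/(10⁵ q) ≥ l2 + 1.99 η`; close pairs: `w 3/100 ≥ 20/q`; far pairs:
`0.99 η t0² ρ ρ' ≥ 2000/q² ρ ρ'`.
-/

open Real

namespace Pool.Agent.Work.MP_0ba68b_gt.CX

lemma Upgrade_pos {R : ℝ} (hR : 2 ≤ R) (y : ℝ) (p p' : Pt (IR R)) :
    0 ≤ rho p.1 * rho p'.1 ∧ 0 ≤ angP p p' ∧ 0 ≤ rep y p p' := by
  have h1 := (rho_pos (by linarith) p.1).le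
  have h2 := (rho_pos (by linarith) p'.1).le
  have h3 : 0 ≤ angP p p' := ang_nonneg h1 h2 _ _
  exact ⟨mul_nonneg h1 h2, h3, add_nonneg (Dsq_nonneg _ _ _) h3⟩

lemma Upgrade_step {r P A lam ϑ t0 t1 s c d : ℝ} (hr : 0 ≤ r) (hP : 0 ≤ P) (hA : 0 ≤ A)
    (hl : 0 ≤ lam) (hϑ : 0 ≤ ϑ) (h0 : 0 ≤ t0) (h1 : t0 ≤ t1) (hs : 0 ≤ s) (hc : 0 ≤ c)
    (hsc : s + c = 1) (hd : s * d = c) :
    (if r ≤ t0 ^ 2 * P then lam * r + 4 / 100 * A else (lam - ϑ - lam * c) * r) ≤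
      s * (if r ≤ t1 ^ 2 * P then lam * r + 4 / 100 * A else (lam - ϑ - lam * d) * r) +
        c * (if r ≤ t0 ^ 2 * P then lam * r + 4 / 100 * A
          else if t1 ^ 2 * P ≤ r then (lam - ϑ) * r else 0) := by
  have h2 : t0 ^ 2 * P ≤ t1 ^ 2 * P := mul_le_mul_of_nonneg_right (pow_le_pow_left₀ h0 h1 2) hP
  obtain rfl : s = 1 - c := by linarith
  have a1 := mul_nonneg hs hA
  have a2 := mul_nonneg hs (mul_nonneg hϑ hr)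
  have a3 := mul_nonneg hc (mul_nonneg hϑ hr)
  have a4 := mul_nonneg hc (mul_nonneg hl hr)
  by_cases c0 : r ≤ t0 ^ 2 * P
  · rw [if_pos c0, if_pos c0, if_pos (c0.trans h2)]
    linarith
  rw [if_neg c0, if_neg c0]
  by_cases c1 : r ≤ t1 ^ 2 * P
  · rw [if_pos c1]
    split_ifs <;> linarith
  · rw [if_neg c1, if_pos (not_le.1 c1).le]
    have a5 : (1 - c) * d * (lam * r) = c * (lam * r) := by rw [hd]
    linarith

lemma Upgrade_ind {ϑ : ℝ} (hϑ : 0 < ϑ) (n : ℕ) : ∃ t0, 0 < t0 ∧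
    ∀ R, 2 ≤ R → ∀ y b lam, 1 ≤ y → 0 ≤ b → b ≤ 1 → 3 / 10 ≤ lam → lam ≤ 2 / 5 →
      ∀ K : Pt (IR R) → Pt (IR R) → ℝ, Adm y b lam K →
        ∃ K' : Pt (IR R) → Pt (IR R) → ℝ, AdmL y (b + ϑ) (fun p p' =>
          if rep y p p' ≤ t0 ^ 2 * (rho p.1 * rho p'.1) then
            lam * rep y p p' + 4 / 100 * angP p p'
          else (lam - ϑ - lam * (1 / ((n : ℝ) + 1))) * rep y p p') K' := by
  induction n with
  | zero =>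
    obtain ⟨t0, h0, -, hb⟩ := band one_pos hϑ
    refine ⟨t0, h0, fun R hR y b lam hy b0 b1 l0 l1 K hK => ?_⟩
    obtain ⟨K', hK'⟩ := hb R hR y b lam hy b0 b1 l0 l1 K hK
    refine ⟨K', hK'.mono le_rfl fun p p' _ => ?_⟩
    obtain ⟨-, -, hr⟩ := Upgrade_pos hR y p p'
    have a1 := mul_nonneg hϑ.le hr
    have a2 := mul_nonneg (by linarith : 0 ≤ lam) hr
    rw [Nat.cast_zero, zero_add, div_one]
    split_ifs <;> linarith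
  | succ n ih =>
    obtain ⟨t1, h1, hI⟩ := ih
    obtain ⟨t0, h0, h01, hb⟩ := band h1 hϑ
    refine ⟨t0, h0, fun R hR y b lam hy b0 b1 l0 l1 K hK => ?_⟩
    obtain ⟨K1, hK1⟩ := hI R hR y b lam hy b0 b1 l0 l1 K hK
    obtain ⟨K2, hK2⟩ := hb R hR y b lam hy b0 b1 l0 l1 K hK
    have e1 : ((n : ℝ) + 1) / ((n : ℝ) + 1 + 1) + 1 / ((n : ℝ) + 1 + 1) = 1 := by
      field_simp
    have e2 : ((n : ℝ) + 1) / ((n : ℝ) + 1 + 1) * (1 / ((n : ℝ) + 1)) = 1 / ((n : ℝ) + 1 + 1) := by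
      field_simp
    refine ⟨_, (hK1.mix hK2 (by positivity) (by positivity) e1.le).mono
      (by rw [← add_mul, e1, one_mul]) fun p p' _ => ?_⟩
    obtain ⟨hP, hA, hr⟩ := Upgrade_pos hR y p p'
    rw [Nat.cast_succ]
    exact Upgrade_step hr hP hA (by linarith) hϑ.le h0.le h01 (by positivity) (by positivity) e1 e2

lemma Upgrade_mid {r P A l ϑ x T : ℝ} (hr : 0 ≤ r) (hP : 0 ≤ P) (hA : 0 ≤ A) (hϑ : 0 ≤ ϑ)
    (hx : 0 ≤ x) (hT : 10 ^ 4 * x ^ 2 ≤ ϑ * x * T) :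
    (l + ϑ * x) * r + 2 * min (10 * x * A) (1000 * x ^ 2 * P) ≤
      (1 - 700 * x) * ((l + 2 * (ϑ * x)) * r) + 700 * x * ((l + 2 * (ϑ * x) - ϑ / 10 ^ 5) * r +
        if r ≤ T * P then 3 / 100 * A else 0) := by
  have a1 := mul_nonneg (mul_nonneg hϑ hx) hr
  split_ifs with h
  · have a2 := min_le_left (10 * x * A) (1000 * x ^ 2 * P)
    have a3 := mul_nonneg hx hA
    linarith
  · have a2 := min_le_right (10 * x * A) (1000 * x ^ 2 * P)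
    have a3 := mul_le_mul_of_nonneg_left (not_le.1 h).le (mul_nonneg hϑ hx)
    have a4 := mul_le_mul_of_nonneg_right hT hP
    linarith

theorem upgrade {ϑ : ℝ} (hϑ : 0 < ϑ) : ∃ t0, 0 < t0 ∧ UpProp ϑ t0 := by
  obtain ⟨n, hn⟩ := exists_nat_one_div_lt hϑ
  obtain ⟨t0, h0, hI⟩ := Upgrade_ind (half_pos hϑ) n
  refine ⟨t0, h0, fun R hR y b lam hy b0 b1 l0 l1 K hK => ?_⟩
  obtain ⟨K', hK'⟩ := hI R hR y b lam hy b0 b1 l0 l1 K hK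
  refine ⟨K', hK'.mono (by linarith) fun p p' _ => ?_⟩
  obtain ⟨-, hA, hr⟩ := Upgrade_pos hR y p p'
  have a1 := mul_nonneg hϑ.le hr
  have a2 : lam * (1 / ((n : ℝ) + 1)) ≤ 2 / 5 * ϑ :=
    mul_le_mul l1 hn.le (by positivity) (by norm_num)
  have a3 := mul_le_mul_of_nonneg_right a2 hr
  split_ifs <;> linarith

theorem tune {b lam ε : ℝ} (hb : 0 ≤ b) (hb1 : b ≤ 1) (hl : l2 ≤ lam) (hl' : lam ≤ 8 / 25 * b)
    (hε : 0 < ε) : ∃ y R, 1 ≤ y ∧ y ≤ 4 ∧ 2 ≤ R ∧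
      (¬ ∃ K : Pt (IR R) → Pt (IR R) → ℝ, Adm y b lam K) ∧
      ∀ y', 1 ≤ y' → y' ≤ 4 → y * (1 + ε) ≤ y' ∨ y' = 4 → Feas y' b lam := by
  have h1 : (1 : ℝ) ∈ {y : ℝ | 1 ≤ y ∧ y ≤ 4 ∧ ¬ Feas y b lam} :=
    ⟨le_rfl, by norm_num, not_feas_E3 hb1 hl⟩
  have h2 : BddAbove {y : ℝ | 1 ≤ y ∧ y ≤ 4 ∧ ¬ Feas y b lam} := ⟨4, fun y hy => hy.2.1⟩
  have h3 := le_csSup h2 h1
  obtain ⟨y, ⟨y1, y4, hy⟩, hs⟩ := exists_lt_of_lt_csSup ⟨1, h1⟩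
    (div_lt_self (one_pos.trans_le h3) (by linarith : 1 < 1 + ε))
  rw [div_lt_iff₀ (by linarith)] at hs
  rw [Feas, not_forall] at hy
  obtain ⟨R, hR⟩ := hy
  rw [Classical.not_imp] at hR
  refine ⟨y, R, y1, y4, hR.1, hR.2, fun y' z1 z4 hz => ?_⟩
  rcases hz with hz | rfl
  · by_contra hn
    linarith [le_csSup h2 (show y' ∈ {y : ℝ | 1 ≤ y ∧ y ≤ 4 ∧ ¬ Feas y b lam} from ⟨z1, z4, hn⟩)]
  · exact feas_E2 hb hb1 hl'

theorem mid {ϑ t0 y : ℝ} {q : ℕ} (hϑ : 0 < ϑ) (hϑ1 : ϑ ≤ 1) (hup : UpProp (ϑ / 10 ^ 5) t0)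
    (hq : 10 ^ 4 ≤ q) (hq' : 10 ^ 4 ≤ q * ϑ * t0 ^ 2) (hy : 1 ≤ y)
    (hf : Feas y (1 - kap / q) (l2 + 2 * (ϑ / q))) (R : ℝ) (hR : 2 ≤ R) :
    ∃ K : Pt (IR R) → Pt (IR R) → ℝ, AdmL y (1 - kap / q + ϑ / q / 20)
      (fun p p' => (l2 + ϑ / q) * rep y p p' + 2 * cap (10 / q) (1000 / q ^ 2) p p') K := by
  have q1 : (10 : ℝ) ^ 4 ≤ q := by exact_mod_cast hq
  have q0 : (0 : ℝ) < q := by linarith
  have x0 : (0 : ℝ) < (q : ℝ)⁻¹ := inv_pos.2 q0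
  have x1 : (q : ℝ) * (q : ℝ)⁻¹ = 1 := mul_inv_cancel₀ q0.ne'
  simp only [div_eq_mul_inv _ (q : ℝ), div_eq_mul_inv _ ((q : ℝ) ^ 2), ← inv_pow] at hf ⊢
  generalize (q : ℝ)⁻¹ = x at *
  have x2 : 10 ^ 4 * x ≤ 1 := by linarith [mul_le_mul_of_nonneg_right q1 x0.le]
  have x3 : 10 ^ 4 * x ^ 2 ≤ ϑ * x * t0 ^ 2 := by
    have a1 := mul_le_mul_of_nonneg_right hq' (sq_nonneg x)
    have a2 : q * ϑ * t0 ^ 2 * x ^ 2 = q * x * (ϑ * x * t0 ^ 2) := by ring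
    rwa [a2, x1, one_mul] at a1
  have k0 := mul_pos kap_pos x0
  have k1 := mul_le_mul_of_nonneg_right kap_le x0.le
  have e0 := mul_pos hϑ x0
  have e1 := mul_le_mul_of_nonneg_right hϑ1 x0.le
  have hl : l2 = 63 / 200 := rfl
  obtain ⟨K, hK⟩ := hf R hR
  obtain ⟨K', hK'⟩ := hup R hR y _ _ hy (by linarith) (by linarith) (by linarith) (by linarith) K hK
  refine ⟨_, (hK.mix hK' (s := 1 - 700 * x) (t := 700 * x) (by linarith) (by linarith)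
    (by linarith)).mono (by linarith) fun p p' _ => ?_⟩
  obtain ⟨hP, hA, hr⟩ := Upgrade_pos hR y p p'
  exact Upgrade_mid hr hP hA hϑ.le x0.le x3

end Pool.Agent.Work.MP_0ba68b_gt.CX
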