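import Pool.Agent.Work.MP_0ba68b_gt.CX.Arith
import Pool.Agent.Work.MP_0ba68b_gt.CX.Circle
import Pool.Agent.Work.MP_0ba68b_gt.CX.CSmp
import Pool.Agent.Work.MP_0ba68b_gt.CX.Event
import Pool.Agent.Work.MP_0ba68b_gt.CX.Fib
import Pool.Agent.Work.MP_0ba68b_gt.CX.Glob
import Pool.Agent.Work.MP_0ba68b_gt.CX.NoApx
import Pool.Agent.Work.MP_0ba68b_gt.CX.SmpA
import Pool.Agent.Work.MP_0ba68b_gt.CX.Upgrade

/-!
Assembly of the counterexample.
-/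

open Real

namespace Pool.Agent.Work.MP_0ba68b_gt.CX

lemma kap_div {q : ℕ} (hq : 10 ^ 4 ≤ q) : 0 < kap / q ∧ kap / q ≤ 1 / 10 ^ 4 := by
  have hq' : (10 : ℝ) ^ 4 ≤ q := by exact_mod_cast hq
  have h0 : (0 : ℝ) < q := by linarith
  refine ⟨div_pos kap_pos h0, ?_⟩
  rw [div_le_iff₀ h0]
  linarith [kap_le]

/-- The tuned data of one level. -/
lemma level {ϑ t0 : ℝ} {q : ℕ} (h0 : 0 < ϑ) (h1 : ϑ ≤ 1) (hup : UpProp (ϑ / 10 ^ 5) t0)
    (hq : 10 ^ 4 ≤ q) (hq' : 10 ^ 4 ≤ q * ϑ * t0 ^ 2) : ∃ y R Rt : ℝ, 1 ≤ y ∧ y ≤ 4 ∧ 2 ≤ R ∧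
      2 ≤ Rt ∧ (¬ ∃ K : Pt (IR Rt) → Pt (IR Rt) → ℝ, Adm y (1 - kap / q) (l2 + 2 * (ϑ / q)) K) ∧
      (∃ K : Pt (IR Rt) → Pt (IR Rt) → ℝ, Adm y (1 - kap / q) l2 K) ∧
      ∀ y', 1 ≤ y' → y * (1 + ϑ / q / 2000) ≤ y' ∨ 4 ≤ y' →
        ∃ W K, ModelOut y' (ϑ / q) (1 - kap / q + ϑ / q / 20) (10 / q) (1000 / q ^ 2) R W K := by
  obtain ⟨k0, k1⟩ := kap_div hq
  have hqr : (10 : ℝ) ^ 4 ≤ q := by exact_mod_cast hq
  have hq0 : (0 : ℝ) < q := by linarith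
  set η := ϑ / q with hη
  have e0 : 0 < η := div_pos h0 hq0
  have e1 : η ≤ 1 / 10 ^ 4 := by rw [hη, div_le_iff₀ hq0]; linarith
  have e2 : η ≤ 2 * (kap / q) := by
    rw [hη, ← mul_div_assoc]
    gcongr
    linarith [le_kap]
  have hl : l2 = 63 / 200 := rfl
  obtain ⟨y, Rt, y1, y4, hRt, hno, hf⟩ := tune (b := 1 - kap / q) (lam := l2 + 2 * η)
    (ε := η / 2000) (by linarith) (by linarith) (by linarith) (by rw [hl]; linarith)
    (by positivity)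
  obtain ⟨R, hR, hm⟩ := model e0 (by linarith)
  refine ⟨y, R, Rt, y1, y4, hR, hRt, hno, ?_, fun y' hy' hyy => ?_⟩
  · have hy2 : y ≤ min (y * (1 + η / 2000)) 4 := le_min (by nlinarith) y4
    obtain ⟨K, hK⟩ := hf (min (y * (1 + η / 2000)) 4) (y1.trans hy2) (min_le_right _ _)
      (by rcases le_total (y * (1 + η / 2000)) 4 with h | h
          · left; rw [min_eq_left h]
          · right; rw [min_eq_right h]) Rt hRt
    refine ⟨_, (hK.stretch y1 hy2 (by linarith) (by rw [hl]; linarith)).mono le_rfl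
      fun p p' _ => ?_⟩
    have hp : 0 ≤ rep y p p' := add_nonneg (Dsq_nonneg _ _ _)
      (ang_nonneg (rho_pos (by linarith) _).le (rho_pos (by linarith) _).le _ _)
    refine mul_le_mul_of_nonneg_right ?_ hp
    have h3 : (1 + η / 2000)⁻¹ ≤ y / min (y * (1 + η / 2000)) 4 := by
      rw [le_div_iff₀ (by linarith), inv_mul_le_iff₀ (by positivity)]
      exact (min_le_left _ _).trans (by rw [mul_comm])
    have h4 : 1 - η / 2000 ≤ (1 + η / 2000)⁻¹ := by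
      rw [← one_div, le_div_iff₀ (by positivity)]; nlinarith
    have h5 : (1 - η / 2000) ^ 2 ≤ (y / min (y * (1 + η / 2000)) 4) ^ 2 :=
      pow_le_pow_left₀ (by linarith) (h4.trans h3) 2
    have h6 : (1 - η / 2000) ^ 2 * (l2 + 2 * η) ≤
        (y / min (y * (1 + η / 2000)) 4) ^ 2 * (l2 + 2 * η) :=
      mul_le_mul_of_nonneg_right h5 (by rw [hl]; linarith)
    refine le_trans ?_ h6
    rw [hl]
    nlinarith [mul_pos e0 e0, mul_pos (mul_pos e0 e0) e0]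
  · have hmu : (10 : ℝ) / q ≤ 1 / 1000 := by rw [div_le_iff₀ hq0]; linarith
    refine hm y' _ _ _ hy' (by linarith) (by linarith) (by positivity) hmu (by positivity)
      fun R' hR' => ?_
    have hmin : 1 ≤ min y' 4 := le_min hy' (by norm_num)
    refine mid h0 h1 hup hq hq' hmin (hf _ hmin (min_le_right _ _) ?_) R' hR'
    rcases le_total y' 4 with h | h
    · rw [min_eq_left h]
      exact hyy.imp id fun h' => le_antisymm h h'
    · right; rw [min_eq_right h]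

/-- Two sided bounds with the constant `l2`. -/
def Emb (P : Par) {H : Type} [NormedAddCommGroup H] (f : VV → H) : Prop :=
  ∀ X X', l2 * P.D2 X X' ≤ ‖f X - f X'‖ ^ 2 ∧ ‖f X - f X'‖ ^ 2 ≤ P.D2 X X'

theorem main_data : ∃ P : Par, P.Good ∧
    (∃ K : VV → VV → ℝ, PSD K ∧ ∀ X X', l2 * P.D2 X X' ≤ nd K X X' ∧ nd K X X' ≤ P.D2 X X') ∧
    ∀ (N : ℕ) (f : VV → EuclideanSpace ℝ (Fin N)), ¬ Emb P f := by
  choose ϑN qN hϑN hno using noApx
  obtain ⟨ϑ, ϑz, ϑs⟩ : ∃ ϑ : ℕ → ℝ, ϑ 0 = 1 ∧ ∀ k, ϑ (k + 1) = min (ϑ k) (ϑN k) :=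
    ⟨fun k => Nat.rec 1 (fun j t => min t (ϑN j)) k, rfl, fun _ => rfl⟩
  have ϑa : Antitone ϑ := antitone_nat_of_succ_le fun k => by rw [ϑs]; exact min_le_left _ _
  have ϑ0 : ∀ k, 0 < ϑ k := fun k => by
    induction k with
    | zero => rw [ϑz]; exact one_pos
    | succ k ih => rw [ϑs]; exact lt_min ih (hϑN k)
  have ϑ1 : ∀ k, ϑ k ≤ 1 := fun k => (ϑa (Nat.zero_le k)).trans ϑz.le
  choose t0 ht0 hup using fun k => upgrade (ϑ := ϑ k / 10 ^ 5) (by have := ϑ0 k; positivity)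
  let Qmin : ℕ → ℕ := fun k => max (max (10 ^ 4) (qN (k - 1)))
    (max ⌈10 ^ 4 / (ϑ k * t0 k ^ 2)⌉₊ ⌈10 ^ 15 / ϑ (k + 1) ^ 4⌉₊)
  have hQ : ∀ k q : ℕ, Qmin k ≤ q → 10 ^ 4 ≤ q ∧ qN (k - 1) ≤ q ∧
      10 ^ 4 ≤ q * ϑ k * t0 k ^ 2 ∧ 10 ^ 15 ≤ q * ϑ (k + 1) ^ 4 := by
    intro k q h
    simp only [Qmin, max_le_iff, Nat.ceil_le] at h
    obtain ⟨⟨h1, h2⟩, h3, h4⟩ := h
    have := ϑ0 k
    have := ϑ0 (k + 1)
    have := ht0 k
    rw [div_le_iff₀ (by positivity)] at h3 h4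
    exact ⟨h1, h2, by linarith, h4⟩
  have hη : ∀ k q : ℕ, Qmin k ≤ q → 0 < ϑ k / q ∧ ϑ k / q ≤ 1 / 1000 := by
    intro k q h
    have hqr : (10 : ℝ) ^ 4 ≤ q := by exact_mod_cast (hQ k q h).1
    have hq0 : (0 : ℝ) < q := by linarith
    refine ⟨div_pos (ϑ0 k) hq0, ?_⟩
    rw [div_le_iff₀ hq0]; linarith [ϑ1 k]
  have key : ∀ k q : ℕ, ∃ y R D : ℝ, 1 ≤ y ∧ y ≤ 4 ∧ 0 < D ∧ (Qmin k ≤ q → Even q →
      (∀ E, 0 < E → E ≤ D → Dem E (ϑ k / q) R (2 * ((q : ℝ) ^ 2 / (ϑ k / 1000)))) ∧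
      (∀ y', 1 ≤ y' → y * (1 + ϑ k / q / 2000) ≤ y' ∨ 4 ≤ y' → ∃ W K, ModelOut y' (ϑ k / q)
        (1 - kap / q + ϑ k / q / 20) (10 / q) (1000 / q ^ 2) R W K) ∧
      ∀ N, k = N + 1 → ∀ (P : Par) (E : ℝ), P.Good → 0 < E → E ≤ D → Event P q y E →
        ∀ f : VV → EuclideanSpace ℝ (Fin N), ¬ Emb P f) := by
    intro k q
    by_cases hq : Qmin k ≤ q ∧ Even q
    swap
    · exact ⟨1, 1, 1, le_rfl, by norm_num, one_pos, fun h h' => absurd ⟨h, h'⟩ hq⟩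
    obtain ⟨q1, q2, q3, -⟩ := hQ k q hq.1
    obtain ⟨y, R, Rt, y1, y4, hR, hRt, h1, h2, h3⟩ := level (ϑ0 k) (ϑ1 k) (hup k) q1 q3
    obtain ⟨D, hD, hdem⟩ := exists_dem (ρm := 2 * ((q : ℝ) ^ 2 / (ϑ k / 1000))) (hη k q hq.1).1
      (hη k q hq.1).2 hR (by have := ϑ0 k; positivity)
    rcases k with _ | N
    · exact ⟨y, R, D, y1, y4, hD, fun _ _ => ⟨hdem, h3, fun N hN => absurd hN (by omega)⟩⟩
    obtain ⟨ε, hε, hn⟩ := hno N (ϑ (N + 1)) (t0 (N + 1)) y Rt q (ϑ0 _)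
      (by rw [ϑs]; exact min_le_right _ _) (hup (N + 1)) q2 hq.2 (by linarith) y1 y4 hRt h1 h2
    obtain ⟨E0, hE0, hev⟩ := event_apx (q := q) (by omega) hq.2 y1 y4 hRt hε
    refine ⟨y, R, min D E0, y1, y4, lt_min hD hE0, fun _ _ => ⟨fun E h h' =>
      hdem E h (h'.trans (min_le_left _ _)), h3, fun N' hN P E hP h h' he f hf => ?_⟩⟩
    obtain rfl : N = N' := by omega
    exact hn (hev P E N hP h (h'.trans (min_le_right _ _)) he f hf)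
  choose Y R D hY1 hY4 hD hkey using key
  obtain ⟨P, q, E, r0, lev, hP, hq, hF, hEa, hE, hC, hev⟩ := arith (e := fun k => ϑ k / 1000)
    (fun a b h => by have := ϑa h; simp only; linarith) (fun k => by have := ϑ0 k; positivity)
    (fun k => by linarith [ϑ1 k]) Qmin D Y hD hY1 hY4
  have hk := fun k => hkey k (q k) (hq k).2 (hq k).1
  refine ⟨P, hP, ?_, fun N f => (hk (N + 1)).2.2 N rfl P (E (N + 1)) hP (hE _).1 (hE _).2
    (hev _ (by omega)) f⟩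
  obtain ⟨Kc, Ko, hfo⟩ := fib_out hP.q0_pos hP.q0_even ϑ0 ϑ1 ϑa
    (fun k => (hQ k (q k) (hq k).2).2.2.2) hF
  have hdem := fun k => (hk k).1 (E k) (hE k).1 (hE k).2
  obtain ⟨nu, c, w, hnu, hpart, hs⟩ := csmp (η := fun k => ϑ k / q k) (R := fun k => R k (q k))
    (ρm := fun k => 2 * ((q k : ℝ) ^ 2 / (ϑ k / 1000))) hP hC hEa hdem fun k => hY1 k (q k)
  have hout : ∀ i, ∃ (η : ℝ) (W : ℝ → ℝ) (ks : VV → VV → ℝ), 0 < η ∧ η ≤ 1 / 1000 ∧
      SmpOut P Kc η (Win nu c i) (gap r0 nu) (i = 0) W ks := by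
    intro i
    obtain ⟨k, a, b, cc, τa, τb, hsm, hrat, hz⟩ := hs i
    obtain ⟨e0, e1⟩ := hη k (q k) (hq k).2
    obtain ⟨W, K, hm⟩ := (hk k).2.1 (τa / τb) ((one_le_div hsm.pos).2 hsm.ge) hrat
    obtain ⟨k0, k1⟩ := kap_div (hQ k (q k) (hq k).2).1
    have hsd : SD P _ _ _ _ _ k (R k (q k)) _ (Win nu c i) (gap r0 nu) a b cc τa τb Kc Ko W K :=
      ⟨hP, hfo, hsm, hm, e0, e1, (hdem k).R_ge, by positivity, by positivity, by nlinarith⟩
    obtain ⟨W', ks, ho⟩ := hsd.out hz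
    exact ⟨_, W', ks, e0, e1, ho⟩
  choose η W ks h1 h2 h3 using hout
  exact GD.glob ⟨hC.r0_pos, hnu, hpart, h1, h2, hfo.psdc, hfo.fibc, hfo.Jc, h3⟩

theorem counter : ∃ Γ : Subgroup (VV ≃ᵢ VV), (∀ x : VV, IsClosed {y | ∃ g ∈ Γ, g x = y}) ∧
    ∀ (k : ℕ) (f : Orbits Γ → EuclideanSpace ℝ (Fin k)), c2 Γ < distortion f := by
  obtain ⟨P, hP, ⟨K, hK, hb⟩, hno⟩ := main_data
  refine ⟨P.Gam, P.closed hP, fun k f => ?_⟩
  have hl : (0 : ℝ) < l2 := by unfold l2; norm_num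
  have hs : 0 < √l2 := Real.sqrt_pos.2 hl
  have hc : c2 P.Gam ≤ ENNReal.ofReal (√l2)⁻¹ := by
    obtain ⟨H, i1, i2, i3, F, hF⟩ := hK.exists_map
    choose r hr using fun a : Orbits P.Gam => orb_surj a
    have e : ∀ a b, dist ((√l2)⁻¹ • F (r a)) ((√l2)⁻¹ • F (r b)) =
        (√l2)⁻¹ * ‖F (r a) - F (r b)‖ := fun a b => by
      rw [dist_eq_norm, ← smul_sub, norm_smul, Real.norm_of_nonneg (by positivity)]
    have e2 : ∀ a b, P.D2 (r a) (r b) = odist a b ^ 2 := fun a b => by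
      rw [Par.D2, ← hr, ← hr]
    refine (c2_le fun a => (√l2)⁻¹ • F (r a)).trans
      (distortion_le (by positivity) (fun a b => ?_) fun a b => ?_)
    · have h := (hb (r a) (r b)).1
      rw [nd_of_map hF, e2] at h
      rw [e, ← div_eq_inv_mul, le_div_iff₀ hs]
      refine (pow_le_pow_iff_left₀ (mul_nonneg (odist_nonneg _ _) hs.le) (norm_nonneg _)
        two_ne_zero).1 ?_
      rw [mul_pow, Real.sq_sqrt hl.le]
      linarith
    · have h := (hb (r a) (r b)).2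
      rw [nd_of_map hF, e2] at h
      rw [e]
      exact mul_le_mul_of_nonneg_left ((pow_le_pow_iff_left₀ (norm_nonneg _) (odist_nonneg _ _)
        two_ne_zero).1 h) (by positivity)
  by_contra hlt
  have hd : distortion f ≤ ENNReal.ofReal (√l2)⁻¹ := (not_lt.1 hlt).trans hc
  obtain ⟨A, B, hA, hB, hAB, h1, h2⟩ := bounds_of_distortion
    (ne_top_of_le_ne_top ENNReal.ofReal_ne_top hd)
  rw [hAB, ENNReal.ofReal_le_ofReal_iff (by positivity), ← one_div, le_div_iff₀ hs] at hd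
  refine hno k (fun X => A⁻¹ • f (orb P.Gam X)) fun X X' => ?_
  have e : ‖A⁻¹ • f (orb P.Gam X) - A⁻¹ • f (orb P.Gam X')‖ =
      A⁻¹ * dist (f (orb P.Gam X)) (f (orb P.Gam X')) := by
    rw [dist_eq_norm, ← smul_sub, norm_smul, Real.norm_of_nonneg (by positivity)]
  have h3 := h1 (orb P.Gam X) (orb P.Gam X')
  have h4 := h2 (orb P.Gam X) (orb P.Gam X')
  have h5 := odist_nonneg (orb P.Gam X) (orb P.Gam X')
  rw [e, Par.D2]
  generalize odist (orb P.Gam X) (orb P.Gam X') = d at *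
  have h6 : 0 ≤ dist (f (orb P.Gam X)) (f (orb P.Gam X')) := dist_nonneg
  generalize dist (f (orb P.Gam X)) (f (orb P.Gam X')) = u at *
  rcases hA.eq_or_lt with rfl | hA'
  · have : u = 0 := by linarith
    have : d = 0 := by subst this; linarith
    subst this
    simp
  constructor
  · have h7 : √l2 * d ≤ A⁻¹ * u := by
      rw [← div_eq_inv_mul, le_div_iff₀ hA']
      nlinarith [mul_le_mul_of_nonneg_left h3 (mul_pos hs hA').le, mul_le_mul_of_nonneg_right hd h6]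
    have h8 := pow_le_pow_left₀ (by positivity) h7 2
    rwa [mul_pow, Real.sq_sqrt hl.le] at h8
  · refine pow_le_pow_left₀ (by positivity) ?_ 2
    rw [← div_eq_inv_mul, div_le_iff₀ hA']
    linarith

end Pool.Agent.Work.MP_0ba68b_gt.CX
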