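import Pool.Agent.Work.MP_0ba68b_gt.CX.SmpD

/-!
The global kernel: definitions, invariance, and the global weight of the cone kernel.

PLAN.  `Wg X = √(∑' i, (w i r W i ρ)²)` is the Euclidean norm of a finitely supported vector.  `exists_set`: `s = {j, j+1, j', j'+1}` from
`Part.two` at `r`, `r'`.  `Wg_ne_one`: if all active `W i ρ = 1` then the sum is `1`; otherwise `Wtop` with `Win i r` (`nf` at `r' = r`; the far
alternative is impossible as `gap > 0`).  `Wg_near`: reverse triangle inequality in `EuclideanSpace ℝ s` (or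
`abs_sqrt_sub_sqrt`-type lemma: `(√∑ aᵢ² - √∑ bᵢ²)² ≤ ∑ (aᵢ - bᵢ)²` by Cauchy-Schwarz), through the middle point `(r, ρ')`:
first step `Wlip`; second step: zero if all `W i ρ' = 1` on indices active at `r` or `r'`, otherwise `Wtop` gives `10⁶ ρ'² ≤ gap (max r r')²`, and
`∑ (Δ w i)² gap² ≤ 4 · 25 Δr²` (`lip`).
`globK_psd`: `PSD.rankOne`, `PSD.weight`, `PSD.wsum`.  `globK_act`: norms are preserved; `fp_act`; if `vw X' = 0` then `w i 0 = 0` for `i ≠ 0` (`Part.zero`).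
-/

open scoped Quaternion
open Real

namespace Pool.Agent.Work.MP_0ba68b_gt.CX

noncomputable section

/-- The global weight of the cone kernel. -/
def Wg (w W : ℕ → ℝ → ℝ) (X : VV) : ℝ := √(∑' i, (w i ‖vw X‖ * W i ‖vx X‖) ^ 2)

/-- The global kernel. -/
def globK (Kc : FP → FP → ℝ) (w W : ℕ → ℝ → ℝ) (ks : ℕ → VV → VV → ℝ) (X X' : VV) : ℝ :=
  3 / 5 * (‖vw X‖ * ‖vw X'‖) + Kc (fp X) (fp X') + Wg w W X * Wg w W X' * kV X X' +
    ∑' i, w i ‖vw X‖ * w i ‖vw X'‖ * ks i X X'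

/-- The data of the global gluing. -/
structure GD (P : Par) (r0 : ℝ) (nu : ℝ → ℝ) (c : ℕ → ℝ) (w : ℕ → ℝ → ℝ) (η : ℕ → ℝ)
    (Kc : FP → FP → ℝ) (W : ℕ → ℝ → ℝ) (ks : ℕ → VV → VV → ℝ) : Prop where
  r0_pos : 0 < r0
  nu_pos : ∀ r, 0 < nu r
  part : Part r0 nu c w
  η_pos : ∀ i, 0 < η i
  η_le : ∀ i, η i ≤ 1 / 1000
  psdc : PSD Kc
  fibc : ∀ k n p p', Kc p (fib P.q0 P.θ k n p') = Kc p p'
  Jc : ∀ a p p', Kc p (fJ a p') = Kc p p'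
  out : ∀ i, SmpOut P Kc (η i) (Win nu c i) (gap r0 nu) (i = 0) (W i) (ks i)

/-- Pairs of radii that see the same windows. -/
def Near (nu : ℝ → ℝ) (c : ℕ → ℝ) (w : ℕ → ℝ → ℝ) (r r' : ℝ) : Prop :=
  ∀ i, w i r ≠ 0 ∨ w i r' ≠ 0 → Win nu c i r ∧ Win nu c i r'

variable {P : Par} {r0 : ℝ} {nu : ℝ → ℝ} {c : ℕ → ℝ} {w : ℕ → ℝ → ℝ} {η : ℕ → ℝ}
  {Kc : FP → FP → ℝ} {W : ℕ → ℝ → ℝ} {ks : ℕ → VV → VV → ℝ}

lemma GlobD_sum_eq {u f : ℕ → ℝ} {s t : Finset ℕ} (hs : ∀ i, i ∉ s → u i = 0)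
    (ht : ∀ i, i ∉ t → u i = 0) : ∑ i ∈ s, u i ^ 2 * f i = ∑ i ∈ t, u i ^ 2 * f i := by
  rw [← tsum_eq_sum (L := SummationFilter.unconditional ℕ) (s := s)
      (f := fun i => u i ^ 2 * f i) fun i hi => by rw [hs i hi]; ring,
    ← tsum_eq_sum (L := SummationFilter.unconditional ℕ) (s := t)
      (f := fun i => u i ^ 2 * f i) fun i hi => by rw [ht i hi]; ring]

lemma GlobD_sum_one (h : Part r0 nu c w) {r : ℝ} {s : Finset ℕ} (hs : ∀ i, i ∉ s → w i r = 0) :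
    ∑ i ∈ s, w i r ^ 2 = 1 := by
  classical
  obtain ⟨j, hj, e⟩ := h.two r
  have a : ∀ i, i ∉ ({j, j + 1} : Finset ℕ) → w i r = 0 := fun i hi => by
    simp only [Finset.mem_insert, Finset.mem_singleton, not_or] at hi
    exact hj i hi.1 hi.2
  have := GlobD_sum_eq (u := fun i => w i r) (f := fun _ => 1) hs a
  simp only [mul_one] at this
  rw [this, Finset.sum_pair (by omega), e]

lemma GlobD_rev (s : Finset ℕ) (a b : ℕ → ℝ) :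
    (√(∑ i ∈ s, a i ^ 2) - √(∑ i ∈ s, b i ^ 2)) ^ 2 ≤ ∑ i ∈ s, (a i - b i) ^ 2 := by
  have ha : 0 ≤ ∑ i ∈ s, a i ^ 2 := Finset.sum_nonneg fun i _ => sq_nonneg _
  have hb : 0 ≤ ∑ i ∈ s, b i ^ 2 := Finset.sum_nonneg fun i _ => sq_nonneg _
  have cs := Real.sum_mul_le_sqrt_mul_sqrt s a b
  have e : ∑ i ∈ s, (a i - b i) ^ 2 =
      ∑ i ∈ s, a i ^ 2 + ∑ i ∈ s, b i ^ 2 - 2 * ∑ i ∈ s, a i * b i := by
    rw [Finset.mul_sum, ← Finset.sum_add_distrib, ← Finset.sum_sub_distrib]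
    exact Finset.sum_congr rfl fun i _ => by ring
  rw [e, sub_sq, Real.sq_sqrt ha, Real.sq_sqrt hb]
  linarith

lemma Part.exists_set (h : Part r0 nu c w) (r r' : ℝ) : ∃ s : Finset ℕ, s.card ≤ 4 ∧
    (∀ i, i ∉ s → w i r = 0) ∧ (∀ i, i ∉ s → w i r' = 0) ∧ ∑ i ∈ s, w i r ^ 2 = 1 ∧
    ∑ i ∈ s, w i r' ^ 2 = 1 := by
  classical
  obtain ⟨j, hj, -⟩ := h.two r
  obtain ⟨j', hj', -⟩ := h.two r'
  have a : ∀ i, i ∉ ({j, j + 1, j', j' + 1} : Finset ℕ) → w i r = 0 := fun i hi => by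
    simp only [Finset.mem_insert, Finset.mem_singleton, not_or] at hi
    exact hj i hi.1 hi.2.1
  have b : ∀ i, i ∉ ({j, j + 1, j', j' + 1} : Finset ℕ) → w i r' = 0 := fun i hi => by
    simp only [Finset.mem_insert, Finset.mem_singleton, not_or] at hi
    exact hj' i hi.2.2.1 hi.2.2.2
  exact ⟨{j, j + 1, j', j' + 1}, Finset.card_le_four, a, b, GlobD_sum_one h a, GlobD_sum_one h b⟩

lemma Part.lip' (h : Part r0 nu c w) (hg : ∀ r, 0 ≤ gap r0 nu r) (i : ℕ) {r r' : ℝ} (hr : 0 ≤ r)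
    (hr' : 0 ≤ r') : (w i r - w i r') ^ 2 * gap r0 nu (max r r') ^ 2 ≤ 25 * (r - r') ^ 2 := by
  have key : ∀ a b : ℝ, 0 ≤ b → b ≤ a →
      (w i a - w i b) ^ 2 * gap r0 nu a ^ 2 ≤ 25 * (a - b) ^ 2 := fun a b hb hab => by
    have h1 := h.lip i a b hb hab
    have h2 := pow_le_pow_left₀ (mul_nonneg (abs_nonneg _) (hg a)) h1 2
    rw [mul_pow, sq_abs] at h2
    linarith
  rcases le_total r' r with e | e
  · rw [max_eq_left e]; exact key r r' hr' e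
  · rw [max_eq_right e]
    have := key r' r hr e
    nlinarith

lemma GD.gap_pos (h : GD P r0 nu c w η Kc W ks) (r : ℝ) : 0 < gap r0 nu r := by
  exact mul_pos (h.nu_pos _) (lt_max_of_lt_right h.r0_pos)

lemma GlobD_Wg_eq {X : VV} {s : Finset ℕ} (hs : ∀ i, i ∉ s → w i ‖vw X‖ = 0) :
    Wg w W X = √(∑ i ∈ s, (w i ‖vw X‖ * W i ‖vx X‖) ^ 2) := by
  unfold Wg
  rw [tsum_eq_sum (s := s) fun i hi => by rw [hs i hi]; ring]

lemma Wg_sq {X : VV} {s : Finset ℕ} (hs : ∀ i, i ∉ s → w i ‖vw X‖ = 0) :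
    Wg w W X ^ 2 = ∑ i ∈ s, w i ‖vw X‖ ^ 2 * W i ‖vx X‖ ^ 2 := by
  rw [GlobD_Wg_eq hs, Real.sq_sqrt (Finset.sum_nonneg fun i _ => sq_nonneg _)]
  exact Finset.sum_congr rfl fun i _ => mul_pow _ _ _

lemma Wg_nonneg (X : VV) : 0 ≤ Wg w W X := Real.sqrt_nonneg _

lemma GD.Wg_le_one (h : GD P r0 nu c w η Kc W ks) (X : VV) : Wg w W X ≤ 1 := by
  obtain ⟨s, -, hs, -, e, -⟩ := h.part.exists_set ‖vw X‖ ‖vw X‖
  have h1 : Wg w W X ^ 2 ≤ 1 := by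
    rw [Wg_sq hs, ← e]
    refine Finset.sum_le_sum fun i _ => mul_le_of_le_one_right (sq_nonneg _) ?_
    exact pow_le_one₀ ((h.out i).W0 _) ((h.out i).W1 _)
  nlinarith [Wg_nonneg (w := w) (W := W) X]

lemma GD.Wg_zero (h : GD P r0 nu c w η Kc W ks) {X : VV} (hX : ‖vx X‖ ≤ 1) : Wg w W X = 0 := by
  unfold Wg
  have : ∀ i, (w i ‖vw X‖ * W i ‖vx X‖) ^ 2 = 0 := fun i => by
    rw [(h.out i).Wbot _ hX]; ring
  simp only [this, tsum_zero, Real.sqrt_zero]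

lemma GlobD_sqrt_one {u f : ℕ → ℝ} {s : Finset ℕ} (e : ∑ i ∈ s, u i ^ 2 = 1)
    (hc : ∀ i, u i ≠ 0 → f i = 1) : √(∑ i ∈ s, (u i * f i) ^ 2) = 1 := by
  have : ∑ i ∈ s, (u i * f i) ^ 2 = ∑ i ∈ s, u i ^ 2 := by
    refine Finset.sum_congr rfl fun i _ => ?_
    by_cases h0 : u i = 0
    · rw [h0]; ring
    · rw [hc i h0, mul_one]
  rw [this, e, Real.sqrt_one]

lemma GD.Wg_ne_one (h : GD P r0 nu c w η Kc W ks) {X : VV} (hX : Wg w W X ≠ 1) :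
    10 ^ 6 * ‖vx X‖ ^ 2 ≤ gap r0 nu ‖vw X‖ ^ 2 := by
  obtain ⟨s, -, hs, -, e, -⟩ := h.part.exists_set ‖vw X‖ ‖vw X‖
  by_cases hc : ∀ i, w i ‖vw X‖ ≠ 0 → W i ‖vx X‖ = 1
  · exact absurd ((GlobD_Wg_eq hs).trans (GlobD_sqrt_one e hc)) hX
  · push Not at hc
    obtain ⟨i, hi, hW⟩ := hc
    rcases h.part.nf ‖vw X‖ ‖vw X‖ (norm_nonneg _) le_rfl with hn | hn
    · exact (h.out i).Wtop _ _ (norm_nonneg _) hW (hn i (Or.inl hi)).1
    · have := h.gap_pos ‖vw X‖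
      linarith [hn.2.1]

lemma GlobD_Wlip {V : ℝ → ℝ} {e : ℝ}
    (h : ∀ r r', 0 ≤ r' → r' ≤ r → |V r - V r'| * r' ≤ e / 1000 * (r - r')) {ρ ρ' : ℝ}
    (h0 : 0 ≤ ρ) (h0' : 0 ≤ ρ') :
    (V ρ - V ρ') ^ 2 * min ρ ρ' ^ 2 ≤ (e / 1000) ^ 2 * (ρ - ρ') ^ 2 := by
  have key : ∀ a b : ℝ, 0 ≤ b → b ≤ a →
      (V a - V b) ^ 2 * b ^ 2 ≤ (e / 1000) ^ 2 * (a - b) ^ 2 := fun a b hb hab => by
    have h2 := pow_le_pow_left₀ (mul_nonneg (abs_nonneg _) hb) (h a b hb hab) 2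
    rwa [mul_pow, mul_pow, sq_abs] at h2
  rcases le_total ρ' ρ with e | e
  · rw [min_eq_right e]; exact key _ _ h0' e
  · rw [min_eq_left e]
    have := key _ _ h0 e
    nlinarith

lemma GD.Wg_near (h : GD P r0 nu c w η Kc W ks) {X X' : VV} (hn : Near nu c w ‖vw X‖ ‖vw X'‖)
    {s : Finset ℕ} (hs : ∀ i, i ∉ s → w i ‖vw X‖ = 0) :
    (Wg w W X - Wg w W X') ^ 2 * min ‖vx X‖ ‖vx X'‖ ^ 2 ≤
      2 * ∑ i ∈ s, w i ‖vw X‖ ^ 2 * ((η i / 1000) ^ 2 * (‖vx X‖ - ‖vx X'‖) ^ 2) +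
        (‖vw X‖ - ‖vw X'‖) ^ 2 / 5000 := by
  obtain ⟨t, hcard, ht, ht', e, e'⟩ := h.part.exists_set ‖vw X‖ ‖vw X'‖
  rw [GlobD_Wg_eq ht, GlobD_Wg_eq ht', GlobD_sum_eq (u := fun i => w i ‖vw X‖) hs ht]
  set r := ‖vw X‖ with hr
  set r' := ‖vw X'‖ with hr'
  set ρ := ‖vx X‖ with hρ
  set ρ' := ‖vx X'‖ with hρ'
  have r_0 : 0 ≤ r := norm_nonneg _
  have r'_0 : 0 ≤ r' := norm_nonneg _
  have ρ0 : 0 ≤ ρ := norm_nonneg _
  have ρ'0 : 0 ≤ ρ' := norm_nonneg _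
  have m0 : 0 ≤ min ρ ρ' := le_min ρ0 ρ'0
  have s1 : (√(∑ i ∈ t, (w i r * W i ρ) ^ 2) - √(∑ i ∈ t, (w i r * W i ρ') ^ 2)) ^ 2 *
      min ρ ρ' ^ 2 ≤ ∑ i ∈ t, w i r ^ 2 * ((η i / 1000) ^ 2 * (ρ - ρ') ^ 2) := by
    refine (mul_le_mul_of_nonneg_right (GlobD_rev t _ _) (sq_nonneg _)).trans ?_
    rw [Finset.sum_mul]
    refine Finset.sum_le_sum fun i _ => ?_
    have := GlobD_Wlip (h.out i).Wlip ρ0 ρ'0
    calc (w i r * W i ρ - w i r * W i ρ') ^ 2 * min ρ ρ' ^ 2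
        = w i r ^ 2 * ((W i ρ - W i ρ') ^ 2 * min ρ ρ' ^ 2) := by ring
      _ ≤ _ := mul_le_mul_of_nonneg_left this (sq_nonneg _)
  have s2 : (√(∑ i ∈ t, (w i r * W i ρ') ^ 2) - √(∑ i ∈ t, (w i r' * W i ρ') ^ 2)) ^ 2 *
      min ρ ρ' ^ 2 ≤ (r - r') ^ 2 / 10000 := by
    by_cases hc : ∀ i, w i r ≠ 0 ∨ w i r' ≠ 0 → W i ρ' = 1
    · rw [GlobD_sqrt_one e fun i hi => hc i (Or.inl hi),
        GlobD_sqrt_one e' fun i hi => hc i (Or.inr hi), sub_self]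
      have : (0 : ℝ) ≤ (r - r') ^ 2 / 10000 := by positivity
      simpa using this
    · push Not at hc
      obtain ⟨j, hj, hW⟩ := hc
      have hw : Win nu c j (max r r') := by
        rcases le_total r' r with e | e
        · rw [max_eq_left e]; exact (hn j hj).1
        · rw [max_eq_right e]; exact (hn j hj).2
      have h1 := (h.out j).Wtop _ _ ρ'0 hW hw
      have h2 : min ρ ρ' ^ 2 ≤ gap r0 nu (max r r') ^ 2 / 10 ^ 6 := by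
        have := pow_le_pow_left₀ m0 (min_le_right ρ ρ') 2
        linarith
      refine (mul_le_mul (GlobD_rev t _ _) h2 (sq_nonneg _)
        (Finset.sum_nonneg fun i _ => sq_nonneg _)).trans ?_
      rw [Finset.sum_mul]
      have h3 : ∀ i ∈ t, (w i r * W i ρ' - w i r' * W i ρ') ^ 2 *
          (gap r0 nu (max r r') ^ 2 / 10 ^ 6) ≤ 25 * (r - r') ^ 2 / 10 ^ 6 := fun i _ => by
        have a1 := h.part.lip' (fun r => (h.gap_pos r).le) i r_0 r'_0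
        have a2 : W i ρ' ^ 2 ≤ 1 := pow_le_one₀ ((h.out i).W0 _) ((h.out i).W1 _)
        have a3 := mul_le_of_le_one_right
          (mul_nonneg (sq_nonneg (w i r - w i r')) (sq_nonneg (gap r0 nu (max r r')))) a2
        calc _ = (w i r - w i r') ^ 2 * gap r0 nu (max r r') ^ 2 * W i ρ' ^ 2 / 10 ^ 6 := by ring
          _ ≤ _ := by linarith
      refine (Finset.sum_le_card_nsmul t _ _ h3).trans ?_
      rw [nsmul_eq_mul]
      have h4 : (t.card : ℝ) ≤ 4 := by exact_mod_cast hcard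
      nlinarith only [h4, sq_nonneg (r - r')]
  set A := √(∑ i ∈ t, (w i r * W i ρ) ^ 2)
  set M := √(∑ i ∈ t, (w i r * W i ρ') ^ 2)
  set B := √(∑ i ∈ t, (w i r' * W i ρ') ^ 2)
  have s3 : (A - B) ^ 2 ≤ 2 * (A - M) ^ 2 + 2 * (M - B) ^ 2 := by
    nlinarith only [sq_nonneg (A - M - (M - B))]
  have s4 := mul_le_mul_of_nonneg_right s3 (sq_nonneg (min ρ ρ'))
  linarith

lemma GD.ks_err (h : GD P r0 nu c w η Kc W ks) {X X' : VV} (hn : Near nu c w ‖vw X‖ ‖vw X'‖)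
    (i : ℕ) : (w i ‖vw X‖ - w i ‖vw X'‖) ^ 2 * ks i X' X' ≤
      25 / 10 ^ 6 * η i * (‖vw X‖ - ‖vw X'‖) ^ 2 := by
  by_cases hc : w i ‖vw X‖ ≠ 0 ∨ w i ‖vw X'‖ ≠ 0
  · have hw : Win nu c i (max ‖vw X‖ ‖vw X'‖) := by
      rcases le_total ‖vw X'‖ ‖vw X‖ with e | e
      · rw [max_eq_left e]; exact (hn i hc).1
      · rw [max_eq_right e]; exact (hn i hc).2
    have h1 := (h.out i).diag X' _ (hn i hc).2 hw
    have h2 := h.part.lip' (fun r => (h.gap_pos r).le) i (norm_nonneg (vw X)) (norm_nonneg (vw X'))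
    have h3 := mul_le_mul_of_nonneg_left h1 (sq_nonneg (w i ‖vw X‖ - w i ‖vw X'‖))
    have h4 := mul_le_mul_of_nonneg_left h2 (h.η_pos i).le
    nlinarith
  · push Not at hc
    rw [hc.1, hc.2, sub_self]
    have := h.η_pos i
    have : 0 ≤ 25 / 10 ^ 6 * η i * (‖vw X‖ - ‖vw X'‖) ^ 2 := by positivity
    simpa using this

lemma GD.globK_psd (h : GD P r0 nu c w η Kc W ks) : PSD (globK Kc w W ks) := by
  have h1 := (PSD.rankOne fun X : VV => ‖vw X‖).smul (a := 3 / 5) (by norm_num)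
  have h2 := h.psdc.comp fp
  have h3 := kV_psd.weight (Wg w W)
  have h4 := PSD.wsum (fun i => (h.out i).psd) (fun i X => w i ‖vw X‖) fun X => by
    obtain ⟨j, hj, -⟩ := h.part.two ‖vw X‖
    exact ⟨j + 2, fun i hi => hj i (by omega) (by omega)⟩
  exact (((h1.add h2).add h3).add h4).congr fun _ _ => rfl

lemma GD.globK_act (h : GD P r0 nu c w η Kc W ks) (k n : ℤ) (v : Z3) (X X' : VV) :
    globK Kc w W ks X (P.act k n v X') = globK Kc w W ks X X' := by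
  have e1 : ‖vw (P.act k n v X')‖ = ‖vw X'‖ := by
    simp only [Par.act, vw_mk, norm_mul, Complex.norm_exp_ofReal_mul_I, one_mul]
  have e2 : ‖vx (P.act k n v X')‖ = ‖vx X'‖ := by
    simp only [Par.act, vx_mk, norm_mul, S3.norm, one_mul]
  have e3 : Wg w W (P.act k n v X') = Wg w W X' := by
    simp only [Wg, e1, e2]
  unfold globK
  rw [e1, e3, fp_act, h.fibc, h.Jc, kV_act]
  congr 1
  refine tsum_congr fun i => ?_
  by_cases hc : vw X' ≠ 0 ∨ i = 0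
  · rw [(h.out i).inv k n v X X' hc]
  · push Not at hc
    rw [hc.1, norm_zero, h.part.zero 0 h.r0_pos.le i hc.2]
    ring

lemma nd_globK {X X' : VV} {s : Finset ℕ} (hs : ∀ i, i ∉ s → w i ‖vw X‖ = 0)
    (hs' : ∀ i, i ∉ s → w i ‖vw X'‖ = 0) : nd (globK Kc w W ks) X X' =
      3 / 5 * (‖vw X‖ - ‖vw X'‖) ^ 2 + nd Kc (fp X) (fp X') +
        nd (fun X X' => Wg w W X * Wg w W X' * kV X X') X X' +
        ∑ i ∈ s, nd (fun X X' => w i ‖vw X‖ * w i ‖vw X'‖ * ks i X X') X X' := by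
  rw [← nd_wsum (w := fun i X => w i ‖vw X‖) (K := ks) hs hs']
  simp only [nd, globK]
  ring

end

end Pool.Agent.Work.MP_0ba68b_gt.CX
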