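import Pool.Agent.Work.MP_0ba68b_gt.CX.Base1

/-!
The rotating kernel.

PLAN.  Write `a = π Δ₁`, `b = π Δ₂`, `E = (cos 2a + cos 2b) / (4π²) + 1 / (2π²)`,
`O = u cos a cos b / π²`; both have diagonal `1 / π²`.  With `NE = 2/π² - 2E = (sin² a + sin² b)/π²`,
`NO = 2/π² - 2O`, `d = θ - θ'`, `m = (θ + θ') / 2`:
`nd = (y² - 1) sin² a / π² + (2/π²)(1 - cos d) + cos θ cos θ' NE + sin θ sin θ' NO`,
`cos θ cos θ' = cos² m - sin² (d/2)`, `sin θ sin θ' = sin² m - sin² (d/2)`, `NE + NO ≤ 4/π²`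
(as `cos² a + cos² b + 2 u cos a cos b ≥ 0`).
PSD: `PSD.cos`, `PSD.mul_cos`, `PSD.mul_uu`, `PSD.weight`.  Twist: `cos (π (Δ - m)) = (-1)^m cos (π Δ)`
(`Real.cos_sub_int_mul_pi`), `uu_jj`, `jj_zpow_even`, `jj_zpow_odd`.
`sin_sq_clamp`: if both `≤ π/2` equality; if `φ = π/2 - g ≤ π/2 ≤ φ' = π/2 + g'` use
`cos² m`-form: `sin² (g/2) - sin² ((g - g')₊/2) ≤ (g + g')²/12`, from
`sin² s - sin² t = sin (s+t) sin (s-t) ≤ s² - t²`.
-/

open Real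

namespace Pool.Agent.Work.MP_0ba68b_gt.CX

noncomputable section

variable {I : Set ℝ} {y : ℝ} {θ : ℝ → ℝ}

lemma Rot_uu (n : ℤ) (x x' : S3) : uu x (jj ^ n * x') = (-1) ^ n * uu x x' := by
  rcases Int.even_or_odd n with h | h
  · obtain ⟨φ, e, -⟩ := jj_zpow_even h
    rw [e, uu_ec, h.neg_one_zpow, one_mul]
  · obtain ⟨φ, e, -⟩ := jj_zpow_odd h
    rw [e, mul_assoc, uu_ec, uu_jj, h.neg_one_zpow, neg_one_mul]

lemma Rot_cos2 (a b : ℝ) (n : ℤ) : cos (2 * π * (a - (b + n))) = cos (2 * π * (a - b)) := by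
  rw [← cos_sub_int_mul_two_pi (2 * π * (a - b)) n]
  congr 1
  ring

lemma Rot_cos1 (a b : ℝ) (n : ℤ) : cos (π * (a - (b + n))) = (-1) ^ n * cos (π * (a - b)) := by
  rw [← cos_sub_int_mul_pi (π * (a - b)) n]
  congr 1
  ring

lemma Rot_coef {A B u : ℝ} (hu : |u| ≤ 1) : 0 ≤ A ^ 2 + B ^ 2 - 2 * u * A * B := by
  obtain ⟨h1, h2⟩ := abs_le.1 hu
  nlinarith [mul_nonneg (neg_le_iff_add_nonneg.1 h1) (sq_nonneg (A - B)),
    mul_nonneg (sub_nonneg.2 h2) (sq_nonneg (A + B))]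

lemma krot_base (hy : 1 ≤ y) (θ : ℝ → ℝ) : BaseK (krot y θ : Pt I → Pt I → ℝ) := by
  have h0 : 0 ≤ (y ^ 2 - 1) / (4 * π ^ 2) := div_nonneg (by nlinarith) (by positivity)
  have h1 := PSD.cos fun p : Pt I => 2 * π * p.1.2.1
  have h2 := PSD.cos fun p : Pt I => 2 * π * p.1.2.2
  have h3 := (((h1.add h2).smul (a := 1 / (4 * π ^ 2)) (by positivity)).add
    (PSD.const (a := 1 / (2 * π ^ 2)) (by positivity))).weight fun p => cos (θ (rho p.1))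
  have h4 := (((((PSD.cos fun p : Pt I => π * p.1.2.1).mul_cos fun p => π * p.1.2.2).mul_uu
    fun p => p.2).smul (a := 1 / π ^ 2) (by positivity))).weight fun p => sin (θ (rho p.1))
  refine ⟨⟨(((h1.smul h0).add h3).add h4).congr fun p p' => ?_, fun a a' x x' g => ?_,
    fun p a' x' φ => ?_⟩, fun m p p' => ?_⟩
  · simp only [krot, mul_sub]
    ring
  · simp only [krot, uu_mul_right]
  · simp only [krot, uu_ec]
  · have e : ((-1 : ℝ) ^ (m.1 + m.2)) * (-1) ^ m.1 * (-1) ^ m.2 = 1 := by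
      rw [mul_assoc, ← zpow_add₀ (by norm_num), ← mul_zpow]
      simp
    unfold krot
    rw [rho_gam]
    simp only [gam, shift, Rot_uu, Rot_cos2, Rot_cos1]
    congr 3
    linear_combination (uu p.2 p'.2 * cos (π * (p.1.2.1 - p'.1.2.1)) *
      cos (π * (p.1.2.2 - p'.1.2.2))) * e

lemma krot_diag (y : ℝ) (θ : ℝ → ℝ) (p : Pt I) :
    krot y θ p p = (y ^ 2 - 1) / (4 * π ^ 2) + 1 / π ^ 2 := by
  simp only [krot, sub_self, mul_zero, cos_zero, uu_self]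
  have h := sin_sq_add_cos_sq (θ (rho p.1))
  linear_combination (1 / π ^ 2) * h

lemma Rot_nd (y : ℝ) (θ : ℝ → ℝ) (p p' : Pt I) : nd (krot y θ) p p' =
    ((y ^ 2 - 1) * sin (π * (p.1.2.1 - p'.1.2.1)) ^ 2 + 2 -
      cos (θ (rho p.1)) * cos (θ (rho p'.1)) *
        (2 - sin (π * (p.1.2.1 - p'.1.2.1)) ^ 2 - sin (π * (p.1.2.2 - p'.1.2.2)) ^ 2) -
      sin (θ (rho p.1)) * sin (θ (rho p'.1)) * (2 * uu p.2 p'.2 * cos (π * (p.1.2.1 - p'.1.2.1)) *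
        cos (π * (p.1.2.2 - p'.1.2.2)))) / π ^ 2 := by
  rw [nd, krot_diag, krot_diag, krot, mul_assoc 2 π, mul_assoc 2 π, cos_two_mul, cos_two_mul,
    sin_sq, sin_sq]
  ring

lemma Rot_prod (s t : ℝ) : cos s * cos t = 1 - sin ((s + t) / 2) ^ 2 - sin ((s - t) / 2) ^ 2 ∧
    sin s * sin t = sin ((s + t) / 2) ^ 2 - sin ((s - t) / 2) ^ 2 := by
  have h1 := cos_two_mul ((s + t) / 2)
  have h2 := cos_two_mul ((s - t) / 2)
  rw [mul_div_cancel₀ _ two_ne_zero, cos_add] at h1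
  rw [mul_div_cancel₀ _ two_ne_zero, cos_sub] at h2
  rw [sin_sq, sin_sq]
  constructor <;> linarith

lemma krot_low (y : ℝ) (θ : ℝ → ℝ) (p p' : Pt I) :
    ntor y (sin ((θ (rho p.1) + θ (rho p'.1)) / 2) ^ 2) (π * (p.1.2.1 - p'.1.2.1))
      (π * (p.1.2.2 - p'.1.2.2)) (uu p.2 p'.2) ≤ nd (krot y θ) p p' := by
  obtain ⟨h1, h2⟩ := Rot_prod (θ (rho p.1)) (θ (rho p'.1))
  rw [Rot_nd, ntor, h1, h2, sin_sq (π * _), sin_sq (π * _)]
  refine div_le_div_of_nonneg_right ?_ (by positivity)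
  have hu : |-uu p.2 p'.2| ≤ 1 := abs_le.2 ⟨neg_le_neg (uu_le _ _), neg_le.1 (neg_one_le_uu _ _)⟩
  have h3 := mul_nonneg (sq_nonneg (sin ((θ (rho p.1) - θ (rho p'.1)) / 2)))
    (Rot_coef (A := cos (π * (p.1.2.1 - p'.1.2.1))) (B := cos (π * (p.1.2.2 - p'.1.2.2))) hu)
  linarith

lemma Rot_up {y s t a b : ℝ} (hy : 1 ≤ y) (hs : s ∈ Set.Icc 0 (π / 2)) (ht : t ∈ Set.Icc 0 (π / 2)) :
    (y ^ 2 - 1) * sin a ^ 2 + 2 - cos s * cos t * (2 - sin a ^ 2 - sin b ^ 2) -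
      sin s * sin t * (2 * 1 * cos a * cos b) ≤ (s - t) ^ 2 + (y ^ 2 * a ^ 2 + b ^ 2) := by
  have hc : ∀ r ∈ Set.Icc 0 (π / 2), 0 ≤ cos r := fun r hr =>
    cos_nonneg_of_neg_pi_div_two_le_of_le (by linarith [hr.1, pi_pos]) hr.2
  have hs' : ∀ r ∈ Set.Icc 0 (π / 2), 0 ≤ sin r := fun r hr =>
    sin_nonneg_of_nonneg_of_le_pi hr.1 (by linarith [hr.2, pi_pos])
  have c0 := mul_nonneg (hc s hs) (hc t ht)
  have s0 := mul_nonneg (hs' s hs) (hs' t ht)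
  have d1 := cos_le_one (s - t)
  have d2 := one_sub_sq_div_two_le_cos (x := s - t)
  have e1 := one_sub_sq_div_two_le_cos (x := a - b)
  have e2 := one_sub_sq_div_two_le_cos (x := a + b)
  rw [cos_sub] at d1 d2 e1
  rw [cos_add] at e2
  have a1 : sin a ^ 2 ≤ a ^ 2 := sin_sq_le_sq
  have b1 : sin b ^ 2 ≤ b ^ 2 := sin_sq_le_sq
  have f1 := mul_le_mul_of_nonneg_left a1 (by nlinarith only [hy] : 0 ≤ y ^ 2 - 1)
  have f2 := mul_le_mul_of_nonneg_left (add_le_add a1 b1) c0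
  have f3 := mul_le_mul_of_nonneg_left (by linarith : 2 - 2 * cos a * cos b ≤ a ^ 2 + b ^ 2) s0
  have f4 := mul_le_mul_of_nonneg_right d1 (by positivity : 0 ≤ a ^ 2 + b ^ 2)
  linarith

lemma krot_up0 (hy : 1 ≤ y) (hθ : ∀ r, θ r ∈ Set.Icc 0 (π / 2)) (a a' : Ax I) (x : S3) :
    nd (krot y θ) (a, x) (a', x) ≤ (θ (rho a) - θ (rho a')) ^ 2 / π ^ 2 + sg y a a' := by
  rw [Rot_nd, uu_self]
  refine (div_le_div_of_nonneg_right (Rot_up hy (hθ _) (hθ _)) (by positivity)).trans (le_of_eq ?_)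
  unfold sg
  field_simp

lemma krot_upj (y : ℝ) (θ : ℝ → ℝ) (a : Ax I) (x x' : S3) :
    nd (krot y θ) (a, x) (a, x') = 2 * sin (θ (rho a)) ^ 2 * (1 - uu x x') / π ^ 2 := by
  rw [Rot_nd]
  simp only [sub_self, mul_zero, cos_zero, sin_zero]
  congr 1
  linear_combination (-2) * sin_sq_add_cos_sq (θ (rho a))

lemma ntor_coef {a b u : ℝ} (hu : |u| ≤ 1) :
    0 ≤ cos a ^ 2 + cos b ^ 2 - 2 * u * cos a * cos b ∧
      cos a ^ 2 + cos b ^ 2 - 2 * u * cos a * cos b ≤ 4 := by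
  refine ⟨Rot_coef hu, ?_⟩
  have h := Rot_coef (A := cos a) (B := cos b) (u := -u) (by rwa [abs_neg])
  linarith [cos_sq_le_one a, cos_sq_le_one b]

lemma ntor_mono (y a b : ℝ) {u S S' d : ℝ} (hu : |u| ≤ 1) (hd : 0 ≤ d) (h : S' - d ≤ S) :
    ntor y S' a b u - 4 * d / π ^ 2 ≤ ntor y S a b u := by
  obtain ⟨h1, h2⟩ := ntor_coef (a := a) (b := b) hu
  rw [ntor, ntor, ← sub_div]
  refine div_le_div_of_nonneg_right ?_ (by positivity)
  have h3 := mul_le_mul_of_nonneg_right h h1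
  have h4 := mul_le_mul_of_nonneg_left h2 hd
  linarith

lemma ntor_abs (y S a b u : ℝ) : ntor y S |a| |b| u = ntor y S a b u := by
  simp only [ntor, sin_sq, cos_abs]

lemma Rot_sq {α β : ℝ} (h1 : β ≤ α) (h2 : α ≤ π / 2) :
    sin α ^ 2 - sin β ^ 2 ≤ (π - (α + β)) * (α - β) := by
  have e : sin α ^ 2 - sin β ^ 2 = sin (π - (α + β)) * sin (α - β) := by
    rw [sin_pi_sub, sin_add, sin_sub]
    linear_combination (sin β ^ 2) * sin_sq_add_cos_sq α - (sin α ^ 2) * sin_sq_add_cos_sq β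
  rw [e]
  refine (le_abs_self _).trans ?_
  have h3 : 0 ≤ π - (α + β) := by linarith
  rw [abs_mul]
  exact mul_le_mul (abs_sin_le_abs.trans (abs_of_nonneg h3).le)
    (abs_sin_le_abs.trans (abs_of_nonneg (sub_nonneg.2 h1)).le) (abs_nonneg _) h3

lemma Rot_clamp {φ φ' : ℝ} (h0 : φ ≤ π / 2) (h1 : π / 2 ≤ φ') :
    sin (min ((φ + φ') / 2) (π / 2)) ^ 2 - (φ - φ') ^ 2 / 12 ≤ sin ((φ + π / 2) / 2) ^ 2 := by
  rcases le_total ((φ + φ') / 2) (π / 2) with h | h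
  · rw [min_eq_left h]
    have := Rot_sq (β := (φ + π / 2) / 2) (by linarith) h
    nlinarith [sq_nonneg (π / 2 - φ - 2 * (φ' - π / 2))]
  · rw [min_eq_right h]
    have := Rot_sq (β := (φ + π / 2) / 2) (by linarith) le_rfl
    have h2 : 0 ≤ π / 2 - φ := by linarith
    have h3 : 2 * (π / 2 - φ) ≤ φ' - φ := by linarith
    have h4 := pow_le_pow_left₀ (by linarith) h3 2
    nlinarith [sq_nonneg (π / 2 - φ)]

lemma sin_sq_clamp {φ φ' : ℝ} (h0 : 0 ≤ φ) (h1 : 0 ≤ φ') :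
    sin (min ((φ + φ') / 2) (π / 2)) ^ 2 - (φ - φ') ^ 2 / 12 ≤
      sin ((min φ (π / 2) + min φ' (π / 2)) / 2) ^ 2 := by
  have hq : 0 ≤ (φ - φ') ^ 2 / 12 := by positivity
  rcases le_total φ (π / 2) with h | h <;> rcases le_total φ' (π / 2) with h' | h'
  · rw [min_eq_left h, min_eq_left h', min_eq_left (by linarith)]
    linarith
  · rw [min_eq_left h, min_eq_right h']
    exact Rot_clamp h h'
  · have := Rot_clamp h' h
    rw [min_eq_right h, min_eq_left h', add_comm φ, add_comm (π / 2), ← neg_sub φ' φ, neg_sq]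
    exact this
  · rw [min_eq_right h, min_eq_right h', min_eq_right (by linarith), add_halves]
    linarith

/-- Reduction to the fundamental cell, and the two neighbouring odd representatives. -/
lemma exists_cell (p p' : Pt I) : ∃ m : ℤ × ℤ, |p.1.2.1 - (gam m p').1.2.1| ≤ 1 / 2 ∧
    |p.1.2.2 - (gam m p').1.2.2| ≤ 1 / 2 := by
  refine ⟨(round (p.1.2.1 - p'.1.2.1), round (p.1.2.2 - p'.1.2.2)), ?_, ?_⟩ <;>
  · simp only [gam, shift]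
    rw [← sub_sub]
    exact abs_sub_round _

lemma Rot_odd (a b : ℝ) : ∃ n : ℤ, Odd n ∧ (a - (b + n)) ^ 2 = (1 - |a - b|) ^ 2 := by
  rcases le_total 0 (a - b) with h | h
  · exact ⟨1, odd_one, by rw [abs_of_nonneg h]; push_cast; ring⟩
  · exact ⟨-1, odd_neg_one, by rw [abs_of_nonpos h]; push_cast; ring⟩

lemma exists_odd1 (y : ℝ) (p p' : Pt I) (h : |p.1.2.1 - p'.1.2.1| ≤ 1 / 2) : ∃ m : ℤ × ℤ,
    rep y p (gam m p') = (rho p.1 - rho p'.1) ^ 2 + y ^ 2 * (1 - |p.1.2.1 - p'.1.2.1|) ^ 2 +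
      (p.1.2.2 - p'.1.2.2) ^ 2 + ang (rho p.1) (rho p'.1) p.2 (jj * p'.2) := by
  obtain ⟨n, hn, e⟩ := Rot_odd p.1.2.1 p'.1.2.1
  refine ⟨(n, 0), ?_⟩
  rw [rep, Dsq, angP, rho_gam]
  simp only [sg, gam, shift, add_zero, Int.cast_zero, e, ang_zpow_odd hn, add_assoc]

lemma exists_odd2 (y : ℝ) (p p' : Pt I) (h : |p.1.2.2 - p'.1.2.2| ≤ 1 / 2) : ∃ m : ℤ × ℤ,
    rep y p (gam m p') = (rho p.1 - rho p'.1) ^ 2 + y ^ 2 * (p.1.2.1 - p'.1.2.1) ^ 2 +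
      (1 - |p.1.2.2 - p'.1.2.2|) ^ 2 + ang (rho p.1) (rho p'.1) p.2 (jj * p'.2) := by
  obtain ⟨n, hn, e⟩ := Rot_odd p.1.2.2 p'.1.2.2
  refine ⟨(0, n), ?_⟩
  rw [rep, Dsq, angP, rho_gam]
  simp only [sg, gam, shift, add_zero, zero_add, Int.cast_zero, e, ang_zpow_odd hn, add_assoc]

end

end Pool.Agent.Work.MP_0ba68b_gt.CX
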