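import Pool.Agent.Work.MP_0ba68b_gt.CX.Base2
import Pool.Agent.Work.MP_0ba68b_gt.CX.Rot

/-!
The torus map at a small radius, and the inner cone kernel.

PLAN.  `torT`: `AdmL.avg` (with `hlo`) gives a translation invariant `K'`; Gram map `F₀` (`PSD.exists_map`);
`T₀ ξ = (1/2) • (F₀ ((r0, ξ), 1) + F₀ ((r0, ξ), jj))`, `T = T₀ - T₀ 0`, `F = F₀ - T₀ 0`.  Vector identities from
`nd = 0`: `F (a, ec φ * x) = F (a,x)`, `F (gam m p) = F p`.  Periodicity of `T`: `F ((r0, ξ + m), j^k x) = F ((r0, ξ), x)`;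
for odd `k` the two summands are exchanged (`jj_zpow_odd`, `jj_mul_jj`).  Upper bound: convexity and `up0`.
`‖F (a,x) - T ξ‖`: triangle inequality, `up0` and `AdmL.nd_cos` (`hopf`), `b ≤ 1`, `t ≤ π/2`.
Lower bound: `N Δ = ‖T (ξ + Δ) - T ξ‖²` does not depend on `ξ`, so `√N (k Δ) ≤ k √N Δ`.  For `Δ'` in the cell
`|Δ'ᵢ| ≤ 1/2` the pair `((r0, ξ), x), ((r0, ξ + Δ'), x)` is minimal (`ang ≥ 0`, `(Δ - m)² ≥ Δ²`), so with `u`, `v` the two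
differences, `‖(u+v)/2‖² = (‖u‖² + ‖v‖²)/2 - ‖u - v‖²/4 ≥ lam sg Δ' - (π/2)² r0²`.  For `Δ ≠ 0` in the cell take
`k = ⌊1/(2 max |Δᵢ|)⌋ ≥ 1`: `k Δ` is in the cell, `sg (k Δ) ≥ 1/16`, `16 π²/4 ≤ 40`.
`kin`: `PSD.mul_uu`, `PSD.mul_cos`, `PSD.weight`; twist as in `krot_base`;
`nd = 97/100 Δρ² + 12/25 ρ ρ' (1 - u cos θ)`, `1 - u cos θ = (1 - u) + (1 - cos θ) - (1 - u)(1 - cos θ)`,
`1 - u cos θ ≥ (1 - u) - (1 - cos θ)`, `2 (1 - c) ≤ 1 - u ≤ 4 (1 - c)`, `1 - cos θ ≤ θ²/2 ≤ π² sg`.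
-/

open scoped RealInnerProductSpace
open Real

namespace Pool.Agent.Work.MP_0ba68b_gt.CX

noncomputable section

lemma TorT_int (d : ℝ) (hd : |d| ≤ 1 / 2) (m : ℤ) : d ^ 2 ≤ (d - m) ^ 2 := by
  rw [abs_le] at hd
  rcases lt_trichotomy m 0 with h | h | h
  · have : (m : ℝ) ≤ -1 := by exact_mod_cast Int.le_sub_one_of_lt h
    linarith only [hd, this, mul_nonneg_of_nonpos_of_nonpos (Mathlib.Tactic.Linarith.sub_nonpos_of_le hd.left) (Mathlib.Tactic.Linarith.sub_nonpos_of_le this), mul_nonneg_of_nonpos_of_nonpos (Mathlib.Tactic.Linarith.sub_nonpos_of_le this) (Mathlib.Tactic.Linarith.sub_nonpos_of_le this)]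
  · simp [h]
  · have : (1 : ℝ) ≤ m := by exact_mod_cast h
    linarith only [hd, this, mul_nonneg_of_nonpos_of_nonpos (Mathlib.Tactic.Linarith.sub_nonpos_of_le hd.right) (Mathlib.Tactic.Linarith.sub_nonpos_of_le this), mul_nonneg_of_nonpos_of_nonpos (Mathlib.Tactic.Linarith.sub_nonpos_of_le this) (Mathlib.Tactic.Linarith.sub_nonpos_of_le this)]

lemma TorT_min {I : Set ℝ} (y : ℝ) (r0 : I) (hr0 : 0 ≤ (r0 : ℝ)) (ξ ξ' : ℝ × ℝ)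
    (h1 : |ξ.1 - ξ'.1| ≤ 1 / 2) (h2 : |ξ.2 - ξ'.2| ≤ 1 / 2) (x : S3) :
    Minimal y (((r0, ξ), x) : Pt I) ((r0, ξ'), x) := by
  intro m
  have a1 := TorT_int _ h1 m.1
  have a2 := TorT_int _ h2 m.2
  have a3 := ang_nonneg hr0 hr0 x (jj ^ (m.1 + m.2) * x)
  have a4 := mul_le_mul_of_nonneg_left a1 (sq_nonneg y)
  simp only [rep, Dsq, sg, angP, gam, shift, rho, ang_self]
  rw [show ξ.1 - (ξ'.1 + m.1) = ξ.1 - ξ'.1 - m.1 by ring,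
    show ξ.2 - (ξ'.2 + m.2) = ξ.2 - ξ'.2 - m.2 by ring]
  linarith only [a2, a3, a4]

lemma TorT_mid {H : Type} [NormedAddCommGroup H] [InnerProductSpace ℝ H] (u v : H) :
    ‖(1 / 2 : ℝ) • (u + v)‖ ^ 2 = (‖u‖ ^ 2 + ‖v‖ ^ 2) / 2 - ‖u - v‖ ^ 2 / 4 := by
  rw [norm_smul, mul_pow, norm_add_sq_real, norm_sub_sq_real]
  norm_num
  ring

lemma TorT_k (d1 d2 : ℝ) (h1 : |d1| ≤ 1 / 2) (h2 : |d2| ≤ 1 / 2) (hne : d1 ≠ 0 ∨ d2 ≠ 0) :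
    ∃ k : ℕ, 1 ≤ k ∧ |k * d1| ≤ 1 / 2 ∧ |k * d2| ≤ 1 / 2 ∧
      1 / 16 ≤ (k * d1) ^ 2 + (k * d2) ^ 2 := by
  set M := max |d1| |d2| with hM
  have hM0 : 0 < M := by
    rcases hne with h | h
    · exact lt_max_of_lt_left (abs_pos.2 h)
    · exact lt_max_of_lt_right (abs_pos.2 h)
  have hM1 : M ≤ 1 / 2 := max_le h1 h2
  have hk1 : 1 ≤ ⌊1 / (2 * M)⌋₊ := by
    rw [Nat.one_le_floor_iff, le_div_iff₀ (by positivity)]
    linarith only [hM1]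
  have hk2 : (⌊1 / (2 * M)⌋₊ : ℝ) ≤ 1 / (2 * M) := Nat.floor_le (by positivity)
  have hk3 : 1 / (2 * M) < (⌊1 / (2 * M)⌋₊ : ℝ) + 1 := Nat.lt_floor_add_one _
  set k := ⌊1 / (2 * M)⌋₊
  have hk1' : (1 : ℝ) ≤ k := by exact_mod_cast hk1
  rw [le_div_iff₀ (by positivity)] at hk2
  rw [div_lt_iff₀ (by positivity)] at hk3
  have hk0 : (0 : ℝ) ≤ k := by positivity
  have hl : 1 / 4 ≤ k * M := by nlinarith only [hk1', hk3]
  refine ⟨k, hk1, ?_, ?_, ?_⟩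
  · rw [abs_mul, abs_of_nonneg hk0]
    have := mul_le_mul_of_nonneg_left (le_max_left |d1| |d2|) hk0
    linarith only [hk2, this]
  · rw [abs_mul, abs_of_nonneg hk0]
    have := mul_le_mul_of_nonneg_left (le_max_right |d1| |d2|) hk0
    linarith only [hk2, this]
  · have e1 : (k * d1) ^ 2 = (k * |d1|) ^ 2 := by rw [mul_pow, mul_pow, sq_abs]
    have e2 : (k * d2) ^ 2 = (k * |d2|) ^ 2 := by rw [mul_pow, mul_pow, sq_abs]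
    rw [e1, e2]
    rcases max_choice |d1| |d2| with h | h
    · rw [hM, h] at hl
      nlinarith only [hk3, h, hM0, hk1', hl, sq_nonneg (k * |d2|)]
    · rw [hM, h] at hl
      nlinarith only [hk3, h, hM0, hk1', hl, sq_nonneg (k * |d1|)]

/-- The lower bound from translation invariance. -/
lemma TorT_low {H : Type} [NormedAddCommGroup H] (T : ℝ × ℝ → H) {y lam r : ℝ} (hy : 1 ≤ y)
    (hinv : ∀ ξ ξ' s : ℝ × ℝ, ‖T (ξ + s) - T (ξ' + s)‖ = ‖T ξ - T ξ'‖)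
    (hcell : ∀ d : ℝ × ℝ, |d.1| ≤ 1 / 2 → |d.2| ≤ 1 / 2 →
      lam * (y ^ 2 * d.1 ^ 2 + d.2 ^ 2) - π ^ 2 / 4 * r ^ 2 ≤ ‖T d - T 0‖ ^ 2)
    (ξ ξ' : ℝ × ℝ) (h1 : |ξ.1 - ξ'.1| ≤ 1 / 2) (h2 : |ξ.2 - ξ'.2| ≤ 1 / 2) :
    (lam - 40 * r ^ 2) * (y ^ 2 * (ξ.1 - ξ'.1) ^ 2 + (ξ.2 - ξ'.2) ^ 2) ≤ ‖T ξ - T ξ'‖ ^ 2 := by
  have e0 : ‖T ξ - T ξ'‖ = ‖T (ξ - ξ') - T 0‖ := by
    rw [← hinv (ξ - ξ') 0 ξ']
    simp
  have hk : ∀ (d : ℝ × ℝ) (k : ℕ), ‖T ((k : ℝ) • d) - T 0‖ ≤ k * ‖T d - T 0‖ := by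
    intro d k
    induction k with
    | zero => simp
    | succ k ih =>
      have h3 := norm_sub_le_norm_sub_add_norm_sub (T (((k + 1 : ℕ) : ℝ) • d)) (T ((k : ℝ) • d)) (T 0)
      have h4 := hinv d 0 ((k : ℝ) • d)
      rw [zero_add, show d + (k : ℝ) • d = ((k + 1 : ℕ) : ℝ) • d by
        push_cast; rw [add_smul, one_smul, add_comm]] at h4
      push_cast at h3 h4 ⊢
      linarith only [ih, h3, h4]
  by_cases hne : ξ.1 - ξ'.1 ≠ 0 ∨ ξ.2 - ξ'.2 ≠ 0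
  · obtain ⟨k, hk1, hk2, hk3, hk4⟩ := TorT_k _ _ h1 h2 hne
    have h5 := hcell ((k : ℝ) • (ξ - ξ')) (by simpa using hk2) (by simpa using hk3)
    have h6 := hk (ξ - ξ') k
    rw [← e0] at h6
    have h7 : ‖T ((k : ℝ) • (ξ - ξ')) - T 0‖ ^ 2 ≤ (k * ‖T ξ - T ξ'‖) ^ 2 := by gcongr
    simp only [Prod.smul_fst, Prod.smul_snd, Prod.fst_sub, Prod.snd_sub, smul_eq_mul] at h5
    set d1 := ξ.1 - ξ'.1
    set d2 := ξ.2 - ξ'.2
    have hk0 : (0 : ℝ) < (k : ℝ) ^ 2 := by positivity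
    have hy2 : 1 ≤ y ^ 2 := by nlinarith only [hy]
    have h8 : 1 / 16 ≤ y ^ 2 * (k * d1) ^ 2 + (k * d2) ^ 2 := by nlinarith only [hk4, hy2, sq_nonneg (k * d1)]
    have hpi : π ^ 2 ≤ 10 := by nlinarith only [pi_lt_d2, pi_pos]
    have h9 : π ^ 2 / 4 * r ^ 2 ≤ 40 * r ^ 2 * (y ^ 2 * (k * d1) ^ 2 + (k * d2) ^ 2) := by
      nlinarith only [h8, hpi, sq_nonneg r, mul_le_mul_of_nonneg_left h8 (sq_nonneg r),
        mul_le_mul_of_nonneg_left hpi (sq_nonneg r)]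
    refine le_of_mul_le_mul_left ?_ hk0
    have e1 : (k : ℝ) ^ 2 * ((lam - 40 * r ^ 2) * (y ^ 2 * d1 ^ 2 + d2 ^ 2)) =
        lam * (y ^ 2 * (k * d1) ^ 2 + (k * d2) ^ 2) -
          40 * r ^ 2 * (y ^ 2 * (k * d1) ^ 2 + (k * d2) ^ 2) := by ring
    rw [e1, ← mul_pow]
    linarith only [h7, h5, h9]
  · push Not at hne
    rw [hne.1, hne.2]
    simp

theorem torT {I : Set ℝ} {y b lam : ℝ} {lo K : Pt I → Pt I → ℝ} (hy : 1 ≤ y) (hb : 0 ≤ b)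
    (hb1 : b ≤ 1) (h : AdmL y b lo K)
    (hlo : ∀ s t a a' x x', lo (shift a s t, x) (shift a' s t, x') = lo (a, x) (a', x'))
    (hl : ∀ p p', lam * rep y p p' ≤ lo p p') (r0 : I) (hr0 : 0 ≤ (r0 : ℝ)) :
    ∃ (H : Type) (_ : NormedAddCommGroup H) (_ : InnerProductSpace ℝ H) (F : Pt I → H)
      (T : ℝ × ℝ → H) (K' : Pt I → Pt I → ℝ), AdmL y b lo K' ∧
      (∀ p p', nd K' p p' = ‖F p - F p'‖ ^ 2) ∧ T 0 = 0 ∧
      (∀ (ξ : ℝ × ℝ) (m : ℤ × ℤ), T (ξ.1 + m.1, ξ.2 + m.2) = T ξ) ∧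
      (∀ ξ ξ' : ℝ × ℝ, ‖T ξ - T ξ'‖ ^ 2 ≤ y ^ 2 * (ξ.1 - ξ'.1) ^ 2 + (ξ.2 - ξ'.2) ^ 2) ∧
      (∀ ξ ξ' : ℝ × ℝ, |ξ.1 - ξ'.1| ≤ 1 / 2 → |ξ.2 - ξ'.2| ≤ 1 / 2 →
        (lam - 40 * (r0 : ℝ) ^ 2) * (y ^ 2 * (ξ.1 - ξ'.1) ^ 2 + (ξ.2 - ξ'.2) ^ 2) ≤
          ‖T ξ - T ξ'‖ ^ 2) ∧
      ∀ p, ‖F p - T p.1.2‖ ≤ |rho p.1 - r0| + π / 2 * r0 := by
  obtain ⟨K', hK, hsh⟩ := h.avg hlo
  obtain ⟨H, i1, i2, -, F, hF⟩ := hK.psd.exists_map
  have hnd := nd_of_map hF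
  have heq : ∀ p q, nd K' p q = 0 → F p = F q := fun p q e => by
    rw [hnd, sq_eq_zero_iff, norm_eq_zero, sub_eq_zero] at e
    exact e
  have hec : ∀ a x φ, F (a, ec φ * x) = F (a, x) := fun a x φ => heq _ _ (by
    simp only [nd, hK.uinv, hK.toPreK.uinv_left]
    ring)
  have hgam : ∀ m p, F (gam m p) = F p := fun m p =>
    (heq _ _ (by rw [hK.toBaseK.nd_gam, nd_self])).symm
  let T0 : ℝ × ℝ → H := fun ξ => (1 / 2 : ℝ) • (F ((r0, ξ), 1) + F ((r0, ξ), jj))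
  have hT : ∀ ξ ξ', T0 ξ - T0 ξ' = (1 / 2 : ℝ) • ((F ((r0, ξ), 1) - F ((r0, ξ'), 1)) +
      (F ((r0, ξ), jj) - F ((r0, ξ'), jj))) := fun ξ ξ' => by
    simp only [T0]
    module
  have hang : ∀ (ξ : ℝ × ℝ) (x z : S3), ‖F ((r0, ξ), x) - F ((r0, ξ), z)‖ ≤ π / 2 * r0 := by
    intro ξ x z
    obtain ⟨-, -, t, ht, -, e⟩ := hopf x z
    have h1 := hK.nd_cos (r0, ξ) ht e
    rw [hnd] at h1
    have h2 : t ^ 2 ≤ (π / 2) ^ 2 := pow_le_pow_left₀ ht.1 ht.2 2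
    have h3 : b * (rho ((r0, ξ) : Ax I)) ^ 2 * t ^ 2 ≤ (π / 2 * r0) ^ 2 := by
      change b * (r0 : ℝ) ^ 2 * t ^ 2 ≤ _
      have h4 : b * (r0 : ℝ) ^ 2 ≤ (r0 : ℝ) ^ 2 := by nlinarith only [hb1, sq_nonneg (r0 : ℝ)]
      calc b * (r0 : ℝ) ^ 2 * t ^ 2 ≤ (r0 : ℝ) ^ 2 * (π / 2) ^ 2 := by gcongr
        _ = _ := by ring
    exact abs_le_of_sq_le_sq' (h1.trans h3) (by positivity) |>.2
  refine ⟨H, i1, i2, fun p => F p - T0 0, fun ξ => T0 ξ - T0 0, K', hK, fun p p' => ?_, by simp,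
    fun ξ m => ?_, fun ξ ξ' => ?_, fun ξ ξ' h1 h2 => ?_, fun p => ?_⟩
  · rw [hnd, sub_sub_sub_cancel_right]
  · have hg : ∀ z, F ((r0, ξ.1 + m.1, ξ.2 + m.2), jj ^ (m.1 + m.2) * z) = F ((r0, ξ), z) :=
      fun z => hgam m ((r0, ξ), z)
    suffices hs : T0 (ξ.1 + m.1, ξ.2 + m.2) = T0 ξ by simp only [hs]
    simp only [T0]
    rcases Int.even_or_odd (m.1 + m.2) with hm | hm
    · obtain ⟨φ, e, -⟩ := jj_zpow_even hm
      rw [← hg 1, ← hg jj, e, hec, hec]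
    · obtain ⟨φ, e, -⟩ := jj_zpow_odd hm
      rw [← hg 1, ← hg jj, e, mul_assoc, mul_assoc, hec, hec, mul_one, jj_mul_jj,
        ← mul_one (ec π), hec, add_comm]
  · rw [sub_sub_sub_cancel_right, hT, TorT_mid]
    have h1 := hK.up0 (r0, ξ) (r0, ξ') 1
    have h2 := hK.up0 (r0, ξ) (r0, ξ') jj
    rw [hnd] at h1 h2
    simp only [Dsq, sg, rho, sub_self] at h1 h2
    nlinarith only [h1, h2, sq_nonneg ‖(F ((r0, ξ), 1) - F ((r0, ξ'), 1)) -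
      (F ((r0, ξ), jj) - F ((r0, ξ'), jj))‖]
  · rw [sub_sub_sub_cancel_right]
    refine TorT_low T0 hy (fun ξ ξ' s => ?_) (fun d hd1 hd2 => ?_) ξ ξ' h1 h2
    · have hi : ∀ (ξ ξ' : ℝ × ℝ) (x x' : S3),
          ⟪F ((r0, ξ + s), x), F ((r0, ξ' + s), x')⟫ = ⟪F ((r0, ξ), x), F ((r0, ξ'), x')⟫ := by
        intro ξ ξ' x x'
        rw [hF, hF]
        exact hsh s.1 s.2 (r0, ξ) (r0, ξ') x x'
      have hi2 : ∀ ξ ξ' : ℝ × ℝ, ⟪T0 (ξ + s), T0 (ξ' + s)⟫ = ⟪T0 ξ, T0 ξ'⟫ := by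
        intro ξ ξ'
        simp only [T0, real_inner_smul_left, real_inner_smul_right, inner_add_left,
          inner_add_right, hi]
      have : ‖T0 (ξ + s) - T0 (ξ' + s)‖ ^ 2 = ‖T0 ξ - T0 ξ'‖ ^ 2 := by
        rw [norm_sub_sq_real, norm_sub_sq_real, ← real_inner_self_eq_norm_sq,
          ← real_inner_self_eq_norm_sq, ← real_inner_self_eq_norm_sq,
          ← real_inner_self_eq_norm_sq, hi2, hi2, hi2]
      exact (pow_left_inj₀ (norm_nonneg _) (norm_nonneg _) two_ne_zero).1 this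
    · rw [hT, TorT_mid]
      have hlow : ∀ x : S3, lam * (y ^ 2 * d.1 ^ 2 + d.2 ^ 2) ≤
          ‖F ((r0, d), x) - F ((r0, 0), x)‖ ^ 2 := by
        intro x
        have h3 := hK.low _ _ (TorT_min y r0 hr0 d 0 (by simpa using hd1) (by simpa using hd2) x)
        have h4 := hl ((r0, d), x) ((r0, 0), x)
        rw [hnd] at h3
        simp only [rep, Dsq, sg, angP, rho, ang_self, sub_self, Prod.fst_zero, Prod.snd_zero,
          sub_zero] at h4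
        nlinarith only [h3, h4]
      have h5 : ‖(F ((r0, d), 1) - F ((r0, 0), 1)) - (F ((r0, d), jj) - F ((r0, 0), jj))‖ ≤
          π * r0 := by
        rw [show (F ((r0, d), 1) - F ((r0, 0), 1)) - (F ((r0, d), jj) - F ((r0, 0), jj)) =
          (F ((r0, d), 1) - F ((r0, d), jj)) - (F ((r0, 0), 1) - F ((r0, 0), jj)) by abel]
        have := norm_sub_le (F ((r0, d), 1) - F ((r0, d), jj)) (F ((r0, 0), 1) - F ((r0, 0), jj))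
        linarith only [this, hang, hang d 1 jj, hang 0 1 jj]
      have h6 := pow_le_pow_left₀ (norm_nonneg _) h5 2
      linarith only [h6, hlow, hlow 1, hlow jj]
  · obtain ⟨⟨r, ξ⟩, x⟩ := p
    rw [sub_sub_sub_cancel_right]
    have h1 : ‖F ((r, ξ), x) - F ((r0, ξ), x)‖ ≤ |(r : ℝ) - r0| := by
      have h2 := hK.up0 (r, ξ) (r0, ξ) x
      rw [hnd] at h2
      simp only [Dsq, sg, rho, sub_self] at h2
      refine abs_le_of_sq_le_sq' ?_ (abs_nonneg _) |>.2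
      rw [sq_abs]
      linarith
    have h3 : ∀ z, ‖F ((r, ξ), x) - F ((r0, ξ), z)‖ ≤ |(r : ℝ) - r0| + π / 2 * r0 := fun z =>
      (norm_sub_le_norm_sub_add_norm_sub _ (F ((r0, ξ), x)) _).trans (add_le_add h1 (hang ξ x z))
    have e : F ((r, ξ), x) - T0 ξ = (1 / 2 : ℝ) • ((F ((r, ξ), x) - F ((r0, ξ), 1)) +
        (F ((r, ξ), x) - F ((r0, ξ), jj))) := by
      simp only [T0]
      module
    change ‖F ((r, ξ), x) - T0 ξ‖ ≤ |(r : ℝ) - r0| + π / 2 * r0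
    rw [e, norm_smul]
    have := norm_add_le (F ((r, ξ), x) - F ((r0, ξ), 1)) (F ((r, ξ), x) - F ((r0, ξ), jj))
    norm_num
    linarith only [this, h3 1, h3 jj]

/-- The inner cone kernel. -/
def kin (p p' : Pt I0) : ℝ := rho p.1 * rho p'.1 * (73 / 100 + 6 / 25 * uu p.2 p'.2 *
  cos (π * ((p.1.2.1 + p.1.2.2) - (p'.1.2.1 + p'.1.2.2))))

lemma TorT_twist (k : ℤ) (x x' : S3) (θ : ℝ) :
    uu x (jj ^ k * x') * cos (θ - k * π) = uu x x' * cos θ := by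
  rw [cos_sub_int_mul_pi]
  rcases Int.even_or_odd k with h | h
  · obtain ⟨φ, e, -⟩ := jj_zpow_even h
    rw [e, uu_ec, h.neg_one_zpow, one_mul]
  · obtain ⟨φ, e, -⟩ := jj_zpow_odd h
    rw [e, mul_assoc, uu_ec, uu_jj, h.neg_one_zpow]
    ring

lemma kin_base : BaseK kin := by
  refine ⟨⟨?_, fun a a' x x' g => ?_, fun p a' x' φ => ?_⟩, fun m p p' => ?_⟩
  · have h1 : PSD fun _ _ : Pt I0 => (73 / 100 : ℝ) := PSD.const (by norm_num)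
    have h2 : PSD fun _ _ : Pt I0 => (6 / 25 : ℝ) := PSD.const (by norm_num)
    refine ((h1.add ((h2.mul_uu fun p => p.2).mul_cos
      fun p => π * (p.1.2.1 + p.1.2.2))).weight fun p => rho p.1).congr fun p p' => ?_
    simp only [kin, mul_sub]
  · simp only [kin, uu_mul_right]
  · simp only [kin, uu_ec]
  · have := TorT_twist (m.1 + m.2) p.2 p'.2 (π * ((p.1.2.1 + p.1.2.2) - (p'.1.2.1 + p'.1.2.2)))
    simp only [kin, rho_gam]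
    rw [mul_assoc (6 / 25), mul_assoc (6 / 25), ← this]
    simp only [gam, shift]
    congr 5
    push_cast
    ring

lemma kin_diag (p : Pt I0) : kin p p = 97 / 100 * rho p.1 ^ 2 := by
  simp only [kin, uu_self, sub_self, mul_zero, cos_zero]
  ring

lemma TorT_nd (p p' : Pt I0) : nd kin p p' = 97 / 100 * (rho p.1 - rho p'.1) ^ 2 +
    12 / 25 * (rho p.1 * rho p'.1) * (1 - uu p.2 p'.2 *
      cos (π * ((p.1.2.1 + p.1.2.2) - (p'.1.2.1 + p'.1.2.2)))) := by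
  rw [nd, kin_diag, kin_diag, kin]
  ring

lemma TorT_cos {y : ℝ} (hy : 1 ≤ y) (a a' : Ax I0) :
    1 - cos (π * ((a.2.1 + a.2.2) - (a'.2.1 + a'.2.2))) ≤ 10 * sg y a a' := by
  have h1 := one_sub_sq_div_two_le_cos (x := π * ((a.2.1 + a.2.2) - (a'.2.1 + a'.2.2)))
  have hpi : π ^ 2 ≤ 10 := by linarith only [pi_lt_d2, pi_pos, mul_pos_of_neg_of_neg (Mathlib.Tactic.Linarith.sub_neg_of_lt pi_lt_d2) (Mathlib.Tactic.Linarith.sub_neg_of_lt pi_pos)]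
  have hy2 : 1 ≤ y ^ 2 := by nlinarith only [hy]
  unfold sg
  set d1 := a.2.1 - a'.2.1 with hd1
  set d2 := a.2.2 - a'.2.2 with hd2
  have e : (a.2.1 + a.2.2) - (a'.2.1 + a'.2.2) = d1 + d2 := by rw [hd1, hd2]; ring
  rw [e] at h1 ⊢
  have h2 : (π * (d1 + d2)) ^ 2 ≤ 10 * (d1 + d2) ^ 2 := by
    rw [mul_pow]
    gcongr
  linarith only [h1, h2, hy2, sq_nonneg (d1 - d2), mul_le_mul_of_nonneg_right hy2 (sq_nonneg d1), sq_nonneg (d1 - d2), sq_nonneg d1]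

lemma kin_low {y : ℝ} (hy : 1 ≤ y) (p p' : Pt I0) :
    97 / 100 * (rho p.1 - rho p'.1) ^ 2 + 12 / 25 * angP p p' -
      5 * (rho p.1 * rho p'.1) * sg y p.1 p'.1 ≤ nd kin p p' := by
  rw [TorT_nd]
  have h1 := TorT_cos hy p.1 p'.1
  have h2 := cos_le_one (π * ((p.1.2.1 + p.1.2.2) - (p'.1.2.1 + p'.1.2.2)))
  have h3 := neg_one_le_uu p.2 p'.2
  have h4 := norm_cin_le p.2 p'.2
  have h5 := norm_nonneg (cin p.2 p'.2)
  have h6 := sg_nonneg y p.1 p'.1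
  have h7 := mul_nonneg (rho_nonneg p.1) (rho_nonneg p'.1)
  simp only [angP, ang]
  have hu : uu p.2 p'.2 = 2 * ‖cin p.2 p'.2‖ ^ 2 - 1 := rfl
  set c := cos (π * ((p.1.2.1 + p.1.2.2) - (p'.1.2.1 + p'.1.2.2)))
  set u := uu p.2 p'.2
  set C := ‖cin p.2 p'.2‖
  set S := sg y p.1 p'.1
  have h8 : 12 / 25 * (2 * (1 - C)) - 5 * S ≤ 12 / 25 * (1 - u * c) := by
    linarith only [hu, h6, h1, h2, h3, h5, h4, mul_nonneg (sub_nonneg.2 h2) (show 0 ≤ 1 + u by linarith),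
      mul_nonneg h5 (sub_nonneg.2 h4)]
  linarith only [h8, h7, mul_le_mul_of_nonneg_left h8 h7]

lemma kin_up {y : ℝ} (hy : 1 ≤ y) (p p' : Pt I0) :
    nd kin p p' ≤ 97 / 100 * ((rho p.1 - rho p'.1) ^ 2 + angP p p') +
      5 * (rho p.1 * rho p'.1) * sg y p.1 p'.1 := by
  rw [TorT_nd]
  have h1 := TorT_cos hy p.1 p'.1
  have h2 := cos_le_one (π * ((p.1.2.1 + p.1.2.2) - (p'.1.2.1 + p'.1.2.2)))
  have h3 := uu_le p.2 p'.2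
  have h4 := norm_cin_le p.2 p'.2
  have h5 := norm_nonneg (cin p.2 p'.2)
  have h6 := sg_nonneg y p.1 p'.1
  have h7 := mul_nonneg (rho_nonneg p.1) (rho_nonneg p'.1)
  simp only [angP, ang]
  have hu : uu p.2 p'.2 = 2 * ‖cin p.2 p'.2‖ ^ 2 - 1 := rfl
  set c := cos (π * ((p.1.2.1 + p.1.2.2) - (p'.1.2.1 + p'.1.2.2)))
  set u := uu p.2 p'.2
  set C := ‖cin p.2 p'.2‖
  set S := sg y p.1 p'.1
  have h8 : 12 / 25 * (1 - u * c) ≤ 97 / 100 * (2 * (1 - C)) + 5 * S := by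
    linarith only [h4, hu, h6, h1, h2, h3, mul_nonneg (sub_nonneg.2 h2) (sub_nonneg.2 h3), sq_nonneg (1 - C), sq_nonneg ((1 : ℝ) - C)]
  linarith only [h8, h7, mul_le_mul_of_nonneg_left h8 h7]

end

end Pool.Agent.Work.MP_0ba68b_gt.CX
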