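import Pool.Agent.Work.MP_0ba68b_gt.CX.LogWin
import Pool.Agent.Work.MP_0ba68b_gt.CX.TorT

/-!
The inner gluing: extension of an admissible kernel to small radii.

PLAN.  `L` from `logWin (η/1000)`, `s0 = η/100`, `r1 = s0/L`, `R0 = max 2 (1000/(η r1))`, `r0 = (R+1)⁻¹ ≤ η r1/1000`.
`torT` on `IR (R+1)` with `lam = l2 + η`.  Clamp `cl p = ((max r0 (min ρ (R+1)), ξ), x)`.
`K = glueK (1 - η/3) (fun p => T p.1.2) (F ∘ cl) (φ ∘ ρ) kin`.  Invariance: `F (gam m p) = F p`, `F (a, ec φ x) = F (a,x)`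
(from `nd K' = 0`), periodicity of `T`, `kin_base`; `zero`: `φ 0 = 0`, `kin` has the factor `ρ'`.
`‖F (cl p') - T‖ ≤ 1.6 max ρ' r0` for `ρ' ≤ R + 1`, so the error term of `glueK_low`, `glueK_up` is at most
`4 (η/1000)² Δρ²` times `1/β` (`max ρ' r0 ≤ max ρ' r1`).  Use `β = η/100`.
`inner_low`: let `A = c ‖ΔT‖² + nd kin`, `B = c ‖ΔF‖²`.  If `cos φ ≠ 0` then `ρ < s0`, and for the cell representative `mA`
(`exists_cell`, `nd_gam`, periodicity): `A ≥ (c (l2 + η - 40 r0²) - 5 s0²) sg + 0.48 (Δρ² + angP)`.  If `sin φ ≠ 0` then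
`ρ > r1`, `cl p = p`, and `AdmL.low_exists` for `cl p`, `cl p'` gives `mB`; `ρ' ≤ max ρ' r0` makes `angP`, `cap` larger, and
`(ρ - ρ')² ≤ (1 + η/100) (ρ - max ρ' r0)²` (as `r0 ≤ η ρ/1000`).  Take the `m` among `mA`, `mB` with the smaller left side
(cases `cos φ = 0`, `sin φ = 0` separately); `c (l2 + η) (1 - β) / (1 + η/100) ≥ l2 + 0.85 η`, `c (1 - β) 2 ≥ 3/2`, `cap ≤ angP/1000`.
`lowB`: `ρ < R⁻¹ ≤ r1`, so `φ = 0` at both points.
`upA`: apply `glueK_up` with the point of larger radius first (`nd_comm`; `Dsq`, `angP`, `rep` are symmetric).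
`A ≤ (c + 5 ρ ρ') sg + 0.97 (Δρ² + angP)`.  For `B`: if `ρ ≤ r0` choose `δ` so that near points have radius `< r1`; otherwise
so that they have radius in `(r0, R+1)`; `AdmL.joint`, `hopf`, `sq_le_local` with `2 r0² (1 - cos t) ≤ rep < δ`.
`(1 + β) (c + 5 s0²) + η/1000 ≤ 1 - 3η/10`.
-/

set_option linter.unusedSectionVars false

open Real

namespace Pool.Agent.Work.MP_0ba68b_gt.CX

noncomputable section

lemma Inner_A1 {η s d a P r nT nk : ℝ} (hη : 0 < η) (hη1 : η ≤ 1 / 1000) (hs : 0 ≤ s) (hd : 0 ≤ d)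
    (ha : 0 ≤ a) (hP : P ≤ (η / 100) ^ 2) (hr : r ≤ (η / 100) ^ 2)
    (hT : (l2 + η - 40 * r) * s ≤ nT) (hk : 97 / 100 * d + 12 / 25 * a - 5 * P * s ≤ nk) :
    (l2 + 3 / 5 * η) * (d + s + a) + 1 / 10 * (d + a) ≤ (1 - η / 100) * ((1 - η / 3) * nT + nk) := by
  unfold l2 at *
  have e : η ^ 2 ≤ η / 1000 := by nlinarith only [hη, hη1]
  have h1 : (63 / 200 + 99 / 100 * η) * s ≤ nT :=
    le_trans (mul_le_mul_of_nonneg_right (by nlinarith only [hη, hr, e]) hs) hT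
  have h2 : 5 * P * s ≤ η / 100 * s := mul_le_mul_of_nonneg_right (by nlinarith only [hη, hP, e]) hs
  have h3 := mul_le_mul_of_nonneg_left h1 (by linarith only [hη, hη1] : 0 ≤ 1 - η / 3)
  have h4 : (63 / 200 + 4 / 5 * η) * s ≤ ((1 - η / 3) * (63 / 200 + 99 / 100 * η) - η / 100) * s :=
    mul_le_mul_of_nonneg_right (by nlinarith only [hη, e]) hs
  have h5 : (63 / 200 + 4 / 5 * η) * s + 97 / 100 * d + 12 / 25 * a ≤ (1 - η / 3) * nT + nk := by
    nlinarith only [hk, h2, h3, h4]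
  have h6 := mul_le_mul_of_nonneg_left h5 (by linarith only [hη, hη1] : 0 ≤ 1 - η / 100)
  have h7 : (63 / 200 + 3 / 5 * η) * s ≤ (1 - η / 100) * (63 / 200 + 4 / 5 * η) * s :=
    mul_le_mul_of_nonneg_right (by nlinarith only [hη, e]) hs
  have h8 := mul_le_mul_of_nonneg_right hη1 hd
  have h9 := mul_le_mul_of_nonneg_right hη1 ha
  nlinarith only [hd, ha, h6, h7, h8, h9]

lemma Inner_B1 {η R d k n : ℝ} (hη : 0 < η) (hη1 : η ≤ 1 / 1000) (hd0 : 0 ≤ d) (hd : d ≤ R)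
    (hk : 0 ≤ k) (h : (l2 + η) * (1 - η / 100) * R + 2 * k ≤ n) :
    (l2 + 3 / 5 * η) * R + 3 / 2 * k + η / 2000 * d ≤ (1 - η / 100) * ((1 - η / 3) * n) := by
  unfold l2 at *
  have e : η ^ 2 ≤ η / 1000 := by nlinarith only [hη, hη1]
  have hR : 0 ≤ R := hd0.trans hd
  have h1 : (63 / 200 + 99 / 100 * η) * R ≤ (63 / 200 + η) * (1 - η / 100) * R :=
    mul_le_mul_of_nonneg_right (by linarith only [hη, e]) hR
  have h2 : (63 / 200 + 99 / 100 * η) * R + 2 * k ≤ n := by linarith only [h, h1]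
  have h3 := mul_le_mul_of_nonneg_left h2 (by linarith only [hη, hη1] : 0 ≤ 1 - η / 3)
  have h4 : (63 / 200 + 4 / 5 * η) * R ≤ (1 - η / 3) * (63 / 200 + 99 / 100 * η) * R :=
    mul_le_mul_of_nonneg_right (by nlinarith only [hη, e]) hR
  have h5 := mul_le_mul_of_nonneg_right hη1 hk
  have h6 : (63 / 200 + 4 / 5 * η) * R + 19 / 10 * k ≤ (1 - η / 3) * n := by nlinarith only [hk, h3, h4, h5]
  have h7 := mul_le_mul_of_nonneg_left h6 (by linarith only [hη, hη1] : 0 ≤ 1 - η / 100)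
  have h8 : (63 / 200 + 7 / 10 * η) * R ≤ (1 - η / 100) * (63 / 200 + 4 / 5 * η) * R :=
    mul_le_mul_of_nonneg_right (by nlinarith only [hη, e]) hR
  have h9 := mul_le_mul_of_nonneg_left hd hη.le
  have h10 := mul_nonneg hη.le hd0
  nlinarith only [hk, h5, h7, h8, h9, h10]

lemma Inner_A2 {η s d a P nT nk : ℝ} (hη : 0 < η) (hη1 : η ≤ 1 / 1000) (hs : 0 ≤ s) (hd : 0 ≤ d)
    (ha : 0 ≤ a) (hP : P ≤ (η / 100) ^ 2) (hT : nT ≤ s)
    (hk : nk ≤ 97 / 100 * (d + a) + 5 * P * s) :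
    (1 + η / 100) * ((1 - η / 3) * nT + nk) + η / 1000 * d ≤
      (1 - 3 / 10 * η) * s + 49 / 50 * (d + a) := by
  have e : η ^ 2 ≤ η / 1000 := by nlinarith only [hη, hη1]
  have h2 : 5 * P * s ≤ η / 100 * s := mul_le_mul_of_nonneg_right (by nlinarith only [hη, hP, e]) hs
  have h3 := mul_le_mul_of_nonneg_left hT (by linarith only [hη, hη1] : 0 ≤ 1 - η / 3)
  have h5 : (1 - η / 3) * nT + nk ≤ (1 - 8 / 25 * η) * s + 97 / 100 * (d + a) := by
    have h4 := mul_nonneg hη.le hs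
    nlinarith only [hk, h2, h3, h4]
  have h6 := mul_le_mul_of_nonneg_left h5 (by linarith only [hη, hη1] : 0 ≤ 1 + η / 100)
  have h7 : (1 + η / 100) * (1 - 8 / 25 * η) * s ≤ (1 - 3 / 10 * η) * s :=
    mul_le_mul_of_nonneg_right (by nlinarith only [hη]) hs
  have h8 := mul_le_mul_of_nonneg_right hη1 hd
  have h9 := mul_le_mul_of_nonneg_right hη1 ha
  nlinarith only [hd, ha, h6, h7, h8, h9]

lemma Inner_B2 {η D d a b ε n : ℝ} (hη : 0 < η) (hη1 : η ≤ 1 / 1000) (hd0 : 0 ≤ d) (hd : d ≤ D)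
    (ha : 0 ≤ a) (hb0 : 0 ≤ b) (hb : b ≤ 1) (hε : 0 < ε) (h : n ≤ D + b * ((1 + ε) * a)) :
    (1 + η / 100) * ((1 - η / 3) * n) + η / 1000 * d ≤
      (1 - 3 / 10 * η) * (D + b * a) + ε * (D + a) := by
  have hD : 0 ≤ D := hd0.trans hd
  have h1 := mul_nonneg hb0 ha
  have h2 : b * (ε * a) ≤ ε * a := mul_le_of_le_one_left (by positivity) hb
  have h3 : n ≤ D + b * a + ε * a := by nlinarith only [h, h2]
  have h4 : (1 + η / 100) * (1 - η / 3) ≤ 1 - 8 / 25 * η := by nlinarith only [hη]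
  have h5 : 0 ≤ (1 + η / 100) * (1 - η / 3) := mul_nonneg (by linarith only [hη, hη1]) (by linarith only [hη, hη1])
  have h6 := (mul_le_mul_of_nonneg_left h3 h5).trans
    (mul_le_mul_of_nonneg_right h4 (by positivity))
  have h7 := mul_le_mul_of_nonneg_left hd hη.le
  have h8 := mul_nonneg hη.le hD
  have h9 := mul_nonneg hη.le h1
  have h10 := mul_nonneg hη.le (mul_nonneg hε.le ha)
  have h11 := mul_nonneg hε.le hD
  nlinarith only [h6, h7, h8, h9, h10, h11]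

lemma Inner_mix {C S A B G : ℝ} (hC : 0 ≤ C) (hS : 0 ≤ S) (h : C + S = 1) (hA : C ≠ 0 → G ≤ A)
    (hB : S ≠ 0 → G ≤ B) : G ≤ C * A + S * B := by
  have h1 : C * G ≤ C * A := by
    by_cases h0 : C = 0
    · simp [h0]
    · exact mul_le_mul_of_nonneg_left (hA h0) hC
  have h2 : S * G ≤ S * B := by
    by_cases h0 : S = 0
    · simp [h0]
    · exact mul_le_mul_of_nonneg_left (hB h0) hS
  have h3 : G = C * G + S * G := by rw [← add_mul, h, one_mul]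
  linarith

lemma Inner_angP_nonneg (p p' : Pt I0) : 0 ≤ angP p p' :=
  ang_nonneg (rho_nonneg _) (rho_nonneg _) _ _

lemma Inner_angP_comm {I : Set ℝ} (p p' : Pt I) : angP p p' = angP p' p := by
  unfold angP ang
  rw [norm_cin_comm]
  ring

lemma Inner_sg_comm {I : Set ℝ} (y : ℝ) (a a' : Ax I) : sg y a a' = sg y a' a := by
  unfold sg
  ring

lemma Inner_Dsq_comm {I : Set ℝ} (y : ℝ) (a a' : Ax I) : Dsq y a a' = Dsq y a' a := by
  unfold Dsq sg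
  ring

lemma Inner_rep_comm {I : Set ℝ} (y : ℝ) (p p' : Pt I) : rep y p p' = rep y p' p := by
  unfold rep
  rw [Inner_angP_comm, Inner_Dsq_comm]

lemma Inner_sq_le (y : ℝ) (p p' : Pt I0) : (rho p.1 - rho p'.1) ^ 2 ≤ rep y p p' := by
  unfold rep Dsq
  linarith [sg_nonneg y p.1 p'.1, Inner_angP_nonneg p p']

lemma Inner_ang_mono {r r' r'' : ℝ} (hr : 0 ≤ r) (h : r' ≤ r'') (x x' : S3) :
    ang r r' x x' ≤ ang r r'' x x' := by
  have h1 : 0 ≤ 1 - ‖cin x x'‖ := sub_nonneg.2 (norm_cin_le x x')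
  unfold ang
  gcongr

variable {H : Type} [NormedAddCommGroup H] [InnerProductSpace ℝ H]

/-- The data that are glued. -/
structure Inner_D (y η bm μ ω R r1 : ℝ) (T F : Pt I0 → H) (φ : ℝ → ℝ) : Prop where
  h0 : 0 < η
  h1 : η ≤ 1 / 1000
  y1 : 1 ≤ y
  b0 : 998 / 1000 ≤ bm
  b1 : bm ≤ 1
  m0 : 0 ≤ μ
  m1 : μ ≤ 1 / 1000
  w0 : 0 ≤ ω
  r1pos : 0 < r1
  r1le : r1 ≤ η / 100
  Rinv : R⁻¹ ≤ r1 / 2
  φ0 : ∀ r, r ≤ r1 → φ r = 0
  φ1 : ∀ r, η / 100 ≤ r → φ r = π / 2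
  φlip : ∀ r r', r' ≤ r → |φ r - φ r'| * max r' r1 ≤ η / 1000 * (r - r')
  Fu : ∀ a x θ, F (a, ec θ * x) = F (a, x)
  Fg : ∀ m p, F (gam m p) = F p
  Tx : ∀ a x x', T (a, x) = T (a, x')
  Tg : ∀ m p, T (gam m p) = T p
  Tup : ∀ p p', ‖T p - T p'‖ ^ 2 ≤ sg y p.1 p'.1
  Tlow : ∃ r, r ≤ (η / 100) ^ 2 ∧ ∀ p p' : Pt I0, |p.1.2.1 - p'.1.2.1| ≤ 1 / 2 →
    |p.1.2.2 - p'.1.2.2| ≤ 1 / 2 → (l2 + η - 40 * r) * sg y p.1 p'.1 ≤ ‖T p - T p'‖ ^ 2
  Tbd : ∀ p, ‖T p‖ ≤ 3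
  FT : ∀ p, ‖F p - T p‖ ≤ 2 * max (rho p.1) r1
  Flow : ∀ p p', rho p'.1 ≤ rho p.1 → rho p.1 ≤ R → r1 ≤ rho p.1 → ∃ m,
    (l2 + η) * (1 - η / 100) * rep y p (gam m p') + 2 * cap μ ω p (gam m p') ≤ ‖F p - F p'‖ ^ 2
  Fup : ∀ ε > 0, ∃ δ > 0, ∀ p p', r1 / 2 ≤ rho p'.1 → rho p'.1 ≤ rho p.1 → rho p.1 ≤ R + 1 →
    rep y p p' < δ → ‖F p - F p'‖ ^ 2 ≤ Dsq y p.1 p'.1 + bm * ((1 + ε) * angP p p')

/-- The glued kernel. -/
def Inner_K (η : ℝ) (T F : Pt I0 → H) (φ : ℝ → ℝ) : Pt I0 → Pt I0 → ℝ :=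
  glueK (1 - η / 3) T F (fun p => φ (rho p.1)) kin

variable {y η bm μ ω R r1 : ℝ} {T F : Pt I0 → H} {φ : ℝ → ℝ}

lemma Inner_D.c0 (D : Inner_D y η bm μ ω R r1 T F φ) : 0 ≤ 1 - η / 3 := by linarith only [D, D.h1]

lemma Inner_D.weak (D : Inner_D y η bm μ ω R r1 T F φ) : WeakK (Inner_K η T F φ) := by
  refine ⟨glueK_psd D.c0 kin_base.psd, fun p a x θ => ?_, fun m p p' => ?_, fun p a x x' h => ?_⟩
  · simp only [Inner_K, glueK, D.Fu, D.Tx a (ec θ * x) x, kin_base.uinv]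
  · simp only [Inner_K, glueK, D.Fg, D.Tg, kin_base.ginv, rho_gam]
  · simp [Inner_K, glueK, h, D.φ0 0 D.r1pos.le, D.Tx a x x', kin]

lemma Inner_D.err (D : Inner_D y η bm μ ω R r1 T F φ) {p p' : Pt I0} (h : rho p'.1 ≤ rho p.1) :
    (φ (rho p.1) - φ (rho p'.1)) ^ 2 * ((1 - η / 3) * ‖F p' - T p'‖ ^ 2 + kin p' p') ≤
      5 * (η / 1000) ^ 2 * (rho p.1 - rho p'.1) ^ 2 := by
  have h1 := rho_nonneg p'.1
  have h2 := le_max_left (rho p'.1) r1
  have h3 := D.φlip _ _ h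
  have h4 := D.FT p'
  have h0 := D.h0
  rw [kin_diag]
  generalize max (rho p'.1) r1 = M at *
  have h5 : ‖F p' - T p'‖ ^ 2 ≤ (2 * M) ^ 2 := pow_le_pow_left₀ (norm_nonneg _) h4 2
  have h6 : rho p'.1 ^ 2 ≤ M ^ 2 := pow_le_pow_left₀ h1 h2 2
  have h7 : (1 - η / 3) * ‖F p' - T p'‖ ^ 2 + 97 / 100 * rho p'.1 ^ 2 ≤ 5 * M ^ 2 := by
    linarith only [h5, h6, h0, mul_nonneg h0.le (sq_nonneg ‖F p' - T p'‖), sq_nonneg (rho p'.1), sq_nonneg M, sq_nonneg ‖F p' - T p'‖]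
  have h8 := pow_le_pow_left₀ (mul_nonneg (abs_nonneg _) (h1.trans h2)) h3 2
  rw [mul_pow, mul_pow, sq_abs] at h8
  have h9 := mul_le_mul_of_nonneg_left h7 (sq_nonneg (φ (rho p.1) - φ (rho p'.1)))
  nlinarith only [h8, h9]

lemma Inner_D.low (D : Inner_D y η bm μ ω R r1 T F φ) {p p' : Pt I0} (h : rho p'.1 ≤ rho p.1) :
    cos (φ (rho p.1)) ^ 2 * ((1 - η / 100) * ((1 - η / 3) * ‖T p - T p'‖ ^ 2 + nd kin p p')) +
      sin (φ (rho p.1)) ^ 2 * ((1 - η / 100) * ((1 - η / 3) * ‖F p - F p'‖ ^ 2)) -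
      η / 2000 * (rho p.1 - rho p'.1) ^ 2 ≤ nd (Inner_K η T F φ) p p' := by
  have h0 := D.h0
  have h1 := glueK_low (T := T) (F := F) (φ := fun p => φ (rho p.1)) D.c0 kin_base.psd p p'
    (β := η / 100) (by positivity)
  have h2 := div_le_div_of_nonneg_right (D.err h) (by positivity : 0 ≤ η / 100)
  have h3 : 5 * (η / 1000) ^ 2 * (rho p.1 - rho p'.1) ^ 2 / (η / 100) =
      η / 2000 * (rho p.1 - rho p'.1) ^ 2 := by
    field_simp
    ring
  unfold Inner_K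
  linarith only [h1, h2, h3]

lemma Inner_D.up (D : Inner_D y η bm μ ω R r1 T F φ) {p p' : Pt I0} (h : rho p'.1 ≤ rho p.1) :
    nd (Inner_K η T F φ) p p' ≤
    cos (φ (rho p.1)) ^ 2 * ((1 + η / 100) * ((1 - η / 3) * ‖T p - T p'‖ ^ 2 + nd kin p p')) +
      sin (φ (rho p.1)) ^ 2 * ((1 + η / 100) * ((1 - η / 3) * ‖F p - F p'‖ ^ 2)) +
      η / 1000 * (rho p.1 - rho p'.1) ^ 2 := by
  have h0 := D.h0
  have h1 := glueK_up (T := T) (F := F) (φ := fun p => φ (rho p.1)) D.c0 kin_base.psd p p'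
    (β := η / 100) (by positivity)
  have h2 := mul_le_mul_of_nonneg_left (D.err h) (by positivity : 0 ≤ 1 + 1 / (η / 100))
  have h3 : (1 + 1 / (η / 100)) * (5 * (η / 1000) ^ 2 * (rho p.1 - rho p'.1) ^ 2) =
      (5 * (η / 1000) ^ 2 + η / 2000) * (rho p.1 - rho p'.1) ^ 2 := by
    field_simp
    ring
  have h4 : (5 * (η / 1000) ^ 2 + η / 2000) * (rho p.1 - rho p'.1) ^ 2 ≤
      η / 1000 * (rho p.1 - rho p'.1) ^ 2 :=
    mul_le_mul_of_nonneg_right (by nlinarith only [h0, D.h1]) (sq_nonneg _)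
  unfold Inner_K
  linarith only [h1, h2, h3, h4]

lemma Inner_D.prod (D : Inner_D y η bm μ ω R r1 T F φ) {p p' : Pt I0} (h : rho p'.1 ≤ rho p.1)
    (hc : cos (φ (rho p.1)) ^ 2 ≠ 0) : rho p.1 * rho p'.1 ≤ (η / 100) ^ 2 := by
  have h1 : rho p.1 ≤ η / 100 := by
    by_contra h2
    rw [D.φ1 _ (not_le.1 h2).le, cos_pi_div_two] at hc
    simp at hc
  have h2 := rho_nonneg p'.1
  linarith only [h, h1, h2, mul_nonneg_of_nonpos_of_nonpos (Mathlib.Tactic.Linarith.sub_nonpos_of_le h) (Mathlib.Tactic.Linarith.sub_nonpos_of_le h), mul_nonneg_of_nonpos_of_nonpos (Mathlib.Tactic.Linarith.sub_nonpos_of_le h) (Mathlib.Tactic.Linarith.sub_nonpos_of_le h1), mul_nonneg_of_nonpos_of_nonpos (Mathlib.Tactic.Linarith.sub_nonpos_of_le h) (Mathlib.Tactic.Linarith.sub_nonpos_of_le h2), mul_nonneg_of_nonpos_of_nonpos (Mathlib.Tactic.Linarith.sub_nonpos_of_le h1) (Mathlib.Tactic.Linarith.sub_nonpos_of_le h1), mul_nonneg_of_nonpos_of_nonpos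 (Mathlib.Tactic.Linarith.sub_nonpos_of_le h1) (Mathlib.Tactic.Linarith.sub_nonpos_of_le h2)]

lemma Inner_D.big (D : Inner_D y η bm μ ω R r1 T F φ) {r : ℝ} (hs : sin (φ r) ^ 2 ≠ 0) :
    r1 ≤ r := by
  by_contra h2
  rw [D.φ0 _ (not_le.1 h2).le, sin_zero] at hs
  simp at hs

lemma Inner_D.lowT (D : Inner_D y η bm μ ω R r1 T F φ) (p p' : Pt I0) : ∃ m,
    rho p.1 * rho p'.1 ≤ (η / 100) ^ 2 →
    (l2 + 3 / 5 * η) * rep y p (gam m p') +
      1 / 10 * ((rho p.1 - rho p'.1) ^ 2 + angP p (gam m p')) ≤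
      (1 - η / 100) * ((1 - η / 3) * ‖T p - T p'‖ ^ 2 + nd kin p p') := by
  obtain ⟨m, h1, h2⟩ := exists_cell p p'
  obtain ⟨r, hr, hT⟩ := D.Tlow
  refine ⟨m, fun hP => ?_⟩
  rw [← D.Tg m p', ← kin_base.nd_gam m p p']
  exact Inner_A1 D.h0 D.h1 (sg_nonneg y p.1 (gam m p').1) (sq_nonneg _)
    (Inner_angP_nonneg p (gam m p')) hP hr (hT _ _ h1 h2) (kin_low D.y1 p (gam m p'))

lemma Inner_D.upT (D : Inner_D y η bm μ ω R r1 T F φ) {p p' : Pt I0}
    (hP : rho p.1 * rho p'.1 ≤ (η / 100) ^ 2) :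
    (1 + η / 100) * ((1 - η / 3) * ‖T p - T p'‖ ^ 2 + nd kin p p') +
      η / 1000 * (rho p.1 - rho p'.1) ^ 2 ≤ (1 - 3 / 10 * η) * sg y p.1 p'.1 +
      49 / 50 * ((rho p.1 - rho p'.1) ^ 2 + angP p p') :=
  Inner_A2 D.h0 D.h1 (sg_nonneg y p.1 p'.1) (sq_nonneg _) (Inner_angP_nonneg p p') hP (D.Tup p p')
    (kin_up D.y1 p p')

lemma Inner_D.cap (D : Inner_D y η bm μ ω R r1 T F φ) (p p' : Pt I0) :
    0 ≤ cap μ ω p p' ∧ cap μ ω p p' ≤ 1 / 1000 * angP p p' :=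
  ⟨le_min (mul_nonneg D.m0 (Inner_angP_nonneg p p'))
    (mul_nonneg D.w0 (mul_nonneg (rho_nonneg _) (rho_nonneg _))),
    (min_le_left _ _).trans (mul_le_mul_of_nonneg_right D.m1 (Inner_angP_nonneg p p'))⟩

lemma Inner_D.lowA (D : Inner_D y η bm μ ω R r1 T F φ) (p p' : Pt I0) (h : rho p'.1 ≤ rho p.1)
    (hR : rho p.1 ≤ R) : ∃ m, (l2 + 3 / 5 * η) * rep y p (gam m p') +
      3 / 2 * CX.cap μ ω p (gam m p') ≤ nd (Inner_K η T F φ) p p' := by
  set G : ℤ × ℤ → ℝ := fun m => (l2 + 3 / 5 * η) * rep y p (gam m p') +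
    3 / 2 * CX.cap μ ω p (gam m p') + η / 2000 * (rho p.1 - rho p'.1) ^ 2 with hG
  obtain ⟨mA, hA⟩ := D.lowT p p'
  have hA' : cos (φ (rho p.1)) ^ 2 ≠ 0 →
      G mA ≤ (1 - η / 100) * ((1 - η / 3) * ‖T p - T p'‖ ^ 2 + nd kin p p') := by
    intro hc
    have h1 := hA (D.prod h hc)
    have h2 := (D.cap p (gam mA p')).2
    have h3 := Inner_angP_nonneg p (gam mA p')
    have h4 := mul_le_mul_of_nonneg_right D.h1 (sq_nonneg (rho p.1 - rho p'.1))
    have h5 := sq_nonneg (rho p.1 - rho p'.1)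
    simp only [hG]
    linarith only [h1, h2, h3, h4, h5]
  have key : ∀ m, (cos (φ (rho p.1)) ^ 2 ≠ 0 → G m ≤ G mA) → (sin (φ (rho p.1)) ^ 2 ≠ 0 →
      G m ≤ (1 - η / 100) * ((1 - η / 3) * ‖F p - F p'‖ ^ 2)) →
      ∃ m, (l2 + 3 / 5 * η) * rep y p (gam m p') +
        3 / 2 * CX.cap μ ω p (gam m p') ≤ nd (Inner_K η T F φ) p p' := by
    intro m h1 h2
    have h3 := Inner_mix (sq_nonneg _) (sq_nonneg _) (cos_sq_add_sin_sq (φ (rho p.1)))
      (fun hc => (h1 hc).trans (hA' hc)) h2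
    have h4 := D.low h
    refine ⟨m, ?_⟩
    simp only [hG] at h3
    linarith only [h4, h3]
  by_cases hs : sin (φ (rho p.1)) ^ 2 = 0
  · exact key mA (fun _ => le_rfl) fun h1 => absurd hs h1
  obtain ⟨mB, hB⟩ := D.Flow p p' h hR (D.big hs)
  have hB' : G mB ≤ (1 - η / 100) * ((1 - η / 3) * ‖F p - F p'‖ ^ 2) :=
    Inner_B1 D.h0 D.h1 (sq_nonneg _) (Inner_sq_le y p (gam mB p')) (D.cap p (gam mB p')).1 hB
  by_cases hc : cos (φ (rho p.1)) ^ 2 = 0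
  · exact key mB (fun h1 => absurd hc h1) fun _ => hB'
  rcases le_total (G mA) (G mB) with h1 | h1
  · exact key mA (fun _ => le_rfl) fun _ => h1.trans hB'
  · exact key mB (fun _ => h1) fun _ => hB'

lemma Inner_D.lowB (D : Inner_D y η bm μ ω R r1 T F φ) (p p' : Pt I0) (h : rho p'.1 ≤ rho p.1)
    (hR : rho p.1 < R⁻¹) : ∃ m, (l2 + 3 / 5 * η) * rep y p (gam m p') +
      3 / 1000 * ((rho p.1 - rho p'.1) ^ 2 + angP p (gam m p')) ≤ nd (Inner_K η T F φ) p p' := by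
  obtain ⟨m, hA⟩ := D.lowT p p'
  have h0 : φ (rho p.1) = 0 := D.φ0 _ (by linarith only [hR, D, D.Rinv, D.r1pos])
  have h1 := hA (D.prod h (by simp [h0]))
  have h2 := D.low h
  rw [h0, cos_zero, sin_zero] at h2
  have h3 := Inner_angP_nonneg p (gam m p')
  have h4 := mul_le_mul_of_nonneg_right D.h1 (sq_nonneg (rho p.1 - rho p'.1))
  have h5 := sq_nonneg (rho p.1 - rho p'.1)
  exact ⟨m, by linarith only [h1, h2, h3, h4, h5]⟩

lemma Inner_close {y r : ℝ} (hr : 0 < r) {p p' : Pt I0} (h : rep y p p' < r ^ 2) :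
    |rho p.1 - rho p'.1| < r :=
  abs_lt_of_sq_lt_sq ((Inner_sq_le y p p').trans_lt h) hr.le

lemma Inner_D.upA (D : Inner_D y η bm μ ω R r1 T F φ) {ε : ℝ} (hε : 0 < ε) :
    ∃ δ > 0, ∀ p p' : Pt I0, rho p.1 < R → rep y p p' < δ → nd (Inner_K η T F φ) p p' ≤
      (1 - 3 / 10 * η) * (Dsq y p.1 p'.1 + bm * angP p p') + ε * rep y p p' := by
  obtain ⟨δ, hδ, hF⟩ := D.Fup ε hε
  have hr := D.r1pos
  have key : ∀ p p' : Pt I0, rho p'.1 ≤ rho p.1 → rho p.1 ≤ R + 1 →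
      rep y p p' < min δ ((r1 / 2) ^ 2) → nd (Inner_K η T F φ) p p' ≤
      (1 - 3 / 10 * η) * (Dsq y p.1 p'.1 + bm * angP p p') + ε * rep y p p' := by
    intro p p' h hR hd
    have h1 := abs_lt.1 (Inner_close (half_pos hr) (hd.trans_le (min_le_right _ _)))
    have h2 := D.up h
    have a0 := Inner_angP_nonneg p p'
    have h3 := Inner_mix (G := -((1 - 3 / 10 * η) * (Dsq y p.1 p'.1 + bm * angP p p') +
        ε * rep y p p' - η / 1000 * (rho p.1 - rho p'.1) ^ 2))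
      (A := -((1 + η / 100) * ((1 - η / 3) * ‖T p - T p'‖ ^ 2 + nd kin p p')))
      (B := -((1 + η / 100) * ((1 - η / 3) * ‖F p - F p'‖ ^ 2)))
      (sq_nonneg _) (sq_nonneg _) (cos_sq_add_sin_sq (φ (rho p.1))) (fun hc => by
        have h4 := D.upT (D.prod h hc)
        have h5 : 0 ≤ ε * rep y p p' :=
          mul_nonneg hε.le ((sq_nonneg _).trans (Inner_sq_le y p p'))
        have h6 := mul_le_mul_of_nonneg_right D.h1 (sq_nonneg (rho p.1 - rho p'.1))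
        have h7 : 49 / 50 * angP p p' ≤ (1 - 3 / 10 * η) * bm * angP p p' :=
          mul_le_mul_of_nonneg_right (by nlinarith only [D.h0, D.h1, D.b0, D.b1]) a0
        have h8 := sq_nonneg (rho p.1 - rho p'.1)
        unfold Dsq
        nlinarith only [h4, h5, h6, h7]) (fun hs => by
        have h4 := hF p p' (by linarith only [h1, D, hs, D.big hs, h1.2]) h hR (hd.trans_le (min_le_left _ _))
        have h5 := Inner_B2 D.h0 D.h1 (sq_nonneg (rho p.1 - rho p'.1))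
          (le_add_of_nonneg_right (sg_nonneg y p.1 p'.1)) a0 (by linarith only [D, D.b0]) D.b1 hε h4
        unfold rep
        unfold Dsq at *
        linarith only [h5])
    linarith only [h2, h3]
  refine ⟨min δ ((r1 / 2) ^ 2), lt_min hδ (by positivity), fun p p' hR hd => ?_⟩
  rcases le_total (rho p'.1) (rho p.1) with h | h
  · exact key p p' h (by linarith) hd
  · have h1 := abs_lt.1 (Inner_close (half_pos hr) (hd.trans_le (min_le_right _ _)))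
    rw [D.weak.psd.nd_comm, Inner_Dsq_comm, Inner_angP_comm, Inner_rep_comm]
    exact key p' p h (by linarith only [hR, h1, D, D.r1le, D.h1, h1.1]) (by rwa [Inner_rep_comm])

lemma Inner_D.upB (D : Inner_D y η bm μ ω R r1 T F φ) (p p' : Pt I0) (hR : rho p.1 < R⁻¹)
    (hd : rep y p p' < (r1 / 2) ^ 2) : nd (Inner_K η T F φ) p p' ≤
      (1 - 3 / 10 * η) * sg y p.1 p'.1 + 49 / 50 * ((rho p.1 - rho p'.1) ^ 2 + angP p p') := by
  have key : ∀ p p' : Pt I0, rho p'.1 ≤ rho p.1 → rho p.1 ≤ r1 → nd (Inner_K η T F φ) p p' ≤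
      (1 - 3 / 10 * η) * sg y p.1 p'.1 + 49 / 50 * ((rho p.1 - rho p'.1) ^ 2 + angP p p') := by
    intro p p' h h1
    have h0 : φ (rho p.1) = 0 := D.φ0 _ h1
    have h2 := D.up h
    have h3 := D.upT (D.prod h (by simp [h0]))
    rw [h0, cos_zero, sin_zero] at h2
    linarith only [h2, h3]
  have h1 := abs_lt.1 (Inner_close (half_pos D.r1pos) hd)
  rcases le_total (rho p'.1) (rho p.1) with h | h
  · exact key p p' h (by linarith only [hR, h1, D, D.Rinv, D.r1pos])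
  · rw [D.weak.psd.nd_comm, Inner_sg_comm, Inner_angP_comm, ← neg_sub (rho p'.1), neg_sq]
    exact key p' p h (by linarith only [hR, h1, D, D.Rinv, h1.1])

lemma Inner_D.out (D : Inner_D y η bm μ ω R r1 T F φ) :
    InnerOut y η bm μ ω R (Inner_K η T F φ) := by
  refine ⟨D.weak, fun p => ?_, D.lowA, D.lowB, fun p hp ε hε => ?_, fun p hp ε hε => ?_⟩
  · have h1 := glueK_diag (T := T) (F := F) (φ := fun p => φ (rho p.1)) D.c0 kin_base.psd p
    have h0 := rho_nonneg p.1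
    have h2 : max (rho p.1) r1 ≤ rho p.1 + 1 :=
      max_le (by linarith only []) (by linarith only [h0, D, D.r1le, D.h1])
    have h3 : ‖T p‖ + ‖F p - T p‖ ≤ 2 * rho p.1 + 5 := by linarith only [h2, D, D.Tbd p, D.FT p]
    have h4 := pow_le_pow_left₀ (by positivity) h3 2
    have h5 := mul_nonneg D.h0.le (sq_nonneg (‖T p‖ + ‖F p - T p‖))
    rw [kin_diag] at h1
    unfold Inner_K
    linarith only [h1, h0, h4, h5, sq_nonneg ((1 : ℝ) * rho p.1)]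
  · obtain ⟨δ, hδ, h⟩ := D.upA hε
    exact ⟨δ, hδ, fun p' hp' => h p p' hp hp'⟩
  · refine ⟨(r1 / 2) ^ 2, pow_pos (half_pos D.r1pos) 2, fun p' hp' => ?_⟩
    have h1 := D.upB p p' hp hp'
    have h2 : 0 ≤ ε * rep y p p' := mul_nonneg hε.le ((sq_nonneg _).trans (Inner_sq_le y p p'))
    linarith only [h1, h2]

/-- Clamping of the radius. -/
def Inner_cl {S : ℝ} (hS : S⁻¹ ≤ S) (p : Pt I0) : Pt (IR S) :=
  ((⟨max S⁻¹ (min (rho p.1) S), le_max_left _ _, max_le hS (min_le_right _ _)⟩, p.1.2), p.2)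

lemma Inner_rho_cl {S : ℝ} (hS : S⁻¹ ≤ S) (p : Pt I0) :
    rho (Inner_cl hS p).1 = max S⁻¹ (min (rho p.1) S) := rfl

lemma Inner_rho_eq {S : ℝ} (hS : S⁻¹ ≤ S) {p : Pt I0} (h1 : S⁻¹ ≤ rho p.1) (h2 : rho p.1 ≤ S) :
    rho (Inner_cl hS p).1 = rho p.1 := by
  rw [Inner_rho_cl, min_eq_left h2, max_eq_right h1]

lemma Inner_sq_cl {η r r' r0 : ℝ} (hη : 0 < η) (hη1 : η ≤ 1 / 1000) (h0 : 0 ≤ r') (h : r' ≤ r)
    (h1 : r0 ≤ η / 1000 * r) : (1 - η / 100) * (r - r') ^ 2 ≤ (r - max r0 r') ^ 2 := by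
  rcases le_total r0 r' with h2 | h2
  · rw [max_eq_right h2]
    linarith only [hη, mul_nonneg hη.le (sq_nonneg (r - r')), sq_nonneg (r - r')]
  · rw [max_eq_left h2]
    have hr : 0 ≤ r := h0.trans h
    have h3 : ((1 - η / 1000) * r) ^ 2 ≤ (r - r0) ^ 2 :=
      pow_le_pow_left₀ (mul_nonneg (by linarith only [hη, hη1]) hr) (by linarith only [h1]) 2
    have h4 : (r - r') ^ 2 ≤ r ^ 2 := pow_le_pow_left₀ (by linarith only [h]) (by linarith only [h0]) 2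
    have h5 := mul_le_mul_of_nonneg_left h4 (by linarith only [hη, hη1] : 0 ≤ 1 - η / 100)
    have h6 : (1 - η / 100) * r ^ 2 ≤ (1 - η / 1000) ^ 2 * r ^ 2 :=
      mul_le_mul_of_nonneg_right (by nlinarith only [hη]) (sq_nonneg r)
    nlinarith only [h3, h5, h6]

end

theorem inner_out {η : ℝ} (hη : 0 < η) (hη1 : η ≤ 1 / 1000) : ∃ R0, 2 ≤ R0 ∧ ∀ R, R0 ≤ R →
    ∀ y bm μ ω : ℝ, 1 ≤ y → y ≤ 4 → 998 / 1000 ≤ bm → bm ≤ 1 → 0 ≤ μ → μ ≤ 1 / 1000 → 0 ≤ ω →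
      (∃ K : Pt (IR (R + 1)) → Pt (IR (R + 1)) → ℝ,
        AdmL y bm (fun p p' => (l2 + η) * rep y p p' + 2 * cap μ ω p p') K) →
      ∃ K, InnerOut y η bm μ ω R K := by
  obtain ⟨L, hL, hφ⟩ := logWin (β := η / 1000) (by positivity)
  have hL0 : 0 < L := by linarith only [hη, hη1, hL]
  set r1 : ℝ := η / 100 / L with hr1
  have r1pos : 0 < r1 := by positivity
  have r1le : r1 ≤ η / 100 := div_le_self (by positivity) hL.le
  obtain ⟨φ, -, φ0, φ1, φlip⟩ := hφ r1 r1pos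
  refine ⟨max 2 (1000 / (η * r1)), le_max_left _ _, ?_⟩
  rintro R hR y bm μ ω y1 y4 b0 b1 m0 m1 w0 ⟨K, hK⟩
  have R2 : 2 ≤ R := (le_max_left _ _).trans hR
  have hRi : R⁻¹ ≤ η / 1000 * r1 := by
    have h1 : 1000 / (η * r1) ≤ R := (le_max_right _ _).trans hR
    rw [div_le_iff₀ (by positivity)] at h1
    rw [inv_le_iff_one_le_mul₀ (by linarith only [hη1, r1pos, r1le, R2])]
    linarith only [h1]
  have h00 : (R + 1)⁻¹ ≤ η / 1000 * r1 := (inv_anti₀ (by linarith only [hη1, r1pos, r1le, R2]) (by linarith only [hη1, r1pos, r1le])).trans hRi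
  have h01 : η / 1000 * r1 ≤ r1 / 2 := by nlinarith only [r1pos, hη1]
  have r0pos : 0 < (R + 1)⁻¹ := by positivity
  have hS : (R + 1)⁻¹ ≤ R + 1 := by linarith only [hη1, r1le, R2, h00, h01, r0pos]
  have hb : 0 ≤ bm := by linarith only [hη1, r1le, b0, h00, h01, r0pos]
  have hl : 0 ≤ l2 + η := by unfold l2; linarith only [hη1, r1le, h00, h01, r0pos]
  obtain ⟨H, _, _, F, T, K', hK', hF, T0, Tper, Tup, Tlow, hFT⟩ :=
    torT (lam := l2 + η) y1 hb b1 hK (fun s t a a' x x' => by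
      simp only [rep, Dsq, sg, angP, cap, shift, rho, add_sub_add_right_eq_sub]) (fun p p' => by
      have h1 := (rho_pos (by linarith only [hη1, r1le, R2, h00, h01, r0pos] : 0 < R + 1) p.1).le
      have h2 := (rho_pos (by linarith only [hη1, r1le, R2, h00, h01, r0pos] : 0 < R + 1) p'.1).le
      have h3 : 0 ≤ cap μ ω p p' :=
        le_min (mul_nonneg m0 (ang_nonneg h1 h2 _ _)) (mul_nonneg w0 (mul_nonneg h1 h2))
      linarith only [h3]) ⟨(R + 1)⁻¹, le_rfl, hS⟩ r0pos.le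
  have hz : ∀ p p', nd K' p p' = 0 → F p' = F p := by
    intro p p' h
    rw [hF, sq_eq_zero_iff, norm_eq_zero, sub_eq_zero] at h
    exact h.symm
  refine ⟨_, Inner_D.out (r1 := r1) (T := fun p => T p.1.2) (F := fun p => F (Inner_cl hS p))
    (φ := φ) ⟨hη, hη1, y1, b0, b1, m0, m1, w0, r1pos, r1le, hRi.trans h01, φ0,
      fun r hr => φ1 r ?_, φlip, fun a x θ => ?_, fun m p => ?_, fun _ _ _ => rfl,
      fun m p => Tper p.1.2 m, fun p p' => Tup p.1.2 p'.1.2,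
      ⟨(R + 1)⁻¹ ^ 2, pow_le_pow_left₀ r0pos.le (by linarith only [r1le, h00, h01, r0pos]) 2,
        fun p p' h1 h2 => Tlow p.1.2 p'.1.2 h1 h2⟩, fun p => ?_, fun p => ?_,
      fun p p' h hR hr => ?_, fun ε hε => ?_⟩⟩
  · rw [hr1, mul_div_cancel₀ _ hL0.ne']
    exact hr
  · refine hz ((Inner_cl hS (a, x)).1, x) ((Inner_cl hS (a, x)).1, ec θ * x) ?_
    simp only [nd, hK'.uinv, hK'.toPreK.uinv_left]
    ring
  · exact hz (Inner_cl hS p) (gam m (Inner_cl hS p)) (by rw [hK'.toBaseK.nd_gam, nd_self])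
  · obtain ⟨m, h1, h2⟩ := exists_cell p ((p.1.1, 0), p.2)
    have h3 := Tup p.1.2 (gam m ((p.1.1, 0), p.2) : Pt I0).1.2
    have h4 : T (gam m ((p.1.1, 0), p.2) : Pt I0).1.2 = 0 := (Tper 0 m).trans T0
    rw [h4, sub_zero] at h3
    have h5 := pow_le_pow_left₀ (abs_nonneg _) h1 2
    have h6 := pow_le_pow_left₀ (abs_nonneg _) h2 2
    rw [sq_abs] at h5 h6
    have h7 : y ^ 2 ≤ 4 ^ 2 := pow_le_pow_left₀ (by linarith only [hη1, r1le, y1, h00, h01, r0pos]) y4 2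
    have h8 := mul_le_mul h7 h5 (sq_nonneg _) (by norm_num)
    exact le_of_sq_le_sq (by linarith only [hη1, r1le, h00, h01, r0pos, h3, h6, h8]) (by norm_num)
  · refine (hFT (Inner_cl hS p)).trans ?_
    rw [Inner_rho_cl]
    have h1 := le_max_left (rho p.1) r1
    have h2 := le_max_right (rho p.1) r1
    have h3 : max (R + 1)⁻¹ (min (rho p.1) (R + 1)) ≤ max (rho p.1) r1 :=
      max_le (by linarith only [h00, h01, r0pos, h2]) ((min_le_left _ _).trans h1)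
    have h4 : π / 2 * (R + 1)⁻¹ ≤ 2 * (R + 1)⁻¹ :=
      mul_le_mul_of_nonneg_right (by linarith only [pi_le_four]) r0pos.le
    rw [abs_of_nonneg (sub_nonneg.2 (le_max_left _ _))]
    show _ - (R + 1)⁻¹ + π / 2 * (R + 1)⁻¹ ≤ _
    linarith only [h00, h01, r0pos, h2, h3, h4]
  · obtain ⟨m, -, hm⟩ := hK'.low_exists y1 (Inner_cl hS p) (Inner_cl hS p')
    refine ⟨m, le_trans ?_ (hm.trans_eq (hF _ _))⟩
    have e1 : rho (Inner_cl hS p).1 = rho p.1 := Inner_rho_eq hS (by linarith only [h00, h01, r0pos, hr]) (by linarith only [hη1, r1le, h00, h01, r0pos, hR])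
    have e2 : rho (Inner_cl hS p').1 = max (R + 1)⁻¹ (rho p'.1) := by
      rw [Inner_rho_cl, min_eq_left (by linarith only [hη1, r1le, h00, h01, r0pos, h, hR])]
    have h1 := rho_nonneg p.1
    have h2 : angP p (gam m p') ≤ angP (Inner_cl hS p) (gam m (Inner_cl hS p')) := by
      unfold angP
      rw [rho_gam, rho_gam, e1, e2]
      exact Inner_ang_mono h1 (le_max_right _ _) _ _
    have h3 : cap μ ω p (gam m p') ≤ cap μ ω (Inner_cl hS p) (gam m (Inner_cl hS p')) := by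
      refine min_le_min (mul_le_mul_of_nonneg_left h2 m0) (mul_le_mul_of_nonneg_left ?_ w0)
      rw [rho_gam, rho_gam, e1, e2]
      exact mul_le_mul_of_nonneg_left (le_max_right _ _) h1
    have h4 : (1 - η / 100) * rep y p (gam m p') ≤
        rep y (Inner_cl hS p) (gam m (Inner_cl hS p')) := by
      have h5 := Inner_sq_cl hη hη1 (rho_nonneg p'.1) h
        (h00.trans (mul_le_mul_of_nonneg_left hr (by positivity)))
      have h6 : sg y (Inner_cl hS p).1 (gam m (Inner_cl hS p')).1 = sg y p.1 (gam m p').1 := rfl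
      have h7 := mul_nonneg hη.le (sg_nonneg y p.1 (gam m p').1)
      have h8 := mul_nonneg hη.le (Inner_angP_nonneg p (gam m p'))
      unfold rep Dsq
      rw [rho_gam, rho_gam, e1, e2, h6]
      nlinarith only [hS, h2, h5, h7, h8]
    have h5 := mul_le_mul_of_nonneg_left h4 hl
    linarith only [hS, h3, h5]
  · obtain ⟨δ, hδ, hs⟩ := sq_le_local hε
    refine ⟨2 * (r1 / 2) ^ 2 * δ, by positivity, fun p p' h1 h2 h3 hd => ?_⟩
    obtain ⟨_, _, t, ht, -, e⟩ := hopf p.2 p'.2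
    have e1 : rho (Inner_cl hS p).1 = rho p.1 := Inner_rho_eq hS (by linarith only [h00, h01, h1, h2]) h3
    have e2 : rho (Inner_cl hS p').1 = rho p'.1 := Inner_rho_eq hS (by linarith only [h00, h01, h1]) (by linarith only [h2, h3])
    have h4 := hK'.joint hb (a := (Inner_cl hS p).1) (a' := (Inner_cl hS p').1)
      (by rw [e1]; exact rho_nonneg _) (by rw [e2]; exact rho_nonneg _) ht e
    have h5 : angP p p' = rho p.1 * rho p'.1 * (2 * (1 - cos t)) := by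
      unfold angP ang
      rw [e]
      ring
    have h6 : (r1 / 2) ^ 2 ≤ rho p.1 * rho p'.1 := by nlinarith only [hη1, r1pos, h1, h2, r1le, h00, h01, r0pos]
    have h7 : 1 - cos t < δ := by
      have h8 := Dsq_nonneg y p.1 p'.1
      have h9 := mul_le_mul_of_nonneg_right h6 (by linarith only [cos_le_one t] : 0 ≤ 2 * (1 - cos t))
      unfold rep at hd
      have h10 : 2 * (r1 / 2) ^ 2 * (1 - cos t) < 2 * (r1 / 2) ^ 2 * δ := by linarith only [hd, h5, h8, h9]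
      exact lt_of_mul_lt_mul_left h10 (by positivity)
    have h8 := mul_le_mul_of_nonneg_left (hs t ht h7)
      (mul_nonneg hb ((sq_nonneg _).trans h6))
    have h9 : Dsq y (Inner_cl hS p).1 (Inner_cl hS p').1 = Dsq y p.1 p'.1 := by
      unfold Dsq
      rw [e1, e2]
      rfl
    rw [hF, h9, e1, e2] at h4
    rw [h5]
    exact h4.trans (by linarith only [h8])

end Pool.Agent.Work.MP_0ba68b_gt.CX
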