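import Mathlib.Analysis.InnerProductSpace.ProdL2
import Mathlib.Analysis.SpecialFunctions.Trigonometric.Bounds
import Pool.Agent.Work.MP_0ba68b_gt.CX.Ker

/-!
A logarithmic cut off, and the barycentric gluing of two maps.

PLAN.  `logWin`: `L = exp (π/(2β))`, `φ r = min (π/2) (β log (max r r1 / r1))`; `min` is `1`-Lipschitz, and for
`u = max r r1 ≥ u' = max r' r1`: `log u - log u' ≤ (u - u')/u'` (`Real.log_le_sub_one_of_pos`), `u - u' ≤ r - r'`.
`glueK`: it is `c ⟪G p, G p'⟫ + cos cos KC` with `G p = (T p + sin² φ • D p, (sin φ cos φ) • D p)`, `D = F - T`,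
in `WithLp 2 (H × H)` (or treat the two components separately with `PSD.of_map`).  With `G' = G` at `p'` but with the
angle `φ p`: `‖G p - G'‖² = cos² φ ‖ΔT‖² + sin² φ ‖ΔF‖²`, and `‖G' - G p'‖² = sin² (φ - φ') ‖D p'‖²`
(`(sin² a - sin² b)² + (sin a cos a - sin b cos b)² = sin² (a - b)`).  `vec_lower`, `vec_upper`,
`PSD.nd_weight_lower`, `PSD.nd_weight_upper`, `|cos a - cos b| ≤ |a - b|`.
-/

open scoped RealInnerProductSpace
open Real

namespace Pool.Agent.Work.MP_0ba68b_gt.CX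

noncomputable section

theorem logWin {β : ℝ} (hβ : 0 < β) : ∃ L > 1, ∀ r1 > 0, ∃ φ : ℝ → ℝ,
    (∀ r, φ r ∈ Set.Icc 0 (π / 2)) ∧ (∀ r, r ≤ r1 → φ r = 0) ∧ (∀ r, L * r1 ≤ r → φ r = π / 2) ∧
    ∀ r r', r' ≤ r → |φ r - φ r'| * max r' r1 ≤ β * (r - r') := by
  have hpi := pi_pos
  refine ⟨exp (π / (2 * β)), Real.one_lt_exp_iff.2 (by positivity), fun r1 hr1 =>
    ⟨fun r => min (π / 2) (β * log (max r r1 / r1)), fun r => ⟨?_, min_le_left _ _⟩,
      fun r hr => ?_, fun r hr => ?_, fun r r' hr => ?_⟩⟩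
  · refine le_min (by positivity) (mul_nonneg hβ.le (Real.log_nonneg ?_))
    rw [le_div_iff₀ hr1, one_mul]
    exact le_max_right _ _
  · simp only [max_eq_right hr, div_self hr1.ne', Real.log_one, mul_zero]
    exact min_eq_right (by positivity)
  · refine min_eq_left ?_
    have h1 : exp (π / (2 * β)) ≤ max r r1 / r1 := by
      rw [le_div_iff₀ hr1]
      exact hr.trans (le_max_left _ _)
    have h2 := Real.log_le_log (exp_pos _) h1
    rw [Real.log_exp] at h2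
    calc π / 2 = β * (π / (2 * β)) := by field_simp
      _ ≤ _ := mul_le_mul_of_nonneg_left h2 hβ.le
  · have hu' : 0 < max r' r1 := hr1.trans_le (le_max_right _ _)
    have huu : max r' r1 ≤ max r r1 := max_le_max_right _ hr
    have hd : max r r1 - max r' r1 ≤ r - r' := by
      have := abs_max_sub_max_le_abs r r' r1
      rw [abs_of_nonneg (sub_nonneg.2 hr)] at this
      exact (le_abs_self _).trans this
    set u := max r r1
    set u' := max r' r1
    have hu : 0 < u := hu'.trans_le huu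
    have h1 : log (u / r1) - log (u' / r1) = log (u / u') := by
      rw [Real.log_div hu.ne' hr1.ne', Real.log_div hu'.ne' hr1.ne', Real.log_div hu.ne' hu'.ne']
      ring
    have h2 : log (u / u') * u' ≤ u - u' := by
      have := mul_le_mul_of_nonneg_right (Real.log_le_sub_one_of_pos (div_pos hu hu')) hu'.le
      rwa [sub_mul, div_mul_cancel₀ _ hu'.ne', one_mul] at this
    have h3 : 0 ≤ log (u / u') := Real.log_nonneg ((one_le_div hu').2 huu)
    have h4 : |min (π / 2) (β * log (u / r1)) - min (π / 2) (β * log (u' / r1))| ≤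
        β * log (u / u') := by
      refine (abs_min_sub_min_le_max _ _ _ _).trans (max_le ?_ ?_)
      · rw [sub_self, abs_zero]
        positivity
      · rw [← mul_sub, h1, abs_of_nonneg (by positivity)]
    calc _ ≤ β * log (u / u') * u' := mul_le_mul_of_nonneg_right h4 hu'.le
      _ = β * (log (u / u') * u') := mul_assoc _ _ _
      _ ≤ β * (r - r') := mul_le_mul_of_nonneg_left (h2.trans hd) hβ.le

variable {X H : Type} [NormedAddCommGroup H] [InnerProductSpace ℝ H]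

/-- The glued kernel. -/
def glueK (c : ℝ) (T F : X → H) (φ : X → ℝ) (KC : X → X → ℝ) (p p' : X) : ℝ :=
  c * (⟪T p + sin (φ p) ^ 2 • (F p - T p), T p' + sin (φ p') ^ 2 • (F p' - T p')⟫ +
    sin (φ p) * cos (φ p) * (sin (φ p') * cos (φ p')) * ⟪F p - T p, F p' - T p'⟫) +
    cos (φ p) * cos (φ p') * KC p p'

variable {c : ℝ} {T F : X → H} {φ : X → ℝ} {KC : X → X → ℝ}

/-- The gluing vector. -/
def LogWin_gv (a : ℝ) (t f : H) : WithLp 2 (H × H) :=
  WithLp.toLp 2 (t + sin a ^ 2 • (f - t), (sin a * cos a) • (f - t))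

lemma LogWin_sq (a : ℝ) (t f : H) :
    ‖LogWin_gv a t f‖ ^ 2 = cos a ^ 2 * ‖t‖ ^ 2 + sin a ^ 2 * ‖f‖ ^ 2 := by
  have h := sin_sq_add_cos_sq a
  rw [WithLp.prod_norm_sq_eq_of_L2]
  simp only [LogWin_gv, WithLp.toLp_fst, WithLp.toLp_snd]
  rw [norm_add_sq_real, norm_smul, norm_smul, mul_pow, mul_pow, Real.norm_eq_abs, Real.norm_eq_abs,
    sq_abs, sq_abs, real_inner_smul_right, inner_sub_right, real_inner_self_eq_norm_sq,
    norm_sub_sq_real, real_inner_comm]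
  linear_combination (sin a ^ 2 * (‖f‖ ^ 2 - 2 * ⟪f, t⟫ + ‖t‖ ^ 2) - ‖t‖ ^ 2) * h

lemma LogWin_sub (a : ℝ) (t f t' f' : H) :
    LogWin_gv a t f - LogWin_gv a t' f' = LogWin_gv a (t - t') (f - f') := by
  simp only [LogWin_gv, ← WithLp.toLp_sub, Prod.mk_sub_mk]
  congr 2 <;> module

lemma LogWin_ang (a b : ℝ) (t f : H) :
    ‖LogWin_gv a t f - LogWin_gv b t f‖ ^ 2 ≤ (a - b) ^ 2 * ‖f - t‖ ^ 2 := by
  have ha := sin_sq_add_cos_sq a
  have hb := sin_sq_add_cos_sq b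
  have e : LogWin_gv a t f - LogWin_gv b t f = WithLp.toLp 2 ((sin a ^ 2 - sin b ^ 2) • (f - t),
      (sin a * cos a - sin b * cos b) • (f - t)) := by
    simp only [LogWin_gv, ← WithLp.toLp_sub, Prod.mk_sub_mk]
    congr 2 <;> module
  rw [e, WithLp.prod_norm_sq_eq_of_L2]
  simp only [WithLp.toLp_fst, WithLp.toLp_snd]
  rw [norm_smul, norm_smul, mul_pow, mul_pow, Real.norm_eq_abs, Real.norm_eq_abs, sq_abs, sq_abs,
    ← add_mul]
  refine mul_le_mul_of_nonneg_right (le_of_eq_of_le ?_ (sin_sq_le_sq (x := a - b))) (sq_nonneg _)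
  rw [sin_sub]
  linear_combination (sin a ^ 2 - sin b ^ 2) * ha - (sin a ^ 2 - sin b ^ 2) * hb

lemma LogWin_eq (p p' : X) : glueK c T F φ KC p p' =
    c * ⟪LogWin_gv (φ p) (T p) (F p), LogWin_gv (φ p') (T p') (F p')⟫ +
      cos (φ p) * cos (φ p') * KC p p' := by
  rw [glueK, WithLp.prod_inner_apply]
  simp only [LogWin_gv, real_inner_smul_left, real_inner_smul_right]
  ring

lemma LogWin_nd (p p' : X) : nd (glueK c T F φ KC) p p' =
    c * ‖LogWin_gv (φ p) (T p - T p') (F p - F p') +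
      (LogWin_gv (φ p) (T p') (F p') - LogWin_gv (φ p') (T p') (F p'))‖ ^ 2 +
      nd (fun x y => cos (φ x) * cos (φ y) * KC x y) p p' := by
  rw [← LogWin_sub, sub_add_sub_cancel,
    ← nd_of_map (F := fun p => LogWin_gv (φ p) (T p) (F p)) (fun _ _ => rfl)]
  simp only [nd, LogWin_eq]
  ring

lemma LogWin_cos (a b : ℝ) : (cos a - cos b) ^ 2 ≤ (a - b) ^ 2 :=
  sq_le_sq.2 (abs_cos_sub_cos_le a b)

lemma glueK_psd (hc : 0 ≤ c) (hK : PSD KC) : PSD (glueK c T F φ KC) := by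
  exact (((PSD.of_map fun p => LogWin_gv (φ p) (T p) (F p)).smul hc).add
    (hK.weight fun p => cos (φ p))).congr LogWin_eq

lemma glueK_diag (hc : 0 ≤ c) (hK : PSD KC) (p : X) :
    glueK c T F φ KC p p ≤ c * (‖T p‖ + ‖F p - T p‖) ^ 2 + KC p p := by
  rw [LogWin_eq, real_inner_self_eq_norm_sq, LogWin_sq]
  have h := sin_sq_add_cos_sq (φ p)
  have h1 : ‖T p‖ ^ 2 ≤ (‖T p‖ + ‖F p - T p‖) ^ 2 :=
    pow_le_pow_left₀ (norm_nonneg _) (le_add_of_nonneg_right (norm_nonneg _)) 2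
  have h2 : ‖F p‖ ^ 2 ≤ (‖T p‖ + ‖F p - T p‖) ^ 2 :=
    pow_le_pow_left₀ (norm_nonneg _) (by simpa using norm_add_le (T p) (F p - T p)) 2
  have h3 := mul_le_mul_of_nonneg_left h1 (sq_nonneg (cos (φ p)))
  have h4 := mul_le_mul_of_nonneg_left h2 (sq_nonneg (sin (φ p)))
  refine add_le_add (mul_le_mul_of_nonneg_left ?_ hc) ?_
  · calc _ ≤ (sin (φ p) ^ 2 + cos (φ p) ^ 2) * (‖T p‖ + ‖F p - T p‖) ^ 2 := by linarith
      _ = _ := by rw [h, one_mul]
  · refine mul_le_of_le_one_left (hK.diag_nonneg p) ?_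
    rw [← sq]
    exact cos_sq_le_one _

lemma glueK_low (hc : 0 ≤ c) (hK : PSD KC) (p p' : X) {β : ℝ} (hβ : 0 < β) :
    (1 - β) * (cos (φ p) ^ 2 * (c * ‖T p - T p'‖ ^ 2 + nd KC p p') +
        sin (φ p) ^ 2 * (c * ‖F p - F p'‖ ^ 2)) -
      (φ p - φ p') ^ 2 * (c * ‖F p' - T p'‖ ^ 2 + KC p' p') / β ≤ nd (glueK c T F φ KC) p p' := by
  rw [LogWin_nd]
  have h1 := vec_lower (LogWin_gv (φ p) (T p - T p') (F p - F p'))
    (LogWin_gv (φ p) (T p') (F p') - LogWin_gv (φ p') (T p') (F p')) hβ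
  rw [LogWin_sq] at h1
  have h2 := hK.nd_weight_lower (fun x => cos (φ x)) p p' hβ
  have h3 := div_le_div_of_nonneg_right (LogWin_ang (φ p) (φ p') (T p') (F p')) hβ.le
  have h4 := div_le_div_of_nonneg_right
    (mul_le_mul_of_nonneg_right (LogWin_cos (φ p) (φ p')) (hK.diag_nonneg p')) hβ.le
  have h5 := mul_le_mul_of_nonneg_left ((sub_le_sub_left h3 _).trans h1) hc
  refine le_trans (le_of_eq ?_) (add_le_add h5 ((sub_le_sub_left h4 _).trans h2))
  ring

lemma glueK_up (hc : 0 ≤ c) (hK : PSD KC) (p p' : X) {β : ℝ} (hβ : 0 < β) :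
    nd (glueK c T F φ KC) p p' ≤
      (1 + β) * (cos (φ p) ^ 2 * (c * ‖T p - T p'‖ ^ 2 + nd KC p p') +
        sin (φ p) ^ 2 * (c * ‖F p - F p'‖ ^ 2)) +
      (1 + 1 / β) * ((φ p - φ p') ^ 2 * (c * ‖F p' - T p'‖ ^ 2 + KC p' p')) := by
  rw [LogWin_nd]
  have hb : 0 ≤ 1 + 1 / β := by positivity
  have h1 := vec_upper (LogWin_gv (φ p) (T p - T p') (F p - F p'))
    (LogWin_gv (φ p) (T p') (F p') - LogWin_gv (φ p') (T p') (F p')) hβ
  rw [LogWin_sq] at h1
  have h2 := hK.nd_weight_upper (fun x => cos (φ x)) p p' hβ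
  have h3 := mul_le_mul_of_nonneg_left (LogWin_ang (φ p) (φ p') (T p') (F p')) hb
  have h4 := mul_le_mul_of_nonneg_left
    (mul_le_mul_of_nonneg_right (LogWin_cos (φ p) (φ p')) (hK.diag_nonneg p')) hb
  have h5 := mul_le_mul_of_nonneg_left (h1.trans (add_le_add_right h3 _)) hc
  refine le_trans (add_le_add h5 (h2.trans (add_le_add_right h4 _))) (le_of_eq ?_)
  ring

end

end Pool.Agent.Work.MP_0ba68b_gt.CX
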