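import Pool.Agent.Work.MP_0ba68b_gt.CX.E1
import Pool.Agent.Work.MP_0ba68b_gt.CX.Inner

/-!
The outer gluing for ratios in `[1, 4]`.

PLAN.  `L` from `logWin (η/10⁴)`, `r1 = 10`, `W = sin ∘ φ`, `V = cos ∘ φ`,
`K = W W' (99/100) krot y (π/2) + V V' Kin`.  `nd_add`, `PSD.nd_weight_lower`, `PSD.nd_weight_upper` with `β = η/100`;
`krot_diag ≤ 1/2`, `Kin p' p' ≤ 20 (ρ' + 5)² ≤ 45 (max ρ' 10)²`, `|ΔW|, |ΔV| ≤ |Δφ|`: errors `≤ 50 (η/10⁴)² (101/η) Δρ²`.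
`lowA`: if `W ρ ≠ 0` then `ρ ≥ 10` and `outer_low` gives `m₁`: `0.999 · 0.3168 ≥ l2 + η/4 + 1/1000 + η/100`, `cap ≤ μ angP ≤ rep/1000`.
If `V ρ ≠ 0` then `ρ < 10 L ≤ R` and `InnerOut.lowA` gives `m₂`.  Take the `m` with the smaller left side, `W² + V² = 1`,
`Δρ² ≤ rep`.  `lowB`, `upB`: `W = 0`, `V = 1` for radii `≤ 10`.
`upA`: choose `δ ≤ 1`, so `|Δρ| ≤ 1`; `|Δφ| max (min ρ ρ') 10 ≤ β |Δρ|`, `ρ' + 5 ≤ 1.6 max (min ρ ρ') 10`;
`k0_up`, `outer_up`, `(8/π²) (1 - c) ≤ angP/200` for `ρ ≥ 10`, `ρ' ≥ 9`; `InnerOut.upA` if `V ρ ≠ 0`.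
-/

open Real

namespace Pool.Agent.Work.MP_0ba68b_gt.CX

lemma Model4_A1 {η r d k n0 n1 : ℝ} (hη : 0 < η) (hη1 : η ≤ 1 / 1000) (hd0 : 0 ≤ d) (hd : d ≤ r)
    (hk : k ≤ 1 / 1000 * r) (h1 : 0 ≤ n1) (h : 3168 / 10000 * r ≤ n0 + n1) :
    (l2 + η / 4) * r + k + η / 10000 * d ≤ 999 / 1000 * n0 + (1 - η / 100) ^ 2 * n1 := by
  have a1 : 999 / 1000 * n1 ≤ (1 - η / 100) ^ 2 * n1 :=
    mul_le_mul_of_nonneg_right (by nlinarith) h1
  have a2 := mul_le_mul_of_nonneg_right hη1 (hd0.trans hd)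
  have a3 := mul_le_mul_of_nonneg_right hη1 hd0
  unfold l2
  nlinarith

lemma Model4_B1 {η r d k c n : ℝ} (hη : 0 < η) (hη1 : η ≤ 1 / 1000) (hd0 : 0 ≤ d) (hd : d ≤ r)
    (hk : 0 ≤ k) (h : (l2 + 3 / 5 * η) * r + 3 / 2 * k ≤ n) (hc : c ≤ k) :
    (l2 + η / 4) * r + c + η / 10000 * d ≤ (1 - η / 100) ^ 2 * n := by
  have hr := hd0.trans hd
  have a0 : 0 ≤ (1 - η / 100) ^ 2 := sq_nonneg _
  have a1 := mul_le_mul_of_nonneg_left h a0
  have a2 : (l2 + η / 2) * r ≤ (1 - η / 100) ^ 2 * (l2 + 3 / 5 * η) * r := by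
    refine mul_le_mul_of_nonneg_right ?_ hr
    unfold l2
    nlinarith only [hη, hη1, mul_pos hη hη, mul_pos hη (mul_pos hη hη)]
  have a3 : 1 * k ≤ (1 - η / 100) ^ 2 * (3 / 2) * k :=
    mul_le_mul_of_nonneg_right (by nlinarith only [hη, hη1]) hk
  have a4 := mul_le_mul_of_nonneg_left hd hη.le
  have a5 := mul_nonneg hη.le hd0
  nlinarith

lemma Model4_A2 {η s d a bm n0 n1 : ℝ} (hη : 0 < η) (hη1 : η ≤ 1 / 1000) (hs : 0 ≤ s)
    (hd : 0 ≤ d) (ha : 0 ≤ a) (hb : 998 / 1000 ≤ bm) (h0 : n0 ≤ 24 / 25 * (d + a))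
    (h1 : n1 ≤ 99 / 100 * (s + a / 200)) :
    1001 / 1000 * n0 + (1 + η / 100) ^ 2 * n1 + η / 5000 * d ≤ (1 - η / 4) * (d + s + bm * a) := by
  have a1 : (1 + η / 100) ^ 2 * n1 ≤ 1001 / 1000 * (99 / 100 * (s + a / 200)) :=
    (mul_le_mul_of_nonneg_left h1 (sq_nonneg _)).trans
      (mul_le_mul_of_nonneg_right (by nlinarith only [hη, hη1]) (by positivity))
  have a2 := mul_le_mul_of_nonneg_right hb ha
  have a3 : 999 / 1000 * (d + s + bm * a) ≤ (1 - η / 4) * (d + s + bm * a) :=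
    mul_le_mul_of_nonneg_right (by linarith) (by linarith)
  have a4 := mul_le_mul_of_nonneg_right hη1 hd
  linarith only [hs, hd, ha, h0, a1, a2, a3, a4]

lemma Model4_B2 {η D d c e n : ℝ} (hη : 0 < η) (hη1 : η ≤ 1 / 1000) (hD : 0 ≤ D) (hc : 0 ≤ c)
    (he : 0 ≤ e) (hd : d ≤ D ∨ d ≤ c) (h : n ≤ (1 - 3 / 10 * η) * D + 49 / 50 * c + e / 2) :
    (1 + η / 100) ^ 2 * n + η / 5000 * d ≤ (1 - η / 4) * D + 99 / 100 * c + e := by
  have a1 := mul_le_mul_of_nonneg_left h (sq_nonneg (1 + η / 100))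
  have a2 : (1 + η / 100) ^ 2 * (1 - 3 / 10 * η) * D ≤ (1 - 27 / 100 * η) * D := by
    refine mul_le_mul_of_nonneg_right ?_ hD
    nlinarith only [hη, mul_pos hη hη, mul_pos hη (mul_pos hη hη)]
  have a3 : (1 + η / 100) ^ 2 * c ≤ 1001 / 1000 * c :=
    mul_le_mul_of_nonneg_right (by nlinarith only [hη, hη1]) hc
  have a4 : (1 + η / 100) ^ 2 * e ≤ 2 * e := mul_le_mul_of_nonneg_right (by nlinarith only [hη, hη1]) he
  have a5 := mul_nonneg hη.le hD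
  have a6 := mul_le_mul_of_nonneg_right hη1 hc
  rcases hd with hd | hd
  · have a7 := mul_le_mul_of_nonneg_left hd hη.le
    nlinarith
  · have a7 := mul_le_mul_of_nonneg_left hd hη.le
    nlinarith only [hc, a1, a2, a3, a4, a5, a6, a7]

/-- The data that are glued. -/
structure Model4_D (y η bm μ ω R : ℝ) (φ : ℝ → ℝ) (Kin : Pt I0 → Pt I0 → ℝ) : Prop where
  h0 : 0 < η
  h1 : η ≤ 1 / 1000
  y1 : 1 ≤ y
  y4 : y ≤ 4
  b0 : 998 / 1000 ≤ bm
  b1 : bm ≤ 1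
  m0 : 0 ≤ μ
  m1 : μ ≤ 1 / 1000
  w0 : 0 ≤ ω
  R10 : 10 ≤ R
  φm : ∀ r, φ r ∈ Set.Icc 0 (π / 2)
  φ0 : ∀ r, r ≤ 10 → φ r = 0
  φ1 : ∀ r, R ≤ r → φ r = π / 2
  φlip : ∀ r r', r' ≤ r → |φ r - φ r'| * max r' 10 ≤ η / 10000 * (r - r')
  inn : InnerOut y η bm μ ω R Kin

/-- The outer kernel. -/
noncomputable def Model4_O (y : ℝ) (p p' : Pt I0) : ℝ := 99 / 100 * krot y (fun _ => π / 2) p p'

/-- The glued kernel. -/
noncomputable def Model4_K (y : ℝ) (φ : ℝ → ℝ) (Kin : Pt I0 → Pt I0 → ℝ) (p p' : Pt I0) : ℝ :=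
  sin (φ (rho p.1)) * sin (φ (rho p'.1)) * Model4_O y p p' +
    cos (φ (rho p.1)) * cos (φ (rho p'.1)) * Kin p p'

lemma Model4_base {y : ℝ} (hy : 1 ≤ y) : BaseK (Model4_O y) :=
  (krot_base hy _).smul (by norm_num)

lemma Model4_nd (y : ℝ) (p p' : Pt I0) :
    nd (Model4_O y) p p' = 99 / 100 * nd (krot y fun _ => π / 2) p p' := nd_smul _ _ _ _

lemma Model4_diag {y : ℝ} (hy : 1 ≤ y) (hy' : y ≤ 4) (p : Pt I0) : Model4_O y p p ≤ 1 := by
  have h := E1_pi.1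
  have h1 : (y ^ 2 - 1) / (4 * π ^ 2) ≤ 1 / 2 := by
    rw [div_le_iff₀ (by linarith)]
    nlinarith
  have h2 : 1 / π ^ 2 ≤ 1 / 2 := by
    rw [div_le_iff₀ (by linarith)]
    linarith
  rw [Model4_O, krot_diag]
  linarith

variable {y η bm μ ω R : ℝ} {φ : ℝ → ℝ} {Kin : Pt I0 → Pt I0 → ℝ}

lemma Model4_D.weak (D : Model4_D y η bm μ ω R φ Kin) : WeakK (Model4_K y φ Kin) := by
  have B := Model4_base D.y1
  refine ⟨(B.psd.weight fun p => sin (φ (rho p.1))).add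
    (D.inn.psd.weight fun p => cos (φ (rho p.1))), fun p a x θ => ?_, fun m p p' => ?_,
    fun p a x x' h => ?_⟩
  · simp only [Model4_K, B.uinv, D.inn.uinv]
  · simp only [Model4_K, B.ginv, D.inn.ginv, rho_gam]
  · simp [Model4_K, h, D.φ0 0 (by norm_num), D.inn.zero p a x x' h]

lemma Model4_D.big (D : Model4_D y η bm μ ω R φ Kin) {r : ℝ} (hs : sin (φ r) ^ 2 ≠ 0) :
    10 ≤ r := by
  by_contra h2
  rw [D.φ0 _ (not_le.1 h2).le, sin_zero] at hs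
  simp at hs

lemma Model4_D.small (D : Model4_D y η bm μ ω R φ Kin) {r : ℝ} (hc : cos (φ r) ^ 2 ≠ 0) :
    r < R := by
  by_contra h2
  rw [D.φ1 _ (not_lt.1 h2), cos_pi_div_two] at hc
  simp at hc

lemma Model4_D.err (D : Model4_D y η bm μ ω R φ Kin) {p p' : Pt I0}
    (h : rho p'.1 ≤ rho p.1 + 1) :
    (sin (φ (rho p.1)) - sin (φ (rho p'.1))) ^ 2 * Model4_O y p' p' +
      (cos (φ (rho p.1)) - cos (φ (rho p'.1))) ^ 2 * Kin p' p' ≤
      53 * (η / 10000) ^ 2 * (rho p.1 - rho p'.1) ^ 2 := by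
  obtain ⟨M, hM, hM', h3⟩ : ∃ M : ℝ, 10 ≤ M ∧ rho p'.1 ≤ M + 1 ∧
      |φ (rho p.1) - φ (rho p'.1)| * M ≤ η / 10000 * |rho p.1 - rho p'.1| := by
    rcases le_total (rho p'.1) (rho p.1) with h1 | h1
    · refine ⟨max (rho p'.1) 10, le_max_right _ _, by linarith [le_max_left (rho p'.1) 10], ?_⟩
      rw [abs_of_nonneg (sub_nonneg.2 h1)]
      exact D.φlip _ _ h1
    · refine ⟨max (rho p.1) 10, le_max_right _ _, by linarith [le_max_left (rho p.1) 10], ?_⟩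
      rw [abs_sub_comm, abs_sub_comm (rho p.1), abs_of_nonneg (sub_nonneg.2 h1)]
      exact D.φlip _ _ h1
  have h1 := rho_nonneg p'.1
  have h4 := pow_le_pow_left₀ (mul_nonneg (abs_nonneg _) (by linarith)) h3 2
  rw [mul_pow, mul_pow, sq_abs, sq_abs] at h4
  have h5 := pow_le_pow_left₀ (abs_nonneg _)
    (abs_sin_sub_sin_le (φ (rho p.1)) (φ (rho p'.1))) 2
  have h6 := pow_le_pow_left₀ (abs_nonneg _)
    (abs_cos_sub_cos_le (φ (rho p.1)) (φ (rho p'.1))) 2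
  rw [sq_abs, sq_abs] at h5 h6
  have h7 : Model4_O y p' p' ≤ M ^ 2 := (Model4_diag D.y1 D.y4 p').trans (by nlinarith only [hM])
  have h8 : Kin p' p' ≤ 52 * M ^ 2 := by
    have : (rho p'.1 + 5) ^ 2 ≤ (8 / 5 * M) ^ 2 :=
      pow_le_pow_left₀ (by linarith) (by linarith) 2
    nlinarith only [this, D.inn.diag p']
  have h9 := mul_le_mul h5 h7 ((Model4_base D.y1).psd.diag_nonneg p') (sq_nonneg _)
  have h10 := mul_le_mul h6 h8 (D.inn.psd.diag_nonneg p') (sq_nonneg _)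
  linarith

lemma Model4_D.low (D : Model4_D y η bm μ ω R φ Kin) {p p' : Pt I0}
    (h : rho p'.1 ≤ rho p.1 + 1) :
    sin (φ (rho p.1)) ^ 2 * ((1 - η / 100) ^ 2 * nd (Model4_O y) p p') +
      cos (φ (rho p.1)) ^ 2 * ((1 - η / 100) ^ 2 * nd Kin p p') -
      η / 10000 * (rho p.1 - rho p'.1) ^ 2 ≤ (1 - η / 100) * nd (Model4_K y φ Kin) p p' := by
  have h0 := D.h0
  have hβ : 0 < η / 100 := by positivity
  have h1 := (Model4_base D.y1).psd.nd_weight_lower (fun p => sin (φ (rho p.1))) p p' hβ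
  have h2 := D.inn.psd.nd_weight_lower (fun p => cos (φ (rho p.1))) p p' hβ
  have h3 := div_le_div_of_nonneg_right (D.err h) hβ.le
  have h4 : 53 * (η / 10000) ^ 2 * (rho p.1 - rho p'.1) ^ 2 / (η / 100) =
      53 / 1000000 * (η * (rho p.1 - rho p'.1) ^ 2) := by
    field_simp
    ring
  have h5 : nd (Model4_K y φ Kin) p p' = _ := nd_add _ _ p p'
  rw [h4, add_div] at h3
  have h6 : (1 - η / 100) * (sin (φ (rho p.1)) ^ 2 * nd (Model4_O y) p p') +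
      (1 - η / 100) * (cos (φ (rho p.1)) ^ 2 * nd Kin p p') -
      53 / 1000000 * (η * (rho p.1 - rho p'.1) ^ 2) ≤ nd (Model4_K y φ Kin) p p' := by
    linarith
  have h7 := mul_le_mul_of_nonneg_left h6 (by linarith only [D.h1] : 0 ≤ 1 - η / 100)
  have h8 := mul_nonneg h0.le (sq_nonneg (rho p.1 - rho p'.1))
  have h9 := mul_nonneg h0.le h8
  nlinarith only [h7, h8, h9]

lemma Model4_D.up (D : Model4_D y η bm μ ω R φ Kin) {p p' : Pt I0}
    (h : rho p'.1 ≤ rho p.1 + 1) :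
    (1 + η / 100) * nd (Model4_K y φ Kin) p p' ≤
      sin (φ (rho p.1)) ^ 2 * ((1 + η / 100) ^ 2 * nd (Model4_O y) p p') +
      cos (φ (rho p.1)) ^ 2 * ((1 + η / 100) ^ 2 * nd Kin p p') +
      η / 5000 * (rho p.1 - rho p'.1) ^ 2 := by
  have h0 := D.h0
  have hβ : 0 < η / 100 := by positivity
  have h1 := (Model4_base D.y1).psd.nd_weight_upper (fun p => sin (φ (rho p.1))) p p' hβ
  have h2 := D.inn.psd.nd_weight_upper (fun p => cos (φ (rho p.1))) p p' hβ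
  have h3 := mul_le_mul_of_nonneg_left (D.err h) (by positivity : 0 ≤ 1 + 1 / (η / 100))
  have h4 : (1 + 1 / (η / 100)) * (53 * (η / 10000) ^ 2 * (rho p.1 - rho p'.1) ^ 2) =
      (53 / 100000000 * η + 53 / 1000000) * (η * (rho p.1 - rho p'.1) ^ 2) := by
    field_simp
    ring
  have h5 : nd (Model4_K y φ Kin) p p' = _ := nd_add _ _ p p'
  have h8 := mul_nonneg h0.le (sq_nonneg (rho p.1 - rho p'.1))
  have h9 : (53 / 100000000 * η + 53 / 1000000) * (η * (rho p.1 - rho p'.1) ^ 2) ≤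
      1 / 10000 * (η * (rho p.1 - rho p'.1) ^ 2) :=
    mul_le_mul_of_nonneg_right (by linarith only [D.h1]) h8
  rw [h4, mul_add] at h3
  have h6 : nd (Model4_K y φ Kin) p p' ≤
      (1 + η / 100) * (sin (φ (rho p.1)) ^ 2 * nd (Model4_O y) p p') +
      (1 + η / 100) * (cos (φ (rho p.1)) ^ 2 * nd Kin p p') +
      1 / 10000 * (η * (rho p.1 - rho p'.1) ^ 2) := by
    linarith
  have h7 := mul_le_mul_of_nonneg_left h6 (by linarith only [h0] : 0 ≤ 1 + η / 100)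
  have h10 := mul_le_mul_of_nonneg_right D.h1 h8
  nlinarith only [h8, h9, h7]

lemma Model4_D.cap (D : Model4_D y η bm μ ω R φ Kin) (p p' : Pt I0) :
    0 ≤ cap μ ω p p' ∧ cap μ ω p p' ≤ 1 / 1000 * rep y p p' := by
  refine ⟨le_min (mul_nonneg D.m0 (Inner_angP_nonneg p p'))
    (mul_nonneg D.w0 (mul_nonneg (rho_nonneg _) (rho_nonneg _))), ?_⟩
  have h1 : CX.cap μ ω p p' ≤ 1 / 1000 * angP p p' :=
    (min_le_left _ _).trans (mul_le_mul_of_nonneg_right D.m1 (Inner_angP_nonneg p p'))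
  unfold rep
  linarith [Dsq_nonneg y p.1 p'.1]

lemma Model4_D.lowA (D : Model4_D y η bm μ ω R φ Kin) (p p' : Pt I0) (h : rho p'.1 ≤ rho p.1) :
    ∃ m, (l2 + η / 4) * rep y p (gam m p') + CX.cap μ ω p (gam m p') ≤
      999 / 1000 * (sin (φ (rho p.1)) ^ 2 * nd k0 p p') +
        (1 - η / 100) * nd (Model4_K y φ Kin) p p' := by
  set G : ℤ × ℤ → ℝ := fun m => (l2 + η / 4) * rep y p (gam m p') +
    CX.cap μ ω p (gam m p') + η / 10000 * (rho p.1 - rho p'.1) ^ 2 with hG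
  obtain ⟨mA, hA⟩ : ∃ m, sin (φ (rho p.1)) ^ 2 ≠ 0 →
      G m ≤ 999 / 1000 * nd k0 p p' + (1 - η / 100) ^ 2 * nd (Model4_O y) p p' := by
    by_cases hs : sin (φ (rho p.1)) ^ 2 = 0
    · exact ⟨0, fun h1 => absurd hs h1⟩
    obtain ⟨m, hm⟩ := outer_low D.y1 D.y4 p p' (D.big hs) h
    rw [← Model4_nd] at hm
    exact ⟨m, fun _ => Model4_A1 D.h0 D.h1 (sq_nonneg _) (Inner_sq_le y p (gam m p'))
      (D.cap p (gam m p')).2 ((Model4_base D.y1).psd.nd_nonneg p p') hm⟩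
  obtain ⟨mB, hB⟩ : ∃ m, cos (φ (rho p.1)) ^ 2 ≠ 0 → G m ≤ (1 - η / 100) ^ 2 * nd Kin p p' := by
    by_cases hc : cos (φ (rho p.1)) ^ 2 = 0
    · exact ⟨0, fun h1 => absurd hc h1⟩
    obtain ⟨m, hm⟩ := D.inn.lowA p p' h (D.small hc).le
    exact ⟨m, fun _ => Model4_B1 D.h0 D.h1 (sq_nonneg _) (Inner_sq_le y p (gam m p'))
      (D.cap p (gam m p')).1 hm le_rfl⟩
  have key : ∀ m, G m ≤ G mA → G m ≤ G mB →
      (l2 + η / 4) * rep y p (gam m p') + CX.cap μ ω p (gam m p') ≤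
      999 / 1000 * (sin (φ (rho p.1)) ^ 2 * nd k0 p p') +
        (1 - η / 100) * nd (Model4_K y φ Kin) p p' := by
    intro m h1 h2
    have h3 := Inner_mix (sq_nonneg _) (sq_nonneg _) (sin_sq_add_cos_sq (φ (rho p.1)))
      (fun hs => h1.trans (hA hs)) fun hc => h2.trans (hB hc)
    have h4 := D.low (p := p) (p' := p') (by linarith)
    simp only [hG] at h3
    linarith
  rcases le_total (G mA) (G mB) with h1 | h1
  · exact ⟨mA, key mA le_rfl h1⟩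
  · exact ⟨mB, key mB h1 le_rfl⟩

lemma Model4_D.inv (D : Model4_D y η bm μ ω R φ Kin) {r : ℝ} (h : r < R⁻¹) : φ r = 0 := by
  have : R⁻¹ ≤ 1 := inv_le_one_of_one_le₀ (by linarith [D.R10])
  exact D.φ0 _ (by linarith)

lemma Model4_D.lowB (D : Model4_D y η bm μ ω R φ Kin) (p p' : Pt I0) (h : rho p'.1 ≤ rho p.1)
    (hR : rho p.1 < R⁻¹) : ∃ m, (l2 + η / 4) * rep y p (gam m p') +
      2 / 1000 * ((rho p.1 - rho p'.1) ^ 2 + angP p (gam m p')) ≤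
      999 / 1000 * (sin (φ (rho p.1)) ^ 2 * nd k0 p p') +
        (1 - η / 100) * nd (Model4_K y φ Kin) p p' := by
  obtain ⟨m, hm⟩ := D.inn.lowB p p' h hR
  have h1 := D.low (p := p) (p' := p') (by linarith)
  have h2 := Inner_angP_nonneg p (gam m p')
  have h3 := Model4_B1 (k := 2 / 1000 * ((rho p.1 - rho p'.1) ^ 2 + angP p (gam m p')))
    (n := nd Kin p p') D.h0 D.h1 (sq_nonneg (rho p.1 - rho p'.1)) (Inner_sq_le y p (gam m p'))
    (by positivity) (by linarith) le_rfl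
  rw [D.inv hR, cos_zero, sin_zero] at *
  exact ⟨m, by linarith⟩

lemma Model4_D.upA (D : Model4_D y η bm μ ω R φ Kin) (p : Pt I0) (ε : ℝ) (hε : 0 < ε) :
    ∃ δ > 0, ∀ p', rep y p p' < δ → 1001 / 1000 * (sin (φ (rho p.1)) ^ 2 * nd k0 p p') +
      (1 + η / 100) * nd (Model4_K y φ Kin) p p' ≤
      (1 - η / 4) * (Dsq y p.1 p'.1 + bm * angP p p') + ε * rep y p p' := by
  obtain ⟨δ, hδ, hF⟩ : ∃ δ > 0, ∀ p', rep y p p' < δ → rho p.1 < R → nd Kin p p' ≤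
      (1 - 3 / 10 * η) * (Dsq y p.1 p'.1 + bm * angP p p') + ε / 2 * rep y p p' := by
    by_cases hR : rho p.1 < R
    · obtain ⟨δ, hδ, hF⟩ := D.inn.upA p hR (ε / 2) (half_pos hε)
      exact ⟨δ, hδ, fun p' h _ => hF p' h⟩
    · exact ⟨1, one_pos, fun p' _ h => absurd h hR⟩
  refine ⟨min δ (1 ^ 2), lt_min hδ (by norm_num), fun p' hd => ?_⟩
  have h1 := abs_lt.1 (Inner_close one_pos (hd.trans_le (min_le_right _ _)))
  have h2 := D.up (p := p) (p' := p') (by linarith [h1.1])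
  have a0 := Inner_angP_nonneg p p'
  have a1 : 0 ≤ ε * rep y p p' := mul_nonneg hε.le ((sq_nonneg _).trans (Inner_sq_le y p p'))
  have h3 := Inner_mix (G := -((1 - η / 4) * (Dsq y p.1 p'.1 + bm * angP p p') +
      ε * rep y p p' - η / 5000 * (rho p.1 - rho p'.1) ^ 2))
    (A := -(1001 / 1000 * nd k0 p p' + (1 + η / 100) ^ 2 * nd (Model4_O y) p p'))
    (B := -((1 + η / 100) ^ 2 * nd Kin p p'))
    (sq_nonneg _) (sq_nonneg _) (sin_sq_add_cos_sq (φ (rho p.1))) (fun hs => by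
      have h4 := D.big hs
      have h5 : 0 ≤ 1 - ‖cin p.2 p'.2‖ := sub_nonneg.2 (norm_cin_le p.2 p'.2)
      have h6 : 8 / π ^ 2 * (1 - ‖cin p.2 p'.2‖) ≤ angP p p' / 200 := by
        have h7 : 8 / π ^ 2 ≤ 2 * rho p.1 * rho p'.1 / 200 := by
          have h8 : 8 / π ^ 2 ≤ 9 / 10 := by
            rw [div_le_iff₀ (by linarith [E1_pi.1])]
            linarith [E1_pi.1]
          have h9 : 10 * 9 ≤ rho p.1 * rho p'.1 :=
            mul_le_mul h4 (by linarith [h1.2]) (by norm_num) (by linarith)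
          linarith only [h8, h9]
        have := mul_le_mul_of_nonneg_right h7 h5
        unfold angP ang
        linarith only [this]
      have h7 := Model4_A2 (n1 := nd (Model4_O y) p p') D.h0 D.h1 (sg_nonneg y p.1 p'.1)
        (sq_nonneg _) a0 D.b0 (k0_up p p') (by
          rw [Model4_nd]
          linarith [outer_up D.y1 p p'])
      unfold Dsq
      linarith) (fun hc => by
      have h4 := hF p' (hd.trans_le (min_le_left _ _)) (D.small hc)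
      have h5 : 0 ≤ bm * angP p p' := mul_nonneg (by linarith only [D.b0]) a0
      have h6 := Model4_B2 (D := Dsq y p.1 p'.1 + bm * angP p p') (c := 0) (n := nd Kin p p')
        (d := (rho p.1 - rho p'.1) ^ 2) D.h0 D.h1 (add_nonneg (Dsq_nonneg _ _ _) h5) le_rfl a1
        (Or.inl (by
          unfold Dsq
          linarith [sg_nonneg y p.1 p'.1])) (by linarith)
      linarith only [h6])
  linarith

lemma Model4_D.upB (D : Model4_D y η bm μ ω R φ Kin) (p : Pt I0) (hR : rho p.1 < R⁻¹) (ε : ℝ)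
    (hε : 0 < ε) :
    ∃ δ > 0, ∀ p', rep y p p' < δ → 1001 / 1000 * (sin (φ (rho p.1)) ^ 2 * nd k0 p p') +
      (1 + η / 100) * nd (Model4_K y φ Kin) p p' ≤
      (1 - η / 4) * sg y p.1 p'.1 + 99 / 100 * ((rho p.1 - rho p'.1) ^ 2 + angP p p') +
        ε * rep y p p' := by
  obtain ⟨δ, hδ, hF⟩ := D.inn.upB p hR (ε / 2) (half_pos hε)
  refine ⟨min δ (1 ^ 2), lt_min hδ (by norm_num), fun p' hd => ?_⟩
  have h1 := abs_lt.1 (Inner_close one_pos (hd.trans_le (min_le_right _ _)))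
  have h2 := D.up (p := p) (p' := p') (by linarith [h1.1])
  have a0 := Inner_angP_nonneg p p'
  have a1 : 0 ≤ ε * rep y p p' := mul_nonneg hε.le ((sq_nonneg _).trans (Inner_sq_le y p p'))
  have h4 := hF p' (hd.trans_le (min_le_left _ _))
  have h6 := Model4_B2 (c := (rho p.1 - rho p'.1) ^ 2 + angP p p') (n := nd Kin p p')
    (d := (rho p.1 - rho p'.1) ^ 2) D.h0 D.h1 (sg_nonneg y p.1 p'.1) (by positivity) a1
    (Or.inr (by linarith only [a0])) (by linarith)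
  rw [D.inv hR, cos_zero, sin_zero] at *
  linarith

lemma Model4_D.out (D : Model4_D y η bm μ ω R φ Kin) :
    ModelOut y η bm μ ω R (fun r => sin (φ r)) (Model4_K y φ Kin) := by
  refine ⟨D.weak, fun r => ?_, fun r => sin_le_one _, fun r h => ?_, fun r h => ?_,
    fun r r' h0 h => ?_, fun p => ?_, D.lowA, D.lowB, D.upA, D.upB⟩
  · exact sin_nonneg_of_nonneg_of_le_pi (D.φm r).1 (by linarith [(D.φm r).2, pi_pos])
  · rw [D.φ1 r h, sin_pi_div_two]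
  · rw [D.φ0 r (by linarith), sin_zero]
  · have h1 := mul_le_mul (abs_sin_sub_sin_le (φ r) (φ r')) (le_max_left r' 10) h0 (abs_nonneg _)
    have h2 := mul_nonneg D.h0.le (sub_nonneg.2 h)
    linarith [D.φlip r r' h]
  · have h1 := D.R10
    have h2 := D.y1
    have h3 := Inner_mix (G := -(100 * (R + y) ^ 2)) (A := -Model4_O y p p) (B := -Kin p p)
      (sq_nonneg _) (sq_nonneg _) (sin_sq_add_cos_sq (φ (rho p.1)))
      (fun _ => by nlinarith [Model4_diag D.y1 D.y4 p]) (fun hc => by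
        have h4 : (rho p.1 + 5) ^ 2 ≤ (2 * (R + y)) ^ 2 :=
          pow_le_pow_left₀ (by linarith [rho_nonneg p.1]) (by linarith [D.small hc]) 2
        nlinarith [D.inn.diag p, sq_nonneg (R + y)])
    unfold Model4_K
    linarith

theorem model4 {η : ℝ} (hη : 0 < η) (hη1 : η ≤ 1 / 1000) : ∃ R1, 10 ≤ R1 ∧ ∀ R, R1 ≤ R →
    ∀ y bm μ ω : ℝ, 1 ≤ y → y ≤ 4 → 998 / 1000 ≤ bm → bm ≤ 1 → 0 ≤ μ → μ ≤ 1 / 1000 → 0 ≤ ω →
      ∀ Kin, InnerOut y η bm μ ω R Kin → ∃ W K, ModelOut y η bm μ ω R W K := by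
  obtain ⟨L, hL, hφ⟩ := logWin (β := η / 10000) (by positivity)
  obtain ⟨φ, h1, h2, h3, h4⟩ := hφ 10 (by norm_num)
  refine ⟨L * 10, by linarith, fun R hR y bm μ ω y1 y4 b0 b1 m0 m1 w0 Kin hK => ?_⟩
  exact ⟨_, _, Model4_D.out (φ := φ) ⟨hη, hη1, y1, y4, b0, b1, m0, m1, w0, by linarith, h1, h2,
    fun r hr => h3 r (hR.trans hr), h4, hK⟩⟩

end Pool.Agent.Work.MP_0ba68b_gt.CX
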