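import Mathlib.Analysis.InnerProductSpace.Projection.FiniteDimensional
import Mathlib.Analysis.Calculus.FDeriv.Basic
import Pool.Agent.Work.MP_0ba68b_gt.CX.Base2

/-!
Finite dimensional unitary representations of the unit quaternions: definitions.
-/

open scoped Quaternion ComplexConjugate
open Real

namespace Pool.Agent.Work.MP_0ba68b_gt.CX

noncomputable section

/-- A multiplicative family of operators, isometric for unit quaternions, differentiable at `1`.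
The model is `lam u h = fun x => h (u * x)`. -/
structure QRep (W : Type) [NormedAddCommGroup W] [InnerProductSpace ℂ W] where
  lam : ℍ[ℝ] → W →L[ℂ] W
  lam_one : ∀ w, lam 1 w = w
  lam_mul : ∀ u v w, lam (u * v) w = lam v (lam u w)
  norm_lam : ∀ (u : S3) w, ‖lam u w‖ = ‖w‖
  diff : DifferentiableAt ℝ lam 1

namespace QRep

variable {W : Type} [NormedAddCommGroup W] [InnerProductSpace ℂ W] (Λ : QRep W)

/-- The derivative at `1`. -/
def gen (v : ℍ[ℝ]) : W →L[ℂ] W := fderiv ℝ Λ.lam 1 v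

/-- The generator along `i`. -/
def gI : W →L[ℂ] W := Λ.gen ⟨0, 1, 0, 0⟩
/-- The generator along `j`. -/
def gJ : W →L[ℂ] W := Λ.gen ⟨0, 0, 1, 0⟩
/-- The generator along `k`. -/
def gK : W →L[ℂ] W := Λ.gen ⟨0, 0, 0, 1⟩

/-- The Casimir operator. -/
def cas : W →L[ℂ] W := -(Λ.gI * Λ.gI + Λ.gJ * Λ.gJ + Λ.gK * Λ.gK)

/-- The raising operator. -/
def Xp : W →L[ℂ] W := Λ.gJ + Complex.I • Λ.gK
/-- The lowering operator. -/
def Xm : W →L[ℂ] W := Λ.gJ - Complex.I • Λ.gK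

/-- Vectors of weight `s.1` and Casimir value `s.2`. -/
def E (s : ℤ × ℝ) : Submodule ℂ W where
  carrier := {h | Λ.gI h = (Complex.I * s.1) • h ∧ Λ.cas h = (s.2 : ℂ) • h}
  add_mem' := by
    rintro a b ⟨h1, h2⟩ ⟨h3, h4⟩
    exact ⟨by rw [map_add, h1, h3, smul_add], by rw [map_add, h2, h4, smul_add]⟩
  zero_mem' := ⟨by simp, by simp⟩
  smul_mem' := by
    rintro c a ⟨h1, h2⟩
    exact ⟨by rw [map_smul, h1, smul_comm], by rw [map_smul, h2, smul_comm]⟩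

lemma mem_E {s : ℤ × ℝ} {h : W} :
    h ∈ Λ.E s ↔ Λ.gI h = (Complex.I * s.1) • h ∧ Λ.cas h = (s.2 : ℂ) • h := Iff.rfl

variable [FiniteDimensional ℂ W]

/-- The projection on `E s`. -/
def pr (s : ℤ × ℝ) : W →L[ℂ] W := (Λ.E s).starProjection

lemma pr_mem (s : ℤ × ℝ) (h : W) : Λ.pr s h ∈ Λ.E s := Submodule.starProjection_apply_mem _ _

/-- The projection on the vectors of weight zero. -/
def P0 : W →L[ℂ] W := (LinearMap.ker (Λ.gI : W →ₗ[ℂ] W)).starProjection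

/-- A finite symmetric set of labels that carries the whole space. -/
structure Supp (S : Finset (ℤ × ℝ)) : Prop where
  symm : ∀ s ∈ S, (-s.1, s.2) ∈ S
  zero : ∀ s, s ∉ S → ∀ h, Λ.pr s h = 0
  sum : ∀ h, ∑ s ∈ S, Λ.pr s h = h

/-- The saving functional. -/
def sav (q : ℕ) (h : W) : ℝ :=
  2 * (‖h‖ ^ 2 - ‖Λ.P0 h‖ ^ 2) - ‖Λ.pr (q, q ^ 2 + 2 * q) h‖ ^ 2 -
    ‖Λ.pr (-q, q ^ 2 + 2 * q) h‖ ^ 2

end QRep

/-- The horizontal energy of the label `s`. -/
def en (s : ℤ × ℝ) : ℝ := (s.2 - (s.1 : ℝ) ^ 2) / 2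

/-- The Veronese kernel of weight `n`. -/
def vk (n : ℤ) (x x' : S3) : ℂ := (if 0 ≤ n then cin x x' else conj (cin x x')) ^ n.natAbs

/-- The share of the flat kernel. -/
def th (s : ℤ × ℝ) : ℝ := if s.1 = 0 then 0 else max 0 (min 1 (3 * |(s.1 : ℝ)| / en s))

namespace QRep

variable {W : Type} [NormedAddCommGroup W] [InnerProductSpace ℂ W] [FiniteDimensional ℂ W]
  (Λ : QRep W) {I : Set ℝ}

/-- The kernel of one label. -/
def ks (h : Ax I → W) (s : ℤ × ℝ) (p p' : Pt I) : ℝ :=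
  (1 - th s) * (inner ℂ (Λ.lam p.2 (Λ.pr s (h p.1))) (Λ.lam p'.2 (Λ.pr s (h p'.1))) *
      vk s.1 p.2 p'.2).re +
    th s * (inner ℂ (Λ.pr s (h p.1)) (Λ.pr s (h p'.1))).re

/-- The part of weight zero. -/
def K0 (S : Finset (ℤ × ℝ)) (h : Ax I → W) (p p' : Pt I) : ℝ :=
  ∑ s ∈ S with s.1 = 0, Λ.ks h s p p'

/-- The part of nonzero weight. -/
def K1 (S : Finset (ℤ × ℝ)) (h : Ax I → W) (p p' : Pt I) : ℝ :=
  ∑ s ∈ S with s.1 ≠ 0, Λ.ks h s p p'

/-- Equivariant families of vectors. -/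
structure Fam (q : ℕ) (h : Ax I → W) : Prop where
  zq : ∀ a, Λ.lam (ec (2 * π / q)) (h a) = h a
  tw : ∀ a (m : ℤ × ℤ), Λ.lam (jj ^ (m.1 + m.2) : S3) (h (shift a m.1 m.2)) = h a

end QRep

end

end Pool.Agent.Work.MP_0ba68b_gt.CX
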