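import Mathlib.Analysis.Calculus.FDeriv.Mul
import Mathlib.Analysis.InnerProductSpace.PiL2
import Pool.Agent.Work.MP_0ba68b_gt.CX.Haar
import Pool.Agent.Work.MP_0ba68b_gt.CX.QDefs

/-!
The representation on homogeneous polynomial maps `ℍ → ℂ ^ N`.

PLAN.  Coordinates `co a x` (`a : Fin 4`) of a quaternion.  `b σ i = fun x => (∏ l, co (σ l) x : ℝ) • single i 1`
for `σ : Fin m → Fin 4`, `i : Fin N`; `W₀ = span ℂ (range b) ≤ (ℍ → EuclideanSpace ℂ (Fin N))`, and `W` a `def` copy of `W₀`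
(type synonym, as `Pre` in Ker.lean) with `InnerProductSpace.Core`, `inner f g = ∫ x : S3, ⟪f x, g x⟫ ∂haar`.
Elements are continuous and homogeneous (`f (r • x) = r ^ m • f x`; `Submodule.span_induction`); definiteness from
`eq_zero_of_integral_eq_zero`, `norm_smul_hat`.  `co a (u * x) = ∑ b, M u a b * co b x` with `M u a b = co a (u * e b)`
real linear in `u`; `Finset.prod_univ_sum` gives `b σ i (u * x) = ∑ τ, (∏ l, M u (σ l) (τ l)) • b τ i x`.  So `f ↦ f (u * ·)`
preserves `W₀` (`LinearMap.toContinuousLinearMap`).  Isometry: `integral_mul_left_eq_self`.  Differentiability: for a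
generator, `u ↦ lam u (b σ i)` is a finite sum of products of linear functions times constant vectors; extend to all of
`W` by span induction; then with a basis `v` of `W`: `lam u = ∑ j, (coord j).smulRight (lam u (v j))`
(`ContinuousLinearMap.smulRightL`), or use `differentiableAt_clm_apply`-type lemmas for finite dimensional domains.
Last claim: `⟪x, y⟫ ^ m = ∑ σ, (∏ l, co (σ l) x) (∏ l, co (σ l) y)` (`Finset.sum_pow'`, `Finset.prod_univ_sum`),
`h = ∑ σ, ∑ i, (∫ y, (∏ co (σ l) y) φ y i) • b σ i`.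
-/

open scoped Quaternion RealInnerProductSpace
open Real MeasureTheory

namespace Pool.Agent.Work.MP_0ba68b_gt.CX

noncomputable section

/-- Index set of an orthonormal basis of the quaternions. -/
abbrev PolyW_I : Type := Fin (Module.finrank ℝ ℍ[ℝ])

/-- An orthonormal basis of the quaternions. -/
def PolyW_e : OrthonormalBasis PolyW_I ℝ ℍ[ℝ] := stdOrthonormalBasis ℝ ℍ[ℝ]

/-- Monomials. -/
def PolyW_mono {m : ℕ} (σ : Fin m → PolyW_I) (x : ℍ[ℝ]) : ℝ := ∏ l, ⟪PolyW_e (σ l), x⟫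

/-- Matrix of the left multiplication on monomials. -/
def PolyW_M {m : ℕ} (σ τ : Fin m → PolyW_I) (u : ℍ[ℝ]) : ℝ :=
  ∏ l, ⟪PolyW_e (σ l), u * PolyW_e (τ l)⟫

lemma PolyW_mono_cont {m : ℕ} (σ : Fin m → PolyW_I) : Continuous (PolyW_mono σ) := by
  unfold PolyW_mono
  fun_prop

lemma PolyW_mono_smul {m : ℕ} (σ : Fin m → PolyW_I) (r : ℝ) (x : ℍ[ℝ]) :
    PolyW_mono σ (r • x) = r ^ m * PolyW_mono σ x := by
  simp [PolyW_mono, real_inner_smul_right, Finset.prod_mul_distrib]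

lemma PolyW_mono_mul {m : ℕ} (σ : Fin m → PolyW_I) (u x : ℍ[ℝ]) :
    PolyW_mono σ (u * x) = ∑ τ, PolyW_M σ τ u * PolyW_mono τ x := by
  have h : ∀ a, ⟪PolyW_e a, u * x⟫ = ∑ b, ⟪PolyW_e a, u * PolyW_e b⟫ * ⟪PolyW_e b, x⟫ := by
    intro a
    conv_lhs => rw [← PolyW_e.sum_repr' x]
    rw [Finset.mul_sum, inner_sum]
    refine Finset.sum_congr rfl fun b _ => ?_
    rw [mul_smul_comm, real_inner_smul_right, mul_comm]
  simp only [PolyW_mono, PolyW_M, h, ← Finset.prod_mul_distrib]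
  exact Fintype.prod_sum (fun (l : Fin m) (b : PolyW_I) =>
    ⟪PolyW_e (σ l), u * PolyW_e b⟫ * ⟪PolyW_e b, x⟫)

lemma PolyW_inner_pow (m : ℕ) (x y : ℍ[ℝ]) :
    ⟪x, y⟫ ^ m = ∑ σ : Fin m → PolyW_I, PolyW_mono σ x * PolyW_mono σ y := by
  rw [← PolyW_e.sum_inner_mul_inner x y, Fintype.sum_pow]
  refine Finset.sum_congr rfl fun σ _ => ?_
  simp only [PolyW_mono, ← Finset.prod_mul_distrib]
  exact Finset.prod_congr rfl fun l _ => by rw [real_inner_comm]

lemma PolyW_M_diff {m : ℕ} (σ τ : Fin m → PolyW_I) : Differentiable ℝ (PolyW_M σ τ) := by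
  unfold PolyW_M
  intro x
  have h : ∀ l, DifferentiableAt ℝ (fun u : ℍ[ℝ] => ⟪PolyW_e (σ l), u * PolyW_e (τ l)⟫) x :=
    fun l => (innerSL ℝ (PolyW_e (σ l))).differentiableAt.comp x
      (differentiableAt_id.mul_const (PolyW_e (τ l)))
  exact (HasFDerivAt.finsetProd (u := Finset.univ) fun l _ => (h l).hasFDerivAt).differentiableAt

/-- The generators. -/
def PolyW_b (N m : ℕ) (p : (Fin m → PolyW_I) × Fin N) : ℍ[ℝ] → EuclideanSpace ℂ (Fin N) :=
  fun x => (PolyW_mono p.1 x : ℂ) • EuclideanSpace.single p.2 (1 : ℂ)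

/-- The space of homogeneous polynomial maps, as a submodule. -/
def PolyW_S (N m : ℕ) : Submodule ℂ (ℍ[ℝ] → EuclideanSpace ℂ (Fin N)) :=
  Submodule.span ℂ (Set.range (PolyW_b N m))

lemma PolyW_b_mem (N m : ℕ) (p : (Fin m → PolyW_I) × Fin N) : PolyW_b N m p ∈ PolyW_S N m :=
  Submodule.subset_span ⟨p, rfl⟩

lemma PolyW_cont {N m : ℕ} {f : ℍ[ℝ] → EuclideanSpace ℂ (Fin N)} (hf : f ∈ PolyW_S N m) :
    Continuous f := by
  induction hf using Submodule.span_induction with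
  | mem x hx =>
    obtain ⟨p, rfl⟩ := hx
    exact (Complex.continuous_ofReal.comp (PolyW_mono_cont p.1)).smul continuous_const
  | zero => exact continuous_const
  | add x y _ _ hx hy => exact hx.add hy
  | smul a x _ hx => exact hx.const_smul a

lemma PolyW_hom {N m : ℕ} {f : ℍ[ℝ] → EuclideanSpace ℂ (Fin N)} (hf : f ∈ PolyW_S N m)
    (r : ℝ) (x : ℍ[ℝ]) : f (r • x) = ((r ^ m : ℝ) : ℂ) • f x := by
  induction hf using Submodule.span_induction with
  | mem f hx =>
    obtain ⟨p, rfl⟩ := hx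
    simp only [PolyW_b, PolyW_mono_smul, smul_smul, Complex.ofReal_mul]
  | zero => simp
  | add f g _ _ hx hy => simp only [Pi.add_apply, hx, hy, smul_add]
  | smul a f _ hx => simp only [Pi.smul_apply, hx]; rw [smul_comm]

lemma PolyW_b_mul (N m : ℕ) (p : (Fin m → PolyW_I) × Fin N) (u : ℍ[ℝ]) :
    (fun x => PolyW_b N m p (u * x)) = ∑ τ, (PolyW_M p.1 τ u : ℂ) • PolyW_b N m (τ, p.2) := by
  funext x
  simp only [PolyW_b, PolyW_mono_mul, Finset.sum_apply, Pi.smul_apply, smul_smul,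
    Complex.ofReal_sum, Complex.ofReal_mul, Finset.sum_smul]

lemma PolyW_mul_mem {N m : ℕ} {f : ℍ[ℝ] → EuclideanSpace ℂ (Fin N)} (hf : f ∈ PolyW_S N m)
    (u : ℍ[ℝ]) : (fun x => f (u * x)) ∈ PolyW_S N m := by
  induction hf using Submodule.span_induction with
  | mem f hx =>
    obtain ⟨p, rfl⟩ := hx
    rw [PolyW_b_mul]
    exact Submodule.sum_mem _ fun τ _ => Submodule.smul_mem _ _ (PolyW_b_mem _ _ _)
  | zero => exact Submodule.zero_mem _
  | add f g _ _ hx hy => exact Submodule.add_mem _ hx hy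
  | smul a f _ hx => exact Submodule.smul_mem _ a hx

/-- The space of homogeneous polynomial maps, as a type. -/
def PolyW_W (N m : ℕ) : Type := PolyW_S N m

instance (N m : ℕ) : AddCommGroup (PolyW_W N m) := inferInstanceAs (AddCommGroup (PolyW_S N m))
instance (N m : ℕ) : Module ℂ (PolyW_W N m) := inferInstanceAs (Module ℂ (PolyW_S N m))
instance (N m : ℕ) : FiniteDimensional ℂ (PolyW_W N m) :=
  FiniteDimensional.span_of_finite ℂ (Set.finite_range (PolyW_b N m))

/-- The underlying map. -/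
def PolyW_val (N m : ℕ) : PolyW_W N m →ₗ[ℂ] (ℍ[ℝ] → EuclideanSpace ℂ (Fin N)) :=
  (PolyW_S N m).subtype

lemma PolyW_val_mem {N m : ℕ} (f : PolyW_W N m) : PolyW_val N m f ∈ PolyW_S N m :=
  Subtype.property (p := fun g => g ∈ PolyW_S N m) f

lemma PolyW_val_inj (N m : ℕ) : Function.Injective (PolyW_val N m) := Subtype.val_injective

/-- An element from a map. -/
def PolyW_mk {N m : ℕ} (f : ℍ[ℝ] → EuclideanSpace ℂ (Fin N)) (hf : f ∈ PolyW_S N m) :
    PolyW_W N m := (⟨f, hf⟩ : PolyW_S N m)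

lemma PolyW_val_mk {N m : ℕ} (f : ℍ[ℝ] → EuclideanSpace ℂ (Fin N)) (hf : f ∈ PolyW_S N m) :
    PolyW_val N m (PolyW_mk f hf) = f := rfl

lemma PolyW_cont' {N m : ℕ} (f : PolyW_W N m) : Continuous fun x : S3 => PolyW_val N m f x :=
  (PolyW_cont (PolyW_val_mem f)).comp continuous_subtype_val

lemma PolyW_int {N m : ℕ} (f g : PolyW_W N m) :
    Integrable (fun x : S3 => inner ℂ (PolyW_val N m f x) (PolyW_val N m g x)) haar :=
  integrable_of_cont ((PolyW_cont' f).inner (PolyW_cont' g))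

lemma PolyW_self {N m : ℕ} (f : PolyW_W N m) :
    ∫ x : S3, inner ℂ (PolyW_val N m f x) (PolyW_val N m f x) ∂haar =
      ((∫ x : S3, ‖PolyW_val N m f x‖ ^ 2 ∂haar : ℝ) : ℂ) := by
  rw [← integral_complex_ofReal]
  refine integral_congr_ae (.of_forall fun x => ?_)
  simp only [inner_self_eq_norm_sq_to_K]
  push_cast
  rfl

/-- The inner product. -/
@[reducible] def PolyW_core (N m : ℕ) : InnerProductSpace.Core ℂ (PolyW_W N m) where
  inner f g := ∫ x : S3, inner ℂ (PolyW_val N m f x) (PolyW_val N m g x) ∂haar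
  conj_inner_symm f g := by
    rw [← integral_conj]
    simp only [inner_conj_symm]
  re_inner_nonneg f := by
    rw [PolyW_self]
    exact (integral_nonneg fun x => sq_nonneg _ : 0 ≤ ∫ x : S3, ‖PolyW_val N m f x‖ ^ 2 ∂haar)
  add_left f g k := by
    rw [← integral_add (PolyW_int f k) (PolyW_int g k)]
    simp only [map_add, Pi.add_apply, inner_add_left]
  smul_left f g r := by
    rw [← integral_const_mul]
    simp only [map_smul, Pi.smul_apply, inner_smul_left]
  definite f h := by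
    rw [PolyW_self, Complex.ofReal_eq_zero] at h
    have h1 := eq_zero_of_integral_eq_zero ((PolyW_cont' f).norm.pow 2) (fun x => sq_nonneg _) h
    apply PolyW_val_inj
    funext x
    have h2 : PolyW_val N m f (hat x) = 0 := by simpa using h1 (hat x)
    rw [← norm_smul_hat x, PolyW_hom (PolyW_val_mem f), h2]
    simp

instance (N m : ℕ) : NormedAddCommGroup (PolyW_W N m) :=
  @InnerProductSpace.Core.toNormedAddCommGroup ℂ _ _ _ _ (PolyW_core N m)

instance (N m : ℕ) : InnerProductSpace ℂ (PolyW_W N m) :=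
  InnerProductSpace.ofCore (PolyW_core N m).toCore

lemma PolyW_norm_sq {N m : ℕ} (f : PolyW_W N m) :
    ‖f‖ ^ 2 = ∫ x : S3, ‖PolyW_val N m f x‖ ^ 2 ∂haar := by
  rw [← inner_self_eq_norm_sq (𝕜 := ℂ)]
  change RCLike.re (∫ x : S3, inner ℂ (PolyW_val N m f x) (PolyW_val N m f x) ∂haar) = _
  rw [PolyW_self]
  rfl

/-- The action. -/
def PolyW_lam (N m : ℕ) (u : ℍ[ℝ]) : PolyW_W N m →L[ℂ] PolyW_W N m :=
  LinearMap.toContinuousLinearMap
    { toFun := fun f => PolyW_mk (fun x => PolyW_val N m f (u * x))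
        (PolyW_mul_mem (PolyW_val_mem f) u)
      map_add' := fun _ _ => rfl
      map_smul' := fun _ _ => rfl }

lemma PolyW_val_lam {N m : ℕ} (u : ℍ[ℝ]) (f : PolyW_W N m) (x : ℍ[ℝ]) :
    PolyW_val N m (PolyW_lam N m u f) x = PolyW_val N m f (u * x) := rfl

lemma PolyW_diff_clm {W : Type} [NormedAddCommGroup W] [InnerProductSpace ℂ W]
    [FiniteDimensional ℂ W] (L : ℍ[ℝ] → W →L[ℂ] W) (x : ℍ[ℝ])
    (h : ∀ w, DifferentiableAt ℝ (fun u => L u w) x) : DifferentiableAt ℝ L x := by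
  let v := Module.finBasis ℂ W
  have hL : L = fun u => ∑ j, ContinuousLinearMap.smulRightL ℂ W W
      (LinearMap.toContinuousLinearMap (v.coord j)) (L u (v j)) := by
    funext u
    ext w
    have h1 : L u w = ∑ j, v.repr w j • L u (v j) := by
      conv_lhs => rw [← v.sum_repr w]
      simp only [map_sum, map_smul]
    simpa using h1
  rw [hL]
  refine DifferentiableAt.fun_sum fun j _ => ?_
  exact ((ContinuousLinearMap.smulRightL ℂ W W
    (LinearMap.toContinuousLinearMap (v.coord j))).restrictScalars ℝ).differentiableAt.comp x (h _)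

lemma PolyW_lam_diff {N m : ℕ} (f : ℍ[ℝ] → EuclideanSpace ℂ (Fin N)) (hf : f ∈ PolyW_S N m)
    (x : ℍ[ℝ]) : DifferentiableAt ℝ (fun u => PolyW_lam N m u (PolyW_mk f hf)) x := by
  induction hf using Submodule.span_induction with
  | mem f hx =>
    obtain ⟨p, rfl⟩ := hx
    have : (fun u => PolyW_lam N m u (PolyW_mk (PolyW_b N m p) (PolyW_b_mem N m p))) =
        fun u => ∑ τ, PolyW_M p.1 τ u • PolyW_mk (PolyW_b N m (τ, p.2)) (PolyW_b_mem N m _) := by
      funext u
      apply PolyW_val_inj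
      simp only [← Complex.coe_smul, map_sum, map_smul, PolyW_val_mk]
      exact PolyW_b_mul N m p u
    refine this ▸ DifferentiableAt.fun_sum fun τ _ => ?_
    exact (PolyW_M_diff p.1 τ x).smul_const _
  | zero =>
    exact differentiableAt_const (0 : PolyW_W N m)
  | add f g hf hg hx hy => exact hx.add hy
  | smul a f hf hx => exact hx.const_smul a

/-- The representation. -/
def PolyW_rep (N m : ℕ) : QRep (PolyW_W N m) where
  lam := PolyW_lam N m
  lam_one w := by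
    apply PolyW_val_inj
    funext x
    rw [PolyW_val_lam, one_mul]
  lam_mul u v w := by
    apply PolyW_val_inj
    funext x
    simp only [PolyW_val_lam, mul_assoc]
  norm_lam u w := by
    rw [← sq_eq_sq₀ (norm_nonneg _) (norm_nonneg _), PolyW_norm_sq, PolyW_norm_sq]
    exact integral_mul_left_eq_self (fun x : S3 => ‖PolyW_val N m w x‖ ^ 2) u
  diff := PolyW_diff_clm _ _ fun w => PolyW_lam_diff _ (PolyW_val_mem w) 1

/-- Evaluation at `1`. -/
def PolyW_ev (N m : ℕ) : PolyW_W N m →L[ℂ] EuclideanSpace ℂ (Fin N) :=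
  LinearMap.toContinuousLinearMap ((LinearMap.proj (1 : ℍ[ℝ])).comp (PolyW_val N m))

lemma PolyW_ev_lam {N m : ℕ} (u : ℍ[ℝ]) (f : PolyW_W N m) :
    PolyW_ev N m ((PolyW_rep N m).lam u f) = PolyW_val N m f u := by
  change PolyW_val N m f (u * 1) = _
  rw [mul_one]

lemma PolyW_conv {N : ℕ} (m : ℕ) {φ : S3 → EuclideanSpace ℝ (Fin N)} (hφ : Continuous φ)
    (x : ℍ[ℝ]) (i : Fin N) : (∫ z : S3, ⟪x, (z : ℍ[ℝ])⟫ ^ m • φ z ∂haar) i =
      ∑ σ : Fin m → PolyW_I, (∫ z : S3, PolyW_mono σ z * φ z i ∂haar) * PolyW_mono σ x := by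
  have h1 : Integrable (fun z : S3 => ⟪x, (z : ℍ[ℝ])⟫ ^ m • φ z) haar :=
    integrable_of_cont (by fun_prop)
  have h2 := (EuclideanSpace.proj (𝕜 := ℝ) i).integral_comp_comm h1
  have h3 : Continuous fun z => φ z i := (EuclideanSpace.proj (𝕜 := ℝ) i).continuous.comp hφ
  refine h2.symm.trans ?_
  simp only [← integral_mul_const]
  have h4 : ∀ σ : Fin m → PolyW_I,
      Integrable (fun z : S3 => PolyW_mono σ z * φ z i * PolyW_mono σ x) haar := fun σ =>
    integrable_of_cont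
      ((((PolyW_mono_cont σ).comp continuous_subtype_val).mul h3).mul continuous_const)
  rw [← integral_finsetSum _ fun σ _ => h4 σ]
  refine integral_congr_ae (.of_forall fun z => ?_)
  change ⟪x, (z : ℍ[ℝ])⟫ ^ m * φ z i = _
  rw [PolyW_inner_pow, Finset.sum_mul]
  exact Finset.sum_congr rfl fun σ _ => by ring

end

theorem exists_qrep (N m : ℕ) : ∃ (W : Type) (_ : NormedAddCommGroup W)
    (_ : InnerProductSpace ℂ W) (_ : FiniteDimensional ℂ W) (Λ : QRep W)
    (ev : W →L[ℂ] EuclideanSpace ℂ (Fin N)),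
    (∀ h, ‖h‖ ^ 2 = ∫ x : S3, ‖ev (Λ.lam x h)‖ ^ 2 ∂haar) ∧
    ∀ φ : S3 → EuclideanSpace ℝ (Fin N), Continuous φ → ∃ h : W, ∀ (x : S3) (i : Fin N),
      ev (Λ.lam x h) i = (((∫ z : S3, ⟪(x : ℍ[ℝ]), (z : ℍ[ℝ])⟫ ^ m • φ z ∂haar) i : ℝ) : ℂ) := by
  refine ⟨PolyW_W N m, inferInstance, inferInstance, inferInstance, PolyW_rep N m, PolyW_ev N m,
    fun h => ?_, fun φ hφ => ?_⟩
  · simp only [PolyW_ev_lam, PolyW_norm_sq]
  · refine ⟨∑ σ : Fin m → PolyW_I, ∑ j, ((∫ z : S3, PolyW_mono σ z * φ z j ∂haar : ℝ) : ℂ) •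
      PolyW_mk (PolyW_b N m (σ, j)) (PolyW_b_mem N m _), fun x i => ?_⟩
    rw [PolyW_ev_lam, PolyW_conv m hφ]
    simp [map_sum, PolyW_val_mk, PolyW_b, Pi.single_apply]

end Pool.Agent.Work.MP_0ba68b_gt.CX
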