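import Mathlib.Analysis.Calculus.MeanValue
import Mathlib.Analysis.InnerProductSpace.Calculus
import Pool.Agent.Work.MP_0ba68b_gt.CX.QDefs

/-!
The Lie algebra of a representation.

PLAN.  `hasDerivAt_gen`: chain rule (`HasFDerivAt.comp_hasDerivAt`) for `Λ.diff.hasFDerivAt`, then
evaluation at `h` (`HasDerivAt.clm_apply` needs the same field; use instead the real continuous linear map
`(ContinuousLinearMap.apply ℂ W h).restrictScalars ℝ` and `HasFDerivAt.comp_hasDerivAt`).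
Flows: `ec (φ + s) = ec φ * ec s`, so `lam (ec (φ + s)) h = lam (ec s) (lam (ec φ) h)`; the curve
`s ↦ (ec s : ℍ)` has derivative `i` at `0`.  `gen_conj`: the curve `c s = 1 + s • v`, and
`lam u (lam (u * c s * u⁻¹) h) = lam (c s) (lam u h)` (both are `lam (u * c s) h`); uniqueness of derivatives.
Skewness for `i`, `j`: differentiate `⟪lam (ec s) h, lam (ec s) h'⟫ = ⟪h, h'⟫` at `0` (`HasDerivAt.inner`);
for `k = u j u⁻¹`, `u = ec (π/4)`, use `gen_conj`.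
Commutators: differentiate `gen_conj` along `u = ec s` (resp. `ej s`) at `s = 0`:
`ec s * j * ec (-s) = cos (2s) j + sin (2s) k`, `ec s * k * ec (-s) = cos (2s) k - sin (2s) j`,
`ej s * k * ej (-s) = cos (2s) k + sin (2s) i`; `gen` is real linear.
`cas_lam`: `cas` commutes with `gI`, `gJ` (algebra from the commutators); the function
`s ↦ lam (ec (-s)) (cas (lam (ec s) h))` has derivative zero (`is_const_of_deriv_eq_zero`); or use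
`gen_conj` and the three rotation formulas directly; then `hopf 1 u`.
Continuity: `lam x h - lam x₀ h = lam x₀ (lam (x * x₀⁻¹) h - h)`, and `lam` is continuous at `1`.
`norm_gen_le`: `HasDerivAt.le_of_lip'`-type bound at `0` with `‖ec s - 1‖ ≤ |s|`; for `k` use the curve
`ec (π/4) * ej s * ec (-π/4)`.
-/

open scoped Quaternion ComplexConjugate
open Real

namespace Pool.Agent.Work.MP_0ba68b_gt.CX.QRep

variable {W : Type} [NormedAddCommGroup W] [InnerProductSpace ℂ W] (Λ : QRep W)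

lemma lam_mulS (u v : S3) (h : W) : Λ.lam (u * v : S3) h = Λ.lam v (Λ.lam u h) := by
  rw [Metric.unitSphere.coe_mul, Λ.lam_mul]

lemma lam_oneS (h : W) : Λ.lam (1 : S3) h = h := Λ.lam_one h

lemma inner_lam (u : S3) (h h' : W) : inner ℂ (Λ.lam u h) (Λ.lam u h') = inner ℂ h h' := by
  exact (LinearIsometry.mk (Λ.lam u).toLinearMap (Λ.norm_lam u)).inner_map_map h h'

lemma QRep_op {c : ℝ → ℍ[ℝ]} {v : ℍ[ℝ]} {t : ℝ} (hc : HasDerivAt c v t) (h1 : c t = 1) :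
    HasDerivAt (fun s => Λ.lam (c s)) (Λ.gen v) t :=
  (h1 ▸ Λ.diff.hasFDerivAt : HasFDerivAt Λ.lam (fderiv ℝ Λ.lam 1) (c t)).comp_hasDerivAt t hc

lemma QRep_app {T : ℝ → W →L[ℂ] W} {T' : W →L[ℂ] W} {t : ℝ} (hT : HasDerivAt T T' t) (h : W) :
    HasDerivAt (fun s => T s h) (T' h) t :=
  ((ContinuousLinearMap.apply ℂ W h).restrictScalars ℝ).hasFDerivAt.comp_hasDerivAt t hT

lemma QRep_curve (v : ℍ[ℝ]) : HasDerivAt (fun s => cos s • (1 : ℍ[ℝ]) + sin s • v) v 0 := by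
  simpa using ((hasDerivAt_cos 0).smul_const (1 : ℍ[ℝ])).fun_add ((hasDerivAt_sin 0).smul_const v)

/-- `exp (k t)`. -/
noncomputable def QRep_ek (t : ℝ) : S3 := mkS ⟨cos t, 0, 0, sin t⟩ (by simp)

lemma QRep_ek_zero : QRep_ek 0 = 1 := by
  apply Subtype.ext
  ext <;> simp [QRep_ek, mkS]

lemma QRep_dc : HasDerivAt (fun s => (ec s : ℍ[ℝ])) ⟨0, 1, 0, 0⟩ 0 := by
  convert QRep_curve ⟨0, 1, 0, 0⟩ using 2
  ext <;> simp

lemma QRep_dj : HasDerivAt (fun s => (ej s : ℍ[ℝ])) ⟨0, 0, 1, 0⟩ 0 := by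
  convert QRep_curve ⟨0, 0, 1, 0⟩ using 2
  ext <;> simp

lemma QRep_dk : HasDerivAt (fun s => (QRep_ek s : ℍ[ℝ])) ⟨0, 0, 0, 1⟩ 0 := by
  convert QRep_curve ⟨0, 0, 0, 1⟩ using 2
  ext <;> simp [QRep_ek, mkS]

lemma QRep_gen_im (a b c : ℝ) (h : W) :
    Λ.gen ⟨0, a, b, c⟩ h = a • Λ.gI h + b • Λ.gJ h + c • Λ.gK h := by
  have e : (⟨0, a, b, c⟩ : ℍ[ℝ]) = a • (⟨0, 1, 0, 0⟩ : ℍ[ℝ]) + b • (⟨0, 0, 1, 0⟩ : ℍ[ℝ]) +
      c • (⟨0, 0, 0, 1⟩ : ℍ[ℝ]) := by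
    ext <;> simp
  have key : ∀ x y z : ℍ[ℝ], Λ.gen (a • x + b • y + c • z) h =
      a • Λ.gen x h + b • Λ.gen y h + c • Λ.gen z h := fun x y z => by
    rw [gen, map_add, map_add, map_smul, map_smul, map_smul]
    rfl
  exact (congrArg (fun v => Λ.gen v h) e).trans (key _ _ _)

lemma hasDerivAt_gen {c : ℝ → ℍ[ℝ]} {v : ℍ[ℝ]} {t : ℝ} (hc : HasDerivAt c v t) (h1 : c t = 1)
    (h : W) : HasDerivAt (fun s => Λ.lam (c s) h) (Λ.gen v h) t := by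
  exact QRep_app (Λ.QRep_op hc h1) h

lemma QRep_flow {c : ℝ → S3} {v : ℍ[ℝ]} (hc : HasDerivAt (fun s => (c s : ℍ[ℝ])) v 0)
    (h0 : c 0 = 1) (ha : ∀ s t, c (s + t) = c s * c t) (h : W) (φ : ℝ) :
    HasDerivAt (fun s => Λ.lam (c s) h) (Λ.gen v (Λ.lam (c φ) h)) φ := by
  have h1 : HasDerivAt (fun s => (c (s - φ) : ℍ[ℝ])) v φ :=
    HasDerivAt.comp_sub_const φ φ (f := fun s => (c s : ℍ[ℝ])) (by rwa [sub_self])
  convert Λ.hasDerivAt_gen h1 (by rw [sub_self, h0]; rfl) (Λ.lam (c φ) h) using 2 with s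
  rw [← lam_mulS, ← ha, add_sub_cancel]

lemma hasDerivAt_ec (h : W) (φ : ℝ) :
    HasDerivAt (fun s => Λ.lam (ec s) h) (Λ.gI (Λ.lam (ec φ) h)) φ := by
  exact Λ.QRep_flow QRep_dc ec_zero ec_add h φ

lemma hasDerivAt_ej (h : W) (t : ℝ) :
    HasDerivAt (fun s => Λ.lam (ej s) h) (Λ.gJ (Λ.lam (ej t) h)) t := by
  exact Λ.QRep_flow QRep_dj ej_zero ej_add h t

lemma QRep_conj {u v w : ℍ[ℝ]} (e : w * u = u * v) (h : W) :
    Λ.lam u (Λ.gen w h) = Λ.gen v (Λ.lam u h) := by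
  have hc : ∀ x : ℍ[ℝ], HasDerivAt (fun s : ℝ => 1 + s • x) x 0 := fun x => by
    simpa using ((hasDerivAt_id (0 : ℝ)).smul_const x).const_add 1
  have h1 := ((Λ.lam u).restrictScalars ℝ).hasFDerivAt.comp_hasDerivAt 0
    (Λ.hasDerivAt_gen (hc w) (by simp) h)
  refine h1.unique ?_
  convert Λ.hasDerivAt_gen (hc v) (by simp) (Λ.lam u h) using 1
  funext s
  show Λ.lam u (Λ.lam (1 + s • w) h) = _
  rw [← Λ.lam_mul, ← Λ.lam_mul, add_mul, mul_add, smul_mul_assoc, mul_smul_comm, e, one_mul,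
    mul_one]

lemma gen_conj (u : S3) (v : ℍ[ℝ]) (h : W) :
    Λ.lam u (Λ.gen (u * v * (u⁻¹ : S3)) h) = Λ.gen v (Λ.lam u h) := by
  refine Λ.QRep_conj ?_ h
  rw [mul_assoc, ← Metric.unitSphere.coe_mul, inv_mul_cancel]
  exact mul_one _

lemma gI_lam_ec (φ : ℝ) (h : W) : Λ.gI (Λ.lam (ec φ) h) = Λ.lam (ec φ) (Λ.gI h) := by
  exact (Λ.QRep_conj (by ext <;> simp) h).symm

lemma gJ_lam_ej (t : ℝ) (h : W) : Λ.gJ (Λ.lam (ej t) h) = Λ.lam (ej t) (Λ.gJ h) := by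
  exact (Λ.QRep_conj (by ext <;> simp) h).symm

lemma gI_lam_jj (h : W) : Λ.gI (Λ.lam jj h) = -Λ.lam jj (Λ.gI h) := by
  have := Λ.QRep_conj (u := jj) (v := ⟨0, 1, 0, 0⟩) (w := ⟨0, -1, 0, 0⟩) (by ext <;> simp) h
  rw [QRep_gen_im, neg_smul, one_smul, zero_smul, zero_smul, add_zero, add_zero, map_neg] at this
  exact this.symm

lemma QRep_skew {c : ℝ → S3} {v : ℍ[ℝ]} (hc : HasDerivAt (fun s => (c s : ℍ[ℝ])) v 0)
    (h0 : c 0 = 1) (h h' : W) : inner ℂ (Λ.gen v h) h' = -inner ℂ h (Λ.gen v h') := by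
  have e : (c 0 : ℍ[ℝ]) = 1 := by rw [h0]; rfl
  have h1 := (Λ.hasDerivAt_gen hc e h).inner ℂ (Λ.hasDerivAt_gen hc e h')
  simp only [inner_lam] at h1
  have h2 := h1.unique (hasDerivAt_const _ _)
  rw [e, Λ.lam_one, Λ.lam_one] at h2
  exact eq_neg_of_add_eq_zero_right h2

lemma skew_gI (h h' : W) : inner ℂ (Λ.gI h) h' = -inner ℂ h (Λ.gI h') := by
  exact Λ.QRep_skew QRep_dc ec_zero h h'

lemma skew_gJ (h h' : W) : inner ℂ (Λ.gJ h) h' = -inner ℂ h (Λ.gJ h') := by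
  exact Λ.QRep_skew QRep_dj ej_zero h h'

lemma skew_gK (h h' : W) : inner ℂ (Λ.gK h) h' = -inner ℂ h (Λ.gK h') := by
  exact Λ.QRep_skew QRep_dk QRep_ek_zero h h'

lemma QRep_comm {c : ℝ → S3} {w : ℍ[ℝ]} (hc : HasDerivAt (fun s => (c s : ℍ[ℝ])) w 0)
    (h0 : c 0 = 1) (hn : ∀ s, c (-s) = (c s)⁻¹) (v : ℍ[ℝ]) (h : W) :
    Λ.gen v (Λ.gen w h) - Λ.gen w (Λ.gen v h) = Λ.gen (w * v - v * w) h := by
  have e : (c 0 : ℍ[ℝ]) = 1 := by rw [h0]; rfl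
  have h1 : HasDerivAt (fun s => (c (-s) : ℍ[ℝ])) (-w) 0 := by
    exact (HasDerivAt.scomp (0 : ℝ) (g₁ := fun s => (c s : ℍ[ℝ])) (by rwa [neg_zero])
      (hasDerivAt_neg (0 : ℝ))).congr_deriv (neg_one_smul ℝ w)
  have h2 : HasDerivAt (fun s => (c s : ℍ[ℝ]) * v * c (-s)) (w * v - v * w) 0 := by
    refine ((hc.mul_const v).fun_mul h1).congr_deriv ?_
    rw [neg_zero, e, mul_one, one_mul, mul_neg, sub_eq_add_neg]
  have h3 := QRep_app ((Λ.QRep_op hc e).fun_mul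
    ((fderiv ℝ Λ.lam 1).hasFDerivAt.comp_hasDerivAt 0 h2)) h
  have h4 := ((Λ.gen v).restrictScalars ℝ).hasFDerivAt.comp_hasDerivAt 0
    (Λ.hasDerivAt_gen hc e h)
  have h5 := h3.unique (h4.congr_of_eventuallyEq (Filter.Eventually.of_forall fun s => by
    have := Λ.gen_conj (c s) v h
    rw [← hn] at this
    exact this))
  simp only [Function.comp, neg_zero, e, mul_one, one_mul, add_apply, mul_apply_eq_comp,
    Λ.lam_one] at h5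
  exact sub_eq_of_eq_add' h5.symm

lemma comm_IJ (h : W) : Λ.gI (Λ.gJ h) - Λ.gJ (Λ.gI h) = (-2 : ℂ) • Λ.gK h := by
  refine (Λ.QRep_comm QRep_dj ej_zero ej_neg _ h).trans ?_
  rw [show (⟨0, 0, 1, 0⟩ * ⟨0, 1, 0, 0⟩ - ⟨0, 1, 0, 0⟩ * ⟨0, 0, 1, 0⟩ : ℍ[ℝ]) = ⟨0, 0, 0, -2⟩ by
    ext <;> norm_num, QRep_gen_im]
  module

lemma comm_JK (h : W) : Λ.gJ (Λ.gK h) - Λ.gK (Λ.gJ h) = (-2 : ℂ) • Λ.gI h := by
  rw [← neg_sub]
  refine (congrArg _ (Λ.QRep_comm QRep_dj ej_zero ej_neg _ h)).trans ?_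
  rw [show (⟨0, 0, 1, 0⟩ * ⟨0, 0, 0, 1⟩ - ⟨0, 0, 0, 1⟩ * ⟨0, 0, 1, 0⟩ : ℍ[ℝ]) = ⟨0, 2, 0, 0⟩ by
    ext <;> norm_num, QRep_gen_im]
  module

lemma comm_KI (h : W) : Λ.gK (Λ.gI h) - Λ.gI (Λ.gK h) = (-2 : ℂ) • Λ.gJ h := by
  refine (Λ.QRep_comm QRep_dc ec_zero ec_neg _ h).trans ?_
  rw [show (⟨0, 1, 0, 0⟩ * ⟨0, 0, 0, 1⟩ - ⟨0, 0, 0, 1⟩ * ⟨0, 1, 0, 0⟩ : ℍ[ℝ]) = ⟨0, 0, -2, 0⟩ by
    ext <;> norm_num, QRep_gen_im]
  module

lemma cas_apply (h : W) :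
    Λ.cas h = -(Λ.gI (Λ.gI h) + Λ.gJ (Λ.gJ h) + Λ.gK (Λ.gK h)) := by
  rfl

lemma cas_symm (h h' : W) : inner ℂ (Λ.cas h) h' = inner ℂ h (Λ.cas h') := by
  simp only [cas_apply, inner_neg_left, inner_neg_right, inner_add_left, inner_add_right, skew_gI,
    skew_gJ, skew_gK, neg_neg]

lemma QRep_cyc {A B C : W →L[ℂ] W} (h1 : ∀ h, A (B h) - B (A h) = (-2 : ℂ) • C h)
    (h2 : ∀ h, C (A h) - A (C h) = (-2 : ℂ) • B h) (h : W) :
    B (B (A h)) + C (C (A h)) = A (B (B h)) + A (C (C h)) := by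
  have a2 := congrArg B (h1 h)
  have a4 := congrArg C (h2 h)
  rw [map_sub, map_smul] at a2 a4
  linear_combination (norm := module) h2 (C h) + a4 - h1 (B h) - a2

lemma cas_gI (h : W) : Λ.cas (Λ.gI h) = Λ.gI (Λ.cas h) := by
  simp only [cas_apply, map_neg, map_add]
  linear_combination (norm := module) -QRep_cyc Λ.comm_IJ Λ.comm_KI h

lemma cas_gJ (h : W) : Λ.cas (Λ.gJ h) = Λ.gJ (Λ.cas h) := by
  simp only [cas_apply, map_neg, map_add]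
  linear_combination (norm := module) -QRep_cyc Λ.comm_JK Λ.comm_IJ h

lemma cas_gK (h : W) : Λ.cas (Λ.gK h) = Λ.gK (Λ.cas h) := by
  simp only [cas_apply, map_neg, map_add]
  linear_combination (norm := module) -QRep_cyc Λ.comm_KI Λ.comm_JK h

lemma cas_lam (u : S3) (h : W) : Λ.cas (Λ.lam u h) = Λ.lam u (Λ.cas h) := by
  have hS := S3.sq_sum u
  have hc := Λ.gen_conj u
  rw [coe_inv_eq_star] at hc
  generalize (u : ℍ[ℝ]) = x at hS hc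
  obtain ⟨p, q, r, s⟩ := x
  dsimp only at hS
  have e1 := hc ⟨0, 1, 0, 0⟩
  have e2 := hc ⟨0, 0, 1, 0⟩
  have e3 := hc ⟨0, 0, 0, 1⟩
  rw [show (⟨p, q, r, s⟩ * ⟨0, 1, 0, 0⟩ * star ⟨p, q, r, s⟩ : ℍ[ℝ]) =
    ⟨0, p ^ 2 + q ^ 2 - r ^ 2 - s ^ 2, 2 * (q * r + p * s), 2 * (q * s - p * r)⟩ by
      ext <;> simp <;> ring] at e1
  rw [show (⟨p, q, r, s⟩ * ⟨0, 0, 1, 0⟩ * star ⟨p, q, r, s⟩ : ℍ[ℝ]) =
    ⟨0, 2 * (q * r - p * s), p ^ 2 - q ^ 2 + r ^ 2 - s ^ 2, 2 * (r * s + p * q)⟩ by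
      ext <;> simp <;> ring] at e2
  rw [show (⟨p, q, r, s⟩ * ⟨0, 0, 0, 1⟩ * star ⟨p, q, r, s⟩ : ℍ[ℝ]) =
    ⟨0, 2 * (q * s + p * r), 2 * (r * s - p * q), p ^ 2 - q ^ 2 - r ^ 2 + s ^ 2⟩ by
      ext <;> simp <;> ring] at e3
  rw [cas_apply, gI, gJ, gK, ← e1, ← e1, ← e2, ← e2, ← e3, ← e3, ← map_add, ← map_add, ← map_neg,
    cas_apply]
  congr 2
  simp only [QRep_gen_im, map_add, ContinuousLinearMap.map_smul_of_tower]
  match_scalars <;>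
    first | ring1 | linear_combination (p ^ 2 + q ^ 2 + r ^ 2 + s ^ 2 + 1) * hS

lemma continuous_lam (h : W) : Continuous fun x : S3 => Λ.lam x h := by
  refine continuous_iff_continuousAt.2 fun y => ?_
  have h1 : ContinuousAt (fun x : S3 => Λ.lam (x * y⁻¹ : S3)) y :=
    ContinuousAt.comp_of_eq Λ.diff.continuousAt
      (continuous_subtype_val.comp (continuous_mul_const y⁻¹)).continuousAt
      (by rw [mul_inv_cancel]; rfl)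
  have h2 := (Λ.lam y).continuous.continuousAt.comp (h1.clm_apply (continuousAt_const (y := h)))
  convert h2 using 1
  funext x
  rw [Function.comp, ← lam_mulS, inv_mul_cancel_right]

lemma QRep_norm {c : ℝ → S3} {v : ℍ[ℝ]} (hc : HasDerivAt (fun s => (c s : ℍ[ℝ])) v 0)
    (h0 : c 0 = 1) (hv : ‖v‖ ^ 2 = 1) {h : W} {ρ : ℝ}
    (hl : ∀ x : S3, ‖Λ.lam x h - h‖ ≤ ρ * ‖(x : ℍ[ℝ]) - 1‖) : ‖Λ.gen v h‖ ≤ ρ := by
  have e : (c 0 : ℍ[ℝ]) = 1 := by rw [h0]; rfl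
  have h1 := le_of_tendsto_of_tendsto' (Λ.hasDerivAt_gen hc e h).tendsto_slope_zero.norm
    (hc.tendsto_slope_zero.norm.const_mul ρ) fun t => by
      rw [e, Λ.lam_one, norm_smul, norm_smul, mul_left_comm]
      exact mul_le_mul_of_nonneg_left (hl _) (norm_nonneg _)
  rwa [(pow_eq_one_iff_of_nonneg (norm_nonneg v) two_ne_zero).1 hv, mul_one] at h1

lemma norm_gen_le {h : W} {ρ : ℝ} (hρ : 0 ≤ ρ)
    (hl : ∀ x : S3, ‖Λ.lam x h - h‖ ≤ ρ * ‖(x : ℍ[ℝ]) - 1‖) :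
    ‖Λ.gI h‖ ≤ ρ ∧ ‖Λ.gJ h‖ ≤ ρ ∧ ‖Λ.gK h‖ ≤ ρ := by
  have _ := hρ
  exact ⟨Λ.QRep_norm QRep_dc ec_zero (by simp [hnorm_sq]) hl,
    Λ.QRep_norm QRep_dj ej_zero (by simp [hnorm_sq]) hl,
    Λ.QRep_norm QRep_dk QRep_ek_zero (by simp [hnorm_sq]) hl⟩

end Pool.Agent.Work.MP_0ba68b_gt.CX.QRep
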