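import Mathlib.Analysis.InnerProductSpace.JointEigenspace
import Mathlib.MeasureTheory.Integral.IntervalIntegral.FundThmCalculus
import Mathlib.Analysis.SpecialFunctions.Integrals.Basic
import Pool.Agent.Work.MP_0ba68b_gt.CX.QRep

/-!
The decomposition into joint eigenspaces.

PLAN.  `lam_ec_of_gI`: `s ↦ exp (-μ s) • lam (ec s) h` has derivative zero (`gI_lam_ec`).
With `φ = 2π` (`ec_add_int`, `ec_zero`) an eigenvalue `μ` of `gI` has `exp (2π μ) = 1`, so `μ = n I`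
(`Complex.exp_eq_one_iff`).  Orthogonality: `gI` is skew, `cas` is symmetric and commutes with `lam u`.
`exists_supp`: `A = -I • gI` and `B = cas` are commuting symmetric operators;
`LinearMap.IsSymmetric.iSup_iSup_eigenspace_inf_eigenspace_eq_top_of_commute` gives `⨆ s, E s = ⊤`
(a nonzero joint eigenspace has an integer and a real eigenvalue).  The set of `s` with `E s ≠ ⊥` is
finite (finitely many eigenvalues, or `iSupIndep.finite_ne_bot_of_isNoetherian`); symmetrise it.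
The identity `∑ pr s h = h` is linear in `h` and holds on each `E s'` (`Submodule.iSup_induction`).
`pr_lam_jj`, `pr_lam_ec`: `Submodule.eq_starProjection_of_mem_of_inner_eq_zero`, with the unitary map
carrying `E (n, c)` onto `E (-n, c)` (`jj_inv`).
`diag_avg`: integrate over `α ∈ [0, 2π]` (`integral_exp_mul_complex`).
-/

open scoped Quaternion ComplexConjugate
open Real

namespace Pool.Agent.Work.MP_0ba68b_gt.CX

lemma QDec_int (m : ℤ) : ∫ α in (0 : ℝ)..(2 * π), Complex.exp (Complex.I * m * α) =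
    if m = 0 then ((2 * π : ℝ) : ℂ) else 0 := by
  split_ifs with hm
  · simp [hm]
  · have hc : Complex.I * (m : ℂ) ≠ 0 := mul_ne_zero Complex.I_ne_zero (by exact_mod_cast hm)
    rw [integral_exp_mul_complex hc]
    have : Complex.exp (Complex.I * m * ((2 * π : ℝ) : ℂ)) = 1 :=
      Complex.exp_eq_one_iff.2 ⟨m, by push_cast; ring⟩
    rw [this]
    simp

lemma diag_avg {ι : Type} (s : Finset ι) (k : ι → ℂ) (m : ι → ℤ) {M : ℝ}
    (h : ∀ α : ℝ, (∑ i ∈ s, Complex.exp (Complex.I * m i * α) * k i).re ≤ M) :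
    (∑ i ∈ s with m i = 0, k i).re ≤ M := by
  have hc : ∀ i, Continuous fun α : ℝ => Complex.exp (Complex.I * m i * α) * k i := fun i => by
    fun_prop
  have hF : Continuous fun α : ℝ => ∑ i ∈ s, Complex.exp (Complex.I * m i * α) * k i :=
    continuous_finsetSum _ fun i _ => hc i
  have h1 : ∫ α in (0 : ℝ)..(2 * π), ∑ i ∈ s, Complex.exp (Complex.I * m i * α) * k i =
      ((2 * π : ℝ) : ℂ) * ∑ i ∈ s with m i = 0, k i := by
    rw [intervalIntegral.integral_finsetSum fun i _ => (hc i).intervalIntegrable _ _,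
      Finset.sum_filter, Finset.mul_sum]
    refine Finset.sum_congr rfl fun i _ => ?_
    rw [intervalIntegral.integral_mul_const, QDec_int]
    split_ifs <;> simp
  have h2 := Complex.reCLM.intervalIntegral_comp_comm
    (hF.intervalIntegrable (μ := MeasureTheory.volume) 0 (2 * π))
  rw [h1] at h2
  have h3 : ∫ α in (0 : ℝ)..(2 * π), Complex.reCLM
      (∑ i ∈ s, Complex.exp (Complex.I * m i * α) * k i) ≤ ∫ _ in (0 : ℝ)..(2 * π), M :=
    intervalIntegral.integral_mono_on two_pi_pos.le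
      ((Complex.reCLM.continuous.comp hF).intervalIntegrable _ _) intervalIntegrable_const
      fun α _ => h α
  rw [h2, intervalIntegral.integral_const, Complex.reCLM_apply, Complex.re_ofReal_mul, sub_zero,
    smul_eq_mul] at h3
  exact le_of_mul_le_mul_left h3 two_pi_pos

namespace QRep

variable {W : Type} [NormedAddCommGroup W] [InnerProductSpace ℂ W] (Λ : QRep W)
  {s s' : ℤ × ℝ} {h h' : W}

lemma lam_ec_of_gI {μ : ℂ} (hh : Λ.gI h = μ • h) (φ : ℝ) :
    Λ.lam (ec φ) h = Complex.exp (μ * φ) • h := by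
  have hd : ∀ t : ℝ, HasDerivAt (fun t : ℝ => Complex.exp (-μ * t) • Λ.lam (ec t) h) 0 t := by
    intro t
    have h1 : HasDerivAt (fun t : ℝ => Complex.exp (-μ * t)) (Complex.exp (-μ * t) * (-μ * 1)) t :=
      ((Complex.ofRealCLM.hasDerivAt (x := t)).const_mul (-μ)).cexp
    have h2 := h1.smul (Λ.hasDerivAt_ec h t)
    rw [Λ.gI_lam_ec, hh, map_smul, smul_smul, ← add_smul,
      show Complex.exp (-μ * t) * μ + Complex.exp (-μ * t) * (-μ * 1) = 0 by ring, zero_smul] at h2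
    exact h2
  have h3 := is_const_of_deriv_eq_zero (fun t => (hd t).differentiableAt)
    (fun t => (hd t).deriv) φ 0
  simp only [ec_zero, Λ.lam_oneS, Complex.ofReal_zero, mul_zero, Complex.exp_zero, one_smul] at h3
  calc Λ.lam (ec φ) h = Complex.exp (μ * φ) • Complex.exp (-μ * φ) • Λ.lam (ec φ) h := by
        rw [smul_smul, ← Complex.exp_add, show μ * φ + -μ * φ = 0 by ring, Complex.exp_zero,
          one_smul]
    _ = _ := by rw [h3]

lemma lam_ec_of_mem (hh : h ∈ Λ.E s) (φ : ℝ) :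
    Λ.lam (ec φ) h = Complex.exp (Complex.I * s.1 * φ) • h :=
  Λ.lam_ec_of_gI hh.1 φ

lemma orth_weight {n n' : ℤ} (hh : Λ.gI h = (Complex.I * n) • h)
    (hh' : Λ.gI h' = (Complex.I * n') • h') (hn : n ≠ n') : inner ℂ h h' = 0 := by
  have h1 := Λ.skew_gI h h'
  rw [hh, hh', inner_smul_left, inner_smul_right] at h1
  simp only [map_mul, Complex.conj_I, map_intCast] at h1
  have h2 : (Complex.I * ((n' : ℂ) - n)) * inner ℂ h h' = 0 := by linear_combination h1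
  refine (mul_eq_zero.1 h2).resolve_left (mul_ne_zero Complex.I_ne_zero (sub_ne_zero.2 ?_))
  exact_mod_cast hn.symm

lemma orth_lam (hh : h ∈ Λ.E s) (hh' : h' ∈ Λ.E s') (hc : s.2 ≠ s'.2) (u : S3) :
    inner ℂ h (Λ.lam u h') = 0 := by
  have h1 := Λ.cas_symm h (Λ.lam u h')
  rw [Λ.cas_lam, hh.2, hh'.2, map_smul, inner_smul_left, inner_smul_right,
    Complex.conj_ofReal] at h1
  have h2 : ((s.2 : ℂ) - s'.2) * inner ℂ h (Λ.lam u h') = 0 := by linear_combination h1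
  refine (mul_eq_zero.1 h2).resolve_left (sub_ne_zero.2 ?_)
  exact_mod_cast hc

lemma orth (hh : h ∈ Λ.E s) (hh' : h' ∈ Λ.E s') (hs : s ≠ s') : inner ℂ h h' = 0 := by
  by_cases h1 : s.1 = s'.1
  · have h2 := Λ.orth_lam hh hh' (fun e => hs (Prod.ext h1 e)) 1
    rwa [Λ.lam_oneS] at h2
  · exact Λ.orth_weight hh.1 hh'.1 h1

lemma lam_jj_mem (hh : h ∈ Λ.E s) : Λ.lam jj h ∈ Λ.E (-s.1, s.2) := by
  refine ⟨?_, ?_⟩
  · rw [Λ.gI_lam_jj, hh.1, map_smul, ← neg_smul]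
    congr 1
    push_cast
    ring
  · rw [Λ.cas_lam, hh.2, map_smul]

lemma QDec_ec_mem (hh : h ∈ Λ.E s) (φ : ℝ) : Λ.lam (ec φ) h ∈ Λ.E s := by
  rw [Λ.lam_ec_of_mem hh]
  exact Submodule.smul_mem _ _ hh

lemma QDec_exp {c : ℂ} (h0 : h ≠ 0) (hc : c • h = h) : c = 1 := by
  have : (c - 1) • h = 0 := by rw [sub_smul, hc, one_smul, sub_self]
  exact sub_eq_zero.1 ((smul_eq_zero.1 this).resolve_right h0)

variable [FiniteDimensional ℂ W]

lemma QDec_top : ⨆ s, Λ.E s = ⊤ := by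
  have hA : ((-Complex.I) • (Λ.gI : W →ₗ[ℂ] W)).IsSymmetric := fun x y => by
    simp only [LinearMap.smul_apply, ContinuousLinearMap.coe_coe, inner_smul_left,
      inner_smul_right, Λ.skew_gI, map_neg, Complex.conj_I]
    ring
  have hB : (Λ.cas : W →ₗ[ℂ] W).IsSymmetric := fun x y => Λ.cas_symm x y
  have hAB : Commute ((-Complex.I) • (Λ.gI : W →ₗ[ℂ] W)) (Λ.cas : W →ₗ[ℂ] W) := by
    ext x
    simp [Λ.cas_gI]
  rw [eq_top_iff, ← hA.iSup_iSup_eigenspace_inf_eigenspace_eq_top_of_commute hB hAB]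
  refine iSup_le fun α => iSup_le fun γ => fun v hv => ?_
  by_cases h0 : v = 0
  · rw [h0]; exact Submodule.zero_mem _
  obtain ⟨h1, h2⟩ := hv
  have h1' : (-Complex.I) • Λ.gI v = α • v := Module.End.mem_eigenspace_iff.1 h1
  have h2' : Λ.cas v = γ • v := Module.End.mem_eigenspace_iff.1 h2
  have h3 : Λ.gI v = (Complex.I * α) • v := by
    rw [mul_smul, ← h1', smul_smul]
    simp
  have h4 := Λ.lam_ec_of_gI h3 (0 + (1 : ℤ) * (2 * π))
  rw [ec_add_int, ec_zero, Λ.lam_oneS] at h4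
  obtain ⟨n, hn⟩ := Complex.exp_eq_one_iff.1 (QDec_exp h0 h4.symm)
  have hα : α = n := by
    have hp : (2 * π * Complex.I : ℂ) ≠ 0 := Complex.two_pi_I_ne_zero
    apply mul_right_cancel₀ hp
    rw [← hn]
    push_cast
    ring
  have hγ : conj γ = γ := by
    have h5 := Λ.cas_symm v v
    rw [h2', inner_smul_left, inner_smul_right] at h5
    exact mul_right_cancel₀ (inner_self_ne_zero.2 h0) h5
  refine Submodule.mem_iSup_of_mem (n, γ.re) ⟨?_, ?_⟩
  · rw [h3, hα]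
  · rw [h2', Complex.conj_eq_iff_re.1 hγ]

lemma QDec_pr_ne (hh : h ∈ Λ.E s') (hs : s ≠ s') : Λ.pr s h = 0 :=
  (Submodule.starProjection_apply_eq_zero_iff _).2 fun _ hw => Λ.orth hw hh hs

lemma QDec_pr (u : S3) (h1 : ∀ v ∈ Λ.E s, Λ.lam u v ∈ Λ.E s')
    (h2 : ∀ w ∈ Λ.E s', Λ.lam (u⁻¹ : S3) w ∈ Λ.E s) (h : W) :
    Λ.pr s' (Λ.lam u h) = Λ.lam u (Λ.pr s h) := by
  refine Submodule.eq_starProjection_of_mem_of_inner_eq_zero (h1 _ (Λ.pr_mem s h)) fun w hw => ?_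
  have h3 : w = Λ.lam u (Λ.lam (u⁻¹ : S3) w) := by
    rw [← Λ.lam_mulS, inv_mul_cancel, Λ.lam_oneS]
  rw [h3, ← map_sub, Λ.inner_lam]
  exact Submodule.starProjection_inner_eq_zero _ _ (h2 w hw)

lemma QDec_inner (s : ℤ × ℝ) (h h' : W) :
    inner ℂ (Λ.pr s h) h' = inner ℂ (Λ.pr s h) (Λ.pr s h') := by
  have h1 := Submodule.starProjection_inner_eq_zero (K := Λ.E s) h' _ (Λ.pr_mem s h)
  rw [inner_eq_zero_symm, inner_sub_right, sub_eq_zero] at h1
  exact h1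

lemma QDec_pyth (T : Finset (ℤ × ℝ)) (h : W) :
    ‖∑ s ∈ T, Λ.pr s h‖ ^ 2 = ∑ s ∈ T, ‖Λ.pr s h‖ ^ 2 := by
  have h1 : inner ℂ (∑ s ∈ T, Λ.pr s h) (∑ s ∈ T, Λ.pr s h) =
      ∑ s ∈ T, inner ℂ (Λ.pr s h) (Λ.pr s h) := by
    rw [sum_inner]
    refine Finset.sum_congr rfl fun s hs => ?_
    rw [inner_sum, Finset.sum_eq_single s
      (fun s' _ hne => Λ.orth (Λ.pr_mem s h) (Λ.pr_mem s' h) hne.symm) fun a => absurd hs a]
  simp only [inner_self_eq_norm_sq_to_K] at h1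
  exact_mod_cast h1

theorem exists_supp : ∃ S, Λ.Supp S := by
  have hex : ∀ s : {s // Λ.E s ≠ ⊥}, ∃ v ∈ Λ.E s.1, v ≠ 0 := fun s =>
    Submodule.exists_mem_ne_zero_of_ne_bot s.2
  choose v hv hv0 using hex
  have hli : LinearIndependent ℂ v :=
    linearIndependent_of_ne_zero_of_inner_eq_zero hv0 fun i j hij =>
      Λ.orth (hv i) (hv j) fun e => hij (Subtype.ext e)
  have hfin : {s | Λ.E s ≠ ⊥}.Finite := hli.finite
  have hz : ∀ s, s ∉ hfin.toFinset → ∀ h ∈ Λ.E s, h = 0 := by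
    intro s hs h hh
    have : Λ.E s = ⊥ := by simpa using hs
    rwa [this, Submodule.mem_bot] at hh
  refine ⟨hfin.toFinset, fun s hs => ?_, fun s hs h => hz s hs _ (Λ.pr_mem s h), fun h => ?_⟩
  · by_contra hn
    have hs' : Λ.E s ≠ ⊥ := by simpa using hs
    have h1 := hz _ hn _ (Λ.lam_jj_mem (hv ⟨s, hs'⟩))
    have h2 := Λ.norm_lam jj (v ⟨s, hs'⟩)
    rw [h1, norm_zero] at h2
    exact hv0 _ (norm_eq_zero.1 h2.symm)
  · have hm : h ∈ ⨆ s, Λ.E s := by rw [Λ.QDec_top]; exact Submodule.mem_top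
    refine Submodule.iSup_induction (motive := fun h => ∑ s ∈ hfin.toFinset, Λ.pr s h = h) _ hm
      (fun s' x hx => ?_) (by simp) fun x y hx hy => ?_
    · rw [Finset.sum_eq_single s' (fun s _ hne => Λ.QDec_pr_ne hx hne)
        fun a => hz s' a _ (Λ.pr_mem s' x)]
      exact Submodule.starProjection_eq_self_iff.2 hx
    · simp only [map_add, Finset.sum_add_distrib, hx, hy]

lemma pr_lam_jj (s : ℤ × ℝ) (h : W) :
    Λ.pr (-s.1, s.2) (Λ.lam jj h) = Λ.lam jj (Λ.pr s h) := by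
  refine Λ.QDec_pr jj (fun v hv => Λ.lam_jj_mem hv) (fun w hw => ?_) h
  rw [jj_inv, Λ.lam_mulS]
  simpa using Λ.lam_jj_mem (Λ.QDec_ec_mem hw π)

lemma pr_lam_ec (s : ℤ × ℝ) (φ : ℝ) (h : W) :
    Λ.pr s (Λ.lam (ec φ) h) = Λ.lam (ec φ) (Λ.pr s h) := by
  refine Λ.QDec_pr (ec φ) (fun v hv => Λ.QDec_ec_mem hv φ) (fun w hw => ?_) h
  rw [← ec_neg]
  exact Λ.QDec_ec_mem hw _

lemma pr_eq_zero_of_zq {q : ℕ} (hq : 0 < q) (hz : Λ.lam (ec (2 * π / q)) h = h)
    (hs : ¬ (q : ℤ) ∣ s.1) : Λ.pr s h = 0 := by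
  by_contra h0
  have h1 := Λ.pr_lam_ec s (2 * π / q) h
  rw [hz, Λ.lam_ec_of_mem (Λ.pr_mem s h)] at h1
  obtain ⟨n, hn⟩ := Complex.exp_eq_one_iff.1 (QDec_exp h0 h1.symm)
  refine hs ⟨n, ?_⟩
  have hq' : (q : ℂ) ≠ 0 := by exact_mod_cast hq.ne'
  have h2 : (s.1 : ℂ) = q * n := by
    apply mul_right_cancel₀ Complex.two_pi_I_ne_zero
    rw [mul_assoc (q : ℂ), ← hn]
    push_cast
    field_simp
  exact_mod_cast h2

variable {Λ} {S : Finset (ℤ × ℝ)}

lemma Supp.inner_sum (hS : Λ.Supp S) (h h' : W) :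
    inner ℂ h h' = ∑ s ∈ S, inner ℂ (Λ.pr s h) (Λ.pr s h') := by
  conv_lhs => rw [← hS.sum h, sum_inner]
  exact Finset.sum_congr rfl fun s _ => Λ.QDec_inner s h h'

lemma Supp.norm_sq (hS : Λ.Supp S) (h : W) : ‖h‖ ^ 2 = ∑ s ∈ S, ‖Λ.pr s h‖ ^ 2 := by
  rw [← Λ.QDec_pyth, hS.sum]

lemma Supp.norm_P0 (hS : Λ.Supp S) (h : W) :
    ‖Λ.P0 h‖ ^ 2 = ∑ s ∈ S with s.1 = 0, ‖Λ.pr s h‖ ^ 2 := by
  rw [← Λ.QDec_pyth]
  congr 2
  refine Submodule.eq_starProjection_of_mem_of_inner_eq_zero ?_ fun w hw => ?_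
  · refine Submodule.sum_mem _ fun s hs => ?_
    have h1 := (Λ.pr_mem s h).1
    rw [(Finset.mem_filter.1 hs).2] at h1
    simpa using h1
  · have h1 := Finset.sum_filter_add_sum_filter_not S (fun s => s.1 = 0) fun s => Λ.pr s h
    rw [hS.sum] at h1
    rw [sub_eq_of_eq_add' h1.symm, sum_inner]
    refine Finset.sum_eq_zero fun s hs => ?_
    refine Λ.orth_weight (n' := 0) (Λ.pr_mem s h).1 ?_ (Finset.mem_filter.1 hs).2
    simpa using hw

/-- Averaging over the simultaneous rotation kills the mixed terms. -/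
lemma Supp.avg (hS : Λ.Supp S) (h h' : W) (u : S3) {M : ℝ}
    (hM : ∀ α : ℝ, (inner ℂ (Λ.lam (ec α) h) (Λ.lam (ec α * u : S3) h')).re ≤ M) :
    ∑ s ∈ S, (inner ℂ (Λ.pr s h) (Λ.lam u (Λ.pr s h'))).re ≤ M := by
  have h1 := diag_avg (S ×ˢ S) (fun p => inner ℂ (Λ.pr p.1 h) (Λ.lam u (Λ.pr p.2 h')))
    (fun p => p.2.1 - p.1.1) (M := M) fun α => by
      refine le_of_eq_of_le (congrArg Complex.re ?_) (hM α)
      conv_rhs => rw [Λ.lam_mulS, ← hS.sum h, ← hS.sum h']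
      simp only [map_sum, sum_inner, _root_.inner_sum]
      rw [Finset.sum_product, Finset.sum_comm]
      refine Finset.sum_congr rfl fun s' _ => Finset.sum_congr rfl fun s _ => ?_
      rw [Λ.lam_ec_of_mem (Λ.pr_mem s h), Λ.lam_ec_of_mem (Λ.pr_mem s' h'), map_smul,
        inner_smul_left, inner_smul_right, ← mul_assoc, ← Complex.exp_conj, ← Complex.exp_add]
      congr 2
      simp only [map_mul, Complex.conj_I, map_intCast, Complex.conj_ofReal]
      push_cast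
      ring
  rw [← Complex.re_sum]
  refine le_of_eq_of_le (congrArg Complex.re ?_) h1
  rw [Finset.sum_filter, Finset.sum_product]
  refine Finset.sum_congr rfl fun s hs => ?_
  rw [Finset.sum_eq_single s (fun s' _ hne => ?_) fun a => absurd hs a]
  · simp
  · split_ifs with h2
    · exact Λ.orth_lam (Λ.pr_mem s h) (Λ.pr_mem s' h')
        (fun e => hne (Prod.ext (sub_eq_zero.1 h2) e.symm)) u
    · rfl

end QRep

end Pool.Agent.Work.MP_0ba68b_gt.CX
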