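import Pool.Agent.Work.MP_0ba68b_gt.CX.QDec

/-!
Energies of the joint eigenspaces.

PLAN.  `Xp` raises the weight by `2`, `Xm` lowers it (commutators).  The adjoint of `Xp` is `-Xm`.
`Xm Xp = gJ² + gK² - 2 I gI`, `Xp Xm = gJ² + gK² + 2 I gI`, `-(gJ² + gK²) = cas + gI²`; on `E (n, c)`:
`Xm (Xp h) = -(c - n² - 2n) h`, `Xp (Xm h) = -(c - n² + 2n) h`.
`2 gJ = Xp + Xm`, and `Xp h ⊥ Xm h` (`orth_weight`).
`second`: `f t = ⟪h, lam (ej t) h'⟫`, `f' t = ⟪h, gJ lam h'⟫`, `f' 0 = 0`,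
`f'' t = -⟪gJ h, lam (ej t) (gJ h')⟫`, of norm at most `en ‖h‖ ‖h'‖`; two mean value estimates
(`image_norm_le_of_norm_deriv_right_le_deriv_boundary`, or integrate twice; for `t < 0` use the
reflected function).
`dich`: for `n ≥ 0` the vectors `Xp^j h` have distinct weights, so one vanishes (finite support:
`exists_supp`, or linear independence); for the least `j` with `Xp^(j+1) h = 0`, `l = n + 2j` satisfies
`c = l² + 2l`.  For `n < 0` apply this to `lam jj h` (`lam_jj_mem`).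
`sum_en`: `‖gJ h‖² + ‖gK h‖² = re ⟪h, cas h + gI (gI h)⟫`, and `pr s` commutes with `cas`, `gI` (expand
`h = ∑ pr s h` and use `orth`).
-/

open scoped Quaternion ComplexConjugate
open Real

namespace Pool.Agent.Work.MP_0ba68b_gt.CX.QRep

variable {W : Type} [NormedAddCommGroup W] [InnerProductSpace ℂ W] (Λ : QRep W)
  {s : ℤ × ℝ} {h h' : W}

lemma QEn_Xp (h : W) : Λ.Xp h = Λ.gJ h + Complex.I • Λ.gK h := rfl

lemma QEn_Xm (h : W) : Λ.Xm h = Λ.gJ h - Complex.I • Λ.gK h := rfl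

lemma QEn_IJ (h : W) : Λ.gI (Λ.gJ h) = Λ.gJ (Λ.gI h) + (-2 : ℂ) • Λ.gK h :=
  eq_add_of_sub_eq' (Λ.comm_IJ h)

lemma QEn_IK (h : W) : Λ.gI (Λ.gK h) = Λ.gK (Λ.gI h) - (-2 : ℂ) • Λ.gJ h := by
  rw [← Λ.comm_KI h, sub_sub_cancel]

lemma QEn_JK (h : W) : Λ.gJ (Λ.gK h) = Λ.gK (Λ.gJ h) + (-2 : ℂ) • Λ.gI h :=
  eq_add_of_sub_eq' (Λ.comm_JK h)

lemma QEn_II (hh : h ∈ Λ.E s) : Λ.gI (Λ.gI h) = (-(s.1 : ℂ) ^ 2) • h := by
  rw [hh.1, map_smul, hh.1, smul_smul]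
  congr 1
  linear_combination (s.1 : ℂ) ^ 2 * Complex.I_mul_I

lemma QEn_JJ (hh : h ∈ Λ.E s) :
    Λ.gJ (Λ.gJ h) = ((s.1 : ℂ) ^ 2 - s.2) • h - Λ.gK (Λ.gK h) := by
  have h1 := Λ.cas_apply h
  rw [hh.2, Λ.QEn_II hh] at h1
  linear_combination (norm := module) h1

lemma Xp_mem (hh : h ∈ Λ.E s) : Λ.Xp h ∈ Λ.E (s.1 + 2, s.2) := by
  refine ⟨?_, ?_⟩
  · rw [QEn_Xp, map_add, map_smul, QEn_IJ, QEn_IK, hh.1, map_smul, map_smul]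
    push_cast
    match_scalars
    · ring
    · linear_combination (-2 : ℂ) * Complex.I_mul_I
  · rw [QEn_Xp, map_add, map_smul, cas_gJ, cas_gK, hh.2, map_smul, map_smul]
    module

lemma Xm_mem (hh : h ∈ Λ.E s) : Λ.Xm h ∈ Λ.E (s.1 - 2, s.2) := by
  refine ⟨?_, ?_⟩
  · rw [QEn_Xm, map_sub, map_smul, QEn_IJ, QEn_IK, hh.1, map_smul, map_smul]
    push_cast
    match_scalars
    · ring
    · linear_combination (-2 : ℂ) * Complex.I_mul_I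
  · rw [QEn_Xm, map_sub, map_smul, cas_gJ, cas_gK, hh.2, map_smul, map_smul]
    module

lemma Xm_Xp (hh : h ∈ Λ.E s) :
    Λ.Xm (Λ.Xp h) = (-(s.2 - (s.1 : ℝ) ^ 2 - 2 * s.1 : ℝ) : ℂ) • h := by
  rw [QEn_Xm, QEn_Xp, map_add, map_add, map_smul, map_smul, QEn_JK, Λ.QEn_JJ hh, hh.1]
  push_cast
  match_scalars
  · linear_combination (-2 * (s.1 : ℂ)) * Complex.I_mul_I
  · linear_combination -Complex.I_mul_I
  · ring

lemma Xp_Xm (hh : h ∈ Λ.E s) :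
    Λ.Xp (Λ.Xm h) = (-(s.2 - (s.1 : ℝ) ^ 2 + 2 * s.1 : ℝ) : ℂ) • h := by
  rw [QEn_Xp, QEn_Xm, map_sub, map_sub, map_smul, map_smul, QEn_JK, Λ.QEn_JJ hh, hh.1]
  push_cast
  match_scalars
  · linear_combination (2 * (s.1 : ℂ)) * Complex.I_mul_I
  · linear_combination -Complex.I_mul_I
  · ring

lemma QEn_adj (h h' : W) : inner ℂ (Λ.Xp h) h' = -inner ℂ h (Λ.Xm h') := by
  rw [QEn_Xp, QEn_Xm, inner_add_left, inner_smul_left, inner_sub_right, inner_smul_right, skew_gJ,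
    skew_gK, Complex.conj_I]
  ring

lemma QEn_adj' (h h' : W) : inner ℂ (Λ.Xm h) h' = -inner ℂ h (Λ.Xp h') := by
  rw [QEn_Xp, QEn_Xm, inner_sub_left, inner_smul_left, inner_add_right, inner_smul_right, skew_gJ,
    skew_gK, Complex.conj_I]
  ring

lemma QEn_sq (v : W) : inner ℂ v v = ((‖v‖ ^ 2 : ℝ) : ℂ) := by
  rw [inner_self_eq_norm_sq_to_K]
  simp

lemma norm_Xp (hh : h ∈ Λ.E s) : ‖Λ.Xp h‖ ^ 2 = (s.2 - (s.1 : ℝ) ^ 2 - 2 * s.1) * ‖h‖ ^ 2 := by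
  have h1 := Λ.QEn_adj h (Λ.Xp h)
  rw [Λ.Xm_Xp hh, inner_smul_right, QEn_sq, QEn_sq, neg_mul, neg_neg] at h1
  exact_mod_cast h1

lemma norm_Xm (hh : h ∈ Λ.E s) : ‖Λ.Xm h‖ ^ 2 = (s.2 - (s.1 : ℝ) ^ 2 + 2 * s.1) * ‖h‖ ^ 2 := by
  have h1 := Λ.QEn_adj' h (Λ.Xm h)
  rw [Λ.Xp_Xm hh, inner_smul_right, QEn_sq, QEn_sq, neg_mul, neg_neg] at h1
  exact_mod_cast h1

lemma two_gJ (h : W) : (2 : ℂ) • Λ.gJ h = Λ.Xp h + Λ.Xm h := by
  rw [QEn_Xp, QEn_Xm]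
  module

lemma norm_gJ (hh : h ∈ Λ.E s) : ‖Λ.gJ h‖ ^ 2 = en s * ‖h‖ ^ 2 := by
  have h1 := norm_add_sq_eq_norm_sq_add_norm_sq_of_inner_eq_zero _ _
    (Λ.orth_weight (Λ.Xp_mem hh).1 (Λ.Xm_mem hh).1 (by omega))
  rw [← two_gJ, norm_smul, Complex.norm_ofNat, ← sq, ← sq, ← sq, Λ.norm_Xp hh, Λ.norm_Xm hh] at h1
  rw [en]
  linarith

lemma inner_gJ (hh : h ∈ Λ.E s) (hh' : h' ∈ Λ.E s) : inner ℂ h (Λ.gJ h') = 0 := by
  have h1 := congrArg (inner ℂ h) (Λ.two_gJ h')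
  rw [inner_smul_right, inner_add_right, Λ.orth_weight hh.1 (Λ.Xp_mem hh').1 (by omega),
    Λ.orth_weight hh.1 (Λ.Xm_mem hh').1 (by omega), add_zero] at h1
  exact (mul_eq_zero.1 h1).resolve_left two_ne_zero

lemma QEn_mv {f f' f'' : ℝ → ℂ} {M t : ℝ} (h1 : ∀ x, HasDerivAt f (f' x) x)
    (h2 : ∀ x, HasDerivAt f' (f'' x) x) (h0 : f' 0 = 0) (hM : ∀ x, ‖f'' x‖ ≤ M) (ht : 0 ≤ t) :
    ‖f 0 - f t‖ ≤ M * t ^ 2 / 2 := by
  have k1 := image_norm_le_of_norm_deriv_right_le_deriv_boundary (a := 0) (b := t)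
    (fun x _ => (h2 x).continuousAt.continuousWithinAt) (fun x _ => (h2 x).hasDerivWithinAt)
    (B := fun x => M * x) (by simp [h0]) (fun x => hasDerivAt_const_mul M) fun x _ => hM x
  refine image_norm_le_of_norm_deriv_right_le_deriv_boundary (a := 0) (b := t)
    (f := fun x => f 0 - f x) (fun x _ => ((h1 x).const_sub _).continuousAt.continuousWithinAt)
    (fun x _ => ((h1 x).const_sub _).hasDerivWithinAt) (B := fun x => M * x ^ 2 / 2)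
    (B' := fun x => M * x) (by simp) (fun x => ?_) (fun x hx => ?_) ⟨ht, le_rfl⟩
  · refine (((hasDerivAt_pow 2 x).const_mul M).div_const 2).congr_deriv ?_
    push_cast
    ring
  · rw [norm_neg]
    exact k1 ⟨hx.1, hx.2.le⟩

lemma QEn_der (h h' : W) (t : ℝ) : HasDerivAt (fun x => inner ℂ h (Λ.lam (ej x) h'))
    (inner ℂ h (Λ.lam (ej t) (Λ.gJ h'))) t := by
  have h1 := (hasDerivAt_const t h).inner ℂ (Λ.hasDerivAt_ej h' t)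
  rwa [inner_zero_left, add_zero, gJ_lam_ej] at h1

lemma second (hh : h ∈ Λ.E s) (hh' : h' ∈ Λ.E s) {t : ℝ} (ht : 0 ≤ t) :
    ‖inner ℂ h h' - inner ℂ h (Λ.lam (ej t) h')‖ ≤ en s * t ^ 2 / 2 * (‖h‖ * ‖h'‖) := by
  have e : ‖Λ.gJ h‖ * ‖Λ.gJ h'‖ = en s * (‖h‖ * ‖h'‖) := by
    rcases eq_or_ne h 0 with rfl | h0
    · simp
    have h1 : 0 ≤ en s := nonneg_of_mul_nonneg_left (Λ.norm_gJ hh ▸ sq_nonneg _)
      (pow_pos (norm_pos_iff.2 h0) 2)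
    refine (sq_eq_sq₀ (by positivity) (by positivity)).1 ?_
    rw [mul_pow, Λ.norm_gJ hh, Λ.norm_gJ hh']
    ring
  have h1 := QEn_mv (M := en s * (‖h‖ * ‖h'‖)) (Λ.QEn_der h h') (Λ.QEn_der h (Λ.gJ h'))
    (by rw [ej_zero, lam_oneS, Λ.inner_gJ hh hh']) (fun x => by
      rw [← gJ_lam_ej, ← norm_neg, ← skew_gJ, ← e, ← Λ.norm_lam (ej x) (Λ.gJ h')]
      exact norm_inner_le_norm _ _) ht
  rw [ej_zero, lam_oneS] at h1
  linarith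

variable [FiniteDimensional ℂ W]

lemma QEn_dich (hh : h ∈ Λ.E s) (h0 : h ≠ 0) :
    ∃ i : ℕ, s.2 = ((s.1 : ℝ) + 2 * i) ^ 2 + 2 * (s.1 + 2 * i) := by
  classical
  have h1 : ∀ j : ℕ, Λ.Xp^[j] h ∈ Λ.E (s.1 + 2 * j, s.2) := fun j => by
    induction j with
    | zero =>
      rw [Nat.cast_zero, mul_zero, add_zero]
      exact hh
    | succ j ih =>
      rw [Function.iterate_succ_apply', Nat.cast_succ, mul_add, mul_one, ← add_assoc]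
      exact Λ.Xp_mem (s := (s.1 + 2 * j, s.2)) ih
  obtain ⟨S, hS⟩ := Λ.exists_supp
  have h2 : ∃ j : ℕ, Λ.Xp^[j] h = 0 := by
    obtain ⟨_, ⟨j, rfl⟩, hj⟩ := (Set.infinite_range_of_injective
      (f := fun j : ℕ => ((s.1 + 2 * j, s.2) : ℤ × ℝ)) fun a b e => by
        have := congrArg Prod.fst e
        dsimp only at this
        omega).exists_notMem_finset S
    exact ⟨j, (Submodule.starProjection_eq_self_iff.2 (h1 j)).symm.trans (hS.zero _ hj _)⟩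
  obtain ⟨i, hi⟩ := Nat.exists_eq_succ_of_ne_zero
    (n := Nat.find h2) fun e => h0 (by simpa [e] using Nat.find_spec h2)
  have h3 := Nat.find_spec h2
  rw [hi, Function.iterate_succ_apply'] at h3
  have h4 := Λ.norm_Xp (h1 i)
  rw [h3, norm_zero, zero_pow two_ne_zero] at h4
  have h5 := (mul_eq_zero.1 h4.symm).resolve_right
    (pow_ne_zero 2 (norm_ne_zero_iff.2 (Nat.find_min h2 (by omega))))
  push_cast at h5
  exact ⟨i, by linarith⟩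

lemma QEn_real {c a : ℝ} (i : ℕ) (ha : 0 ≤ a) (h : c = (a + 2 * i) ^ 2 + 2 * (a + 2 * i)) :
    c = a ^ 2 + 2 * a ∨ 3 * a + 4 ≤ (c - a ^ 2) / 2 := by
  rcases Nat.eq_zero_or_pos i with rfl | hi
  · exact Or.inl (by simpa using h)
  · have h1 : (1 : ℝ) ≤ i := by exact_mod_cast hi
    exact Or.inr (by nlinarith)

theorem dich (hh : h ∈ Λ.E s) (h0 : h ≠ 0) :
    s.2 = (s.1 : ℝ) ^ 2 + 2 * |(s.1 : ℝ)| ∨ 3 * |(s.1 : ℝ)| + 4 ≤ en s := by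
  rw [en, ← sq_abs (s.1 : ℝ)]
  rcases le_total 0 (s.1 : ℝ) with h1 | h1
  · obtain ⟨i, hi⟩ := Λ.QEn_dich hh h0
    refine QEn_real i (abs_nonneg _) ?_
    rwa [abs_of_nonneg h1]
  · obtain ⟨i, hi⟩ := Λ.QEn_dich (Λ.lam_jj_mem hh) (by
      rwa [← norm_ne_zero_iff, Λ.norm_lam, norm_ne_zero_iff])
    refine QEn_real i (abs_nonneg _) ?_
    rw [abs_of_nonpos h1]
    simpa using hi

variable {Λ} {S : Finset (ℤ × ℝ)}

lemma Supp.QEn_diag (hS : Λ.Supp S) (A : W →L[ℂ] W) (a : ℤ × ℝ → ℝ)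
    (hA : ∀ s, ∀ v ∈ Λ.E s, A v = (a s : ℂ) • v) (h : W) :
    inner ℂ h (A h) = ((∑ s ∈ S, a s * ‖Λ.pr s h‖ ^ 2 : ℝ) : ℂ) := by
  nth_rewrite 2 [← hS.sum h]
  rw [map_sum, _root_.inner_sum, Complex.ofReal_sum]
  refine Finset.sum_congr rfl fun s _ => ?_
  have h1 : inner ℂ (h - Λ.pr s h) (Λ.pr s h) = 0 :=
    Submodule.starProjection_inner_eq_zero h _ (Λ.pr_mem s h)
  rw [inner_sub_left, sub_eq_zero, QEn_sq] at h1
  rw [hA s _ (Λ.pr_mem s h), inner_smul_right, h1, Complex.ofReal_mul]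

lemma Supp.sum_en (hS : Λ.Supp S) (h : W) :
    ∑ s ∈ S, en s * ‖Λ.pr s h‖ ^ 2 = (‖Λ.gJ h‖ ^ 2 + ‖Λ.gK h‖ ^ 2) / 2 := by
  have h1 := hS.QEn_diag (-(Λ.gJ * Λ.gJ + Λ.gK * Λ.gK)) (fun s => 2 * en s) (fun s v hv => by
    change -(Λ.gJ (Λ.gJ v) + Λ.gK (Λ.gK v)) = _
    rw [Λ.QEn_JJ hv, en]
    push_cast
    module) h
  have h2 : inner ℂ h ((-(Λ.gJ * Λ.gJ + Λ.gK * Λ.gK)) h) =
      ((‖Λ.gJ h‖ ^ 2 + ‖Λ.gK h‖ ^ 2 : ℝ) : ℂ) := by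
    change inner ℂ h (-(Λ.gJ (Λ.gJ h) + Λ.gK (Λ.gK h))) = _
    rw [inner_neg_right, inner_add_right, neg_add, ← skew_gJ, ← skew_gK, QEn_sq, QEn_sq,
      Complex.ofReal_add]
  have h3 := Complex.ofReal_injective (h2.symm.trans h1)
  simp only [mul_assoc, ← Finset.mul_sum] at h3
  linarith

lemma Supp.sum_sq (hS : Λ.Supp S) (h : W) :
    ∑ s ∈ S, (s.1 : ℝ) ^ 2 * ‖Λ.pr s h‖ ^ 2 = ‖Λ.gI h‖ ^ 2 := by
  have h1 := hS.QEn_diag (-(Λ.gI * Λ.gI)) (fun s => (s.1 : ℝ) ^ 2) (fun s v hv => by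
    change -Λ.gI (Λ.gI v) = _
    rw [Λ.QEn_II hv]
    push_cast
    module) h
  have h2 : inner ℂ h ((-(Λ.gI * Λ.gI)) h) = ((‖Λ.gI h‖ ^ 2 : ℝ) : ℂ) := by
    change inner ℂ h (-Λ.gI (Λ.gI h)) = _
    rw [inner_neg_right, ← skew_gI, QEn_sq]
  exact (Complex.ofReal_injective (h2.symm.trans h1)).symm

end Pool.Agent.Work.MP_0ba68b_gt.CX.QRep
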