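import Pool.Agent.Work.MP_0ba68b_gt.CX.QEn

/-!
The kernels of a representation are invariant kernels.

PLAN.  `FRc_inner`: expand in `stdOrthonormalBasis` (`OrthonormalBasis.sum_inner_mul_inner`), use
`FRc.conj` if needed.  `ks` is PSD by `PSD.of_FRc`, `FRc.mul`, `FRc.pow`, `FRc.comp`, `PSD.of_cmap`, and
`0 ≤ th ≤ 1`.  `rinv`: `lam (x * g) = lam g ∘ lam x`, `inner_lam`, `cin_mul_right`.
`uinv`: `lam (ec φ * x') h = exp (I n φ) • lam x' h` (`lam_ec_of_mem`), `vk n x (ec φ * x') = exp (-I n φ) vk`.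
Twist: from `Fam.tw`, `h a = lam (j ^ k) (h (shift a m))`, `k = m₁ + m₂`.  On `E (n, c)` with `n` even,
`lam (ec π) = id`; if `n` is odd then `pr s (h a) = 0` (`pr_eq_zero_of_zq`, `q` even).  For even `k`:
`pr s (h (shift a m)) = pr s (h a)` and `j ^ k = ec φ` (`jj_zpow_even`).  For odd `k`:
`pr (-n, c) (h a) = lam jj (pr (n, c) (h (shift a m)))` (`pr_lam_jj`), `lam (j ^ k * x) = lam x ∘ lam (j ^ k)`,
`vk n (j x) (j x') = vk (-n) x x'` (`cin_jj_jj`; for `n = 0` both are `1`), `th (-n, c) = th (n, c)`, so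
`ks s (gam m p) (gam m p') = ks (-s) p p'`; reindex the sum with `Supp.symm` (`Finset.sum_nbij'`).
For `n = 0`: `th = 0`, `vk = 1`, and `ks s p (gam m p') = ks s p p'` for all `m`.
-/

open scoped Quaternion ComplexConjugate
open Real

namespace Pool.Agent.Work.MP_0ba68b_gt.CX

lemma FRc_inner {X W : Type} [NormedAddCommGroup W] [InnerProductSpace ℂ W]
    [FiniteDimensional ℂ W] (F : X → W) : FRc fun x y => inner ℂ (F x) (F y) := by
  refine ⟨Fin (Module.finrank ℂ W), inferInstance,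
    fun x i => inner ℂ (F x) (stdOrthonormalBasis ℂ W i), fun x y => ?_⟩
  simp only [inner_conj_symm]
  exact ((stdOrthonormalBasis ℂ W).sum_inner_mul_inner _ _).symm

lemma th_nonneg (s : ℤ × ℝ) : 0 ≤ th s := by
  unfold th
  split_ifs
  · exact le_rfl
  · exact le_max_left _ _

lemma th_le_one (s : ℤ × ℝ) : th s ≤ 1 := by
  unfold th
  split_ifs
  · exact zero_le_one
  · exact max_le zero_le_one (min_le_left _ _)

lemma vk_self (n : ℤ) (x : S3) : vk n x x = 1 := by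
  simp [vk, cin_self]

lemma vk_one_ej (n : ℤ) (t : ℝ) : vk n 1 (ej t) = ((cos t ^ n.natAbs : ℝ) : ℂ) := by
  have h : cin ((1 : S3) : ℍ[ℝ]) (ej t) = (cos t : ℝ) := cin_one_ej t
  rw [vk, h, Complex.conj_ofReal, ite_self, Complex.ofReal_pow]

lemma norm_vk_le (n : ℤ) (x x' : S3) : ‖vk n x x'‖ ≤ 1 := by
  rw [vk, norm_pow]
  refine pow_le_one₀ (norm_nonneg _) ?_
  split_ifs
  · exact norm_cin_le x x'
  · rw [Complex.norm_conj]
    exact norm_cin_le x x'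

lemma RepA_FRc_vk (n : ℤ) : FRc (vk n) := by
  by_cases h : 0 ≤ n
  · exact ((FRc_cin.comp fun x : S3 => (x : ℍ[ℝ])).pow n.natAbs).congr fun x y => by
      rw [vk, if_pos h]
  · exact ((FRc.conj (FRc_cin.comp fun x : S3 => (x : ℍ[ℝ]))).pow n.natAbs).congr fun x y => by
      rw [vk, if_neg h]

lemma RepA_vk_right (n : ℤ) (x x' g : S3) : vk n (x * g) (x' * g) = vk n x x' := by
  simp only [vk, Metric.unitSphere.coe_mul, cin_mul_right]

lemma RepA_vk_ec (n : ℤ) (x x' : S3) (φ : ℝ) :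
    vk n x (ec φ * x') = Complex.exp (-(Complex.I * n * φ)) * vk n x x' := by
  simp only [vk, Metric.unitSphere.coe_mul, cin_ec_right]
  split_ifs with h
  · rw [mul_pow, ← Complex.exp_nat_mul, ← Int.cast_natCast, Int.natAbs_of_nonneg h]
    congr 2
    ring
  · rw [map_mul, mul_pow, ← Complex.exp_conj, ← Complex.exp_nat_mul, ← Int.cast_natCast,
      Int.ofNat_natAbs_of_nonpos (not_le.1 h).le]
    congr 2
    simp only [map_neg, map_mul, Complex.conj_ofReal, Complex.conj_I]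
    push_cast
    ring

lemma RepA_vk_jj (n : ℤ) (x x' : S3) : vk n (jj * x) (jj * x') = vk (-n) x x' := by
  simp only [vk, Metric.unitSphere.coe_mul, cin_jj_jj, Int.natAbs_neg, Complex.conj_conj]
  rcases lt_trichotomy n 0 with h | h | h
  · rw [if_neg (by omega), if_pos (by omega)]
  · simp [h]
  · rw [if_pos (by omega), if_neg (by omega)]

lemma RepA_th_neg (s : ℤ × ℝ) : th (-s.1, s.2) = th s := by
  simp [th, en]

lemma RepA_sum {I : Set ℝ} {ι : Type} (T : Finset ι) {K : ι → Pt I → Pt I → ℝ}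
    (hK : ∀ i, PreK (K i)) : PreK fun p p' => ∑ i ∈ T, K i p p' :=
  ⟨PSD.sum T fun i _ => (hK i).psd,
    fun a a' x x' g => Finset.sum_congr rfl fun i _ => (hK i).rinv a a' x x' g,
    fun p a' x' φ => Finset.sum_congr rfl fun i _ => (hK i).uinv p a' x' φ⟩

namespace QRep

variable {W : Type} [NormedAddCommGroup W] [InnerProductSpace ℂ W] [FiniteDimensional ℂ W]
  {Λ : QRep W} {I : Set ℝ} {h : Ax I → W} {S : Finset (ℤ × ℝ)} {q : ℕ}

lemma ks_pre (Λ : QRep W) (h : Ax I → W) (s : ℤ × ℝ) : PreK (Λ.ks h s) := by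
  refine ⟨?_, fun a a' x x' g => ?_, fun p a' x' φ => ?_⟩
  · exact ((PSD.of_FRc ((FRc_inner fun p : Pt I => Λ.lam p.2 (Λ.pr s (h p.1))).mul
      ((RepA_FRc_vk s.1).comp fun p : Pt I => p.2))).smul (sub_nonneg.2 (th_le_one s))).add
      ((PSD.of_cmap fun p : Pt I => Λ.pr s (h p.1)).smul (th_nonneg s))
  · simp only [ks, lam_mulS, inner_lam, RepA_vk_right]
  · simp only [ks]
    rw [lam_mulS, Λ.lam_ec_of_mem (Λ.pr_mem s _), map_smul, inner_smul_right, RepA_vk_ec,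
      mul_mul_mul_comm, ← Complex.exp_add, add_neg_cancel, Complex.exp_zero, one_mul]

lemma ks_diag (Λ : QRep W) (h : Ax I → W) (s : ℤ × ℝ) (a a' : Ax I) (x : S3) :
    Λ.ks h s (a, x) (a', x) = (inner ℂ (Λ.pr s (h a)) (Λ.pr s (h a'))).re := by
  simp only [ks, inner_lam, vk_self, mul_one]
  ring

lemma RepA_pi (hq : 0 < q) (he : Even q) (hf : Λ.Fam q h) (s : ℤ × ℝ) (a : Ax I) {φ : ℝ}
    (hφ : φ = 0 ∨ φ = π) : Λ.lam (ec φ) (Λ.pr s (h a)) = Λ.pr s (h a) := by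
  rcases hφ with rfl | rfl
  · rw [ec_zero, lam_oneS]
  by_cases hd : (q : ℤ) ∣ s.1
  · obtain ⟨k, hk⟩ := ((Int.even_coe_nat q).2 he).two_dvd.trans hd
    rw [Λ.lam_ec_of_mem (Λ.pr_mem s _), hk,
      show Complex.I * ((2 * k : ℤ) : ℂ) * (π : ℝ) = k * (2 * π * Complex.I) by push_cast; ring,
      Complex.exp_int_mul_two_pi_mul_I, one_smul]
  · rw [Λ.pr_eq_zero_of_zq hq (hf.zq a) hd, map_zero]

lemma RepA_even (hq : 0 < q) (he : Even q) (hf : Λ.Fam q h) (s : ℤ × ℝ) (m : ℤ × ℤ)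
    (hm : Even (m.1 + m.2)) (p p' : Pt I) : Λ.ks h s p (gam m p') = Λ.ks h s p p' := by
  obtain ⟨φ, h1, h2⟩ := jj_zpow_even hm
  have h3 : Λ.pr s (h (shift p'.1 m.1 m.2)) = Λ.pr s (h p'.1) := by
    rw [← hf.tw p'.1 m, h1, pr_lam_ec, RepA_pi hq he hf s _ h2]
  rw [gam, h1, (Λ.ks_pre h s).uinv]
  simp only [ks, h3]

lemma RepA_odd (hq : 0 < q) (he : Even q) (hf : Λ.Fam q h) (s : ℤ × ℝ) (m : ℤ × ℤ)
    (hm : Odd (m.1 + m.2)) (a : Ax I) :
    Λ.lam jj (Λ.pr s (h (shift a m.1 m.2))) = Λ.pr (-s.1, s.2) (h a) := by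
  obtain ⟨φ, h1, h2⟩ := jj_zpow_odd hm
  rw [← hf.tw a m, h1, lam_mulS, pr_lam_jj, pr_lam_ec, RepA_pi hq he hf s _ h2]

lemma RepA_odd2 (hq : 0 < q) (he : Even q) (hf : Λ.Fam q h) (s : ℤ × ℝ) (m : ℤ × ℤ)
    (hm : Odd (m.1 + m.2)) (p p' : Pt I) :
    Λ.ks h s (gam m p) (gam m p') = Λ.ks h (-s.1, s.2) p p' := by
  obtain ⟨φ, h1, -⟩ := jj_zpow_odd hm
  rw [gam, gam, h1, mul_assoc, mul_assoc, (Λ.ks_pre h s).uinv, (Λ.ks_pre h s).uinv_left]
  simp only [ks]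
  rw [lam_mulS, lam_mulS, RepA_vk_jj, ← Λ.inner_lam jj (Λ.pr s _), RepA_odd hq he hf s m hm,
    RepA_odd hq he hf s m hm, RepA_th_neg]

lemma K0_base (hq : 0 < q) (he : Even q) (hf : Λ.Fam q h) (S : Finset (ℤ × ℝ)) :
    BaseK (Λ.K0 S h) := by
  refine ⟨RepA_sum _ (Λ.ks_pre h), fun m p p' => Finset.sum_congr rfl fun s hs => ?_⟩
  have h0 : s.1 = 0 := (Finset.mem_filter.1 hs).2
  rcases Int.even_or_odd (m.1 + m.2) with hm | hm
  · exact RepA_even hq he hf s m hm p p'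
  · obtain ⟨φ, h1, -⟩ := jj_zpow_odd hm
    have h2 : (-s.1, s.2) = s := Prod.ext (by simp [h0]) rfl
    have h3 : th s = 0 := by rw [th, if_pos h0]
    rw [gam, h1, mul_assoc, (Λ.ks_pre h s).uinv]
    simp only [ks]
    rw [lam_mulS, RepA_odd hq he hf s m hm, h2, h3, h0]
    simp [vk]

lemma K1_pre (Λ : QRep W) (h : Ax I → W) (S : Finset (ℤ × ℝ)) : PreK (Λ.K1 S h) := by
  exact RepA_sum _ (Λ.ks_pre h)

lemma K1_gam (hq : 0 < q) (he : Even q) (hf : Λ.Fam q h) (hS : Λ.Supp S) (m : ℤ × ℤ)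
    (p p' : Pt I) : Λ.K1 S h (gam m p) (gam m p') = Λ.K1 S h p p' := by
  rcases Int.even_or_odd (m.1 + m.2) with hm | hm
  · refine Finset.sum_congr rfl fun s _ => ?_
    rw [RepA_even hq he hf s m hm, (Λ.ks_pre h s).psd.symm, RepA_even hq he hf s m hm,
      (Λ.ks_pre h s).psd.symm]
  · have hmem : ∀ s ∈ S.filter fun s => s.1 ≠ 0, (-s.1, s.2) ∈ S.filter fun s => s.1 ≠ 0 :=
      fun s hs => Finset.mem_filter.2 ⟨hS.symm s (Finset.mem_filter.1 hs).1,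
        neg_ne_zero.2 (Finset.mem_filter.1 hs).2⟩
    exact Finset.sum_nbij' (fun s => (-s.1, s.2)) (fun s => (-s.1, s.2)) hmem hmem
      (fun s _ => by simp) (fun s _ => by simp) fun s _ => RepA_odd2 hq he hf s m hm p p'

lemma K1_even (hq : 0 < q) (he : Even q) (hf : Λ.Fam q h) (S : Finset (ℤ × ℝ)) (m : ℤ × ℤ)
    (hm : Even (m.1 + m.2)) (p p' : Pt I) : Λ.K1 S h p (gam m p') = Λ.K1 S h p p' := by
  exact Finset.sum_congr rfl fun s _ => RepA_even hq he hf s m hm p p'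

end QRep

end Pool.Agent.Work.MP_0ba68b_gt.CX
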