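import Pool.Agent.Work.MP_0ba68b_gt.CX.RepA

/-!
Estimates for the kernels of a representation.

PLAN.  Put `u = pr s (h a)`, `u' = pr s (h a')`, `c = cos t ∈ [0,1]`, `n = |s.1|`,
`1 - c ^ n ≤ n (1 - c)` (Bernoulli, `one_sub_pow_le`-type or induction), `1 - cos t ≤ t²/2`.
`ks_upj`: `nd = 2 (1 - th) (‖u‖² - re ⟪u, lam (ej t) u⟫ c ^ n)` and
`‖u‖² - f c^n = (‖u‖² - f) c^n + ‖u‖² (1 - c^n)`, `second`.
`saving`: by `dich`; if `c = n² + 2|n|` then `en = |n|` and `th = 1` (for `n ≠ 0`); otherwise `en ≥ 3|n| + 4`,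
`th = 3|n|/en`, `(1 - 3n/E)(E + n) = E - 2n - 3n²/E`.
`ks_close`: with `k = ⟪u, lam (ej t) u'⟫`, the difference is `(1 - th) re k (c^n - 1) + th re (⟪u,u'⟫ - k)`,
`th * en ≤ 3 n` (if `en ≤ 0` then `u = 0` or the term is `≤ 0`; `norm_gJ` gives `en ≥ 0` for `u ≠ 0`), `second`,
`t² ≤ π²/4 (1 - cos t)` (`sq_le_one_sub_cos`), `1 + 3π²/8 ≤ 5`.
`energy`: sum `ks_upj`-coefficients with `saving`; labels with `pr s (h a) ≠ 0` have `q ∣ s.1`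
(`pr_eq_zero_of_zq`); a label `n ≠ 0` saves at least `2q ‖·‖²` unless it is `(± q, q² + 2q)`, which saves `q ‖·‖²`;
`Supp.norm_sq`, `Supp.norm_P0`, `Supp.zero` (if `(± q, ..) ∉ S` the projection vanishes), `sum_en`.
`mass`, `mass'`: `|n| ≥ q` on the support, Cauchy-Schwarz (`Finset.sum_mul_sq_le_sq_mul_sq` or
`Finset.inner_mul_le_norm_mul_norm`), `sum_sq`.
-/

open scoped Quaternion ComplexConjugate
open Real

namespace Pool.Agent.Work.MP_0ba68b_gt.CX.QRep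

variable {W : Type} [NormedAddCommGroup W] [InnerProductSpace ℂ W] [FiniteDimensional ℂ W]
  {Λ : QRep W} {I : Set ℝ} {S : Finset (ℤ × ℝ)} {q : ℕ}

lemma RepB_ks (Λ : QRep W) (h : Ax I → W) (s : ℤ × ℝ) (a a' : Ax I) (t : ℝ) :
    Λ.ks h s (a, 1) (a', ej t) =
      (1 - th s) * ((inner ℂ (Λ.pr s (h a)) (Λ.lam (ej t) (Λ.pr s (h a')))).re *
        cos t ^ s.1.natAbs) + th s * (inner ℂ (Λ.pr s (h a)) (Λ.pr s (h a'))).re := by
  rw [ks]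
  simp only [lam_oneS, vk_one_ej, Complex.re_mul_ofReal]

lemma RepB_bern {c : ℝ} (h0 : 0 ≤ c) (n : ℤ) : 1 - c ^ n.natAbs ≤ |(n : ℝ)| * (1 - c) := by
  have h1 := one_add_mul_le_pow (a := c - 1) (by linarith) n.natAbs
  rw [Nat.cast_natAbs, Int.cast_abs, add_sub_cancel] at h1
  linarith

omit [FiniteDimensional ℂ W] in
lemma RepB_re (u u' : W) : |(inner ℂ u u').re| ≤ ‖u‖ * ‖u'‖ :=
  (Complex.abs_re_le_norm _).trans (norm_inner_le_norm u u')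

omit [FiniteDimensional ℂ W] in
lemma RepB_sec (Λ : QRep W) {s : ℤ × ℝ} {u u' : W} (hu : u ∈ Λ.E s) (hu' : u' ∈ Λ.E s) {t : ℝ}
    (ht : 0 ≤ t) : |(inner ℂ u u').re - (inner ℂ u (Λ.lam (ej t) u')).re| ≤
      en s * t ^ 2 / 2 * (‖u‖ * ‖u'‖) := by
  rw [← Complex.sub_re]
  exact (Complex.abs_re_le_norm _).trans (Λ.second hu hu' ht)

lemma RepB_cos {t : ℝ} (ht : t ∈ Set.Icc 0 (π / 2)) : 0 ≤ cos t :=
  cos_nonneg_of_mem_Icc ⟨by linarith [ht.1, pi_pos], ht.2⟩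

lemma RepB_th (s : ℤ × ℝ) : th s * en s ≤ 3 * |(s.1 : ℝ)| := by
  have h0 := abs_nonneg (s.1 : ℝ)
  rcases le_or_gt (en s) 0 with he | he
  · linarith [mul_nonpos_of_nonneg_of_nonpos (th_nonneg s) he]
  · rw [← le_div_iff₀ he, th]
    split_ifs
    · positivity
    · exact max_le (by positivity) (min_le_right _ _)

lemma RepB_up {θ N f p B C : ℝ} (hθ : θ ≤ 1) (p0 : 0 ≤ p) (p1 : p ≤ 1) (hN : 0 ≤ N)
    (hB : |N - f| ≤ B) (hC : 1 - p ≤ C) :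
    N + N - 2 * ((1 - θ) * (f * p) + θ * N) ≤ (1 - θ) * (2 * (B + C * N)) := by
  have a1 : (N - f) * p ≤ B * 1 :=
    mul_le_mul ((le_abs_self _).trans hB) p1 p0 ((abs_nonneg _).trans hB)
  have a2 := mul_le_mul_of_nonneg_right hC hN
  have a3 : 2 * (N - f * p) ≤ 2 * (B + C * N) := by linarith
  have a4 := mul_le_mul_of_nonneg_left a3 (sub_nonneg.2 hθ)
  linarith

lemma RepB_div (hq : 0 < q) {u : W} (hz : Λ.lam (ec (2 * π / q)) u = u) {s : ℤ × ℝ}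
    (h0 : Λ.pr s u ≠ 0) (hs : s.1 ≠ 0) : s.1 = q ∨ s.1 = -q ∨ 2 * (q : ℝ) ≤ |(s.1 : ℝ)| := by
  obtain ⟨k, hk⟩ : (q : ℤ) ∣ s.1 := by
    by_contra hn
    exact h0 (Λ.pr_eq_zero_of_zq hq hz hn)
  have hk0 : k ≠ 0 := fun e => hs (by rw [hk, e, mul_zero])
  by_cases h1 : k = 1
  · exact Or.inl (by rw [hk, h1, mul_one])
  by_cases h2 : k = -1
  · exact Or.inr (Or.inl (by rw [hk, h2, mul_neg_one]))
  refine Or.inr (Or.inr ?_)
  have h3 : (2 : ℤ) ≤ |k| := by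
    rw [le_abs]
    omega
  have h4 : (2 : ℝ) ≤ |(k : ℝ)| := by exact_mod_cast h3
  rw [hk, Int.cast_mul, abs_mul, Int.cast_natCast, Nat.abs_cast, mul_comm]
  exact mul_le_mul_of_nonneg_left h4 (Nat.cast_nonneg q)

lemma RepB_ge (hq : 0 < q) {u : W} (hz : Λ.lam (ec (2 * π / q)) u = u) {s : ℤ × ℝ}
    (h0 : Λ.pr s u ≠ 0) (hs : s.1 ≠ 0) : (q : ℝ) ≤ |(s.1 : ℝ)| := by
  rcases RepB_div hq hz h0 hs with e | e | e
  · rw [e, Int.cast_natCast, Nat.abs_cast]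
  · rw [e, Int.cast_neg, abs_neg, Int.cast_natCast, Nat.abs_cast]
  · linarith [(Nat.cast_nonneg q : (0 : ℝ) ≤ q)]

lemma RepB_cs (hS : Λ.Supp S) (u u' : W) :
    ∑ s ∈ S, (s.1 : ℝ) ^ 2 * (‖Λ.pr s u‖ * ‖Λ.pr s u'‖) ≤ ‖Λ.gI u‖ * ‖Λ.gI u'‖ := by
  have h1 := Finset.sum_mul_sq_le_sq_mul_sq S (fun s => (s.1 : ℝ) * ‖Λ.pr s u‖)
    fun s => (s.1 : ℝ) * ‖Λ.pr s u'‖
  simp only [mul_pow] at h1
  rw [hS.sum_sq, hS.sum_sq, ← mul_pow] at h1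
  refine le_trans (le_of_eq (Finset.sum_congr rfl fun s _ => by ring))
    (le_of_pow_le_pow_left₀ two_ne_zero (by positivity) h1)

open Classical in
lemma RepB_one (hS : Λ.Supp S) (u : W) (s0 : ℤ × ℝ) :
    ∑ s ∈ S, (if s = s0 then ‖Λ.pr s u‖ ^ 2 else 0) = ‖Λ.pr s0 u‖ ^ 2 := by
  rw [Finset.sum_ite_eq']
  split_ifs with h
  · rfl
  · rw [hS.zero s0 h, norm_zero, zero_pow two_ne_zero]

lemma ks_upj (Λ : QRep W) (h : Ax I → W) (s : ℤ × ℝ) (a : Ax I) {t : ℝ}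
    (ht : t ∈ Set.Icc 0 (π / 2)) : nd (Λ.ks h s) (a, 1) (a, ej t) ≤
      (1 - th s) * (en s + |(s.1 : ℝ)|) * ‖Λ.pr s (h a)‖ ^ 2 * t ^ 2 := by
  have c0 := RepB_cos ht
  have hN : (inner ℂ (Λ.pr s (h a)) (Λ.pr s (h a))).re = ‖Λ.pr s (h a)‖ ^ 2 :=
    inner_self_eq_norm_sq (𝕜 := ℂ) _
  have h1 := Λ.RepB_sec (Λ.pr_mem s (h a)) (Λ.pr_mem s (h a)) ht.1
  have h2 : 1 - cos t ^ s.1.natAbs ≤ |(s.1 : ℝ)| * (t ^ 2 / 2) :=
    (RepB_bern c0 s.1).trans (mul_le_mul_of_nonneg_left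
      (by linarith [one_sub_sq_div_two_le_cos (x := t)]) (abs_nonneg _))
  rw [hN] at h1
  rw [nd, ks_diag, ks_diag, RepB_ks, hN]
  refine (RepB_up (th_le_one s) (pow_nonneg c0 _) (pow_le_one₀ c0 (cos_le_one t)) (by positivity)
    h1 h2).trans (le_of_eq ?_)
  ring

lemma saving (Λ : QRep W) {s : ℤ × ℝ} {u : W} (hu : u ∈ Λ.E s) (h0 : u ≠ 0) :
    (1 - th s) * (en s + |(s.1 : ℝ)|) ≤
      en s - (if s.2 = (s.1 : ℝ) ^ 2 + 2 * |(s.1 : ℝ)| then 1 else 2) * |(s.1 : ℝ)| := by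
  by_cases hs : s.1 = 0
  · rw [th, if_pos hs, hs, Int.cast_zero, abs_zero]
    linarith
  have hm : 0 < |(s.1 : ℝ)| := abs_pos.2 (Int.cast_ne_zero.2 hs)
  rcases Λ.dich hu h0 with e | e
  · have e1 : en s = |(s.1 : ℝ)| := by
      rw [en, e]
      ring
    have e2 : th s = 1 := by
      rw [th, if_neg hs, e1, mul_div_assoc, div_self hm.ne']
      norm_num
    rw [if_pos e, e1, e2]
    linarith
  · have he : 0 < en s := by linarith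
    have e2 : th s = 3 * |(s.1 : ℝ)| / en s := by
      rw [th, if_neg hs, min_eq_right ((div_le_one he).2 (by linarith)),
        max_eq_right (by positivity)]
    have e3 : th s * en s = 3 * |(s.1 : ℝ)| := by rw [e2, div_mul_cancel₀ _ he.ne']
    have e4 := mul_nonneg (th_nonneg s) hm.le
    split_ifs <;> linarith

lemma ks_close (Λ : QRep W) (h : Ax I → W) (s : ℤ × ℝ) (a a' : Ax I) {t : ℝ}
    (ht : t ∈ Set.Icc 0 (π / 2)) :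
    Λ.ks h s (a, 1) (a', ej t) - (inner ℂ (Λ.pr s (h a)) (Λ.lam (ej t) (Λ.pr s (h a')))).re ≤
      5 * |(s.1 : ℝ)| * (1 - cos t) * (‖Λ.pr s (h a)‖ * ‖Λ.pr s (h a')‖) := by
  have c0 := RepB_cos ht
  have c1 := cos_le_one t
  have h1 := Λ.RepB_sec (Λ.pr_mem s (h a)) (Λ.pr_mem s (h a')) ht.1
  have h2 := RepB_bern c0 s.1
  have h3 := RepB_re (Λ.pr s (h a)) (Λ.lam (ej t) (Λ.pr s (h a')))
  have h4 : t ^ 2 ≤ 5 / 2 * (1 - cos t) :=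
    (sq_le_one_sub_cos ht).trans (mul_le_mul_of_nonneg_right
      (by nlinarith only [pi_lt_d2, pi_pos]) (by linarith))
  have h5 : 0 ≤ 1 - cos t ^ s.1.natAbs := sub_nonneg.2 (pow_le_one₀ c0 c1)
  have hP : 0 ≤ ‖Λ.pr s (h a)‖ * ‖Λ.pr s (h a')‖ := by positivity
  rw [Λ.norm_lam] at h3
  rw [RepB_ks]
  generalize ‖Λ.pr s (h a)‖ * ‖Λ.pr s (h a')‖ = P at *
  generalize (inner ℂ (Λ.pr s (h a)) (Λ.lam (ej t) (Λ.pr s (h a')))).re = k at *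
  generalize (inner ℂ (Λ.pr s (h a)) (Λ.pr s (h a'))).re = g at *
  generalize cos t ^ s.1.natAbs = p at *
  have hm := abs_nonneg (s.1 : ℝ)
  have a1 : -k * (1 - p) ≤ P * (|(s.1 : ℝ)| * (1 - cos t)) :=
    mul_le_mul ((neg_le_abs k).trans h3) h2 h5 hP
  have a0 : 0 ≤ P * (|(s.1 : ℝ)| * (1 - cos t)) := mul_nonneg hP (h5.trans h2)
  have a2 := mul_le_mul_of_nonneg_left a1 (sub_nonneg.2 (th_le_one s))
  have a3 := mul_nonneg (th_nonneg s) a0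
  have a4 := mul_le_mul_of_nonneg_left ((le_abs_self _).trans h1) (th_nonneg s)
  have a5 := mul_le_mul_of_nonneg_right (RepB_th s) (mul_nonneg (sq_nonneg t) hP)
  have a6 := mul_le_mul_of_nonneg_left h4 (mul_nonneg hm hP)
  linarith

lemma ks_far (Λ : QRep W) (h : Ax I → W) (s : ℤ × ℝ) (a a' : Ax I) (t : ℝ) :
    Λ.ks h s (a, 1) (a', ej t) - (inner ℂ (Λ.pr s (h a)) (Λ.lam (ej t) (Λ.pr s (h a')))).re ≤
      if s.1 = 0 then 0 else 2 * (‖Λ.pr s (h a)‖ * ‖Λ.pr s (h a')‖) := by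
  rw [RepB_ks]
  split_ifs with hs
  · rw [th, if_pos hs, hs]
    simp
  · have h1 := RepB_re (Λ.pr s (h a)) (Λ.pr s (h a'))
    have h3 := RepB_re (Λ.pr s (h a)) (Λ.lam (ej t) (Λ.pr s (h a')))
    rw [Λ.norm_lam] at h3
    have h4 : |cos t ^ s.1.natAbs| ≤ 1 := by
      rw [abs_pow]
      exact pow_le_one₀ (abs_nonneg _) (abs_cos_le_one t)
    have h5 := mul_le_mul h3 h4 (abs_nonneg _) (by positivity)
    rw [← abs_mul, mul_one] at h5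
    have a1 := mul_le_mul_of_nonneg_left ((le_abs_self _).trans h5) (sub_nonneg.2 (th_le_one s))
    have a2 := mul_le_mul_of_nonneg_left ((le_abs_self _).trans h1) (th_nonneg s)
    linarith [(abs_le.1 h3).1]

open Classical in
lemma RepB_term (hq : 0 < q) {u : W} (hz : Λ.lam (ec (2 * π / q)) u = u) (s : ℤ × ℝ) :
    (1 - th s) * (en s + |(s.1 : ℝ)|) * ‖Λ.pr s u‖ ^ 2 ≤ en s * ‖Λ.pr s u‖ ^ 2 -
      q * (2 * (‖Λ.pr s u‖ ^ 2 - if s.1 = 0 then ‖Λ.pr s u‖ ^ 2 else 0) -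
        (if s = ((q : ℤ), (q : ℝ) ^ 2 + 2 * q) then ‖Λ.pr s u‖ ^ 2 else 0) -
        if s = (-(q : ℤ), (q : ℝ) ^ 2 + 2 * q) then ‖Λ.pr s u‖ ^ 2 else 0) := by
  by_cases h0 : Λ.pr s u = 0
  · simp [h0]
  have hN : 0 ≤ ‖Λ.pr s u‖ ^ 2 := by positivity
  refine (mul_le_mul_of_nonneg_right (Λ.saving (Λ.pr_mem s u) h0) hN).trans ?_
  have hd := RepB_div hq hz h0
  have hg := RepB_ge hq hz h0
  generalize ‖Λ.pr s u‖ ^ 2 = N at hN ⊢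
  have hq0 : (0 : ℝ) ≤ q := Nat.cast_nonneg q
  have i1 : 0 ≤ (q : ℝ) * if s = ((q : ℤ), (q : ℝ) ^ 2 + 2 * q) then N else 0 :=
    mul_nonneg hq0 (by split_ifs <;> linarith)
  have i2 : 0 ≤ (q : ℝ) * if s = (-(q : ℤ), (q : ℝ) ^ 2 + 2 * q) then N else 0 :=
    mul_nonneg hq0 (by split_ifs <;> linarith)
  by_cases hs : s.1 = 0
  · rw [if_pos hs, hs, Int.cast_zero, abs_zero]
    linarith
  rw [if_neg hs]
  have g1 := mul_le_mul_of_nonneg_right (hg hs) hN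
  by_cases hc : s.2 = (s.1 : ℝ) ^ 2 + 2 * |(s.1 : ℝ)|
  · rw [if_pos hc]
    rcases hd hs with e | e | e
    · rw [e, Int.cast_natCast, Nat.abs_cast] at hc
      rw [if_pos (Prod.ext e hc)]
      linarith
    · rw [e, Int.cast_neg, abs_neg, neg_sq, Int.cast_natCast, Nat.abs_cast] at hc
      rw [if_pos (show s = (-(q : ℤ), (q : ℝ) ^ 2 + 2 * q) from Prod.ext e hc)]
      linarith
    · linarith [mul_le_mul_of_nonneg_right e hN]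
  · rw [if_neg hc]
    linarith

lemma Supp.energy (hS : Λ.Supp S) (hq : 0 < q) {u : W} (hz : Λ.lam (ec (2 * π / q)) u = u) :
    ∑ s ∈ S, (1 - th s) * (en s + |(s.1 : ℝ)|) * ‖Λ.pr s u‖ ^ 2 ≤
      (‖Λ.gJ u‖ ^ 2 + ‖Λ.gK u‖ ^ 2) / 2 - q * Λ.sav q u := by
  refine (Finset.sum_le_sum fun s _ => RepB_term hq hz s).trans (le_of_eq ?_)
  rw [Finset.sum_sub_distrib, ← Finset.mul_sum, Finset.sum_sub_distrib, Finset.sum_sub_distrib,
    ← Finset.mul_sum, Finset.sum_sub_distrib, RepB_one hS, RepB_one hS, hS.sum_en, ← hS.norm_sq,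
    ← Finset.sum_filter, ← hS.norm_P0, sav]

lemma Supp.mass (hS : Λ.Supp S) (hq : 0 < q) {u u' : W} (hz : Λ.lam (ec (2 * π / q)) u = u) :
    ∑ s ∈ S, |(s.1 : ℝ)| * (‖Λ.pr s u‖ * ‖Λ.pr s u'‖) ≤ ‖Λ.gI u‖ * ‖Λ.gI u'‖ / q := by
  have hq0 : (0 : ℝ) < q := Nat.cast_pos.2 hq
  rw [le_div_iff₀ hq0, Finset.sum_mul]
  refine le_trans (Finset.sum_le_sum fun s _ => ?_) (RepB_cs hS u u')
  by_cases h0 : Λ.pr s u = 0
  · simp [h0]
  by_cases hs : s.1 = 0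
  · simp [hs]
  have a1 := mul_le_mul_of_nonneg_left (RepB_ge hq hz h0 hs) (mul_nonneg (abs_nonneg (s.1 : ℝ))
    (mul_nonneg (norm_nonneg (Λ.pr s u)) (norm_nonneg (Λ.pr s u'))))
  rw [← sq_abs]
  linarith

lemma Supp.mass' (hS : Λ.Supp S) (hq : 0 < q) {u u' : W} (hz : Λ.lam (ec (2 * π / q)) u = u) :
    ∑ s ∈ S with s.1 ≠ 0, ‖Λ.pr s u‖ * ‖Λ.pr s u'‖ ≤ ‖Λ.gI u‖ * ‖Λ.gI u'‖ / q ^ 2 := by
  have hq0 : (0 : ℝ) < q := Nat.cast_pos.2 hq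
  rw [le_div_iff₀ (pow_pos hq0 2), Finset.sum_mul]
  refine le_trans (le_trans (Finset.sum_le_sum fun s hs => ?_)
    (Finset.sum_le_sum_of_subset_of_nonneg (Finset.filter_subset _ _) fun s _ _ => by positivity))
    (RepB_cs hS u u')
  by_cases h0 : Λ.pr s u = 0
  · simp [h0]
  have a1 := pow_le_pow_left₀ hq0.le (RepB_ge hq hz h0 (Finset.mem_filter.1 hs).2) 2
  rw [sq_abs] at a1
  rw [mul_comm]
  exact mul_le_mul_of_nonneg_right a1 (by positivity)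

end Pool.Agent.Work.MP_0ba68b_gt.CX.QRep
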