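import Pool.Agent.Work.MP_0ba68b_gt.CX.Base1
import Pool.Agent.Work.MP_0ba68b_gt.CX.Coord
import Pool.Agent.Work.MP_0ba68b_gt.CX.FibM

/-!
The private kernel of a clock sample, in coordinates.

PLAN.  `kx_psd`: `PSD.comp`, `PSD.smul`, `PSD.weight`, `PSD.cos`, `PSD.mul_cos`.
`mpt_shift`: if `x' ≠ 0` then `hat (g * x') = g * hat x'` (`hat_mul`), and `ec α * j^a = ec φ * j^(n₁+n₂)` for some `φ` as the exponents have
the same parity (`jj_zpow_even` for the difference); `uinv`, `ginv`; if `x' = 0` use `ginv` and `zero`.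
`kx_shift`: `cos (2π (Δ - n₃)) = cos (2π Δ)`, `fibo`, `Jo`, `cos (π (Δ - m)) = (-1)^m cos (π Δ)` (`Real.cos_sub_int_mul_pi`).
`nd_kx`: `ring`-type identity with `Real.mul_self_sqrt`; `angH_mpt`: `angH_fib`-like case split on `x' = 0`, `ang_zpow_even`, `ang_zpow_odd`.
-/

open scoped Quaternion
open Real

namespace Pool.Agent.Work.MP_0ba68b_gt.CX

noncomputable section

/-- The model point with coordinates `ξ` over `x`, at scale `τ`. -/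
def mpt (τ : ℝ) (ξ : R3) (x : ℍ[ℝ]) : Pt I0 :=
  ((⟨‖x‖ / |τ|, div_nonneg (norm_nonneg x) (abs_nonneg τ)⟩, ξ.1, ξ.2.1), hat x)

/-- Coordinates, fibre point and clock radius. -/
abbrev CP : Type := R3 × FP × ℝ

/-- The private kernel in coordinates. -/
def kx (P : Par) (τ : ℝ) (c : Z3) (K : Pt I0 → Pt I0 → ℝ) (Ko : FP → FP → ℝ) (u u' : CP) : ℝ :=
  τ ^ 2 * K (mpt τ u.1 u.2.1.1) (mpt τ u'.1 u'.2.1.1) +
    9 / 400 * (√(P.Q u.2.2 (cz c)) * √(P.Q u'.2.2 (cz c)) * cos (2 * π * (u.1.2.2 - u'.1.2.2))) +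
    Ko u.2.1 u'.2.1 * cos (π * ((u.1.1 + u.1.2.1) - (u'.1.1 + u'.1.2.1)))

/-- All the data of one sample. -/
structure SD (P : Par) (ρm η μ ω cc : ℕ → ℝ) (j : ℕ) (R bm : ℝ) (Wn : ℝ → Prop) (g : ℝ → ℝ)
    (a b c : Z3) (τa τb : ℝ) (Kc Ko : FP → FP → ℝ) (W : ℝ → ℝ) (K : Pt I0 → Pt I0 → ℝ) :
    Prop where
  good : P.Good
  fo : FibOut P.q0 P.θ ρm η μ ω cc Kc Ko
  smp : Smp P (η j) R (ρm j) Wn g a b c τa τb
  mo : ModelOut (τa / τb) (η j) bm (μ j) (ω j) R W K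
  η_pos : 0 < η j
  η_le : η j ≤ 1 / 1000
  R_ge : 2 ≤ R
  μ0 : 0 ≤ μ j
  ω0 : 0 ≤ ω j
  cost : (1 - η j / 4) * bm + cc j ≤ 1

variable {P : Par} {τ : ℝ} {c : Z3} {K : Pt I0 → Pt I0 → ℝ} {Ko : FP → FP → ℝ}

lemma SmpD_par {a b : ℤ} (h : Even (b - a)) : ∃ ψ, jj ^ a = ec ψ * jj ^ b := by
  obtain ⟨ψ, e, -⟩ := jj_zpow_even (n := a - b) (by rwa [← neg_sub, even_neg])
  exact ⟨ψ, by rw [← e, ← zpow_add, sub_add_cancel]⟩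

lemma SmpD_ne (g : S3) {x : ℍ[ℝ]} (hx : x ≠ 0) : (g : ℍ[ℝ]) * x ≠ 0 := by
  rwa [← norm_ne_zero_iff, norm_S3_mul, norm_ne_zero_iff]

lemma rho_mpt (hτ : 0 < τ) (ξ : R3) (x : ℍ[ℝ]) : rho (mpt τ ξ x).1 = ‖x‖ / τ := by
  change ‖x‖ / |τ| = _
  rw [abs_of_pos hτ]

lemma kx_psd (P : Par) (τ : ℝ) (c : Z3) (hK : PSD K) (hKo : PSD Ko) : PSD (kx P τ c K Ko) := by
  have h1 := (hK.comp fun u : CP => mpt τ u.1 u.2.1.1).smul (sq_nonneg τ)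
  have h2 := ((PSD.cos fun u : CP => 2 * π * u.1.2.2).weight
    fun u => √(P.Q u.2.2 (cz c))).smul (a := 9 / 400) (by norm_num)
  have h3 := (hKo.comp fun u : CP => u.2.1).mul_cos fun u => π * (u.1.1 + u.1.2.1)
  refine ((h1.add h2).add h3).congr fun u u' => ?_
  simp only [kx, mul_sub]

lemma mpt_shift (hK : WeakK K) (p : Pt I0) (ξ : R3) (n : Z3) {a : ℤ} (ha : Even (n.1 + n.2.1 - a))
    (φ : ℝ) (x : ℍ[ℝ]) :
    K p (mpt τ (ξ + cz n) (ec φ * ((jj ^ a : S3) * x))) = K p (mpt τ ξ x) := by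
  rw [← hK.ginv (n.1, n.2.1) p (mpt τ ξ x)]
  have e : (mpt τ (ξ + cz n) (ec φ * ((jj ^ a : S3) * x))).1 =
      (gam (n.1, n.2.1) (mpt τ ξ x)).1 := by
    simp only [mpt, gam, shift, norm_S3_mul]
    rfl
  change K p ((mpt τ (ξ + cz n) (ec φ * ((jj ^ a : S3) * x))).1, hat _) =
    K p ((gam (n.1, n.2.1) (mpt τ ξ x)).1, jj ^ (n.1 + n.2.1) * hat x)
  rw [e]
  by_cases hx : x = 0
  · refine hK.zero _ _ _ _ ?_
    change ‖x‖ / |τ| = 0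
    simp [hx]
  · obtain ⟨ψ, h⟩ := SmpD_par ha
    rw [hat_mul _ (SmpD_ne _ hx), hat_mul _ hx, hK.uinv, h, mul_assoc, hK.uinv]

lemma kx_shift (hK : WeakK K) (fibo : ∀ k n p p', Ko p (fib P.q0 P.θ k n p') = Ko p p')
    (Jo : ∀ a p p', Ko p (fJ a p') = (-1) ^ a * Ko p p') (u : CP) (ξ : R3) (p : FP) (r : ℝ)
    (n : Z3) {a : ℤ} (ha : Even (n.1 + n.2.1 - a)) (k m : ℤ) :
    kx P τ c K Ko u (ξ + cz n, fib P.q0 P.θ k m (fJ a p), r) = kx P τ c K Ko u (ξ, p, r) := by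
  have e1 : K (mpt τ u.1 u.2.1.1) (mpt τ (ξ + cz n) (fib P.q0 P.θ k m (fJ a p)).1) =
      K (mpt τ u.1 u.2.1.1) (mpt τ ξ p.1) := mpt_shift hK _ ξ n ha _ _
  have e2 : cos (2 * π * (u.1.2.2 - (ξ + cz n).2.2)) = cos (2 * π * (u.1.2.2 - ξ.2.2)) := by
    rw [← cos_sub_int_mul_two_pi (2 * π * (u.1.2.2 - ξ.2.2)) n.2.2]
    congr 1
    simp only [cz, Prod.snd_add]
    ring
  have e3 : cos (π * ((u.1.1 + u.1.2.1) - ((ξ + cz n).1 + (ξ + cz n).2.1))) =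
      (-1) ^ (n.1 + n.2.1) * cos (π * ((u.1.1 + u.1.2.1) - (ξ.1 + ξ.2.1))) := by
    rw [← cos_sub_int_mul_pi]
    congr 1
    simp only [cz, Prod.snd_add, Prod.fst_add]
    push_cast
    ring
  have e4 : (-1 : ℝ) ^ a * (-1) ^ (n.1 + n.2.1) = 1 := by
    rw [← zpow_add₀ (by norm_num)]
    refine Even.neg_one_zpow ?_
    rw [show a + (n.1 + n.2.1) = n.1 + n.2.1 - a + (a + a) by ring]
    exact ha.add ⟨a, rfl⟩
  simp only [kx]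
  rw [e1, e2, e3, fibo, Jo]
  linear_combination (Ko u.2.1 p * cos (π * ((u.1.1 + u.1.2.1) - (ξ.1 + ξ.2.1)))) * e4

lemma kx_third (u : CP) {ξ ξ' : R3} (p : FP) {r : ℝ} (h0 : P.Q r (cz c) = 0) (h1 : ξ.1 = ξ'.1)
    (h2 : ξ.2.1 = ξ'.2.1) : kx P τ c K Ko u (ξ, p, r) = kx P τ c K Ko u (ξ', p, r) := by
  simp only [kx, mpt, h0, h1, h2, sqrt_zero, mul_zero, zero_mul]

lemma nd_kx (u u' : CP) : nd (kx P τ c K Ko) u u' =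
    τ ^ 2 * nd K (mpt τ u.1 u.2.1.1) (mpt τ u'.1 u'.2.1.1) +
      9 / 400 * ((√(P.Q u.2.2 (cz c)) - √(P.Q u'.2.2 (cz c))) ^ 2 +
        √(P.Q u.2.2 (cz c)) * √(P.Q u'.2.2 (cz c)) * (2 - 2 * cos (2 * π * (u.1.2.2 - u'.1.2.2)))) +
      nth Ko (cos (π * ((u.1.1 + u.1.2.1) - (u'.1.1 + u'.1.2.1)))) u.2.1 u'.2.1 := by
  simp only [nd, kx, nth, sub_self, mul_zero, cos_zero]
  ring

lemma nth_nonneg (h : PSD Ko) {Θ : ℝ} (hΘ : |Θ| ≤ 1) (p p' : FP) : 0 ≤ nth Ko Θ p p' := by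
  have h1 := h.abs_le p p'
  have h2 := Real.mul_self_sqrt (h.diag_nonneg p)
  have h3 := Real.mul_self_sqrt (h.diag_nonneg p')
  have h4 : Ko p p' * Θ ≤ |Ko p p'| := by
    refine (le_abs_self _).trans ?_
    rw [abs_mul]
    exact mul_le_of_le_one_right (abs_nonneg _) hΘ
  unfold nth
  nlinarith [sq_nonneg (√(Ko p p) - √(Ko p' p'))]

lemma SmpD_kV (hτ : 0 < τ) (ξ ξ' : R3) (X X' : VV) :
    kV X X' = τ ^ 2 * k0 (mpt τ ξ (vx X)) (mpt τ ξ' (vx X')) := by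
  rw [k0, rho_mpt hτ, rho_mpt hτ, kV]
  change _ = τ ^ 2 * (_ * (_ + _ * p2 (hat (vx X)) (hat (vx X'))))
  field_simp

lemma SmpD_weak : WeakK (k0 : Pt I0 → Pt I0 → ℝ) :=
  ⟨baseK_k0.psd, baseK_k0.uinv, baseK_k0.ginv, fun p a' x' x'' h => by simp [k0, h]⟩

lemma nd_kV (hτ : 0 < τ) (ξ ξ' : R3) (X X' : VV) :
    nd kV X X' = τ ^ 2 * nd k0 (mpt τ ξ (vx X)) (mpt τ ξ' (vx X')) := by
  simp only [nd]
  rw [SmpD_kV hτ ξ ξ X X, SmpD_kV hτ ξ' ξ' X' X', SmpD_kV hτ ξ ξ' X X']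
  ring

lemma angH_mpt (hτ : 0 < τ) (ξ ξ' : R3) (x : ℍ[ℝ]) (p' : FP) (m : ℤ × ℤ) {a : ℤ}
    (ha : Even (m.1 + m.2 - a)) :
    angH x (fJ a p').1 = τ ^ 2 * angP (mpt τ ξ x) (gam m (mpt τ ξ' p'.1)) := by
  change ang ‖x‖ ‖((jj ^ a : S3) : ℍ[ℝ]) * p'.1‖ (hat x) (hat ((jj ^ a : S3) * p'.1)) =
    τ ^ 2 * ang (rho (mpt τ ξ x).1) (rho (mpt τ ξ' p'.1).1) (hat x) (jj ^ (m.1 + m.2) * hat p'.1)
  rw [rho_mpt hτ, rho_mpt hτ, norm_S3_mul]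
  by_cases hx : p'.1 = 0
  · simp [ang, hx]
  · obtain ⟨ψ, h⟩ := SmpD_par ha
    rw [hat_mul _ hx, h, mul_assoc, ang_ec]
    unfold ang
    field_simp

lemma norm_fJ (a : ℤ) (p : FP) : ‖(fJ a p).1‖ = ‖p.1‖ :=
  norm_S3_mul _ _

lemma norm_fib (q0 : ℕ) (θ : ℝ) (k n : ℤ) (p : FP) : ‖(fib q0 θ k n p).1‖ = ‖p.1‖ :=
  norm_S3_mul _ _

lemma kV_psd : PSD kV :=
  ((SmpD_weak.psd.comp fun X : VV => mpt 1 0 (vx X)).smul (sq_nonneg 1)).congr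
    fun X X' => SmpD_kV one_pos 0 0 X X'

lemma kV_diag (X : VV) : kV X X = 24 / 25 * ‖vx X‖ ^ 2 := by
  rw [kV, p2_self]
  ring

lemma kV_act (P : Par) (k n : ℤ) (v : Z3) (X X' : VV) : kV X (P.act k n v X') = kV X X' := by
  rw [SmpD_kV one_pos 0 (0 + cz (par v, 0, 0)), SmpD_kV one_pos 0 0 X X']
  congr 1
  exact mpt_shift SmpD_weak _ 0 (par v, 0, 0) (by simp) _ _

end

end Pool.Agent.Work.MP_0ba68b_gt.CX
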