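import Pool.Agent.Work.MP_0ba68b_gt.CX.SmpD

/-!
The lower bounds for one sample.

PLAN for `core_low`.  `y = τa/τb ≥ 1`, `pt = mpt τb ξ x`, `pt' = mpt τb ξ' x'`.  If `‖x‖/τb < R⁻¹` use `mo.lowB` and `fo.low0`, otherwise
`ρm ≤ ‖x‖` (`plat`), `mo.lowA` and `fo.lowk`.  With `m` from the model put `n = (m₁, m₂, round (ξ₃ - ξ₃'))`, `a = par (lv n)`,
`p'' = fJ a p'`, `Δ = ξ - ξ' - cz n`, `Θ = cos (π (Δ₁ + Δ₂))`, `f = 1 - η/100`.  By `kx_shift` (with `k = m = 0`, `fib 0 0 = id`) and `nd_kx`, or directly: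
`nth Ko Θ p p'' = nth Ko Θ₀ p p'` (`Jo`, symmetry for the diagonal term), `nd Kc p p'' = nd Kc p p'` (`Jc`).
`fd2 = Δρ² + angH + vert` (definition of `vert`, `angH_fib`, norms), `τb² rep y pt (gam m pt') = Δρ² + angH x x'' + τa² Δ₁² + τb² Δ₂²` (`angH_mpt`),
`τb² cap = min (μ angH) (ω ρ ρ')`.  `2 - 2Θ ≤ π² (Δ₁ + Δ₂)² ≤ 20 (Δ₁² + Δ₂²) ≤ (η/100) (τa² Δ₁² + τb² Δ₂²)` (`big`).
`valid` at `√(r r')` (`conn`), `2 - 2 cos (2π Δ₃) ≥ 16 Δ₃²`, `Q_geom`, `l2 (1 + η/100) ≤ (1 - η/100) 9/25`.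
PLAN for `far`.  Choose the parity `ε ∈ {0,1}` with `‖cin x̂ (j^ε x̂')‖² ≥ 1/2` (`norm_cin_sq_add`); coordinates `ξ` of
`eta - eta'` (`exists_coord`), `n₁ = round ξ₁`, `n₃ = round ξ₃`, `n₂` within `1` of `ξ₂` with `n₁ + n₂ ≡ ε`; `D2_le_Q` with `r = ‖w‖`;
`Q ≤ (1 + η/100) (τa²/4 + τb² + Q c/4) ≤ 2 (size)² ≤ g²/10⁶`; `low0` with `Θ = 1`, `f = 1`, `nth Ko 1 ≤ 4 ≤ g²/10⁶`;
`nd kV = 24/25 Δρ² + 6/25 ρ ρ' (1 - u²)` (`nd_kV`, `nd_k0`), `1 - u² = 4 c² (1 + c) (1 - c) ≥ 3.4 (1 - c)`.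
-/

open scoped Quaternion
open Real

namespace Pool.Agent.Work.MP_0ba68b_gt.CX

variable {P : Par} {ρm η μ ω cc : ℕ → ℝ} {j : ℕ} {R bm : ℝ} {Wn : ℝ → Prop} {g : ℝ → ℝ}
  {a b c : Z3} {τa τb : ℝ} {Kc Ko : FP → FP → ℝ} {W : ℝ → ℝ} {K : Pt I0 → Pt I0 → ℝ}

lemma SmpLow_rep {τa τb : ℝ} (hτ : 0 < τb) (ξ ξ' : R3) (x : ℍ[ℝ]) (p' : FP) (m : ℤ × ℤ) {a : ℤ}
    (ha : Even (m.1 + m.2 - a)) :
    τb ^ 2 * rep (τa / τb) (mpt τb ξ x) (gam m (mpt τb ξ' p'.1)) =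
      (‖x‖ - ‖p'.1‖) ^ 2 + angH x (fJ a p').1 +
        (τa ^ 2 * (ξ.1 - ξ'.1 - m.1) ^ 2 + τb ^ 2 * (ξ.2.1 - ξ'.2.1 - m.2) ^ 2) := by
  rw [angH_mpt hτ ξ ξ' x p' m ha, rep, Dsq, rho_gam, rho_mpt hτ, rho_mpt hτ]
  simp only [sg, gam, shift, mpt]
  field_simp
  ring

lemma SD.SmpLow_model (h : SD P ρm η μ ω cc j R bm Wn g a b c τa τb Kc Ko W K) (ξ ξ' : R3)
    (p p' : FP) (hx : ‖p'.1‖ ≤ ‖p.1‖) : ∃ m : ℤ × ℤ, ∀ a : ℤ, Even (m.1 + m.2 - a) →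
      ∀ Θ f : ℝ, |Θ| ≤ 1 → 9 / 10 ≤ f → f ≤ 1 → ∃ k n,
        l2 * vert p (fib P.q0 P.θ k n (fJ a p')) + (l2 + η j / 4) * ((‖p.1‖ - ‖p'.1‖) ^ 2 +
          angH p.1 (fJ a p').1 +
          (τa ^ 2 * (ξ.1 - ξ'.1 - m.1) ^ 2 + τb ^ 2 * (ξ.2.1 - ξ'.2.1 - m.2) ^ 2)) ≤
        nd Kc p (fJ a p') + f * nth Ko Θ p (fJ a p') + (2 - 2 * Θ) +
          η j / 20 * (‖p.1‖ - ‖p'.1‖) ^ 2 +
          τb ^ 2 * (999 / 1000 * (W (‖p.1‖ / τb) ^ 2 * nd k0 (mpt τb ξ p.1) (mpt τb ξ' p'.1)) +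
            (1 - η j / 100) * nd K (mpt τb ξ p.1) (mpt τb ξ' p'.1)) := by
  have hτ := h.smp.pos
  have hτ2 : 0 < τb ^ 2 := by positivity
  have hρ : rho (mpt τb ξ' p'.1).1 ≤ rho (mpt τb ξ p.1).1 := by
    rw [rho_mpt hτ, rho_mpt hτ]; gcongr
  have hη := h.η_pos
  rcases lt_or_ge (‖p.1‖ / τb) R⁻¹ with hc | hc
  · obtain ⟨m, hm⟩ := h.mo.lowB _ _ hρ (by rwa [rho_mpt hτ])
    refine ⟨m, fun a ha Θ f h1 h2 h3 => ?_⟩
    obtain ⟨k, n, hk⟩ := h.fo.low0 p (fJ a p') Θ f h1 h2 h3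
    refine ⟨k, n, ?_⟩
    have e1 := SmpLow_rep (τa := τa) hτ ξ ξ' p.1 p' m ha
    have e2 := angH_mpt hτ ξ ξ' p.1 p' m ha
    have e3 : τb ^ 2 * (‖p.1‖ / τb - ‖p'.1‖ / τb) ^ 2 = (‖p.1‖ - ‖p'.1‖) ^ 2 := by field_simp
    have h4 := mul_le_mul_of_nonneg_left hm hτ2.le
    rw [rho_mpt hτ, rho_mpt hτ] at h4
    rw [norm_fJ] at hk
    rw [← e1]
    have h5 := angH_nonneg p.1 (fJ a p').1
    have h6 : 0 ≤ η j / 20 * (‖p.1‖ - ‖p'.1‖) ^ 2 := by positivity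
    linarith [sq_nonneg (‖p.1‖ - ‖p'.1‖)]
  · obtain ⟨m, hm⟩ := h.mo.lowA _ _ hρ
    refine ⟨m, fun a ha Θ f h1 h2 h3 => ?_⟩
    have hR : 0 < R := by linarith [h.R_ge]
    have hρm : ρm j ≤ max ‖p.1‖ ‖(fJ a p').1‖ := by
      refine le_max_of_le_left (le_of_mul_le_mul_right (h.smp.plat.trans ?_) hR)
      rw [le_div_iff₀ hτ, inv_mul_le_iff₀ hR] at hc
      linarith
    obtain ⟨k, n, hk⟩ := h.fo.lowk j p (fJ a p') Θ f hρm h1 h2 h3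
    refine ⟨k, n, ?_⟩
    have e1 := SmpLow_rep (τa := τa) hτ ξ ξ' p.1 p' m ha
    have e2 : τb ^ 2 * cap (μ j) (ω j) (mpt τb ξ p.1) (gam m (mpt τb ξ' p'.1)) =
        min (μ j * angH p.1 (fJ a p').1) (ω j * (‖p.1‖ * ‖p'.1‖)) := by
      rw [cap, mul_min_of_nonneg _ _ hτ2.le, angH_mpt hτ ξ ξ' p.1 p' m ha, rho_gam, rho_mpt hτ,
        rho_mpt hτ]
      congr 1
      · ring
      · field_simp
    have h4 := mul_le_mul_of_nonneg_left hm hτ2.le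
    rw [rho_mpt hτ] at h4
    rw [norm_fJ, ← e2] at hk
    rw [← e1]
    linarith

lemma SmpLow_cos (d : ℝ) : 16 * (d - round d) ^ 2 ≤ 2 - 2 * cos (2 * π * d) := by
  have h1 : cos (2 * π * d) = cos (2 * π * (d - round d)) := by
    rw [← cos_sub_int_mul_two_pi (2 * π * d) (round d)]; congr 1; ring
  have h2 := abs_sub_round d
  have h3 : |2 * π * (d - round d)| ≤ π := by
    rw [abs_mul, abs_of_pos two_pi_pos]; nlinarith [pi_pos]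
  have h4 := cos_le_one_sub_mul_cos_sq h3
  have h5 : 2 / π ^ 2 * (2 * π * (d - round d)) ^ 2 = 8 * (d - round d) ^ 2 := by
    have := pi_pos
    field_simp
    ring
  rw [h1]
  linarith

lemma SmpLow_theta (u v : ℝ) : 2 - 2 * cos (π * (u + v)) ≤ 20 * (u ^ 2 + v ^ 2) := by
  have h1 := one_sub_sq_div_two_le_cos (x := π * (u + v))
  have h2 : π ^ 2 ≤ 10 := by nlinarith [pi_lt_d2, pi_pos]
  have h3 : (u + v) ^ 2 ≤ 2 * (u ^ 2 + v ^ 2) := by nlinarith [sq_nonneg (u - v)]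
  have h4 : (π * (u + v)) ^ 2 ≤ 10 * (2 * (u ^ 2 + v ^ 2)) := by
    rw [mul_pow]; gcongr
  linarith

lemma SmpLow_nd (hs : PSD Kc) (hJ : ∀ a p p', Kc p (fJ a p') = Kc p p') (a : ℤ) (p p' : FP) :
    nd Kc p (fJ a p') = nd Kc p p' := by
  rw [nd, nd, hJ, hJ, hs.symm (fJ a p'), hJ]

lemma SmpLow_nth (hs : PSD Ko) (hJ : ∀ a p p', Ko p (fJ a p') = (-1) ^ a * Ko p p') (a : ℤ)
    (Θ : ℝ) (p p' : FP) : nth Ko ((-1) ^ a * Θ) p (fJ a p') = nth Ko Θ p p' := by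
  have e : ((-1 : ℝ) ^ a) * (-1) ^ a = 1 := by rw [← mul_zpow]; simp
  rw [nth, nth, hJ, hJ, hs.symm (fJ a p'), hJ]
  linear_combination (Ko p' p' - 2 * Ko p p' * Θ) * e

lemma SmpLow_fd2 (q0 : ℕ) (θ : ℝ) (k n a : ℤ) (p p' : FP) :
    fd2 p (fib q0 θ k n (fJ a p')) = (‖p.1‖ - ‖p'.1‖) ^ 2 + angH p.1 (fJ a p').1 +
      vert p (fib q0 θ k n (fJ a p')) := by
  rw [vert, angH_fib, norm_fib, norm_fJ]; ring

lemma SmpLow_fin {η V D A S Qd Qc d T2 T3 N H C s τ W k M : ℝ} (h0 : 0 ≤ η) (h1 : η ≤ 1 / 1000)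
    (hk : l2 * V + (l2 + η / 4) * (D + A + S) ≤ N + (1 - η / 100) * H + C + η / 20 * D +
      τ * (999 / 1000 * (W * k) + (1 - η / 100) * M))
    (hv : Qd ≤ (1 + η / 100) * (S + Qc * d ^ 2)) (h6 : C ≤ 20 * s) (h7 : 2000 * s ≤ η * S)
    (h9 : Qc * (16 * d ^ 2) ≤ T3) (hQ : 0 ≤ Qc) (hA : 0 ≤ A) (hD : 0 ≤ D) (hS : 0 ≤ S)
    (hT : 0 ≤ T2) :
    l2 * (D + A + V + Qd) + η / 100 * D ≤ N + 999 / 1000 * (W * (τ * k)) +
      (1 - η / 100) * (τ * M + 9 / 400 * (T2 + T3) + H) := by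
  have hq : 0 ≤ Qc * d ^ 2 := by positivity
  have a1 : η * (Qc * d ^ 2) ≤ 1 / 1000 * (Qc * d ^ 2) := by gcongr
  have a2 : (1 - η / 100) * (Qc * (16 * d ^ 2)) ≤ (1 - η / 100) * (T2 + T3) :=
    mul_le_mul_of_nonneg_left (by linarith) (by linarith)
  unfold l2 at *
  linarith [mul_nonneg h0 hS, mul_nonneg h0 hD, mul_nonneg h0 hA]

lemma SmpLow_sqrt {r r' : ℝ} (h0 : 0 ≤ r) (h : r ≤ r') : r ≤ √(r * r') ∧ √(r * r') ≤ r' :=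
  ⟨le_sqrt_of_sq_le (by nlinarith), sqrt_le_iff.2 ⟨h0.trans h, by nlinarith⟩⟩

lemma SmpLow_size {τa τb R Q : ℝ} (hτ : 0 < τb) (hτ' : 0 < τa) (hR : 2 ≤ R) (hQ : 0 ≤ Q) :
    τa ^ 2 + τb ^ 2 + Q + 1 ≤ (R * τb + τa + √Q + 1) ^ 2 := by
  have h3 := sq_sqrt hQ
  have h4 := sqrt_nonneg Q
  have h5 : τb ≤ R * τb := by nlinarith
  generalize √Q = s at *
  calc _ ≤ (τb + τa + s + 1) ^ 2 := by
        nlinarith [mul_pos hτ hτ', mul_nonneg hτ.le h4, mul_nonneg hτ'.le h4]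
    _ ≤ _ := by gcongr

theorem SD.core_low (h : SD P ρm η μ ω cc j R bm Wn g a b c τa τb Kc Ko W K) (ξ ξ' : R3)
    (p p' : FP) {r r' : ℝ} (hr : Wn r) (hr' : Wn r') (hx : ‖p'.1‖ ≤ ‖p.1‖) : ∃ (n : Z3) (k m : ℤ),
    l2 * (fd2 p (fib P.q0 P.θ k m (fJ (par (lv a b c n)) p')) +
        P.Q √(r * r') (comb a b c (ξ - ξ' - cz n))) + η j / 100 * (‖p.1‖ - ‖p'.1‖) ^ 2 ≤
      nd Kc p p' +
        999 / 1000 * (W (‖p.1‖ / τb) ^ 2 * (τb ^ 2 * nd k0 (mpt τb ξ p.1) (mpt τb ξ' p'.1))) +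
        (1 - η j / 100) * nd (kx P τb c K Ko) (ξ, p, r) (ξ', p', r') := by
  obtain ⟨m, hm⟩ := h.SmpLow_model ξ ξ' p p' hx
  have hη := h.η_pos
  have hη1 := h.η_le
  set n : Z3 := (m.1, m.2, round (ξ.2.2 - ξ'.2.2)) with hn
  have ha : Even (m.1 + m.2 - par (lv a b c n)) := h.smp.bas.even_lv n
  generalize hA : par (lv a b c n) = A at ha
  set d1 := ξ.1 - ξ'.1 - m.1 with hd1
  set d2 := ξ.2.1 - ξ'.2.1 - m.2 with hd2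
  set Θ0 := cos (π * ((ξ.1 + ξ.2.1) - (ξ'.1 + ξ'.2.1))) with hΘ0
  have eΘ : (-1) ^ A * Θ0 = cos (π * (d1 + d2)) := by
    have : π * (d1 + d2) = π * ((ξ.1 + ξ.2.1) - (ξ'.1 + ξ'.2.1)) - ((m.1 + m.2 : ℤ) : ℝ) * π := by
      rw [hd1, hd2]; push_cast; ring
    rw [this, cos_sub_int_mul_pi, show m.1 + m.2 = A + (m.1 + m.2 - A) by ring,
      zpow_add₀ (by norm_num), ha.neg_one_zpow, mul_one]
  obtain ⟨k, l, hk⟩ := hm A ha ((-1) ^ A * Θ0) (1 - η j / 100) (by rw [eΘ]; exact abs_cos_le_one _)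
    (by linarith) (by linarith)
  refine ⟨n, k, l, ?_⟩
  rw [hA, SmpLow_fd2, nd_kx]
  rw [SmpLow_nd h.fo.psdc h.fo.Jc, SmpLow_nth h.fo.psdo h.fo.Jo, eΘ] at hk
  have h0 := h.smp.nonneg r hr
  have h0' := h.smp.nonneg r' hr'
  have hw : Wn √(r * r') := by
    rcases le_total r r' with hle | hle
    · exact h.smp.conn r r' _ hr hr' (SmpLow_sqrt h0 hle).1 (SmpLow_sqrt h0 hle).2
    · rw [mul_comm]
      exact h.smp.conn r' r _ hr' hr (SmpLow_sqrt h0' hle).1 (SmpLow_sqrt h0' hle).2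
  have hv := (h.smp.valid _ hw (ξ - ξ' - cz n)).2
  have c1 : (ξ - ξ' - cz n).1 = d1 := rfl
  have c2 : (ξ - ξ' - cz n).2.1 = d2 := rfl
  have c3 : (ξ - ξ' - cz n).2.2 = ξ.2.2 - ξ'.2.2 - round (ξ.2.2 - ξ'.2.2) := rfl
  rw [c1, c2, c3] at hv
  have h3 := SmpLow_cos (ξ.2.2 - ξ'.2.2)
  have h4 := P.Q_geom (cz c) h0 h0'
  have h5 := P.Q_nonneg √(r * r') (cz c)
  have h6 := SmpLow_theta d1 d2
  have h7 : 2000 * (d1 ^ 2 + d2 ^ 2) ≤ η j * (τa ^ 2 * d1 ^ 2 + τb ^ 2 * d2 ^ 2) := by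
    have h8 : τb ^ 2 ≤ τa ^ 2 := pow_le_pow_left₀ h.smp.pos.le h.smp.ge 2
    have h9 := h.smp.big
    have : 2000 ≤ η j * τa ^ 2 := h9.trans (by gcongr)
    linarith only [this, h9, mul_le_mul_of_nonneg_right this (sq_nonneg d1),
      mul_le_mul_of_nonneg_right h9 (sq_nonneg d2)]
  exact SmpLow_fin hη.le hη1 hk hv h6 h7 (mul_le_mul h4 h3 (by positivity) (by positivity)) h5
    (angH_nonneg _ _) (sq_nonneg _) (by positivity) (sq_nonneg _)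

lemma SmpLow_par (x x' : S3) : ∃ e : ℤ, ∀ a : ℤ, Even (e - a) →
    1 / 2 ≤ ‖cin x (jj ^ a * x' : S3)‖ ^ 2 ∧ uu x (jj ^ a * x') ^ 2 = uu x x' ^ 2 := by
  have h := norm_cin_sq_add x x'
  rcases le_total (1 / 2) (‖cin x x'‖ ^ 2) with h1 | h1
  · refine ⟨0, fun a ha => ?_⟩
    obtain ⟨φ, e, -⟩ := jj_zpow_even (n := a) (by simpa using ha)
    rw [e, uu_ec, Metric.unitSphere.coe_mul, norm_cin_ec_right]
    exact ⟨h1, rfl⟩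
  · refine ⟨1, fun a ha => ?_⟩
    obtain ⟨φ, e, -⟩ := jj_zpow_odd (n := a) (by
      rw [Int.even_sub] at ha; exact Int.not_even_iff_odd.1 fun h => by simp [h] at ha)
    rw [e, mul_assoc, uu_ec, uu_jj, Metric.unitSphere.coe_mul, norm_cin_ec_right,
      Metric.unitSphere.coe_mul]
    exact ⟨by linarith, by ring⟩

lemma SmpLow_kV (X X' : VV) : ∃ e : ℤ, ∀ a : ℤ, Even (e - a) →
    2 / 5 * ((‖vx X‖ - ‖vx X'‖) ^ 2 + angH (vx X) (fJ a (fp X')).1) ≤ nd kV X X' := by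
  obtain ⟨e, he⟩ := SmpLow_par (hat (vx X)) (hat (vx X'))
  refine ⟨e, fun a ha => ?_⟩
  obtain ⟨h1, h2⟩ := he a ha
  rw [nd_kV one_pos 0 0, nd_k0, angH_mpt one_pos 0 0 (vx X) (fp X') (a, 0) (by simp), angP,
    rho_gam]
  simp only [rho_mpt one_pos]
  simp only [gam, mpt, fp, ang, add_zero, div_one, one_pow, one_mul]
  rw [← h2, uu]
  have h3 := norm_cin_le (hat (vx X)) (jj ^ a * hat (vx X'))
  have h4 := norm_nonneg (cin (hat (vx X)) (jj ^ a * hat (vx X') : S3))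
  generalize ‖cin (hat (vx X)) (jj ^ a * hat (vx X') : S3)‖ = t at *
  have h5 : 7 / 10 ≤ t := by nlinarith
  have h6 : 10 / 3 * (1 - t) ≤ 1 - (2 * t ^ 2 - 1) ^ 2 := by
    have : 1 - (2 * t ^ 2 - 1) ^ 2 = 4 * (t ^ 2 * (1 + t)) * (1 - t) := by ring
    rw [this]
    have : 1 / 2 * (1 + 7 / 10) ≤ t ^ 2 * (1 + t) := by gcongr
    gcongr
    linarith
  have h7 := mul_le_mul_of_nonneg_left h6 (mul_nonneg (norm_nonneg (vx X)) (norm_nonneg (vx X')))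
  linarith [sq_nonneg (‖vx X‖ - ‖vx X'‖)]

theorem SD.far (h : SD P ρm η μ ω cc j R bm Wn g a b c τa τb Kc Ko W K) (X X' : VV)
    (hw : Wn ‖vw X‖) (hw' : ‖vw X'‖ ≤ ‖vw X‖) :
    l2 * P.D2 X X' ≤ l2 * (‖vw X‖ - ‖vw X'‖) ^ 2 + nd Kc (fp X) (fp X') +
      99 / 100 * nd kV X X' + g ‖vw X‖ ^ 2 / 1000 := by
  obtain ⟨e, he⟩ := SmpLow_kV X X'
  obtain ⟨crd, hc, -⟩ := h.smp.bas.exists_coord
  set ξ := crd (P.eta (Complex.arg (vw X)) (vs X) - P.eta (Complex.arg (vw X')) (vs X')) with hξ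
  obtain ⟨N, hN, hN'⟩ := exists_even (ξ.2.1 - (e - round ξ.1 : ℤ))
  set n : Z3 := (round ξ.1, N + (e - round ξ.1), round ξ.2.2) with hn
  have ha : Even (e - par (lv a b c n)) := by
    have h1 := (h.smp.bas.even_lv n).sub hN
    have e1 : n.1 + n.2.1 = e + N := by
      change round ξ.1 + (N + (e - round ξ.1)) = _
      ring
    rw [e1] at h1
    rwa [show e + N - par (lv a b c n) - N = e - par (lv a b c n) by ring] at h1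
  obtain ⟨k, l, hk⟩ := h.fo.low0 (fp X) (fJ (par (lv a b c n)) (fp X')) 1 1 (by simp)
    (by norm_num) le_rfl
  have hD := h.good.D2_le_Q k l (lv a b c n) X X' (r := ‖vw X‖) (by
    rw [sq]; gcongr)
  rw [← hc (P.eta _ (vs X) - P.eta _ (vs X')), ← hξ, ← comb_cz, ← comb_sub, SmpLow_fd2] at hD
  have hv := (h.smp.valid _ hw (ξ - cz n)).2
  have hs := h.smp.size _ _ hw hw
  have c1 : (ξ - cz n).1 ^ 2 ≤ 1 := by
    have := abs_sub_round ξ.1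
    exact (sq_le_one_iff_abs_le_one _).2 (by change |ξ.1 - round ξ.1| ≤ 1; linarith)
  have c2 : (ξ - cz n).2.1 ^ 2 ≤ 1 := by
    refine (sq_le_one_iff_abs_le_one _).2 ?_
    change |ξ.2.1 - ((N + (e - round ξ.1) : ℤ) : ℝ)| ≤ 1
    rwa [Int.cast_add, add_comm, ← sub_sub]
  have c3 : (ξ - cz n).2.2 ^ 2 ≤ 1 := by
    have := abs_sub_round ξ.2.2
    exact (sq_le_one_iff_abs_le_one _).2 (by change |ξ.2.2 - round ξ.2.2| ≤ 1; linarith)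
  have hQ := P.Q_nonneg ‖vw X‖ (cz c)
  have hη := h.η_pos
  have hη1 := h.η_le
  have hτ := h.smp.pos
  have hτ' : 0 < τa := hτ.trans_le h.smp.ge
  have h1 : P.Q ‖vw X‖ (comb a b c (ξ - cz n)) ≤ 2 * (τa ^ 2 + τb ^ 2 + P.Q ‖vw X‖ (cz c)) := by
    refine hv.trans (mul_le_mul (by linarith) ?_ (by positivity) (by norm_num))
    linarith [mul_le_mul_of_nonneg_left c1 (sq_nonneg τa), mul_le_mul_of_nonneg_left c3 hQ,
      mul_le_mul_of_nonneg_left c2 (sq_nonneg τb)]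
  have h2 := SmpLow_size hτ hτ' h.R_ge hQ
  have h3 : η j * g ‖vw X‖ ^ 2 ≤ 1 / 1000 * g ‖vw X‖ ^ 2 := by gcongr
  have h4 : nth Ko 1 (fp X) (fJ (par (lv a b c n)) (fp X')) ≤ 4 := by
    have := h.fo.psdo.nd_le (fp X) (fJ (par (lv a b c n)) (fp X'))
    rw [nd] at this
    rw [nth]
    linarith only [this, h.fo.diag (fp X), h.fo.diag (fJ (par (lv a b c n)) (fp X'))]
  rw [SmpLow_nd h.fo.psdc h.fo.Jc, norm_fJ] at hk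
  have h5 := he _ ha
  have h6 := angH_nonneg (vx X) (fJ (par (lv a b c n)) (fp X')).1
  have e1 : (fp X).1 = vx X := rfl
  have e2 : (fp X').1 = vx X' := rfl
  rw [e1, e2] at hk hD
  unfold l2 at *
  linarith [sq_nonneg (‖vx X‖ - ‖vx X'‖), sq_nonneg τa, sq_nonneg τb]

end Pool.Agent.Work.MP_0ba68b_gt.CX
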